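import Pool.Agent.H4G.Ctwo.G2chain

/-!
# (G2) for the type `(1, [4,2,0])` (helper31)

`a = 2 mod 4`, `b` odd, the canonical state is `KC a 1 0 b 1 (-1)`.
-/

set_option autoImplicit false

namespace Pool.Agent.H4G

theorem okT_aux {a q b x : ℤ} (ha : 2 ≤ a) (hx : 0 < x) (hxb : x < b) :
    (KC a 1 q b 1 (-x)).Ok := by
  refine ⟨((1 - a, 0), (q, -1), (1, 0), (0, 1), (-x, -1), (b, 1)), ⟨?_, ?_, ?_⟩, rfl, rfl, ?_,
    ?_, ?_, ?_⟩
  · simp only [cr]; linarith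
  · simp only [KC, KS, cr]; norm_num
  · simp only [KC, KS]
    have h1 : Lc a 1 q = lat (a, 0) (-q, 1) := by
      have h2 := Lx_eq (a' := a) (x := -q) (by linarith)
      rw [neg_neg] at h2
      exact h2
    rw [h1]
    exact closure_pair_eq (α := 0) (β := -1) (γ := -1) (δ := 0) (by ext <;> simp)
      (by ext <;> simp) (Or.inr (by norm_num))
  · simp [KC, KS, cr]
  · simp only [KC, KS, cr]; linarith
  · simp only [cr]; linarith
  · simp only [KC, KS]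
    rw [Lx_eq (by linarith)]
    exact closure_pair_eq (α := 0) (β := -1) (γ := 1) (δ := 0) (by ext <;> simp)
      (by ext <;> simp) (Or.inl (by norm_num))

theorem okT {a q b x : ℤ} (ha : 2 ≤ a) (hb : 0 < b) (hx : ¬ b ∣ x) : (KC a 1 q b 1 (-x)).Ok := by
  have e : KC a 1 q b 1 (-x) = KC a 1 q b 1 (-(x % b)) := by
    refine KC.congr (by simp) (by simp) (by simp) ?_
    have : -(x % b) - -x = x - x % b := by ring
    rw [this]; exact Int.dvd_self_sub_emod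
  rw [e]
  refine okT_aux ha ?_ (Int.emod_lt_of_pos _ hb)
  rcases (Int.emod_nonneg x hb.ne').lt_or_eq with h | h
  · exact h
  · exact absurd (Int.dvd_of_emod_eq_zero h.symm) hx

/-- ONE STEP `b → c` of (G2), type `(1, [4,2,0])` -/
theorem KC.stepT {J Z : ℕ} {N a b a1 c : ℤ} (hcap : Cap J Z) (ha4 : a % 4 = 2)
    (hb2 : ¬ (2 : ℤ) ∣ b) (ha14 : a1 % 4 = 2) (hN : a + 1 + b = N) (hN' : a1 + 1 + c = N)
    (hb : 2 < b) (hbc : b < c) (hZ : b * c ≤ Z) (gb : GLev N b) (gc : GLev N c)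
    (hst : GStep N 2 3 b c) (hsize : (1 + (c - b)) * (2 * (J : ℤ) ^ 2 + 2) ≤ b)
    (hroom : 3 * (c - b) < a) :
    SEq (KC a 1 0 b 1 (-1)) (KC a1 1 0 c 1 (-1)) := by
  obtain ⟨e, he⟩ : ∃ e : ℤ, c = b + e := ⟨c - b, by ring⟩
  subst he
  have he0 : 0 < e := by linarith
  have ea1 : a1 = a - e := by linarith
  subst ea1
  have e1 : b + e - b = e := by ring
  rw [e1] at hsize hroom
  have he4 : (4 : ℤ) ∣ e := by omega
  have he2 : (2 : ℤ) ∣ e := by omega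
  obtain ⟨k, hk⟩ : ∃ k : ℤ, a = 2 * k + e := ⟨(a - e) / 2, by omega⟩
  have hk2 : ¬ (2 : ℤ) ∣ k := by omega
  have hek : e < k := by linarith
  have ha0 : 0 < a := by linarith
  have hb0 : 0 < b := by linarith
  have hcop : IsCoprime (1 + e) (1 + k) := by
    apply isCoprime_of_prime
    intro l hl h1 h2
    by_cases hl2 : l = 2
    · subst hl2
      have h2' : (2 : ℤ) ∣ 1 + e := by exact_mod_cast h2
      omega
    · refine hst.A l hl hl2 ?_ (by
        have e3 : 1 + (b + e) - b = 1 + e := by ring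
        rw [e3]; exact h2)
      have e3 : N - b + 2 = 2 * (1 + k) + (1 + e) := by rw [← hN, hk]; ring
      rw [e3]; exact dvd_add (h1.mul_left 2) h2
  have hB : ∀ l : ℕ, l.Prime → l ≠ 2 → (l : ℤ) ∣ 1 + e → (l : ℤ) ∣ b + e →
      ¬ (l : ℤ) ∣ 2 + k := by
    intro l hl hl2 h1 h2 h3
    refine hst.B l hl hl2 ?_ h2
    have e3 : N + 3 = 2 * (2 + k) + (b + e) := by rw [← hN, hk]; ring
    rw [e3]; exact dvd_add (h3.mul_left 2) h2
  obtain ⟨X, Y, hXY, hY0, hYb, hX, hYc, hYe, -⟩ :=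
    exists_XY hcap hb0 he0.le hZ he2 hcop hB hsize 0
  have hXc : IsCoprime X b := (hX.isCoprime hb2).symm
  obtain ⟨α, β, hαβ⟩ := hXc
  set z : ℤ := -(Y * α) with hz
  have hzX : b ∣ z * X + Y := ⟨Y * β, by rw [hz]; linear_combination (-Y) * hαβ⟩
  have hzoc : OC b z := by
    intro l hl hl2 h1 h2
    apply hYc l hl hl2 h1
    have h3 := dvd_sub (h1.trans hzX) (h2.mul_right X)
    have e3 : z * X + Y - z * X = Y := by ring
    rwa [e3] at h3
  have hzc : IsCoprime z b := (hzoc.isCoprime hb2).symm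
  have hnd : ¬ b ∣ -z := by
    intro h
    have h1 : b ∣ z := (dvd_neg).1 h
    obtain ⟨l, hl, hd⟩ := Nat.exists_prime_and_dvd (n := b.natAbs) (by omega)
    have h2 : (l : ℤ) ∣ b := Int.natCast_dvd.2 hd
    exact not_dvd_of_isCoprime hzc hl h2 (h2.trans h1)
  -- the first move
  have ok1 : (KC a 1 2 b 1 (- -z)).Ok := okT (by linarith) hb0 hnd
  have s1 := KC.g1_420 (m := k + e / 2) (x := -z) (by omega) (by omega) hb0 (by omega) hb2
    (gb.ocR (by linarith)) isCoprime_one_left (dvd_refl 2) hzc.neg_left ok1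
  rw [neg_neg] at s1
  have s2 := KC.mirror s1.ok
  -- the exit
  have hPrm : Prm b z (-1) := by
    intro l hl _ _ h
    exact prime_not_dvd_one hl ((dvd_neg).1 h)
  have s2ok := s2.ok'
  rw [hk] at s2ok
  have s3 := KC.expT (X := X) (Y := Y) hb0 hPrm s2ok hk2 he2 he0.le hek (by
    have e3 : z * X - -1 * Y = z * X + Y := by ring
    rw [e3]; exact hzX) hXY hY0 hYb
  have s4 := KC.mirror s3.ok'
  -- the new state is generic
  have hk0 : 0 < k := by linarith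
  have hc0 : 0 < b + e := by linarith
  have hc2 : ¬ (2 : ℤ) ∣ b + e := by omega
  have hQ : IsCoprime (2 * -(1 + k) + k * (1 + e)) (2 * k) := by
    refine IsCoprime.mul_right ?_ ?_
    · refine ((Prime.coprime_iff_not_dvd Int.prime_two).2 ?_).symm
      intro h
      have h1 : (2 : ℤ) ∣ k * (1 + e) := by
        have := (dvd_add_right (dvd_mul_right 2 (-(1 + k)))).1 h
        exact this
      rcases Int.prime_two.dvd_or_dvd h1 with h2 | h2
      · exact hk2 h2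
      · omega
    · have h1 : IsCoprime (2 : ℤ) k := (Prime.coprime_iff_not_dvd Int.prime_two).2 hk2
      have h2 : IsCoprime (-2 : ℤ) k := h1.neg_left
      have e3 : 2 * -(1 + k) + k * (1 + e) = -2 + k * (e - 1) := by ring
      rw [e3]
      exact IsCoprime.add_mul_left_left h2 (e - 1)
  have hP2 : (2 : ℤ) ∣ -(2 * (X + (Y + e) * -(1 + k)) + k * (-Y + (Y + e) * (1 + e))) := by
    refine (dvd_neg).2 (dvd_add (dvd_mul_right _ _) ?_)
    have e3 : k * (-Y + (Y + e) * (1 + e)) = e * (k * (Y + 1 + e)) := by ring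
    rw [e3]; exact he2.mul_right _
  have hYu : IsCoprime (Y + e) (b + e) := (hYe.isCoprime hc2).symm
  have hoc : OC (2 * k) (b + e + 1) := gc.ocR (by rw [← hN, hk]; ring)
  have s5 := KC.g1_420 (a := 2 * k) (m := k) (x := Y + e) rfl hk0 hc0 hk2 hc2 hoc hQ hP2 hYu s4.ok'
  have e5 : a - e = 2 * k := by linarith
  rw [e5]
  rw [← hk] at s3
  exact s1.symm.trans (s2.trans (s3.trans (s4.trans s5)))

/-- (G2), type `(1, [4,2,0])`: the canonical states of two good levels -/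
theorem KC.g2canT {J Z : ℕ} {N a a' b b' : ℤ} (hcap : Cap J Z) (hZ : (2 * N) ^ 4 ≤ Z)
    (hJ : 1 ≤ J) (ha4 : a % 4 = 2) (hb4 : b % 4 = 2) (ha2 : ¬ (2 : ℤ) ∣ a')
    (hN : a + 1 + a' = N) (hN' : b + 1 + b' = N) (ga : GLev N a) (gb : GLev N b)
    (ha : 2 ^ 9 * (J : ℤ) ^ 4 ≤ a) (ha' : 2 ^ 9 * (J : ℤ) ^ 4 ≤ a')
    (hb : 2 ^ 9 * (J : ℤ) ^ 4 ≤ b) (hb' : 2 ^ 9 * (J : ℤ) ^ 4 ≤ b') :
    SEq (KC a 1 0 a' 1 (-1)) (KC b 1 0 b' 1 (-1)) := by
  have hJ1 : (1 : ℤ) ≤ (J : ℤ) := by exact_mod_cast hJ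
  have hJ2 : (1 : ℤ) ≤ (J : ℤ) ^ 2 := by nlinarith
  have hJ4 : (J : ℤ) ^ 2 ≤ (J : ℤ) ^ 4 := by nlinarith
  have hN3 : 3 ≤ N := by linarith
  have gr : ∀ {x x' : ℤ}, x + 1 + x' = N → GLev N x → GLev N x' := by
    intro x x' h g
    refine ⟨g.right h, ?_⟩
    intro l hl hl2 h3 h4
    refine g.1 l hl hl2 ?_ h4
    have : x = N - (x' + 1) := by linarith
    rw [this]; exact dvd_sub h4 h3
  set R : ℤ → ℤ → Prop := fun x y =>
    SEq (KC (N - 1 - x) 1 0 x 1 (-1)) (KC (N - 1 - y) 1 0 y 1 (-1)) with hR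
  have hsize : ∀ x y : ℤ, 2 ^ 9 * (J : ℤ) ^ 4 ≤ x → y - x ≤ 64 * (J : ℤ) ^ 2 → x < y →
      (1 + (y - x)) * (2 * (J : ℤ) ^ 2 + 2) ≤ x := by
    intro x y h1 h2 h3
    have h4 : (1 + (y - x)) * (2 * (J : ℤ) ^ 2 + 2) ≤
        (65 * (J : ℤ) ^ 2) * (4 * (J : ℤ) ^ 2) := by
      refine mul_le_mul (by linarith) (by linarith) (by linarith) (by positivity)
    have h5 : (65 * (J : ℤ) ^ 2) * (4 * (J : ℤ) ^ 2) = 260 * (J : ℤ) ^ 4 := by ring
    nlinarith
  have main : ∀ x y : ℤ, GLev N x → GLev N y → (N - 1 - x) % 4 = 2 → (N - 1 - y) % 4 = 2 →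
      2 ^ 9 * (J : ℤ) ^ 4 ≤ x → x ≤ y → y + 2 ^ 9 * (J : ℤ) ^ 4 ≤ N - 1 → R x y := by
    intro x y gx gy tx ty hlx hxy hyh
    refine chain_levels (c0 := a') (lo := 2 ^ 9 * (J : ℤ) ^ 4)
      (hi := N - 1 - 200 * (J : ℤ) ^ 2) R (fun x => (N - 1 - x) % 4 = 2) hcap hZ hN3 hJ
      (Or.inr ⟨rfl, Or.inr rfl⟩)
      (fun _ _ h => h.symm) (fun _ _ _ h h' => h.trans h')
      (fun c hc => by omega) (by positivity) (by linarith)
      ?_ _ x y rfl gx gy tx ty hlx hxy (by linarith)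
    intro x c gx gc hst tx tc hlx hxc hch hd
    have hZ' : x * c ≤ Z := by
      refine le_trans ?_ hZ
      have h1 : x * c ≤ N * N := mul_le_mul (by linarith) (by linarith) (by linarith) (by linarith)
      have h2 : N * N ≤ (2 * N) ^ 4 := by
        have h3 : (1 : ℤ) ≤ N * N := by nlinarith
        have e : (2 * N) ^ 4 = 16 * ((N * N) * (N * N)) := by ring
        rw [e]; nlinarith
      exact h1.trans h2
    exact KC.stepT hcap tx (by omega) tc (by ring) (by ring) (by linarith) hxc hZ' gx gc hst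
      (hsize x c hlx hd hxc) (by linarith)
  have e1 : N - 1 - a' = a := by linarith
  have e2 : N - 1 - b' = b := by linarith
  have ta : (N - 1 - a') % 4 = 2 := by rw [e1]; exact ha4
  have tb : (N - 1 - b') % 4 = 2 := by rw [e2]; exact hb4
  rcases le_total a' b' with hab | hab
  · have := main a' b' (gr hN ga) (gr hN' gb) ta tb ha' hab (by linarith)
    simp only [hR] at this
    rwa [e1, e2] at this
  · have := main b' a' (gr hN' gb) (gr hN ga) tb ta hb' hab (by linarith)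
    simp only [hR] at this
    rw [e1, e2] at this
    exact this.symm

/-- (G2), type `(1, [4,2,0])`: generic states -/
theorem KC.g2T {J Z : ℕ} {N a a' b b' p q x p1 q1 x1 : ℤ} (hcap : Cap J Z)
    (hZ : (2 * N) ^ 4 ≤ Z) (hJ : 1 ≤ J) (ha4 : a % 4 = 2) (hb4 : b % 4 = 2)
    (ha2 : ¬ (2 : ℤ) ∣ a') (hN : a + 1 + a' = N) (hN' : b + 1 + b' = N) (ga : GLev N a)
    (gb : GLev N b) (ha : 2 ^ 9 * (J : ℤ) ^ 4 ≤ a) (ha' : 2 ^ 9 * (J : ℤ) ^ 4 ≤ a')
    (hb : 2 ^ 9 * (J : ℤ) ^ 4 ≤ b) (hb' : 2 ^ 9 * (J : ℤ) ^ 4 ≤ b')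
    (hp : IsCoprime p a) (hq : (2 : ℤ) ∣ q) (hx : IsCoprime x a')
    (hp1 : IsCoprime p1 b) (hq1 : (2 : ℤ) ∣ q1) (hx1 : IsCoprime x1 b')
    (hok : (KC a p q a' 1 (-x)).Ok) (hok1 : (KC b p1 q1 b' 1 (-x1)).Ok) :
    SEq (KC a p q a' 1 (-x)) (KC b p1 q1 b' 1 (-x1)) := by
  have hJ1 : (1 : ℤ) ≤ (J : ℤ) := by exact_mod_cast hJ
  have hJ4 : (1 : ℤ) ≤ (J : ℤ) ^ 4 := one_le_pow₀ hJ1
  have hb2 : ¬ (2 : ℤ) ∣ b' := by omega
  have s1 := KC.g1_420 (m := a / 2) (by omega) (by omega) (by linarith) (by omega) ha2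
    (ga.ocL hN) hp hq hx hok
  have s2 := KC.g1_420 (m := b / 2) (by omega) (by omega) (by linarith) (by omega) hb2
    (gb.ocL hN') hp1 hq1 hx1 hok1
  exact s1.trans ((KC.g2canT hcap hZ hJ ha4 hb4 ha2 hN hN' ga gb ha ha' hb hb').trans s2.symm)

end Pool.Agent.H4G
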