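import Pool.Agent.H4G.FinC
import Pool.Agent.H4G.Fam
import Pool.Agent.H4G.Arith.Full
import Pool.Agent.H4G.Ctwo.G2T

/-!
# Assembly of line C (helper37)

No canonical states are needed: a class is represented by any of its chains.
-/

set_option autoImplicit false

namespace Pool.Agent.H4G

open MatrixGroups

/-- a generic Z-state of the 2-adic class `(ζ, ξ)` at a good level in range -/
def GenS (J : ℕ) (N ζ ξ : ℤ) (G : PSt) : Prop :=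
  ∃ b w b' y : ℤ, G = KC b w (-1) b' 1 (-y) ∧ G.Ok ∧ Ty ζ ξ b b' ∧ b + 1 + b' = N ∧ GLev N b ∧
    2 ^ 9 * (J : ℤ) ^ 4 ≤ b ∧ 2 ^ 9 * (J : ℤ) ^ 4 ≤ b' ∧ OC b w ∧ OC b' y ∧
    ((2 : ℤ) ∣ b → (2 : ℤ) ∣ w - ζ) ∧ ((2 : ℤ) ∣ b' → (2 : ℤ) ∣ ξ - y)

/-- a generic state of the type `(1, [4,2,0])` -/
def GenT (J : ℕ) (N : ℤ) (G : PSt) : Prop :=
  ∃ b p q b' y : ℤ, G = KC b p q b' 1 (-y) ∧ G.Ok ∧ b % 4 = 2 ∧ ¬ (2 : ℤ) ∣ b' ∧
    b + 1 + b' = N ∧ GLev N b ∧ 2 ^ 9 * (J : ℤ) ^ 4 ≤ b ∧ 2 ^ 9 * (J : ℤ) ^ 4 ≤ b' ∧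
    IsCoprime p b ∧ (2 : ℤ) ∣ q ∧ IsCoprime y b'

theorem GenS.seq {J Z : ℕ} {N ζ ξ : ℤ} (hcap : Cap J Z) (hZ : (2 * N) ^ 4 ≤ Z) (hJ : 1 ≤ J)
    {G G' : PSt} (h : GenS J N ζ ξ G) (h' : GenS J N ζ ξ G') : SEq G G' := by
  obtain ⟨a, z, a', x, rfl, k0, k1, k2, k3, k4, k5, k6, k7, k8, k9⟩ := h
  obtain ⟨b, w, b', y, rfl, l0, l1, l2, l3, l4, l5, l6, l7, l8, l9⟩ := h'
  exact Ty.g2 hcap hZ hJ k1 l1 k2 l2 k3 l3 k4 k5 l4 l5 k6 k7 l6 l7 k8 k9 l8 l9 k0 l0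

theorem GenT.seq {J Z : ℕ} {N : ℤ} (hcap : Cap J Z) (hZ : (2 * N) ^ 4 ≤ Z) (hJ : 1 ≤ J)
    {G G' : PSt} (h : GenT J N G) (h' : GenT J N G') : SEq G G' := by
  obtain ⟨a, p, q, a', x, rfl, k0, k1, k2, k3, k4, k5, k6, k7, k8, k9⟩ := h
  obtain ⟨b, p1, q1, b', y, rfl, l0, l1, l2, l3, l4, l5, l6, l7, l8, l9⟩ := h'
  exact KC.g2T hcap hZ hJ k1 l1 k2 k3 l3 k4 l4 k5 k6 l5 l6 k7 k8 k9 l7 l8 l9 k0 l0

/-- the four classes, `N` odd -/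
def ClsO (J : ℕ) (N : ℤ) (S : PSt) : Fin 4 → Prop
  | 0 => ∃ G, SEq S G ∧ GenS J N 2 2 G
  | 1 => ∃ G, SEq S G ∧ GenS J N 1 1 G
  | 2 => SEq S (KC 2 1 0 (N - 3) 2 (-1))
  | 3 => SEq S (KC 2 1 (-1) (N - 3) 1 (-1))

/-- the three classes, `N` even -/
def ClsE (J : ℕ) (N : ℤ) (S : PSt) : Fin 3 → Prop
  | 0 => ∃ G, SEq S G ∧ GenS J N 2 1 G
  | 1 => ∃ G, SEq S G ∧ GenT J N G
  | 2 => ∃ G, SEq S G ∧ GenS J N 1 1 G

theorem ClsO.seq {J Z : ℕ} {N : ℤ} (hcap : Cap J Z) (hZ : (2 * N) ^ 4 ≤ Z) (hJ : 1 ≤ J)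
    {S S' : PSt} {k : Fin 4} (h : ClsO J N S k) (h' : ClsO J N S' k) : SEq S S' := by
  match k, h, h' with
  | 0, h, h' =>
    obtain ⟨G, h1, h2⟩ := h
    obtain ⟨G', h1', h2'⟩ := h'
    exact (h1.trans (h2.seq hcap hZ hJ h2')).trans h1'.symm
  | 1, h, h' =>
    obtain ⟨G, h1, h2⟩ := h
    obtain ⟨G', h1', h2'⟩ := h'
    exact (h1.trans (h2.seq hcap hZ hJ h2')).trans h1'.symm
  | 2, h, h' => exact SEq.trans (show SEq S _ from h) (SEq.symm (show SEq S' _ from h'))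
  | 3, h, h' => exact SEq.trans (show SEq S _ from h) (SEq.symm (show SEq S' _ from h'))

theorem ClsE.seq {J Z : ℕ} {N : ℤ} (hcap : Cap J Z) (hZ : (2 * N) ^ 4 ≤ Z) (hJ : 1 ≤ J)
    {S S' : PSt} {k : Fin 3} (h : ClsE J N S k) (h' : ClsE J N S' k) : SEq S S' := by
  match k, h, h' with
  | 0, h, h' =>
    obtain ⟨G, h1, h2⟩ := h
    obtain ⟨G', h1', h2'⟩ := h'
    exact (h1.trans (h2.seq hcap hZ hJ h2')).trans h1'.symm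
  | 1, h, h' =>
    obtain ⟨G, h1, h2⟩ := h
    obtain ⟨G', h1', h2'⟩ := h'
    exact (h1.trans (h2.seq hcap hZ hJ h2')).trans h1'.symm
  | 2, h, h' =>
    obtain ⟨G, h1, h2⟩ := h
    obtain ⟨G', h1', h2'⟩ := h'
    exact (h1.trans (h2.seq hcap hZ hJ h2')).trans h1'.symm

/-- representatives of the classes -/
theorem exists_canon {K : Type} {N : ℕ} (Cls : PSt → K → Prop)
    (hseq : ∀ k S S', Cls S k → Cls S' k → SEq S S')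
    (hcov : ∀ c, Pos c → span c = ⊤ → vol c = N → ∃ k, Cls (stOf c) k) :
    ∃ canon : K → C6, ∀ c, Pos c → span c = ⊤ → vol c = N → ∃ k, CEq c (canon k) := by
  classical
  refine ⟨fun k => if h : ∃ c, Pos c ∧ Cls (stOf c) k then h.choose
    else ((0, 0), (0, 0), (0, 0), (0, 0), (0, 0), (0, 0)), fun c h1 h2 h3 => ?_⟩
  obtain ⟨k, hk⟩ := hcov c h1 h2 h3
  have hex : ∃ c, Pos c ∧ Cls (stOf c) k := ⟨c, h1, hk⟩
  refine ⟨k, ?_⟩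
  beta_reduce
  rw [dif_pos hex]
  have h4 := hex.choose_spec
  exact (hseq k _ _ hk h4.2).ceq (isRep_stOf h1) (isRep_stOf h4.1)

/-- every chain of volume `N` leads to a state with `A = 1`, `d = 1` (lines A and C1) -/
def RedK (N : ℕ) : Prop := ∀ c, Pos c → span c = ⊤ → vol c = N →
  ∃ (a z a' : ℤ) (M : AddSubgroup Z2), SEq (stOf c) (KS (Lc a z (-1)) M) ∧ 0 < a ∧
    IsArea M a' ∧ a + 1 + a' = N

/-- the K-level, `N` odd -/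
def KLevO (J : ℕ) (N : ℤ) : Prop := ∀ (a z a' : ℤ) (M : AddSubgroup Z2), 0 < a → IsArea M a' →
  a + 1 + a' = N → (KS (Lc a z (-1)) M).Ok → ∃ k, ClsO J N (KS (Lc a z (-1)) M) k

/-- the K-level, `N` even -/
def KLevE (J : ℕ) (N : ℤ) : Prop := ∀ (a z a' : ℤ) (M : AddSubgroup Z2), 0 < a → IsArea M a' →
  a + 1 + a' = N → (KS (Lc a z (-1)) M).Ok → ∃ k, ClsE J N (KS (Lc a z (-1)) M) k

theorem ClsO.of_seq {J : ℕ} {N : ℤ} {S T : PSt} (h : SEq S T) {k : Fin 4} (hk : ClsO J N T k) :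
    ClsO J N S k := by
  match k, hk with
  | 0, hk => obtain ⟨G, h1, h2⟩ := hk; exact ⟨G, h.trans h1, h2⟩
  | 1, hk => obtain ⟨G, h1, h2⟩ := hk; exact ⟨G, h.trans h1, h2⟩
  | 2, hk => exact h.trans hk
  | 3, hk => exact h.trans hk

theorem ClsE.of_seq {J : ℕ} {N : ℤ} {S T : PSt} (h : SEq S T) {k : Fin 3} (hk : ClsE J N T k) :
    ClsE J N S k := by
  match k, hk with
  | 0, hk => obtain ⟨G, h1, h2⟩ := hk; exact ⟨G, h.trans h1, h2⟩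
  | 1, hk => obtain ⟨G, h1, h2⟩ := hk; exact ⟨G, h.trans h1, h2⟩
  | 2, hk => obtain ⟨G, h1, h2⟩ := hk; exact ⟨G, h.trans h1, h2⟩

/-- Q1 (ii) for `N` odd, from the reduction and the K-level -/
theorem orbits_odd_of {N J Z : ℕ} (hodd : Odd N) (h8 : 8 < N) (hcap : Cap J Z)
    (hZ : (2 * (N : ℤ)) ^ 4 ≤ Z) (hJ : 1 ≤ J) (hR : RedK N) (hK : KLevO J N) :
    ∃ o : Fin 4 → Ori N, (∀ k, (o k).PH ∧ ∀ v, (o k).HLK v ↔ v = valO k) ∧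
      ∀ p : Ori N, p.PH → ∃! k, p.SameOrbit (o k) := by
  obtain ⟨canon, hc⟩ := exists_canon (N := N) (fun S k => ClsO J N S k)
    (fun k S S' h h' => ClsO.seq hcap hZ hJ h h') (by
      intro c h1 h2 h3
      obtain ⟨a, z, a', M, k1, k2, k3, k4⟩ := hR c h1 h2 h3
      obtain ⟨k, hk⟩ := hK a z a' M k2 k3 k4 k1.ok'
      exact ⟨k, ClsO.of_seq k1 hk⟩)
  exact orbits_of valO_inj hc (exists_valO hodd h8)

/-- Q1 (iii) for `N` even, from the reduction and the K-level -/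
theorem orbits_even_of {N J Z : ℕ} (heven : Even N) (h8 : 8 < N) (hcap : Cap J Z)
    (hZ : (2 * (N : ℤ)) ^ 4 ≤ Z) (hJ : 1 ≤ J) (hR : RedK N) (hK : KLevE J N) :
    ∃ o : Fin 3 → Ori N, (∀ k, (o k).PH ∧ ∀ v, (o k).HLK v ↔ v = valE k) ∧
      ∀ p : Ori N, p.PH → ∃! k, p.SameOrbit (o k) := by
  obtain ⟨canon, hc⟩ := exists_canon (N := N) (fun S k => ClsE J N S k)
    (fun k S S' h h' => ClsE.seq hcap hZ hJ h h') (by
      intro c h1 h2 h3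
      obtain ⟨a, z, a', M, k1, k2, k3, k4⟩ := hR c h1 h2 h3
      obtain ⟨k, hk⟩ := hK a z a' M k2 k3 k4 k1.ok'
      exact ⟨k, ClsE.of_seq k1 hk⟩)
  exact orbits_of valE_inj hc (exists_valE heven h8)

end Pool.Agent.H4G
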