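import Pool.Agent.H4G.FinC
import Pool.Agent.H4G.Fam

/-!
# All large `N`: from chains to orbits (helper19)

Part (B) of the assembly: the classification of the chains gives Q1 (ii) and (iii).
-/

set_option autoImplicit false

namespace Pool.Agent.H4G

/-- every primitive chain of volume `N` is equivalent to one of `n` chains -/
def ChainsN (N n : ℕ) : Prop := ∃ canon : Fin n → C6,
  ∀ c : C6, Pos c → span c = ⊤ → vol c = N → ∃ k, CEq c (canon k)

/-- the primitive origamis of hyperelliptic type with `N` squares form exactly `n` orbits, with the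
values `val k` of the HLK invariant -/
def OrbitsN (N n : ℕ) (val : Fin n → ℕ × Multiset ℕ) : Prop :=
  ∃ o : Fin n → Ori N, (∀ k, (o k).PH ∧ ∀ v, (o k).HLK v ↔ v = val k) ∧
    ∀ p : Ori N, p.PH → ∃! k, p.SameOrbit (o k)

theorem orbitsN_odd {N : ℕ} (hN : Odd N) (h8 : 8 < N) (h : ChainsN N 4) :
    OrbitsN N 4 valO := by
  obtain ⟨canon, hA⟩ := h
  exact orbits_of valO_inj hA (exists_valO hN h8)

theorem orbitsN_even {N : ℕ} (hN : Even N) (h8 : 8 < N) (h : ChainsN N 3) :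
    OrbitsN N 3 valE := by
  obtain ⟨canon, hA⟩ := h
  exact orbits_of valE_inj hA (exists_valE hN h8)

/-- part (B): Q1 (ii) and (iii) for all large `N`, from the classification of the chains -/
theorem orbits_all_of (h : ∃ N0 : ℕ, ∀ N : ℕ, N0 ≤ N →
    (Odd N → ChainsN N 4) ∧ (Even N → ChainsN N 3)) :
    ∃ N0 : ℕ, ∀ N : ℕ, N0 ≤ N →
      (Odd N → ∃ o : Fin 4 → Ori N, (∀ k, (o k).PH ∧ ∀ v, (o k).HLK v ↔ v = valO k) ∧
        ∀ p : Ori N, p.PH → ∃! k, p.SameOrbit (o k)) ∧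
      (Even N → ∃ o : Fin 3 → Ori N, (∀ k, (o k).PH ∧ ∀ v, (o k).HLK v ↔ v = valE k) ∧
        ∀ p : Ori N, p.PH → ∃! k, p.SameOrbit (o k)) := by
  obtain ⟨N0, hN0⟩ := h
  refine ⟨max N0 9, fun N hN => ⟨fun ho => ?_, fun he => ?_⟩⟩
  · exact orbitsN_odd ho (lt_of_lt_of_le (by norm_num) (le_trans (le_max_right N0 9) hN))
      ((hN0 N (le_trans (le_max_left _ _) hN)).1 ho)
  · exact orbitsN_even he (lt_of_lt_of_le (by norm_num) (le_trans (le_max_right N0 9) hN))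
      ((hN0 N (le_trans (le_max_left _ _) hN)).2 he)

/-- the HLK invariant of a primitive origami of hyperelliptic type decides its orbit -/
theorem OrbitsN.same_iff {N n : ℕ} {val : Fin n → ℕ × Multiset ℕ} (hval : Function.Injective val)
    (h : OrbitsN N n val) {p q : Ori N} (hp : p.PH) (hq : q.PH) :
    p.SameOrbit q ↔ ∀ v, p.HLK v ↔ q.HLK v := by
  constructor
  · intro hs v
    have h1 := sameOrbit_hlk hs v
    exact ⟨fun h2 => (h1.1 ⟨hp.1, h2⟩).2, fun h2 => (h1.2 ⟨hq.1, h2⟩).2⟩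
  · intro hv
    obtain ⟨o, ho, hu⟩ := h
    obtain ⟨k, hk, _⟩ := hu p hp
    obtain ⟨k', hk', _⟩ := hu q hq
    have e1 : p.HLK (val k) :=
      ((sameOrbit_hlk hk (val k)).2 ⟨(ho k).1.1, ((ho k).2 _).2 rfl⟩).2
    have e2 : (o k').HLK (val k) :=
      ((sameOrbit_hlk hk' (val k)).1 ⟨hq.1, (hv _).1 e1⟩).2
    have e3 : k = k' := hval (((ho k').2 _).1 e2)
    subst e3
    exact Relation.EqvGen.trans _ _ _ hk (Relation.EqvGen.symm _ _ hk')

/-! ## The uniform form -/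

/-- the values of the HLK invariant in the question: four for `N` odd, three for `N` even -/
def vals (N : ℕ) : Set (ℕ × Multiset ℕ) :=
  if Odd N then {(4, {1, 1, 1}), (2, {3, 1, 1}), (0, {5, 1, 1}), (0, {3, 3, 1})}
  else {(3, {2, 2, 0}), (1, {4, 2, 0}), (1, {2, 2, 2})}

/-- every primitive origami of hyperelliptic type with `N` squares has exactly one HLK invariant,
the values are those of `V`, and two of them are in the same orbit iff they have the same HLK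
invariant -/
def Complete (N : ℕ) (V : Set (ℕ × Multiset ℕ)) : Prop :=
  (∀ p : Ori N, p.PH → ∃! v, p.HLK v) ∧
    (∀ v, (∃ p : Ori N, p.PH ∧ p.HLK v) ↔ v ∈ V) ∧
    ∀ p q : Ori N, p.PH → q.PH → (p.SameOrbit q ↔ ∃ v, p.HLK v ∧ q.HLK v)

theorem OrbitsN.complete {N n : ℕ} {val : Fin n → ℕ × Multiset ℕ} (hval : Function.Injective val)
    (h : OrbitsN N n val) {V : Set (ℕ × Multiset ℕ)} (hV : ∀ v, v ∈ V ↔ ∃ k, v = val k) :
    Complete N V := by
  obtain ⟨o, ho, hu⟩ := h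
  have tr : ∀ (p q : Ori N) (v : ℕ × Multiset ℕ), p.PH → q.PH → p.SameOrbit q → p.HLK v →
      q.HLK v := fun p q v hp _ hs hv => ((sameOrbit_hlk hs v).1 ⟨hp.1, hv⟩).2
  have sy : ∀ p q : Ori N, p.SameOrbit q → q.SameOrbit p := fun p q h =>
    Relation.EqvGen.symm _ _ h
  refine ⟨fun p hp => ?_, fun v => ⟨?_, fun hv => ?_⟩, fun p q hp hq => ⟨fun hs => ?_, ?_⟩⟩
  · obtain ⟨k, hk, _⟩ := hu p hp
    obtain ⟨v, hv⟩ := hp.2.2
    refine ⟨v, hv, fun w hw => ?_⟩
    rw [((ho k).2 v).1 (tr p (o k) v hp (ho k).1 hk hv),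
      ((ho k).2 w).1 (tr p (o k) w hp (ho k).1 hk hw)]
  · rintro ⟨p, hp, hv⟩
    obtain ⟨k, hk, _⟩ := hu p hp
    exact (hV v).2 ⟨k, ((ho k).2 v).1 (tr p (o k) v hp (ho k).1 hk hv)⟩
  · obtain ⟨k, rfl⟩ := (hV v).1 hv
    exact ⟨o k, (ho k).1, ((ho k).2 _).2 rfl⟩
  · obtain ⟨v, hv⟩ := hp.2.2
    exact ⟨v, hv, tr p q v hp hq hs hv⟩
  · rintro ⟨v, hv, hv'⟩
    obtain ⟨k, hk, _⟩ := hu p hp
    obtain ⟨k', hk', _⟩ := hu q hq
    have e1 := ((ho k).2 v).1 (tr p (o k) v hp (ho k).1 hk hv)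
    have e2 := ((ho k').2 v).1 (tr q (o k') v hq (ho k').1 hk' hv')
    have e3 : k = k' := hval (e1.symm.trans e2)
    subst e3
    exact Relation.EqvGen.trans _ _ _ hk (sy _ _ hk')

theorem mem_vals_odd {N : ℕ} (h : Odd N) (v : ℕ × Multiset ℕ) : v ∈ vals N ↔ ∃ k, v = valO k := by
  unfold vals
  rw [if_pos h]
  simp only [Set.mem_insert_iff, Set.mem_singleton_iff]
  constructor
  · rintro (rfl | rfl | rfl | rfl)
    · exact ⟨0, rfl⟩
    · exact ⟨1, rfl⟩
    · exact ⟨2, rfl⟩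
    · exact ⟨3, rfl⟩
  · rintro ⟨k, rfl⟩
    fin_cases k <;> simp [valO]

theorem mem_vals_even {N : ℕ} (h : Even N) (v : ℕ × Multiset ℕ) :
    v ∈ vals N ↔ ∃ k, v = valE k := by
  unfold vals
  rw [if_neg (Nat.not_odd_iff_even.2 h)]
  simp only [Set.mem_insert_iff, Set.mem_singleton_iff]
  constructor
  · rintro (rfl | rfl | rfl)
    · exact ⟨0, rfl⟩
    · exact ⟨1, rfl⟩
    · exact ⟨2, rfl⟩
  · rintro ⟨k, rfl⟩
    fin_cases k <;> simp [valE]

theorem complete_odd {N : ℕ} (hN : Odd N) (h8 : 8 < N) (h : ChainsN N 4) :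
    Complete N (vals N) :=
  (orbitsN_odd hN h8 h).complete valO_inj (mem_vals_odd hN)

theorem complete_even {N : ℕ} (hN : Even N) (h8 : 8 < N) (h : ChainsN N 3) :
    Complete N (vals N) :=
  (orbitsN_even hN h8 h).complete valE_inj (mem_vals_even hN)

/-- part (B), uniform form: for all large `N` the HLK invariant is a complete invariant of the
orbits, and its values are those of the question -/
theorem complete_all_of (h : ∃ N0 : ℕ, ∀ N : ℕ, N0 ≤ N →
    (Odd N → ChainsN N 4) ∧ (Even N → ChainsN N 3)) :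
    ∃ N0 : ℕ, ∀ N : ℕ, N0 ≤ N →
      (∀ p : Ori N, p.PH → ∃! v, p.HLK v) ∧
      (∀ v, (∃ p : Ori N, p.PH ∧ p.HLK v) ↔ v ∈ vals N) ∧
      ∀ p q : Ori N, p.PH → q.PH → (p.SameOrbit q ↔ ∃ v, p.HLK v ∧ q.HLK v) := by
  obtain ⟨N0, hN0⟩ := h
  refine ⟨max N0 9, fun N hN => ?_⟩
  have h8 : 8 < N := lt_of_lt_of_le (by norm_num) (le_trans (le_max_right N0 9) hN)
  have h0 := hN0 N (le_trans (le_max_left _ _) hN)
  rcases Nat.even_or_odd N with he | ho
  · exact complete_even he h8 (h0.2 he)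
  · exact complete_odd ho h8 (h0.1 ho)

end Pool.Agent.H4G
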