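import Pool.Agent.H4G.Ctwo.G3def
import Pool.Agent.H4G.Asym.Par

/-!
# Existence of the parameters `Big N J Z` (helper83)
-/

set_option autoImplicit false

namespace Pool.Agent.H4G

theorem exists_Big : ∃ N0 : ℕ, ∀ N : ℕ, N0 ≤ N → ∃ J Z : ℕ, Big (N : ℤ) J Z := by
  obtain ⟨N0, h⟩ := cap_exists (2 ^ 20) 200 21
  refine ⟨max N0 (2 ^ 20), fun N hN => ?_⟩
  obtain ⟨J, h1, h2, h3⟩ := h N (le_trans (le_max_left _ _) hN)
  have hN2 : 2 ^ 20 ≤ N := le_trans (le_max_right _ _) hN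
  refine ⟨J, N ^ 21, h1, h3, ?_, by exact_mod_cast h2⟩
  have e : (2 * N) ^ 20 ≤ N ^ 21 := by
    calc (2 * N) ^ 20 = 2 ^ 20 * N ^ 20 := by ring
      _ ≤ N * N ^ 20 := Nat.mul_le_mul_right _ hN2
      _ = N ^ 21 := by ring
  exact_mod_cast e

end Pool.Agent.H4G
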