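import Pool.Agent.H4G.Ctwo.Sieve3

/-!
# LINE-2k: the choice of the multiplicity `k` (helper41)
-/

set_option autoImplicit false

namespace Pool.Agent.H4G

/-- THE CHOICE OF `k`: prime to the odd part of `a a' N`, in a class modulo `16`, one more class
avoided at the odd primes of `q`, and one more class avoided at `3` if `3` divides `N` and `a'`. -/
theorem kchoice {a a' N q p' q' : ℤ} {J Z : ℕ} (hN : a + 1 + a' = N) (ha : 0 < a) (ha' : 0 < a')
    (hqa : q ∣ a) (hcap : Cap J Z) (hZ : (2 * N) ^ 20 ≤ (Z : ℤ))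
    (hp3 : (3 : ℤ) ∣ a' → (3 : ℤ) ∣ p' → ¬ (3 : ℤ) ∣ q') {t s : ℤ} (hs : s = 1 ∨ s = -1)
    (ht : (3 : ℤ) ∣ N → (3 : ℤ) ∣ a' → ¬ (3 : ℤ) ∣ t) (e0 c0 : ℤ) :
    ∃ k : ℕ, 0 < k ∧ (k : ℤ) ≤ 16 * (J : ℤ) ^ 2 ∧ (16 : ℤ) ∣ k - c0 ∧
      (∀ l : ℕ, l.Prime → l ≠ 2 → (l : ℤ) ∣ a * a' * N → ¬ (l : ℤ) ∣ k) ∧
      (∀ l : ℕ, l.Prime → l ≠ 2 → (l : ℤ) ∣ q → ¬ (l : ℤ) ∣ 1 - k * t * e0) ∧
      ((3 : ℤ) ∣ N → (3 : ℤ) ∣ a' → ¬ (3 : ℤ) ∣ q * p' - s * k * t * q') := by
  have hN0 : 0 < N := by linarith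
  have hpos : 0 < a * a' * N := by positivity
  have hM : (a * a' * N).natAbs ≠ 0 := by
    rw [Int.natAbs_ne_zero]
    exact hpos.ne'
  have hMZ : (a * a' * N).natAbs ≤ Z := by
    have h1 : a * a' * N ≤ (2 * N) ^ 20 := by
      have h2 : a * a' ≤ N * N := mul_le_mul (by linarith) (by linarith) ha'.le hN0.le
      have h3 : a * a' * N ≤ N * N * N := mul_le_mul_of_nonneg_right h2 hN0.le
      have h4 : N * N * N ≤ (2 * N) ^ 3 := by
        have : (2 * N) ^ 3 = 8 * (N * N * N) := by ring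
        rw [this]
        have : 0 < N * N * N := by positivity
        linarith
      have h5 : (2 * N) ^ 3 ≤ (2 * N) ^ 20 := pow_le_pow_right₀ (by linarith) (by norm_num)
      linarith
    have h2 : ((a * a' * N).natAbs : ℤ) ≤ (Z : ℤ) := by
      rw [Int.natAbs_of_nonneg hpos.le]
      linarith
    exact_mod_cast h2
  obtain ⟨k, y1, y2, y3, y4⟩ := sieve3 hM 4
    (fun l k => ¬ (l : ℤ) ∣ k ∧ ((l : ℤ) ∣ q → ¬ (l : ℤ) ∣ 1 - k * t * e0) ∧
      (l = 3 → (3 : ℤ) ∣ N → (3 : ℤ) ∣ a' → ¬ (3 : ℤ) ∣ q * p' - s * k * t * q'))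
    (fun l hl hl2 _ => by
      have hpl := Nat.prime_iff_prime_int.1 hl
      by_cases h3 : l = 3 ∧ (3 : ℤ) ∣ N ∧ (3 : ℤ) ∣ a'
      · obtain ⟨hl3, h3N, h3a⟩ := h3
        subst hl3
        have hq3 : ¬ (3 : ℤ) ∣ q := by
          intro h
          have h1 : (3 : ℤ) ∣ a := h.trans hqa
          omega
        have ht3 := ht h3N h3a
        have hpl3 : Prime (3 : ℤ) := by exact_mod_cast hpl
        have hs3 : ¬ (3 : ℤ) ∣ s := by rcases hs with rfl | rfl <;> norm_num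
        obtain ⟨r, hr⟩ := lin_class hl (α := q * p') (β := -(s * t * q')) (fun h h' => by
          have k1 : (3 : ℤ) ∣ s * t * q' := (dvd_neg).1 (by exact_mod_cast h)
          have k2 : (3 : ℤ) ∣ q' := by
            rcases hpl3.dvd_or_dvd k1 with k | k
            · rcases hpl3.dvd_or_dvd k with k | k
              · exact absurd k hs3
              · exact absurd k ht3
            · exact k
          have k3 : (3 : ℤ) ∣ q * p' := by exact_mod_cast h'
          rcases hpl3.dvd_or_dvd k3 with k | k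
          · exact hq3 k
          · exact hp3 h3a k k2)
        obtain ⟨x, hx1, hx2⟩ := avoid2 hl hl2 0 r
        refine ⟨0, r, 0, fun k k1 k2 _ => ?_, x, hx1, hx2, hx1⟩
        rw [sub_zero] at k1
        refine ⟨k1, fun h => absurd (by exact_mod_cast h) hq3, fun _ _ _ h => hr k k2 ?_⟩
        have e : q * p' + -(s * t * q') * k = q * p' - s * k * t * q' := by ring
        rw [e]
        exact_mod_cast h
      · obtain ⟨r, hr⟩ := lin_class hl (α := 1) (β := -(t * e0)) (fun _ h' =>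
          prime_not_dvd_one hl h')
        obtain ⟨x, hx1, hx2⟩ := avoid2 hl hl2 0 r
        refine ⟨0, r, 0, fun k k1 k2 _ => ?_, x, hx1, hx2, hx1⟩
        rw [sub_zero] at k1
        refine ⟨k1, fun _ h => hr k k2 ?_, fun g1 g2 g3 => absurd ⟨g1, g2, g3⟩ h3⟩
        have e : 1 + -(t * e0) * k = 1 - k * t * e0 := by ring
        rw [e]; exact h) c0 1
  have hk0 : 0 < k := by linarith
  obtain ⟨m, rfl⟩ := Int.eq_ofNat_of_zero_le hk0.le
  have h8 := hcap.eight hM hMZ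
  have key : ∀ l : ℕ, (l : ℤ) ∣ a * a' * N → (l : ℤ) ∣ ((a * a' * N).natAbs : ℤ) := fun l h => by
    rw [Int.dvd_natAbs]; exact h
  refine ⟨m, by exact_mod_cast hk0, ?_, ?_, ?_, ?_, ?_⟩
  · have h9 : (m : ℤ) < 1 + 2 ^ 4 * J ^ 2 := by
      refine lt_of_lt_of_le y2 ?_
      have := mul_le_mul_of_nonneg_left h8 (show (0 : ℤ) ≤ 2 ^ 4 by norm_num)
      linarith
    norm_num at h9
    omega
  · norm_num at y3
    exact y3
  · exact fun l hl hl2 h => (y4 l hl hl2 (key l h)).1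
  · intro l hl hl2 h
    refine (y4 l hl hl2 (key l ?_)).2.1 h
    exact ((h.trans hqa).mul_right a').mul_right N
  · intro h3N h3a
    exact (y4 3 Nat.prime_three (by norm_num) (key 3 (by exact_mod_cast h3N.mul_left _))).2.2 rfl
      h3N h3a

end Pool.Agent.H4G
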