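import Pool.Agent.H4G.Ctwo.Move2
import Pool.Agent.H4G.Ctwo.KChoice

/-!
# LINE-2k: the `k`-fold exits `h = τ g`, `e = τ ξ + i q`, `τ = q - t`, `t ∈ {1, 2, 3, 4}` (helper26)

Pure arithmetic, `a = q g`, `z = g z'`, `ξ z' + q κ = 1`, sign `s = 1`, `j = τ κ - i z'`.
-/

set_option autoImplicit false

namespace Pool.Agent.H4G

/-- LINE-2k, the local statement at one odd prime -/
theorem line2k_loc {l : ℕ} (hl : l.Prime) (hl2 : l ≠ 2)
    {a a' N z g q z' ξ κ τ t p' q' k : ℤ}
    (hN : a + 1 + a' = N) (haq : a = q * g) (hz : z = g * z') (hx : ξ * z' + q * κ = 1)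
    (hτ : τ = q - t) (hp : (l : ℤ) ∣ a' → (l : ℤ) ∣ p' → ¬ (l : ℤ) ∣ q')
    (ht : (l : ℤ) ∣ t → (l : ℤ) ∣ N ∧ ¬ (l : ℤ) ∣ a ∧ ¬ (l : ℤ) ∣ a + 1)
    (hk : (l : ℤ) ∣ a ∨ (l : ℤ) ∣ a' ∨ (l : ℤ) ∣ N → ¬ (l : ℤ) ∣ k)
    (hkq : (l : ℤ) ∣ q → ¬ (l : ℤ) ∣ 1 - k * (t * ξ))
    (h3 : (3 : ℤ) ∣ N → ¬ (3 : ℤ) ∣ a → ¬ (3 : ℤ) ∣ a' → ¬ (3 : ℤ) ∣ τ)
    (hk3 : (3 : ℤ) ∣ N → (3 : ℤ) ∣ a' → ¬ (3 : ℤ) ∣ 2 * p' + q' * (k * (t * q))) :
    ∃ r1 r2 r3 : ℤ,
      (∀ i : ℤ, ¬ (l : ℤ) ∣ i - r1 → ¬ (l : ℤ) ∣ i - r2 → ¬ (l : ℤ) ∣ i - r3 →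
        ExK l a a' N z 1 p' q' (τ * ξ + i * q) (τ * g) (τ * κ - i * z') k ∧
        ((l : ℤ) ∣ N → ¬ (l : ℤ) ∣ q → ¬ (l : ℤ) ∣ a - k * (τ * ξ + i * q) + 1)) ∧
      ∃ i : ℤ, ¬ (l : ℤ) ∣ i - r1 ∧ ¬ (l : ℤ) ∣ i - r2 ∧ ¬ (l : ℤ) ∣ i - r3 := by
  have hpl := Nat.prime_iff_prime_int.1 hl
  have h1l := not_dvd_one' hl
  -- identities
  have hti : ∀ i : ℤ, z' * (τ * ξ + i * q) + q * (τ * κ - i * z') = τ := by
    intro i; linear_combination τ * hx
  have hii : ∀ i : ℤ, κ * (τ * ξ + i * q) - ξ * (τ * κ - i * z') = i := by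
    intro i; linear_combination i * hx
  have hcu : ∀ i : ℤ, q * (z + k * (1 * ((τ * κ - i * z') - 1))) =
      z' * (a - k * (τ * ξ + i * q)) - k * t := by
    intro i; rw [hz, haq]; linear_combination k * hti i + k * hτ
  by_cases hlq : (l : ℤ) ∣ q
  · -- `l ∣ q`
    have hla : (l : ℤ) ∣ a := by rw [haq]; exact hlq.mul_right g
    have hla1 : ¬ (l : ℤ) ∣ a + 1 := fun h => h1l ((dvd_add_right hla).1 h)
    have hlt : ¬ (l : ℤ) ∣ t := fun h => (ht h).2.1 hla
    have hlk := hk (Or.inl hla)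
    have hxl : ¬ (l : ℤ) ∣ ξ := fun h =>
      h1l (by rw [← hx]; exact dvd_add (h.mul_right _) (hlq.mul_right _))
    have hq1 := hkq hlq
    refine ⟨0, 0, 0, fun i _ _ _ => ?_, 1, ?_, ?_, ?_⟩
    · have he : (l : ℤ) ∣ (τ * ξ + i * q) + t * ξ := by
        have e : (τ * ξ + i * q) + t * ξ = q * (ξ + i) := by rw [hτ]; ring
        rw [e]; exact hlq.mul_right _
      have hne : ¬ (l : ℤ) ∣ τ * ξ + i * q := by
        intro h
        have := (dvd_add_right h).1 he
        rcases hpl.dvd_or_dvd this with h | h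
        · exact hlt h
        · exact hxl h
      have h1e : ¬ (l : ℤ) ∣ 1 + k * (τ * ξ + i * q) := by
        intro h
        apply hq1
        have := dvd_sub h (he.mul_left k)
        have e : 1 + k * (τ * ξ + i * q) - k * ((τ * ξ + i * q) + t * ξ) = 1 - k * (t * ξ) := by ring
        rwa [e] at this
      have hae : ¬ (l : ℤ) ∣ a - k * (τ * ξ + i * q) := by
        intro h
        have := dvd_sub hla h
        rw [sub_sub_cancel] at this
        rcases hpl.dvd_or_dvd this with h | h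
        · exact hlk h
        · exact hne h
      exact ⟨⟨fun h => hne h.1, fun h => h1e h.1, fun _ => hae, fun _ _ _ => h1e,
        fun _ h => absurd h hla1, fun h => absurd h hae⟩, fun _ h => absurd hlq h⟩
    · rw [sub_zero]; exact h1l
    · rw [sub_zero]; exact h1l
    · rw [sub_zero]; exact h1l
  · -- `l` does not divide `q`
    have prim : ∀ i : ℤ, ((l : ℤ) ∣ τ → ¬ (l : ℤ) ∣ i) →
        ¬ ((l : ℤ) ∣ τ * ξ + i * q ∧ (l : ℤ) ∣ τ * κ - i * z') := by
      rintro i hi ⟨h4, h5⟩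
      have h6 := dvd_sub (h4.mul_left κ) (h5.mul_left ξ)
      rw [hii] at h6
      have h7 := dvd_add (h4.mul_left z') (h5.mul_left q)
      rw [hti] at h7
      exact hi h7 h6
    by_cases hlk : (l : ℤ) ∣ k
    · -- `l ∣ k`
      have hla : ¬ (l : ℤ) ∣ a := fun h => hk (Or.inl h) hlk
      have hla' : ¬ (l : ℤ) ∣ a' := fun h => hk (Or.inr (Or.inl h)) hlk
      have hlN : ¬ (l : ℤ) ∣ N := fun h => hk (Or.inr (Or.inr h)) hlk
      refine ⟨0, 0, 0, fun i h0 _ _ => ?_, 1, ?_, ?_, ?_⟩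
      · rw [sub_zero] at h0
        refine ⟨⟨prim i (fun _ => h0), fun h => ?_, fun h => absurd h hlN, fun h => absurd h hla',
          fun h => absurd h hla', fun h _ => ?_⟩, fun h => absurd h hlN⟩
        · exact h1l ((dvd_add_left (hlk.mul_right _)).1 h.1)
        · apply hla
          have := dvd_add h (hlk.mul_right (τ * ξ + i * q))
          rwa [sub_add_cancel] at this
      · rw [sub_zero]; exact h1l
      · rw [sub_zero]; exact h1l
      · rw [sub_zero]; exact h1l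
    · have hkq' : ¬ (l : ℤ) ∣ k * q := fun h => by
        rcases hpl.dvd_or_dvd h with h | h
        · exact hlk h
        · exact hlq h
      obtain ⟨r1, hr1⟩ := lin_class hl (α := 1 + k * (τ * ξ)) (β := k * q)
        (fun h => absurd h hkq')
      obtain ⟨ra, hra⟩ := lin_class hl (α := a - k * (τ * ξ)) (β := -(k * q))
        (fun h => absurd ((dvd_neg).1 h) hkq')
      obtain ⟨rb, hrb⟩ := lin_class hl (α := a - k * (τ * ξ) + 1) (β := -(k * q))
        (fun h => absurd ((dvd_neg).1 h) hkq')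
      have f1 : ∀ i : ℤ, ¬ (l : ℤ) ∣ i - r1 → ¬ (l : ℤ) ∣ 1 + k * (τ * ξ + i * q) := by
        intro i h
        have := hr1 i h
        have e : 1 + k * (τ * ξ) + k * q * i = 1 + k * (τ * ξ + i * q) := by ring
        rwa [e] at this
      have fa : ∀ i : ℤ, ¬ (l : ℤ) ∣ i - ra → ¬ (l : ℤ) ∣ a - k * (τ * ξ + i * q) := by
        intro i h
        have := hra i h
        have e : a - k * (τ * ξ) + -(k * q) * i = a - k * (τ * ξ + i * q) := by ring
        rwa [e] at this
      have fb : ∀ i : ℤ, ¬ (l : ℤ) ∣ i - rb → ¬ (l : ℤ) ∣ a - k * (τ * ξ + i * q) + 1 := by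
        intro i h
        have := hrb i h
        have e : a - k * (τ * ξ) + 1 + -(k * q) * i = a - k * (τ * ξ + i * q) + 1 := by ring
        rwa [e] at this
      by_cases hlN : (l : ℤ) ∣ N
      · by_cases hla : (l : ℤ) ∣ a
        · -- `l ∣ a`, `l ∣ N`
          have hla1 : ¬ (l : ℤ) ∣ a + 1 := fun h => h1l ((dvd_add_right hla).1 h)
          have hla' : ¬ (l : ℤ) ∣ a' := fun h => hla1 (by
            have := dvd_sub hlN h
            rw [← hN, add_sub_cancel_right] at this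
            exact this)
          have hlg : (l : ℤ) ∣ g := by
            rw [haq] at hla
            exact (hpl.dvd_or_dvd hla).resolve_left hlq
          obtain ⟨x, hx1, hx2⟩ := avoid2 hl hl2 ra rb
          refine ⟨ra, rb, ra, fun i k1 k2 _ => ?_, x, hx1, hx2, hx1⟩
          have ga := fa i k1
          have gb := fb i k2
          refine ⟨⟨fun h => ga ?_, fun h => ?_, fun _ => ga, fun h => absurd h hla',
            fun h => absurd h hla', fun h => absurd h ga⟩, fun _ _ => gb⟩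
          · exact dvd_sub hla (h.1.mul_left k)
          · rcases hpl.dvd_or_dvd h.2 with h | h
            · exact hlk h
            · exact h1l ((dvd_add_left (hlg.mul_left τ)).1 h)
        · by_cases hla' : (l : ℤ) ∣ a'
          · -- frozen
            have hla1 : (l : ℤ) ∣ a + 1 := by
              have := dvd_sub hlN hla'
              rw [← hN, add_sub_cancel_right] at this
              exact this
            have hlt : ¬ (l : ℤ) ∣ t := fun h => (ht h).2.2 hla1
            have hqh : (l : ℤ) ∣ q * (1 + τ * g) - t := by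
              have e : q * (1 + τ * g) - t = τ * (a + 1) := by rw [haq, hτ]; ring
              rw [e]; exact hla1.mul_left τ
            have out : ∀ i : ℤ, ¬ (l : ℤ) ∣ i - ra → ¬ (l : ℤ) ∣ i - rb →
                ¬ (l : ℤ) ∣ p' * (1 + k * (τ * ξ + i * q)) + q' * (k * (1 * (1 + τ * g))) →
                ExK l a a' N z 1 p' q' (τ * ξ + i * q) (τ * g) (τ * κ - i * z') k ∧
                ((l : ℤ) ∣ N → ¬ (l : ℤ) ∣ q → ¬ (l : ℤ) ∣ a - k * (τ * ξ + i * q) + 1) := by
              intro i k1 k2 gf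
              have ga := fa i k1
              have gb := fb i k2
              refine ⟨⟨fun h => gb ?_, fun h => gf ?_, fun _ => ga, fun _ h => absurd hla1 h,
                fun _ _ => gf, fun h => absurd h ga⟩, fun _ _ => gb⟩
              · have e : a - k * (τ * ξ + i * q) + 1 = (a + 1) - k * (τ * ξ + i * q) := by ring
                rw [e]
                exact dvd_sub hla1 (h.1.mul_left k)
              · rw [one_mul]
                exact dvd_add (h.1.mul_left _) (h.2.mul_left q')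
            by_cases hl3 : l = 3
            · subst hl3
              obtain ⟨x, hx1, hx2⟩ := avoid2 hl hl2 ra rb
              refine ⟨ra, rb, ra, fun i k1 k2 _ => out i k1 k2 ?_, x, hx1, hx2, hx1⟩
              have ga : ¬ (3 : ℤ) ∣ a - k * (τ * ξ + i * q) := fa i k1
              have gb : ¬ (3 : ℤ) ∣ a - k * (τ * ξ + i * q) + 1 := fb i k2
              have ha3 : (3 : ℤ) ∣ a + 1 := hla1
              have hq3 : ¬ (3 : ℤ) ∣ q := hlq
              have hke : (3 : ℤ) ∣ k * (τ * ξ + i * q) - 1 := by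
                generalize k * (τ * ξ + i * q) = y at ga gb ⊢
                omega
              have hqq : (3 : ℤ) ∣ q * q - 1 := by
                have a1 : q % 3 = 1 ∨ q % 3 = 2 := by omega
                rcases a1 with a1 | a1
                · obtain ⟨m, hm⟩ : ∃ m, q = 3 * m + 1 := ⟨q / 3, by omega⟩
                  exact ⟨3 * m * m + 2 * m, by rw [hm]; ring⟩
                · obtain ⟨m, hm⟩ : ∃ m, q = 3 * m + 2 := ⟨q / 3, by omega⟩
                  exact ⟨3 * m * m + 4 * m + 1, by rw [hm]; ring⟩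
              intro hF
              have hF' : (3 : ℤ) ∣ p' * (1 + k * (τ * ξ + i * q)) + q' * (k * (1 * (1 + τ * g))) :=
                hF
              apply hk3 hlN hla'
              -- `q (q (1 + τ g) - t) = (1 + τ g) - t q` modulo `3`
              have hqh' : (3 : ℤ) ∣ q * (1 + τ * g) - t := hqh
              have h5 : (3 : ℤ) ∣ (1 + τ * g) - t * q := by
                have := dvd_sub (hqh'.mul_left q) (hqq.mul_right (1 + τ * g))
                have e : q * (q * (1 + τ * g) - t) - (q * q - 1) * (1 + τ * g) =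
                    (1 + τ * g) - t * q := by ring
                rwa [e] at this
              have h6 := dvd_sub (dvd_sub hF' (hke.mul_left p')) (h5.mul_left (q' * k))
              have e : p' * (1 + k * (τ * ξ + i * q)) + q' * (k * (1 * (1 + τ * g))) -
                  p' * (k * (τ * ξ + i * q) - 1) - q' * k * ((1 + τ * g) - t * q) =
                  2 * p' + q' * (k * (t * q)) := by ring
              rwa [e] at h6
            · have h5 : 5 ≤ l := by
                have h2 := hl.two_le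
                by_contra hcon
                have : l = 4 := by omega
                subst this
                revert hl; norm_num
              obtain ⟨rf, hrf⟩ := lin_class hl
                (α := p' * (1 + k * (τ * ξ)) + q' * (k * (1 + τ * g)))
                (β := p' * (k * q)) (fun h h' => by
                  have kp : (l : ℤ) ∣ p' := (hpl.dvd_or_dvd h).resolve_right hkq'
                  have k2 : (l : ℤ) ∣ q' * (k * (1 + τ * g)) :=
                    (dvd_add_right (kp.mul_right _)).1 h'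
                  rcases hpl.dvd_or_dvd k2 with k | k
                  · exact hp hla' kp k
                  · rcases hpl.dvd_or_dvd k with k | k
                    · exact hlk k
                    · have := dvd_sub (k.mul_left q) hqh
                      rw [sub_sub_cancel] at this
                      exact hlt this)
              obtain ⟨x, hx1, hx2, hx3⟩ := avoid3 h5 ra rb rf
              refine ⟨ra, rb, rf, fun i k1 k2 k3 => out i k1 k2 ?_, x, hx1, hx2, hx3⟩
              have := hrf i k3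
              have e : p' * (1 + k * (τ * ξ)) + q' * (k * (1 + τ * g)) + p' * (k * q) * i =
                p' * (1 + k * (τ * ξ + i * q)) + q' * (k * (1 * (1 + τ * g))) := by ring
              rwa [e] at this
          · -- `l ∣ N`, `l` prime to `a`, `a'`
            have out : ∀ i : ℤ, ((l : ℤ) ∣ τ → ¬ (l : ℤ) ∣ i) →
                (¬ (l : ℤ) ∣ τ → ¬ (l : ℤ) ∣ 1 + k * (τ * ξ + i * q)) →
                ¬ (l : ℤ) ∣ i - ra → ¬ (l : ℤ) ∣ i - rb →
                ExK l a a' N z 1 p' q' (τ * ξ + i * q) (τ * g) (τ * κ - i * z') k ∧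
                ((l : ℤ) ∣ N → ¬ (l : ℤ) ∣ q → ¬ (l : ℤ) ∣ a - k * (τ * ξ + i * q) + 1) := by
              intro i k0 k0' k1 k2
              have ga := fa i k1
              have gb := fb i k2
              refine ⟨⟨prim i k0, fun h => ?_, fun _ => ga, fun h => absurd h hla',
                fun h => absurd h hla', fun h => absurd h ga⟩, fun _ _ => gb⟩
              by_cases hlτ : (l : ℤ) ∣ τ
              · rcases hpl.dvd_or_dvd h.2 with h | h
                · exact hlk h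
                · exact h1l ((dvd_add_left (hlτ.mul_right g)).1 h)
              · exact k0' hlτ h.1
            by_cases hl3 : l = 3
            · subst hl3
              have hτ3 : ¬ (3 : ℤ) ∣ τ := h3 hlN hla hla'
              obtain ⟨x, hx1, hx2⟩ := avoid2 hl hl2 ra rb
              refine ⟨ra, rb, ra, fun i k1 k2 _ => out i (fun h => absurd h hτ3) (fun _ => ?_)
                k1 k2, x, hx1, hx2, hx1⟩
              have ga : ¬ (3 : ℤ) ∣ a - k * (τ * ξ + i * q) := fa i k1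
              have gb : ¬ (3 : ℤ) ∣ a - k * (τ * ξ + i * q) + 1 := fb i k2
              have hN3 : (3 : ℤ) ∣ N := hlN
              have ha3 : ¬ (3 : ℤ) ∣ a := hla
              have ha3' : ¬ (3 : ℤ) ∣ a' := hla'
              intro hF
              have hF' : (3 : ℤ) ∣ 1 + k * (τ * ξ + i * q) := hF
              generalize k * (τ * ξ + i * q) = y at ga gb hF'
              omega
            · have h5 : 5 ≤ l := by
                have h2 := hl.two_le
                by_contra hcon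
                have : l = 4 := by omega
                subst this
                revert hl; norm_num
              by_cases hlτ : (l : ℤ) ∣ τ
              · obtain ⟨x, hx1, hx2, hx3⟩ := avoid3 h5 ra rb 0
                refine ⟨ra, rb, 0, fun i k1 k2 k3 => out i (fun _ => ?_)
                  (fun h => absurd hlτ h) k1 k2, x, hx1, hx2, hx3⟩
                simpa using k3
              · obtain ⟨x, hx1, hx2, hx3⟩ := avoid3 h5 ra rb r1
                exact ⟨ra, rb, r1, fun i k1 k2 k3 => out i (fun h => absurd h hlτ)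
                  (fun _ => f1 i k3) k1 k2, x, hx1, hx2, hx3⟩
      · -- `l` does not divide `N`
        have nofroz : (l : ℤ) ∣ a' → (l : ℤ) ∣ a + 1 → False := fun h h' => hlN (by
          rw [← hN]; exact dvd_add h' h)
        by_cases hla : (l : ℤ) ∣ a
        · obtain ⟨x, hx1, hx2⟩ := avoid2 hl hl2 ra r1
          refine ⟨ra, r1, ra, fun i k1 k2 _ => ?_, x, hx1, hx2, hx1⟩
          have ga := fa i k1
          have g1 := f1 i k2
          exact ⟨⟨fun h => ga (dvd_sub hla (h.1.mul_left k)), fun h => g1 h.1,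
            fun h => absurd h hlN, fun _ _ _ => g1, fun h h' => (nofroz h h').elim,
            fun h => absurd h ga⟩, fun h => absurd h hlN⟩
        · obtain ⟨x, hx1, hx2⟩ := avoid2 hl hl2 0 r1
          refine ⟨0, r1, 0, fun i k1 k2 _ => ?_, x, hx1, hx2, hx1⟩
          rw [sub_zero] at k1
          have g1 := f1 i k2
          refine ⟨⟨prim i (fun _ => k1), fun h => g1 h.1,
            fun h => absurd h hlN, fun _ _ _ => g1, fun h h' => (nofroz h h').elim,
            fun h h' => ?_⟩, fun h => absurd h hlN⟩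
          have h6 := dvd_sub (h.mul_left z') (h'.mul_left q)
          rw [hcu i, sub_sub_cancel] at h6
          rcases hpl.dvd_or_dvd h6 with h7 | h7
          · exact hlk h7
          · exact hlN (ht h7).1

/-- LINE-2k for given `τ = q - t` and `k`: the choice of `i` -/
theorem line2k_i {a a' N z g q z' ξ κ τ t p' q' k : ℤ}
    (hN : a + 1 + a' = N) (ha' : 0 < a') (hg : 0 < g) (hq : 0 < q) (haq : a = q * g)
    (hz : z = g * z') (hx : ξ * z' + q * κ = 1) (hτ : τ = q - t) (hτ0 : 0 < τ)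
    (hp : ∀ l : ℕ, l.Prime → l ≠ 2 → (l : ℤ) ∣ a' → (l : ℤ) ∣ p' → ¬ (l : ℤ) ∣ q')
    (ht : ∀ l : ℕ, l.Prime → l ≠ 2 → (l : ℤ) ∣ t →
      (l : ℤ) ∣ N ∧ ¬ (l : ℤ) ∣ a ∧ ¬ (l : ℤ) ∣ a + 1)
    (hk : ∀ l : ℕ, l.Prime → l ≠ 2 → (l : ℤ) ∣ a * a' * N → ¬ (l : ℤ) ∣ k)
    (hkq : ∀ l : ℕ, l.Prime → l ≠ 2 → (l : ℤ) ∣ q → ¬ (l : ℤ) ∣ 1 - k * (t * ξ))
    (h3 : (3 : ℤ) ∣ N → ¬ (3 : ℤ) ∣ a → ¬ (3 : ℤ) ∣ a' → ¬ (3 : ℤ) ∣ τ)
    (hk3 : (3 : ℤ) ∣ N → (3 : ℤ) ∣ a' → ¬ (3 : ℤ) ∣ 2 * p' + q' * (k * (t * q)))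
    (n : ℕ) (c0 s0 : ℤ) :
    ∃ i : ℤ, s0 ≤ i ∧
      i < s0 + 2 ^ n * 8 ^ (a * a' * N * τ * (1 + τ * g)).natAbs.primeFactors.card ∧
      (2 : ℤ) ^ n ∣ i - c0 ∧
      ∀ l : ℕ, l.Prime → l ≠ 2 →
        ExK l a a' N z 1 p' q' (τ * ξ + i * q) (τ * g) (τ * κ - i * z') k ∧
        ((l : ℤ) ∣ N → ¬ (l : ℤ) ∣ q → ¬ (l : ℤ) ∣ a - k * (τ * ξ + i * q) + 1) := by
  have ha : 0 < a := by rw [haq]; positivity
  have hN0 : 0 < N := by linarith
  have hM : (a * a' * N * τ * (1 + τ * g)).natAbs ≠ 0 := by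
    rw [Int.natAbs_ne_zero]
    positivity
  have hk' : ∀ l : ℕ, l.Prime → l ≠ 2 → (l : ℤ) ∣ a ∨ (l : ℤ) ∣ a' ∨ (l : ℤ) ∣ N →
      ¬ (l : ℤ) ∣ k := by
    intro l hl hl2 h
    refine hk l hl hl2 ?_
    rcases h with h | h | h
    · exact (h.mul_right _).mul_right _
    · exact (h.mul_left _).mul_right _
    · exact h.mul_left _
  obtain ⟨i, i1, i2, i3, i4⟩ := sieve3 hM n
    (fun l i => ExK l a a' N z 1 p' q' (τ * ξ + i * q) (τ * g) (τ * κ - i * z') k ∧
      ((l : ℤ) ∣ N → ¬ (l : ℤ) ∣ q → ¬ (l : ℤ) ∣ a - k * (τ * ξ + i * q) + 1))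
    (fun l hl hl2 _ => line2k_loc hl hl2 hN haq hz hx hτ (hp l hl hl2) (ht l hl hl2)
      (hk' l hl hl2) (hkq l hl hl2) h3 hk3) c0 s0
  refine ⟨i, i1, i2, i3, fun l hl hl2 => ?_⟩
  by_cases hd : (l : ℤ) ∣ ((a * a' * N * τ * (1 + τ * g)).natAbs : ℤ)
  · exact i4 l hl hl2 hd
  · rw [Int.dvd_natAbs] at hd
    have hpl := Nat.prime_iff_prime_int.1 hl
    have h1l := not_dvd_one' hl
    have d1 : ¬ (l : ℤ) ∣ a := fun h => hd ((((h.mul_right _).mul_right _).mul_right _).mul_right _)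
    have d2 : ¬ (l : ℤ) ∣ a' := fun h => hd ((((h.mul_left _).mul_right _).mul_right _).mul_right _)
    have d3 : ¬ (l : ℤ) ∣ N := fun h => hd (((h.mul_left _).mul_right _).mul_right _)
    have d4 : ¬ (l : ℤ) ∣ τ := fun h => hd ((h.mul_left _).mul_right _)
    have d5 : ¬ (l : ℤ) ∣ 1 + τ * g := fun h => hd (h.mul_left _)
    refine ⟨⟨?_, ?_, fun h => absurd h d3, fun h => absurd h d2, fun h => absurd h d2, ?_⟩,
      fun h => absurd h d3⟩
    · rintro ⟨h4, h5⟩
      apply d4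
      have h7 := dvd_add (h4.mul_left z') (h5.mul_left q)
      have e : z' * (τ * ξ + i * q) + q * (τ * κ - i * z') = τ := by
        linear_combination τ * hx
      rwa [e] at h7
    · rintro ⟨h4, h5⟩
      rcases hpl.dvd_or_dvd h5 with h | h
      · exact h1l ((dvd_add_left (h.mul_right _)).1 h4)
      · exact d5 h
    · intro h h'
      have h6 := dvd_sub (h.mul_left z') (h'.mul_left q)
      have e : z' * (a - k * (τ * ξ + i * q)) - q * (z + k * (1 * ((τ * κ - i * z') - 1))) =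
          k * t := by
        rw [hz, haq]; linear_combination (-k * τ) * hx - k * hτ
      rw [e] at h6
      rcases hpl.dvd_or_dvd h6 with h7 | h7
      · apply d1
        have := dvd_add h (h7.mul_right (τ * ξ + i * q))
        rwa [sub_add_cancel] at this
      · exact d3 (ht l hl hl2 h7).1

/-- the choice of `t` -/
theorem t_choice {a a' N q : ℤ} (hN : a + 1 + a' = N) (hq2 : 2 ≤ q) (hqa : q ∣ a) :
    ∃ t : ℤ, 0 < t ∧ t < q ∧ ¬ (2 : ℤ) ∣ q - t ∧
      (∀ l : ℕ, l.Prime → l ≠ 2 → (l : ℤ) ∣ t →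
        (l : ℤ) ∣ N ∧ ¬ (l : ℤ) ∣ a ∧ ¬ (l : ℤ) ∣ a + 1) ∧
      ((3 : ℤ) ∣ N → ¬ (3 : ℤ) ∣ a → ¬ (3 : ℤ) ∣ a' → ¬ (3 : ℤ) ∣ q - t) ∧
      ((3 : ℤ) ∣ N → (3 : ℤ) ∣ a' → ¬ (3 : ℤ) ∣ t) := by
  have pow2 : ∀ l : ℕ, l.Prime → l ≠ 2 → ∀ t : ℤ, t = 1 ∨ t = 2 ∨ t = 4 → ¬ (l : ℤ) ∣ t := by
    intro l hl hl2 t ht h
    have h2 : ¬ (l : ℤ) ∣ 2 := by
      intro h
      have : l ∣ 2 := by exact_mod_cast h
      exact hl2 ((Nat.prime_dvd_prime_iff_eq hl Nat.prime_two).1 this)
    rcases ht with rfl | rfl | rfl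
    · exact not_dvd_one' hl h
    · exact h2 h
    · have e : (4 : ℤ) = 2 * 2 := by norm_num
      rw [e] at h
      rcases (Nat.prime_iff_prime_int.1 hl).dvd_or_dvd h with h | h
      · exact h2 h
      · exact h2 h
  by_cases hc : (3 : ℤ) ∣ N ∧ ¬ (3 : ℤ) ∣ a ∧ ¬ (3 : ℤ) ∣ a'
  · obtain ⟨c1, c2, c3⟩ := hc
    have hq3 : ¬ (3 : ℤ) ∣ q := fun h => c2 (h.trans hqa)
    by_cases hq : (2 : ℤ) ∣ q
    · by_cases h1 : (3 : ℤ) ∣ q - 1
      · refine ⟨3, by norm_num, by omega, by omega, fun l hl hl2 h => ?_, fun _ _ _ => by omega,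
          fun _ h => absurd h c3⟩
        have hl3 : l = 3 := by
          have : l ∣ 3 := by exact_mod_cast h
          exact (Nat.prime_dvd_prime_iff_eq hl Nat.prime_three).1 this
        subst hl3
        refine ⟨c1, c2, ?_⟩
        have c1' : (3 : ℤ) ∣ N := c1
        have c3' : ¬ (3 : ℤ) ∣ a' := c3
        intro h
        have h' : (3 : ℤ) ∣ a + 1 := h
        omega
      · exact ⟨1, by norm_num, by omega, by omega,
          fun l hl hl2 h => absurd h (pow2 l hl hl2 1 (Or.inl rfl)), fun _ _ _ => h1,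
          fun _ _ => by norm_num⟩
    · by_cases h1 : (3 : ℤ) ∣ q - 2
      · exact ⟨4, by norm_num, by omega, by omega,
          fun l hl hl2 h => absurd h (pow2 l hl hl2 4 (Or.inr (Or.inr rfl))), fun _ _ _ => by omega,
          fun _ _ => by norm_num⟩
      · exact ⟨2, by norm_num, by omega, by omega,
          fun l hl hl2 h => absurd h (pow2 l hl hl2 2 (Or.inr (Or.inl rfl))), fun _ _ _ => h1,
          fun _ _ => by norm_num⟩
  · by_cases hq : (2 : ℤ) ∣ q
    · exact ⟨1, by norm_num, by omega, by omega,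
        fun l hl hl2 h => absurd h (pow2 l hl hl2 1 (Or.inl rfl)),
        fun h1 h2 h3 => absurd ⟨h1, h2, h3⟩ hc, fun _ _ => by norm_num⟩
    · exact ⟨2, by norm_num, by omega, by omega,
        fun l hl hl2 h => absurd h (pow2 l hl hl2 2 (Or.inr (Or.inl rfl))),
        fun h1 h2 h3 => absurd ⟨h1, h2, h3⟩ hc, fun _ _ => by norm_num⟩

/-- an odd number is invertible modulo `16` -/
theorem inv16 {e E0 : ℤ} (he : ¬ (2 : ℤ) ∣ e) : ∃ c : ℤ, (16 : ℤ) ∣ c * e - E0 := by
  have hco : IsCoprime e 16 := by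
    have h1 : IsCoprime (2 : ℤ) e := (Prime.coprime_iff_not_dvd Int.prime_two).2 he
    have h2 : IsCoprime ((2 : ℤ) ^ 4) e := h1.pow_left
    have h3 : ((2 : ℤ) ^ 4) = 16 := by norm_num
    rw [h3] at h2
    exact h2.symm
  obtain ⟨x, y, hxy⟩ := hco
  exact ⟨E0 * x, ⟨-(E0 * y), by linear_combination E0 * hxy⟩⟩

/-- LINE-2k -/
theorem line2k {a a' N z g q z' ξ κ p' q' E0 : ℤ} {J Z : ℕ} (hN : a + 1 + a' = N) (ha' : 0 < a')
    (hg : 0 < g) (hq2 : 2 ≤ q) (haq : a = q * g) (hz : z = g * z') (hx : ξ * z' + q * κ = 1)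
    (hP : Prm a' p' q') (hcap : Cap J Z) (hZ : (2 * N) ^ 20 ≤ (Z : ℤ)) (hE : (2 : ℤ) ∣ E0) :
    ∃ (s τ e j : ℤ) (k : ℕ), L2k J a a' N z g q p' q' E0 s τ e j k := by
  have hq0 : 0 < q := by linarith
  have ha : 0 < a := by rw [haq]; positivity
  have hN1 : 1 ≤ N := by linarith
  have hqa : q ∣ a := ⟨g, haq⟩
  obtain ⟨t, t0, tq, t2, t3, t4, t5⟩ := t_choice hN hq2 hqa
  have hτ0 : 0 < q - t := by linarith
  -- the class of `i` modulo `16`: `e` odd
  obtain ⟨c0, hc0⟩ : ∃ c0 : ℤ, ¬ (2 : ℤ) ∣ (q - t) * ξ + c0 * q := by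
    by_cases hq : (2 : ℤ) ∣ q
    · refine ⟨0, fun h => ?_⟩
      rw [zero_mul, add_zero] at h
      rcases Int.prime_two.dvd_or_dvd h with h | h
      · exact t2 h
      · have := dvd_add (h.mul_right z') (hq.mul_right κ)
        rw [hx] at this
        norm_num at this
    · by_cases h : (2 : ℤ) ∣ (q - t) * ξ
      · exact ⟨1, by rw [one_mul]; omega⟩
      · exact ⟨0, by rw [zero_mul, add_zero]; exact h⟩
  obtain ⟨ck, hck⟩ := inv16 (E0 := E0) hc0
  obtain ⟨k, k0, k1, k2, k3, k4, k5⟩ := kchoice (p' := p') (q' := q') hN ha ha' hqa hcap hZ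
    (fun h1 h2 => hP 3 Nat.prime_three h1 h2) (Or.inl rfl : (1 : ℤ) = 1 ∨ (1 : ℤ) = -1) t5 ξ ck
  obtain ⟨i, i1, i2, i3, i4⟩ := line2k_i (τ := q - t) (k := (k : ℤ)) hN ha' hg hq0 haq hz hx rfl
    hτ0 (fun l hl _ => hP l hl) t3 k3
    (fun l hl hl2 hlq h => k4 l hl hl2 hlq (by
      have e : 1 - (k : ℤ) * t * ξ = 1 - k * (t * ξ) := by ring
      rwa [e]))
    t4
    (fun h1 h2 h3 => k5 h1 h2 (by
      -- multiply by `q`
      have hq3 : ¬ (3 : ℤ) ∣ q := by
        intro h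
        have h4 : (3 : ℤ) ∣ a := h.trans hqa
        omega
      have hqq : (3 : ℤ) ∣ q * q - 1 := by
        have a1 : q % 3 = 1 ∨ q % 3 = 2 := by omega
        rcases a1 with a1 | a1
        · obtain ⟨m, hm⟩ : ∃ m, q = 3 * m + 1 := ⟨q / 3, by omega⟩
          exact ⟨3 * m * m + 2 * m, by rw [hm]; ring⟩
        · obtain ⟨m, hm⟩ : ∃ m, q = 3 * m + 2 := ⟨q / 3, by omega⟩
          exact ⟨3 * m * m + 4 * m + 1, by rw [hm]; ring⟩
      have h5 := dvd_sub (dvd_add ((dvd_refl (3 : ℤ)).mul_right (q * p'))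
        (hqq.mul_right (q' * (k * t)))) (h3.mul_left q)
      have e : 3 * (q * p') + (q * q - 1) * (q' * (k * t)) - q * (2 * p' + q' * (k * (t * q))) =
          q * p' - 1 * k * t * q' := by ring
      rwa [e] at h5))
    4 c0 (1 - (q - t) * ξ / q)
  -- sizes
  have hdm := Int.emod_add_mul_ediv ((q - t) * ξ) q
  have hm0 := Int.emod_nonneg ((q - t) * ξ) hq0.ne'
  have hm1 := Int.emod_lt_of_pos ((q - t) * ξ) hq0
  have hτ1 : 1 ≤ q - t := hτ0
  have hh : (q - t) * g + 1 ≤ a := by rw [haq]; nlinarith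
  have hcard : (8 : ℤ) ^ (a * a' * N * (q - t) * (1 + (q - t) * g)).natAbs.primeFactors.card ≤
      (J : ℤ) ^ 2 := by
    have k5 : 0 < 1 + (q - t) * g := by positivity
    have h5 : a * a' * N * (q - t) * (1 + (q - t) * g) ≤ N ^ 5 := by
      have k1 : a ≤ N := by linarith
      have k2 : a' ≤ N := by linarith
      have k3 : q - t ≤ N := by nlinarith
      have k4 : 1 + (q - t) * g ≤ N := by linarith
      calc a * a' * N * (q - t) * (1 + (q - t) * g) ≤ N * N * N * N * N := by gcongr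
        _ = N ^ 5 := by ring
    have h6 : 0 < a * a' * N * (q - t) * (1 + (q - t) * g) := by positivity
    have h7 : N ^ 5 ≤ (2 * N) ^ 20 := by
      calc N ^ 5 ≤ (2 * N) ^ 5 := pow_le_pow_left₀ (by linarith) (by linarith) 5
        _ ≤ (2 * N) ^ 20 := pow_le_pow_right₀ (by linarith) (by norm_num)
    exact hcap.eight (by omega) (by omega)
  have he0 : q ≤ (q - t) * ξ + i * q := by nlinarith
  have hi' : i ≤ -((q - t) * ξ / q) + 16 * (J : ℤ) ^ 2 := by
    have : i < 1 - (q - t) * ξ / q + 2 ^ 4 * 8 ^ _ := i2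
    linarith
  have he1 : (q - t) * ξ + i * q ≤ 2 * q + 16 * (J : ℤ) ^ 2 * q := by
    have := mul_le_mul_of_nonneg_right hi' hq0.le
    nlinarith
  have hee : (16 : ℤ) ∣ ((q - t) * ξ + i * q) - ((q - t) * ξ + c0 * q) := by
    have e : ((q - t) * ξ + i * q) - ((q - t) * ξ + c0 * q) = (i - c0) * q := by ring
    rw [e]
    have : (16 : ℤ) ∣ i - c0 := by
      have e4 : ((2 : ℤ) ^ 4) = 16 := by norm_num
      rwa [e4] at i3
    exact this.mul_right q
  have heo : ¬ (2 : ℤ) ∣ (q - t) * ξ + i * q := by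
    intro h
    apply hc0
    have h2 : (2 : ℤ) ∣ ((q - t) * ξ + i * q) - ((q - t) * ξ + c0 * q) :=
      (show (2 : ℤ) ∣ 16 by norm_num).trans hee
    have := dvd_sub h h2
    rwa [sub_sub_cancel] at this
  have hkE : (16 : ℤ) ∣ k * ((q - t) * ξ + i * q) - E0 := by
    have h1 := dvd_add (dvd_add (hee.mul_left (k : ℤ)) (k2.mul_right ((q - t) * ξ + c0 * q))) hck
    have e : (k : ℤ) * (((q - t) * ξ + i * q) - ((q - t) * ξ + c0 * q)) +
        (k - ck) * ((q - t) * ξ + c0 * q) + (ck * ((q - t) * ξ + c0 * q) - E0) =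
        k * ((q - t) * ξ + i * q) - E0 := by ring
    rwa [e] at h1
  refine ⟨1, q - t, (q - t) * ξ + i * q, (q - t) * κ - i * z', k, Or.inl rfl, hτ0, by linarith, k1,
    k0, ?_, heo, by linarith, he1, ?_, hkE, i4⟩
  · have h1 : (2 : ℤ) ∣ k * ((q - t) * ξ + i * q) - E0 :=
      (show (2 : ℤ) ∣ 16 by norm_num).trans hkE
    have h2 := dvd_add h1 hE
    rw [sub_add_cancel] at h2
    exact (Int.prime_two.dvd_or_dvd h2).resolve_right heo
  · rw [hz, haq]
    linear_combination (-((q - t) * g)) * hx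

/-- MOVE2 -/
theorem MIn.move2 {N a z a' p' q' : ℤ} {J Z : ℕ} (hB : Big N J Z) (h : MIn J N a z a' p' q')
    (hg : a < (Int.gcd z a : ℤ) * (J : ℤ) ^ 6) (E0 : ℤ) (hE : (2 : ℤ) ∣ E0) :
    ∃ E w x : ℤ, 0 < E ∧ E * J ≤ a ∧ (16 : ℤ) ∣ E - E0 ∧ KSt N (a - E) w (a' + E) 1 (-x) ∧
      KTy (a - E) w (a' + E) 1 (-x) ∧ OC (a - E) N ∧ OC (a - E) w ∧
      (OC a N → OC (a - E + 1) N) ∧ ((2 : ℤ) ∣ a → ((2 : ℤ) ∣ w ↔ (2 : ℤ) ∣ z)) ∧
      ((2 : ℤ) ∣ a' → ((2 : ℤ) ∣ x ↔ (2 : ℤ) ∣ q')) ∧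
      SEq (KC a z (-1) a' p' q') (KC (a - E) w (-1) (a' + E) 1 (-x)) := by
  obtain ⟨g, q, z', ξ, κ, e1, hg0, hq2, haq, hz, hx⟩ := h.toKSt.leftShape
  rw [← e1] at hg
  obtain ⟨s, τ, e, j, k, x⟩ := line2k (E0 := E0) h.hN h.ha' hg0 hq2 haq hz hx h.hP hB.cap hB.hZ hE
  exact MIn.move2_of hB h hg0 haq hg x

end Pool.Agent.H4G
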