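import Pool.Agent.H4G.Ctwo.Type5

/-!
# The K-level for type (0,[3,3,1]), all odd `N` (helper83, after helper19's page)

No primality is used: all K-states of type (0,[3,3,1]) are equivalent to
`KC 2 1 (-1) (N - 3) 1 (-1)`.
-/

set_option autoImplicit false

namespace Pool.Agent.H4G.K3

/-! ## Small tools -/

theorem dvd_two_eq {r : ℕ} (hr : r.Prime) (h : (r : ℤ) ∣ 2) : r = 2 :=
  (Nat.prime_dvd_prime_iff_eq hr Nat.prime_two).1 (by exact_mod_cast h)

theorem odd_ne_two {l : ℕ} {x : ℤ} (hx : Odd x) (h : (l : ℤ) ∣ x) : l ≠ 2 := by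
  rintro rfl
  exact (Int.not_even_iff_odd.2 hx) (even_iff_two_dvd.2 (by exact_mod_cast h))

theorem not_two_dvd {x : ℤ} (hx : Odd x) : ¬ ((2 : ℕ) : ℤ) ∣ x := fun h => odd_ne_two hx h rfl

theorem odd_of_not {x : ℤ} (h : ¬ (2 : ℤ) ∣ x) : Odd x := by
  rw [← Int.not_even_iff_odd, even_iff_two_dvd]; exact h

theorem two_zero {l : ℕ} (hl : l.Prime) (h2 : l ≠ 2) {α β k k' : ℤ}
    (hk : k' - k = 1 ∨ k' - k = 2) (h : (l : ℤ) ∣ α + k * β) (h' : (l : ℤ) ∣ α + k' * β) :
    (l : ℤ) ∣ α ∧ (l : ℤ) ∣ β := by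
  have h3 : (l : ℤ) ∣ (k' - k) * β := by
    have := dvd_sub h' h
    have e : α + k' * β - (α + k * β) = (k' - k) * β := by ring
    rwa [e] at this
  have h4 : (l : ℤ) ∣ β := by
    rcases hk with hk | hk
    · rw [hk, one_mul] at h3; exact h3
    · rw [hk] at h3
      rcases (Nat.prime_iff_prime_int.1 hl).dvd_or_dvd h3 with h5 | h5
      · exact absurd (dvd_two_eq hl h5) h2
      · exact h5
  refine ⟨?_, h4⟩
  have := dvd_sub h (h4.mul_left k)
  simpa using this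

/-- two linear forms, one odd prime -/
theorem avoid2 {l : ℕ} (hl : l.Prime) (h2 : l ≠ 2) {α β γ δ : ℤ}
    (h1 : ¬ ((l : ℤ) ∣ α ∧ (l : ℤ) ∣ β)) (h3 : ¬ ((l : ℤ) ∣ γ ∧ (l : ℤ) ∣ δ)) :
    ∃ k : ℤ, ¬ (l : ℤ) ∣ α + k * β ∧ ¬ (l : ℤ) ∣ γ + k * δ := by
  by_contra hn
  push Not at hn
  by_cases a0 : (l : ℤ) ∣ α + 0 * β
  · by_cases a1 : (l : ℤ) ∣ α + 1 * β
    · exact h1 (two_zero hl h2 (Or.inl (by norm_num)) a0 a1)
    · have c1 := hn 1 a1
      by_cases a2 : (l : ℤ) ∣ α + 2 * β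
      · exact h1 (two_zero hl h2 (Or.inr (by norm_num)) a0 a2)
      · exact h3 (two_zero hl h2 (Or.inl (by norm_num)) c1 (hn 2 a2))
  · have c0 := hn 0 a0
    by_cases a1 : (l : ℤ) ∣ α + 1 * β
    · by_cases a2 : (l : ℤ) ∣ α + 2 * β
      · exact h1 (two_zero hl h2 (Or.inl (by norm_num)) a1 a2)
      · exact h3 (two_zero hl h2 (Or.inr (by norm_num)) c0 (hn 2 a2))
    · exact h3 (two_zero hl h2 (Or.inl (by norm_num)) c0 (hn 1 a1))

/-- one linear form, any prime -/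
theorem avoid1 {l : ℕ} {α β : ℤ} (h1 : ¬ ((l : ℤ) ∣ α ∧ (l : ℤ) ∣ β)) :
    ∃ k : ℤ, ¬ (l : ℤ) ∣ α + k * β := by
  by_contra hn
  push Not at hn
  have a0 := hn 0
  have a1 := hn 1
  apply h1
  have h4 : (l : ℤ) ∣ β := by
    have := dvd_sub a1 a0
    have e : α + 1 * β - (α + 0 * β) = β := by ring
    rwa [e] at this
  refine ⟨?_, h4⟩
  simpa using a0

theorem form_congr {l : ℕ} {α β k k' : ℤ} (h : (l : ℤ) ∣ k' - k) (h1 : ¬ (l : ℤ) ∣ α + k * β) :
    ¬ (l : ℤ) ∣ α + k' * β := by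
  intro h2
  apply h1
  have e : α + k * β = (α + k' * β) - (k' - k) * β := by ring
  rw [e]
  exact dvd_sub h2 (h.mul_right _)

/-- the odd part -/
theorem oddPart {n : ℤ} (hn : 0 < n) : ∃ (e : ℕ) (m : ℤ), Odd m ∧ n = 2 ^ e * m := by
  obtain ⟨e, o, ho, h⟩ := Nat.exists_eq_two_pow_mul_odd (n := n.toNat) (by omega)
  refine ⟨e, o, by exact_mod_cast ho, ?_⟩
  have h1 : ((n.toNat : ℕ) : ℤ) = n := Int.toNat_of_nonneg hn.le
  rw [← h1, h]
  push_cast
  ring

theorem dvd_oddPart {e : ℕ} {m n : ℤ} (h : n = 2 ^ e * m) {x : ℤ} (hx : Odd x) (hd : x ∣ n) :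
    x ∣ m := by
  rw [h] at hd
  have h1 : IsCoprime x (2 ^ e : ℤ) := by
    apply IsCoprime.pow_right
    obtain ⟨y, rfl⟩ := hx
    exact ⟨1, -y, by ring⟩
  exact h1.dvd_of_dvd_mul_left hd

theorem sq_mod_four {x : ℤ} (hx : Odd x) : (4 : ℤ) ∣ x ^ 2 - 1 := by
  obtain ⟨y, rfl⟩ := hx
  exact ⟨y ^ 2 + y, by ring⟩

/-- a multiplier `j`, divisible by `m`, with `x - j w = 2 mod 4` -/
theorem two4 {x w m : ℤ} (hx : Odd x) (hw : Odd w) (hm : Odd m) :
    ∃ j, Odd j ∧ m ∣ j ∧ (4 : ℤ) ∣ (x - j * w) - 2 := by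
  refine ⟨m ^ 2 * (x - 2) * w, ?_, ?_, ?_⟩
  · exact ((hm.pow).mul (by
      have : x - 2 = x - 2 * 1 := by ring
      rw [this]
      exact hx.sub_even (even_two_mul 1))).mul hw
  · exact ⟨m * (x - 2) * w, by ring⟩
  · obtain ⟨α, hα⟩ := sq_mod_four hm
    obtain ⟨β, hβ⟩ := sq_mod_four hw
    refine ⟨-((x - 2) * (α * w ^ 2 + β)), ?_⟩
    linear_combination (-(x - 2) * w ^ 2) * hα - (x - 2) * hβ

theorem even_of_four {x : ℤ} (h : (4 : ℤ) ∣ x - 2) : (2 : ℤ) ∣ x ∧ ¬ (4 : ℤ) ∣ x := by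
  omega

/-- all four parameters odd -/
structure AO (a p q a' p' q' : ℤ) : Prop where
  P : Prm a p q
  P' : Prm a' p' q'
  p : Odd p
  q : Odd q
  p' : Odd p'
  q' : Odd q'

theorem cop_of_odd {x : ℤ} (hx : Odd x) : IsCoprime x 2 := by
  obtain ⟨y, rfl⟩ := hx
  exact ⟨1, -y, by ring⟩

theorem par_of {r x y : ℤ} (hr : Even r) (h : r ∣ x - y) (hy : Odd y) : Odd x := by
  have h1 : Even (x - y) := even_iff_two_dvd.2 (hr.two_dvd.trans h)
  have := h1.add_odd hy
  simpa using this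

theorem even_of_mul_odd {r c : ℤ} (h : Even (r * c)) (hc : Odd c) : Even r := by
  rcases Int.even_mul.1 h with h1 | h1
  · exact h1
  · exact absurd h1 (Int.not_even_iff_odd.2 hc)

/-! ## Step (2): all parameters odd -/

theorem stepA {a p q a' p' q' : ℤ} (ha' : 0 < a') (hae' : Even a') (hP : Prm a p q)
    (hP' : Prm a' p' q') (hp : Odd p) (hq : Even q) (hp' : Odd p') (hq' : Odd q')
    (hok : (KC a p q a' p' q').Ok) :
    ∃ q3 q2, AO a p q3 a' p' q2 ∧ SEq (KC a p q a' p' q') (KC a p q3 a' p' q2) := by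
  obtain ⟨r, c, p1, hr, hc, e1, e2, h1, h2⟩ := hP'.split' ha'
  subst e1 e2
  have hco : Odd c := (Int.odd_mul.1 hp').2
  have hre : Even r := even_of_mul_odd hae' hco
  obtain ⟨k, hk⟩ := crt_exists (2 * c) (by omega)
    (fun l k => (l = 2 → ¬ (2 : ℤ) ∣ k) ∧ (l ≠ 2 → (l : ℤ) ∣ r → ¬ (l : ℤ) ∣ q' + k * p1))
    (fun l hl _ => by
      by_cases hl2 : l = 2
      · exact ⟨1, fun _ => by norm_num, fun h => absurd hl2 h⟩
      · by_cases hlr : (l : ℤ) ∣ r
        · obtain ⟨k, hk⟩ := avoid1 (l := l) (α := q') (β := p1)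
            (fun h => not_dvd_of_isCoprime h1 hl hlr h.2)
          exact ⟨k, fun h => absurd h hl2, fun _ _ => hk⟩
        · exact ⟨0, fun h => absurd h hl2, fun _ h => absurd h hlr⟩)
    (fun l hl _ k k' g1 g2 => by
      refine ⟨fun h h3 => g2.1 h ?_, fun h h3 => form_congr g1 (g2.2 h h3)⟩
      subst h
      have := dvd_sub h3 (by exact_mod_cast g1 : (2 : ℤ) ∣ k' - k)
      simpa using this)
  have hk2 : Odd k := odd_of_not ((hk 2 Nat.prime_two (by push_cast; exact dvd_mul_right _ _)).1 rfl)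
  obtain ⟨q2, k1, k2, k3, k4⟩ := KC.H_exists hr hc h1 h2 k (fun l hl g1 g2 =>
    (hk l hl (g1.mul_left _)).2 (odd_ne_two hco g1) g2) hok
  refine ⟨_, q2, ⟨hP.shH _, k3, hp, ?_, hp', ?_⟩, k4⟩
  · exact hq.sub_odd ((hk2.mul hre.add_one).mul hp)
  · refine par_of hre k2 (hq'.sub_even ?_)
    exact (hco.sub_odd odd_one).mul_left _

/-- all parameters odd -/
theorem toAO {a p q a' p' q' : ℤ} (ha : 0 < a) (ha' : 0 < a') (hae : Even a) (hae' : Even a')
    (hP : Prm a p q) (hP' : Prm a' p' q') (hp : Odd p) (hq' : Odd q') (h : Odd q ∨ Odd p')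
    (hok : (KC a p q a' p' q').Ok) :
    ∃ p1 q1 p1' q1', AO a p1 q1 a' p1' q1' ∧ SEq (KC a p q a' p' q') (KC a p1 q1 a' p1' q1') := by
  rcases Int.even_or_odd q with hqe | hqo
  · have hp' : Odd p' := h.resolve_left (Int.not_odd_iff_even.2 hqe)
    obtain ⟨q3, q2, k1, k2⟩ := stepA ha' hae' hP hP' hp hqe hp' hq' hok
    exact ⟨_, _, _, _, k1, k2⟩
  · rcases Int.even_or_odd p' with hpe | hpo
    · have m1 := KC.mirror hok
      have hP1 : Prm a' q' (-p') := by
        intro l hl h1 h2 h3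
        exact hP' l hl h1 ((dvd_neg).1 h3) h2
      have hP2 : Prm a q (-p) := by
        intro l hl h1 h2 h3
        exact hP l hl h1 ((dvd_neg).1 h3) h2
      obtain ⟨q3, q2, k1, k2⟩ := stepA ha hae hP1 hP2 hq' hpe.neg hqo hp.neg m1.ok'
      have m2 := KC.mirror k2.ok'
      refine ⟨q2, -q, -q3, q', ⟨?_, ?_, k1.q', hqo.neg, k1.q.neg, hq'⟩, ?_⟩
      · intro l hl h1 h2 h3
        exact k1.P' l hl h1 ((dvd_neg).1 h3) h2
      · intro l hl h1 h2 h3
        exact k1.P l hl h1 h3 ((dvd_neg).1 h2)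
      · refine (m1.trans k2).trans (m2.trans ?_)
        have e : KC a q2 (-q) a' q3 (-q') = KC a q2 (-q) a' (-q3) q' := by
          rw [← KC.unit' (a' := a') (p' := q3) (q' := -q') (t := -1)
            (by exact isCoprime_one_right.neg_right)]
          congr 1 <;> ring
        rw [e]
        exact (e ▸ m2.ok').seq
    · exact ⟨p, q, p', q', ⟨hP, hP', hp, hqo, hpo, hq'⟩, hok.seq⟩

/-- an even `k` avoiding the zeros of two linear forms at all odd primes of `D` -/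
theorem pick {D α β γ δ : ℤ} (hD : D ≠ 0) (P1 P2 : ℕ → Prop)
    (h1 : ∀ l : ℕ, l.Prime → l ≠ 2 → (l : ℤ) ∣ D → P1 l → ¬ ((l : ℤ) ∣ α ∧ (l : ℤ) ∣ β))
    (h2 : ∀ l : ℕ, l.Prime → l ≠ 2 → (l : ℤ) ∣ D → P2 l → ¬ ((l : ℤ) ∣ γ ∧ (l : ℤ) ∣ δ)) :
    ∃ k : ℤ, (2 : ℤ) ∣ k ∧ ∀ l : ℕ, l.Prime → l ≠ 2 → (l : ℤ) ∣ D →
      (P1 l → ¬ (l : ℤ) ∣ α + k * β) ∧ (P2 l → ¬ (l : ℤ) ∣ γ + k * δ) := by
  classical
  obtain ⟨k, hk⟩ := crt_exists (2 * D) (by omega)
    (fun l k => (l = 2 → (2 : ℤ) ∣ k) ∧ (l ≠ 2 → (l : ℤ) ∣ D →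
      (P1 l → ¬ (l : ℤ) ∣ α + k * β) ∧ (P2 l → ¬ (l : ℤ) ∣ γ + k * δ)))
    (fun l hl _ => by
      by_cases hl2 : l = 2
      · exact ⟨0, fun _ => by norm_num, fun h => absurd hl2 h⟩
      by_cases hD : (l : ℤ) ∣ D
      · by_cases c1 : P1 l
        · by_cases c2 : P2 l
          · obtain ⟨k, g1, g2⟩ := avoid2 hl hl2 (h1 l hl hl2 hD c1) (h2 l hl hl2 hD c2)
            exact ⟨k, fun h => absurd h hl2, fun _ _ => ⟨fun _ => g1, fun _ => g2⟩⟩
          · obtain ⟨k, g1⟩ := avoid1 (h1 l hl hl2 hD c1)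
            exact ⟨k, fun h => absurd h hl2, fun _ _ => ⟨fun _ => g1, fun h => absurd h c2⟩⟩
        · by_cases c2 : P2 l
          · obtain ⟨k, g1⟩ := avoid1 (h2 l hl hl2 hD c2)
            exact ⟨k, fun h => absurd h hl2, fun _ _ => ⟨fun h => absurd h c1, fun _ => g1⟩⟩
          · exact ⟨0, fun h => absurd h hl2, fun _ _ => ⟨fun h => absurd h c1, fun h => absurd h c2⟩⟩
      · exact ⟨0, fun h => absurd h hl2, fun _ h => absurd h hD⟩)
    (fun l hl _ k k' g1 g2 => by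
      refine ⟨fun h => ?_, fun h h3 => ⟨fun h4 => form_congr g1 ((g2.2 h h3).1 h4),
        fun h4 => form_congr g1 ((g2.2 h h3).2 h4)⟩⟩
      subst h
      have := dvd_add (by exact_mod_cast g1 : (2 : ℤ) ∣ k' - k) (g2.1 rfl)
      simpa using this)
  exact ⟨k, (hk 2 Nat.prime_two (by push_cast; exact dvd_mul_right _ _)).1 rfl,
    fun l hl hl2 hD => (hk l hl (hD.mul_left _)).2 hl2 hD⟩

/-! ## Step (3): `d = 1` -/

theorem stepB {a p q a' p' q' : ℤ} (ha : 0 < a) (ha' : 0 < a') (hae : Even a) (hae' : Even a')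
    (h : AO a p q a' p' q') (hok : (KC a p q a' p' q').Ok) :
    ∃ p1 q1 p1' q1', AO a p1 q1 a' p1' q1' ∧ IsCoprime q1 a ∧
      SEq (KC a p q a' p' q') (KC a p1 q1 a' p1' q1') := by
  obtain ⟨hP, hP', hp, hq, hp', hq'⟩ := h
  obtain ⟨r, c, p1, hr, hc, e1, e2, h1, h2⟩ := hP'.split' ha'
  subst e1 e2
  have hco : Odd c := (Int.odd_mul.1 hp').2
  have hre : Even r := even_of_mul_odd hae' hco
  -- the first H-move
  obtain ⟨k, hk2, hk⟩ := pick (D := a * (r * c)) (α := q) (β := -((r + 1) * p)) (γ := q')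
    (δ := p1) (mul_pos ha ha').ne' (fun l => (l : ℤ) ∣ a ∧ ¬ (l : ℤ) ∣ r + 1) (fun l => (l : ℤ) ∣ r)
    (fun l hl _ _ ⟨g1, g2⟩ ⟨g3, g4⟩ => by
      rcases (Nat.prime_iff_prime_int.1 hl).dvd_or_dvd ((dvd_neg).1 g4) with g5 | g5
      · exact g2 g5
      · exact hP l hl g1 g5 g3)
    (fun l hl _ _ g1 g2 => not_dvd_of_isCoprime h1 hl g1 g2.2)
  have hke : Even k := even_iff_two_dvd.2 hk2
  obtain ⟨q2, k1, k2, k3, k4⟩ := KC.H_exists hr hc h1 h2 k (fun l hl g1 g2 =>
    (hk l hl (odd_ne_two hco g1) ((g1.mul_left r).mul_left a)).2 g2) hok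
  have hq2 : Odd q2 := by
    refine par_of hre k2 (hq'.sub_even ?_)
    exact (hco.sub_odd odd_one).mul_left _
  set q3 : ℤ := q - k * (r + 1) * p with hq3
  have hq3o : Odd q3 := hq.sub_even ((hke.mul_right _).mul_right _)
  have hd1 : ∀ l : ℕ, l.Prime → (l : ℤ) ∣ a → (l : ℤ) ∣ q3 → (l : ℤ) ∣ r + 1 := by
    intro l hl g1 g2
    by_contra g3
    refine (hk l hl (odd_ne_two hq3o g2) (g1.mul_right _)).1 ⟨g1, g3⟩ ?_
    have : q + k * -((r + 1) * p) = q3 := by rw [hq3]; ring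
    rwa [this]
  have hP3 : Prm a p q3 := hP.shH _
  -- the V-move
  obtain ⟨s, d, q4, hs, hd, f1, f2, h3, h4⟩ := hP3.split ha
  have hdo : Odd d := by
    rw [f2] at hq3o
    exact (Int.odd_mul.1 hq3o).2
  have hse : Even s := by rw [f1] at hae; exact even_of_mul_odd hae hdo
  obtain ⟨e, m, hm, hem⟩ := oddPart (mul_pos ha ha')
  obtain ⟨j, hj, hmj, hj4⟩ := two4 (x := p1 * c) (w := (s + 1) * q2) (m := m) hp'
    (hse.add_one.mul hq2) hm
  have k5 := k4.ok'
  rw [f2, f1] at k5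
  obtain ⟨p2, k6, k7, k8, k9⟩ := KC.V_exists hs hd h3 h4 j (fun l hl g1 g2 g3 => by
    have g4 : (l : ℤ) ∣ j := by
      refine (dvd_oddPart hem ?_ ?_).trans hmj
      · rw [← Int.not_even_iff_odd]
        intro h
        have := h.two_dvd
        exact odd_ne_two hdo g1 (by
          have h5 : ¬ Even (l : ℤ) := by
            intro _
            have h6 := odd_ne_two hdo g1
            have h7 := hl.odd_of_ne_two h6
            exact (Int.not_even_iff_odd.2 (by exact_mod_cast h7)) h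
          exact absurd h h5)
      · exact ((g1.mul_left s).trans (by rw [← f1])).mul_right _
    have g5 : (l : ℤ) ∣ p := by
      have := dvd_sub g3 (g4.mul_right q4)
      simpa using this
    exact not_dvd_of_isCoprime h4 hl g1 g5) k5
  have hp2 : Odd p2 := by
    refine par_of hse k7 (hp.sub_even ?_)
    exact (hdo.sub_odd odd_one).mul_left _
  -- the right lattice
  set X : ℤ := p1 * c - j * (s + 1) * q2 with hX
  have hX4 : (4 : ℤ) ∣ X - 2 := by
    have : p1 * c - j * ((s + 1) * q2) - 2 = X - 2 := by rw [hX]; ring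
    rwa [this] at hj4
  obtain ⟨hX2, hX44⟩ := even_of_four hX4
  have hcm : c ∣ m := dvd_oddPart hem hco ((Dvd.intro_left r rfl).mul_left a)
  have hcX : c ∣ X := by
    rw [hX]
    exact dvd_sub (Dvd.intro_left p1 rfl) (((hcm.trans hmj).mul_right _).mul_right _)
  obtain ⟨t, ht⟩ : 2 * c ∣ X := by
    have : IsCoprime (2 : ℤ) c := (cop_of_odd hco).symm
    exact this.mul_dvd hX2 hcX
  obtain ⟨r2, hr2⟩ := hre.two_dvd
  have hr20 : 0 < r2 := by omega
  have h5 : IsCoprime t r2 := by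
    refine isCoprime_of_prime fun l hl g1 g2 => ?_
    by_cases hl2 : l = 2
    · subst hl2
      apply hX44
      obtain ⟨y, hy⟩ := g2
      rw [ht, hy]
      exact ⟨c * y, by push_cast; ring⟩
    · have g3 : (l : ℤ) ∣ r := by rw [hr2]; exact g1.mul_left 2
      have hlo : Odd (l : ℤ) := by exact_mod_cast hl.odd_of_ne_two hl2
      have g4 : (l : ℤ) * c ∣ m := dvd_oddPart hem (hlo.mul hco)
        ((mul_dvd_mul_right g3 c).mul_left a)
      have g5 : (l : ℤ) * c ∣ X := by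
        obtain ⟨y, hy⟩ := g2
        rw [ht, hy]
        exact ⟨2 * y, by ring⟩
      have g6 : (l : ℤ) * c ∣ p1 * c := by
        have : p1 * c = X + j * (s + 1) * q2 := by rw [hX]; ring
        rw [this]
        exact dvd_add g5 (((g4.trans hmj).mul_right _).mul_right _)
      exact not_dvd_of_isCoprime h1 hl g3 ((mul_dvd_mul_iff_right hc.ne').1 g6)
  have h6 : IsCoprime q2 (2 * c) := (cop_of_odd hq2).mul_right k1
  have e3 : r * c = r2 * (2 * c) := by rw [hr2]; ring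
  have k10 := k9.ok'
  rw [ht, mul_comm (2 * c) t, e3] at k10
  -- the second H-move
  obtain ⟨k', hk2', hk'⟩ := pick (D := a * (r * c)) (α := q3) (β := -((r2 + 1) * p2)) (γ := q2)
    (δ := t) (mul_pos ha ha').ne' (fun l => (l : ℤ) ∣ a) (fun l => (l : ℤ) ∣ r2)
    (fun l hl hl2 _ g1 ⟨g3, g4⟩ => by
      have g5 := hd1 l hl g1 g3
      have g6 : (l : ℤ) ∣ d := by
        by_contra g7
        have g8 : (l : ℤ) ∣ s := by
          rw [f1] at g1
          exact ((Nat.prime_iff_prime_int.1 hl).dvd_or_dvd g1).resolve_right g7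
        rw [f2] at g3
        exact not_dvd_of_isCoprime h3 hl g8
          (((Nat.prime_iff_prime_int.1 hl).dvd_or_dvd g3).resolve_right g7)
      rcases (Nat.prime_iff_prime_int.1 hl).dvd_or_dvd ((dvd_neg).1 g4) with g7 | g7
      · apply prime_not_dvd_one hl
        have := dvd_sub (g7.mul_left 2) g5
        have e : 2 * (r2 + 1) - (r + 1) = 1 := by rw [hr2]; ring
        rwa [e] at this
      · exact not_dvd_of_isCoprime k6 hl g6 g7)
    (fun l hl _ _ g1 g2 => not_dvd_of_isCoprime h5 hl g1 g2.2)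
  have hke' : Even k' := even_iff_two_dvd.2 hk2'
  obtain ⟨q5, i1, i2, i3, i4⟩ := KC.H_exists hr20 (by omega : 0 < 2 * c) h5 h6 k'
    (fun l hl g1 g2 g3 => by
      by_cases hl2 : l = 2
      · subst hl2
        exact not_two_dvd (hq2.add_even (hke'.mul_right t)) g3
      · refine (hk' l hl hl2 ?_).2 g2 g3
        have : (l : ℤ) ∣ r := by rw [hr2]; exact g2.mul_left 2
        exact (this.mul_right c).mul_left a) k10
  set q6 : ℤ := q4 * d - k' * (r2 + 1) * p2 with hq6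
  have hq6' : q6 = q3 + k' * -((r2 + 1) * p2) := by rw [hq6, f2]; ring
  have hcop : IsCoprime q6 a := by
    refine isCoprime_of_prime fun l hl g1 g2 => ?_
    by_cases hl2 : l = 2
    · subst hl2
      rw [hq6'] at g2
      exact not_two_dvd (hq3o.add_even (hke'.mul_right _)) g2
    · rw [hq6'] at g2
      exact (hk' l hl hl2 (g1.mul_right _)).1 g1 g2
  have i5 := i4.ok'
  rw [← f1, ← e3] at i5
  have i6 := KC.V1 ha hcop 1 i5
  have hq5 : Odd q5 := by
    refine odd_of_not fun h => ?_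
    exact not_dvd_of_isCoprime i1 Nat.prime_two (by push_cast; exact dvd_mul_right _ _)
      (by exact_mod_cast h)
  refine ⟨p2, q6, t * (2 * c) - 1 * (a + 1) * q5, q5, ⟨?_, ?_, hp2, ?_, ?_, hq5⟩, hcop, ?_⟩
  · intro l hl g1 _ g3
    exact not_dvd_of_isCoprime hcop hl g1 g3
  · have := i3.shV (a + 1)
    rw [← e3] at this
    rwa [one_mul]
  · rw [hq6']; exact hq3o.add_even (hke'.mul_right _)
  · refine Even.sub_odd ?_ ?_
    · exact ((even_two_mul c).mul_left t)
    · exact (by rw [one_mul]; exact hae.add_one : Odd (1 * (a + 1))).mul hq5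
  · refine k4.trans ?_
    rw [f2] at *
    refine SEq.trans ?_ i6
    rw [← f1, ht, mul_comm (2 * c) t] at k9
    refine k9.trans ?_
    rw [← f1, ← e3] at i4
    exact i4

/-! ## Step (4): `c = 1` -/

theorem odd_natCast {l : ℕ} (hl : l.Prime) (h : l ≠ 2) : Odd (l : ℤ) := by
  exact_mod_cast hl.odd_of_ne_two h

theorem stepC {a p q a' p' q' : ℤ} (ha : 0 < a) (ha' : 0 < a') (hae : Even a) (hae' : Even a')
    (h : AO a p q a' p' q') (hcop : IsCoprime q a) (hok : (KC a p q a' p' q').Ok) :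
    ∃ p1 q1 p1' q1', AO a p1 q1 a' p1' q1' ∧ IsCoprime q1 a ∧ IsCoprime p1' a' ∧
      SEq (KC a p q a' p' q') (KC a p1 q1 a' p1' q1') := by
  obtain ⟨hP, hP', hp, hq, hp', hq'⟩ := h
  -- the first V-move
  obtain ⟨j, hj2, hj⟩ := pick (D := a') (α := p') (β := -((a + 1) * q')) (γ := 1)
    (δ := 0) ha'.ne' (fun l => ¬ (l : ℤ) ∣ a + 1) (fun _ => False)
    (fun l hl _ g0 g1 ⟨g3, g4⟩ => by
      rcases (Nat.prime_iff_prime_int.1 hl).dvd_or_dvd ((dvd_neg).1 g4) with g5 | g5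
      · exact g1 g5
      · exact hP' l hl g0 g3 g5)
    (fun l hl _ _ g1 => g1.elim)
  have hje : Even j := even_iff_two_dvd.2 hj2
  have k1 := KC.V1 ha hcop j hok
  set x : ℤ := p' - j * (a + 1) * q' with hx
  have hxo : Odd x := hp'.sub_even ((hje.mul_right _).mul_right _)
  have hx1 : ∀ l : ℕ, l.Prime → (l : ℤ) ∣ a' → (l : ℤ) ∣ x → (l : ℤ) ∣ a + 1 := by
    intro l hl g1 g2
    by_contra g3
    refine (hj l hl (odd_ne_two hxo g2) g1).1 g3 ?_
    have : p' + j * -((a + 1) * q') = x := by rw [hx]; ring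
    rwa [this]
  have hP1 : Prm a' x q' := by
    have := hP'.shV (j * (a + 1))
    rwa [hx]
  obtain ⟨r, c, p1, hr, hc, e1, e2, h1, h2⟩ := hP1.split' ha'
  have hco : Odd c := by
    rw [e2] at hxo
    exact (Int.odd_mul.1 hxo).2
  have hre : Even r := by rw [e1] at hae'; exact even_of_mul_odd hae' hco
  obtain ⟨e, m, hm, hem⟩ := oddPart (mul_pos ha ha')
  obtain ⟨k, hk, hmk, hk4⟩ := two4 (x := q) (w := (r + 1) * p) (m := m) hq
    (hre.add_one.mul hp) hm
  have k2 := k1.ok'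
  rw [e2, e1] at k2
  obtain ⟨q2, k3, k4, k5, k6⟩ := KC.H_exists hr hc h1 h2 k (fun l hl g1 g2 g3 => by
    have g4 : (l : ℤ) ∣ k := by
      refine (dvd_oddPart hem (odd_natCast hl (odd_ne_two hco g1)) ?_).trans hmk
      exact ((g1.mul_left r).trans (by rw [← e1])).mul_left _
    have g5 : (l : ℤ) ∣ q' := by
      have := dvd_sub g3 (g4.mul_right p1)
      simpa using this
    exact not_dvd_of_isCoprime h2 hl g1 g5) k2
  have hq2 : Odd q2 := by
    refine par_of hre k4 (hq'.sub_even ?_)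
    exact (hco.sub_odd odd_one).mul_left _
  set X : ℤ := q - k * (r + 1) * p with hX
  have hX4 : (4 : ℤ) ∣ X - 2 := by
    have : q - k * ((r + 1) * p) - 2 = X - 2 := by rw [hX]; ring
    rwa [this] at hk4
  obtain ⟨hX2, hX44⟩ := even_of_four hX4
  obtain ⟨y, hy⟩ := hX2
  obtain ⟨s, hs⟩ := hae.two_dvd
  have hs0 : 0 < s := by omega
  have hXl : ∀ l : ℕ, l.Prime → l ≠ 2 → (l : ℤ) ∣ a → ¬ (l : ℤ) ∣ X := by
    intro l hl hl2 g1 g2
    have g3 : (l : ℤ) ∣ k :=
      (dvd_oddPart hem (odd_natCast hl hl2) (g1.mul_right _)).trans hmk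
    have g4 : (l : ℤ) ∣ q := by
      have e3 : q = X + k * (r + 1) * p := by rw [hX]; ring
      rw [e3]
      exact dvd_add g2 ((g3.mul_right _).mul_right _)
    exact not_dvd_of_isCoprime hcop hl g1 g4
  have h3 : IsCoprime y s := by
    refine isCoprime_of_prime fun l hl g1 g2 => ?_
    by_cases hl2 : l = 2
    · subst hl2
      apply hX44
      obtain ⟨z, hz⟩ := g2
      rw [hy, hz]
      exact ⟨z, by push_cast; ring⟩
    · exact hXl l hl hl2 (by rw [hs]; exact g1.mul_left 2) (by rw [hy]; exact g2.mul_left 2)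
  have h4 : IsCoprime p 2 := cop_of_odd hp
  -- the second V-move
  have k7 := k6.ok'
  have e3 : a = s * 2 := by rw [hs]; ring
  have e4 : X = y * 2 := by rw [hy]; ring
  rw [e4, e3] at k7
  obtain ⟨j', hj2', hj'⟩ := pick (D := a') (α := p1 * c) (β := -((s + 1) * q2)) (γ := 1)
    (δ := 0) ha'.ne' (fun _ => True) (fun _ => False)
    (fun l hl _ g0 _ ⟨g3, g4⟩ => by
      have g5 : (l : ℤ) ∣ a + 1 := hx1 l hl g0 (by rw [e2]; exact g3)
      have g6 : (l : ℤ) ∣ c := by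
        by_contra g7
        have g8 : (l : ℤ) ∣ r := by
          rw [e1] at g0
          exact ((Nat.prime_iff_prime_int.1 hl).dvd_or_dvd g0).resolve_right g7
        exact not_dvd_of_isCoprime h1 hl g8
          (((Nat.prime_iff_prime_int.1 hl).dvd_or_dvd g3).resolve_right g7)
      rcases (Nat.prime_iff_prime_int.1 hl).dvd_or_dvd ((dvd_neg).1 g4) with g7 | g7
      · apply prime_not_dvd_one hl
        have := dvd_sub (g7.mul_left 2) g5
        have e : 2 * (s + 1) - (a + 1) = 1 := by rw [hs]; ring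
        rwa [e] at this
      · exact not_dvd_of_isCoprime k3 hl g6 g7)
    (fun l hl _ _ g1 => g1.elim)
  have hje' : Even j' := even_iff_two_dvd.2 hj2'
  obtain ⟨p2, i1, i2, i3, i4⟩ := KC.V_exists hs0 two_pos h3 h4 j' (fun l hl g1 g2 g3 => by
    have hl2 := dvd_two_eq hl g1
    subst hl2
    exact not_two_dvd (hp.add_even (hje'.mul_right y)) g3) k7
  have hp2 : Odd p2 := by
    refine odd_of_not fun h => ?_
    exact not_dvd_of_isCoprime i1 Nat.prime_two (by norm_num)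
      (by exact_mod_cast h)
  set x' : ℤ := p1 * c - j' * (s + 1) * q2 with hx'
  have hxo' : Odd x' := by
    rw [e2] at hxo
    exact hxo.sub_even ((hje'.mul_right _).mul_right _)
  have hc1 : IsCoprime x' (r * c) := by
    refine isCoprime_of_prime fun l hl g1 g2 => ?_
    refine (hj' l hl (odd_ne_two hxo' g2) (by rw [e1]; exact g1)).1 trivial ?_
    have : p1 * c + j' * -((s + 1) * q2) = x' := by rw [hx']; ring
    rwa [this]
  -- the last H-move
  obtain ⟨e', m', hm', hem'⟩ := oddPart ha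
  have i5 := KC.H1 (mul_pos hr hc) hc1 m' i4.ok'
  set q7 : ℤ := y * 2 - m' * (r * c + 1) * p2 with hq7
  have hrce : Even (r * c) := by rw [← e1]; exact hae'
  have hq7o : Odd q7 := by
    refine Even.sub_odd ((even_two).mul_left y) ?_
    exact (hm'.mul hrce.add_one).mul hp2
  have hcop7 : IsCoprime q7 a := by
    refine isCoprime_of_prime fun l hl g1 g2 => ?_
    have hl2 := odd_ne_two hq7o g2
    refine hXl l hl hl2 g1 ?_
    have g3 : (l : ℤ) ∣ m' := dvd_oddPart hem' (odd_natCast hl hl2) g1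
    have : X = q7 + m' * (r * c + 1) * p2 := by rw [hq7, e4]; ring
    rw [this]
    exact dvd_add g2 ((g3.mul_right _).mul_right _)
  refine ⟨p2, q7, x', q2, ⟨?_, ?_, hp2, hq7o, hxo', hq2⟩, hcop7, ?_, ?_⟩
  · intro l hl g1 _ g3
    exact not_dvd_of_isCoprime hcop7 hl g1 g3
  · intro l hl g1 g2 _
    exact not_dvd_of_isCoprime hc1 hl (by rw [← e1]; exact g1) g2
  · rw [e1]; exact hc1
  · refine k1.trans ?_
    rw [e2, e1] at *
    refine k6.trans ?_
    rw [e4, e3] at *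
    exact i4.trans i5

/-! ## Step (5): `q'` a unit -/

theorem prm_of_q {a p q : ℤ} (h : IsCoprime q a) : Prm a p q :=
  fun _ hl g1 _ g3 => not_dvd_of_isCoprime h hl g1 g3

theorem prm_of_p {a p q : ℤ} (h : IsCoprime p a) : Prm a p q :=
  fun _ hl g1 g2 _ => not_dvd_of_isCoprime h hl g1 g2

theorem stepD {a p q a' p' q' : ℤ} (ha : 0 < a) (ha' : 0 < a') (hae : Even a) (hae' : Even a')
    (h : AO a p q a' p' q') (hcop : IsCoprime q a) (hcop' : IsCoprime p' a')
    (hok : (KC a p q a' p' q').Ok) :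
    ∃ q1 p1' q1', AO a p q1 a' p1' q1' ∧ IsCoprime q1 a ∧ IsCoprime p1' a' ∧ IsCoprime q1' a' ∧
      SEq (KC a p q a' p' q') (KC a p q1 a' p1' q1') := by
  obtain ⟨hP, hP', hp, hq, hp', hq'⟩ := h
  obtain ⟨e, m, hm, hem⟩ := oddPart ha'
  obtain ⟨j, hj, hmj, hj4⟩ := two4 (x := p') (w := (a + 1) * q') (m := m) hp'
    (hae.add_one.mul hq') hm
  have k1 := KC.V1 ha hcop j hok
  set X : ℤ := p' - j * (a + 1) * q' with hX
  have hX4 : (4 : ℤ) ∣ X - 2 := by
    have : p' - j * ((a + 1) * q') - 2 = X - 2 := by rw [hX]; ring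
    rwa [this] at hj4
  obtain ⟨hX2, hX44⟩ := even_of_four hX4
  obtain ⟨t, ht⟩ := hX2
  obtain ⟨r, hr⟩ := hae'.two_dvd
  have hr0 : 0 < r := by omega
  have hXl : ∀ l : ℕ, l.Prime → l ≠ 2 → (l : ℤ) ∣ a' → ¬ (l : ℤ) ∣ X := by
    intro l hl hl2 g1 g2
    have g3 : (l : ℤ) ∣ j := (dvd_oddPart hem (odd_natCast hl hl2) g1).trans hmj
    have g4 : (l : ℤ) ∣ p' := by
      have e3 : p' = X + j * (a + 1) * q' := by rw [hX]; ring
      rw [e3]
      exact dvd_add g2 ((g3.mul_right _).mul_right _)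
    exact not_dvd_of_isCoprime hcop' hl g1 g4
  have h3 : IsCoprime t r := by
    refine isCoprime_of_prime fun l hl g1 g2 => ?_
    by_cases hl2 : l = 2
    · subst hl2
      apply hX44
      obtain ⟨z, hz⟩ := g2
      rw [ht, hz]
      exact ⟨z, by push_cast; ring⟩
    · exact hXl l hl hl2 (by rw [hr]; exact g1.mul_left 2) (by rw [ht]; exact g2.mul_left 2)
  have h4 : IsCoprime q' 2 := cop_of_odd hq'
  have e3 : a' = r * 2 := by rw [hr]; ring
  have e4 : X = t * 2 := by rw [ht]; ring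
  have k7 := k1.ok'
  rw [e4, e3] at k7
  obtain ⟨k, hk2, hk⟩ := pick (D := a * a') (α := q) (β := -((r + 1) * p)) (γ := q')
    (δ := -t) (mul_pos ha ha').ne' (fun l => (l : ℤ) ∣ a) (fun l => (l : ℤ) ∣ a')
    (fun l hl _ _ g1 g2 => not_dvd_of_isCoprime hcop hl g1 g2.1)
    (fun l hl hl2 _ g1 g2 => by
      refine not_dvd_of_isCoprime h3 hl ?_ ((dvd_neg).1 g2.2)
      rw [e3] at g1
      rcases (Nat.prime_iff_prime_int.1 hl).dvd_or_dvd g1 with g3 | g3
      · exact g3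
      · exact absurd (dvd_two_eq hl g3) hl2)
  have hke : Even k := even_iff_two_dvd.2 hk2
  obtain ⟨q2, i1, i2, i3, i4⟩ := KC.H_exists hr0 two_pos h3 h4 k (fun l hl g1 g2 g3 => by
    have hl2 := dvd_two_eq hl g1
    subst hl2
    exact not_two_dvd (hq'.add_even (hke.mul_right t)) g3) k7
  have hq2 : Odd q2 := by
    refine odd_of_not fun h => ?_
    exact not_dvd_of_isCoprime i1 Nat.prime_two (by norm_num) (by exact_mod_cast h)
  set q3 : ℤ := q - k * (r + 1) * p with hq3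
  have hq3o : Odd q3 := hq.sub_even ((hke.mul_right _).mul_right _)
  have hcop3 : IsCoprime q3 a := by
    refine isCoprime_of_prime fun l hl g1 g2 => ?_
    refine (hk l hl (odd_ne_two hq3o g2) (g1.mul_right _)).1 g1 ?_
    have : q + k * -((r + 1) * p) = q3 := by rw [hq3]; ring
    rwa [this]
  have hcop2 : IsCoprime q2 a' := by
    refine isCoprime_of_prime fun l hl g1 g2 => ?_
    have hl2 := odd_ne_two hq2 g2
    refine (hk l hl hl2 (g1.mul_left _)).2 g1 ?_
    have g3 : (l : ℤ) ∣ r := by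
      have g4 := g1
      rw [e3] at g4
      rcases (Nat.prime_iff_prime_int.1 hl).dvd_or_dvd g4 with g5 | g5
      · exact g5
      · exact absurd (dvd_two_eq hl g5) hl2
    have e5 : q' + k * -t = q2 - (q2 - (q' - k * t * (2 - 1))) := by ring
    rw [e5]
    exact dvd_sub g2 (g3.trans i2)
  have i5 := i4.ok'
  rw [← e3] at i5
  have i6 := KC.V1 ha hcop3 m i5
  set x3 : ℤ := t * 2 - m * (a + 1) * q2 with hx3
  have hx3o : Odd x3 := by
    refine Even.sub_odd ((even_two).mul_left t) ?_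
    exact (hm.mul hae.add_one).mul hq2
  have hcopx : IsCoprime x3 a' := by
    refine isCoprime_of_prime fun l hl g1 g2 => ?_
    have hl2 := odd_ne_two hx3o g2
    refine hXl l hl hl2 g1 ?_
    have g3 : (l : ℤ) ∣ m := dvd_oddPart hem (odd_natCast hl hl2) g1
    have : X = x3 + m * (a + 1) * q2 := by rw [hx3, e4]; ring
    rw [this]
    exact dvd_add g2 ((g3.mul_right _).mul_right _)
  refine ⟨q3, x3, q2, ⟨prm_of_q hcop3, prm_of_p hcopx, hp, hq3o, hx3o, hq2⟩, hcop3, hcopx, hcop2,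
    k1.trans (SEq.trans ?_ i6)⟩
  rw [e4, e3]
  exact i4

/-- all four parameters units -/
structure AU (a p q a' p' q' : ℤ) : Prop where
  p : IsCoprime p a
  q : IsCoprime q a
  p' : IsCoprime p' a'
  q' : IsCoprime q' a'

theorem odd_of_cop {a x : ℤ} (ha : Even a) (h : IsCoprime x a) : Odd x := by
  refine odd_of_not fun h2 => ?_
  exact not_dvd_of_isCoprime h Nat.prime_two (by exact_mod_cast ha.two_dvd) (by exact_mod_cast h2)

theorem AU.ao {a p q a' p' q' : ℤ} (hae : Even a) (hae' : Even a') (h : AU a p q a' p' q') :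
    AO a p q a' p' q' :=
  ⟨prm_of_q h.q, prm_of_p h.p', odd_of_cop hae h.p, odd_of_cop hae h.q, odd_of_cop hae' h.p',
    odd_of_cop hae' h.q'⟩

theorem toAU {a p q a' p' q' : ℤ} (ha : 0 < a) (ha' : 0 < a') (hae : Even a) (hae' : Even a')
    (hP : Prm a p q) (hP' : Prm a' p' q') (hp : Odd p) (hq' : Odd q') (h : Odd q ∨ Odd p')
    (hok : (KC a p q a' p' q').Ok) :
    ∃ p1 q1 p1' q1', AU a p1 q1 a' p1' q1' ∧ SEq (KC a p q a' p' q') (KC a p1 q1 a' p1' q1') := by
  obtain ⟨p1, q1, p1', q1', h1, h2⟩ := toAO ha ha' hae hae' hP hP' hp hq' h hok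
  obtain ⟨p2, q2, p2', q2', h3, h4, h5⟩ := stepB ha ha' hae hae' h1 h2.ok'
  obtain ⟨p3, q3, p3', q3', h6, h7, h8, h9⟩ := stepC ha ha' hae hae' h3 h4 h5.ok'
  obtain ⟨q4, p4', q4', i1, i2, i3, i4, i5⟩ := stepD ha ha' hae hae' h6 h7 h8 h9.ok'
  have m1 := KC.mirror i5.ok'
  have a1 : AO a' q4' (-p4') a q4 (-p3) :=
    ⟨prm_of_q i3.neg_left, prm_of_p i2, i1.q', i1.p'.neg, i1.q, i1.p.neg⟩
  obtain ⟨q5, p5', q5', j1, j2, j3, j4, j5⟩ := stepD ha' ha hae' hae a1 i3.neg_left i2 m1.ok'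
  have m2 := KC.mirror j5.ok'
  refine ⟨q5', -p5', q5, -q4', ⟨j4, j3.neg_left, j2, i4.neg_left⟩, ?_⟩
  exact h2.trans (h5.trans (h9.trans (i5.trans (m1.trans (j5.trans m2)))))

/-! ## Step (6): all units are equivalent -/

theorem efree {a p q a' t t1 : ℤ} (ha : 0 < a) (ha' : 0 < a') (hae : Even a) (hae' : Even a')
    (hcop : IsCoprime q a) (ht : IsCoprime t a') (ht1 : IsCoprime t1 a')
    (hok : (KC a p q a' t 1).Ok) : SEq (KC a p q a' t 1) (KC a p q a' t1 1) := by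
  obtain ⟨e, m, hm, hem⟩ := oddPart ha'
  have hto := odd_of_cop hae' ht
  obtain ⟨j, hj, hmj, hj4⟩ := two4 (x := t) (w := (a + 1) * 1) (m := m) hto
    (hae.add_one.mul odd_one) hm
  have k1 := KC.V1 ha hcop j hok
  set X : ℤ := t - j * (a + 1) * 1 with hX
  have hX4 : (4 : ℤ) ∣ X - 2 := by
    have : t - j * ((a + 1) * 1) - 2 = X - 2 := by rw [hX]; ring
    rwa [this] at hj4
  obtain ⟨hX2, hX44⟩ := even_of_four hX4
  obtain ⟨y, hy⟩ := hX2
  obtain ⟨r, hr⟩ := hae'.two_dvd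
  have hr0 : 0 < r := by omega
  have hXl : ∀ l : ℕ, l.Prime → l ≠ 2 → (l : ℤ) ∣ a' → ¬ (l : ℤ) ∣ X := by
    intro l hl hl2 g1 g2
    have g3 : (l : ℤ) ∣ j := (dvd_oddPart hem (odd_natCast hl hl2) g1).trans hmj
    have g4 : (l : ℤ) ∣ t := by
      have e3 : t = X + j * (a + 1) * 1 := by rw [hX]; ring
      rw [e3]
      exact dvd_add g2 ((g3.mul_right _).mul_right _)
    exact not_dvd_of_isCoprime ht hl g1 g4
  have h3 : IsCoprime y r := by
    refine isCoprime_of_prime fun l hl g1 g2 => ?_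
    by_cases hl2 : l = 2
    · subst hl2
      apply hX44
      obtain ⟨z, hz⟩ := g2
      rw [hy, hz]
      exact ⟨z, by push_cast; ring⟩
    · exact hXl l hl hl2 (by rw [hr]; exact g1.mul_left 2) (by rw [hy]; exact g2.mul_left 2)
  have e3 : a' = r * 2 := by rw [hr]; ring
  have e4 : X = y * 2 := by rw [hy]; ring
  -- the gcd
  set g : ℤ := (Int.gcd (a + 1) a' : ℤ) with hg
  have hg1 : g ∣ a + 1 := Int.gcd_dvd_left _ _
  have hg2 : g ∣ a' := Int.gcd_dvd_right _ _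
  have hgl : ∀ l : ℕ, l.Prime → (l : ℤ) ∣ g → l ≠ 2 ∧ (l : ℤ) ∣ a' ∧ ¬ (l : ℤ) ∣ a := by
    intro l hl g1
    have g2 := g1.trans hg1
    refine ⟨odd_ne_two hae.add_one g2, g1.trans hg2, fun g3 => ?_⟩
    apply prime_not_dvd_one hl
    have := dvd_sub g2 g3
    simpa using this
  have h5 : IsCoprime (2 * a * y * t1) g := by
    refine isCoprime_of_prime fun l hl g1 g2 => ?_
    obtain ⟨i1, i2, i3⟩ := hgl l hl g1
    have hl' := Nat.prime_iff_prime_int.1 hl
    rcases hl'.dvd_or_dvd g2 with g3 | g3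
    · rcases hl'.dvd_or_dvd g3 with g4 | g4
      · rcases hl'.dvd_or_dvd g4 with g5 | g5
        · exact i1 (dvd_two_eq hl g5)
        · exact i3 g5
      · exact hXl l hl i1 i2 (by rw [hy]; exact g4.mul_left 2)
    · exact not_dvd_of_isCoprime ht1 hl i2 g3
  obtain ⟨z, hz⟩ := exists_z (-(t1 - X)) h5
  set c0 : ℤ := 1 - (2 * a * z) * y with hc0
  have hc0g : g ∣ c0 * t1 - X := by
    have : c0 * t1 - X = -(-(t1 - X) + 2 * a * y * t1 * z) := by rw [hc0]; ring
    rw [this]; exact (dvd_neg).2 hz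
  obtain ⟨t', ht'⟩ := coprime_shift c0 (-(2 * a * g * y)) a' ha'.ne' (fun l hl g1 g2 g3 => by
    have hl' := Nat.prime_iff_prime_int.1 hl
    have key : (l : ℤ) ∣ 2 * a * z * y → False := fun h => by
      apply prime_not_dvd_one hl
      have := dvd_add g3 h
      have e5 : c0 + 2 * a * z * y = 1 := by rw [hc0]; ring
      rwa [e5] at this
    rcases hl'.dvd_or_dvd ((dvd_neg).1 g2) with g4 | g4
    · rcases hl'.dvd_or_dvd g4 with g5 | g5
      · exact key ((g5.mul_right z).mul_right y)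
      · obtain ⟨i1, i2, i3⟩ := hgl l hl g5
        refine hXl l hl i1 i2 ?_
        have : X = c0 * t1 - (c0 * t1 - X) := by ring
        rw [this]
        exact dvd_sub (g3.mul_right _) (g5.trans hc0g)
    · exact key (g4.mul_left _))
  set k : ℤ := 2 * a * (z + g * t') with hk
  set τ : ℤ := 1 - k * y with hτ
  have hτ' : τ = c0 + -(2 * a * g * y) * t' := by rw [hτ, hk, hc0]; ring
  have hτc : IsCoprime τ a' := by rw [hτ']; exact ht'
  have hke : Even k := by rw [hk, mul_assoc]; exact even_two_mul _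
  have hτo : Odd τ := odd_one.sub_even (hke.mul_right _)
  have k7 := k1.ok'
  rw [e4, e3] at k7
  have i1 := KC.H (q2 := τ) hr0 two_pos h3 (isCoprime_one_left : IsCoprime (1 : ℤ) 2) k
    (cop_of_odd hτo) (by
      have : τ - (1 - k * y * (2 - 1)) = 0 := by rw [hτ]; ring
      rw [this]; exact dvd_zero _) k7
  have e5 : KC a p (q - k * (r + 1) * p) (r * 2) (y * 2) τ = KC a p q a' X τ := by
    rw [← e3, ← e4]
    refine KC.congr (by simp) ?_ (by simp) (by simp)
    refine ⟨2 * (z + g * t') * (r + 1) * p, ?_⟩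
    rw [hk]; ring
  rw [e5] at i1
  have e6 : KC a p q (r * 2) (y * 2) 1 = KC a p q a' X 1 := by rw [← e3, ← e4]
  rw [e6] at i1
  -- back
  have hgτ : g ∣ X - τ * t1 := by
    have : X - τ * t1 = -(c0 * t1 - X) + g * (2 * a * y * t' * t1) := by rw [hτ']; ring
    rw [this]
    exact dvd_add ((dvd_neg).2 hc0g) (dvd_mul_right _ _)
  obtain ⟨w, hw⟩ := hgτ
  obtain ⟨α, β, hαβ⟩ := hτc
  have hab := Int.gcd_eq_gcd_ab (a + 1) a'
  rw [← hg] at hab
  have i2 := KC.V1 ha hcop (Int.gcdA (a + 1) a' * w * α) i1.ok'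
  have e7 : KC a p q a' (X - Int.gcdA (a + 1) a' * w * α * (a + 1) * τ) τ = KC a p q a' t1 1 := by
    have hu : IsCoprime a' τ := ⟨β, α, by linear_combination hαβ⟩
    rw [← KC.unit' (p' := t1) (q' := 1) hu]
    refine KC.congr (by simp) (by simp) ?_ (by simp)
    refine ⟨-(g * w * β + w * α * τ * Int.gcdB (a + 1) a'), ?_⟩
    linear_combination (-1 : ℤ) * hw + g * w * hαβ - w * α * τ * hab
  rw [e7] at i2
  exact k1.trans (i1.trans i2)

/-- normalise the right side -/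
theorem normR {a p q a' p' q' : ℤ} (hp' : IsCoprime p' a') (hq' : IsCoprime q' a') :
    ∃ t, IsCoprime t a' ∧ KC a p q a' p' q' = KC a p q a' t 1 := by
  obtain ⟨α, β, hαβ⟩ := hq'
  have hα : IsCoprime α a' := ⟨q', β, by linear_combination hαβ⟩
  refine ⟨α * p', hα.mul_left hp', ?_⟩
  rw [← KC.unit' (p' := p') (q' := q') hα.symm]
  exact KC.congr (by simp) (by simp) (by simp) ⟨β, by linear_combination -hαβ⟩

theorem rightFree {a p q a' p' q' P' Q' : ℤ} (ha : 0 < a) (ha' : 0 < a') (hae : Even a)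
    (hae' : Even a') (hcop : IsCoprime q a) (h1 : IsCoprime p' a') (h2 : IsCoprime q' a')
    (h3 : IsCoprime P' a') (h4 : IsCoprime Q' a') (hok : (KC a p q a' p' q').Ok) :
    SEq (KC a p q a' p' q') (KC a p q a' P' Q') := by
  obtain ⟨t, k1, k2⟩ := normR (a := a) (p := p) (q := q) h1 h2
  obtain ⟨t1, k3, k4⟩ := normR (a := a) (p := p) (q := q) h3 h4
  rw [k2] at hok ⊢
  rw [k4]
  exact efree ha ha' hae hae' hcop k1 k3 hok

/-- LEMMA 331: all unit states with the same areas are equivalent -/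
theorem AU.seq {a p q a' p' q' P Q P' Q' : ℤ} (ha : 0 < a) (ha' : 0 < a') (hae : Even a)
    (hae' : Even a') (h : AU a p q a' p' q') (h' : AU a P Q a' P' Q')
    (hok : (KC a p q a' p' q').Ok) : SEq (KC a p q a' p' q') (KC a P Q a' P' Q') := by
  have k1 := rightFree ha ha' hae hae' h.q h.p' h.q' h'.p' h'.q' hok
  have m1 := KC.mirror k1.ok'
  have k2 := rightFree ha' ha hae' hae h'.p'.neg_left h.q h.p.neg_left h'.q h'.p.neg_left m1.ok'
  have m2 := KC.mirror k2.ok'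
  have e : KC a (-P) (-Q) a' (-P') (-Q') = KC a P Q a' P' Q' := by
    rw [← KC.unit (a := a) (p := P) (q := Q) (t := -1) isCoprime_one_right.neg_right,
      ← KC.unit' (a' := a') (p' := P') (q' := Q') (t := -1) isCoprime_one_right.neg_right]
    congr 2 <;> ring
  rw [e] at m2
  exact k1.trans (m1.trans (k2.trans m2))

/-! ## Levels -/

theorem par331 {a p q a' p' q' b r s b' r' s' : ℤ} (ha : 0 < a) (ha' : 0 < a') (hae : Even a)
    (hae' : Even a') (h : AO a p q a' p' q') (hb : 0 < b) (hb' : 0 < b') (hbe : Even b)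
    (hbe' : Even b') (k : Prm b r s) (k' : Prm b' r' s')
    (hs : SEq (KC a p q a' p' q') (KC b r s b' r' s')) :
    Odd r ∧ Odd s' ∧ (Odd s ∨ Odd r') := by
  have h1 := hs.n0_KC ha ha' h.P h.P' hb hb' k k'
  rw [nL_even_odd hae h.p, nL_even_odd hae' h.q'] at h1
  have hr : Odd r := by
    by_contra hn
    rw [nL_even_even hbe (Int.not_odd_iff_even.1 hn)] at h1
    omega
  have hs' : Odd s' := by
    by_contra hn
    rw [nL_even_even hbe' (Int.not_odd_iff_even.1 hn)] at h1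
    omega
  refine ⟨hr, hs', ?_⟩
  have h2 := hs.T5_KC hae hae' h.P h.P' hbe hbe' k k' h.p h.q' hr hs'
  by_contra hn
  push Not at hn
  have h3 := h2.2 ⟨Int.not_odd_iff_even.1 hn.1, Int.not_odd_iff_even.1 hn.2⟩
  exact (Int.not_even_iff_odd.2 h.q) h3.1

/-- the choice of `t` -/
theorem exists_t {a' M : ℤ} (ha' : 0 < a') (hae' : Even a') (hM : Odd M) (hM3 : ¬ (3 : ℤ) ∣ M) :
    ∃ t, IsCoprime t a' ∧ IsC (Lc a' t 1) (3, M) 2 := by
  obtain ⟨e, m, hm, hem⟩ := oddPart ha'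
  have h3l : ∀ l : ℕ, l.Prime → (l : ℤ) ∣ M → ¬ (l : ℤ) ∣ 3 := by
    intro l hl g1 g2
    have g3 : l = 3 := (Nat.prime_dvd_prime_iff_eq hl Nat.prime_three).1 (by exact_mod_cast g2)
    subst g3
    exact hM3 (by exact_mod_cast g1)
  obtain ⟨t0, -, ht0⟩ := pick (D := a') (α := 0) (β := 1) (γ := M) (δ := 3) ha'.ne'
    (fun _ => True) (fun _ => True)
    (fun l hl _ _ _ h => prime_not_dvd_one hl h.2)
    (fun l hl _ _ _ h => h3l l hl h.1 h.2)
  obtain ⟨α, hα⟩ := sq_mod_four hm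
  set t : ℤ := t0 + m ^ 2 * (M + 2 - t0) with ht
  have ht4 : (4 : ℤ) ∣ t - (M + 2) := ⟨α * (M + 2 - t0), by
    rw [ht]; linear_combination (M + 2 - t0) * hα⟩
  have hto : Odd t := by
    have h1 : Even (t - (M + 2)) := even_iff_two_dvd.2 ((by norm_num : (2 : ℤ) ∣ 4).trans ht4)
    have h2 : Odd (M + 2) := hM.add_even even_two
    have := h1.add_odd h2
    simpa using this
  have htl : ∀ l : ℕ, l.Prime → l ≠ 2 → (l : ℤ) ∣ a' → (l : ℤ) ∣ t - t0 := by
    intro l hl hl2 g1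
    have g2 : (l : ℤ) ∣ m := dvd_oddPart hem (odd_natCast hl hl2) g1
    rw [ht]
    have : t0 + m ^ 2 * (M + 2 - t0) - t0 = m * (m * (M + 2 - t0)) := by ring
    rw [this]
    exact g2.mul_right _
  have hcop : IsCoprime t a' := by
    refine isCoprime_of_prime fun l hl g1 g2 => ?_
    have hl2 := odd_ne_two hto g2
    refine (ht0 l hl hl2 g1).1 trivial ?_
    have e1 : 0 + t0 * 1 = t - (t - t0) := by ring
    rw [e1]
    exact dvd_sub g2 (htl l hl hl2 g1)
  refine ⟨t, hcop, isC_Lc (prm_of_p hcop) two_pos (hae'.two_dvd.mul_right _)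
    (hae'.two_dvd.mul_right _) ?_ ?_⟩
  · have : Even (t * 3 + 1 * M) := by
      have h1 : Odd (t * 3) := hto.mul (by decide)
      have h2 : Odd (1 * M) := by rwa [one_mul]
      exact h1.add_odd h2
    exact this.two_dvd
  · intro l hl g1 g2 g3
    by_cases hl2 : l = 2
    · subst hl2
      have e1 : (2 : ℤ) * ((2 : ℕ) : ℤ) = 4 := by norm_num
      rw [e1] at g3
      have h1 : (4 : ℤ) ∣ 2 := by
        have e2 : (2 : ℤ) = (t * 3 + 1 * M) - 3 * (t - (M + 2)) - 4 * (M + 1) := by ring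
        rw [e2]
        exact dvd_sub (dvd_sub g3 (ht4.mul_left 3)) (dvd_mul_right 4 _)
      norm_num at h1
    · have hl' := Nat.prime_iff_prime_int.1 hl
      have g4 : (l : ℤ) ∣ a' := by
        by_contra hn
        have g5 := (hl'.dvd_or_dvd ((Dvd.intro_left 2 rfl).trans g1)).resolve_left hn
        have g6 := (hl'.dvd_or_dvd ((Dvd.intro_left 2 rfl).trans g2)).resolve_left hn
        exact h3l l hl g6 g5
      refine (ht0 l hl hl2 g4).2 trivial ?_
      have e1 : M + t0 * 3 = (t * 3 + 1 * M) - 3 * (t - t0) := by ring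
      rw [e1]
      exact dvd_sub ((Dvd.intro_left 2 rfl).trans g3) ((htl l hl hl2 g4).mul_left 3)

theorem levelStep {a p q a' p' q' : ℤ} (ha4 : 4 ≤ a) (ha' : 0 < a') (hae : Even a)
    (hae' : Even a') (h : AU a p q a' p' q') (hok : (KC a p q a' p' q').Ok) :
    ∃ p1 q1 p1' q1', Prm (a - 2) p1 q1 ∧ Prm (a' + 2) p1' q1' ∧
      SEq (KC a p q a' p' q') (KC (a - 2) p1 q1 (a' + 2) p1' q1') := by
  have ha : 0 < a := by linarith
  by_cases h4 : a = 4
  · subst h4
    have k1 := h.seq ha ha' hae hae' (P := 1) (Q := 1) (P' := 1) (Q' := -1)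
      ⟨isCoprime_one_left, isCoprime_one_left, isCoprime_one_left,
        isCoprime_one_left.neg_left⟩ hok
    have k2 := KC.H1 ha' isCoprime_one_left (-(a' + 1)) k1.ok'
    have e : KC 4 1 (1 - -(a' + 1) * (a' + 1) * 1) a' 1 (-1) = KC 4 1 2 a' 1 (-1) := by
      obtain ⟨α, hα⟩ := sq_mod_four hae'.add_one
      refine KC.congr (by simp) ⟨-α, ?_⟩ (by simp) (by simp)
      linear_combination (-1 : ℤ) * hα
    rw [e] at k2
    have hP : Prm 4 1 2 := prm_of_p isCoprime_one_left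
    have hP' : Prm a' 1 (-1) := prm_of_p isCoprime_one_left
    obtain ⟨p1, q1, p1', q1', i1, i2, i3⟩ := KC.level (a := 4) (d := 2) (k := 3) (m := 2) (c := 1)
      (by norm_num) ha' hP hP' k2.ok' (by norm_num)
      (fun l hl g1 g2 _ => prime_not_dvd_one hl (by
        have := dvd_sub g2 g1
        norm_num at this
        exact this)) (by norm_num) (by norm_num) (by norm_num)
      (isC_Lc hP' one_pos (one_dvd _) (one_dvd _) (one_dvd _) (by
        intro l hl _ _ g3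
        apply prime_not_dvd_one hl
        rw [one_mul] at g3
        have := (dvd_neg).2 g3
        norm_num at this
        exact this)) (one_dvd _)
    exact ⟨p1, q1, p1', q1', i1, i2, k1.trans (k2.trans i3)⟩
  · have h6 : 6 ≤ a := by
      obtain ⟨b, rfl⟩ := hae
      omega
    obtain ⟨P, hP1, hP2, hP3, hP4⟩ : ∃ P : ℤ, IsCoprime P a ∧ ¬ (3 : ℤ) ∣ 1 + (a - 2 * P) ∧
        2 < a - 2 * P ∧ a - 2 * P ≤ a := by
      by_cases h3 : (3 : ℤ) ∣ a - 1
      · refine ⟨3, ?_, ?_, ?_, ?_⟩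
        · obtain ⟨b, hb⟩ := h3
          exact ⟨-b, 1, by linarith⟩
        · omega
        · obtain ⟨b, rfl⟩ := hae
          omega
        · omega
      · exact ⟨1, isCoprime_one_left, by omega, by omega, by omega⟩
    have hMo : Odd (1 + (a - 2 * P)) := by
      have : Even (a - 2 * P) := hae.sub (even_two_mul P)
      exact odd_one.add_even this
    obtain ⟨t, ht1, ht2⟩ := exists_t ha' hae' hMo hP2
    have k1 := h.seq ha ha' hae hae' (P := P) (Q := 1) (P' := t) (Q' := 1)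
      ⟨hP1, isCoprime_one_left, ht1, isCoprime_one_left⟩ hok
    obtain ⟨p1, q1, p1', q1', i1, i2, i3⟩ := KC.level (a := a) (d := 2) (k := a - 2 * P) (m := 1)
      (c := 2) ha ha' (prm_of_p hP1) (prm_of_p ht1) k1.ok' (by ring)
      (fun l hl _ _ g3 => prime_not_dvd_one hl g3) (by norm_num) hP3 hP4
      (by norm_num; exact ht2) dvd_rfl
    exact ⟨p1, q1, p1', q1', i1, i2, k1.trans i3⟩

theorem all_aux {N : ℕ} (hodd : Odd N) (n : ℕ) : ∀ {a p q a' p' q' : ℤ}, a.toNat ≤ n → 0 < a →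
    0 < a' → a + 1 + a' = N → Even a → Prm a p q → Prm a' p' q' → Odd p → Odd q' →
    (Odd q ∨ Odd p') → (KC a p q a' p' q').Ok →
    SEq (KC a p q a' p' q') (KC 2 1 (-1) (N - 3) 1 (-1)) := by
  induction n with
  | zero => intro a p q a' p' q' h0 ha; omega
  | succ n ih =>
    intro a p q a' p' q' hn ha ha' hv hae hP hP' hp hq' h hok
    have hae' : Even a' := by
      obtain ⟨b, hb⟩ := hodd
      obtain ⟨c, rfl⟩ := hae
      have : (N : ℤ) = 2 * b + 1 := by exact_mod_cast hb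
      exact ⟨b - c, by linarith⟩
    obtain ⟨p1, q1, p1', q1', k1, k2⟩ := toAU ha ha' hae hae' hP hP' hp hq' h hok
    by_cases h2 : a = 2
    · subst h2
      have e1 : a' = (N : ℤ) - 3 := by linarith
      rw [← e1]
      exact k2.trans (k1.seq ha ha' hae hae' ⟨isCoprime_one_left, isCoprime_one_left.neg_left,
        isCoprime_one_left, isCoprime_one_left.neg_left⟩ k2.ok')
    · have h4 : 4 ≤ a := by
        obtain ⟨b, rfl⟩ := hae
        omega
      obtain ⟨p2, q2, p2', q2', i1, i2, i3⟩ := levelStep h4 ha' hae hae' k1 k2.ok'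
      have hae2 : Even (a - 2) := hae.sub even_two
      have hae2' : Even (a' + 2) := hae'.add even_two
      obtain ⟨j1, j2, j3⟩ := par331 ha ha' hae hae' (k1.ao hae hae') (by omega) (by omega) hae2
        hae2' i1 i2 i3
      exact k2.trans (i3.trans (ih (by omega) (by omega) (by omega) (by linarith) hae2 i1 i2
        j1 j2 j3 i3.ok'))

/-- **all K-states of type (0,[3,3,1]) are equivalent, for every odd `N`** -/
theorem all {N : ℕ} (hodd : Odd N) {a p q a' p' q' : ℤ} (ha : 0 < a) (ha' : 0 < a')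
    (hv : a + 1 + a' = N) (hae : Even a) (hP : Prm a p q) (hP' : Prm a' p' q') (hp : Odd p)
    (hq' : Odd q') (h : Odd q ∨ Odd p') (hok : (KC a p q a' p' q').Ok) :
    SEq (KC a p q a' p' q') (KC 2 1 (-1) (N - 3) 1 (-1)) :=
  all_aux hodd _ le_rfl ha ha' hv hae hP hP' hp hq' h hok

end Pool.Agent.H4G.K3
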