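import Pool.Agent.H4G.Arith.Par

/-!
# The types (0,[3,3,1]) and (0,[5,1,1]) are distinguished by an invariant (helper83)

`C6.ms c` is the multiset of the classes modulo `2` of the seven vectors `a0, a0+a1, a1+a2,
a2+a3, a3+a4, a4+a5, a5`; `C6.T5 c` says that five of them agree.
-/

set_option autoImplicit false

open Matrix.SpecialLinearGroup MatrixGroups

namespace Pool.Agent.H4G

/-- reduction modulo `2` -/
def red (w : Z2) : ZMod 2 × ZMod 2 := ((w.1 : ZMod 2), (w.2 : ZMod 2))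

/-- the seven classes modulo `2` -/
def C6.ms : C6 → Multiset (ZMod 2 × ZMod 2)
  | (a0, a1, a2, a3, a4, a5) => {red a0} + {red (a0 + a1)} + {red (a1 + a2)} + {red (a2 + a3)} +
      {red (a3 + a4)} + {red (a4 + a5)} + {red a5}

/-- five of the seven vectors agree modulo `2` -/
def C6.T5 (c : C6) : Prop := ∃ t, Multiset.count t c.ms = 5

theorem red_eq {x y : Z2} (t : Z2) (h : x = y + (2 : ℤ) • t) : red x = red y := by
  subst h
  unfold red
  ext
  · simp [two_zmod]
  · simp [two_zmod]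

theorem red_shT (w : Z2) : red (shT w) = ((red w).1 + (red w).2, (red w).2) := by
  obtain ⟨x, y⟩ := w
  simp [red, shT]

theorem red_shJ (w : Z2) : red (shJ w) = (-(red w).2, (red w).1) := by
  obtain ⟨x, y⟩ := w
  simp [red, shJ]

theorem Mv.ms_eq {c c' : C6} (h : Mv c c') : c'.ms = c.ms ∨
    ∃ σ : ZMod 2 × ZMod 2 → ZMod 2 × ZMod 2, Function.Injective σ ∧ c'.ms = c.ms.map σ := by
  cases h with
  | neg a0 a1 a2 a3 a4 a5 =>
    left
    simp only [C6.ms]
    rw [red_eq (x := -a0) (y := a0) (-a0) (by module),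
      red_eq (x := -a0 + -a1) (y := a0 + a1) (-a0 - a1) (by module),
      red_eq (x := -a1 + -a2) (y := a1 + a2) (-a1 - a2) (by module),
      red_eq (x := -a2 + -a3) (y := a2 + a3) (-a2 - a3) (by module),
      red_eq (x := -a3 + -a4) (y := a3 + a4) (-a3 - a4) (by module),
      red_eq (x := -a4 + -a5) (y := a4 + a5) (-a4 - a5) (by module),
      red_eq (x := -a5) (y := a5) (-a5) (by module)]
  | rev a0 a1 a2 a3 a4 a5 =>
    left
    simp only [C6.ms]
    rw [red_eq (x := -a0) (y := a0) (-a0) (by module),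
      red_eq (x := a1 + -a0) (y := a0 + a1) (-a0) (by module),
      red_eq (x := -a2 + a1) (y := a1 + a2) (-a2) (by module),
      red_eq (x := a3 + -a2) (y := a2 + a3) (-a2) (by module),
      red_eq (x := -a4 + a3) (y := a3 + a4) (-a4) (by module),
      red_eq (x := a5 + -a4) (y := a4 + a5) (-a4) (by module)]
    abel
  | end0 a0 a1 a2 a3 a4 a5 =>
    left
    simp only [C6.ms]
    rw [red_eq (x := a0 + a1 + a1) (y := a0) a1 (by module)]
    abel
  | flip1 a0 a1 a2 a3 a4 a5 h1 h2 =>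
    left
    simp only [C6.ms]
    rw [red_eq (x := a0 + (a1 + a0 - a2)) (y := a1 + a2) (a0 - a2) (by module),
      red_eq (x := a1 + a0 - a2 + a2) (y := a0 + a1) 0 (by module)]
    abel
  | flip1' a0 a1 a2 a3 a4 a5 h1 h2 =>
    left
    simp only [C6.ms]
    rw [red_eq (x := a0 + (a1 - a0 + a2)) (y := a1 + a2) 0 (by module),
      red_eq (x := a1 - a0 + a2 + a2) (y := a0 + a1) (a2 - a0) (by module)]
    abel
  | flip2 a0 a1 a2 a3 a4 a5 h1 h2 =>
    left
    simp only [C6.ms]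
    rw [red_eq (x := a1 + (a2 + a1 - a3)) (y := a2 + a3) (a1 - a3) (by module),
      red_eq (x := a2 + a1 - a3 + a3) (y := a1 + a2) 0 (by module)]
    abel
  | flip2' a0 a1 a2 a3 a4 a5 h1 h2 =>
    left
    simp only [C6.ms]
    rw [red_eq (x := a1 + (a2 - a1 + a3)) (y := a2 + a3) 0 (by module),
      red_eq (x := a2 - a1 + a3 + a3) (y := a1 + a2) (a3 - a1) (by module)]
    abel
  | star a0 a1 a2 a3 a4 a5 h1 h2 h3 h4 =>
    left
    simp only [C6.ms]
    rw [red_eq (x := a2 - a3) (y := a2 + a3) (-a3) (by module),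
      red_eq (x := a2 - a3 + (a3 - a1)) (y := a1 + a2) (-a1) (by module),
      red_eq (x := a3 - a1 + (a0 - a3)) (y := a0 + a1) (-a1) (by module),
      red_eq (x := a0 - a3 + a3) (y := a0) 0 (by module)]
    abel
  | star' a0 a1 a2 a3 a4 a5 h1 h2 h3 h4 =>
    left
    simp only [C6.ms]
    rw [red_eq (x := a2 + a3 + (a3 - a1)) (y := a1 + a2) (a3 - a1) (by module),
      red_eq (x := a3 - a1 + (a0 - a1 + a3)) (y := a0) (a3 - a1) (by module),
      red_eq (x := a0 - a1 + a3 + a3) (y := a0 + a1) (a3 - a1) (by module)]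
    abel
  | T c =>
    right
    obtain ⟨a0, a1, a2, a3, a4, a5⟩ := c
    refine ⟨fun t => (t.1 + t.2, t.2), ?_, ?_⟩
    · decide
    · simp only [C6.ms, C6.map, shT_add, red_shT, Multiset.map_add, Multiset.map_singleton]
  | J c =>
    right
    obtain ⟨a0, a1, a2, a3, a4, a5⟩ := c
    refine ⟨fun t => (-t.2, t.1), ?_, ?_⟩
    · decide
    · simp only [C6.ms, C6.map, shJ_add, red_shJ, Multiset.map_add, Multiset.map_singleton]

theorem Mv.T5_iff {c c' : C6} (h : Mv c c') : c'.T5 ↔ c.T5 := by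
  rcases h.ms_eq with h | ⟨σ, hσ, h⟩
  · unfold C6.T5; rw [h]
  · unfold C6.T5
    rw [h]
    constructor
    · rintro ⟨t, ht⟩
      obtain ⟨s, rfl⟩ := Finite.surjective_of_injective hσ t
      rw [Multiset.count_map_eq_count' _ _ hσ] at ht
      exact ⟨s, ht⟩
    · rintro ⟨t, ht⟩
      exact ⟨σ t, by rw [Multiset.count_map_eq_count' _ _ hσ]; exact ht⟩

theorem CEq.T5_iff {c c' : C6} (h : CEq c c') : c'.T5 ↔ c.T5 := by
  induction h with
  | rel x y h => exact Mv.T5_iff h.2
  | refl x => exact Iff.rfl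
  | symm x y _ ih => exact ih.symm
  | trans x y z _ _ ih1 ih2 => exact ih2.trans ih1

theorem SEq.T5_iff {S S' : PSt} (h : SEq S S') {c c' : C6} (hc : IsRep S c) (hc' : IsRep S' c') :
    c'.T5 ↔ c.T5 := (h.ceq hc hc').T5_iff

/-! ## K-states -/

theorem red_add (x y : Z2) : red (x + y) = red x + red y := by
  ext <;> simp [red]

theorem red_zero_iff {w : Z2} : red w = 0 ↔ ev w = 1 := by
  unfold red ev
  simp only [Prod.ext_iff, Prod.fst_zero, Prod.snd_zero]
  split <;> simp_all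

theorem aux_cnt : ∀ l p t : ZMod 2 × ZMod 2, (l = 0 ∨ l = t) → (p = 0 ∨ p = t) →
    (l ≠ 0 ∨ p ≠ 0) → ∀ u : ZMod 2 × ZMod 2,
    (({u + p} : Multiset (ZMod 2 × ZMod 2)) + {u + p + l} + {l + u}) =
      {u} + {u + t} + {u + t} := by
  decide

theorem aux_mem : ∀ p q x y : ZMod 2, (p ≠ 0 ∨ q ≠ 0) → p * x + q * y = 0 →
    ((x, y) = (0, 0) ∨ (x, y) = (q, p)) := by
  decide

theorem cast_zmod_two {x : ℤ} : (x : ZMod 2) = 0 ↔ Even x := by
  rw [even_iff_two_dvd]; exact ZMod.intCast_zmod_eq_zero_iff_dvd x 2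

theorem cast_zmod_two' {x : ℤ} : (x : ZMod 2) = 1 ↔ Odd x := by
  rw [← Int.not_even_iff_odd, ← cast_zmod_two]
  generalize (x : ZMod 2) = a
  revert a; decide

/-- the three classes of one side -/
theorem ms_Lc {a p q : ℤ} (ha : Even a) (h : Prm a p q) {l p0 u : Z2}
    (hL : lat l p0 = Lc a p q) :
    (({red (u + p0)} : Multiset (ZMod 2 × ZMod 2)) + {red (u + p0 + l)} + {red (l + u)}) =
      {red u} + {red u + red (q, p)} + {red u + red (q, p)} := by
  have hpq : (p : ZMod 2) ≠ 0 ∨ (q : ZMod 2) ≠ 0 := by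
    by_contra hn
    push Not at hn
    rw [cast_zmod_two, cast_zmod_two] at hn
    exact h 2 Nat.prime_two (by exact_mod_cast ha.two_dvd) (by exact_mod_cast hn.1.two_dvd)
      (by exact_mod_cast hn.2.two_dvd)
  have hmem : ∀ w ∈ Lc a p q, red w = 0 ∨ red w = red (q, p) := by
    intro w hw
    rw [mem_Lc] at hw
    have h1 : ((p * w.1 + q * w.2 : ℤ) : ZMod 2) = 0 := by
      rw [cast_zmod_two, even_iff_two_dvd]
      exact ha.two_dvd.trans hw
    push_cast at h1
    exact aux_mem _ _ _ _ hpq h1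
  have ml : l ∈ Lc a p q := by rw [← hL]; exact AddSubgroup.subset_closure (by simp)
  have mp : p0 ∈ Lc a p q := by rw [← hL]; exact AddSubgroup.subset_closure (by simp)
  have hn : red l ≠ 0 ∨ red p0 ≠ 0 := by
    by_contra hcon
    push Not at hcon
    have h1 := red_zero_iff.1 hcon.1
    have h2 := red_zero_iff.1 hcon.2
    obtain ⟨t, ht⟩ := ev_zero_iff.1 h1
    obtain ⟨t', ht'⟩ := ev_zero_iff.1 h2
    have hm : ((q, -p) : Z2) ∈ lat l p0 := by rw [hL, mem_Lc]; exact ⟨0, by ring⟩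
    obtain ⟨m, n, hmn⟩ := mem_lat.1 hm
    rw [ht, ht'] at hmn
    have e1 : q = 2 * (m * t.1 + n * t'.1) := by
      have := congrArg Prod.fst hmn
      simp only [Prod.fst_add, Prod.smul_fst, smul_eq_mul] at this
      linarith
    have e2 : -p = 2 * (m * t.2 + n * t'.2) := by
      have := congrArg Prod.snd hmn
      simp only [Prod.snd_add, Prod.smul_snd, smul_eq_mul] at this
      linarith
    exact h 2 Nat.prime_two (by exact_mod_cast ha.two_dvd)
      ((dvd_neg).1 ⟨_, by exact_mod_cast e2⟩) ⟨_, by exact_mod_cast e1⟩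
  have := aux_cnt (red l) (red p0) (red (q, p)) (hmem _ ml) (hmem _ mp) hn (red u)
  rw [red_add, red_add, red_add, red_add]
  exact this

/-- the seven classes of a K-state with even areas -/
theorem IsRep.ms_KC {a p q a' p' q' : ℤ} (hae : Even a) (hae' : Even a')
    (h : Prm a p q) (h' : Prm a' p' q') {c : C6} (hc : IsRep (KC a p q a' p' q') c) :
    c.ms = {red (1, 0)} + {red (1, 0) + red (q, p)} + {red (1, 0) + red (q, p)} + {red (1, 1)} +
      ({red (0, 1)} + {red (0, 1) + red (q', p')} + {red (0, 1) + red (q', p')}) := by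
  obtain ⟨a0, a1, a2, a3, a4, a5⟩ := c
  obtain ⟨h1, h2, h3, h4, h5⟩ := hc
  change a2 = (1, 0) at h2
  change a3 = (0, 1) at h3
  subst h2 h3
  obtain ⟨x1, x2, x3⟩ := h1
  obtain ⟨y1, y2, y3⟩ := h5
  change lat a1 (a0 - (1, 0)) = Lc a p q at x3
  change lat a4 (a5 - (0, 1)) = Lc a' p' q' at y3
  have k1 := ms_Lc hae h (u := (1, 0)) x3
  have k2 := ms_Lc hae' h' (l := -a4) (p0 := a5 - (0, 1)) (u := (0, 1))
    (by rw [lat_neg_left]; exact y3)
  have e1 : ((1, 0) : Z2) + (a0 - (1, 0)) = a0 := by abel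
  have e2 : ((0, 1) : Z2) + (a5 - (0, 1)) = a5 := by abel
  rw [e1] at k1
  rw [e2] at k2
  have e3 : red (a5 + -a4) = red (a4 + a5) := red_eq (-a4) (by module)
  have e4 : red (-a4 + (0, 1)) = red ((0, 1) + a4) := red_eq (-a4) (by module)
  rw [e3, e4] at k2
  have e5 : ((1, 0) : Z2) + (0, 1) = (1, 1) := by ext <;> simp
  simp only [C6.ms]
  rw [e5, ← k1, ← k2]
  abel

theorem aux_T5 : ∀ q p' : ZMod 2,
    (∃ t, Multiset.count t (({((1, 0) : ZMod 2 × ZMod 2)} : Multiset (ZMod 2 × ZMod 2)) +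
      {(1, 0) + (q, 1)} + {(1, 0) + (q, 1)} + {(1, 1)} +
      ({(0, 1)} + {(0, 1) + (1, p')} + {(0, 1) + (1, p')})) = 5) ↔ (q = 0 ∧ p' = 0) := by
  decide

/-- the invariant of a K-state with even areas and `n0 = 0` -/
theorem IsRep.T5_KC {a p q a' p' q' : ℤ} (hae : Even a) (hae' : Even a')
    (h : Prm a p q) (h' : Prm a' p' q') (hp : Odd p) (hq' : Odd q') {c : C6}
    (hc : IsRep (KC a p q a' p' q') c) : c.T5 ↔ Even q ∧ Even p' := by
  unfold C6.T5
  rw [hc.ms_KC hae hae' h h']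
  have e1 : red (q, p) = ((q : ZMod 2), 1) := by
    ext
    · rfl
    · simp only [red]; exact cast_zmod_two'.2 hp
  have e2 : red (q', p') = (1, (p' : ZMod 2)) := by
    ext
    · simp only [red]; exact cast_zmod_two'.2 hq'
    · rfl
  have e3 : red (1, 0) = (1, 0) := by simp [red]
  have e4 : red (0, 1) = (0, 1) := by simp [red]
  have e5 : red (1, 1) = (1, 1) := by simp [red]
  rw [e1, e2, e3, e4, e5, aux_T5, cast_zmod_two, cast_zmod_two]

/-- equivalent K-states with even areas and `n0 = 0` are both of type `511` or both not -/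
theorem SEq.T5_KC {a p q a' p' q' b r s b' r' s' : ℤ} (hae : Even a) (hae' : Even a')
    (h : Prm a p q) (h' : Prm a' p' q') (hbe : Even b) (hbe' : Even b') (k : Prm b r s)
    (k' : Prm b' r' s') (hp : Odd p) (hq' : Odd q') (hr : Odd r) (hs' : Odd s')
    (hs : SEq (KC a p q a' p' q') (KC b r s b' r' s')) :
    (Even q ∧ Even p') ↔ (Even s ∧ Even r') := by
  obtain ⟨c, c', h1, h2, h3⟩ := hs
  rw [← h1.T5_KC hae hae' h h' hp hq', ← h2.T5_KC hbe hbe' k k' hr hs', h3.T5_iff]

end Pool.Agent.H4G
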