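import Pool.Agent.H4G.Arith.K511
import Pool.Agent.H4G.Ctwo.Type5

/-!
# K-states of type (0,[5,1,1]) with `c = 1` or `d = 1`, all odd `N` (helper19)

The left lattice lies in `2 ℤ²` and the right one is `{X = x Y mod a'}` with `x` odd (or the mirror
situation). All such states with `N` squares, `N` odd, are equivalent to `KC 2 1 0 (N - 3) 2 (-1)`.
-/

set_option autoImplicit false

open scoped MatrixGroups

namespace Pool.Agent.H4G

namespace K511A

open K511

/-- at the minimal `n`, direct H-moves -/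
theorem red1 {S : PSt} {a a' : ℤ} {n : ℕ} (ha' : 0 < a')
    (hmin : ∀ m, Pn S a a' m → n ≤ m) {s z p q : ℤ} (hs : 0 < s) (hn : 0 < n) (e : s * n = a)
    (h2s : (2 : ℤ) ∣ s) (h2n : (2 : ℤ) ∣ n) (h2z : (2 : ℤ) ∣ z) (hp : IsCoprime p a')
    (hq : Odd q) (hS : SEq S (KS (lat (0, s) ((n : ℤ), z)) (Lc a' p q))) :
    (n : ℤ) ∣ (a' + 1) * z := by
  have hn' : (0 : ℤ) < n := by exact_mod_cast hn
  have ha0 : 0 < a := by rw [← e]; exact mul_pos hs hn'
  have key : ∀ j : ℤ, (n : ℤ) ≤ Int.gcd (j * ((a' + 1) * s)) (n - j * (-(a' + 1) * z)) := by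
    intro j
    have h1 := KS.Hc (r := a') (c := 1) (q' := q) (p1 := p) (q2 := q) ha' one_pos hp
      isCoprime_one_right j isCoprime_one_right (by simp) (L := lat (0, s) ((n : ℤ), z))
      (by simpa using hS.ok')
    rw [mul_one, mul_one] at h1
    have hA : IsArea (lat (0, s) ((n : ℤ), z)) a := ⟨ha0, (0, s), ((n : ℤ), z), by
      simp only [cr]; rw [← e]; ring, rfl⟩
    have hA1 := hA.act (shH (j * (a' + 1)))
    have hev : ∀ w ∈ (lat (0, s) ((n : ℤ), z)).map (act (shH (j * (a' + 1)))), ev w = 1 := by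
      rintro _ ⟨x, hx, rfl⟩
      rw [ev_act]
      exact ev_lat h2s h2n h2z hx
    have m1 : act (shH (j * (a' + 1))) (0, s) ∈
        (lat (0, s) ((n : ℤ), z)).map (act (shH (j * (a' + 1)))) :=
      AddSubgroup.mem_map_of_mem _ (mem_lat.2 ⟨1, 0, by module⟩)
    have m2 : act (shH (j * (a' + 1))) ((n : ℤ), z) ∈
        (lat (0, s) ((n : ℤ), z)).map (act (shH (j * (a' + 1)))) :=
      AddSubgroup.mem_map_of_mem _ (mem_lat.2 ⟨0, 1, by module⟩)
    obtain ⟨s1, d1, z1, hs1, hd1, e1, e2⟩ := hA1.hnf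
    rw [e2] at hev m1 m2 h1
    rw [act_shH] at m1 m2
    have v1 := dvd_of_ev (hev (0, s1) (mem_lat.2 ⟨1, 0, by module⟩))
    have v2 := dvd_of_ev (hev (d1, z1) (mem_lat.2 ⟨0, 1, by module⟩))
    have hd1n : ((d1.toNat : ℕ) : ℤ) = d1 := Int.toNat_of_nonneg hd1.le
    have hP : Pn S a a' d1.toNat := by
      refine ⟨s1, z1, p, q, hs1, by omega, by rw [hd1n, e1], v1.2, by rw [hd1n]; exact v2.1,
        v2.2, hp, hq, ?_⟩
      rw [hd1n]
      exact hS.trans h1
    have h2 := hmin _ hP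
    have k1 : d1 ∣ j * ((a' + 1) * s) := by
      obtain ⟨i, k, e3⟩ := mem_lat.1 m1
      have := congrArg Prod.fst e3
      simp only [Prod.fst_add, Prod.smul_fst, smul_eq_mul] at this
      exact ⟨k, by linear_combination -this⟩
    have k2 : d1 ∣ n - j * (-(a' + 1) * z) := by
      obtain ⟨i, k, e3⟩ := mem_lat.1 m2
      have := congrArg Prod.fst e3
      simp only [Prod.fst_add, Prod.smul_fst, smul_eq_mul] at this
      exact ⟨k, by linear_combination -this⟩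
    have k3 : d1 ∣ (Int.gcd (j * ((a' + 1) * s)) (n - j * (-(a' + 1) * z)) : ℤ) :=
      Int.dvd_coe_gcd k1 k2
    have k4 : 0 < (Int.gcd (j * ((a' + 1) * s)) (n - j * (-(a' + 1) * z)) : ℤ) := by
      have : 0 < Int.gcd (j * ((a' + 1) * s)) (n - j * (-(a' + 1) * z)) := by
        rw [Int.gcd_pos_iff]
        by_cases hj : j = 0
        · right
          rw [hj]; simp; omega
        · left
          exact mul_ne_zero hj (mul_ne_zero (by omega) hs.ne')
      exact_mod_cast this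
    have k5 := Int.le_of_dvd k4 k3
    omega
  have h3 := crt_min hn' (mul_ne_zero (by omega : (a' + 1) ≠ 0) hs.ne') key
  have := (dvd_neg).2 h3.2
  have e5 : -(-(a' + 1) * z) = (a' + 1) * z := by ring
  rwa [e5] at this

/-- every odd divisor of `x` divides the odd part -/
theorem odd_dvd_part {x o : ℤ} {e : ℕ} (h : x = 2 ^ e * o) {y : ℤ} (hy : Odd y) (hd : y ∣ x) :
    y ∣ o := by
  rw [h] at hd
  exact (isCoprime_two hy).pow_right.dvd_of_dvd_mul_left hd

/-- at the minimal `n`, the detour through a state with `c = 2` -/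
theorem red2 {S : PSt} {a a' : ℤ} {n : ℕ} {r : ℤ} (hr : 0 < r) (ha' : r * 2 = a')
    (hmin : ∀ m, Pn S a a' m → n ≤ m) {s z p q : ℤ} (hs : 0 < s) (hn : 0 < n) (e : s * n = a)
    (h2s : (2 : ℤ) ∣ s) (h2n : (2 : ℤ) ∣ n) (h2z : (2 : ℤ) ∣ z) (hq : Odd q)
    (hS : SEq S (KS (lat (0, s) ((n : ℤ), z)) (Lc a' p q)))
    {j p1 : ℤ} (hj : Odd j) (hpj : p - j * (s + 1) * q = p1 * 2) (hp1 : IsCoprime p1 r)
    {l : ℕ} (hl : l.Prime) (hl2 : l ≠ 2) (hln : (l : ℤ) ∣ n) (hlr : ¬ (l : ℤ) ∣ r + 1) :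
    (l : ℤ) ∣ z + j * (n - 1) := by
  have hn' : (0 : ℤ) < n := by exact_mod_cast hn
  have ha0 : 0 < a := by rw [← e]; exact mul_pos hs hn'
  obtain ⟨E, o, ho, heo⟩ := exists_two_pow ha0
  obtain ⟨E', o', ho', heo'⟩ := exists_two_pow (by rw [← ha']; omega : 0 < a')
  set zj := z + j * ((n : ℤ) - 1) with hzj
  have hzodd : Odd zj := by
    have h1 : Odd ((n : ℤ) - 1) := by
      obtain ⟨t, ht⟩ := h2n
      exact ⟨t - 1, by rw [ht]; ring⟩
    exact (even_iff_two_dvd.2 h2z).add_odd (hj.mul h1)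
  have s1 := KS.Vc hs hn' hS.ok' j
  rw [hpj, ← ha'] at s1
  have hS1 := (ha' ▸ hS).trans s1
  have key : ∀ k : ℤ, (n : ℤ) ≤ Int.gcd (k * (2 ^ (E + 1) * (r + 1) * s))
      (n - k * (-(2 ^ (E + 1) * (r + 1) * zj))) := by
    intro k
    set q2 := q - k * 2 ^ (E + 1) * p1 with hq2
    have hq2odd : Odd q2 := by
      have : q2 = q + 2 * (-(k * 2 ^ E * p1)) := by rw [hq2]; ring
      rw [this]
      exact hq.add_even ⟨_, two_mul _⟩
    have s2 := KS.Hc hr two_pos hp1 (isCoprime_two hq) (k * 2 ^ (E + 1)) (q2 := q2)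
      (isCoprime_two hq2odd) ⟨0, by rw [hq2]; ring⟩ hS1.ok'
    set K := k * 2 ^ (E + 1) * (r + 1) with hK
    have hA : IsArea (lat (0, s) ((n : ℤ), zj)) a := ⟨ha0, (0, s), ((n : ℤ), zj), by
      simp only [cr]; rw [← e]; ring, rfl⟩
    have hA1 := hA.act (shH K)
    have m1 : act (shH K) (0, s) ∈ (lat (0, s) ((n : ℤ), zj)).map (act (shH K)) :=
      AddSubgroup.mem_map_of_mem _ (mem_lat.2 ⟨1, 0, by module⟩)
    have m2 : act (shH K) ((n : ℤ), zj) ∈ (lat (0, s) ((n : ℤ), zj)).map (act (shH K)) :=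
      AddSubgroup.mem_map_of_mem _ (mem_lat.2 ⟨0, 1, by module⟩)
    obtain ⟨s3, d1, z1, hs3, hd1, e1, e2⟩ := hA1.hnf
    have w1 : ((0, s3) : Z2) ∈ (lat (0, s) ((n : ℤ), zj)).map (act (shH K)) := by
      rw [e2]; exact mem_lat.2 ⟨1, 0, by module⟩
    have w2 : ((d1, z1) : Z2) ∈ (lat (0, s) ((n : ℤ), zj)).map (act (shH K)) := by
      rw [e2]; exact mem_lat.2 ⟨0, 1, by module⟩
    rw [e2] at m1 m2 s2
    rw [act_shH] at m1 m2
    -- `s3` is even
    have h2s3 : (2 : ℤ) ∣ s3 := by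
      obtain ⟨w, hw, hw2⟩ := w1
      obtain ⟨α, β, rfl⟩ := mem_lat.1 hw
      rw [act_shH] at hw2
      have f1 := congrArg Prod.fst hw2
      have f2 := congrArg Prod.snd hw2
      simp only [Prod.fst_add, Prod.snd_add, Prod.smul_fst, Prod.smul_snd, smul_eq_mul] at f1 f2
      rw [f2] at f1
      have f3 : 2 ^ E * (β * o) = 2 ^ E * (2 * (-(k * (r + 1) * s3 * s))) := by
        have g1 : s * ((n : ℤ)) = 2 ^ E * o := by rw [e, heo]
        have g2 : β * (s * n) = -(K * s3 * s) := by linear_combination s * f1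
        rw [g1, hK] at g2
        linear_combination g2
      have f4 := mul_left_cancel₀ (pow_ne_zero E two_ne_zero) f3
      have f5 : Even β := by
        rcases Int.even_or_odd β with h | h
        · exact h
        · exact absurd (f4 ▸ (even_two_mul _)) (Int.not_even_iff_odd.2 (h.mul ho))
      obtain ⟨β', hβ⟩ := even_iff_two_dvd.1 f5
      obtain ⟨s', hs'⟩ := h2s
      exact ⟨α * s' + β' * zj, by rw [← f2, hβ, hs']; ring⟩
    have h2d1 : (2 : ℤ) ∣ d1 := by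
      obtain ⟨w, hw, hw2⟩ := w2
      obtain ⟨α, β, rfl⟩ := mem_lat.1 hw
      rw [act_shH] at hw2
      have f1 := congrArg Prod.fst hw2
      simp only [Prod.fst_add, Prod.snd_add, Prod.smul_fst, Prod.smul_snd, smul_eq_mul] at f1
      obtain ⟨n', hn2⟩ := h2n
      refine ⟨β * n' + k * 2 ^ E * (r + 1) * (α * s + β * zj), ?_⟩
      rw [← f1, hK, hn2]; ring
    have hz1 : Odd z1 := by
      rcases Int.even_or_odd z1 with h | h
      · exfalso
        have := dvd_of_ev (ev_lat h2s3 h2d1 (even_iff_two_dvd.1 h) m2)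
        exact (Int.not_even_iff_odd.2 hzodd) (even_iff_two_dvd.2 this.2)
      · exact h
    have s3' := KS.Vc hs3 hd1 s2.ok' o'
    have hd1n : ((d1.toNat : ℕ) : ℤ) = d1 := Int.toNat_of_nonneg hd1.le
    have hcop : IsCoprime (p1 * 2 - o' * (s3 + 1) * q2) a' := by
      refine isCoprime_of_prime fun x hx k1 k2 => ?_
      by_cases hx2 : x = 2
      · subst hx2
        have k3 : Odd (p1 * 2 - o' * (s3 + 1) * q2) := by
          have : p1 * 2 - o' * (s3 + 1) * q2 = -(o' * (s3 + 1) * q2) + 2 * p1 := by ring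
          rw [this]
          exact (((ho'.mul (even_iff_two_dvd.2 h2s3).add_one).mul hq2odd).neg).add_even
            (even_two_mul _)
        exact (Int.not_even_iff_odd.2 k3) (even_iff_two_dvd.2 (by exact_mod_cast k2))
      · have hxo : Odd (x : ℤ) := by exact_mod_cast hx.odd_of_ne_two hx2
        have k3 : (x : ℤ) ∣ o' := odd_dvd_part heo' hxo k1
        have k4 : (x : ℤ) ∣ p1 * 2 := by
          have : p1 * 2 = (p1 * 2 - o' * (s3 + 1) * q2) + o' * ((s3 + 1) * q2) := by ring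
          rw [this]
          exact dvd_add k2 (k3.mul_right _)
        have hx' := Nat.prime_iff_prime_int.1 hx
        have k5 : (x : ℤ) ∣ p1 := (hx'.dvd_or_dvd k4).resolve_right (odd_not_dvd hx hx2)
        rw [← ha'] at k1
        have k6 : (x : ℤ) ∣ r := (hx'.dvd_or_dvd k1).resolve_right (odd_not_dvd hx hx2)
        exact not_dvd_of_isCoprime hp1 hx k6 k5
    have hP : Pn S a a' d1.toNat := by
      refine ⟨s3, z1 + o' * (d1 - 1), p1 * 2 - o' * (s3 + 1) * q2, q2, hs3, by omega,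
        by rw [hd1n, e1], h2s3, by rw [hd1n]; exact h2d1, ?_, hcop, hq2odd, ?_⟩
      · have h1 : Odd (d1 - 1) := (even_iff_two_dvd.2 h2d1).sub_odd odd_one
        exact even_iff_two_dvd.1 (hz1.add_odd (ho'.mul h1))
      · rw [hd1n]
        have := (hS1.trans s2).trans s3'
        rwa [ha'] at this
    have h2 := hmin _ hP
    have k1 : d1 ∣ k * (2 ^ (E + 1) * (r + 1) * s) := by
      obtain ⟨i, k', e3⟩ := mem_lat.1 m1
      have := congrArg Prod.fst e3
      simp only [Prod.fst_add, Prod.smul_fst, smul_eq_mul] at this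
      exact ⟨k', by rw [hK] at this; linear_combination -this⟩
    have k2 : d1 ∣ n - k * (-(2 ^ (E + 1) * (r + 1) * zj)) := by
      obtain ⟨i, k', e3⟩ := mem_lat.1 m2
      have := congrArg Prod.fst e3
      simp only [Prod.fst_add, Prod.smul_fst, smul_eq_mul] at this
      exact ⟨k', by rw [hK] at this; linear_combination -this⟩
    have k3 := Int.dvd_coe_gcd k1 k2
    have k4 : 0 < (Int.gcd (k * (2 ^ (E + 1) * (r + 1) * s))
        (n - k * (-(2 ^ (E + 1) * (r + 1) * zj))) : ℤ) := by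
      have : 0 < Int.gcd (k * (2 ^ (E + 1) * (r + 1) * s))
          (n - k * (-(2 ^ (E + 1) * (r + 1) * zj))) := by
        rw [Int.gcd_pos_iff]
        by_cases hk : k = 0
        · right
          rw [hk]; simp; omega
        · left
          refine mul_ne_zero hk (mul_ne_zero (mul_ne_zero (pow_ne_zero _ two_ne_zero) ?_) hs.ne')
          omega
      exact_mod_cast this
    have k5 := Int.le_of_dvd k4 k3
    omega
  have h3 := (crt_min hn' (mul_ne_zero (mul_ne_zero (pow_ne_zero _ two_ne_zero)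
    (by omega : r + 1 ≠ 0)) hs.ne') key).2
  have h4 : (l : ℤ) ∣ 2 ^ (E + 1) * (r + 1) * zj := (dvd_neg).1 (hln.trans h3)
  have hl' := Nat.prime_iff_prime_int.1 hl
  rcases hl'.dvd_or_dvd h4 with h | h
  · rcases hl'.dvd_or_dvd h with h | h
    · exact absurd h (odd_not_dvd_pow hl hl2 _)
    · exact absurd h hlr
  · exact h


/-- the choice of the twist: `p - j (s + 1) q = 2 p1` with `p1` prime to `r` -/
theorem good_j {r a' s p q : ℤ} (ha' : r * 2 = a') (hp : IsCoprime p a') {j : ℤ}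
    (hj4 : (p - j * (s + 1) * q) % 4 = 2) (hodd : ∀ x : ℤ, Odd x → x ∣ a' → x ∣ j) :
    ∃ p1, p - j * (s + 1) * q = p1 * 2 ∧ IsCoprime p1 r := by
  obtain ⟨p1, hp1⟩ : (2 : ℤ) ∣ p - j * (s + 1) * q := by omega
  refine ⟨p1, by rw [hp1]; ring, isCoprime_of_prime fun l hl k1 k2 => ?_⟩
  by_cases hl2 : l = 2
  · subst hl2
    obtain ⟨t, ht⟩ := k2
    rw [hp1, ht] at hj4
    push_cast at hj4
    omega
  · have hlo : Odd (l : ℤ) := by exact_mod_cast hl.odd_of_ne_two hl2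
    have k3 : (l : ℤ) ∣ a' := by rw [← ha']; exact k1.mul_right _
    have k4 := hodd _ hlo k3
    have k5 : (l : ℤ) ∣ p := by
      have : p = 2 * p1 + j * ((s + 1) * q) := by rw [← hp1]; ring
      rw [this]
      exact dvd_add (k2.mul_left _) (k4.mul_right _)
    exact not_dvd_of_isCoprime hp hl k3 k5

/-- reduction to `n = 2`, all odd `N` -/
theorem exists_n_two {S : PSt} {a a' : ℤ} {n0 : ℕ} (ha' : 0 < a') (h2 : (2 : ℤ) ∣ a')
    (hP : Pn S a a' n0) : Pn S a a' 2 := by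
  classical
  have hex : ∃ n, Pn S a a' n := ⟨_, hP⟩
  obtain ⟨s, z, p, q, hs, hn, e, h2s, h2n, h2z, hp, hq, hS⟩ := Nat.find_spec hex
  have hmin : ∀ m, Pn S a a' m → Nat.find hex ≤ m := fun m hm => Nat.find_min' hex hm
  have hPn : Pn S a a' (Nat.find hex) := Nat.find_spec hex
  set n := Nat.find hex with hndef
  clear_value n
  have hn' : (0 : ℤ) < n := by exact_mod_cast hn
  obtain ⟨r, hr'⟩ := h2
  have ha2 : r * 2 = a' := by rw [hr']; ring
  have hr : 0 < r := by omega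
  have h2a : (2 : ℤ) ∣ a' := ⟨r, hr'⟩
  -- the odd primes dividing `a' + 1`
  have hA : ∀ l : ℕ, l.Prime → l ≠ 2 → (l : ℤ) ∣ n → ¬ (l : ℤ) ∣ a' + 1 := by
    intro l hl hl2 hln hl1
    obtain ⟨E', o', ho', heo'⟩ := exists_two_pow ha'
    have hpo : Odd p := by
      rcases Int.even_or_odd p with h | h
      · exfalso
        exact not_dvd_of_isCoprime hp Nat.prime_two (by exact_mod_cast h2a)
          (by exact_mod_cast even_iff_two_dvd.1 h)
      · exact h
    have h2s1 : Odd (s + 1) := (even_iff_two_dvd.2 h2s).add_one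
    have hw : Odd (o' * (s + 1) * q) := (ho'.mul h2s1).mul hq
    obtain ⟨j, hj, hj4⟩ : ∃ j : ℤ, (j = o' ∨ j = -o') ∧ (p - j * (s + 1) * q) % 4 = 2 := by
      have e1 : p - -o' * (s + 1) * q = p + o' * (s + 1) * q := by ring
      obtain ⟨x, hx⟩ := hpo
      obtain ⟨y, hy⟩ := hw
      by_cases h : (p - o' * (s + 1) * q) % 4 = 2
      · exact ⟨o', Or.inl rfl, h⟩
      · refine ⟨-o', Or.inr rfl, ?_⟩
        rw [e1]
        rw [hx, hy] at h ⊢
        omega
    have hjo : Odd j := by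
      rcases hj with rfl | rfl
      · exact ho'
      · exact ho'.neg
    have hdj : ∀ x : ℤ, Odd x → x ∣ a' → x ∣ j := by
      intro x hx hxd
      have := odd_dvd_part heo' hx hxd
      rcases hj with rfl | rfl
      · exact this
      · exact (dvd_neg).2 this
    obtain ⟨p1, f1, f2⟩ := good_j ha2 hp hj4 hdj
    have hj4' : (p - (j + 4 * a') * (s + 1) * q) % 4 = 2 := by
      have : p - (j + 4 * a') * (s + 1) * q = p - j * (s + 1) * q + 4 * (-(a' * (s + 1) * q)) := by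
        ring
      rw [this, Int.add_mul_emod_self_left]
      exact hj4
    obtain ⟨p2, f3, f4⟩ := good_j ha2 hp hj4'
      (fun x hx hxd => dvd_add (hdj x hx hxd) (hxd.mul_left _))
    have hjo' : Odd (j + 4 * a') := hjo.add_even ⟨2 * a', by ring⟩
    have hl' := Nat.prime_iff_prime_int.1 hl
    have hlr : ¬ (l : ℤ) ∣ r + 1 := by
      intro h
      have : (1 : ℤ) = 2 * (r + 1) - (a' + 1) := by rw [hr']; ring
      apply prime_not_dvd_one hl
      rw [this]
      exact dvd_sub (h.mul_left _) hl1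
    have g1 := red2 hr ha2 hmin hs hn e h2s h2n h2z hq hS hjo f1 f2 hl hl2 hln hlr
    have g2 := red2 hr ha2 hmin hs hn e h2s h2n h2z hq hS hjo' f3 f4 hl hl2 hln hlr
    have g3 : (l : ℤ) ∣ 2 ^ 2 * a' := by
      have h5 : (2 : ℤ) ^ 2 * a' = n * (4 * a') - ((z + (j + 4 * a') * ((n : ℤ) - 1)) -
        (z + j * ((n : ℤ) - 1))) := by ring
      rw [h5]
      exact dvd_sub (hln.mul_right _) (dvd_sub g2 g1)
    rcases hl'.dvd_or_dvd g3 with h | h
    · exact odd_not_dvd_pow hl hl2 _ h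
    · apply prime_not_dvd_one hl
      have : (1 : ℤ) = (a' + 1) - a' := by ring
      rw [this]
      exact dvd_sub hl1 h
  -- a V-move
  obtain ⟨i, hi⟩ := crt_exists (n * a') (mul_pos hn' ha').ne'
    (fun l i => ((l : ℤ) ∣ n → ¬ (l : ℤ) ∣ i) ∧
      ((l : ℤ) ∣ a' → ¬ (l : ℤ) ∣ p - 2 * i * (s + 1) * q)) (by
    intro l hl _
    by_cases h1 : (l : ℤ) ∣ n
    · by_cases h3 : (l : ℤ) ∣ a' ∧ (l : ℤ) ∣ p - 2 * 1 * (s + 1) * q
      · refine ⟨-1, fun _ h4 => prime_not_dvd_one hl ((dvd_neg).1 h4), fun h4 h5 => ?_⟩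
        have h6 : (l : ℤ) ∣ 2 * p := by
          have : 2 * p = (p - 2 * 1 * (s + 1) * q) + (p - 2 * -1 * (s + 1) * q) := by ring
          rw [this]; exact dvd_add h3.2 h5
        have h8 : ¬ (l : ℤ) ∣ p := not_dvd_of_isCoprime hp hl h4
        rcases (Nat.prime_iff_prime_int.1 hl).dvd_or_dvd h6 with h7 | h7
        · apply h8
          have : p = (p - 2 * 1 * (s + 1) * q) + 2 * ((s + 1) * q) := by ring
          rw [this]
          exact dvd_add h3.2 (h7.mul_right _)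
        · exact h8 h7
      · exact ⟨1, fun _ => prime_not_dvd_one hl, fun h4 h5 => h3 ⟨h4, h5⟩⟩
    · refine ⟨0, fun h => absurd h h1, fun h4 h5 => not_dvd_of_isCoprime hp hl h4 ?_⟩
      simpa using h5) (by
    intro l hl _ k k' h1 h3
    refine ⟨fun h4 h5 => h3.1 h4 ?_, fun h4 h5 => h3.2 h4 ?_⟩
    · have := dvd_sub h5 h1
      simpa using this
    · have : p - 2 * k * (s + 1) * q = (p - 2 * k' * (s + 1) * q) +
          (k' - k) * (2 * (s + 1) * q) := by ring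
      rw [this]
      exact dvd_add h5 (h1.mul_right _))
  have hcp : IsCoprime (p - 2 * i * (s + 1) * q) a' :=
    isCoprime_of_prime fun l hl h1 => (hi l hl (h1.mul_left _)).2 h1
  have hcni : IsCoprime (n : ℤ) i := by
    refine IsCoprime.symm (isCoprime_of_prime fun l hl h1 => (hi l hl (h1.mul_right _)).1 h1)
  have g1 := red1 ha' hmin hs hn e h2s h2n h2z hp hq hS
  have hV := KS.Vc hs hn' hS.ok' (2 * i)
  have g2 := red1 ha' hmin hs hn e h2s h2n
    (dvd_add h2z ((Dvd.intro _ rfl : (2 : ℤ) ∣ 2 * i).mul_right _)) hcp hq (hS.trans hV)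
  have g3 : (n : ℤ) ∣ i * ((a' + 1) * 2) := by
    have h5 : i * ((a' + 1) * 2) = n * ((a' + 1) * (2 * i)) -
      ((a' + 1) * (z + 2 * i * ((n : ℤ) - 1)) - (a' + 1) * z) := by ring
    rw [h5]
    exact dvd_sub (dvd_mul_right _ _) (dvd_sub g2 g1)
  have g4 : (n : ℤ) ∣ (a' + 1) * 2 := hcni.dvd_of_dvd_mul_left g3
  obtain ⟨m, hm⟩ := h2n
  have hm0 : 0 < m := by omega
  have g5 : m ∣ a' + 1 := by
    rw [hm, mul_comm (a' + 1) 2] at g4
    exact (mul_dvd_mul_iff_left two_ne_zero).1 g4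
  have h5 : m = 1 := by
    by_contra hne
    obtain ⟨l, hl, hd⟩ := Nat.exists_prime_and_dvd (n := m.natAbs) (by omega)
    have hd' : (l : ℤ) ∣ m := Int.natCast_dvd.2 hd
    have hd2 := hd'.trans g5
    refine hA l hl ?_ (by rw [hm]; exact hd'.mul_left _) hd2
    rintro rfl
    have h6 : ((2 : ℕ) : ℤ) ∣ a' := by exact_mod_cast h2a
    apply prime_not_dvd_one hl
    have : (1 : ℤ) = (a' + 1) - a' := by ring
    rw [this]
    exact dvd_sub hd2 h6
  rw [h5, mul_one] at hm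
  have hn2 : n = 2 := by exact_mod_cast hm
  rwa [hn2] at hPn

/-- reduction to `n = 2` and `z = 0`, with control of `p` at the primes of `gcd (a', a + 1)` -/
theorem exists_T0 {S : PSt} {a a' : ℤ} {n0 : ℕ} (ha' : 0 < a')
    (h2 : (2 : ℤ) ∣ a') (hP : Pn S a a' n0) : ∃ s p q : ℤ, 0 < s ∧ s * 2 = a ∧ (2 : ℤ) ∣ s ∧
      Prm a' p q ∧ Odd p ∧ Odd q ∧
      (∀ l : ℕ, l.Prime → (l : ℤ) ∣ a' → (l : ℤ) ∣ a + 1 → ¬ (l : ℤ) ∣ p) ∧
      SEq S (KS (lat (0, s) (2, 0)) (Lc a' p q)) := by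
  obtain ⟨s, z, p, q, hs, -, e, h2s, -, h2z, hp, hq, hS⟩ := exists_n_two ha' h2 hP
  push_cast at e hS
  have hV2 := KS.Vc hs two_pos hS.ok' (-(z * (a + 1)))
  have e2 : lat (0, s) (2, z + -(z * (a + 1)) * ((2 : ℤ) - 1)) = lat (0, s) (2, 0) := by
    refine closure_pair_eq (α := 1) (β := 0) (γ := -(2 * z)) (δ := 1) ?_ ?_ ?_
    · ext
      · simp only [Prod.fst_add, Prod.smul_fst, smul_eq_mul]; ring
      · simp only [Prod.snd_add, Prod.smul_snd, smul_eq_mul]; ring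
    · rw [← e]
      ext
      · simp only [Prod.fst_add, Prod.smul_fst, smul_eq_mul]; ring
      · simp only [Prod.snd_add, Prod.smul_snd, smul_eq_mul]; ring
    · left; ring
  rw [e2] at hV2
  have hpo : Odd p := by
    rcases Int.even_or_odd p with h | h
    · exfalso
      exact not_dvd_of_isCoprime hp Nat.prime_two (by exact_mod_cast h2)
        (by exact_mod_cast even_iff_two_dvd.1 h)
    · exact h
  obtain ⟨z', rfl⟩ := h2z
  refine ⟨s, p - -(2 * z' * (a + 1)) * (s + 1) * q, q, hs, e, h2s, ?_, ?_, hq, ?_, hS.trans hV2⟩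
  · have hprm : Prm a' p q := fun l hl h1 h2 _ => not_dvd_of_isCoprime hp hl h1 h2
    exact hprm.shV _
  · have : p - -(2 * z' * (a + 1)) * (s + 1) * q = p + 2 * (z' * (a + 1) * (s + 1) * q) := by ring
    rw [this]
    exact hpo.add_even ⟨z' * (a + 1) * (s + 1) * q, by ring⟩
  · intro l hl h1 h3 h4
    refine not_dvd_of_isCoprime hp hl h1 ?_
    have : p = (p - -(2 * z' * (a + 1)) * (s + 1) * q) + (a + 1) * (-(2 * z' * (s + 1) * q)) := by
      ring
    rw [this]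
    exact dvd_add h4 (h3.mul_right _)

/-- at a prime `l ∣ a + 1` with `l ∤ p` the number `ff` is prime to `l` -/
theorem ff_unit {a ε r c p1 q : ℤ} {l : ℕ} (hl : l.Prime) (hl2 : l ≠ 2)
    (hlr : (l : ℤ) ∣ r) (h1 : IsCoprime p1 r) (hlc : ¬ (l : ℤ) ∣ c) (h : (l : ℤ) ∣ a + 1)
    (hf : (l : ℤ) ∣ ff a ε (p1 * c) q) : False := by
  have hl' := Nat.prime_iff_prime_int.1 hl
  have h2 : (l : ℤ) ∣ 2 * (p1 * c) := by
    have : 2 * (p1 * c) = (a + 1) * (p1 * c + ε * q) - ff a ε (p1 * c) q := by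
      unfold ff; ring
    rw [this]
    exact dvd_sub (h.mul_right _) hf
  rcases hl'.dvd_or_dvd h2 with h3 | h3
  · exact odd_not_dvd hl hl2 h3
  · rcases hl'.dvd_or_dvd h3 with h3 | h3
    · exact not_dvd_of_isCoprime h1 hl hlr h3
    · exact hlc h3

/-- STEP (beta): the odd primes `l ∤ c`, `l ∤ c - 1` -/
theorem beta {S : PSt} {a s r c p1 q ε : ℤ} (hr : 0 < r) (hc : 0 < c)
    (hε : ε = 1 ∨ ε = -1) (h2s : (2 : ℤ) ∣ s)
    (h1 : IsCoprime p1 r) (h2 : IsCoprime q c) (hq : Odd q) (hf : ff a ε (p1 * c) q % 4 = 2)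
    (hS : SEq S (KS (lat (0, s) (2, 0)) (Lc (r * c) (p1 * c) q))) :
    ∃ q2 : ℤ, IsCoprime q2 c ∧ Odd q2 ∧ ff a ε (p1 * c) q2 % 4 = 2 ∧
      SEq S (KS (lat (0, s) (2, 0)) (Lc (r * c) (p1 * c) q2)) ∧
      ∀ l : ℕ, l.Prime → l ≠ 2 → (l : ℤ) ∣ r * c → ¬ (l : ℤ) ∣ c → (l : ℤ) ∣ ff a ε (p1 * c) q2 →
        (l : ℤ) ∣ c - 1 := by
  obtain ⟨k, hk⟩ := crt_exists (r * c) (mul_pos hr hc).ne'
    (fun l k => ((l : ℤ) ∣ c → (l : ℤ) ∣ k) ∧ (l ≠ 2 → (l : ℤ) ∣ r * c → ¬ (l : ℤ) ∣ c →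
      ¬ (l : ℤ) ∣ c - 1 → ¬ (l : ℤ) ∣ ff a ε (p1 * c) q - ε * (4 * k) * p1 * (c - 1) * (a + 1))) (by
    intro l hl _
    by_cases h3 : (l : ℤ) ∣ c
    · exact ⟨0, fun _ => dvd_zero _, fun _ _ h => absurd h3 h⟩
    · by_cases h4 : (l : ℤ) ∣ ff a ε (p1 * c) q
      · refine ⟨1, fun h => absurd h h3, fun k1 k2 _ k3 k4 => ?_⟩
        have hl' := Nat.prime_iff_prime_int.1 hl
        have k5 : (l : ℤ) ∣ ε * (2 ^ 2 * (p1 * ((c - 1) * (a + 1)))) := by
          have := dvd_sub h4 k4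
          have e : ff a ε (p1 * c) q - (ff a ε (p1 * c) q - ε * (4 * 1) * p1 * (c - 1) * (a + 1)) =
              ε * (2 ^ 2 * (p1 * ((c - 1) * (a + 1)))) := by ring
          rwa [e] at this
        have k6 : (l : ℤ) ∣ 2 ^ 2 * (p1 * ((c - 1) * (a + 1))) := by
          rcases hε with rfl | rfl
          · rwa [one_mul] at k5
          · rwa [neg_one_mul, dvd_neg] at k5
        have hlr : (l : ℤ) ∣ r := (hl'.dvd_or_dvd k2).resolve_right h3
        rcases hl'.dvd_or_dvd k6 with h | h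
        · exact odd_not_dvd_pow hl k1 2 h
        rcases hl'.dvd_or_dvd h with h | h
        · exact not_dvd_of_isCoprime h1 hl hlr h
        rcases hl'.dvd_or_dvd h with h | h
        · exact k3 h
        · exact ff_unit hl k1 hlr h1 h3 h h4
      · exact ⟨0, fun h => absurd h h3, fun _ _ _ _ h => h4 (by simpa using h)⟩) (by
    intro l hl _ k k' e1 e2
    refine ⟨fun h => ?_, fun k1 k2 k3 k4 k5 => e2.2 k1 k2 k3 k4 ?_⟩
    · have := dvd_add e1 (e2.1 h)
      simpa using this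
    · have e : ff a ε (p1 * c) q - ε * (4 * k) * p1 * (c - 1) * (a + 1) =
          ff a ε (p1 * c) q - ε * (4 * k') * p1 * (c - 1) * (a + 1) +
            (k' - k) * (ε * 4 * p1 * (c - 1) * (a + 1)) := by ring
      rw [e]
      exact dvd_add k5 (e1.mul_right _))
  have ef : ff a ε (p1 * c) (q - 4 * k * p1 * (c - 1)) =
      ff a ε (p1 * c) q - ε * (4 * k) * p1 * (c - 1) * (a + 1) := by ring
  have hcop : IsCoprime (q - 4 * k * p1 * (c - 1)) c := by
    refine isCoprime_of_prime fun l hl h3 h4 => not_dvd_of_isCoprime h2 hl h3 ?_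
    have h5 := (hk l hl (h3.mul_left _)).1 h3
    have : q = (q - 4 * k * p1 * (c - 1)) + k * (4 * p1 * (c - 1)) := by ring
    rw [this]
    exact dvd_add h4 (h5.mul_right _)
  refine ⟨q - 4 * k * p1 * (c - 1), hcop, ?_, ?_, ?_, ?_⟩
  · have : q - 4 * k * p1 * (c - 1) = q + 2 * (-(2 * k * p1 * (c - 1))) := by ring
    rw [this]
    exact hq.add_even ⟨_, two_mul _⟩
  · rw [ef]
    have : ff a ε (p1 * c) q - ε * (4 * k) * p1 * (c - 1) * (a + 1) =
      ff a ε (p1 * c) q + 4 * (-(ε * k * p1 * (c - 1) * (a + 1))) := by ring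
    rw [this, Int.add_mul_emod_self_left]
    exact hf
  · have h3 := KS.Hc hr hc h1 h2 (4 * k) hcop (by simp) hS.ok'
    rw [map_shH_T0 h2s] at h3
    exact hS.trans h3
  · intro l hl k1 k2 k3 k4
    rw [ef] at k4
    by_contra k5
    exact (hk l hl k2).2 k1 k2 k3 k5 k4


/-- STEP (gamma): the odd primes `l ∤ c`, `l ∣ c - 1` -/
theorem gamma {S : PSt} {a s r c p1 q ε : ℤ} (hr : 0 < r) (hc : 0 < c) (hs : 0 < s)
    (hε : ε = 1 ∨ ε = -1) (hco : IsCoprime (a + 1) c) (h2s : (2 : ℤ) ∣ s)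
    (h2a : (2 : ℤ) ∣ r * c) (h1 : IsCoprime p1 r) (h2 : IsCoprime q c) (hp : Odd (p1 * c))
    (hq : Odd q) (hf : ff a ε (p1 * c) q % 4 = 2)
    (hbad : ∀ l : ℕ, l.Prime → l ≠ 2 → (l : ℤ) ∣ r * c → ¬ (l : ℤ) ∣ c →
      (l : ℤ) ∣ ff a ε (p1 * c) q → (l : ℤ) ∣ c - 1)
    (hS : SEq S (KS (lat (0, s) (2, 0)) (Lc (r * c) (p1 * c) q))) :
    ∃ p2 q2 : ℤ, Prm (r * c) p2 q2 ∧ ff a ε p2 q2 % 4 = 2 ∧
      (∀ l : ℕ, l.Prime → l ≠ 2 → (l : ℤ) ∣ r * c → ¬ (l : ℤ) ∣ ff a ε p2 q2) ∧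
      SEq S (KS (lat (0, s) (2, 0)) (Lc (r * c) p2 q2)) := by
  obtain ⟨e, o, ho, heo⟩ := exists_two_pow (mul_pos (mul_pos hr hc) hs)
  obtain ⟨hp1, hcodd⟩ := Int.odd_mul.1 hp
  have h2s1 : Odd (s + 1) := (even_iff_two_dvd.2 h2s).add_one
  have hw : Odd (o * (s + 1) * q) := (ho.mul h2s1).mul hq
  -- the choice of `j`
  obtain ⟨j, hj, hj4⟩ : ∃ j : ℤ, (j = o ∨ j = -o) ∧ (p1 * c - j * (s + 1) * q) % 4 = 2 := by
    have e1 : p1 * c - -o * (s + 1) * q = p1 * c + o * (s + 1) * q := by ring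
    obtain ⟨x, hx⟩ := hp
    obtain ⟨y, hy⟩ := hw
    by_cases h : (p1 * c - o * (s + 1) * q) % 4 = 2
    · exact ⟨o, Or.inl rfl, h⟩
    · refine ⟨-o, Or.inr rfl, ?_⟩
      rw [e1]
      rw [hx, hy] at h ⊢
      omega
  have hjj : j * j = o * o := by
    rcases hj with rfl | rfl
    · rfl
    · ring
  have hoj : o ∣ j := by
    rcases hj with rfl | rfl
    · exact dvd_rfl
    · exact (dvd_neg).2 dvd_rfl
  have hodd : ∀ x : ℤ, Odd x → x ∣ r * c → x ∣ j := by
    intro x hx hxd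
    have h3 : x ∣ 2 ^ e * o := by rw [← heo]; exact hxd.mul_right _
    exact ((isCoprime_two hx).pow_right.dvd_of_dvd_mul_left h3).trans hoj
  have hcj : c ∣ j := hodd c hcodd (dvd_mul_left _ _)
  have hcw : c ∣ p1 * c - j * (s + 1) * q :=
    dvd_sub (dvd_mul_left _ _) ((hcj.mul_right _).mul_right _)
  have h2w : (2 : ℤ) ∣ p1 * c - j * (s + 1) * q := by omega
  obtain ⟨pj, hpj⟩ : 2 * c ∣ p1 * c - j * (s + 1) * q :=
    (isCoprime_two hcodd).symm.mul_dvd h2w hcw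
  have h2r : (2 : ℤ) ∣ r := (isCoprime_two hcodd).symm.dvd_of_dvd_mul_right h2a
  obtain ⟨rj, rfl⟩ := h2r
  have hrj : 0 < rj := by omega
  have hcopj : IsCoprime pj rj := by
    refine isCoprime_of_prime fun l hl h3 h4 => ?_
    by_cases hl2 : l = 2
    · subst hl2
      obtain ⟨t, ht⟩ := h4
      rw [hpj, ht] at hj4
      push_cast at hj4
      have e3 : 2 * c * (2 * t) = 4 * (c * t) := by ring
      rw [e3] at hj4
      omega
    · have hlo : Odd (l : ℤ) := by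
        have := hl.odd_of_ne_two hl2
        exact_mod_cast this
      have k1 : (l : ℤ) * c ∣ j := by
        refine hodd _ (hlo.mul hcodd) ?_
        obtain ⟨t, ht⟩ := h3
        exact ⟨2 * t, by rw [ht]; ring⟩
      have k2 : (l : ℤ) * c ∣ p1 * c := by
        have e3 : p1 * c = 2 * c * pj + j * (s + 1) * q := by rw [← hpj]; ring
        rw [e3]
        refine dvd_add ?_ ((k1.mul_right _).mul_right _)
        obtain ⟨t, ht⟩ := h4
        exact ⟨2 * t, by rw [ht]; ring⟩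
      have k3 : (l : ℤ) ∣ p1 := (mul_dvd_mul_iff_right hc.ne').1 k2
      exact not_dvd_of_isCoprime h1 hl (h3.mul_left _) k3
  have era : 2 * rj * c = rj * (2 * c) := by ring
  have epj : p1 * c - j * (s + 1) * q = pj * (2 * c) := by rw [hpj]; ring
  -- the choice of `k`
  obtain ⟨k, hk⟩ := crt_exists (2 * rj * c) (mul_pos hr hc).ne'
    (fun l k => ((l : ℤ) ∣ c → (l : ℤ) ∣ k) ∧ (l ≠ 2 → (l : ℤ) ∣ 2 * rj * c → ¬ (l : ℤ) ∣ c →
      ¬ (l : ℤ) ∣ ff a ε (p1 * c) q - ε * (4 * 2 ^ e * k) * pj * (2 * c - 1) * (a + 1))) (by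
    intro l hl _
    by_cases h3 : (l : ℤ) ∣ c
    · exact ⟨0, fun _ => dvd_zero _, fun _ _ h => absurd h3 h⟩
    · by_cases h4 : (l : ℤ) ∣ ff a ε (p1 * c) q
      · refine ⟨1, fun h => absurd h h3, fun k1 k2 _ k4 => ?_⟩
        have k3 := hbad l hl k1 k2 h3 h4
        have hl' := Nat.prime_iff_prime_int.1 hl
        have k5 : (l : ℤ) ∣ ε * (2 ^ (e + 2) * (pj * ((2 * c - 1) * (a + 1)))) := by
          have := dvd_sub h4 k4
          have e : ff a ε (p1 * c) q - (ff a ε (p1 * c) q -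
              ε * (4 * 2 ^ e * 1) * pj * (2 * c - 1) * (a + 1)) =
              ε * (2 ^ (e + 2) * (pj * ((2 * c - 1) * (a + 1)))) := by ring
          rwa [e] at this
        have k6 : (l : ℤ) ∣ 2 ^ (e + 2) * (pj * ((2 * c - 1) * (a + 1))) := by
          rcases hε with rfl | rfl
          · rwa [one_mul] at k5
          · rwa [neg_one_mul, dvd_neg] at k5
        have hlr : (l : ℤ) ∣ 2 * rj := (hl'.dvd_or_dvd k2).resolve_right h3
        have hlrj : (l : ℤ) ∣ rj := (hl'.dvd_or_dvd hlr).resolve_left (odd_not_dvd hl k1)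
        rcases hl'.dvd_or_dvd k6 with h | h
        · exact odd_not_dvd_pow hl k1 _ h
        rcases hl'.dvd_or_dvd h with h | h
        · exact not_dvd_of_isCoprime hcopj hl hlrj h
        rcases hl'.dvd_or_dvd h with h | h
        · have h5 : (l : ℤ) ∣ 1 := by
            have e5 : (1 : ℤ) = (2 * c - 1) - 2 * (c - 1) := by ring
            rw [e5]
            exact dvd_sub h (k3.mul_left _)
          exact prime_not_dvd_one hl h5
        · exact ff_unit hl k1 hlr h1 h3 h h4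
      · exact ⟨0, fun h => absurd h h3, fun _ _ _ h => h4 (by simpa using h)⟩) (by
    intro l hl _ k k' e1 e2
    refine ⟨fun h => ?_, fun k1 k2 k3 k5 => e2.2 k1 k2 k3 ?_⟩
    · have := dvd_add e1 (e2.1 h)
      simpa using this
    · have e : ff a ε (p1 * c) q - ε * (4 * 2 ^ e * k) * pj * (2 * c - 1) * (a + 1) =
          ff a ε (p1 * c) q - ε * (4 * 2 ^ e * k') * pj * (2 * c - 1) * (a + 1) +
            (k' - k) * (ε * 4 * 2 ^ e * pj * (2 * c - 1) * (a + 1)) := by ring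
      rw [e]
      exact dvd_add k5 (e1.mul_right _))
  set q2 := q - 4 * 2 ^ e * k * pj * (2 * c - 1) with hq2
  have hq2odd : Odd q2 := by
    have : q2 = q + 2 * (-(2 * 2 ^ e * k * pj * (2 * c - 1))) := by rw [hq2]; ring
    rw [this]
    exact hq.add_even ⟨_, two_mul _⟩
  have hcop : IsCoprime q2 (2 * c) := by
    refine IsCoprime.mul_right (isCoprime_two hq2odd) ?_
    refine isCoprime_of_prime fun l hl h3 h4 => not_dvd_of_isCoprime h2 hl h3 ?_
    have h5 := (hk l hl (h3.mul_left _)).1 h3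
    have : q = q2 + k * (4 * 2 ^ e * pj * (2 * c - 1)) := by rw [hq2]; ring
    rw [this]
    exact dvd_add h4 (h5.mul_right _)
  -- the moves
  have s1 := KS.Vc hs two_pos hS.ok' j
  have e0 : (0 : ℤ) + j * (2 - 1) = j := by ring
  rw [e0, epj, era] at s1
  have s2 := KS.Hc hrj (by omega : 0 < 2 * c) hcopj
    (IsCoprime.mul_right (isCoprime_two hq) h2) (4 * 2 ^ e * k) hcop (by simp [hq2]) s1.ok'
  have e1 : 4 * 2 ^ e * k * (rj + 1) = 2 * (2 * 2 ^ e * k * (rj + 1)) := by ring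
  rw [e1, map_shH_fix (s := s) (j := j) (m := 2 * 2 ^ e * k * (rj + 1)) (by
    refine ⟨2 * k * (rj + 1) * o * (2 * rj * c), ?_⟩
    linear_combination (2 * 2 ^ e * k * (rj + 1)) * hjj - 2 * k * (rj + 1) * o * heo)] at s2
  have s3 := KS.Vc hs two_pos s2.ok' (-j)
  have e2 : j + -j * ((2 : ℤ) - 1) = 0 := by ring
  rw [e2] at s3
  have s4 := s2.trans s3
  rw [← era] at s1 s4
  have e3 : ff a ε (pj * (2 * c) - -j * (s + 1) * q2) q2 =
      ff a ε (p1 * c) q - ε * (4 * 2 ^ e * k) * pj * (2 * c - 1) * (a + 1) -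
        j * ((s + 1) * (4 * 2 ^ e * k * pj * (2 * c - 1)) * (a - 1)) := by
    rw [← epj, hq2]; ring
  refine ⟨pj * (2 * c) - -j * (s + 1) * q2, q2, ?_, ?_, ?_, hS.trans (s1.trans s4)⟩
  · rw [era]
    exact (prm_of hcopj hcop).swap.shV _
  · rw [e3]
    have e4 : ff a ε (p1 * c) q - ε * (4 * 2 ^ e * k) * pj * (2 * c - 1) * (a + 1) -
        j * ((s + 1) * (4 * 2 ^ e * k * pj * (2 * c - 1)) * (a - 1)) =
        ff a ε (p1 * c) q + 4 * (-(ε * (2 ^ e * k) * pj * (2 * c - 1) * (a + 1)) -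
        j * ((s + 1) * (2 ^ e * k * pj * (2 * c - 1)) * (a - 1))) := by ring
    rw [e4, Int.add_mul_emod_self_left]
    exact hf
  · intro l hl k1 k2 k3
    have hlo : Odd (l : ℤ) := by
      have := hl.odd_of_ne_two k1
      exact_mod_cast this
    have hlj : (l : ℤ) ∣ j := hodd _ hlo k2
    by_cases k4 : (l : ℤ) ∣ c
    · have k5 : (l : ℤ) ∣ ε * (q2 * (a + 1)) := by
        have e5 : ε * (q2 * (a + 1)) = ff a ε (pj * (2 * c) - -j * (s + 1) * q2) q2 -
            (c * (2 * pj) + j * ((s + 1) * q2)) * (a - 1) := by ring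
        rw [e5]
        exact dvd_sub k3 ((dvd_add (k4.mul_right _) (hlj.mul_right _)).mul_right _)
      have k6 : (l : ℤ) ∣ q2 * (a + 1) := by
        rcases hε with rfl | rfl
        · rwa [one_mul] at k5
        · rwa [neg_one_mul, dvd_neg] at k5
      rcases (Nat.prime_iff_prime_int.1 hl).dvd_or_dvd k6 with h | h
      · exact not_dvd_of_isCoprime hcop hl (k4.mul_left _) h
      · exact not_dvd_of_isCoprime hco hl k4 h
    · refine (hk l hl k2).2 k1 k2 k4 ?_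
      rw [e3] at k3
      have := dvd_add k3 (hlj.mul_right ((s + 1) * (4 * 2 ^ e * k * pj * (2 * c - 1)) * (a - 1)))
      simpa using this


/-- STEPS 2 and 3 -/
theorem toTwo {S : PSt} {a a' s p q : ℤ} (hs : 0 < s) (hsa : s * 2 = a) (h2s : (2 : ℤ) ∣ s)
    (ha' : 0 < a') (h2a : (2 : ℤ) ∣ a') (hpa : ∀ l : ℕ, l.Prime → (l : ℤ) ∣ a' → (l : ℤ) ∣ a + 1 → ¬ (l : ℤ) ∣ p) (hprm : Prm a' p q)
    (hp : Odd p) (hq : Odd q) (hS : SEq S (KS (lat (0, s) (2, 0)) (Lc a' p q))) :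
    ∃ L1 L1', SEq S (KS L1 L1') ∧ IsArea L1 2 ∧ IsArea L1' (a' + (a - 2)) := by
  obtain ⟨ε, hε, hf⟩ : ∃ ε : ℤ, (ε = 1 ∨ ε = -1) ∧ ff a ε p q % 4 = 2 := by
    obtain ⟨s', rfl⟩ := h2s
    obtain ⟨p', rfl⟩ := hp
    obtain ⟨q', rfl⟩ := hq
    by_cases h : (p' + q') % 2 = 0
    · refine ⟨-1, Or.inr rfl, ?_⟩
      have e1 : ff a (-1) (2 * p' + 1) (2 * q' + 1) =
          2 + 4 * ((2 * p' + 1) * s' - (2 * q' + 1) * s' - 1) - 2 * (p' + q') := by
        unfold ff
        rw [← hsa]; ring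
      rw [e1]
      omega
    · refine ⟨1, Or.inl rfl, ?_⟩
      have e1 : ff a 1 (2 * p' + 1) (2 * q' + 1) =
          2 * (p' + q') + 4 * ((2 * p' + 1) * s' + (2 * q' + 1) * s' - p') := by
        unfold ff
        rw [← hsa]; ring
      rw [e1]
      omega
  obtain ⟨r, c, p1, hr, hc, rfl, rfl, h1, h2⟩ := hprm.split' ha'
  have hco : IsCoprime (a + 1) c := isCoprime_of_prime fun l hl h3 h4 =>
    hpa l hl (h3.mul_left _) h4 (h3.mul_left _)
  obtain ⟨q2, k1, k2, k3, k4, k5⟩ := beta hr hc hε h2s h1 h2 hq hf hS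
  obtain ⟨p3, q3, m1, m2, m3, m4⟩ := gamma hr hc hs hε hco h2s h2a h1 k1 hp k2 k3 k5 k4
  exact jump hs hsa h2s ha' h2a hε m1 m2 m3 m4

/-- STEP 4: the areas `(2, M)`, content-one states of type (0,[5,1,1]) -/
theorem base {p q M p' q' : ℤ} (hM : 0 < M) (h2M : (2 : ℤ) ∣ M) (h2 : Prm M p' q')
    (hpo : Odd p) (hq : Even q) (hp' : Even p') (hok : (KC 2 p q M p' q').Ok) :
    SEq (KC 2 p q M p' q') (KC 2 1 0 M 2 (-1)) := by
  have hS1 := hok.seq
  have e0 : KC 2 p q M p' q' = KC (1 * 2) 1 (0 * 2) M p' q' := by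
    rw [one_mul, zero_mul]
    obtain ⟨x, hx⟩ := hpo
    obtain ⟨y, hy⟩ := hq
    exact KC.congr ⟨-x, by rw [hx]; ring⟩ ⟨-y, by rw [hy]; ring⟩ ⟨0, by ring⟩ ⟨0, by ring⟩
  have hS2 : SEq (KC 2 p q M p' q') (KC (1 * 2) 1 (0 * 2) M p' q') := by rw [← e0]; exact hS1
  have hV : ∀ j : ℤ, SEq (KC 2 p q M p' q') (KC 2 1 0 M (p' - 2 * j * q') q') := by
    intro j
    have := KC.V (s := 1) (d := 2) (p := 1) (q1 := 0) (p2 := 1) one_pos two_pos
      isCoprime_one_right isCoprime_one_left j isCoprime_one_left (one_dvd _) hS2.ok'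
    have e1 : KC (1 * 2) 1 (0 * 2) M (p' - j * (1 + 1) * q') q' =
        KC 2 1 0 M (p' - 2 * j * q') q' := by
      have : p' - j * (1 + 1) * q' = p' - 2 * j * q' := by ring
      rw [this, one_mul, zero_mul]
    rw [e1] at this
    exact hS2.trans this
  obtain ⟨p0, hp0⟩ := even_iff_two_dvd.1 hp'
  have hq'o : Odd q' := by
    rcases Int.even_or_odd q' with h | h
    · exact absurd (by exact_mod_cast even_iff_two_dvd.1 h)
        (h2 2 Nat.prime_two (by exact_mod_cast h2M) (by exact_mod_cast even_iff_two_dvd.1 hp'))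
    · exact h
  obtain ⟨j, hj⟩ := crt_exists M hM.ne' (fun l j => ¬ (l : ℤ) ∣ p0 - j * q') (by
    intro l hl hlM
    by_cases k1 : (l : ℤ) ∣ p0
    · refine ⟨1, fun k2 => h2 l hl hlM (by rw [hp0]; exact k1.mul_left _) ?_⟩
      have := dvd_sub k1 k2
      simpa using this
    · exact ⟨0, by simpa using k1⟩) (by
    intro l hl _ k k' k1 k2 k3
    apply k2
    have : p0 - k * q' = (p0 - k' * q') + (k' - k) * q' := by ring
    rw [this]
    exact dvd_add k3 (k1.mul_right _))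
  set p1 := p0 - j * q' with hp1
  have hcp : IsCoprime p1 M := isCoprime_of_prime hj
  have s1 := hV j
  have e1 : p' - 2 * j * q' = p1 * 2 := by rw [hp1, hp0]; ring
  rw [e1] at s1
  obtain ⟨r, hr⟩ := h2M
  rw [mul_comm] at hr
  have hr0 : 0 < r := by omega
  have hp1o : Odd p1 := by
    rcases Int.even_or_odd p1 with h | h
    · exact absurd (by exact_mod_cast even_iff_two_dvd.1 h)
        (hj 2 Nat.prime_two ⟨r, by rw [hr]; push_cast; ring⟩)
    · exact h
  rw [hr] at s1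
  have hc1 : IsCoprime p1 r := by
    rw [hr] at hcp
    exact hcp.of_mul_right_left
  obtain ⟨u, v, huv⟩ := hc1
  have s2 := KC.H (r := r) (c := 2) (q' := q') (p1 := p1) (q2 := -p1) hr0 two_pos
    ⟨u, v, huv⟩ (isCoprime_two hq'o) ((q' + p1) * u) (isCoprime_two hp1o).neg_left
    ⟨-(v * (q' + p1)), by linear_combination (q' + p1) * huv⟩ s1.ok'
  have e2 : KC 2 1 (0 - (q' + p1) * u * (r + 1) * 1) (r * 2) (p1 * 2) (-p1) =
      KC 2 1 0 M 2 (-1) := by
    have e3 : KC 2 1 0 (r * 2) (p1 * 2) (p1 * -1) = KC 2 1 0 (r * 2) 2 (-1) :=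
      KC.unit' (hr ▸ hcp.symm)
    rw [hr, ← e3]
    refine KC.congr ⟨0, by ring⟩ ?_ ⟨0, by ring⟩ ⟨0, by ring⟩
    have h5 : Even (q' + p1) := hq'o.add_odd hp1o
    obtain ⟨t, ht⟩ := even_iff_two_dvd.1 h5
    exact ⟨t * u * (r + 1), by rw [ht]; ring⟩
  rw [e2] at s2
  rw [hr] at s2 ⊢
  exact s1.trans s2

theorem aux_T5' : ∀ q p' q' : ZMod 2, (p' ≠ 0 ∨ q' ≠ 0) →
    (∃ t, Multiset.count t (({((1, 0) : ZMod 2 × ZMod 2)} : Multiset (ZMod 2 × ZMod 2)) +
      {(1, 0) + (q, 1)} + {(1, 0) + (q, 1)} + {(1, 1)} +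
      ({(0, 1)} + {(0, 1) + (q', p')} + {(0, 1) + (q', p')})) = 5) → (q = 0 ∧ p' = 0) := by
  decide

/-- the invariant of a K-state with contents `1`, even areas and `p` odd -/
theorem T5_KC' {a p q a' p' q' : ℤ} (hae : Even a) (hae' : Even a')
    (h : Prm a p q) (h' : Prm a' p' q') (hp : Odd p) {c : C6}
    (hc : IsRep (KC a p q a' p' q') c) (h5 : c.T5) : Even q ∧ Even p' := by
  unfold C6.T5 at h5
  rw [hc.ms_KC hae hae' h h'] at h5
  have e1 : red (q, p) = ((q : ZMod 2), 1) := by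
    ext
    · rfl
    · simp only [red]; exact cast_zmod_two'.2 hp
  have e2 : red (q', p') = ((q' : ZMod 2), (p' : ZMod 2)) := rfl
  have e3 : red (1, 0) = (1, 0) := by simp [red]
  have e4 : red (0, 1) = (0, 1) := by simp [red]
  have e5 : red (1, 1) = (1, 1) := by simp [red]
  rw [e1, e2, e3, e4, e5] at h5
  have hne : (p' : ZMod 2) ≠ 0 ∨ (q' : ZMod 2) ≠ 0 := by
    by_contra hn
    push Not at hn
    rw [cast_zmod_two, cast_zmod_two] at hn
    exact h' 2 Nat.prime_two (by exact_mod_cast hae'.two_dvd) (by exact_mod_cast hn.1.two_dvd)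
      (by exact_mod_cast hn.2.two_dvd)
  have := aux_T5' _ _ _ hne h5
  rwa [cast_zmod_two, cast_zmod_two] at this

/-- the invariant of a K-state whose left lattice is even -/
theorem T5_even {L : AddSubgroup Z2} {a' p' q' : ℤ} (hL : ∀ w ∈ L, ev w = 1)
    (hae' : Even a') (h' : Prm a' p' q') (hp' : Odd p') (hq' : Odd q') {c : C6}
    (hc : IsRep (KS L (Lc a' p' q')) c) : c.T5 := by
  obtain ⟨a0, a1, a2, a3, a4, a5⟩ := c
  obtain ⟨h1, h2, h3, h4, h5⟩ := hc
  change a2 = (1, 0) at h2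
  change a3 = (0, 1) at h3
  subst h2 h3
  obtain ⟨x1, x2, x3⟩ := h1
  obtain ⟨y1, y2, y3⟩ := h5
  change lat a1 (a0 - (1, 0)) = L at x3
  change lat a4 (a5 - (0, 1)) = Lc a' p' q' at y3
  have k2 := ms_Lc hae' h' (l := -a4) (p0 := a5 - (0, 1)) (u := (0, 1))
    (by rw [lat_neg_left]; exact y3)
  have e2 : ((0, 1) : Z2) + (a5 - (0, 1)) = a5 := by abel
  rw [e2] at k2
  have e3 : red (a5 + -a4) = red (a4 + a5) := red_eq (-a4) (by module)
  have e4 : red (-a4 + (0, 1)) = red ((0, 1) + a4) := red_eq (-a4) (by module)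
  rw [e3, e4] at k2
  have e5 : ((1, 0) : Z2) + (0, 1) = (1, 1) := by ext <;> simp
  have m1 : red a1 = 0 := red_zero_iff.2 (hL _ (by rw [← x3]; exact AddSubgroup.subset_closure (by simp)))
  have m2 : red (a0 - (1, 0)) = 0 :=
    red_zero_iff.2 (hL _ (by rw [← x3]; exact AddSubgroup.subset_closure (by simp)))
  have m3 : red a0 = red (1, 0) := by
    have : a0 = (1, 0) + (a0 - (1, 0)) := by abel
    rw [this, red_add, m2, add_zero]
  have m4 : red (q', p') = (1, 1) := by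
    ext
    · simp only [red]; exact cast_zmod_two'.2 hq'
    · simp only [red]; exact cast_zmod_two'.2 hp'
  have m5 : red (a0 + a1) = (1, 0) := by rw [red_add, m3, m1]; simp [red]
  have m6 : red (a1 + (1, 0)) = (1, 0) := by rw [red_add, m1]; simp [red]
  have m7 : red (0, 1) = (0, 1) := by simp [red]
  have m8 : red (1, 1) = (1, 1) := by simp [red]
  have m9 : red a0 = (1, 0) := by rw [m3]; simp [red]
  have k3 : C6.ms (a0, a1, (1, 0), (0, 1), a4, a5) =
      {(1, 0)} + {(1, 0)} + {(1, 0)} + {(1, 1)} +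
        ({(0, 1)} + {(0, 1) + (1, 1)} + {(0, 1) + (1, 1)}) := by
    rw [m4, m7] at k2
    rw [← k2]
    simp only [C6.ms]
    rw [e5, m5, m6, m8, m9]
    abel
  unfold C6.T5
  rw [k3]
  exact ⟨(1, 0), by decide⟩

/-- K-states of type (0,[5,1,1]) with `c = 1` -/
theorem main_KS {N : ℕ} {L L' : AddSubgroup Z2} {a a' : ℤ} (hok : (KS L L').Ok)
    (ha : IsArea L a) (ha' : IsArea L' a') (hv : a + 1 + a' = N) (hc : IsC L' (1, 0) 1)
    (hev : ∀ w ∈ L, ev w = 1) (h1 : ¬ InE L' (0, 1)) :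
    SEq (KS L L') (KC 2 1 0 (N - 3) 2 (-1)) := by
  obtain ⟨x, hx⟩ := hc.exists_x ha'
  rw [hx, inE_Lc_v (prm_x a' x)] at h1
  push Not at h1
  obtain ⟨h3, h4⟩ := h1
  rw [Int.not_odd_iff_even] at h3
  rw [Int.not_even_iff_odd] at h4
  have h2a : (2 : ℤ) ∣ a' := even_iff_two_dvd.1 h3
  obtain ⟨s, d, z, hs, hd, e1, e2⟩ := ha.hnf
  have v1 := dvd_of_ev (hev (0, s) (by rw [e2]; exact mem_lat.2 ⟨1, 0, by module⟩))
  have v2 := dvd_of_ev (hev (d, z) (by rw [e2]; exact mem_lat.2 ⟨0, 1, by module⟩))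
  have hdn : ((d.toNat : ℕ) : ℤ) = d := Int.toNat_of_nonneg hd.le
  have hP : Pn (KS L L') a a' d.toNat := by
    refine ⟨s, z, 1, -x, hs, by omega, by rw [hdn, e1], v1.2, by rw [hdn]; exact v2.1, v2.2,
      isCoprime_one_left, h4, ?_⟩
    rw [hdn, ← e2, ← hx]
    exact hok.seq
  obtain ⟨s, p, q, k1, k2, k3, k4, k5, k6, k8, k7⟩ := exists_T0 ha'.1 h2a hP
  obtain ⟨L1, L1', m1, m2, m3⟩ := toTwo k1 k2 k3 ha'.1 h2a k8 k4 k5 k6 k7
  have hpos := ha'.1
  have e3 : a' + (a - 2) = (N : ℤ) - 3 := by linarith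
  rw [e3] at m3
  have h2aa : (2 : ℤ) ∣ a := by rw [e1]; exact v1.2.mul_right _
  have h5 : (2 : ℤ) ∣ (N : ℤ) - 3 := by omega
  obtain ⟨p, q, p', q', n1, n2, n3⟩ := exists_KC m1.ok' m2 m3
  have m4 := m1.trans n3
  have hpo : Odd p := by
    rcases Int.even_or_odd p with h | h
    · exact absurd (even_iff_two_dvd.1 h) (KC.ok_iff m4.ok').1
    · exact h
  have hT : Even q ∧ Even p' := by
    obtain ⟨c, c', o1, o2, o3⟩ := m4
    have o1' : IsRep (KS L (Lc a' 1 (-x))) c := by rw [← hx]; exact o1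
    have t1 := T5_even hev h3 (prm_x a' x) odd_one h4 o1'
    have t2 := o3.T5_iff.2 t1
    exact T5_KC' even_two (even_iff_two_dvd.2 h5) n1 n2 hpo o2 t2
  exact m4.trans (base m3.1 h5 n2 hpo hT.1 hT.2 m4.ok')

end K511A

/-- ALL `N`: a state with `A = 1` and `gcd (L' × u) = 1` whose left lattice lies in `2 ℤ²` and whose
right lattice is not full modulo `2` and does not contain `v` modulo `2` (type (0,[5,1,1])) is
equivalent to the canonical one. -/
theorem PSt.Ok.c511 {N : ℕ} {S : PSt} (hS : S.Ok) (hA : cr S.u S.v = 1)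
    {a a' : ℤ} (ha : IsArea S.L a) (ha' : IsArea S.L' a') (hv : a + 1 + a' = N)
    (hc : IsC S.L' S.u 1) (hL : ∀ w ∈ S.L, ev w = 1) (hL' : ¬ InE S.L' S.v) :
    SEq S (KC 2 1 0 (N - 3) 2 (-1)) := by
  obtain ⟨g, h1, h2, h3⟩ := exists_KS_all hS hA
  have hc' := hc.act g
  rw [h2] at hc'
  refine h1.trans (K511A.main_KS h1.ok' (ha.act g) (ha'.act g) hv hc' ?_ ?_)
  · rintro _ ⟨w, hw, rfl⟩
    rw [ev_act]
    exact hL w hw
  · rw [← h3, inE_act]
    exact hL'

/-- the mirror of `PSt.Ok.c511` -/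
theorem PSt.Ok.c511' {N : ℕ} {S : PSt} (hS : S.Ok) (hA : cr S.u S.v = 1)
    {a a' : ℤ} (ha : IsArea S.L a) (ha' : IsArea S.L' a') (hv : a + 1 + a' = N)
    (hd : IsC S.L S.v 1) (hL' : ∀ w ∈ S.L', ev w = 1) (hL : ¬ InE S.L S.u) :
    SEq S (KC 2 1 0 (N - 3) 2 (-1)) := by
  obtain ⟨L, u, v, L'⟩ := S
  dsimp only at hA ha ha' hd hL hL'
  have m1 := SEq.mirror hS
  have e1 : cr v (-u) = 1 := by rw [cr_neg_right, cr_swap v u, neg_neg, hA]
  refine m1.trans (PSt.Ok.c511 (S := ⟨L', v, -u, L⟩) m1.ok' e1 (a := a') (a' := a) ha' ha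
    (by linarith) hd hL' ?_)
  rwa [inE_neg]

/-- ALL `N`: the K-level of type (0,[5,1,1]). A state with `A = 1` and `d = 1` or `c = 1` whose
chains have five equal classes modulo `2` and no even one is equivalent to the canonical one. -/
theorem PSt.Ok.c511_cases {N : ℕ} {S : PSt} (hS : S.Ok) (hA : cr S.u S.v = 1)
    {a a' : ℤ} (ha : IsArea S.L a) (ha' : IsArea S.L' a') (hv : a + 1 + a' = N)
    (hb : IsC S.L S.v 1 ∨ IsC S.L' S.u 1) :
    SEq S (KC 2 1 0 (N - 3) 2 (-1)) ∨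
      (IsC S.L S.v 1 ∧ (InE S.L S.u ∨ ∃ w ∈ S.L', ev w = 0)) ∨
      (IsC S.L' S.u 1 ∧ (InE S.L' S.v ∨ ∃ w ∈ S.L, ev w = 0)) := by
  rcases hb with hd | hc
  · by_cases h : InE S.L S.u ∨ ∃ w ∈ S.L', ev w = 0
    · exact Or.inr (Or.inl ⟨hd, h⟩)
    · push Not at h
      exact Or.inl (hS.c511' hA ha ha' hv hd (fun w hw => (ev_le_one w).resolve_left (h.2 w hw)) h.1)
  · by_cases h : InE S.L' S.v ∨ ∃ w ∈ S.L, ev w = 0
    · exact Or.inr (Or.inr ⟨hc, h⟩)
    · push Not at h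
      exact Or.inl (hS.c511 hA ha ha' hv hc (fun w hw => (ev_le_one w).resolve_left (h.2 w hw)) h.1)

end Pool.Agent.H4G
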