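import Pool.Agent.H4G.Ctwo.Main
import Pool.Agent.H4G.Ctwo.K331all
import Pool.Agent.H4G.Ctwo.K511all
import Pool.Agent.H4G.Ctwo.AsmAll

/-!
# Line C: the K-level from (G3) (helper37)

`KS.content` removes the content of the right lattice (all `N`; the exception is the type
`(0, [5,1,1])`), `klevO`, `klevE` : the 2-adic case split.
-/

set_option autoImplicit false

namespace Pool.Agent.H4G

open MatrixGroups

/-- all `N`: a K-state with `d = 1` is equivalent to one with `d = 1` and content `1` -/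
theorem KS.content {a z a' : ℤ} {M : AddSubgroup Z2} (hok : (KS (Lc a z (-1)) M).Ok)
    (ha : 0 < a) (ha' : IsArea M a')
    (hp : InE (Lc a z (-1)) (1, 0) ∨ ∃ w ∈ M, ev w = 0) :
    ∃ z1 p' q' : ℤ, Prm a' p' q' ∧ SEq (KS (Lc a z (-1)) M) (KC a z1 (-1) a' p' q') ∧
      (Odd a ∨ Even z1 ↔ Odd a ∨ Even z) := by
  obtain ⟨r, c, x, hr, hc, e1, e2⟩ := ha'.hnf'
  subst e2
  have hne : ¬ ((2 : ℤ) ∣ a ∧ ¬ (2 : ℤ) ∣ z ∧ (2 : ℤ) ∣ r ∧ (2 : ℤ) ∣ c ∧ (2 : ℤ) ∣ x) := by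
    rintro ⟨h1, h2, h3, h4, h5⟩
    rcases hp with hp | ⟨w, hw, hw0⟩
    · rcases (inE_Lc_u (Prm_left a z)).1 hp with h6 | h6
      · exact (Int.not_even_iff_odd.2 h6) (even_iff_two_dvd.2 h1)
      · exact h2 (even_iff_two_dvd.1 h6)
    · have := lat_even h3 h5 h4 hw
      omega
  obtain ⟨k, hk1, hk2⟩ := exists_kH (a := a) (z := z) (r := r) (c := c) (x := x) ha hc hne
  have s1 := KS.H hr hc hok k
  have i2 := inE_shH (M := Lc a z (-1)) (k * (r + 1))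
  obtain ⟨p', q', k3, k4⟩ := lat_eq_Lc' hr hc hk1
  rw [k4, ← e1] at s1
  rw [map_shH_Lc] at s1 i2
  rw [← e1] at k3
  obtain ⟨z1, hz1⟩ := Lc_norm (a := a) (p := z) hk2
  rw [hz1] at s1 i2
  refine ⟨z1, p', q', k3, s1, ?_⟩
  rw [← inE_Lc_u (Prm_left a z1), ← inE_Lc_u (Prm_left a z)]
  exact i2

/-- a lattice of odd area contains a vector which is not even -/
theorem IsArea.exists_odd {M : AddSubgroup Z2} {a' : ℤ} (h : IsArea M a') (ho : ¬ Even a') :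
    ∃ w ∈ M, ev w = 0 := by
  by_contra hcon
  push Not at hcon
  have hev : ∀ w ∈ M, ev w = 1 := fun w hw => (ev_le_one w).resolve_left (hcon w hw)
  obtain ⟨_, l, p, e1, e2⟩ := h
  subst e2
  have hl : l ∈ lat l p := mem_lat.2 ⟨1, 0, by simp⟩
  obtain ⟨t, ht⟩ := ev_zero_iff.1 (hev l hl)
  apply ho
  rw [← e1, ht, cr_smul_right]
  exact ⟨cr p t, by ring⟩

/-- (G3), `N` odd: every K-state with `d = 1`, content `1`, not of the types `(0, [3,3,1])`,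
`(0, [5,1,1])`, is equivalent to a generic one -/
def G3O (J : ℕ) (N : ℤ) : Prop := ∀ (a z a' p' q' : ℤ), 0 < a → 0 < a' → a + 1 + a' = N →
  Prm a' p' q' → (KC a z (-1) a' p' q').Ok → (Odd a ∨ Even z ∨ Even q') →
  ∃ G, SEq (KC a z (-1) a' p' q') G ∧ (GenS J N 2 2 G ∨ GenS J N 1 1 G)

/-- (G3), `N` even -/
def G3E (J : ℕ) (N : ℤ) : Prop := ∀ (a z a' p' q' : ℤ), 0 < a → 0 < a' → a + 1 + a' = N →
  Prm a' p' q' → (KC a z (-1) a' p' q').Ok →
  ∃ G, SEq (KC a z (-1) a' p' q') G ∧ (GenS J N 2 1 G ∨ GenT J N G ∨ GenS J N 1 1 G)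

theorem klevO {J N : ℕ} (hodd : Odd N) (h3 : G3O J N) : KLevO J N := by
  intro a z a' M ha ha' hN hok
  have hd : IsC (KS (Lc a z (-1)) M).L (KS (Lc a z (-1)) M).v 1 := isC_z
  have hA : cr (KS (Lc a z (-1)) M).u (KS (Lc a z (-1)) M).v = 1 := by simp [KS, cr]
  have haL : IsArea (KS (Lc a z (-1)) M).L a := isArea_Lc ha (Prm_left a z)
  by_cases hp : InE (Lc a z (-1)) (1, 0) ∨ ∃ w ∈ M, ev w = 0
  · obtain ⟨z1, p', q', k1, k2, k3⟩ := KS.content hok ha ha' hp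
    have key : ∃ k, ClsO J N (KC a z1 (-1) a' p' q') k := by
      by_cases hc : Odd a ∨ Even z1 ∨ Even q'
      · obtain ⟨G, g1, g2 | g2⟩ := h3 a z1 a' p' q' ha ha'.1 hN k1 k2.ok' hc
        · exact ⟨0, G, g1, g2⟩
        · exact ⟨1, G, g1, g2⟩
      · push Not at hc
        obtain ⟨c1, c2, c3⟩ := hc
        refine ⟨3, ?_⟩
        exact K3.all hodd ha ha'.1 hN (Int.not_odd_iff_even.1 c1) (Prm_left a z1) k1
          (Int.not_even_iff_odd.1 c2) (Int.not_even_iff_odd.1 c3) (Or.inl (by decide)) k2.ok'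
    obtain ⟨k, hk⟩ := key
    exact ⟨k, ClsO.of_seq k2 hk⟩
  · push Not at hp
    refine ⟨2, ?_⟩
    exact hok.c511' hA haL ha' hN hd
      (fun w hw => (ev_le_one w).resolve_left (hp.2 w hw)) hp.1

theorem klevE {J N : ℕ} (heven : Even N) (h3 : G3E J N) : KLevE J N := by
  intro a z a' M ha ha' hN hok
  have hp : InE (Lc a z (-1)) (1, 0) ∨ ∃ w ∈ M, ev w = 0 := by
    by_cases hodd : Odd a
    · exact Or.inl ((inE_Lc_u (Prm_left a z)).2 (Or.inl hodd))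
    · refine Or.inr (ha'.exists_odd ?_)
      intro h
      have h1 := Int.not_odd_iff_even.1 hodd
      have h2 : Even (N : ℤ) := by exact_mod_cast heven
      rw [← hN] at h2
      have h4 : Even (a + a') := h1.add h
      have h5 : Even ((a + 1 + a') - (a + a')) := h2.sub h4
      have h6 : (a + 1 + a') - (a + a') = 1 := by ring
      rw [h6] at h5
      exact absurd h5 (by decide)
  obtain ⟨z1, p', q', k1, k2, k3⟩ := KS.content hok ha ha' hp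
  obtain ⟨G, g1, g2 | g2 | g2⟩ := h3 a z1 a' p' q' ha ha'.1 hN k1 k2.ok'
  · exact ⟨0, ClsE.of_seq k2 ⟨G, g1, g2⟩⟩
  · exact ⟨1, ClsE.of_seq k2 ⟨G, g1, g2⟩⟩
  · exact ⟨2, ClsE.of_seq k2 ⟨G, g1, g2⟩⟩

/-- the classification of the chains for one `N` from the reduction and (G3) -/
theorem chainsN_of {N J Z : ℕ} (hcap : Cap J Z) (hZ : (2 * (N : ℤ)) ^ 4 ≤ Z) (hJ : 1 ≤ J)
    (hR : RedK N) (hO : Odd N → G3O J N) (hE : Even N → G3E J N) :
    (Odd N → ChainsN N 4) ∧ (Even N → ChainsN N 3) := by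
  refine ⟨fun h => ?_, fun h => ?_⟩
  · refine exists_canon (N := N) (fun S k => ClsO J N S k)
      (fun k S S' h h' => ClsO.seq hcap hZ hJ h h') ?_
    intro c h1 h2 h3
    obtain ⟨a, z, a', M, k1, k2, k3, k4⟩ := hR c h1 h2 h3
    obtain ⟨k, hk⟩ := klevO h (hO h) a z a' M k2 k3 k4 k1.ok'
    exact ⟨k, ClsO.of_seq k1 hk⟩
  · refine exists_canon (N := N) (fun S k => ClsE J N S k)
      (fun k S S' h h' => ClsE.seq hcap hZ hJ h h') ?_
    intro c h1 h2 h3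
    obtain ⟨a, z, a', M, k1, k2, k3, k4⟩ := hR c h1 h2 h3
    obtain ⟨k, hk⟩ := klevE h (hE h) a z a' M k2 k3 k4 k1.ok'
    exact ⟨k, ClsE.of_seq k1 hk⟩

/-- part (A): the classification of the chains for all large `N` -/
theorem chains_large_of (hR : ∃ N0 : ℕ, ∀ N : ℕ, N0 ≤ N → RedK N)
    (hG : ∃ N0 : ℕ, ∀ N : ℕ, N0 ≤ N → ∃ J Z : ℕ, Cap J Z ∧ (2 * (N : ℤ)) ^ 4 ≤ Z ∧ 1 ≤ J ∧
      (Odd N → G3O J N) ∧ (Even N → G3E J N)) :
    ∃ N0 : ℕ, ∀ N : ℕ, N0 ≤ N → (Odd N → ChainsN N 4) ∧ (Even N → ChainsN N 3) := by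
  obtain ⟨N1, h1⟩ := hR
  obtain ⟨N2, h2⟩ := hG
  refine ⟨max N1 N2, fun N hN => ?_⟩
  obtain ⟨J, Z, k1, k2, k3, k4, k5⟩ := h2 N (le_trans (le_max_right _ _) hN)
  exact chainsN_of k1 k2 k3 (h1 N (le_trans (le_max_left _ _) hN)) k4 k5

end Pool.Agent.H4G
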