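import Pool.Agent.H4G.Ctwo.G3
import Pool.Agent.H4G.Ctwo.Line2k
import Pool.Agent.H4G.Ctwo.BigEx
import Pool.Agent.H4G.Ctwo.Main2
import Pool.Agent.H4G.Ctwo.AsmAll
import Pool.Agent.H4G.Cone.RedK

/-!
# MP_4f7c28: the classification for all large `N` (final glue)
-/

set_option autoImplicit false

namespace Pool.Agent.H4G

theorem move2P_of_big {N : ℤ} {J Z : ℕ} (hB : Big N J Z) : Move2P J N := by
  intro a z a' p' q' E0 h hg hE
  obtain ⟨E, w, x, k1, k2, k3, k4, k5, k6, k7, -, k9, k10, k11⟩ := h.move2 hB hg E0 hE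
  exact ⟨E, w, x, k1, k2, k3, k4, k5, k6, k7, k9, k10, k11⟩

/-- the K-level for all large `N`, from the row of type 1420 -/
theorem g3_all_of (hT : ∀ (N : ℤ) (J Z : ℕ), Big N J Z → ∀ a z a' p' q' : ℤ,
    KSt N a z a' p' q' → ¬ (2 : ℤ) ∣ a → (2 : ℤ) ∣ a' → (2 : ℤ) ∣ p' →
    ∃ G, SEq (KC a z (-1) a' p' q') G ∧ GenT J N G) :
    ∃ N0 : ℕ, ∀ N : ℕ, N0 ≤ N → ∃ J Z : ℕ, Cap J Z ∧ (2 * (N : ℤ)) ^ 4 ≤ Z ∧ 1 ≤ J ∧
      (Odd N → G3O J N) ∧ (Even N → G3E J N) := by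
  obtain ⟨N0, h0⟩ := exists_Big
  refine ⟨max N0 1, fun N hN => ?_⟩
  obtain ⟨J, Z, hB⟩ := h0 N (le_trans (le_max_left _ _) hN)
  have hN1 : 1 ≤ N := le_trans (le_max_right _ _) hN
  have hN1' : (1 : ℤ) ≤ 2 * (N : ℤ) := by
    have : (1 : ℤ) ≤ N := by exact_mod_cast hN1
    linarith
  refine ⟨J, Z, hB.cap, (pow_le_pow_right₀ hN1' (by norm_num)).trans hB.hZ,
    le_trans (by norm_num) hB.J0, fun ho => ?_, fun he => ?_⟩
  · refine g3O_of hB (move2P_of_big hB) ?_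
    intro h
    have h2 : 2 ∣ N := by exact_mod_cast h
    exact (Nat.not_even_iff_odd.2 ho) (even_iff_two_dvd.2 h2)
  · refine g3E_of hB (move2P_of_big hB) ?_ (hT N J Z hB)
    exact_mod_cast even_iff_two_dvd.1 he

end Pool.Agent.H4G
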