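import Pool.Agent.H4G.Ctwo.ExitFin

/-!
# BAL: an explicit exit from a generic left side (helper19)

At a good level with a generic left lattice we may take `z = ζ ∈ {1, 2}`; the exit vector is
`(-e, a - ζ e)`, and the new slope is again `ζ`.
-/

set_option autoImplicit false

namespace Pool.Agent.H4G

/-- the slope `ζ` -/
theorem exists_zeta {a z : ℤ} (h2 : ¬ (2 : ℤ) ∣ a ∨ a % 4 = 2) :
    ∃ ζ : ℤ, (ζ = 1 ∨ ζ = 2) ∧ ζ ∣ a ∧ OC a ζ ∧ (∀ s : ℕ, (2 : ℤ) ^ s ∣ a → (2 : ℤ) ^ s ∣ ζ - z) ∧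
      ((2 : ℤ) ∣ a → ((2 : ℤ) ∣ ζ ↔ (2 : ℤ) ∣ z)) := by
  by_cases h : (2 : ℤ) ∣ a ∧ (2 : ℤ) ∣ z
  · refine ⟨2, Or.inr rfl, h.1, OC.two a, two_adic h2 (fun _ => ?_), fun _ => by simp [h.2]⟩
    exact dvd_sub (dvd_refl 2) h.2
  · refine ⟨1, Or.inl rfl, one_dvd _, OC.one a, two_adic h2 (fun h3 => ?_), fun h3 => ?_⟩
    · have : ¬ (2 : ℤ) ∣ z := fun h4 => h ⟨h3, h4⟩
      omega
    · have : ¬ (2 : ℤ) ∣ z := fun h4 => h ⟨h3, h4⟩
      constructor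
      · intro h5; norm_num at h5
      · intro h5; exact absurd h5 this

/-- the choice of `y` -/
theorem Big.line {J Z : ℕ} {N a a' ζ x : ℤ} (hB : Big N J Z) (hN : a + 1 + a' = N) (ha : 0 < a)
    (ha' : 0 < a') (g : GLev N a) (h4 : N ≤ 4 * a) (hζ : ζ = 1 ∨ ζ = 2) (hζa : ζ ∣ a) (E0 : ℤ) :
    ∃ y : ℤ, 0 < y ∧ a < 4 * y ∧ 3 * y < a ∧ (16 : ℤ) ∣ y - E0 ∧
      ∀ l : ℕ, l.Prime → l ≠ 2 → ExC l a a' N ζ (-1) 1 (-x) y (a - ζ * y) 1 := by
  have hζ0 : 0 < ζ := by rcases hζ with h | h <;> rw [h] <;> norm_num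
  have hζ2 : ζ ≤ 2 := by rcases hζ with h | h <;> rw [h] <;> norm_num
  have hp3 : ((3 : ℕ) : ℤ) = 3 := rfl
  obtain ⟨y, y1, y2, y3, y4⟩ := line1 (z := ζ) (g := ζ) (q := 1) (κ := 0) (s := -1) (p' := 1)
    (q' := -x) hN ha ha' hζ0 hζa one_pos (Or.inr rfl) (by ring)
    (fun l hl _ h => absurd h (prime_not_dvd_one hl))
    (fun l hl _ _ h => absurd h (prime_not_dvd_one hl))
    (fun h1 h2 => absurd h1 (by
      have := g.1 3 Nat.prime_three (by norm_num)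
      rw [hp3] at this
      exact this h2))
    (fun h1 h2 => absurd h1 (by
      have := g.2 3 Nat.prime_three (by norm_num)
      rw [hp3] at this
      refine this ?_
      have h3 := dvd_sub h1 h2
      have e : N - a' = a + 1 := by rw [← hN]; ring
      rwa [e] at h3)) 4 E0 (a / 4 + 1)
  have hJ0 := hB.J0
  have hJ : (2 : ℤ) ^ 20 ≤ (J : ℤ) := by exact_mod_cast hJ0
  -- the window
  have hN0 : 0 < N := by linarith
  have hM : (1 * a * a' * N * (ζ + 1 * (1 + a))).natAbs ≠ 0 := by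
    rw [Int.natAbs_ne_zero]; positivity
  have hMZ : (1 * a * a' * N * (ζ + 1 * (1 + a))).natAbs ≤ Z := by
    have h1 : (1 * a * a' * N * (ζ + 1 * (1 + a))) ≤ (Z : ℤ) := by
      have h2 : 1 * a * a' * N * (ζ + 1 * (1 + a)) ≤ N * N * N * (2 * N) := by
        have k1 : 1 * a ≤ N := by linarith
        have k2 : a' ≤ N := by linarith
        have k3 : ζ + 1 * (1 + a) ≤ 2 * N := by linarith
        have k4 : 1 * a * a' ≤ N * N := mul_le_mul k1 k2 ha'.le hN0.le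
        have k5 : 1 * a * a' * N ≤ N * N * N := mul_le_mul_of_nonneg_right k4 hN0.le
        exact mul_le_mul k5 k3 (by positivity) (by positivity)
      have h3 : N * N * N * (2 * N) ≤ (2 * N) ^ 4 := by
        have : (2 * N) ^ 4 = 8 * (N * N * N * (2 * N)) := by ring
        rw [this]
        have : 0 ≤ N * N * N * (2 * N) := by positivity
        linarith
      have h4 : (2 * N) ^ 4 ≤ (2 * N) ^ 20 := pow_le_pow_right₀ (by linarith) (by norm_num)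
      linarith [hB.hZ]
    have h5 : ((1 * a * a' * N * (ζ + 1 * (1 + a))).natAbs : ℤ) =
        1 * a * a' * N * (ζ + 1 * (1 + a)) := Int.natAbs_of_nonneg (by positivity)
    exact_mod_cast h5.le.trans h1
  have h8 := hB.cap.eight hM hMZ
  have hbig : 10000 * (J : ℤ) ^ 2 ≤ a := by
    have h1 := hB.hN
    have hJpos : (1 : ℤ) ≤ J := le_trans (by norm_num) hJ
    have h2 : (J : ℤ) ^ 3 ≤ (J : ℤ) ^ 200 := pow_le_pow_right₀ hJpos (by norm_num)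
    have h3 : (J : ℤ) ^ 3 = J * (J : ℤ) ^ 2 := by ring
    have h5 : (2 : ℤ) ^ 20 * (J : ℤ) ^ 2 ≤ J * (J : ℤ) ^ 2 :=
      mul_le_mul_of_nonneg_right hJ (by positivity)
    have h6 : (0 : ℤ) ≤ (J : ℤ) ^ 2 := by positivity
    norm_num at h5
    linarith
  have hJ2 : (1 : ℤ) ≤ (J : ℤ) ^ 2 := one_le_pow₀ (le_trans (by norm_num) hJ)
  have hy2 : y < a / 4 + 1 + 16 * (J : ℤ) ^ 2 := by
    have : (2 : ℤ) ^ 4 * 8 ^ (1 * a * a' * N * (ζ + 1 * (1 + a))).natAbs.primeFactors.card ≤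
        16 * (J : ℤ) ^ 2 := by linarith
    linarith
  refine ⟨y, ?_, ?_, ?_, by exact_mod_cast y3, fun l hl hl2 => ?_⟩
  · have : 0 ≤ a / 4 := by omega
    linarith
  · omega
  · have : 4 * (a / 4) ≤ a := by omega
    linarith
  · have h := y4 l hl hl2
    have e1 : (1 : ℤ) * y = y := one_mul y
    have e2 : (1 : ℤ) - 0 * y = 1 := by ring
    rw [e1, e2] at h
    exact h

/-- BAL -/
theorem KSt.bal {J Z : ℕ} {N a z a' x : ℤ} (hB : Big N J Z) (S : KSt N a z a' 1 (-x))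
    (T : KTy a z a' 1 (-x)) (g : GLev N a) (hz : OC a z) (h4 : N ≤ 4 * a)
    (h2 : ¬ (2 : ℤ) ∣ a ∨ a % 4 = 2) {E0 : ℤ} (hE : (2 : ℤ) ∣ E0) :
    ∃ E w y : ℤ, 0 < E ∧ (16 : ℤ) ∣ E - E0 ∧ N ≤ 16 * (a - E) ∧ N ≤ 16 * (a' + E) ∧
      KSt N (a - E) w (a' + E) 1 (-y) ∧ KTy (a - E) w (a' + E) 1 (-y) ∧ GLev N (a - E) ∧
      OC (a - E) w ∧ ((2 : ℤ) ∣ a → ((2 : ℤ) ∣ w ↔ (2 : ℤ) ∣ z)) ∧
      ((2 : ℤ) ∣ a' → ((2 : ℤ) ∣ y ↔ (2 : ℤ) ∣ x)) ∧
      SEq (KC a z (-1) a' 1 (-x)) (KC (a - E) w (-1) (a' + E) 1 (-y)) := by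
  obtain ⟨ζ, hζ, hζa, hζo, hζ2, hζz⟩ := exists_zeta (z := z) h2
  have ha := S.ha
  have ha' := S.ha'
  have s1 := KC.zH ha ha' isCoprime_one_left (g.ocL S.hN) hz hζo hζ2 S.ok
  have S1 : KSt N a ζ a' 1 (-x) := ⟨S.hN, ha, ha', S.hP, s1.ok'⟩
  have T1 : KTy a ζ a' 1 (-x) := ⟨T.c2, fun h h' => by
    rcases T.n331 h h' with h3 | h3
    · exact Or.inl ((hζz h).2 h3)
    · exact Or.inr h3⟩
  obtain ⟨y, y0, y1, y2, y3, y4⟩ := hB.line (x := x) S.hN ha ha' g h4 hζ hζa E0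
  have hζ0 : 0 < ζ := by rcases hζ with h | h <;> rw [h] <;> norm_num
  have hζ3 : ζ ≤ 2 := by rcases hζ with h | h <;> rw [h] <;> norm_num
  have hζy : ζ * y ≤ 2 * y := mul_le_mul_of_nonneg_right hζ3 y0.le
  have hζy0 : 0 < ζ * y := mul_pos hζ0 y0
  have hy2 : (2 : ℤ) ∣ y := by omega
  have hζy2 : (2 : ℤ) ∣ ζ * y := hy2.mul_left ζ
  obtain ⟨w, x1, k1, k2, k3, k4, k5, k6, k7⟩ := S1.exitFin 1 T1 (s := -1) (e := y)
    (h := a - ζ * y) (j := 1) (Or.inr rfl) y0.le (by push_cast; linarith) (by linarith)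
    (by linarith) (by ring) (by push_cast; rw [one_mul]; exact hy2)
    (by rintro ⟨_, h⟩; norm_num at h)
    (by
      intro _ h
      push_cast
      rw [one_mul]
      omega)
    (by intro _; simp)
    (fun l hl hl2 => (y4 l hl hl2).toK)
  have e1 : (((1 : ℕ) : ℤ)) * y = y := by push_cast; rw [one_mul]
  rw [e1] at k1 k2 k3 k4 k7
  refine ⟨y, w, x1, y0, y3, ?_, ?_, k1, k2, ⟨k3, ?_⟩, k4, ?_, ?_, s1.trans k7⟩
  · linarith
  · linarith
  · intro l hl hl2 h1 h3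
    exact (y4 l hl hl2).lev' h3 h1
  · intro h; rw [k5 h, hζz h]
  · intro h; rw [k6 h, dvd_neg]

/-- BAL with an odd move: from `(u, w)` to an odd area on the left -/
theorem KSt.balOdd {J Z : ℕ} {N a z a' x : ℤ} (hB : Big N J Z) (S : KSt N a z a' 1 (-x))
    (g : GLev N a) (hz : OC a z) (h4 : N ≤ 4 * a) (h2 : a % 4 = 2) (hz2 : (2 : ℤ) ∣ z) (hx2 : ¬ (2 : ℤ) ∣ x) :
    ∃ E w y : ℤ, 0 < E ∧ ¬ (2 : ℤ) ∣ E ∧ N ≤ 16 * (a - E) ∧ N ≤ 16 * (a' + E) ∧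
      KSt N (a - E) w (a' + E) 1 (-y) ∧ KTy (a - E) w (a' + E) 1 (-y) ∧ GLev N (a - E) ∧
      OC (a - E) w ∧ SEq (KC a z (-1) a' 1 (-x)) (KC (a - E) w (-1) (a' + E) 1 (-y)) := by
  obtain ⟨ζ, hζ, hζa, hζo, hζ2, hζz⟩ := exists_zeta (z := z) (Or.inr h2 : ¬ (2 : ℤ) ∣ a ∨ a % 4 = 2)
  have ha := S.ha
  have ha' := S.ha'
  have h2a : (2 : ℤ) ∣ a := by omega
  have s1 := KC.zH ha ha' isCoprime_one_left (g.ocL S.hN) hz hζo hζ2 S.ok
  have hζe : (2 : ℤ) ∣ ζ := (hζz h2a).2 hz2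
  have hζ' : ζ = 2 := by omega
  obtain ⟨y, y0, y1, y2, y3, y4⟩ := hB.line (x := x) S.hN ha ha' g h4 hζ hζa 1
  subst hζ'
  have hy2 : ¬ (2 : ℤ) ∣ y := by omega
  have hco : IsCoprime (1 + y) (1 + (a - 2 * y)) := by
    refine isCoprime_of_prime fun l hl h1 h3 => ?_
    by_cases hl2 : l = 2
    · subst hl2
      have h3' : (2 : ℤ) ∣ 1 + y := by exact_mod_cast h3
      have h1' : (2 : ℤ) ∣ 1 + (a - 2 * y) := by exact_mod_cast h1
      omega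
    · exact (y4 l hl hl2).cont ⟨h3, h1⟩
  obtain ⟨q1, x1, k1, k2⟩ := KC.exitL (s := -1) (e := y) (h := a - 2 * y) (j := 1) (Or.inr rfl)
    y0.le (by linarith) (by linarith) (by ring) isCoprime_one_right ha' S.hP hco
    (fun r hr h1 h3 h5 => by
      by_cases hr2 : r = 2
      · subst hr2
        exfalso
        have h5' : (2 : ℤ) ∣ -x := by exact_mod_cast h5
        exact hx2 ((dvd_neg).1 h5')
      · exact (y4 r hr hr2).free h1 h3)
    (fun r hr h1 h3 => by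
      by_cases hr2 : r = 2
      · subst hr2
        exfalso
        have h3' : (2 : ℤ) ∣ a + 1 := by exact_mod_cast h3
        omega
      · exact (y4 r hr hr2).froz h1 h3) s1.ok'
  have hb : 0 < a - y := by linarith
  have hb' : 0 < a' + y := by linarith
  have hoc : OC (a - y) N := fun l hl hl2 h1 h3 => (y4 l hl hl2).lev h3 h1
  have hN := S.hN
  have hn : OC (a - y) (a' + y + 1) := by
    intro l hl hl2 h1 h3
    refine hoc l hl hl2 h1 ?_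
    have := dvd_add h1 h3
    have e1 : a - y + (a' + y + 1) = N := by rw [← hN]; ring
    rwa [e1] at this
  have hodd : ¬ (2 : ℤ) ∣ a - y := by omega
  obtain ⟨w, k3, k4⟩ := KC.choose_d hb hb' isCoprime_one_left k1 hn
    (fun h _ _ => hodd h) k2.ok'
  have k5 := (s1.trans k2).trans k4
  refine ⟨y, w, x1, y0, hy2, by linarith, by linarith,
    ⟨by linarith, hb, hb', fun l hl' _ h5 _ => prime_not_dvd_one hl' h5, k5.ok'⟩,
    ⟨fun _ h5 => by norm_num at h5, fun h5 _ => absurd h5 hodd⟩, ⟨hoc, ?_⟩, ?_, k5⟩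
  · intro l hl hl2 h1 h3
    exact (y4 l hl hl2).lev' h3 h1
  · intro l hl hl2 h1 h3
    exact (y4 l hl hl2).cusp h1 ((k3 l h1).1 h3)

end Pool.Agent.H4G
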