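import Pool.Agent.H4G.Ctwo.Jump

/-!
# The common vector lemma (helper68)

If both lattices of a state contain the primitive vector `lam`, then the class depends only on
`area L - u x lam`, `area L' - lam x v` and `A + lam x v + u x lam`: the vector `lam` itself is
used for left and right moves (Euclid on `(lam x v, u x lam)`).
-/

set_option autoImplicit false

open scoped MatrixGroups

namespace Pool.Agent.H4G

/-- a lattice that contains `(1, 0)` -/
theorem lat10 {w : Z2} {n : ℤ} (h : w.2 = n ∨ w.2 = -n) : lat ((1, 0) : Z2) w = Lc n 0 1 := by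
  apply le_antisymm
  · rw [AddSubgroup.closure_le]
    rintro x (rfl | rfl)
    · change n ∣ 0 * (1 : ℤ) + 1 * 0
      simp
    · change n ∣ 0 * x.1 + 1 * x.2
      rcases h with h | h <;> simp [h]
  · intro x hx
    rw [mem_Lc] at hx
    obtain ⟨m, hm⟩ := hx
    rw [zero_mul, zero_add, one_mul] at hm
    rcases h with h | h
    · refine mem_lat.2 ⟨x.1 - m * w.1, m, ?_⟩
      ext
      · simp only [Prod.fst_add, Prod.smul_fst, smul_eq_mul]; ring
      · simp only [Prod.snd_add, Prod.smul_snd, smul_eq_mul, h, hm]; ring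
    · refine mem_lat.2 ⟨x.1 + m * w.1, -m, ?_⟩
      ext
      · simp only [Prod.fst_add, Prod.smul_fst, smul_eq_mul]; ring
      · simp only [Prod.snd_add, Prod.smul_snd, smul_eq_mul, h, hm]; ring

theorem lat10' {w : Z2} {n : ℤ} (h : w.2 = n ∨ w.2 = -n) : lat ((-1, 0) : Z2) w = Lc n 0 1 := by
  have e : ((-1, 0) : Z2) = -(1, 0) := by ext <;> simp
  rw [e, lat_neg_left, lat10 h]

/-- the state with the common vector `(1, 0)` -/
def FS (l1 l2 : ℤ) (u v : Z2) : PSt := ⟨Lc (l1 - u.2) 0 1, u, v, Lc (l2 + v.2) 0 1⟩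

theorem FS_ok {l1 l2 : ℤ} {u v : Z2} (h1 : 0 < l1) (h2 : 0 < l2) (hA : 0 < cr u v) (hu : u.2 < 0)
    (hv : 0 < v.2) : (FS l1 l2 u v).Ok := by
  refine ⟨(u + (0, l1 - u.2), (-1, 0), u, v, (-1, 0), v - (0, l2 + v.2)), ⟨?_, ?_, ?_⟩, rfl, rfl,
    hA, ?_, ?_, ?_⟩
  · simp only [cr, Prod.fst_add, Prod.snd_add]; linarith
  · simp only [cr, FS]; linarith
  · change lat (-1, 0) (u + (0, l1 - u.2) - u) = Lc (l1 - u.2) 0 1
    exact lat10' (Or.inl (by simp))
  · simp only [cr, FS]; linarith
  · simp only [cr, Prod.fst_sub, Prod.snd_sub]; linarith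
  · change lat (-1, 0) (v - (0, l2 + v.2) - v) = Lc (l2 + v.2) 0 1
    exact lat10' (Or.inr (by simp))

theorem FS_left {l1 l2 : ℤ} {u v : Z2} (h1 : 0 < l1) (h2 : 0 < l2) (hA : 0 < cr u v)
    (hu : u.2 < 0) (hv : 0 < v.2) (h : v.2 < -u.2) :
    SEq (FS l1 l2 u v) (FS l1 l2 (u + v + (1, 0)) v) := by
  have hok := FS_ok h1 h2 hA hu hv
  have e1 : lat ((1, 0) : Z2) (0, -(l1 - u.2)) = Lc (l1 - u.2) 0 1 := lat10 (Or.inr rfl)
  unfold FS at hok ⊢
  rw [← e1] at hok ⊢
  have m := SEq.mPlus hok (by simp only [cr]; linarith) (by simp only [cr]; linarith)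
    (by simp only [cr]; simp only [cr] at hA; linarith) (by simp only [cr]; linarith)
  rw [lat10 (n := l1 - (u + v + (1, 0)).2) (w := (0, -(l1 - u.2)) + v)
    (Or.inr (by simp only [Prod.snd_add]; ring))] at m
  exact m

theorem FS_right {l1 l2 : ℤ} {u v : Z2} (h1 : 0 < l1) (h2 : 0 < l2) (hA : 0 < cr u v)
    (hu : u.2 < 0) (hv : 0 < v.2) (h : -u.2 < v.2) :
    SEq (FS l1 l2 u v) (FS l1 l2 u (v + u + (1, 0))) := by
  have hok := FS_ok h1 h2 hA hu hv
  have e1 : lat ((-1, 0) : Z2) (0, l2 + v.2) = Lc (l2 + v.2) 0 1 := lat10' (Or.inl rfl)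
  unfold FS at hok ⊢
  rw [← e1] at hok ⊢
  have m := SEq.mMinus' hok (by simp only [cr]; linarith) (by simp only [cr]; linarith)
    (by simp only [cr]; linarith) (by simp only [cr]; simp only [cr] at hA; linarith)
  rw [lat10' (n := l2 + (v + u + (1, 0)).2) (w := (0, l2 + v.2) + u)
    (Or.inl (by simp only [Prod.snd_add]; ring))] at m
  have e2 : v + u - ((-1, 0) : Z2) = v + u + (1, 0) := by ext <;> simp
  rw [e2] at m
  exact m

theorem FS_down {l1 l2 : ℤ} (h1 : 0 < l1) (h2 : 0 < l2) (n : ℕ) : ∀ (u v : Z2),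
    (v.2 - u.2).toNat ≤ n → 0 < cr u v → u.2 < 0 → 0 < v.2 → IsCoprime u.2 v.2 →
    SEq (FS l1 l2 u v) (FS l1 l2 (cr u v + v.2 - u.2 - 2, -1) (0, 1)) := by
  induction n with
  | zero => intro u v hn hA hu hv _; omega
  | succ n ih =>
    intro u v hn hA hu hv hc
    rcases lt_trichotomy v.2 (-u.2) with h | h | h
    · have m := FS_left h1 h2 hA hu hv h
      have hA' : cr (u + v + (1, 0)) v = cr u v + v.2 := by
        simp only [cr, Prod.fst_add, Prod.snd_add]; ring
      have e2 : (u + v + (1, 0) : Z2).2 = u.2 + v.2 := by simp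
      have k := ih (u + v + (1, 0)) v (by rw [e2]; omega) (by rw [hA']; linarith)
        (by rw [e2]; linarith) hv (by
          rw [e2]
          have := hc.add_mul_left_left 1
          simpa using this)
      rw [hA', e2] at k
      have e3 : cr u v + v.2 + v.2 - (u.2 + v.2) - 2 = cr u v + v.2 - u.2 - 2 := by ring
      rw [e3] at k
      exact m.trans k
    · have hv1 : v.2 = 1 := by
        have e : u.2 = -v.2 := by linarith
        rw [e] at hc
        have : IsUnit v.2 := by
          have h3 := hc.neg_left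
          rw [neg_neg] at h3
          exact isCoprime_self.1 h3
        rcases Int.isUnit_iff.1 this with h4 | h4
        · exact h4
        · linarith
      have hu1 : u.2 = -1 := by linarith
      have hok := FS_ok h1 h2 hA hu hv
      have k := SEq.act (shH (-v.1)) hok
      unfold PSt.act at k
      unfold FS at k ⊢
      simp only [map_shH_Lc, act_shH] at k
      have e1 : (u.1 + -v.1 * u.2, u.2) = ((cr u v + v.2 - u.2 - 2, -1) : Z2) := by
        ext
        · simp only [cr, hu1, hv1]; ring
        · simp only [hu1]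
      have e2 : (v.1 + -v.1 * v.2, v.2) = ((0, 1) : Z2) := by
        ext
        · simp only [hv1]; ring
        · simp only [hv1]
      have e3 : (1 : ℤ) - -v.1 * 0 = 1 := by ring
      rw [e1, e2, e3, hu1, hv1] at k
      rw [hu1, hv1]
      exact k
    · have m := FS_right h1 h2 hA hu hv h
      have hA' : cr u (v + u + (1, 0)) = cr u v - u.2 := by
        simp only [cr, Prod.fst_add, Prod.snd_add]; ring
      have e2 : (v + u + (1, 0) : Z2).2 = v.2 + u.2 := by simp
      have k := ih u (v + u + (1, 0)) (by rw [e2]; omega) (by rw [hA']; linarith) hu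
        (by rw [e2]; linarith) (by
          rw [e2]
          have := hc.add_mul_left_right 1
          simpa using this)
      rw [hA', e2] at k
      have e3 : cr u v - u.2 + (v.2 + u.2) - u.2 - 2 = cr u v + v.2 - u.2 - 2 := by ring
      rw [e3] at k
      exact m.trans k

/-- the K-state with the common vector `(al, be)` -/
theorem KC.toFS {l1 l2 al be : ℤ} (h1 : 0 < l1) (h2 : 0 < l2) (ha : 0 < al) (hb : 0 < be)
    (hc : IsCoprime al be) : SEq (KC (l1 + be) (-be) al (l2 + al) (-be) al)
      (FS l1 l2 (al + be - 1, -1) (0, 1)) := by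
  obtain ⟨x, y, hxy⟩ := hc
  have hcr : cr ((x, -be) : Z2) (y, al) = 1 := by simp only [cr]; linarith
  have hok := FS_ok (u := (x, -be)) (v := (y, al)) h1 h2 (by rw [hcr]; norm_num)
    (by simpa using hb) ha
  have k1 : SEq (FS l1 l2 (x, -be) (y, al)) (KC (l1 + be) (-be) al (l2 + al) (-be) al) := by
    have k := KC.base hcr (n := l1 + be) (p := 0) (q := 1) (n' := l2 + al) (p' := 0) (q' := 1)
      (by
        have e := hok
        unfold FS at e
        simpa using e)
    simpa [FS] using k
  have k2 := FS_down h1 h2 _ (x, -be) (y, al) le_rfl (by rw [hcr]; norm_num)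
    (by simpa using hb) ha (by
      have : IsCoprime be al := ⟨y, x, by linarith⟩
      simpa using this.neg_left)
  have e : cr ((x, -be) : Z2) (y, al) + (y, al).2 - ((x, -be) : Z2).2 - 2 = al + be - 1 := by
    rw [hcr]; simp only; ring
  rw [e] at k2
  exact k1.symm.trans k2

/-- **COMMON VECTOR LEMMA**, first quadrant -/
theorem KC.cv {a p q a' p' q' al be al' be' : ℤ} (h : Prm a p q) (h' : Prm a' p' q')
    (ha : 0 < al) (hb : 0 < be) (hc : IsCoprime al be) (hba : be < a) (haa : al < a')
    (hL : a ∣ p * al + q * be) (hM : a' ∣ p' * al + q' * be)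
    (ha' : 0 < al') (hb' : 0 < be') (hc' : IsCoprime al' be') (hs : al' + be' = al + be) :
    SEq (KC a p q a' p' q')
      (KC (a - be + be') (-be') al' (a' - al + al') (-be') al') := by
  have e1 := h.eq_Lc_cr (by linarith) hc hL
  have e2 := h'.eq_Lc_cr (by linarith) hc hM
  have k1 := KC.toFS (l1 := a - be) (l2 := a' - al) (by linarith) (by linarith) ha hb hc
  have k2 := KC.toFS (l1 := a - be) (l2 := a' - al) (by linarith) (by linarith) ha' hb' hc'
  rw [hs] at k2
  have e3 : a - be + be = a := by ring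
  have e4 : a' - al + al = a' := by ring
  rw [e3, e4] at k1
  unfold KC at k1 ⊢
  rw [e1, e2]
  exact k1.trans k2.symm

/-- **COMMON VECTOR LEMMA**, second quadrant: the common vector is `(-al, be)` -/
theorem KC.cvm {a p q a' p' q' al be al' be' : ℤ} (h : Prm a p q) (h' : Prm a' p' q')
    (hok : (KC a p q a' p' q').Ok)
    (ha : 0 < al) (hb : 0 < be) (hc : IsCoprime al be) (hba : be < a) (haa : al < a')
    (hL : a ∣ p * (-al) + q * be) (hM : a' ∣ p' * (-al) + q' * be)
    (ha' : 0 < al') (hb' : 0 < be') (hc' : IsCoprime al' be') (hs : al' + be' = al + be) :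
    SEq (KC a p q a' p' q')
      (KC (a - be + be') be' al' (a' - al + al') be' al') := by
  have m := KC.mirror hok
  have hP : ∀ {n p q : ℤ}, Prm n p q → Prm n q (-p) := fun h l hl h1 h2 h3 =>
    h l hl h1 ((dvd_neg).1 h3) h2
  have k := KC.cv (al := be) (be := al) (al' := be') (be' := al') (hP h') (hP h) hb ha hc.symm
    haa hba (by
      have e : q' * be + -p' * al = p' * (-al) + q' * be := by ring
      rw [e]; exact hM) (by
      have e : q * be + -p * al = p * (-al) + q * be := by ring
      rw [e]; exact hL) hb' ha' hc'.symm (by linarith)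
  have m2 := KC.mirror k.ok'
  rw [neg_neg] at m2
  exact m.trans (k.trans m2)

end Pool.Agent.H4G
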