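import Pool.Agent.H4G.Ctwo.Glue

/-!
# `k`-fold exits at the K-level (helper1, after an idea of helper65)

The same vector `l = (s e, h)` of `L` can be used `k` times for a left exit as long as `k e < h`:
`(L, e₁, e₂, M) ~ (L_k, (1 + k e, k s (1 + h)), e₂, M)` with `L_k` of area `a - k e`.
-/

set_option autoImplicit false

namespace Pool.Agent.H4G

/-- one exit with the primitive vector `(s e, h)` of `Lc a p q` from a state with any `u` -/
theorem exitGu {a p q s e h m F : ℤ} {u : Z2} (hs : s = 1 ∨ s = -1) (he : 0 ≤ e)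
    (hF : cr u (s * e, h) = F) (hu : 0 < u.1) (heF : e < F) (hFa : F ≤ a)
    (hm : p * (s * e) + q * h = a * m)
    (hprim : ∀ l : ℕ, l.Prime → (l : ℤ) ∣ e → (l : ℤ) ∣ h → ¬ (l : ℤ) ∣ m)
    (h0 : Prm a p q) (h1 : Prm (a - e) (p - s * m) q) {M : AddSubgroup Z2}
    (hok : PSt.Ok ⟨Lc a p q, u, (0, 1), M⟩) :
    SEq ⟨Lc a p q, u, (0, 1), M⟩
      ⟨Lc (a - e) (p - s * m) q, u + s • ((0, 1) + (s * e, h) : Z2), (0, 1), M⟩ := by
  have ha : 0 < a := by linarith
  have hss : s * s = 1 := by rcases hs with rfl | rfl <;> norm_num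
  have hse : ∀ l : ℕ, (l : ℤ) ∣ s * e → (l : ℤ) ∣ e := by
    intro l hl
    have : e = s * (s * e) := by linear_combination (-e) * hss
    rw [this]; exact hl.mul_left _
  obtain ⟨p0, e1, e2⟩ := h0.basis ha hm (fun l hl k1 k2 => hprim l hl (hse l k1) k2)
  have hp0 : p0 ∈ Lc a p q := by
    rw [e1]; exact mem_lat.2 ⟨0, 1, by module⟩
  have hnew := Lc_exit ha.ne' (by linarith) hs hm hprim h1 hp0 e2
  have hok' := hok
  rw [e1] at hok' ⊢
  rcases hs with rfl | rfl
  · have m1 := SEq.mPlus hok' (by rw [hF]; linarith) (by rw [hF, e2]; exact hFa)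
      (by simp [cr]; linarith) (by rw [hF]; simp [cr]; linarith)
    have f2 : (u + (0, 1) + (1 * e, h) : Z2) = u + (1 : ℤ) • ((0, 1) + (1 * e, h) : Z2) := by
      rw [one_smul, add_assoc]
    have f1 : p0 + (0, 1) = p0 + (1 : ℤ) • ((0, 1) : Z2) := by rw [one_smul]
    rw [f2, f1, hnew] at m1
    exact m1
  · have m1 := SEq.mMinus hok' (by rw [hF]; linarith) (by rw [hF, e2]; exact hFa)
      (by rw [hF]; simp [cr]; linarith) (by simp [cr]; linarith)
    have f2 : (u - (0, 1) - (-1 * e, h) : Z2) = u + (-1 : ℤ) • ((0, 1) + (-1 * e, h) : Z2) := by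
      rw [neg_smul, one_smul, neg_add]; abel
    have f1 : p0 - (0, 1) = p0 + (-1 : ℤ) • ((0, 1) : Z2) := by
      rw [neg_smul, one_smul, sub_eq_add_neg]
    rw [f2, f1, hnew] at m1
    exact m1

/-- `k`-FOLD EXIT on the left with the primitive vector `(s e, h)` of `L = Lc a p q` -/
theorem exitGk {a p q s e h m : ℤ} (hs : s = 1 ∨ s = -1) (he : 0 ≤ e) (hha : h ≤ a) (hh : 0 < h)
    (hm : p * (s * e) + q * h = a * m)
    (hprim : ∀ l : ℕ, l.Prime → (l : ℤ) ∣ e → (l : ℤ) ∣ h → ¬ (l : ℤ) ∣ m)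
    {M : AddSubgroup Z2} (hok : (KS (Lc a p q) M).Ok) : ∀ k : ℕ, (k : ℤ) * e < h →
      (∀ i : ℕ, i ≤ k → Prm (a - i * e) (p - i * (s * m)) q) →
      SEq (KS (Lc a p q) M) ⟨Lc (a - k * e) (p - k * (s * m)) q,
        (1 + k * e, k * (s * (1 + h))), (0, 1), M⟩ := by
  have hss : s * s = 1 := by rcases hs with rfl | rfl <;> norm_num
  intro k
  induction k with
  | zero =>
    intro _ _
    have e1 : Lc (a - ((0 : ℕ) : ℤ) * e) (p - ((0 : ℕ) : ℤ) * (s * m)) q = Lc a p q := by simp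
    rw [e1]
    have e2 : ((1 + ((0 : ℕ) : ℤ) * e, ((0 : ℕ) : ℤ) * (s * (1 + h))) : Z2) = (1, 0) := by simp
    rw [e2]
    exact hok.seq
  | succ k ih =>
    intro hk hP
    push_cast at hk
    have hke : (k : ℤ) * e < h := by nlinarith
    have hk0 : (0 : ℤ) ≤ k := Int.natCast_nonneg k
    have s1 := ih hke (fun i hi => hP i (by omega))
    have P0 := hP k (by omega)
    have P1 := hP (k + 1) le_rfl
    push_cast at P1
    have e3 : a - (k : ℤ) * e - e = a - ((k : ℤ) + 1) * e := by ring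
    have e4 : p - (k : ℤ) * (s * m) - s * m = p - ((k : ℤ) + 1) * (s * m) := by ring
    have s2 := exitGu (u := (1 + (k : ℤ) * e, (k : ℤ) * (s * (1 + h)))) (m := m) hs he
      (F := h - k * e) (by
        simp only [cr]
        linear_combination (-(k : ℤ) * (1 + h) * e) * hss)
      (by dsimp only; nlinarith) (by linarith) (by linarith)
      (by linear_combination hm - (k : ℤ) * m * e * hss) hprim P0
      (by rw [e3, e4]; exact P1) s1.ok'
    rw [e3, e4] at s2
    have e5 : ((1 + (k : ℤ) * e, (k : ℤ) * (s * (1 + h))) : Z2) +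
        s • ((0, 1) + (s * e, h) : Z2) =
        (1 + ((k : ℤ) + 1) * e, ((k : ℤ) + 1) * (s * (1 + h))) := by
      ext
      · simp only [Prod.fst_add, Prod.smul_fst, smul_eq_mul, zero_add]
        linear_combination e * hss
      · simp only [Prod.snd_add, Prod.smul_snd, smul_eq_mul]
        ring
    rw [e5] at s2
    have s3 := s1.trans s2
    push_cast
    exact s3

/-- `k`-FOLD EXIT AND LANDING: the new left lattice is `Lc (a - k e) (p + k s (q - m)) q1`. -/
theorem KC.exitKk {a p q s e h m c a' : ℤ} (k : ℕ) (hs : s = 1 ∨ s = -1) (he : 0 ≤ e)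
    (heh : (k : ℤ) * e < h) (hh : 0 < h)
    (hha : h ≤ a) (hm : p * (s * e) + q * h = a * m)
    (hprim : ∀ l : ℕ, l.Prime → (l : ℤ) ∣ e → (l : ℤ) ∣ h → ¬ (l : ℤ) ∣ m)
    (h1 : ∀ i : ℕ, i ≤ k → Prm (a - i * e) (p - i * (s * m)) q) {M : AddSubgroup Z2}
    (ha' : IsArea M a')
    (hc : IsC M (1 + k * e, k * (s * (1 + h))) c) (hce : c ∣ k * e)
    (hok : (KS (Lc a p q) M).Ok) :
    ∃ (q1 : ℤ) (M' : AddSubgroup Z2), Prm (a - k * e) (p + k * (s * (q - m))) q1 ∧
      SEq (KS (Lc a p q) M) (KS (Lc (a - k * e) (p + k * (s * (q - m))) q1) M') ∧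
      IsArea M' (a' + k * e) ∧ IsC M' (1, 0) c := by
  have hss : s * s = 1 := by rcases hs with rfl | rfl <;> norm_num
  have k1 := exitGk hs he hha hh hm hprim hok k heh h1
  obtain ⟨v1, M', k2, k3, k4, k5⟩ := landR (e := k * e) k1.ok' (by simp [cr]) ha' hc hce
  have hB := (h1 k le_rfl).base k2
  have e1 : a - k * e ∣ p + k * (s * (q - m)) -
      ((p - k * (s * m)) * (1 + k * e) + q * (k * (s * (1 + h)))) := by
    refine ⟨-(k * (s * m)), ?_⟩
    linear_combination (-(k : ℤ) * s) * hm + k * p * e * hss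
  have e2 : a - k * e ∣ ((p - k * (s * m)) * v1.1 + q * v1.2) -
      ((p - k * (s * m)) * v1.1 + q * v1.2) := ⟨0, by ring⟩
  refine ⟨(p - k * (s * m)) * v1.1 + q * v1.2, M', hB.congr e1 e2, ?_, k4, k5⟩
  have k6 := k1.trans k3
  rw [Lc_congr e1 e2] at k6
  exact k6

/-- `k`-FOLD LEFT EXIT with `c₁ = 1`: from a state with `d = 1` and any right lattice (content `1`)
to a state with `c = 1`; the new left cusp is the cusp of `z + k s (j - 1)`. -/
theorem KC.exitLk {a z a' p' q' s e h j : ℤ} (k : ℕ) (hs : s = 1 ∨ s = -1) (he : 0 ≤ e)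
    (heh : (k : ℤ) * e < h) (hh0 : 0 < h)
    (hha : h ≤ a) (hh : h = s * e * z + j * a) (hej : IsCoprime e j) (ha' : 0 < a')
    (hP' : Prm a' p' q') (hco : IsCoprime (1 + k * e) (k * (1 + h)))
    (hfree : ∀ r : ℕ, r.Prime → (r : ℤ) ∣ a' → ¬ (r : ℤ) ∣ a + 1 → (r : ℤ) ∣ q' →
      ¬ (r : ℤ) ∣ 1 + k * e)
    (hfroz : ∀ r : ℕ, r.Prime → (r : ℤ) ∣ a' → (r : ℤ) ∣ a + 1 →
      ¬ (r : ℤ) ∣ p' * (1 + k * e) + q' * (k * (s * (1 + h))))
    (hok : (KC a z (-1) a' p' q').Ok) :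
    ∃ q1 x : ℤ, Prm (a - k * e) (z + k * (s * (j - 1))) q1 ∧
      SEq (KC a z (-1) a' p' q')
        (KC (a - k * e) (z + k * (s * (j - 1))) q1 (a' + k * e) 1 (-x)) := by
  have hss : s * s = 1 := by rcases hs with rfl | rfl <;> norm_num
  have hco' : IsCoprime (1 + k * e) (k * (s * (1 + h))) := by
    rcases hs with rfl | rfl
    · simpa using hco
    · have e1 : (k : ℤ) * (-1 * (1 + h)) = -(k * (1 + h)) := by ring
      rw [e1]; exact hco.neg_right
  have ha : 0 < a := by linarith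
  obtain ⟨i, h1, h2, h3⟩ := KC.Vchoose ha isCoprime_one_left.neg_left ha' hP' hco' hfree hfroz hok
  have hm : z * (s * e) + -1 * h = a * (-j) := by rw [hh]; ring
  obtain ⟨q1, M', k1, k2, k3, k4⟩ := KC.exitKk k hs he heh hh0 hha hm
    (by
      intro l hl h4 _ h6
      exact not_dvd_of_isCoprime hej hl ((dvd_neg).1 h6) h4)
    (by
      intro i _ l hl _ _ h6
      exact prime_not_dvd_one hl ((dvd_neg).1 h6))
    (isArea_Lc ha' h1) h3 (one_dvd _) h2.ok'
  obtain ⟨x, hx⟩ := k4.exists_x k3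
  have e1 : z + k * (s * (-1 - -j)) = z + k * (s * (j - 1)) := by ring
  rw [e1] at k1 k2
  refine ⟨q1, x, k1, ?_⟩
  rw [hx] at k2
  exact h2.trans k2

end Pool.Agent.H4G
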