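import Pool.Agent.H4G.Ctwo.G3def
import Pool.Agent.H4G.Ctwo.ExitN

/-!
# The end of a move: `k`-fold exit, choice of `d`, parities (helper62)
-/

set_option autoImplicit false

namespace Pool.Agent.H4G

/-- the local conditions of a `k`-fold left exit -/
structure ExK (l : ℕ) (a a' N z s p' q' e h j k : ℤ) : Prop where
  prim : ¬ ((l : ℤ) ∣ e ∧ (l : ℤ) ∣ j)
  cont : ¬ ((l : ℤ) ∣ 1 + k * e ∧ (l : ℤ) ∣ k * (1 + h))
  lev : (l : ℤ) ∣ N → ¬ (l : ℤ) ∣ a - k * e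
  free : (l : ℤ) ∣ a' → ¬ (l : ℤ) ∣ a + 1 → (l : ℤ) ∣ q' → ¬ (l : ℤ) ∣ 1 + k * e
  froz : (l : ℤ) ∣ a' → (l : ℤ) ∣ a + 1 →
    ¬ (l : ℤ) ∣ p' * (1 + k * e) + q' * (k * (s * (1 + h)))
  cusp : (l : ℤ) ∣ a - k * e → ¬ (l : ℤ) ∣ z + k * (s * (j - 1))

theorem ExC.toK {l : ℕ} {a a' N z s p' q' e h j : ℤ} (x : ExC l a a' N z s p' q' e h j) :
    ExK l a a' N z s p' q' e h j (1 : ℕ) := by
  refine ⟨x.prim, ?_, ?_, ?_, ?_, ?_⟩
  · simpa using x.cont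
  · simpa using x.lev
  · intro h1 h2 _
    simpa using x.free h1 h2
  · simpa using x.froz
  · simpa using x.cusp

/-- the parity of the right slope after a move which keeps the parities on the left -/
theorem x_parity {N a z a' p' q' b w b' x : ℤ} (S : KSt N a z a' p' q')
    (T : KSt N b w b' 1 (-x)) (hs : SEq (KC a z (-1) a' p' q') (KC b w (-1) b' 1 (-x)))
    (hab : (2 : ℤ) ∣ a ↔ (2 : ℤ) ∣ b) (hzw : (2 : ℤ) ∣ a → ((2 : ℤ) ∣ w ↔ (2 : ℤ) ∣ z))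
    (ha' : (2 : ℤ) ∣ a') (hb' : (2 : ℤ) ∣ b') : (2 : ℤ) ∣ x ↔ (2 : ℤ) ∣ q' := by
  have h1 := hs.n0_KC S.ha S.ha' (prm_z a z) S.hP T.ha T.ha' (prm_z b w) T.hP
  have e2 : ∀ m : ℤ, Odd m ↔ ¬ (2 : ℤ) ∣ m := fun m => by
    rw [← Int.not_even_iff_odd, even_iff_two_dvd]
  have h2 : nL a z = nL b w := by
    by_cases h3 : (2 : ℤ) ∣ a
    · have h4 := hab.1 h3
      have h5 := hzw h3
      by_cases h6 : (2 : ℤ) ∣ z
      · rw [nL_even_even (even_iff_two_dvd.2 h3) (even_iff_two_dvd.2 h6),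
          nL_even_even (even_iff_two_dvd.2 h4) (even_iff_two_dvd.2 (h5.2 h6))]
      · rw [nL_even_odd (even_iff_two_dvd.2 h3) ((e2 z).2 h6),
          nL_even_odd (even_iff_two_dvd.2 h4) ((e2 w).2 (fun h => h6 (h5.1 h)))]
    · rw [nL_odd ((e2 a).2 h3), nL_odd ((e2 b).2 (fun h => h3 (hab.2 h)))]
  have h3 : nL a' q' = nL b' (-x) := by omega
  have ea' := even_iff_two_dvd.2 ha'
  have eb' := even_iff_two_dvd.2 hb'
  by_cases h4 : (2 : ℤ) ∣ q' <;> by_cases h5 : (2 : ℤ) ∣ x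
  · exact ⟨fun _ => h4, fun _ => h5⟩
  · rw [nL_even_even ea' (even_iff_two_dvd.2 h4),
      nL_even_odd eb' ((e2 (-x)).2 (fun h => h5 ((dvd_neg).1 h)))] at h3
    omega
  · rw [nL_even_odd ea' ((e2 q').2 h4),
      nL_even_even eb' (even_iff_two_dvd.2 ((dvd_neg).2 h5))] at h3
    omega
  · exact ⟨fun h => absurd h h5, fun h => absurd h h4⟩

/-- THE END OF A MOVE -/
theorem KSt.exitFin {N a z a' p' q' s e h j : ℤ} (k : ℕ) (S : KSt N a z a' p' q')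
    (T : KTy a z a' p' q') (hs : s = 1 ∨ s = -1) (he : 0 ≤ e) (heh : (k : ℤ) * e < h)
    (hh0 : 0 < h) (hha : h ≤ a) (hh : h = s * e * z + j * a) (h2E : (2 : ℤ) ∣ k * e)
    (h2j : ¬ ((2 : ℤ) ∣ e ∧ (2 : ℤ) ∣ j))
    (h2f : (2 : ℤ) ∣ a' → (2 : ℤ) ∣ a + 1 → (2 : ℤ) ∣ k * (1 + h))
    (h2c : (2 : ℤ) ∣ a → (2 : ℤ) ∣ k * (s * (j - 1)))
    (hl : ∀ l : ℕ, l.Prime → l ≠ 2 → ExK l a a' N z s p' q' e h j k) :
    ∃ w x : ℤ, KSt N (a - k * e) w (a' + k * e) 1 (-x) ∧ KTy (a - k * e) w (a' + k * e) 1 (-x) ∧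
      OC (a - k * e) N ∧ OC (a - k * e) w ∧ ((2 : ℤ) ∣ a → ((2 : ℤ) ∣ w ↔ (2 : ℤ) ∣ z)) ∧
      ((2 : ℤ) ∣ a' → ((2 : ℤ) ∣ x ↔ (2 : ℤ) ∣ q')) ∧
      SEq (KC a z (-1) a' p' q') (KC (a - k * e) w (-1) (a' + k * e) 1 (-x)) := by
  have h1E : ¬ (2 : ℤ) ∣ 1 + k * e := by omega
  have hej : IsCoprime e j := by
    refine isCoprime_of_prime fun l hl' h1 h2 => ?_
    by_cases hl2 : l = 2
    · subst hl2; exact h2j ⟨by exact_mod_cast h2, by exact_mod_cast h1⟩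
    · exact (hl l hl' hl2).prim ⟨h2, h1⟩
  have hco : IsCoprime (1 + k * e) (k * (1 + h)) := by
    refine isCoprime_of_prime fun l hl' h1 h2 => ?_
    by_cases hl2 : l = 2
    · subst hl2; exact h1E (by exact_mod_cast h2)
    · exact (hl l hl' hl2).cont ⟨h2, h1⟩
  have hke : 0 ≤ (k : ℤ) * e := mul_nonneg (Int.natCast_nonneg k) he
  have hb : 0 < a - k * e := by linarith
  have hb' : 0 < a' + k * e := by linarith [S.ha']
  obtain ⟨q1, x, k1, k2⟩ := KC.exitLk k hs he heh hh0 hha hh hej S.ha' S.hP hco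
    (fun r hr h1 h2 h3 => by
      by_cases hr2 : r = 2
      · subst hr2; exact_mod_cast h1E
      · exact (hl r hr hr2).free h1 h2 h3)
    (fun r hr h1 h2 h3 => by
      by_cases hr2 : r = 2
      · subst hr2
        have h1' : (2 : ℤ) ∣ a' := by exact_mod_cast h1
        have h2' : (2 : ℤ) ∣ a + 1 := by exact_mod_cast h2
        have h3' : (2 : ℤ) ∣ p' * (1 + k * e) + q' * (k * (s * (1 + h))) := by exact_mod_cast h3
        have h4 := h2f h1' h2'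
        apply T.c2 h1'
        have h5 : (2 : ℤ) ∣ p' * (k * e) + q' * s * (k * (1 + h)) :=
          dvd_add (h2E.mul_left _) (h4.mul_left _)
        have h6 := dvd_sub h3' h5
        have e1 : p' * (1 + k * e) + q' * (k * (s * (1 + h))) -
          (p' * (k * e) + q' * s * (k * (1 + h))) = p' := by ring
        rwa [e1] at h6
      · exact (hl r hr hr2).froz h1 h2 h3) S.ok
  have hP1 : Prm (a' + k * e) 1 (-x) := fun l hl' _ h2 _ => prime_not_dvd_one hl' h2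
  have hN2 : ∀ l : ℕ, l.Prime → l ≠ 2 → (l : ℤ) ∣ a - k * e → ¬ (l : ℤ) ∣ N :=
    fun l hl' hl2 h1 h2 => (hl l hl' hl2).lev h2 h1
  have hoc : OC (a - k * e) N := hN2
  have hn : OC (a - k * e) (a' + k * e + 1) := by
    intro l hl' hl2 h1 h2
    refine hoc l hl' hl2 h1 ?_
    have := dvd_add h1 h2
    have e1 : a - k * e + (a' + k * e + 1) = N := by rw [← S.hN]; ring
    rwa [e1] at this
  obtain ⟨w, k3, k4⟩ := KC.choose_d hb hb' isCoprime_one_left k1 hn (by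
    intro h1 h2 h3
    -- `N` even, `a` even, `a'` odd
    have hN := S.hN
    have ha2 : (2 : ℤ) ∣ a := by
      have := dvd_add h1 h2E
      rwa [sub_add_cancel] at this
    have ha2' : ¬ (2 : ℤ) ∣ a' := by omega
    have hae : Even a := even_iff_two_dvd.2 ha2
    have hao : Odd a' := by rw [← Int.not_even_iff_odd, even_iff_two_dvd]; exact ha2'
    have hbe : Even (a - k * e) := even_iff_two_dvd.2 h1
    have hbo : Odd (a' + k * e) := by
      rw [← Int.not_even_iff_odd, even_iff_two_dvd]; omega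
    have h4 := SEq.T4_ee hae hao (prm_z a z) hbe hbo k1 k2
    have h5 : Even (-1 : ℤ) := h4.2 (even_iff_two_dvd.2 h2)
    rw [even_iff_two_dvd] at h5
    omega) k2.ok'
  have k5 := k2.trans k4
  have K : KSt N (a - k * e) w (a' + k * e) 1 (-x) :=
    ⟨by rw [← S.hN]; ring, hb, hb', hP1, k5.ok'⟩
  have hwz : (2 : ℤ) ∣ a → ((2 : ℤ) ∣ w ↔ (2 : ℤ) ∣ z) := by
    intro h1
    have h2 : (2 : ℤ) ∣ a - k * e := dvd_sub h1 h2E
    rw [k3 2 h2]
    have h3 := h2c h1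
    omega
  have hxq : (2 : ℤ) ∣ a' → ((2 : ℤ) ∣ x ↔ (2 : ℤ) ∣ q') := fun h1 =>
    x_parity S K k5 (by omega) hwz h1 (dvd_add h1 h2E)
  refine ⟨w, x, K, ⟨fun _ h1 => by norm_num at h1, fun h1 h2 => ?_⟩, hoc, ?_, hwz, hxq, k5⟩
  · have ha2 : (2 : ℤ) ∣ a := by
      have := dvd_add h1 h2E
      rwa [sub_add_cancel] at this
    have ha2' : (2 : ℤ) ∣ a' := by
      have := dvd_sub h2 h2E
      rwa [add_sub_cancel_right] at this
    rcases T.n331 ha2 ha2' with h3 | h3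
    · exact Or.inl ((hwz ha2).2 h3)
    · exact Or.inr ((dvd_neg).2 ((hxq ha2').2 h3))
  · intro l hl' hl2 h1 h2
    exact (hl l hl' hl2).cusp h1 ((k3 l h1).1 h2)

end Pool.Agent.H4G
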