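import Pool.Agent.H4G.Ctwo.Exp

/-!
# The general exit formula (helper31)

`M = {X = x Y mod n}`, `l = (-k, -s e)`, `k = x s e + j n`, `gcd (e, j) = 1`: after the exit the
lattice is `{X = (x + s j) Y mod n - e}`. No condition on `gcd (e, k)`.
-/

set_option autoImplicit false

namespace Pool.Agent.H4G

open MatrixGroups

theorem exit_lat {n x s e j α β : ℤ} (hs : s = 1 ∨ s = -1) (hab : α * j - β * (s * e) = 1) :
    lat (-(x * (s * e) + j * n), -(s * e)) (α * x + β * n, α) = Lc n 1 (-x) ∧
    lat (-(x * (s * e) + j * n), -(s * e)) ((α * x + β * n, α) + s • (1, 0)) =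
      Lc (n - e) 1 (-(x + s * j)) := by
  have hs2 : s * s = 1 := by rcases hs with rfl | rfl <;> norm_num
  constructor
  · apply le_antisymm
    · rw [AddSubgroup.closure_le]
      rintro w (rfl | rfl)
      · change n ∣ 1 * -(x * (s * e) + j * n) + -x * -(s * e)
        exact ⟨-j, by ring⟩
      · change n ∣ 1 * (α * x + β * n) + -x * α
        exact ⟨β, by ring⟩
    · intro w hw
      rw [mem_Lc] at hw
      obtain ⟨m, hm⟩ := hw
      refine mem_lat.2 ⟨β * w.2 - α * m, j * w.2 - s * e * m, ?_⟩
      ext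
      · simp only [Prod.fst_add, Prod.smul_fst, smul_eq_mul]
        linear_combination (x * w.2 + n * m) * hab - hm
      · simp only [Prod.snd_add, Prod.smul_snd, smul_eq_mul]
        linear_combination w.2 * hab
  · have e0 : ((α * x + β * n, α) + s • (1, 0) : Z2) = (α * x + β * n + s, α) := by
      ext <;> simp
    rw [e0]
    apply le_antisymm
    · rw [AddSubgroup.closure_le]
      rintro w (rfl | rfl)
      · change n - e ∣ 1 * -(x * (s * e) + j * n) + -(x + s * j) * -(s * e)
        exact ⟨-j, by linear_combination (j * e) * hs2⟩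
      · change n - e ∣ 1 * (α * x + β * n + s) + -(x + s * j) * α
        exact ⟨β, by linear_combination (-s) * hab - (β * e) * hs2⟩
    · intro w hw
      rw [mem_Lc] at hw
      obtain ⟨m, hm⟩ := hw
      refine mem_lat.2 ⟨β * w.2 - α * m, j * w.2 - s * e * m, ?_⟩
      ext
      · simp only [Prod.fst_add, Prod.smul_fst, smul_eq_mul]
        linear_combination (x * w.2 + n * m) * hab - (e * m) * hs2 - hm
      · simp only [Prod.snd_add, Prod.smul_snd, smul_eq_mul]
        linear_combination w.2 * hab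

/-- THE GENERAL RIGHT EXIT from a state with `c = 1`, and landing on the left. -/
theorem KC.exitJ {a p q a' x s e j k X Y : ℤ} (ha : 0 < a) (h : Prm a p q)
    (hok : (KC a p q a' 1 (-x)).Ok) (hs : s = 1 ∨ s = -1) (he : 0 ≤ e)
    (hk : k = x * (s * e) + j * a') (hek : e < k) (hka : k ≤ a') (hc : IsCoprime e j)
    (hP : a ∣ p * X - q * Y) (hXY : X * (1 + e) + s * Y * (1 + k) = 1) (hY : 0 < Y)
    (hYa : Y ≤ a) :
    SEq (KC a p q a' 1 (-x)) (KC (a + e) (Y + e) 1 (a' - e)
      (X + s * Y - e * (x + s * (j - 1))) (-(x + s * (j - 1)))) := by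
  have hs2 : s * s = 1 := by rcases hs with rfl | rfl <;> norm_num
  obtain ⟨β0, α, hab0⟩ := hc
  -- `β0 e + α j = 1`
  have hab : α * j - (-(s * β0)) * (s * e) = 1 := by
    linear_combination hab0 + (β0 * e) * hs2
  obtain ⟨h1, h2⟩ := exit_lat (n := a') (x := x) hs hab
  rw [← hk] at h1 h2
  have hk0 : 0 < k := lt_of_le_of_lt he hek
  unfold KC KS at hok
  rw [← h1] at hok
  have c1 : cr ((0, 1) : Z2) (-k, -(s * e)) = k := by simp only [cr]; ring
  have c2 : cr ((1, 0) : Z2) (-k, -(s * e)) = -(s * e) := by simp only [cr]; ring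
  have c3 : cr ((1, 0) : Z2) (0, 1) = 1 := by simp only [cr]; ring
  have c0 : cr ((α * x + -(s * β0) * a', α) : Z2) (-k, -(s * e)) = a' := by
    simp only [cr]; rw [hk]; linear_combination a' * hab
  -- the exit
  have m1 : SEq ⟨Lc a p q, (1, 0), (0, 1), Lc a' 1 (-x)⟩
      ⟨Lc a p q, (1, 0), (s * (1 + k), 1 + e), Lc (a' - e) 1 (-(x + s * j))⟩ := by
    rcases hs with rfl | rfl
    · have m := SEq.mMinus' hok (by rw [c1]; exact hk0) (by rw [c1, c0]; exact hka)
        (by rw [c1, c2]; linarith) (by rw [c2, c3]; linarith)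
      have e3 : ((0, 1) + (1, 0) - (-k, -(1 * e)) : Z2) = (1 * (1 + k), 1 + e) := by
        ext
        · simp
        · simp
      rw [one_smul] at h2
      rw [e3, h1, h2] at m
      exact m
    · have m := SEq.mPlus' hok (by rw [c1]; exact hk0) (by rw [c1, c0]; exact hka)
        (by rw [c2, c3]; linarith) (by rw [c1, c2]; linarith)
      have e3 : ((0, 1) - (1, 0) + (-k, -(-1 * e)) : Z2) = (-1 * (1 + k), 1 + e) := by
        ext
        · simp; ring
        · simp
      have e4 : ((α * x + -(-1 * β0) * a', α) - (1, 0) : Z2) =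
          (α * x + -(-1 * β0) * a', α) + (-1 : ℤ) • (1, 0) := by
        ext <;> simp [sub_eq_add_neg]
      rw [e3, e4, h1, h2] at m
      exact m
  have m2 := SEq.landC ha h m1.ok' he rfl hP (by simp only; linear_combination hXY) hY hYa
  have m3 := m1.trans m2
  have e6 : KC (a + e) (Y + e) 1 (a' - e)
      (1 * (X + (Y + e) * (s * (1 + k))) + -(x + s * j) * (-Y + (Y + e) * (1 + e)))
      (1 * (s * (1 + k)) + -(x + s * j) * (1 + e)) =
      KC (a + e) (Y + e) 1 (a' - e) (X + s * Y - e * (x + s * (j - 1)))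
        (-(x + s * (j - 1))) := by
    refine KC.congr (by simp) (by simp) ?_ ?_
    · refine ⟨-((Y + e) * s * j), ?_⟩
      rw [hk]
      linear_combination (-(Y + e) * x * e) * hs2
    · refine ⟨-(s * j), ?_⟩
      rw [hk]
      linear_combination (-(x * e)) * hs2
  simp only at m3
  rw [e6] at m3
  exact m3

end Pool.Agent.H4G
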