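import Pool.Agent.H4G.Ctwo.Jump

/-!
# Explicit exits (helper31)

`KC.expR`: exit on the right from `M = {X = ξ Y mod a'}` with `l = (-k, e)`, `k = a' - ξ e`;
`KC.expT`: exit on the right from `M = {Y = 2 X mod a'}` with `l = (-k, e)`, `k = (a' - e)/2`.
-/

set_option autoImplicit false

namespace Pool.Agent.H4G

open MatrixGroups

/-- landing on the left, the right lattice in congruence form -/
theorem SEq.landC {a p q n p1 q1 : ℤ} (ha : 0 < a) (h : Prm a p q) {v1 : Z2} {e X Y : ℤ}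
    (hok : PSt.Ok ⟨Lc a p q, (1, 0), v1, Lc n p1 q1⟩) (he : 0 ≤ e) (hv : v1.2 = 1 + e)
    (hP : a ∣ p * X - q * Y) (hXY : X * (1 + e) + Y * v1.1 = 1) (hY : 0 < Y) (hYa : Y ≤ a) :
    SEq ⟨Lc a p q, (1, 0), v1, Lc n p1 q1⟩
      (KC (a + e) (Y + e) 1 n (p1 * (X + (Y + e) * v1.1) + q1 * (-Y + (Y + e) * v1.2))
        (p1 * v1.1 + q1 * v1.2)) := by
  have hPv : cr (X, -Y) v1 = 1 := by
    simp only [cr]; rw [hv]; linear_combination hXY
  have hcop : IsCoprime X Y := ⟨1 + e, v1.1, by linear_combination hXY⟩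
  -- the left lattice
  have hL : Lc a p q = lat (-(X, -Y)) (a • v1) := by
    have e1 := h.eq_Lc_cr ha (d := -X) (k := Y) hcop.neg_left
      (by have : p * -X + q * Y = -(p * X - q * Y) := by ring
          rw [this]; exact (dvd_neg).2 hP)
    rw [e1, lat_eq_Lc_cr (l := -(X, -Y)) (n := a)]
    · simp
    · simpa using hcop.neg_left
    · rw [cr_neg_right, cr_smul_left, cr_swap v1, hPv]; ring
  have hu : ((1, 0) : Z2) = (1 + e) • (X, -Y) + Y • v1 := by
    ext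
    · simp only [Prod.fst_add, Prod.smul_fst, smul_eq_mul]; linear_combination -hXY
    · simp only [Prod.snd_add, Prod.smul_snd, smul_eq_mul]; rw [hv]; ring
  obtain ⟨m, rfl⟩ := Int.eq_ofNat_of_zero_le he
  rw [hL, hu] at hok
  have k1 := SEq.nodeL hPv m hY hYa hok
  rw [← hu, ← hL] at k1
  refine k1.trans ?_
  have hbase : cr ((X, -Y) + (Y + (m : ℤ)) • v1) v1 = 1 := by
    rw [cr_add_left, cr_smul_left, cr_self, hPv]; ring
  have e2 : lat (-(X, -Y)) ((a + (m : ℤ)) • v1) = Lc (a + m) (-Y) (-X) := by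
    rw [lat_eq_Lc_cr (l := -(X, -Y)) (n := a + m)]
    · simp
    · simpa using hcop.neg_left
    · rw [cr_neg_right, cr_smul_left, cr_swap v1, hPv]; ring
  have k2 := k1.ok'
  rw [e2] at k2 ⊢
  have k3 := KC.base hbase k2
  have e4 : ∀ z : Z2, -Y * z.1 + -X * z.2 = cr (-(X, -Y)) z := by
    intro z; simp only [cr, Prod.fst_neg, Prod.snd_neg]; ring
  rw [e4, e4] at k3
  have f1 : cr (-(X, -Y)) ((X, -Y) + (Y + (m : ℤ)) • v1) = -1 * (Y + m) := by
    rw [cr_neg_left, cr_add_right, cr_smul_right, cr_self, hPv]; ring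
  have f2 : cr (-(X, -Y)) v1 = -1 * 1 := by rw [cr_neg_left, hPv]; ring
  rw [f1, f2, KC.unit (isCoprime_one_right.neg_right)] at k3
  exact k3

/-- the lattice `X = ξ Y mod n` -/
theorem exp_lat (n ξ e : ℤ) : lat (-(n - ξ * e), e) (ξ, 1) = Lc n 1 (-ξ) := by
  apply le_antisymm
  · rw [AddSubgroup.closure_le]
    rintro x (rfl | rfl)
    · change n ∣ 1 * -(n - ξ * e) + -ξ * e
      exact ⟨-1, by ring⟩
    · change n ∣ 1 * ξ + -ξ * 1
      exact ⟨0, by ring⟩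
  · intro w hw
    rw [mem_Lc] at hw
    obtain ⟨j, hj⟩ := hw
    refine mem_lat.2 ⟨-j, w.2 + j * e, ?_⟩
    ext
    · simp only [Prod.fst_add, Prod.smul_fst, smul_eq_mul]
      linear_combination -hj
    · simp only [Prod.snd_add, Prod.smul_snd, smul_eq_mul]
      ring

/-- EXPLICIT RIGHT EXIT from the class `ξ` and landing on the left. -/
theorem KC.expR {a p q a' ξ e X Y : ℤ} (ha : 0 < a) (h : Prm a p q)
    (hok : (KC a p q a' 1 (-ξ)).Ok) (hξ : 0 ≤ ξ) (he : 0 ≤ e) (hek : e < a' - ξ * e)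
    (hP : a ∣ p * X - q * Y) (hXY : X * (1 + e) - Y * (1 + (a' - ξ * e)) = 1) (hY : 0 < Y)
    (hYa : Y ≤ a) :
    SEq (KC a p q a' 1 (-ξ)) (KC (a + e) (Y + e) 1 (a' - e) (X - Y - ξ * e) (-ξ)) := by
  have hk : 0 < a' - ξ * e := lt_of_le_of_lt he hek
  unfold KC KS at hok
  have hM := exp_lat a' ξ e
  rw [← hM] at hok
  have c1 : cr ((0, 1) : Z2) (-(a' - ξ * e), e) = a' - ξ * e := by simp only [cr]; ring
  have c2 : cr ((1, 0) : Z2) (-(a' - ξ * e), e) = e := by simp only [cr]; ring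
  have c3 : cr ((1, 0) : Z2) (0, 1) = 1 := by simp only [cr]; ring
  have c0 : cr ((ξ, 1) : Z2) (-(a' - ξ * e), e) = a' := by simp only [cr]; ring
  have m1 := SEq.mPlus' hok (by rw [c1]; exact hk)
    (by rw [c1, c0]; nlinarith) (by rw [c2, c3]; linarith) (by rw [c1, c2]; linarith)
  have e3 : ((0, 1) - (1, 0) + (-(a' - ξ * e), e) : Z2) = (-(1 + (a' - ξ * e)), 1 + e) := by
    ext
    · simp; ring
    · simp
  have e4 : ((ξ, 1) - (1, 0) : Z2) = (ξ - 1, 1) := by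
    ext <;> simp
  have e5 : lat (-(a' - ξ * e), e) (ξ - 1, 1) = Lc (a' - e) 1 (-(ξ - 1)) := by
    rw [← exp_lat (a' - e) (ξ - 1) e]
    have : a' - e - (ξ - 1) * e = a' - ξ * e := by ring
    rw [this]
  rw [e3, e4, e5, hM] at m1
  have m2 := SEq.landC ha h m1.ok' he rfl hP (by linear_combination hXY) hY hYa
  have m3 := m1.trans m2
  have e6 : KC (a + e) (Y + e) 1 (a' - e)
      (1 * (X + (Y + e) * -(1 + (a' - ξ * e))) + -(ξ - 1) * (-Y + (Y + e) * (1 + e)))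
      (1 * -(1 + (a' - ξ * e)) + -(ξ - 1) * (1 + e)) =
      KC (a + e) (Y + e) 1 (a' - e) (X - Y - ξ * e) (-ξ) := by
    refine KC.congr (by simp) (by simp) ?_ ?_
    · exact ⟨Y + e, by ring⟩
    · exact ⟨1, by ring⟩
  simp only at m3
  rw [e6] at m3
  exact m3

/-- the lattice `Y = 2 X mod 2 k + e` -/
theorem exp_latT (k e : ℤ) : lat (-k, e) (1, 2) = Lc (2 * k + e) 2 (-1) := by
  apply le_antisymm
  · rw [AddSubgroup.closure_le]
    rintro x (rfl | rfl)
    · change 2 * k + e ∣ 2 * -k + -1 * e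
      exact ⟨-1, by ring⟩
    · change 2 * k + e ∣ 2 * 1 + -1 * 2
      exact ⟨0, by ring⟩
  · intro w hw
    rw [mem_Lc] at hw
    obtain ⟨j, hj⟩ := hw
    refine mem_lat.2 ⟨-j, w.1 - k * j, ?_⟩
    ext
    · simp only [Prod.fst_add, Prod.smul_fst, smul_eq_mul]
      ring
    · simp only [Prod.snd_add, Prod.smul_snd, smul_eq_mul]
      linear_combination hj

/-- the lattice `k ℤ × 2 ℤ`, `k` odd, `e` even -/
theorem exp_latT' {k e : ℤ} (hk : ¬ (2 : ℤ) ∣ k) (he : (2 : ℤ) ∣ e) :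
    lat (-k, e) (0, 2) = Lc (2 * k) 2 k := by
  obtain ⟨f, rfl⟩ := he
  have hc : IsCoprime (2 : ℤ) k := (Prime.coprime_iff_not_dvd Int.prime_two).2 hk
  apply le_antisymm
  · rw [AddSubgroup.closure_le]
    rintro x (rfl | rfl)
    · change 2 * k ∣ 2 * -k + k * (2 * f)
      exact ⟨f - 1, by ring⟩
    · change 2 * k ∣ 2 * 0 + k * 2
      exact ⟨1, by ring⟩
  · intro w hw
    rw [mem_Lc] at hw
    have h1 : k ∣ w.1 := by
      have h2 : k ∣ 2 * w.1 :=
        (dvd_add_left (dvd_mul_right k w.2)).1 ((Dvd.intro_left 2 rfl).trans hw)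
      exact hc.symm.dvd_of_dvd_mul_left h2
    have h3 : (2 : ℤ) ∣ w.2 := by
      have h4 : (2 : ℤ) ∣ k * w.2 :=
        (dvd_add_right (dvd_mul_right 2 w.1)).1 ((dvd_mul_right 2 k).trans hw)
      exact hc.dvd_of_dvd_mul_left h4
    obtain ⟨i, hi⟩ := h1
    obtain ⟨j, hj⟩ := h3
    refine mem_lat.2 ⟨-i, j + i * f, ?_⟩
    ext
    · simp only [Prod.fst_add, Prod.smul_fst, smul_eq_mul]
      rw [hi]; ring
    · simp only [Prod.snd_add, Prod.smul_snd, smul_eq_mul]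
      rw [hj]; ring

/-- EXPLICIT RIGHT EXIT from `Y = 2 X mod a'`, `a' = 2 k + e`, and landing on the left. -/
theorem KC.expT {a p q k e X Y : ℤ} (ha : 0 < a) (h : Prm a p q)
    (hok : (KC a p q (2 * k + e) 2 (-1)).Ok) (hk2 : ¬ (2 : ℤ) ∣ k) (he2 : (2 : ℤ) ∣ e)
    (he : 0 ≤ e) (hek : e < k) (hP : a ∣ p * X - q * Y) (hXY : X * (1 + e) - Y * (1 + k) = 1)
    (hY : 0 < Y) (hYa : Y ≤ a) :
    SEq (KC a p q (2 * k + e) 2 (-1)) (KC (a + e) (Y + e) 1 (2 * k)
      (2 * (X + (Y + e) * -(1 + k)) + k * (-Y + (Y + e) * (1 + e)))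
      (2 * -(1 + k) + k * (1 + e))) := by
  have hk : 0 < k := lt_of_le_of_lt he hek
  unfold KC KS at hok
  have hM := exp_latT k e
  rw [← hM] at hok
  have c1 : cr ((0, 1) : Z2) (-k, e) = k := by simp only [cr]; ring
  have c2 : cr ((1, 0) : Z2) (-k, e) = e := by simp only [cr]; ring
  have c3 : cr ((1, 0) : Z2) (0, 1) = 1 := by simp only [cr]; ring
  have c0 : cr ((1, 2) : Z2) (-k, e) = 2 * k + e := by simp only [cr]; ring
  have m1 := SEq.mPlus' hok (by rw [c1]; exact hk)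
    (by rw [c1, c0]; linarith) (by rw [c2, c3]; linarith) (by rw [c1, c2]; linarith)
  have e3 : ((0, 1) - (1, 0) + (-k, e) : Z2) = (-(1 + k), 1 + e) := by
    ext
    · simp; ring
    · simp
  have e4 : ((1, 2) - (1, 0) : Z2) = (0, 2) := by
    ext <;> simp
  rw [e3, e4, exp_latT' hk2 he2, hM] at m1
  have m2 := SEq.landC ha h m1.ok' he rfl hP (by linear_combination hXY) hY hYa
  exact m1.trans m2

end Pool.Agent.H4G
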