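import Pool.Agent.H4G.Arith.KLev

/-!
# Jumps: an exit on one side followed by the landing on the other side, in closed form (helper31)

`KC.jumpR`: exit on the right with the vector `l = (-h, -s e)`, landing on the left with the vector
`P = (X, -Y)` of the left lattice, in congruence form. `KC.jumpL` is the mirror.
-/

set_option autoImplicit false

namespace Pool.Agent.H4G

open MatrixGroups

/-- LANDING on the left: `L = ⟨-p, a v⟩`, `cr p v = 1`, `u = (1 + e) p + Y v`, `0 < Y ≤ a`. -/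
theorem SEq.nodeL {p v : Z2} {L' : AddSubgroup Z2} (hpv : cr p v = 1) (e : ℕ) : ∀ {a Y : ℤ},
    0 < Y → Y ≤ a → PSt.Ok ⟨lat (-p) (a • v), (1 + (e : ℤ)) • p + Y • v, v, L'⟩ →
    SEq ⟨lat (-p) (a • v), (1 + (e : ℤ)) • p + Y • v, v, L'⟩
      ⟨lat (-p) ((a + e) • v), p + (Y + e) • v, v, L'⟩ := by
  have hvp : cr v p = -1 := by rw [cr_swap v p, hpv]
  induction e with
  | zero =>
    intro a Y hY hYa hok
    have e1 : (1 + ((0 : ℕ) : ℤ)) • p + Y • v = p + (Y + ((0 : ℕ) : ℤ)) • v := by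
      push_cast; module
    have e2 : a + ((0 : ℕ) : ℤ) = a := by push_cast; ring
    rw [e2, ← e1]
    exact hok.seq
  | succ n ih =>
    intro a Y hY hYa hok
    have h1 : cr ((1 + ((n + 1 : ℕ) : ℤ)) • p + Y • v) (-p) = Y := by
      rw [cr_neg_right, cr_add_left, cr_smul_left, cr_smul_left, cr_self, hvp]; ring
    have h2 : cr (a • v) (-p) = a := by
      rw [cr_neg_right, cr_smul_left, hvp]; ring
    have h3 : cr ((1 + ((n + 1 : ℕ) : ℤ)) • p + Y • v) v = 2 + n := by
      rw [cr_add_left, cr_smul_left, cr_smul_left, cr_self, hpv]; push_cast; ring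
    have h4 : cr (-p) v = -1 := by rw [cr_neg_left, hpv]
    have hn : (0 : ℤ) ≤ n := Int.natCast_nonneg n
    have m := SEq.mPlus hok (by rw [h1]; exact hY) (by rw [h1, h2]; exact hYa)
      (by rw [h3, h4]; linarith) (by rw [h1, h4]; linarith)
    have e1 : a • v + v = (a + 1) • v := by module
    have e2 : (1 + ((n + 1 : ℕ) : ℤ)) • p + Y • v + v + -p = (1 + (n : ℤ)) • p + (Y + 1) • v := by
      push_cast; module
    rw [e1, e2] at m
    have k := ih (a := a + 1) (Y := Y + 1) (by linarith) (by linarith) m.ok'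
    have e3 : a + 1 + (n : ℤ) = a + ((n + 1 : ℕ) : ℤ) := by push_cast; ring
    have e4 : Y + 1 + (n : ℤ) = Y + ((n + 1 : ℕ) : ℤ) := by push_cast; ring
    rw [e3, e4] at k
    exact m.trans k

/-- The matrix of the base change `w ↦ (cr w v, cr u w)`. -/
def bcM (u v : Z2) (h : cr u v = 1) : SL(2, ℤ) :=
  ⟨!![v.2, -v.1; -u.2, u.1], by
    rw [Matrix.det_fin_two_of]
    simp only [cr] at h
    linarith⟩

theorem act_bcM {u v : Z2} (h : cr u v = 1) (w : Z2) : act (bcM u v h) w = (cr w v, cr u w) := by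
  rw [act_apply]
  simp only [bcM, cr]
  ext
  · simp; ring
  · simp; ring

theorem map_bcM_Lc {u v : Z2} (h : cr u v = 1) (n p q : ℤ) : (Lc n p q).map (act (bcM u v h)) =
    Lc n (p * u.1 + q * u.2) (p * v.1 + q * v.2) := by
  ext w
  rw [AddSubgroup.mem_map]
  constructor
  · rintro ⟨x, hx, rfl⟩
    rw [mem_Lc] at hx ⊢
    rw [act_bcM]
    have : (p * u.1 + q * u.2) * (cr x v) + (p * v.1 + q * v.2) * (cr u x) =
        (p * x.1 + q * x.2) * cr u v := by
      simp only [cr]; ring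
    simp only
    rw [this, h, mul_one]
    exact hx
  · intro hw
    refine ⟨w.1 • u + w.2 • v, ?_, ?_⟩
    · rw [mem_Lc] at hw ⊢
      have : p * (w.1 • u + w.2 • v).1 + q * (w.1 • u + w.2 • v).2 =
          (p * u.1 + q * u.2) * w.1 + (p * v.1 + q * v.2) * w.2 := by
        simp only [Prod.fst_add, Prod.snd_add, Prod.smul_fst, Prod.smul_snd, smul_eq_mul]; ring
      rw [this]; exact hw
    · rw [act_bcM]
      have h' : cr v u = -1 := by rw [cr_swap v u, h]
      ext
      · simp only [cr_add_left, cr_smul_left, cr_self, h]; ring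
      · simp only [cr_add_right, cr_smul_right, cr_self, h]; ring

/-- BASE CHANGE: a state with `cr u v = 1` in congruence form -/
theorem KC.base {u v : Z2} (h : cr u v = 1) {n p q n' p' q' : ℤ}
    (hok : PSt.Ok ⟨Lc n p q, u, v, Lc n' p' q'⟩) :
    SEq ⟨Lc n p q, u, v, Lc n' p' q'⟩
      (KC n (p * u.1 + q * u.2) (p * v.1 + q * v.2) n' (p' * u.1 + q' * u.2)
        (p' * v.1 + q' * v.2)) := by
  have h1 := SEq.act (bcM u v h) hok
  unfold PSt.act at h1
  simp only [map_bcM_Lc, act_bcM, cr_self, h] at h1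
  exact h1

/-- a lattice with a primitive basis vector, in congruence form -/
theorem lat_eq_Lc_cr {l w : Z2} {n : ℤ} (hl : IsCoprime l.1 l.2) (h : cr w l = n) :
    lat l w = Lc n (-l.2) l.1 := by
  obtain ⟨α, β, hab⟩ := hl
  apply le_antisymm
  · rw [AddSubgroup.closure_le]
    rintro x (rfl | rfl)
    · change n ∣ -x.2 * x.1 + x.1 * x.2
      exact ⟨0, by ring⟩
    · change n ∣ -l.2 * x.1 + l.1 * x.2
      exact ⟨-1, by rw [← h]; simp only [cr]; ring⟩
  · intro x hx
    rw [mem_Lc] at hx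
    obtain ⟨m, hm⟩ := hx
    refine mem_lat.2 ⟨α * (x.1 + m * w.1) + β * (x.2 + m * w.2), -m, ?_⟩
    simp only [cr] at h
    have key : l.1 * (x.2 + m * w.2) - l.2 * (x.1 + m * w.1) = 0 := by
      linear_combination hm - m * h
    ext
    · simp only [Prod.fst_add, Prod.smul_fst, smul_eq_mul]
      linear_combination (x.1 + m * w.1) * hab + β * key
    · simp only [Prod.snd_add, Prod.smul_snd, smul_eq_mul]
      linear_combination (x.2 + m * w.2) * hab - α * key

/-- the primitive vector form of `Prm.basis`: a coprime vector of `Lc a p q` determines it -/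
theorem Prm.eq_Lc_cr {a p q : ℤ} (ha : 0 < a) (h : Prm a p q) {d k : ℤ} (hdk : IsCoprime d k)
    (hm : a ∣ p * d + q * k) : Lc a p q = Lc a (-k) d := by
  obtain ⟨m, hm⟩ := hm
  obtain ⟨p0, e1, e2⟩ := h.basis ha hm (fun l hl h1 h2 _ => not_dvd_of_isCoprime hdk hl h2 h1)
  rw [e1, lat_eq_Lc_cr (l := (d, k)) hdk e2]

/-- the part of `KC.jumpR` after the exit -/
theorem SEq.landL {a p q n : ℤ} (ha : 0 < a) (h : Prm a p q) {v1 l w : Z2} {e X Y : ℤ}
    (hok : PSt.Ok ⟨Lc a p q, (1, 0), v1, lat l w⟩) (he : 0 ≤ e) (hv : v1.2 = 1 + e)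
    (hl : IsCoprime l.1 l.2) (hw : cr w l = n) (hP : a ∣ p * X - q * Y)
    (hXY : X * (1 + e) + Y * v1.1 = 1) (hY : 0 < Y) (hYa : Y ≤ a) :
    SEq ⟨Lc a p q, (1, 0), v1, lat l w⟩
      (KC (a + e) (Y + e) 1 n (-(l.2 * X + l.1 * Y) + (Y + e) * cr l v1) (cr l v1)) := by
  have hPv : cr (X, -Y) v1 = 1 := by
    simp only [cr]; rw [hv]; linear_combination hXY
  have hcop : IsCoprime X Y := ⟨1 + e, v1.1, by linear_combination hXY⟩
  -- the left lattice
  have hL : Lc a p q = lat (-(X, -Y)) (a • v1) := by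
    have e1 := h.eq_Lc_cr ha (d := -X) (k := Y) hcop.neg_left
      (by have : p * -X + q * Y = -(p * X - q * Y) := by ring
          rw [this]; exact (dvd_neg).2 hP)
    rw [e1, lat_eq_Lc_cr (l := -(X, -Y)) (n := a)]
    · simp
    · simpa using hcop.neg_left
    · rw [cr_neg_right, cr_smul_left, cr_swap v1, hPv]; ring
  have hu : ((1, 0) : Z2) = (1 + e) • (X, -Y) + Y • v1 := by
    ext
    · simp only [Prod.fst_add, Prod.smul_fst, smul_eq_mul]; linear_combination -hXY
    · simp only [Prod.snd_add, Prod.smul_snd, smul_eq_mul]; rw [hv]; ring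
  obtain ⟨m, rfl⟩ := Int.eq_ofNat_of_zero_le he
  rw [hL, hu] at hok
  have k1 := SEq.nodeL hPv m hY hYa hok
  rw [← hu, ← hL] at k1
  refine k1.trans ?_
  have hbase : cr ((X, -Y) + (Y + (m : ℤ)) • v1) v1 = 1 := by
    rw [cr_add_left, cr_smul_left, cr_self, hPv]; ring
  have e2 : lat (-(X, -Y)) ((a + (m : ℤ)) • v1) = Lc (a + m) (-Y) (-X) := by
    rw [lat_eq_Lc_cr (l := -(X, -Y)) (n := a + m)]
    · simp
    · simpa using hcop.neg_left
    · rw [cr_neg_right, cr_smul_left, cr_swap v1, hPv]; ring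
  have e3 : lat l w = Lc n (-l.2) l.1 := lat_eq_Lc_cr hl hw
  have k2 := k1.ok'
  rw [e2, e3] at k2 ⊢
  have k3 := KC.base hbase k2
  have e4 : ∀ z : Z2, -Y * z.1 + -X * z.2 = cr (-(X, -Y)) z := by
    intro z; simp only [cr, Prod.fst_neg, Prod.snd_neg]; ring
  have e5 : ∀ z : Z2, -l.2 * z.1 + l.1 * z.2 = cr l z := by
    intro z; simp only [cr]; ring
  rw [e4, e4, e5, e5] at k3
  have f1 : cr (-(X, -Y)) ((X, -Y) + (Y + (m : ℤ)) • v1) = -1 * (Y + m) := by
    rw [cr_neg_left, cr_add_right, cr_smul_right, cr_self, hPv]; ring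
  have f2 : cr (-(X, -Y)) v1 = -1 * 1 := by rw [cr_neg_left, hPv]; ring
  have f3 : cr l ((X, -Y) + (Y + (m : ℤ)) • v1) =
      -(l.2 * X + l.1 * Y) + (Y + (m : ℤ)) * cr l v1 := by
    rw [cr_add_right, cr_smul_right]; simp only [cr]; ring
  rw [f1, f2, f3, KC.unit (isCoprime_one_right.neg_right)] at k3
  exact k3

/-- JUMP: exit on the right with `l = (-k, -s e)`, `s = ±1`, `0 ≤ e < k ≤ a'`, landing on the left
with `P = (X, -Y)`. -/
theorem KC.jumpR {a p q a' p' q' : ℤ} (ha : 0 < a) (ha' : 0 < a') (h : Prm a p q)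
    (h' : Prm a' p' q') (hok : (KC a p q a' p' q').Ok) {s e k X Y : ℤ} (hs : s = 1 ∨ s = -1)
    (he : 0 ≤ e) (hek : e < k) (hka : k ≤ a') (hc : IsCoprime e k)
    (hl : a' ∣ p' * k + q' * (s * e)) (hP : a ∣ p * X - q * Y)
    (hXY : X * (1 + e) + s * Y * (1 + k) = 1) (hY : 0 < Y) (hYa : Y ≤ a) :
    SEq (KC a p q a' p' q')
      (KC (a + e) (Y + e) 1 (a' - e) (k * Y + s * e * X + (Y + e) * (e - k)) (e - k)) := by
  have hcop : IsCoprime (-k) (-(s * e)) := by
    refine IsCoprime.neg_neg ?_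
    rcases hs with rfl | rfl
    · simpa using hc.symm
    · simpa using hc.symm.neg_right
  have hl' : a' ∣ p' * -k + q' * -(s * e) := by
    have : p' * -k + q' * -(s * e) = -(p' * k + q' * (s * e)) := by ring
    rw [this]; exact (dvd_neg).2 hl
  obtain ⟨m, hm⟩ := hl'
  obtain ⟨p0, e1, e2⟩ := h'.basis ha' hm
    (fun l hl h1 h2 _ => not_dvd_of_isCoprime hcop hl h2 h1)
  have hk : 0 < k := lt_of_le_of_lt he hek
  unfold KC KS at hok ⊢
  rw [e1] at hok ⊢
  rcases hs with rfl | rfl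
  · have c1 : cr ((0, 1) : Z2) (-k, -(1 * e)) = k := by simp only [cr]; ring
    have c2 : cr ((1, 0) : Z2) (-k, -(1 * e)) = -e := by simp only [cr]; ring
    have c3 : cr ((1, 0) : Z2) (0, 1) = 1 := by simp only [cr]; ring
    have m1 := SEq.mMinus' hok (by rw [c1]; exact hk) (by rw [c1, e2]; exact hka)
      (by rw [c1, c2]; linarith) (by rw [c2, c3]; linarith)
    have e3 : ((0, 1) + (1, 0) - (-k, -(1 * e)) : Z2) = (1 + k, 1 + e) := by
      ext
      · simp
      · simp
    rw [e3] at m1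
    have c4 : cr (p0 + (1, 0)) (-k, -(1 * e)) = a' - e := by rw [cr_add_left, e2, c2]; ring
    have m2 := SEq.landL ha h m1.ok' he rfl hcop c4 hP (by linear_combination hXY) hY hYa
    have m3 := m1.trans m2
    have c5 : cr ((-k, -(1 * e)) : Z2) (1 + k, 1 + e) = e - k := by simp only [cr]; ring
    rw [c5] at m3
    have c6 : -(-(1 * e) * X + -k * Y) + (Y + e) * (e - k) =
        k * Y + 1 * e * X + (Y + e) * (e - k) := by ring
    simp only at m3
    rw [c6] at m3
    exact m3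
  · have c1 : cr ((0, 1) : Z2) (-k, -(-1 * e)) = k := by simp only [cr]; ring
    have c2 : cr ((1, 0) : Z2) (-k, -(-1 * e)) = e := by simp only [cr]; ring
    have c3 : cr ((1, 0) : Z2) (0, 1) = 1 := by simp only [cr]; ring
    have m1 := SEq.mPlus' hok (by rw [c1]; exact hk) (by rw [c1, e2]; exact hka)
      (by rw [c2, c3]; linarith) (by rw [c1, c2]; linarith)
    have e3 : ((0, 1) - (1, 0) + (-k, -(-1 * e)) : Z2) = (-(1 + k), 1 + e) := by
      ext
      · simp; ring
      · simp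
    rw [e3] at m1
    have c4 : cr (p0 - (1, 0)) (-k, -(-1 * e)) = a' - e := by rw [cr_sub_left, e2, c2]
    have m2 := SEq.landL ha h m1.ok' he rfl hcop c4 hP (by linear_combination hXY) hY hYa
    have m3 := m1.trans m2
    have c5 : cr ((-k, -(-1 * e)) : Z2) (-(1 + k), 1 + e) = e - k := by simp only [cr]; ring
    rw [c5] at m3
    have c6 : -(-(-1 * e) * X + -k * Y) + (Y + e) * (e - k) =
        k * Y + -1 * e * X + (Y + e) * (e - k) := by ring
    simp only at m3
    rw [c6] at m3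
    exact m3

/-- JUMP, mirrored: exit on the left with `0 ≤ e < k ≤ a`, landing on the right. -/
theorem KC.jumpL {a p q a' p' q' : ℤ} (ha : 0 < a) (ha' : 0 < a') (h : Prm a p q)
    (h' : Prm a' p' q') (hok : (KC a p q a' p' q').Ok) {s e k X Y : ℤ} (hs : s = 1 ∨ s = -1)
    (he : 0 ≤ e) (hek : e < k) (hka : k ≤ a) (hc : IsCoprime e k)
    (hl : a ∣ q * k - p * (s * e)) (hP : a' ∣ q' * X + p' * Y)
    (hXY : X * (1 + e) + s * Y * (1 + k) = 1) (hY : 0 < Y) (hYa : Y ≤ a') :
    SEq (KC a p q a' p' q')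
      (KC (a - e) (k - e) (k * Y + s * e * X + (Y + e) * (e - k)) (a' + e) 1 (-(Y + e))) := by
  have m1 := KC.mirror hok
  have h1 : Prm a' q' (-p') := fun l hl h1 h2 h3 => h' l hl h1 ((dvd_neg).1 h3) h2
  have h2 : Prm a q (-p) := fun l hl h1 h2 h3 => h l hl h1 ((dvd_neg).1 h3) h2
  have m2 := KC.jumpR ha' ha h1 h2 m1.ok' hs he hek hka hc
    (by have : q * k + -p * (s * e) = q * k - p * (s * e) := by ring
        rw [this]; exact hl)
    (by have : q' * X - -p' * Y = q' * X + p' * Y := by ring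
        rw [this]; exact hP) hXY hY hYa
  have m3 := (m1.trans m2).trans (KC.mirror m2.ok')
  have e1 : KC (a - e) (e - k) (-(k * Y + s * e * X + (Y + e) * (e - k))) (a' + e) 1 (-(Y + e)) =
      KC (a - e) (k - e) (k * Y + s * e * X + (Y + e) * (e - k)) (a' + e) 1 (-(Y + e)) := by
    have := KC.unit (a := a - e) (p := k - e) (q := k * Y + s * e * X + (Y + e) * (e - k))
      (a' := a' + e) (p' := 1) (q' := -(Y + e)) (t := -1) isCoprime_one_right.neg_right
    rw [← this]
    congr 1 <;> ring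
  rw [e1] at m3
  exact m3

end Pool.Agent.H4G
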