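import Pool.Agent.H4G.Ctwo.G1
import Pool.Agent.H4G.Ctwo.Jump
import Pool.Agent.H4G.Arith.LMove

/-!
# State glue for the K-level (helper98)

`KC.exitK` : an exit on the left with any primitive vector `(s e, h)`, followed by the landing on the
right, with the new left lattice known; `KC.Vchoose` : the V-twist before the exit;
`KS.Hchoose` : `d = 1` and content `1` after the landing; `KC.exitL` : the composition.
-/

set_option autoImplicit false

open scoped MatrixGroups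

namespace Pool.Agent.H4G

/-! ## The exit -/

/-- the lattice with area diminished: `l = (d, k)`, `v = (0, 1)` -/
theorem Lc_exit {a p q s e h m : ℤ} (ha0 : a ≠ 0) (ha : 0 < a - e) (hs : s = 1 ∨ s = -1)
    (hm : p * (s * e) + q * h = a * m)
    (hprim : ∀ l : ℕ, l.Prime → (l : ℤ) ∣ e → (l : ℤ) ∣ h → ¬ (l : ℤ) ∣ m)
    (h1 : Prm (a - e) (p - s * m) q) {p0 : Z2} (hp0 : p0 ∈ Lc a p q) (hcr : cr p0 (s * e, h) = a) :
    lat (s * e, h) (p0 + s • ((0, 1) : Z2)) = Lc (a - e) (p - s * m) q := by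
  have hss : s * s = 1 := by rcases hs with rfl | rfl <;> norm_num
  have hm' : (p - s * m) * (s * e) + q * h = (a - e) * m := by
    linear_combination hm - m * e * hss
  have hse : ∀ l : ℕ, (l : ℤ) ∣ s * e → (l : ℤ) ∣ e := by
    intro l hl
    have : e = s * (s * e) := by linear_combination (-e) * hss
    rw [this]; exact hl.mul_left _
  obtain ⟨w, e1, e2⟩ := h1.basis ha hm' (fun l hl k1 k2 => hprim l hl (hse l k1) k2)
  -- `p0 + s v` lies in the new lattice
  rw [mem_Lc] at hp0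
  obtain ⟨n, hn⟩ := hp0
  have hcr' : p0.1 * h - p0.2 * (s * e) = a := hcr
  have hmem : p0 + s • ((0, 1) : Z2) ∈ Lc (a - e) (p - s * m) q := by
    rw [mem_Lc]
    have hq : q = m * p0.1 - n * (s * e) := by
      apply mul_left_cancel₀ ha0
      linear_combination (-q) * hcr' + p0.1 * hm - (s * e) * hn
    refine ⟨n, ?_⟩
    simp only [Prod.fst_add, Prod.snd_add, Prod.smul_fst, Prod.smul_snd, smul_eq_mul, mul_zero,
      add_zero, mul_one]
    linear_combination hn + s * hq - n * e * hss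
  rw [e1] at hmem ⊢
  obtain ⟨α, β, hab⟩ := mem_lat.1 hmem
  have hβ : β = 1 := by
    have k1 : cr (p0 + s • ((0, 1) : Z2)) (s * e, h) = a - e := by
      rw [cr_add_left, hcr, cr_smul_left]
      simp only [cr]
      linear_combination (-e) * hss
    rw [← hab, cr_add_left, cr_smul_left, cr_smul_left, cr_self, e2, mul_zero, zero_add] at k1
    have : β * (a - e) = 1 * (a - e) := by rw [k1, one_mul]
    exact mul_right_cancel₀ ha.ne' this
  rw [← hab, hβ, one_smul, add_comm, lat_add_smul]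

/-- EXIT on the left with the primitive vector `(s e, h)` of `L = Lc a p q` -/
theorem exitG {a p q s e h m : ℤ} (hs : s = 1 ∨ s = -1) (he : 0 ≤ e) (heh : e < h) (hha : h ≤ a)
    (hm : p * (s * e) + q * h = a * m)
    (hprim : ∀ l : ℕ, l.Prime → (l : ℤ) ∣ e → (l : ℤ) ∣ h → ¬ (l : ℤ) ∣ m)
    (h0 : Prm a p q) (h1 : Prm (a - e) (p - s * m) q) {M : AddSubgroup Z2}
    (hok : (KS (Lc a p q) M).Ok) :
    SEq (KS (Lc a p q) M) ⟨Lc (a - e) (p - s * m) q, (1 + e, s * (1 + h)), (0, 1), M⟩ := by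
  have ha : 0 < a := by linarith
  have hss : s * s = 1 := by rcases hs with rfl | rfl <;> norm_num
  have hse : ∀ l : ℕ, (l : ℤ) ∣ s * e → (l : ℤ) ∣ e := by
    intro l hl
    have : e = s * (s * e) := by linear_combination (-e) * hss
    rw [this]; exact hl.mul_left _
  obtain ⟨p0, e1, e2⟩ := h0.basis ha hm (fun l hl k1 k2 => hprim l hl (hse l k1) k2)
  have hp0 : p0 ∈ Lc a p q := by
    rw [e1]; exact mem_lat.2 ⟨0, 1, by module⟩
  have hnew := Lc_exit ha.ne' (by linarith) hs hm hprim h1 hp0 e2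
  have hok' := hok
  unfold KS at hok' ⊢
  rw [e1] at hok' ⊢
  rcases hs with rfl | rfl
  · have m1 := SEq.mPlus hok' (by simp [cr]; linarith) (by rw [e2]; simp [cr]; exact hha)
      (by simp [cr]; linarith) (by simp [cr]; linarith)
    have f2 : ((1, 0) + (0, 1) + (1 * e, h) : Z2) = (1 + e, 1 * (1 + h)) := by
      ext <;> simp
    have f1 : p0 + (0, 1) = p0 + (1 : ℤ) • ((0, 1) : Z2) := by rw [one_smul]
    rw [f2, f1, hnew] at m1
    exact m1
  · have m1 := SEq.mMinus hok' (by simp [cr]; linarith) (by rw [e2]; simp [cr]; exact hha)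
      (by simp [cr]; linarith) (by simp [cr]; linarith)
    have f2 : ((1, 0) - (0, 1) - (-1 * e, h) : Z2) = (1 + e, -1 * (1 + h)) := by
      ext <;> simp; ring
    have f1 : p0 - (0, 1) = p0 + (-1 : ℤ) • ((0, 1) : Z2) := by
      rw [neg_smul, one_smul, sub_eq_add_neg]
    rw [f2, f1, hnew] at m1
    exact m1

/-! ## The landing -/

/-- LANDING on the right: `A = 1 + e`, `c ∣ e`; the left lattice and `u` stay, `A` becomes `1` -/
theorem landR {n p q e c a' : ℤ} {u v : Z2} {M : AddSubgroup Z2} (hok : PSt.Ok ⟨Lc n p q, u, v, M⟩)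
    (hA : cr u v = 1 + e) (ha' : IsArea M a') (hc : IsC M u c) (hce : c ∣ e) :
    ∃ (v1 : Z2) (M' : AddSubgroup Z2), cr u v1 = 1 ∧
      SEq ⟨Lc n p q, u, v, M⟩ (KS (Lc n (p * u.1 + q * u.2) (p * v1.1 + q * v1.2)) M') ∧
      IsArea M' (a' + e) ∧ IsC M' (1, 0) c := by
  obtain ⟨v1, L1, θ, k1, k2, k3, k4, k5, k6, k7, k8⟩ := SEq.node _ rfl hok ha' hc
  have hθ : θ = e := by
    obtain ⟨m, hm⟩ := hce
    obtain ⟨n, hn⟩ := k3
    have hc0 := hc.1
    rw [hA] at k4
    have h9 : 0 < 1 + c * m - c * n := by rw [← hm, ← hn]; linarith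
    have h10 : 1 + c * m - c * n ≤ c := by rw [← hm, ← hn]; linarith
    have h11 : m = n := by
      by_contra hne
      rcases lt_or_gt_of_ne hne with h | h
      · have : c * (m + 1) ≤ c * n := mul_le_mul_of_nonneg_left (by omega) hc0.le
        nlinarith
      · have : c * (n + 1) ≤ c * m := mul_le_mul_of_nonneg_left (by omega) hc0.le
        nlinarith
    rw [hn, hm, h11]
  rw [hθ] at k4 k7
  have h1 : cr u v1 = 1 := by rw [k4, hA]; ring
  have h2 := SEq.act (bcM u v1 h1) k1.ok'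
  unfold PSt.act at h2
  simp only [map_bcM_Lc, act_bcM, cr_self, h1] at h2
  refine ⟨v1, L1.map (act (bcM u v1 h1)), h1, k1.trans h2, k7.act _, ?_⟩
  have h3 := k8.act (bcM u v1 h1)
  rw [act_bcM, h1, cr_self] at h3
  exact h3

theorem Prm.base {n p q : ℤ} (h : Prm n p q) {u v : Z2} (huv : cr u v = 1) :
    Prm n (p * u.1 + q * u.2) (p * v.1 + q * v.2) := by
  intro l hl h1 h2 h3
  simp only [cr] at huv
  refine h l hl h1 ?_ ?_
  · have : p = (p * u.1 + q * u.2) * v.2 - (p * v.1 + q * v.2) * u.2 := by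
      linear_combination (-p) * huv
    rw [this]
    exact dvd_sub (h2.mul_right _) (h3.mul_right _)
  · have : q = (p * v.1 + q * v.2) * u.1 - (p * u.1 + q * u.2) * v.1 := by
      linear_combination (-q) * huv
    rw [this]
    exact dvd_sub (h3.mul_right _) (h2.mul_right _)

/-- EXIT AND LANDING: the new left lattice is `Lc (a - e) (p + s (q - m)) q1`. -/
theorem KC.exitK {a p q s e h m c a' : ℤ} (hs : s = 1 ∨ s = -1) (he : 0 ≤ e) (heh : e < h)
    (hha : h ≤ a) (hm : p * (s * e) + q * h = a * m)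
    (hprim : ∀ l : ℕ, l.Prime → (l : ℤ) ∣ e → (l : ℤ) ∣ h → ¬ (l : ℤ) ∣ m)
    (h0 : Prm a p q) (h1 : Prm (a - e) (p - s * m) q) {M : AddSubgroup Z2} (ha' : IsArea M a')
    (hc : IsC M (1 + e, s * (1 + h)) c) (hce : c ∣ e) (hok : (KS (Lc a p q) M).Ok) :
    ∃ (q1 : ℤ) (M' : AddSubgroup Z2), Prm (a - e) (p + s * (q - m)) q1 ∧
      SEq (KS (Lc a p q) M) (KS (Lc (a - e) (p + s * (q - m)) q1) M') ∧
      IsArea M' (a' + e) ∧ IsC M' (1, 0) c := by
  have hss : s * s = 1 := by rcases hs with rfl | rfl <;> norm_num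
  have k1 := exitG hs he heh hha hm hprim h0 h1 hok
  obtain ⟨v1, M', k2, k3, k4, k5⟩ := landR (e := e) k1.ok' (by simp [cr]) ha' hc hce
  have hB := h1.base k2
  have e1 : a - e ∣ p + s * (q - m) - ((p - s * m) * (1 + e) + q * (s * (1 + h))) := by
    refine ⟨-(s * m), ?_⟩
    linear_combination (-s) * hm + p * e * hss
  have e2 : a - e ∣ ((p - s * m) * v1.1 + q * v1.2) - ((p - s * m) * v1.1 + q * v1.2) :=
    ⟨0, by ring⟩
  refine ⟨(p - s * m) * v1.1 + q * v1.2, M', hB.congr e1 e2, ?_, k4, k5⟩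
  have k6 := k1.trans k3
  rw [Lc_congr e1 e2] at k6
  exact k6

/-! ## The V-twist before a left exit -/

/-- the product of `V_j M` with `(X, Y)` can be made prime to `a'`, if it is so at the frozen
primes and `X` is a unit where `M` is the line of `v`. -/
theorem KC.Vchoose {a p q a' p' q' X Y : ℤ} (ha : 0 < a) (hq : IsCoprime q a) (ha' : 0 < a')
    (hP' : Prm a' p' q') (hXY : IsCoprime X Y)
    (hfree : ∀ r : ℕ, r.Prime → (r : ℤ) ∣ a' → ¬ (r : ℤ) ∣ a + 1 → (r : ℤ) ∣ q' → ¬ (r : ℤ) ∣ X)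
    (hfroz : ∀ r : ℕ, r.Prime → (r : ℤ) ∣ a' → (r : ℤ) ∣ a + 1 → ¬ (r : ℤ) ∣ p' * X + q' * Y)
    (hok : (KC a p q a' p' q').Ok) :
    ∃ j : ℤ, Prm a' (p' - j * (a + 1) * q') q' ∧
      SEq (KC a p q a' p' q') (KC a p q a' (p' - j * (a + 1) * q') q') ∧
      IsC (Lc a' (p' - j * (a + 1) * q') q') (X, Y) 1 := by
  obtain ⟨j, hj⟩ := crt_exists a' ha'.ne'
    (fun r j => ¬ (r : ℤ) ∣ (p' - j * (a + 1) * q') * X + q' * Y)
    (fun r hr h1 => by
      by_cases h0 : (r : ℤ) ∣ a + 1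
      · refine ⟨0, fun h3 => hfroz r hr h1 h0 ?_⟩
        have e : (p' - 0 * (a + 1) * q') * X + q' * Y = p' * X + q' * Y := by ring
        rwa [e] at h3
      by_cases h2 : (r : ℤ) ∣ q'
      · refine ⟨0, fun h3 => ?_⟩
        have h4 : (r : ℤ) ∣ p' * X := by
          have := dvd_sub h3 (h2.mul_right Y)
          have e : (p' - 0 * (a + 1) * q') * X + q' * Y - q' * Y = p' * X := by ring
          rwa [e] at this
        rcases (Nat.prime_iff_prime_int.1 hr).dvd_or_dvd h4 with h5 | h5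
        · exact hP' r hr h1 h5 h2
        · exact hfree r hr h1 h0 h2 h5
      · by_cases h3 : (r : ℤ) ∣ X
        · refine ⟨0, fun h4 => ?_⟩
          have h5 : (r : ℤ) ∣ q' * Y := by
            have := dvd_sub h4 (h3.mul_left (p' - 0 * (a + 1) * q'))
            have e : (p' - 0 * (a + 1) * q') * X + q' * Y - (p' - 0 * (a + 1) * q') * X =
                q' * Y := by ring
            rwa [e] at this
          rcases (Nat.prime_iff_prime_int.1 hr).dvd_or_dvd h5 with h6 | h6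
          · exact h2 h6
          · exact not_dvd_of_isCoprime hXY hr h6 h3
        · by_cases h4 : (r : ℤ) ∣ (p' - 0 * (a + 1) * q') * X + q' * Y
          · refine ⟨1, fun h5 => ?_⟩
            have h6 : (r : ℤ) ∣ (a + 1) * (q' * X) := by
              have := dvd_sub h4 h5
              have e : (p' - 0 * (a + 1) * q') * X + q' * Y -
                  ((p' - 1 * (a + 1) * q') * X + q' * Y) = (a + 1) * (q' * X) := by ring
              rwa [e] at this
            rcases (Nat.prime_iff_prime_int.1 hr).dvd_or_dvd h6 with h7 | h7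
            · exact h0 h7
            rcases (Nat.prime_iff_prime_int.1 hr).dvd_or_dvd h7 with h7 | h7
            · exact h2 h7
            · exact h3 h7
          · exact ⟨0, h4⟩)
    (fun r hr h1 k k' h2 h3 h4 => h3 (by
      have e : (p' - k * (a + 1) * q') * X + q' * Y = ((p' - k' * (a + 1) * q') * X + q' * Y) +
        (k' - k) * ((a + 1) * (q' * X)) := by ring
      rw [e]
      exact dvd_add h4 (h2.mul_right _)))
  have hP2 : Prm a' (p' - j * (a + 1) * q') q' := by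
    have := hP'.shV (j * (a + 1))
    exact this
  refine ⟨j, hP2, KC.V1 ha hq j hok, isC_Lc hP2 one_pos (one_dvd _) (one_dvd _) (one_dvd _) ?_⟩
  intro r hr h1 h2 h3
  rw [one_mul] at h1 h2 h3
  by_cases h4 : (r : ℤ) ∣ a'
  · exact hj r hr h4 h3
  · have h5 := Nat.prime_iff_prime_int.1 hr
    exact not_dvd_of_isCoprime hXY hr ((h5.dvd_or_dvd h2).resolve_left h4)
      ((h5.dvd_or_dvd h1).resolve_left h4)

/-- LEFT EXIT with `c₁ = 1`: from a state with `d = 1` and any right lattice (content `1`) to a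
state with `c = 1`; the new left cusp is the cusp of `z + s (j - 1)`. -/
theorem KC.exitL {a z a' p' q' s e h j : ℤ} (hs : s = 1 ∨ s = -1) (he : 0 ≤ e) (heh : e < h)
    (hha : h ≤ a) (hh : h = s * e * z + j * a) (hej : IsCoprime e j) (ha' : 0 < a')
    (hP' : Prm a' p' q') (hco : IsCoprime (1 + e) (1 + h))
    (hfree : ∀ r : ℕ, r.Prime → (r : ℤ) ∣ a' → ¬ (r : ℤ) ∣ a + 1 → (r : ℤ) ∣ q' →
      ¬ (r : ℤ) ∣ 1 + e)
    (hfroz : ∀ r : ℕ, r.Prime → (r : ℤ) ∣ a' → (r : ℤ) ∣ a + 1 →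
      ¬ (r : ℤ) ∣ p' * (1 + e) + q' * (s * (1 + h)))
    (hok : (KC a z (-1) a' p' q').Ok) :
    ∃ q1 x : ℤ, Prm (a - e) (z + s * (j - 1)) q1 ∧
      SEq (KC a z (-1) a' p' q') (KC (a - e) (z + s * (j - 1)) q1 (a' + e) 1 (-x)) := by
  have hss : s * s = 1 := by rcases hs with rfl | rfl <;> norm_num
  have hco' : IsCoprime (1 + e) (s * (1 + h)) := by
    rcases hs with rfl | rfl
    · simpa using hco
    · simpa using hco.neg_right
  have ha : 0 < a := by linarith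
  obtain ⟨i, h1, h2, h3⟩ := KC.Vchoose ha isCoprime_one_left.neg_left ha' hP' hco' hfree hfroz hok
  have hm : z * (s * e) + -1 * h = a * (-j) := by rw [hh]; ring
  obtain ⟨q1, M', k1, k2, k3, k4⟩ := KC.exitK hs he heh hha hm
    (by
      intro l hl h4 _ h6
      exact not_dvd_of_isCoprime hej hl ((dvd_neg).1 h6) h4)
    (prm_z a z)
    (by
      intro l hl _ _ h6
      exact prime_not_dvd_one hl ((dvd_neg).1 h6))
    (isArea_Lc ha' h1) h3 (one_dvd _) h2.ok'
  obtain ⟨x, hx⟩ := k4.exists_x k3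
  have e1 : z + s * (-1 - -j) = z + s * (j - 1) := by ring
  rw [e1] at k1 k2
  refine ⟨q1, x, k1, ?_⟩
  rw [hx] at k2
  exact h2.trans k2

/-- RIGHT EXIT with `d₁ = 1`: the mirror of `KC.exitL` -/
theorem KC.exitR {a p q a' x s e h j : ℤ} (hs : s = 1 ∨ s = -1) (he : 0 ≤ e) (heh : e < h)
    (hha : h ≤ a') (hh : h = s * e * x + j * a') (hej : IsCoprime e j) (ha : 0 < a)
    (hP : Prm a p q) (hco : IsCoprime (1 + e) (1 + h))
    (hfree : ∀ r : ℕ, r.Prime → (r : ℤ) ∣ a → ¬ (r : ℤ) ∣ a' + 1 → (r : ℤ) ∣ p →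
      ¬ (r : ℤ) ∣ 1 + e)
    (hfroz : ∀ r : ℕ, r.Prime → (r : ℤ) ∣ a → (r : ℤ) ∣ a' + 1 →
      ¬ (r : ℤ) ∣ p * (s * (1 + h)) + q * (1 + e))
    (hok : (KC a p q a' 1 (-x)).Ok) :
    ∃ z p1 : ℤ, Prm (a' - e) p1 (x + s * (j - 1)) ∧
      SEq (KC a p q a' 1 (-x)) (KC (a + e) z (-1) (a' - e) p1 (x + s * (j - 1))) := by
  have m1 := KC.mirror hok
  have hPm : Prm a q (-p) := fun l hl k1 k2 k3 => hP l hl k1 ((dvd_neg).1 k3) k2
  have hs' : -s = 1 ∨ -s = -1 := by
    rcases hs with rfl | rfl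
    · exact Or.inr rfl
    · exact Or.inl (by norm_num)
  have hej' : IsCoprime e j := hej
  obtain ⟨q1, x1, k1, k2⟩ := KC.exitL (s := -s) (e := e) (h := h) (j := j) hs' he heh hha
    (by rw [hh]; ring) hej' ha hPm hco
    (by
      intro r hr h1 h2 h3
      exact hfree r hr h1 h2 ((dvd_neg).1 h3))
    (by
      intro r hr h1 h2 h3
      refine hfroz r hr h1 h2 ?_
      have e1 : q * (1 + e) + -p * (-s * (1 + h)) = p * (s * (1 + h)) + q * (1 + e) := by ring
      rwa [e1] at h3) m1.ok'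
  have e2 : -x + -s * (j - 1) = -(x + s * (j - 1)) := by ring
  rw [e2] at k1 k2
  have k3 := (m1.trans k2).trans (KC.mirror k2.ok')
  rw [neg_neg] at k3
  refine ⟨-x1, q1, ?_, k3⟩
  intro l hl h1 h2 h3
  exact k1 l hl h1 ((dvd_neg).2 h3) h2

/-! ## The H-twist after a landing with odd `c`: content `1` and `d = 1` -/

/-- the choice of the twist; at `2` the choice `k0` is given -/
theorem exists_kHG {a p q r c x : ℤ} (ha : 0 < a) (hc : 0 < c) (hP : Prm a p q) (hn : OC a (r + 1))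
    {k0 : ℤ} (h2 : (2 : ℤ) ∣ c → (2 : ℤ) ∣ r → ¬ (2 : ℤ) ∣ x + k0 * (c - 1))
    (h2' : (2 : ℤ) ∣ a → ¬ (2 : ℤ) ∣ q - k0 * (r + 1) * p) :
    ∃ k : ℤ, (∀ l : ℕ, l.Prime → (l : ℤ) ∣ c → (l : ℤ) ∣ r → ¬ (l : ℤ) ∣ x + k * (c - 1)) ∧
      IsCoprime (q - k * (r + 1) * p) a := by
  have key : ∃ k : ℤ, ∀ l : ℕ, l.Prime → (l : ℤ) ∣ a * c →
      ((l : ℤ) ∣ c → (l : ℤ) ∣ r → ¬ (l : ℤ) ∣ x + k * (c - 1)) ∧
        ((l : ℤ) ∣ a → ¬ (l : ℤ) ∣ q - k * (r + 1) * p) := by
    apply crt_exists (a * c) (mul_pos ha hc).ne' (fun l k =>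
      ((l : ℤ) ∣ c → (l : ℤ) ∣ r → ¬ (l : ℤ) ∣ x + k * (c - 1)) ∧
        ((l : ℤ) ∣ a → ¬ (l : ℤ) ∣ q - k * (r + 1) * p))
    · intro l hl _
      have hlp := Nat.prime_iff_prime_int.1 hl
      by_cases hl2 : l = 2
      · subst hl2
        exact ⟨k0, by exact_mod_cast h2, by exact_mod_cast h2'⟩
      -- three candidates `0, 1, -1`
      have hx : ∀ k k' : ℤ, (l : ℤ) ∣ c → (l : ℤ) ∣ x + k * (c - 1) →
          (l : ℤ) ∣ x + k' * (c - 1) → (l : ℤ) ∣ k - k' := by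
        intro k k' h1 h3 h4
        have h5 := dvd_sub h4 h3
        have e : k - k' = (x + k' * (c - 1) - (x + k * (c - 1))) + (k - k') * c := by ring
        rw [e]
        exact dvd_add h5 (h1.mul_left _)
      have hq : ∀ k k' : ℤ, (l : ℤ) ∣ a → (l : ℤ) ∣ q - k * (r + 1) * p →
          (l : ℤ) ∣ q - k' * (r + 1) * p → (l : ℤ) ∣ k - k' := by
        intro k k' h1 h3 h4
        have h5 : (l : ℤ) ∣ (k - k') * ((r + 1) * p) := by
          have := dvd_sub h4 h3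
          have e : q - k' * (r + 1) * p - (q - k * (r + 1) * p) = (k - k') * ((r + 1) * p) := by ring
          rwa [e] at this
        rcases hlp.dvd_or_dvd h5 with h6 | h6
        · exact h6
        · exfalso
          rcases hlp.dvd_or_dvd h6 with h7 | h7
          · exact hn l hl hl2 h1 h7
          · have h8 : (l : ℤ) ∣ q := by
              have := dvd_add h3 (h7.mul_left (k * (r + 1)))
              simpa using this
            exact hP l hl h1 h7 h8
      have hl3 : 2 < l := lt_of_le_of_ne hl.two_le (Ne.symm hl2)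
      have small : ∀ m : ℤ, (l : ℤ) ∣ m → 0 < m → m ≤ 2 → False := by
        intro m h1 h3 h4
        have := Int.le_of_dvd h3 h1
        omega
      by_contra hcon
      push Not at hcon
      have b0 := hcon 0
      have b1 := hcon 1
      have b2 := hcon 2
      -- each candidate fails for one of the two reasons
      have r0 : ((l : ℤ) ∣ c ∧ (l : ℤ) ∣ x + 0 * (c - 1)) ∨
          ((l : ℤ) ∣ a ∧ (l : ℤ) ∣ q - 0 * (r + 1) * p) := by
        by_cases h : (l : ℤ) ∣ c → (l : ℤ) ∣ r → ¬ (l : ℤ) ∣ x + 0 * (c - 1)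
        · exact Or.inr (b0 h)
        · push Not at h; exact Or.inl ⟨h.1, h.2.2⟩
      have r1 : ((l : ℤ) ∣ c ∧ (l : ℤ) ∣ x + 1 * (c - 1)) ∨
          ((l : ℤ) ∣ a ∧ (l : ℤ) ∣ q - 1 * (r + 1) * p) := by
        by_cases h : (l : ℤ) ∣ c → (l : ℤ) ∣ r → ¬ (l : ℤ) ∣ x + 1 * (c - 1)
        · exact Or.inr (b1 h)
        · push Not at h; exact Or.inl ⟨h.1, h.2.2⟩
      have r2 : ((l : ℤ) ∣ c ∧ (l : ℤ) ∣ x + 2 * (c - 1)) ∨
          ((l : ℤ) ∣ a ∧ (l : ℤ) ∣ q - 2 * (r + 1) * p) := by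
        by_cases h : (l : ℤ) ∣ c → (l : ℤ) ∣ r → ¬ (l : ℤ) ∣ x + 2 * (c - 1)
        · exact Or.inr (b2 h)
        · push Not at h; exact Or.inl ⟨h.1, h.2.2⟩
      rcases r0 with ⟨c0, d0⟩ | ⟨c0, d0⟩ <;> rcases r1 with ⟨c1, d1⟩ | ⟨c1, d1⟩ <;>
        rcases r2 with ⟨c2, d2⟩ | ⟨c2, d2⟩
      · exact small 1 (by simpa using hx 1 0 c0 d1 d0) one_pos (by norm_num)
      · exact small 1 (by simpa using hx 1 0 c0 d1 d0) one_pos (by norm_num)
      · exact small 2 (by simpa using hx 2 0 c0 d2 d0) two_pos le_rfl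
      · exact small 1 (by simpa using hq 2 1 c1 d2 d1) one_pos (by norm_num)
      · exact small 1 (by simpa using hx 2 1 c1 d2 d1) one_pos (by norm_num)
      · exact small 2 (by simpa using hq 2 0 c0 d2 d0) two_pos le_rfl
      · exact small 1 (by simpa using hq 1 0 c0 d1 d0) one_pos (by norm_num)
      · exact small 1 (by simpa using hq 1 0 c0 d1 d0) one_pos (by norm_num)
    · intro l hl _ k k' h1 h2
      refine ⟨fun h3 h4 h5 => h2.1 h3 h4 ?_, fun h3 h5 => h2.2 h3 ?_⟩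
      · have e : x + k * (c - 1) = (x + k' * (c - 1)) - (k' - k) * (c - 1) := by ring
        rw [e]
        exact dvd_sub h5 (h1.mul_right _)
      · have e : q - k * (r + 1) * p = (q - k' * (r + 1) * p) + (k' - k) * ((r + 1) * p) := by
          ring
        rw [e]
        exact dvd_add h5 (h1.mul_right _)
  obtain ⟨k, hk⟩ := key
  refine ⟨k, fun l hl h1 h2 => (hk l hl (h1.mul_left _)).1 h1 h2, ?_⟩
  exact isCoprime_of_prime fun l hl h1 => (hk l hl (h1.mul_right _)).2 h1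

/-- H-CHOICE after a landing: `c` odd -/
theorem KS.Hchoose {a p q c a' r : ℤ} {M : AddSubgroup Z2} (ha : 0 < a) (hP : Prm a p q)
    (ha' : IsArea M a') (hc : IsC M (1, 0) c) (er : a' = r * c) (hn : OC a (r + 1))
    (hco : ¬ (2 : ℤ) ∣ c) (h2 : (2 : ℤ) ∣ a → (2 : ℤ) ∣ q → ¬ (2 : ℤ) ∣ r + 1)
    (hok : (KS (Lc a p q) M).Ok) :
    ∃ z p' q' : ℤ, Prm a' p' q' ∧ IsC (Lc a' p' q') (1, 0) c ∧
      (∀ l : ℤ, l ∣ a → (l ∣ z ↔ l ∣ p)) ∧
      SEq (KS (Lc a p q) M) (KC a z (-1) a' p' q') := by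
  have hc0 := hc.1
  obtain ⟨r1, c1, x, hr1, hc1, f1, f2⟩ := ha'.hnf'
  have hcc : c1 = c := by
    have : IsC M (1, 0) c1 := by
      rw [f2]
      have := isC_adapted (e := (r1, 0)) (f := (x, c1)) (u := (1, 0)) (by simp [cr])
        (by simp [cr]; exact hc1)
      simpa [cr] using this
    exact this.unique hc
  subst hcc
  have hrr : r1 = r := by
    have : r1 * c1 = r * c1 := by rw [← f1, er]
    exact mul_right_cancel₀ hc1.ne' this
  subst hrr
  obtain ⟨k, hk1, hk2⟩ := exists_kHG (x := x) ha hc1 hP hn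
    (k0 := if (2 : ℤ) ∣ q then 1 else 0) (fun h => absurd h hco) (by
      intro h3
      by_cases h4 : (2 : ℤ) ∣ q
      · rw [if_pos h4]
        intro h5
        have h6 : (2 : ℤ) ∣ (r1 + 1) * p := by
          have := dvd_sub h4 h5
          have e : q - (q - 1 * (r1 + 1) * p) = (r1 + 1) * p := by ring
          rwa [e] at this
        rcases Int.prime_two.dvd_or_dvd h6 with h7 | h7
        · exact h2 h3 h4 h7
        · exact hP 2 Nat.prime_two (by exact_mod_cast h3) (by exact_mod_cast h7)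
            (by exact_mod_cast h4)
      · rw [if_neg h4]
        intro h5
        apply h4
        simpa using h5)
  rw [f2] at hok ⊢
  have h1 := KS.H hr1 hc1 hok k
  obtain ⟨p', q', k3, k4⟩ := lat_eq_Lc' hr1 hc1 hk1
  rw [map_shH_Lc] at h1
  obtain ⟨z, hz1, -, hz2⟩ := Lc_slope (p := p) hk2
  rw [hz1] at h1
  refine ⟨z, p', q', by rw [f1]; exact k3, ?_, hz2, ?_⟩
  · rw [f1, ← k4]
    have := isC_adapted (e := (r1, 0)) (f := (x + k * (c1 - 1), c1)) (u := (1, 0)) (by simp [cr])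
      (by simp [cr]; exact hc1)
    simpa [cr] using this
  · unfold KC
    rw [f1, ← k4]
    exact h1

/-! ## Controlled landing -/

/-- LANDING on the right in closed form: `M = ⟨Q, a' u⟩`, `cr u Q = 1`, `v = (1 + e) Q - Y u`,
`0 < Y ≤ a'`. -/
theorem SEq.nodeR {u Q : Z2} {L : AddSubgroup Z2} (h : cr u Q = 1) (e : ℕ) {a' Y : ℤ} (hY : 0 < Y)
    (hYa : Y ≤ a') (hok : PSt.Ok ⟨L, u, (1 + (e : ℤ)) • Q - Y • u, lat Q (a' • u)⟩) :
    SEq ⟨L, u, (1 + (e : ℤ)) • Q - Y • u, lat Q (a' • u)⟩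
      ⟨L, u, Q - (Y + e) • u, lat Q ((a' + e) • u)⟩ := by
  have m1 := SEq.mirror hok
  have h' : cr Q (-u) = 1 := by rw [cr_neg_right, cr_swap Q u, h]; norm_num
  have e1 : lat Q (a' • u) = lat (-Q) (a' • -u) := by
    rw [smul_neg, lat_neg_left, lat_neg_right]
  have e2 : (1 + (e : ℤ)) • Q - Y • u = (1 + (e : ℤ)) • Q + Y • -u := by
    rw [smul_neg, sub_eq_add_neg]
  have e3 : lat (-Q) ((a' + e) • -u) = lat Q ((a' + e) • u) := by
    rw [smul_neg, lat_neg_left, lat_neg_right]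
  have e4 : Q + (Y + (e : ℤ)) • -u = Q - (Y + e) • u := by
    rw [smul_neg, sub_eq_add_neg]
  have m2 := m1.ok'
  rw [e1, e2] at m2
  have m3 := SEq.nodeL h' e hY hYa m2
  rw [← e1, ← e2, e3, e4] at m3
  exact m1.trans (m3.trans (SEq.mirror' m3.ok'))

/-- a primitive vector `Q` of `M = Lc a' p' q'` with `cr u Q = 1`: `M = ⟨Q, a' u⟩` -/
theorem Lc_eq_Q {a' p' q' : ℤ} (ha' : 0 < a') (hP' : Prm a' p' q') {u Q : Z2} (h : cr u Q = 1)
    (hQ : Q ∈ Lc a' p' q') : Lc a' p' q' = lat Q (a' • u) := by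
  rw [mem_Lc] at hQ
  obtain ⟨m, hm⟩ := hQ
  obtain ⟨w, e1, e2⟩ := hP'.basis ha' hm (by
    intro l hl h1 h2 _
    have h3 : (l : ℤ) ∣ 1 := by
      rw [← h]
      simp only [cr]
      exact dvd_sub (h2.mul_left _) (h1.mul_left _)
    exact prime_not_dvd_one hl h3)
  have hu : a' • u ∈ Lc a' p' q' := by
    rw [mem_Lc]
    refine ⟨p' * u.1 + q' * u.2, ?_⟩
    simp only [Prod.smul_fst, Prod.smul_snd, smul_eq_mul]; ring
  rw [e1] at hu ⊢
  obtain ⟨α, β, hab⟩ := mem_lat.1 hu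
  have hβ : β = 1 := by
    have k1 : cr (a' • u) Q = a' := by rw [cr_smul_left, h, mul_one]
    have e3 : cr w Q = a' := e2
    have e4 : cr (α • Q + β • w) Q = β * a' := by
      rw [cr_add_left, cr_smul_left, cr_smul_left, cr_self, e3]; ring
    have hab' : α • Q + β • w = a' • u := hab
    rw [hab', k1] at e4
    have : β * a' = 1 * a' := by rw [← e4, one_mul]
    exact mul_right_cancel₀ ha'.ne' this
  have hab' : α • Q + β • w = a' • u := hab
  have e5 : ((Q.1, Q.2) : Z2) = Q := rfl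
  rw [e5, ← hab', hβ, one_smul, add_comm, lat_add_smul]

/-- LANDING on the right, controlled: `Q = (Y, Z) ∈ M`, `cr u Q = 1`, `u = (1 + e, w)`. -/
theorem landRc {n p q a' p' q' e w Y Z : ℤ} (ha' : 0 < a') (hP' : Prm a' p' q') (he : 0 ≤ e)
    (hQ : a' ∣ p' * Y + q' * Z) (hu : (1 + e) * Z - w * Y = 1) (hY : 0 < Y) (hYa : Y ≤ a')
    (hok : PSt.Ok ⟨Lc n p q, (1 + e, w), (0, 1), Lc a' p' q'⟩) :
    SEq ⟨Lc n p q, (1 + e, w), (0, 1), Lc a' p' q'⟩
      (KC n (p * (1 + e) + q * w) (p * (Y - (Y + e) * (1 + e)) + q * (Z - (Y + e) * w))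
        (a' + e) 1 (-(Y + e))) := by
  set u : Z2 := (1 + e, w) with hu'
  set Q : Z2 := (Y, Z) with hQ'
  have hc : cr u Q = 1 := by simp only [cr, hu', hQ']; exact hu
  have hM := Lc_eq_Q ha' hP' hc hQ
  have hv : ((0, 1) : Z2) = (1 + e) • Q - Y • u := by
    ext
    · simp [hu', hQ']; ring
    · simp [hu', hQ']; linarith
  obtain ⟨m, rfl⟩ := Int.eq_ofNat_of_zero_le he
  rw [hM, hv] at hok ⊢
  have k1 := SEq.nodeR hc m hY hYa hok
  refine k1.trans ?_
  set v1 : Z2 := Q - (Y + (m : ℤ)) • u with hv1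
  have hb : cr u v1 = 1 := by
    rw [hv1, cr_sub_right, cr_smul_right, cr_self, hc]; ring
  have k2 := SEq.act (bcM u v1 hb) k1.ok'
  unfold PSt.act at k2
  simp only [map_bcM_Lc, act_bcM, cr_self, hb, map_lat] at k2
  have f1 : cr Q v1 = Y + m := by
    rw [hv1, cr_sub_right, cr_smul_right, cr_self, cr_swap Q u, hc]; ring
  have f2 : cr ((a' + (m : ℤ)) • u) v1 = a' + m := by rw [cr_smul_left, hb, mul_one]
  have f3 : cr u ((a' + (m : ℤ)) • u) = 0 := by rw [cr_smul_right, cr_self, mul_zero]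
  rw [f1, f2, f3, hc] at k2
  have f4 : lat (Y + (m : ℤ), 1) (a' + (m : ℤ), 0) = Lc (a' + m) 1 (-(Y + m)) := by
    rw [lat_comm]
    have := Lc_eq_lat' (r := a' + (m : ℤ)) (c := 1) (p1 := 1) (q := -(Y + m)) (x := Y + m)
      (by omega) one_pos isCoprime_one_left isCoprime_one_right ⟨0, by ring⟩
    rw [← this, mul_one, mul_one]
  rw [f4] at k2
  have f5 : v1.1 = Y - (Y + m) * (1 + m) := by simp [hv1, hu', hQ']
  have f6 : v1.2 = Z - (Y + m) * w := by simp [hv1, hu', hQ']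
  rw [f5, f6] at k2
  exact k2

/-- the V-twist which puts a given vector `(Y, Z)` into `M`; the choice at `2` is given -/
theorem exists_VQ {a a' p' q' Y Z j0 : ℤ} (ha' : 0 < a') (hn : OC a' (a + 1)) (hq : OC a' q')
    (hY : OC a' Y)
    (h2 : ∀ σ : ℕ, (2 : ℤ) ^ σ ∣ a' → (2 : ℤ) ^ σ ∣ (p' - j0 * (a + 1) * q') * Y + q' * Z) :
    ∃ j : ℤ, a' ∣ (p' - j * (a + 1) * q') * Y + q' * Z := by
  obtain ⟨σ, m, hm, hm2, e⟩ := two_split ha'
  have hma : m ∣ a' := ⟨2 ^ σ, by rw [e]; ring⟩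
  have hsa : (2 : ℤ) ^ σ ∣ a' := ⟨m, e⟩
  have hc2 : IsCoprime ((2 : ℤ) ^ σ) m := by
    refine IsCoprime.pow_left ?_
    exact (Prime.coprime_iff_not_dvd Int.prime_two).2 hm2
  have hc : IsCoprime m (2 ^ σ * ((a + 1) * q' * Y)) := by
    refine IsCoprime.mul_right hc2.symm (IsCoprime.mul_right (IsCoprime.mul_right ?_ ?_) ?_)
    · exact (hn.of_dvd hma).isCoprime hm2
    · exact (hq.of_dvd hma).isCoprime hm2
    · exact (hY.of_dvd hma).isCoprime hm2
  obtain ⟨x, y, hxy⟩ := hc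
  set F : ℤ := (p' - j0 * (a + 1) * q') * Y + q' * Z with hF
  refine ⟨j0 + 2 ^ σ * (y * F), ?_⟩
  have key : (p' - (j0 + 2 ^ σ * (y * F)) * (a + 1) * q') * Y + q' * Z = F * (x * m) := by
    rw [hF]; linear_combination (-((p' - j0 * (a + 1) * q') * Y + q' * Z)) * hxy
  rw [key]
  have d1 : (2 : ℤ) ^ σ ∣ F * (x * m) := (h2 σ hsa).mul_right _
  have d2 : m ∣ F * (x * m) := (Dvd.intro_left x rfl).mul_left _
  have d3 := hc2.mul_dvd d1 d2
  rw [e]
  exact d3

/-- LEFT EXIT with a controlled landing on the right: `M` is V-free and `v`-generic at the odd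
primes; `(Y, Z)` is any vector with `cr u₁ (Y, Z) = 1`, `Y` prime to the odd part of `a'`; the new
right cusp is the cusp of `Y + e`. -/
theorem KC.exitLV {a z a' p' q' s e h j Y Z j0 : ℤ} (hs : s = 1 ∨ s = -1) (he : 0 ≤ e)
    (heh : e < h) (hha : h ≤ a) (hh : h = s * e * z + j * a) (hej : IsCoprime e j) (ha' : 0 < a')
    (hP' : Prm a' p' q') (hu : (1 + e) * Z - s * (1 + h) * Y = 1) (hY0 : 0 < Y) (hYa : Y ≤ a')
    (hn : OC a' (a + 1)) (hq : OC a' q') (hY : OC a' Y)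
    (h2 : ∀ σ : ℕ, (2 : ℤ) ^ σ ∣ a' → (2 : ℤ) ^ σ ∣ (p' - j0 * (a + 1) * q') * Y + q' * Z)
    (hok : (KC a z (-1) a' p' q').Ok) :
    ∃ q1 : ℤ, Prm (a - e) (z + s * (j - 1)) q1 ∧
      SEq (KC a z (-1) a' p' q')
        (KC (a - e) (z + s * (j - 1)) q1 (a' + e) 1 (-(Y + e))) := by
  have hss : s * s = 1 := by rcases hs with rfl | rfl <;> norm_num
  have ha : 0 < a := by linarith
  obtain ⟨i, hi⟩ := exists_VQ ha' hn hq hY h2
  have h1 := KC.V1 ha isCoprime_one_left.neg_left i hok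
  have hP2 : Prm a' (p' - i * (a + 1) * q') q' := by
    have := hP'.shV (i * (a + 1))
    exact this
  have hm : z * (s * e) + -1 * h = a * (-j) := by rw [hh]; ring
  have k1 := exitG hs he heh hha hm
    (by
      intro l hl h4 _ h6
      exact not_dvd_of_isCoprime hej hl ((dvd_neg).1 h6) h4)
    (prm_z a z)
    (by
      intro l hl _ _ h6
      exact prime_not_dvd_one hl ((dvd_neg).1 h6)) h1.ok'
  have k2 := landRc ha' hP2 he hi hu hY0 hYa k1.ok'
  have hB : Prm (a - e) ((z - s * -j) * (1 + e) + -1 * (s * (1 + h)))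
      ((z - s * -j) * (Y - (Y + e) * (1 + e)) + -1 * (Z - (Y + e) * (s * (1 + h)))) := by
    have hb : cr ((1 + e, s * (1 + h)) : Z2)
        (Y - (Y + e) * (1 + e), Z - (Y + e) * (s * (1 + h))) = 1 := by
      simp only [cr]; linear_combination hu
    have := Prm.base (n := a - e) (p := z - s * -j) (q := -1)
      (by
        intro l hl _ _ h6
        exact prime_not_dvd_one hl ((dvd_neg).1 h6)) hb
    exact this
  have e1 : a - e ∣ z + s * (j - 1) - ((z - s * -j) * (1 + e) + -1 * (s * (1 + h))) := by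
    refine ⟨s * j, ?_⟩
    rw [hh]
    linear_combination e * z * hss
  have e2 : a - e ∣ ((z - s * -j) * (Y - (Y + e) * (1 + e)) + -1 * (Z - (Y + e) * (s * (1 + h)))) -
      ((z - s * -j) * (Y - (Y + e) * (1 + e)) + -1 * (Z - (Y + e) * (s * (1 + h)))) :=
    ⟨0, by ring⟩
  refine ⟨_, hB.congr e1 e2, ?_⟩
  have k3 := (h1.trans k1).trans k2
  have k4 : KC (a - e) ((z - s * -j) * (1 + e) + -1 * (s * (1 + h)))
      ((z - s * -j) * (Y - (Y + e) * (1 + e)) + -1 * (Z - (Y + e) * (s * (1 + h))))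
        (a' + e) 1 (-(Y + e)) = KC (a - e) (z + s * (j - 1))
      ((z - s * -j) * (Y - (Y + e) * (1 + e)) + -1 * (Z - (Y + e) * (s * (1 + h))))
        (a' + e) 1 (-(Y + e)) :=
    KC.congr e1 e2 ⟨0, by ring⟩ ⟨0, by ring⟩
  rw [k4] at k3
  exact k3

/-- RIGHT EXIT with a controlled landing on the left: the mirror of `KC.exitLV`. -/
theorem KC.exitRV {a p q a' x s e h j Y Z j0 : ℤ} (hs : s = 1 ∨ s = -1) (he : 0 ≤ e)
    (heh : e < h) (hha : h ≤ a') (hh : h = s * e * x + j * a') (hej : IsCoprime e j) (ha : 0 < a)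
    (hP : Prm a p q) (hu : (1 + e) * Z + s * (1 + h) * Y = 1) (hY0 : 0 < Y) (hYa : Y ≤ a)
    (hn : OC a (a' + 1)) (hp : OC a p) (hY : OC a Y)
    (h2 : ∀ σ : ℕ, (2 : ℤ) ^ σ ∣ a → (2 : ℤ) ^ σ ∣ (q + j0 * (a' + 1) * p) * Y - p * Z)
    (hok : (KC a p q a' 1 (-x)).Ok) :
    ∃ p1 : ℤ, Prm (a' - e) p1 (x + s * (j - 1)) ∧
      SEq (KC a p q a' 1 (-x))
        (KC (a + e) (-(Y + e)) (-1) (a' - e) p1 (x + s * (j - 1))) := by
  have m1 := KC.mirror hok
  have hPm : Prm a q (-p) := fun l hl k1 k2 k3 => hP l hl k1 ((dvd_neg).1 k3) k2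
  have hs' : -s = 1 ∨ -s = -1 := by
    rcases hs with rfl | rfl
    · exact Or.inr rfl
    · exact Or.inl (by norm_num)
  have hpn : OC a (-p) := fun l hl l2 l3 l4 => hp l hl l2 l3 ((dvd_neg).1 l4)
  obtain ⟨q1, k1, k2⟩ := KC.exitLV (s := -s) (e := e) (h := h) (j := j) (Y := Y) (Z := Z) (j0 := j0)
    hs' he heh hha (by rw [hh]; ring) hej ha hPm (by linear_combination hu) hY0 hYa hn hpn hY
    (by
      intro σ hσ
      have e1 : (q - j0 * (a' + 1) * -p) * Y + -p * Z = (q + j0 * (a' + 1) * p) * Y - p * Z := by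
        ring
      rw [e1]
      exact h2 σ hσ) m1.ok'
  have e2 : -x + -s * (j - 1) = -(x + s * (j - 1)) := by ring
  rw [e2] at k1 k2
  have k3 := (m1.trans k2).trans (KC.mirror k2.ok')
  rw [neg_neg] at k3
  refine ⟨q1, ?_, k3⟩
  intro l hl h1 h2 h3
  exact k1 l hl h1 ((dvd_neg).2 h3) h2

/-! ## Exits with `c₁ > 1` -/

/-- the constant `gcd (M × (X, Y))` for coprime `X`, `Y` -/
theorem isC_gcd {a p q X Y : ℤ} (ha : 0 < a) (hP : Prm a p q) (hXY : IsCoprime X Y) :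
    IsC (Lc a p q) (X, Y) (Int.gcd a (p * X + q * Y)) := by
  have hpos : 0 < Int.gcd a (p * X + q * Y) := Int.gcd_pos_of_ne_zero_left _ ha.ne'
  have hpos' : (0 : ℤ) < (Int.gcd a (p * X + q * Y) : ℤ) := by exact_mod_cast hpos
  have h1 : (Int.gcd a (p * X + q * Y) : ℤ) ∣ a := Int.gcd_dvd_left _ _
  refine isC_Lc hP hpos' (h1.mul_right _) (h1.mul_right _) (Int.gcd_dvd_right _ _) ?_
  intro l hl h2 h3 h4
  have h5 : (Int.gcd a (p * X + q * Y) : ℤ) * l ∣ a := by
    obtain ⟨x, y, hxy⟩ := hXY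
    have : a = x * (a * X) + y * (a * Y) := by linear_combination (-a) * hxy
    have k := dvd_add (h2.mul_left x) (h3.mul_left y)
    rwa [← this] at k
  have h6 : (Int.gcd a (p * X + q * Y) : ℤ) * l ∣ (Int.gcd a (p * X + q * Y) : ℤ) * 1 := by
    rw [mul_one]; exact Int.dvd_coe_gcd h5 h4
  exact prime_not_dvd_one hl ((mul_dvd_mul_iff_left hpos'.ne').1 h6)

/-- LEFT EXIT with `c₁` odd, `c₁ ∣ e`, then `d = 1` and content `1` by an H-twist. -/
theorem KC.exitC1 {a z a' p' q' s e h j c : ℤ} (hs : s = 1 ∨ s = -1) (he : 0 ≤ e) (heh : e < h)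
    (hha : h ≤ a) (hh : h = s * e * z + j * a) (hej : IsCoprime e j) (ha' : 0 < a')
    (hP' : Prm a' p' q') (hc : IsC (Lc a' p' q') (1 + e, s * (1 + h)) c) (hce : c ∣ e)
    (hco : ¬ (2 : ℤ) ∣ c)
    (hn : ∀ l : ℕ, l.Prime → l ≠ 2 → (l : ℤ) ∣ a - e → ¬ (l : ℤ) * c ∣ a' + e + c)
    (h2 : (2 : ℤ) ∣ a - e → (2 : ℤ) ∣ a' + e)
    (hok : (KC a z (-1) a' p' q').Ok) :
    ∃ z1 p1 q1 : ℤ, Prm (a' + e) p1 q1 ∧ IsC (Lc (a' + e) p1 q1) (1, 0) c ∧
      (∀ l : ℤ, l ∣ a - e → (l ∣ z1 ↔ l ∣ z + s * (j - 1))) ∧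
      SEq (KC a z (-1) a' p' q') (KC (a - e) z1 (-1) (a' + e) p1 q1) := by
  have hm : z * (s * e) + -1 * h = a * (-j) := by rw [hh]; ring
  obtain ⟨q1, M', k1, k2, k3, k4⟩ := KC.exitK hs he heh hha hm
    (by
      intro l hl h4 _ h6
      exact not_dvd_of_isCoprime hej hl ((dvd_neg).1 h6) h4)
    (prm_z a z)
    (by
      intro l hl _ _ h6
      exact prime_not_dvd_one hl ((dvd_neg).1 h6))
    (isArea_Lc ha' hP') hc hce hok
  have e1 : z + s * (-1 - -j) = z + s * (j - 1) := by ring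
  rw [e1] at k1 k2
  have hc0 := k4.1
  obtain ⟨r, c1, x, hr1, hc1, f1, f2⟩ := k3.hnf'
  have hcc : c1 = c := by
    have : IsC M' (1, 0) c1 := by
      rw [f2]
      have := isC_adapted (e := (r, 0)) (f := (x, c1)) (u := (1, 0)) (by simp [cr])
        (by simp [cr]; exact hc1)
      simpa [cr] using this
    exact this.unique k4
  subst hcc
  obtain ⟨z1, p1, q2, l1, l2, l3, l4⟩ := KS.Hchoose (by linarith) k1 k3 k4 f1
    (by
      intro l hl hl2 h3 h4
      refine hn l hl hl2 h3 ?_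
      rw [f1]
      have : r * c1 + c1 = (r + 1) * c1 := by ring
      rw [this]
      exact mul_dvd_mul_right h4 _) hco
    (by
      intro h3 _ h5
      have h6 := h2 h3
      rw [f1] at h6
      rcases Int.prime_two.dvd_or_dvd h6 with h7 | h7
      · have := dvd_sub h5 h7
        norm_num at this
      · exact hco h7) k2.ok'
  exact ⟨z1, p1, q2, l1, l2, l3, k2.trans l4⟩

end Pool.Agent.H4G
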