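import Pool.Agent.H4G.Ctwo.Type5

/-!
# The type (1,[4,2,0]) is recognised by an invariant (helper19)

`C6.T4 c` says that exactly four of the seven classes of `C6.ms` agree.
-/

set_option autoImplicit false

open Matrix.SpecialLinearGroup MatrixGroups

namespace Pool.Agent.H4G

/-- four of the seven vectors agree modulo `2` -/
def C6.T4 (c : C6) : Prop := ∃ t, Multiset.count t c.ms = 4

theorem Mv.T4_iff {c c' : C6} (h : Mv c c') : c'.T4 ↔ c.T4 := by
  rcases h.ms_eq with h | ⟨σ, hσ, h⟩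
  · unfold C6.T4; rw [h]
  · unfold C6.T4
    rw [h]
    constructor
    · rintro ⟨t, ht⟩
      obtain ⟨s, rfl⟩ := Finite.surjective_of_injective hσ t
      rw [Multiset.count_map_eq_count' _ _ hσ] at ht
      exact ⟨s, ht⟩
    · rintro ⟨t, ht⟩
      exact ⟨σ t, by rw [Multiset.count_map_eq_count' _ _ hσ]; exact ht⟩

theorem CEq.T4_iff {c c' : C6} (h : CEq c c') : c'.T4 ↔ c.T4 := by
  induction h with
  | rel x y h => exact Mv.T4_iff h.2
  | refl x => exact Iff.rfl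
  | symm x y _ ih => exact ih.symm
  | trans x y z _ _ ih1 ih2 => exact ih2.trans ih1

theorem SEq.T4_iff {S S' : PSt} (h : SEq S S') {c c' : C6} (hc : IsRep S c) (hc' : IsRep S' c') :
    c'.T4 ↔ c.T4 := (h.ceq hc hc').T4_iff

/-- the state has type `T4` -/
def PSt.T4 (S : PSt) : Prop := ∃ c, IsRep S c ∧ c.T4

theorem IsRep.t4_iff {S : PSt} {c : C6} (hc : IsRep S c) : S.T4 ↔ c.T4 := by
  constructor
  · rintro ⟨c', h1, h2⟩
    exact (SEq.T4_iff ⟨c', c', h1, h1, Relation.EqvGen.refl c'⟩ h1 hc).2 h2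
  · exact fun h => ⟨c, hc, h⟩

theorem SEq.t4_iff {S S' : PSt} (h : SEq S S') : S.T4 ↔ S'.T4 := by
  obtain ⟨c, c', h1, h2, h3⟩ := h
  rw [h1.t4_iff, h2.t4_iff, h3.T4_iff]

/-! ## the three classes of one side -/

/-- even area -/
theorem ms_even {a p q : ℤ} (ha : Even a) (h : Prm a p q) {l p0 u : Z2}
    (hL : lat l p0 = Lc a p q) :
    (({red (u + p0)} : Multiset (ZMod 2 × ZMod 2)) + {red (u + p0 + l)} + {red (l + u)}) =
      {red u} + {red u + red (q, p)} + {red u + red (q, p)} := ms_Lc ha h hL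

theorem aux_full : ∀ l p u : ZMod 2 × ZMod 2, (∃ m n : ZMod 2, m • l + n • p = (1, 0)) →
    (∃ m n : ZMod 2, m • l + n • p = (0, 1)) →
    (({u + p} : Multiset (ZMod 2 × ZMod 2)) + {u + p + l} + {l + u}) =
      {u + (1, 0)} + {u + (0, 1)} + {u + (1, 1)} := by
  decide

theorem red_comb (m n : ℤ) (l p : Z2) :
    red (m • l + n • p) = (m : ZMod 2) • red l + (n : ZMod 2) • red p := by
  ext <;> simp [red]

/-- odd area: all the classes except the one of `u` -/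
theorem ms_odd {a p q : ℤ} (ha : Odd a) {l p0 u : Z2} (hL : lat l p0 = Lc a p q) :
    (({red (u + p0)} : Multiset (ZMod 2 × ZMod 2)) + {red (u + p0 + l)} + {red (l + u)}) =
      {red u + (1, 0)} + {red u + (0, 1)} + {red u + (1, 1)} := by
  have m1 : ((a, 0) : Z2) ∈ lat l p0 := by
    rw [hL, mem_Lc]; exact ⟨p, by ring⟩
  have m2 : ((0, a) : Z2) ∈ lat l p0 := by
    rw [hL, mem_Lc]; exact ⟨q, by ring⟩
  obtain ⟨x1, y1, e1⟩ := mem_lat.1 m1
  obtain ⟨x2, y2, e2⟩ := mem_lat.1 m2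
  have ha' : (a : ZMod 2) = 1 := cast_zmod_two'.2 ha
  have k1 : ∃ m n : ZMod 2, m • red l + n • red p0 = (1, 0) := by
    refine ⟨x1, y1, ?_⟩
    rw [← red_comb, e1]
    ext <;> simp [red, ha']
  have k2 : ∃ m n : ZMod 2, m • red l + n • red p0 = (0, 1) := by
    refine ⟨x2, y2, ?_⟩
    rw [← red_comb, e2]
    ext <;> simp [red, ha']
  have := aux_full (red l) (red p0) (red u) k1 k2
  rw [red_add, red_add, red_add, red_add]
  exact this

/-- the seven classes of a K-state, `a` even and `a'` odd -/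
theorem IsRep.ms_eo {a p q a' p' q' : ℤ} (hae : Even a) (hao' : Odd a')
    (h : Prm a p q) {c : C6} (hc : IsRep (KC a p q a' p' q') c) :
    c.ms = {red (1, 0)} + {red (1, 0) + red (q, p)} + {red (1, 0) + red (q, p)} + {red (1, 1)} +
      ({red (0, 1) + (1, 0)} + {red (0, 1) + (0, 1)} + {red (0, 1) + (1, 1)}) := by
  obtain ⟨a0, a1, a2, a3, a4, a5⟩ := c
  obtain ⟨h1, h2, h3, h4, h5⟩ := hc
  change a2 = (1, 0) at h2
  change a3 = (0, 1) at h3
  subst h2 h3
  obtain ⟨x1, x2, x3⟩ := h1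
  obtain ⟨y1, y2, y3⟩ := h5
  change lat a1 (a0 - (1, 0)) = Lc a p q at x3
  change lat a4 (a5 - (0, 1)) = Lc a' p' q' at y3
  have k1 := ms_Lc hae h (u := (1, 0)) x3
  have k2 := ms_odd hao' (l := -a4) (p0 := a5 - (0, 1)) (u := (0, 1))
    (by rw [lat_neg_left]; exact y3)
  have e1 : ((1, 0) : Z2) + (a0 - (1, 0)) = a0 := by abel
  have e2 : ((0, 1) : Z2) + (a5 - (0, 1)) = a5 := by abel
  rw [e1] at k1
  rw [e2] at k2
  have e3 : red (a5 + -a4) = red (a4 + a5) := red_eq (-a4) (by module)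
  have e4 : red (-a4 + (0, 1)) = red ((0, 1) + a4) := red_eq (-a4) (by module)
  rw [e3, e4] at k2
  have e5 : ((1, 0) : Z2) + (0, 1) = (1, 1) := by ext <;> simp
  simp only [C6.ms]
  rw [e5, ← k1, ← k2]
  abel

/-- the seven classes of a K-state, `a` odd and `a'` even -/
theorem IsRep.ms_oe {a p q a' p' q' : ℤ} (hao : Odd a) (hae' : Even a')
    (h' : Prm a' p' q') {c : C6} (hc : IsRep (KC a p q a' p' q') c) :
    c.ms = {red (1, 0) + (1, 0)} + {red (1, 0) + (0, 1)} + {red (1, 0) + (1, 1)} + {red (1, 1)} +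
      ({red (0, 1)} + {red (0, 1) + red (q', p')} + {red (0, 1) + red (q', p')}) := by
  obtain ⟨a0, a1, a2, a3, a4, a5⟩ := c
  obtain ⟨h1, h2, h3, h4, h5⟩ := hc
  change a2 = (1, 0) at h2
  change a3 = (0, 1) at h3
  subst h2 h3
  obtain ⟨x1, x2, x3⟩ := h1
  obtain ⟨y1, y2, y3⟩ := h5
  change lat a1 (a0 - (1, 0)) = Lc a p q at x3
  change lat a4 (a5 - (0, 1)) = Lc a' p' q' at y3
  have k1 := ms_odd hao (u := (1, 0)) x3
  have k2 := ms_Lc hae' h' (l := -a4) (p0 := a5 - (0, 1)) (u := (0, 1))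
    (by rw [lat_neg_left]; exact y3)
  have e1 : ((1, 0) : Z2) + (a0 - (1, 0)) = a0 := by abel
  have e2 : ((0, 1) : Z2) + (a5 - (0, 1)) = a5 := by abel
  rw [e1] at k1
  rw [e2] at k2
  have e3 : red (a5 + -a4) = red (a4 + a5) := red_eq (-a4) (by module)
  have e4 : red (-a4 + (0, 1)) = red ((0, 1) + a4) := red_eq (-a4) (by module)
  rw [e3, e4] at k2
  have e5 : ((1, 0) : Z2) + (0, 1) = (1, 1) := by ext <;> simp
  simp only [C6.ms]
  rw [e5, ← k1, ← k2]
  abel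

theorem aux_T4 : ∀ q p : ZMod 2, (p ≠ 0 ∨ q ≠ 0) →
    ((∃ t, Multiset.count t (({((1, 0) : ZMod 2 × ZMod 2)} : Multiset (ZMod 2 × ZMod 2)) +
      {(1, 0) + (q, p)} + {(1, 0) + (q, p)} + {(1, 1)} +
      ({(0, 1) + (1, 0)} + {(0, 1) + (0, 1)} + {(0, 1) + (1, 1)})) = 4) ↔ q = 0) := by
  decide

theorem aux_T4' : ∀ q p : ZMod 2, (p ≠ 0 ∨ q ≠ 0) →
    ((∃ t, Multiset.count t (({((1, 0) : ZMod 2 × ZMod 2) + (1, 0)} :
      Multiset (ZMod 2 × ZMod 2)) + {(1, 0) + (0, 1)} + {(1, 0) + (1, 1)} + {(1, 1)} +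
      ({(0, 1)} + {(0, 1) + (q, p)} + {(0, 1) + (q, p)})) = 4) ↔ p = 0) := by
  decide

theorem prm_zmod {a p q : ℤ} (ha : Even a) (h : Prm a p q) :
    (p : ZMod 2) ≠ 0 ∨ (q : ZMod 2) ≠ 0 := by
  by_contra hn
  push Not at hn
  rw [cast_zmod_two, cast_zmod_two] at hn
  exact h 2 Nat.prime_two (by exact_mod_cast ha.two_dvd) (by exact_mod_cast hn.1.two_dvd)
    (by exact_mod_cast hn.2.two_dvd)

theorem red_mk (x y : ℤ) : red (x, y) = ((x : ZMod 2), (y : ZMod 2)) := rfl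

/-- `a` even, `a'` odd -/
theorem IsRep.T4_eo {a p q a' p' q' : ℤ} (hae : Even a) (hao' : Odd a') (h : Prm a p q) {c : C6}
    (hc : IsRep (KC a p q a' p' q') c) : c.T4 ↔ Even q := by
  unfold C6.T4
  rw [hc.ms_eo hae hao' h]
  have e3 : red (1, 0) = (1, 0) := by simp [red]
  have e4 : red (0, 1) = (0, 1) := by simp [red]
  have e5 : red (1, 1) = (1, 1) := by simp [red]
  rw [red_mk q p, e3, e4, e5, aux_T4 _ _ (prm_zmod hae h), cast_zmod_two]

/-- `a` odd, `a'` even -/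
theorem IsRep.T4_oe {a p q a' p' q' : ℤ} (hao : Odd a) (hae' : Even a') (h' : Prm a' p' q')
    {c : C6} (hc : IsRep (KC a p q a' p' q') c) : c.T4 ↔ Even p' := by
  unfold C6.T4
  rw [hc.ms_oe hao hae' h']
  have e3 : red (1, 0) = (1, 0) := by simp [red]
  have e4 : red (0, 1) = (0, 1) := by simp [red]
  have e5 : red (1, 1) = (1, 1) := by simp [red]
  rw [red_mk q' p', e3, e4, e5, aux_T4' _ _ (prm_zmod hae' h'), cast_zmod_two]

/-- `a` even, `a'` odd -/
theorem T4_KC_eo {a p q a' p' q' : ℤ} (hae : Even a) (hao' : Odd a') (h : Prm a p q)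
    (hok : (KC a p q a' p' q').Ok) : (KC a p q a' p' q').T4 ↔ Even q := by
  obtain ⟨c, hc⟩ := hok
  rw [hc.t4_iff, hc.T4_eo hae hao' h]

/-- `a` odd, `a'` even -/
theorem T4_KC_oe {a p q a' p' q' : ℤ} (hao : Odd a) (hae' : Even a') (h' : Prm a' p' q')
    (hok : (KC a p q a' p' q').Ok) : (KC a p q a' p' q').T4 ↔ Even p' := by
  obtain ⟨c, hc⟩ := hok
  rw [hc.t4_iff, hc.T4_oe hao hae' h']

/-- two equivalent K-states, `a, b` even and `a', b'` odd -/
theorem SEq.T4_ee {a p q a' p' q' b r s b' r' s' : ℤ} (hae : Even a) (hao' : Odd a')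
    (h : Prm a p q) (hbe : Even b) (hbo' : Odd b') (k : Prm b r s)
    (hs : SEq (KC a p q a' p' q') (KC b r s b' r' s')) : Even q ↔ Even s := by
  rw [← T4_KC_eo hae hao' h hs.ok, hs.t4_iff, T4_KC_eo hbe hbo' k hs.ok']

/-- two equivalent K-states, `a, b'` even and `a', b` odd -/
theorem SEq.T4_eo {a p q a' p' q' b r s b' r' s' : ℤ} (hae : Even a) (hao' : Odd a')
    (h : Prm a p q) (hbo : Odd b) (hbe' : Even b') (k' : Prm b' r' s')
    (hs : SEq (KC a p q a' p' q') (KC b r s b' r' s')) : Even q ↔ Even r' := by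
  rw [← T4_KC_eo hae hao' h hs.ok, hs.t4_iff, T4_KC_oe hbo hbe' k' hs.ok']

/-- two equivalent K-states, `a, b` odd and `a', b'` even -/
theorem SEq.T4_oo {a p q a' p' q' b r s b' r' s' : ℤ} (hao : Odd a) (hae' : Even a')
    (h' : Prm a' p' q') (hbo : Odd b) (hbe' : Even b') (k' : Prm b' r' s')
    (hs : SEq (KC a p q a' p' q') (KC b r s b' r' s')) : Even p' ↔ Even r' := by
  rw [← T4_KC_oe hao hae' h' hs.ok, hs.t4_iff, T4_KC_oe hbo hbe' k' hs.ok']

/-- `T4` for every `K`-state of even volume -/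
theorem T4_KC {N : ℕ} (hN : Even N) {a p q a' p' q' : ℤ} (hv : a + 1 + a' = N) (h : Prm a p q)
    (h' : Prm a' p' q') (hok : (KC a p q a' p' q').Ok) :
    (KC a p q a' p' q').T4 ↔ (Even a ∧ Even q) ∨ (Odd a ∧ Even p') := by
  obtain ⟨t, ht⟩ := hN
  have htz : (N : ℤ) = t + t := by exact_mod_cast ht
  rcases Int.even_or_odd a with hae | hao
  · have hao' : Odd a' := by
      obtain ⟨s, rfl⟩ := hae
      exact ⟨t - s - 1, by linarith⟩
    have hno : ¬ Odd a := Int.not_odd_iff_even.2 hae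
    rw [T4_KC_eo hae hao' h hok]
    simp [hae, hno]
  · have hae' : Even a' := by
      obtain ⟨s, rfl⟩ := hao
      exact ⟨t - s - 1, by linarith⟩
    have hne : ¬ Even a := Int.not_even_iff_odd.2 hao
    rw [T4_KC_oe hao hae' h' hok]
    simp [hao, hne]

end Pool.Agent.H4G
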