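import Pool.Agent.H4G.Ctwo.T1420b
import Pool.Agent.H4G.Ctwo.Glue
import Pool.Agent.H4G.Ctwo.Type4
import Pool.Agent.H4G.Ctwo.Main

/-!
# The type `(1, [4,2,0])`: from one cusp to the generic state (helper37)

Orientation T: `KC b p q b' 1 (-y)`, `b = 2 mod 4`, `b'` odd, `p` prime to `b`, `q` even, `y`
arbitrary. `KC.levT` : to a good level and to balanced sides; `KC.lastT` : to a generic state;
`KC.t1420` : both.
-/

set_option autoImplicit false

namespace Pool.Agent.H4G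

open MatrixGroups

/-- to the normal form `{X = 0 mod a}` of the left lattice -/
theorem KC.nfT {a p q a' p' q' : ℤ} (ha4 : a % 4 = 2) (ha' : 0 < a') (hn : OC a (a' + 1)) (hp : IsCoprime p a) (hq : (2 : ℤ) ∣ q)
    (hp' : IsCoprime p' a') (hok : (KC a p q a' p' q').Ok) :
    SEq (KC a p q a' p' q') (KC a 1 0 a' p' q') := by
  obtain ⟨m, ea⟩ : ∃ m, a = 2 * m := ⟨a / 2, by omega⟩
  have hm2 : ¬ (2 : ℤ) ∣ m := by omega
  have hma : m ∣ a := ⟨2, by rw [ea]; ring⟩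
  have cpm : IsCoprime m p := (hp.of_isCoprime_of_dvd_right hma).symm
  have cnm : IsCoprime m (a' + 1) := (hn.of_dvd hma).isCoprime hm2
  obtain ⟨u, y, huy⟩ := cnm.mul_right cpm
  have s1 := KC.H1 ha' hp' (y * q) hok
  have d1 : m ∣ q - y * q * (a' + 1) * p := ⟨u * q, by linear_combination (-q) * huy⟩
  have d2 : (2 : ℤ) ∣ q - y * q * (a' + 1) * p := by
    have : q - y * q * (a' + 1) * p = q * (1 - y * (a' + 1) * p) := by ring
    rw [this]; exact hq.mul_right _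
  have d3 : a ∣ q - y * q * (a' + 1) * p := by
    rw [ea]
    exact ((Prime.coprime_iff_not_dvd Int.prime_two).2 hm2).mul_dvd d2 d1
  have e1 : KC a p (q - y * q * (a' + 1) * p) a' p' q' = KC a 1 0 a' p' q' := by
    rw [← KC.unit (a := a) (p := 1) (q := 0) (t := p) hp.symm]
    refine KC.congr (by simp) ?_ (by simp) (by simp)
    obtain ⟨c, hc⟩ := d3
    exact ⟨-c, by linear_combination -hc⟩
  rwa [e1] at s1

/-- from the normal form to any left lattice with `p` a unit and `q` even -/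
theorem KC.ofT {a p q a' p' q' : ℤ} (ha4 : a % 4 = 2) (ha' : 0 < a') (hn : OC a (a' + 1)) (hp : IsCoprime p a) (hq : (2 : ℤ) ∣ q)
    (hp' : IsCoprime p' a') (hok : (KC a 1 0 a' p' q').Ok) :
    SEq (KC a 1 0 a' p' q') (KC a p q a' p' q') := by
  obtain ⟨m, ea⟩ : ∃ m, a = 2 * m := ⟨a / 2, by omega⟩
  have hm2 : ¬ (2 : ℤ) ∣ m := by omega
  have hma : m ∣ a := ⟨2, by rw [ea]; ring⟩
  have cpm : IsCoprime m p := (hp.of_isCoprime_of_dvd_right hma).symm
  have cnm : IsCoprime m (a' + 1) := (hn.of_dvd hma).isCoprime hm2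
  obtain ⟨u, y, huy⟩ := cnm.mul_right cpm
  have s1 := KC.H1 ha' hp' (-(y * q)) hok
  have d1 : m ∣ q - y * q * (a' + 1) * p := ⟨u * q, by linear_combination (-q) * huy⟩
  have d2 : (2 : ℤ) ∣ q - y * q * (a' + 1) * p := by
    have : q - y * q * (a' + 1) * p = q * (1 - y * (a' + 1) * p) := by ring
    rw [this]; exact hq.mul_right _
  have d3 : a ∣ q - y * q * (a' + 1) * p := by
    rw [ea]
    exact ((Prime.coprime_iff_not_dvd Int.prime_two).2 hm2).mul_dvd d2 d1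
  have e1 : KC a 1 (0 - -(y * q) * (a' + 1) * 1) a' p' q' = KC a p q a' p' q' := by
    rw [← KC.unit (a := a) (p := 1) (q := 0 - -(y * q) * (a' + 1) * 1) (t := p) hp.symm]
    refine KC.congr ⟨0, by ring⟩ ?_ (by simp) (by simp)
    obtain ⟨c, hc⟩ := d3
    exact ⟨c, by linear_combination hc⟩
  rwa [e1] at s1

/-- vertical shears at the normal form: by all even numbers -/
theorem KC.vT {a a' p' q' : ℤ} (ha : 0 < a) (j : ℤ) (hok : (KC a 1 0 a' p' q').Ok) :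
    SEq (KC a 1 0 a' p' q') (KC a 1 0 a' (p' - 2 * j * q') q') := by
  have hok' : (KC (1 * a) 1 (0 * a) a' p' q').Ok := by rwa [one_mul, zero_mul]
  have s2 := KC.V (s := 1) (d := a) (p := 1) (q1 := 0) (p2 := 1) one_pos ha isCoprime_one_right
    isCoprime_one_left j isCoprime_one_left (one_dvd _) hok'
  rw [one_mul, zero_mul] at s2
  have e : p' - j * (1 + 1) * q' = p' - 2 * j * q' := by ring
  rwa [e] at s2

/-- THE LAST STEP: one right exit, one controlled landing, the mirror -/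
theorem KC.lastT {J Z : ℕ} {N b p q b' y S : ℤ} (hcap : Cap J Z) (hZ : (2 * N) ^ 8 ≤ Z)
    (hJ : 1 ≤ J) (hS0 : 0 ≤ S) (hS : N ≤ S ^ 2) (hb4 : b % 4 = 2) (hb'2 : ¬ (2 : ℤ) ∣ b')
    (hN : b + 1 + b' = N) (g : GLev N b) (hsz : 2 ^ 5 * S * (J : ℤ) ^ 4 ≤ b)
    (hsz' : 2 ^ 8 * (J : ℤ) ^ 4 ≤ b') (hp : IsCoprime p b) (hq : (2 : ℤ) ∣ q)
    (hok : (KC b p q b' 1 (-y)).Ok) :
    ∃ c p1 q1 c' y1 : ℤ, SEq (KC b p q b' 1 (-y)) (KC c p1 q1 c' 1 (-y1)) ∧ c % 4 = 2 ∧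
      ¬ (2 : ℤ) ∣ c' ∧ c + 1 + c' = N ∧ GLev N c ∧ b' ≤ 2 * c ∧ b ≤ c' ∧ IsCoprime p1 c ∧
      (2 : ℤ) ∣ q1 ∧ IsCoprime y1 c' := by
  have hJ1 : (1 : ℤ) ≤ (J : ℤ) := by exact_mod_cast hJ
  have hJ2 : (1 : ℤ) ≤ (J : ℤ) ^ 2 := one_le_pow₀ hJ1
  have hJ4 : (1 : ℤ) ≤ (J : ℤ) ^ 4 := one_le_pow₀ hJ1
  have hb'0 : 0 < b' := by linarith
  have hNpos : 0 < N := by
    by_contra h
    push Not at h
    have : 0 ≤ b := le_trans (by positivity) hsz
    linarith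
  have hS1 : 1 ≤ S := by
    by_contra h
    have h0 : S = 0 := by omega
    rw [h0] at hS
    norm_num at hS
    linarith
  have hb0 : 0 < b := by
    have : 0 < 2 ^ 5 * S * (J : ℤ) ^ 4 := by positivity
    linarith
  have hbN : b < N := by linarith
  have hb'N : b' < N := by linarith
  have hn : OC b (b' + 1) := by
    intro l hl l2 l3 l4
    refine g.1 l hl l2 l3 ?_
    have : N = b + (b' + 1) := by rw [← hN]; ring
    rw [this]; exact dvd_add l3 l4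
  have hlev : ∀ l : ℕ, l.Prime → l ≠ 2 → (l : ℤ) ∣ N → ¬ (l : ℤ) ∣ b' ∧ ¬ (l : ℤ) ∣ b' + 1 := by
    intro l hl l2 l3
    refine ⟨fun h => g.2 l hl l2 ?_ l3, fun h => g.1 l hl l2 ?_ l3⟩
    · have := dvd_sub l3 h
      have e1 : N - b' = b + 1 := by rw [← hN]; ring
      rwa [e1] at this
    · have := dvd_sub l3 h
      have e1 : N - (b' + 1) = b := by rw [← hN]; ring
      rwa [e1] at this
  -- the normal form
  have s1 := KC.nfT hb4 hb'0 hn hp hq isCoprime_one_left hok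
  have hy : ¬ b' ∣ y := fun h => (KC.ok_iff s1.ok').2 ((dvd_neg).2 h)
  obtain ⟨e, k, g0, q2, y1, k1, w, f1, f2, f3, f4, f5, f6, f7, f8, f9, f10, f11, f12, f13, f14,
    f15, f16, f17, f18, f19, f20⟩ := fixT (c := b' - 2) hcap hZ hJ hb'2 hy hb'N hlev hsz'
      (by omega)
  have he2 : ¬ (2 : ℤ) ∣ e := by omega
  have hq22 : IsCoprime 2 q2 :=
    (Prime.coprime_iff_not_dvd Int.prime_two).2 (fun h => hb'2 (by rw [f15]; exact h.mul_left _))
  obtain ⟨j, hj⟩ := Lc_target f15 f16 f17 f18 f19 hq22 f9 f20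
  have s2 := KC.vT hb0 j s1.ok'
  have e2 : KC b 1 0 b' (1 - 2 * j * -y) (-y) = KC b 1 0 b' e k := by
    unfold KC
    rw [← hj]
    congr 2
    ring
  rw [e2] at s2
  -- the size of `e`
  have heS : e ≤ S * (4 * (J : ℤ) ^ 2 + 1) := by
    have h1 : e ^ 2 ≤ (S * (4 * (J : ℤ) ^ 2 + 1)) ^ 2 := by
      calc e ^ 2 ≤ b' * (4 * (J : ℤ) ^ 2 + 1) ^ 2 := f8
        _ ≤ S ^ 2 * (4 * (J : ℤ) ^ 2 + 1) ^ 2 :=
            mul_le_mul_of_nonneg_right (by linarith) (by positivity)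
        _ = _ := by ring
    exact le_of_sq_le_sq h1 (by positivity)
  have hsize : (1 + e) * (2 * (J : ℤ) ^ 2 + 2) ≤ b := by
    have h1 : 1 + e ≤ S * (6 * (J : ℤ) ^ 2) := by
      have : S * (6 * (J : ℤ) ^ 2) = S * (4 * (J : ℤ) ^ 2 + 1) + S * (2 * (J : ℤ) ^ 2 - 1) := by
        ring
      have h2 : 1 * 1 ≤ S * (2 * (J : ℤ) ^ 2 - 1) :=
        mul_le_mul hS1 (by linarith) (by norm_num) hS0
      linarith
    have h3 : (1 + e) * (2 * (J : ℤ) ^ 2 + 2) ≤ S * (6 * (J : ℤ) ^ 2) * (4 * (J : ℤ) ^ 2) :=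
      mul_le_mul h1 (by linarith) (by linarith) (by positivity)
    have h4 : S * (6 * (J : ℤ) ^ 2) * (4 * (J : ℤ) ^ 2) = 24 * S * (J : ℤ) ^ 4 := by ring
    have h5 : 24 * S * (J : ℤ) ^ 4 ≤ 2 ^ 5 * S * (J : ℤ) ^ 4 := by
      have : 0 ≤ S * (J : ℤ) ^ 4 := by positivity
      linarith
    linarith
  obtain ⟨X, Y, x1, x2, x3, x4, x5, x6⟩ := exists_XYodd hcap hb0 f1 (by
      have h1 : b * (b + e) ≤ N * (2 * N) :=
        mul_le_mul hbN.le (by linarith) (by linarith) hNpos.le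
      have h2 : N * (2 * N) ≤ (2 * N) ^ 8 := by
        have h3 : (2 * N) ^ 2 ≤ (2 * N) ^ 8 := pow_le_pow_right₀ (by linarith) (by norm_num)
        have h4 : N * (2 * N) ≤ (2 * N) ^ 2 := by nlinarith
        linarith
      linarith) (by omega) he2 f5 f13 f14 hsize
  have hY2 : ¬ (2 : ℤ) ∣ Y := by
    intro h
    exact not_dvd_of_isCoprime x5 Nat.prime_two (by exact_mod_cast (by omega : (2 : ℤ) ∣ b))
      (by exact_mod_cast h)
  -- the left lattice
  have s3 := KC.ofT hb4 hb'0 hn x5 x4 f9 s2.ok'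
  -- the jump
  have hP : Prm b Y X := fun l hl h1 h2 _ => not_dvd_of_isCoprime x5 hl h1 h2
  have hP' : Prm b' e k := fun l hl h1 h2 _ => not_dvd_of_isCoprime f9 hl h1 h2
  have s4 := KC.jumpR hb0 hb'0 hP hP' s3.ok' (s := -1) (X := X) (Y := Y) (Or.inr rfl) f1.le f2 f3 f10
    ⟨0, by ring⟩ ⟨0, by ring⟩ (by linear_combination x1) x2 x3
  have s5 := KC.mirror s4.ok'
  refine ⟨b' - e, e - k, -(k * Y + -1 * e * X + (Y + e) * (e - k)), b + e, Y + e,
    (((s1.trans s2).trans s3).trans s4).trans s5, by omega, by omega, by linarith, ?_, by linarith,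
    by linarith, ?_, ?_, x6⟩
  · exact ⟨fun l hl l2 l3 l4 => (f12 l hl l2 l4).1 l3, fun l hl l2 l3 l4 => (f12 l hl l2 l4).2 l3⟩
  · have h1 : IsCoprime (-(k - e)) (b' - e) := f11.neg_left
    have e1 : -(k - e) = e - k := by ring
    rwa [e1] at h1
  · rw [dvd_neg]
    have e1 : k * Y + -1 * e * X + (Y + e) * (e - k) = e * (Y - X + e - k) := by ring
    rw [e1]
    exact Dvd.dvd.mul_left (by omega) e

/-- TO A GOOD LEVEL AND TO BALANCED SIDES: one left exit with `l = (e, e + 1)` -/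
theorem KC.levT {J Z : ℕ} {N b p q b' y : ℤ} (hcap : Cap J Z) (hZ : (2 * N) ^ 8 ≤ Z)
    (hJ : 1 ≤ J) (hb4 : b % 4 = 2) (hb'2 : ¬ (2 : ℤ) ∣ b') (hb'0 : 0 < b')
    (hN : b + 1 + b' = N) (g : OC b N) (hsz : 2 ^ 6 * (J : ℤ) ^ 2 ≤ b)
    (hp : IsCoprime p b) (hq : (2 : ℤ) ∣ q) (hok : (KC b p q b' 1 (-y)).Ok) :
    ∃ c p1 q1 c' y1 : ℤ, SEq (KC b p q b' 1 (-y)) (KC c p1 q1 c' 1 (-y1)) ∧ c % 4 = 2 ∧
      ¬ (2 : ℤ) ∣ c' ∧ c + 1 + c' = N ∧ GLev N c ∧ b ≤ 2 * c ∧ b ≤ 8 * c' ∧ IsCoprime p1 c ∧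
      (2 : ℤ) ∣ q1 := by
  have hJ1 : (1 : ℤ) ≤ (J : ℤ) := by exact_mod_cast hJ
  have hJ2 : (1 : ℤ) ≤ (J : ℤ) ^ 2 := one_le_pow₀ hJ1
  have hb0 : 0 < b := by linarith
  have hN0 : 0 < N := by linarith
  have hn : OC b (b' + 1) := by
    intro l hl l2 l3 l4
    refine g l hl l2 l3 ?_
    have : N = b + (b' + 1) := by rw [← hN]; ring
    rw [this]; exact dvd_add l3 l4
  have s1 := KC.nfT hb4 hb'0 hn hp hq isCoprime_one_left hok
  -- the choice of `e`
  have hMpos : 0 < b * b' * N := by positivity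
  obtain ⟨M, hM⟩ := Int.eq_ofNat_of_zero_le hMpos.le
  have hMne : M ≠ 0 := by
    rintro rfl
    rw [hM] at hMpos
    simp at hMpos
  have hMle : M ≤ Z := by
    have h1 : b * b' * N ≤ (2 * N) ^ 8 := by
      have a1 : b * b' ≤ N * N := mul_le_mul (by linarith) (by linarith) hb'0.le hN0.le
      have a2 : b * b' * N ≤ N * N * N := mul_le_mul_of_nonneg_right a1 hN0.le
      have a3 : N * N * N ≤ (2 * N) ^ 3 := by
        have : (2 * N) ^ 3 = N * N * N + 7 * (N * N * N) := by ring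
        have h0 : 0 ≤ N * N * N := by positivity
        linarith
      have a4 : (2 * N) ^ 3 ≤ (2 * N) ^ 8 := pow_le_pow_right₀ (by linarith) (by norm_num)
      linarith
    have h2 : ((M : ℕ) : ℤ) ≤ (Z : ℤ) := by rw [← hM]; linarith
    exact_mod_cast h2
  have h8 := hcap.eight hMne hMle
  obtain ⟨e, t1, t2, t3, t4⟩ := sieve3 hMne 2 (fun l t =>
      ((l : ℤ) ∣ b * b' → ¬ (l : ℤ) ∣ t - (-1)) ∧
      ((l : ℤ) ∣ N → ¬ (l : ℤ) ∣ t - b ∧ ¬ (l : ℤ) ∣ t - (b + 1)))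
    (by
      intro l hl hl2 _
      by_cases h3 : l = 3
      · subst h3
        by_cases hN3 : ((3 : ℕ) : ℤ) ∣ N
        · have n1 : ¬ ((3 : ℕ) : ℤ) ∣ b := fun h => g 3 hl hl2 h hN3
          obtain ⟨x, x1, x2⟩ := avoid2 hl hl2 b (b + 1)
          refine ⟨b, b + 1, b + 1, ?_, x, x1, x2, x2⟩
          intro t h1 h2 _
          refine ⟨fun _ h => ?_, fun _ => ⟨h1, h2⟩⟩
          push_cast at n1 h h1 h2
          clear x1 x2
          have u1 : t % 3 = 2 := by omega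
          have u2 : b % 3 = 1 ∨ b % 3 = 2 := by omega
          rcases u2 with u2 | u2
          · exact h2 (by omega)
          · exact h1 (by omega)
        · obtain ⟨x, x1, x2⟩ := avoid2 hl hl2 (-1) (-1)
          exact ⟨-1, -1, -1, fun t h1 _ _ => ⟨fun _ => h1, fun h => absurd h hN3⟩, x, x1, x1, x1⟩
      · have hl3 : 3 < l := by
          have := hl.two_le
          omega
        obtain ⟨x, x1, x2, x3⟩ := avoid3T hl3 (-1) b (b + 1)
        exact ⟨-1, b, b + 1, fun t h1 h2 h3 => ⟨fun _ => h1, fun _ => ⟨h2, h3⟩⟩, x, x1, x2, x3⟩)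
    0 (b / 4)
  have e4 : (4 : ℤ) ∣ e := by
    have h : (2 : ℤ) ^ 2 = 4 := by norm_num
    rw [h, sub_zero] at t3
    exact t3
  have t2' : e < b / 4 + 4 * (J : ℤ) ^ 2 := by
    have h1 : (2 : ℤ) ^ 2 * 8 ^ M.primeFactors.card ≤ 4 * (J : ℤ) ^ 2 := by linarith
    linarith
  have he0 : 0 < e := by
    have : 0 < b / 4 := by omega
    linarith
  have heb : 2 * e ≤ b := by omega
  have pb : ∀ l : ℕ, l.Prime → (l : ℤ) ∣ b * b' → ¬ (l : ℤ) ∣ e + 1 := by
    intro l hl h h'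
    by_cases hl2 : l = 2
    · subst hl2
      have : (2 : ℤ) ∣ e + 1 := by exact_mod_cast h'
      omega
    · refine (t4 l hl hl2 (by rw [← hM]; exact h.mul_right _)).1 h ?_
      rwa [sub_neg_eq_add]
  have pN : ∀ l : ℕ, l.Prime → l ≠ 2 → (l : ℤ) ∣ N → ¬ (l : ℤ) ∣ b - e ∧ ¬ (l : ℤ) ∣ b - e + 1 := by
    intro l hl hl2 h
    have h3 := (t4 l hl hl2 (by rw [← hM]; exact h.mul_left _)).2 h
    refine ⟨fun h' => h3.1 ?_, fun h' => h3.2 ?_⟩
    · have e1 : e - b = -(b - e) := by ring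
      rw [e1]; exact (dvd_neg).2 h'
    · have e1 : e - (b + 1) = -(b - e + 1) := by ring
      rw [e1]; exact (dvd_neg).2 h'
  -- the vertical shear
  obtain ⟨j, hj⟩ := crt_exists b' hb'0.ne' (fun l j => ¬ (l : ℤ) ∣ 1 + 2 * y * j ∧
      ¬ (l : ℤ) ∣ (1 + e - y * (e + 2)) + 2 * y * (1 + e) * j) (by
      intro l hl hd
      have hlp := Nat.prime_iff_prime_int.1 hl
      have hl2 : l ≠ 2 := by
        rintro rfl
        exact hb'2 (by exact_mod_cast hd)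
      have hle := pb l hl (hd.mul_left b)
      by_cases hy : (l : ℤ) ∣ y
      · refine ⟨0, ?_, ?_⟩
        · rw [mul_zero, add_zero]
          exact prime_not_dvd_one hl
        · intro h
          apply hle
          have e1 : e + 1 = (1 + e - y * (e + 2) + 2 * y * (1 + e) * 0) + y * (e + 2) := by ring
          rw [e1]
          exact dvd_add h (hy.mul_right _)
      · have h2y : ¬ (l : ℤ) ∣ 2 * y := fun h => (hlp.dvd_or_dvd h).elim
          (prime_not_dvd_two hl hl2) hy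
        obtain ⟨r1, hr1⟩ := lin_class hl (α := 1) (β := 2 * y) (fun h => absurd h h2y)
        obtain ⟨r2, hr2⟩ := lin_class hl (α := 1 + e - y * (e + 2)) (β := 2 * y * (1 + e))
          (fun h => absurd h (fun h => (hlp.dvd_or_dvd h).elim h2y (by
            intro h; rw [add_comm] at h; exact hle h)))
        obtain ⟨x, x1, x2⟩ := avoid2 hl hl2 r1 r2
        exact ⟨x, hr1 x x1, hr2 x x2⟩) (by
      intro l hl _ k k' h3 h4
      obtain ⟨v, hv⟩ := h3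
      have hk' : k' = k + l * v := by linear_combination hv
      refine ⟨fun h => h4.1 ?_, fun h => h4.2 ?_⟩
      · have e1 : 1 + 2 * y * k = (1 + 2 * y * k') - l * (2 * y * v) := by rw [hk']; ring
        rw [e1]; exact dvd_sub h (Dvd.intro _ rfl)
      · have e1 : 1 + e - y * (e + 2) + 2 * y * (1 + e) * k =
            (1 + e - y * (e + 2) + 2 * y * (1 + e) * k') - l * (2 * y * (1 + e) * v) := by
          rw [hk']; ring
        rw [e1]; exact dvd_sub h (Dvd.intro _ rfl))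
  have s2 := KC.vT hb0 j s1.ok'
  have e2 : (1 : ℤ) - 2 * j * -y = 1 + 2 * y * j := by ring
  rw [e2] at s2
  have c1 : IsCoprime (1 + 2 * y * j) b' := by
    apply isCoprime_of_prime
    intro l hl h2 h1
    exact (hj l hl h2).1 h1
  have cb : IsCoprime (e + 1) b := by
    apply isCoprime_of_prime
    intro l hl h2 h1
    exact pb l hl (h2.mul_right _) h1
  have he2 : (2 : ℤ) ∣ -e := by omega
  have s3 := KC.ofT hb4 hb'0 hn cb he2 c1 s2.ok'
  -- the exit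
  have cee : IsCoprime e (e + 1) := ⟨-1, 1, by ring⟩
  have hP : ∀ n : ℤ, Prm n (e + 1) (-e) := fun n l hl _ h1 h2 =>
    not_dvd_of_isCoprime cee hl h1 ((dvd_neg).1 h2)
  have hP' : Prm b' (1 + 2 * y * j) (-y) := fun l hl h1 h2 _ =>
    not_dvd_of_isCoprime c1 hl h1 h2
  have hIC : IsC (Lc b' (1 + 2 * y * j) (-y)) (1 + e, 1 * (1 + (e + 1))) 1 := by
    have h1 := isC_gcd (a := b') (X := 1 + e) (Y := 1 * (1 + (e + 1))) hb'0 hP'
      ⟨-1, 1, by ring⟩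
    have h2 : Int.gcd b' ((1 + 2 * y * j) * (1 + e) + -y * (1 * (1 + (e + 1)))) = 1 := by
      apply Int.isCoprime_iff_gcd_eq_one.1
      apply isCoprime_of_prime
      intro l hl h2 h1
      refine (hj l hl h1).2 ?_
      have e1 : 1 + e - y * (e + 2) + 2 * y * (1 + e) * j =
          (1 + 2 * y * j) * (1 + e) + -y * (1 * (1 + (e + 1))) := by ring
      rw [e1]; exact h2
    rw [h2] at h1
    exact_mod_cast h1
  obtain ⟨q1, M', k1, k2, k3, k4⟩ := KC.exitK (a := b) (p := e + 1) (q := -e) (s := 1) (e := e)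
    (h := e + 1) (m := 0) (c := 1) (a' := b') (Or.inl rfl) he0.le (by linarith) (by linarith)
    (by ring) (fun l hl h1 h2 _ => not_dvd_of_isCoprime cee hl h2 h1) (hP b)
    (by rw [mul_zero, sub_zero]; exact hP _) (isArea_Lc hb'0 hP') hIC (one_dvd _) s3.ok'
  obtain ⟨x, rfl⟩ := IsC.exists_x k3 k4
  have e3 : e + 1 + 1 * (-e - 0) = 1 := by ring
  rw [e3] at k1 k2
  have s4 : SEq (KC b (e + 1) (-e) b' (1 + 2 * y * j) (-y)) (KC (b - e) 1 q1 (b' + e) 1 (-x)) := k2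
  have hbe : Even b := even_iff_two_dvd.2 (by omega)
  have hbo : Odd b' := Int.not_even_iff_odd.1 (fun h => hb'2 (even_iff_two_dvd.1 h))
  have hce : Even (b - e) := even_iff_two_dvd.2 (by omega)
  have hco : Odd (b' + e) := Int.not_even_iff_odd.1 (fun h => by
    have := even_iff_two_dvd.1 h
    omega)
  have hev := (SEq.T4_ee hbe hbo (hP b) hce hco k1 s4).1 (even_iff_two_dvd.2 he2)
  refine ⟨b - e, 1, q1, b' + e, x, ((s1.trans s2).trans s3).trans s4, by omega, by omega,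
    by linarith, ?_, by linarith, by omega, isCoprime_one_left, even_iff_two_dvd.1 hev⟩
  exact ⟨fun l hl l2 l3 l4 => (pN l hl l2 l4).1 l3, fun l hl l2 l3 l4 => (pN l hl l2 l4).2 l3⟩

/-- THE TYPE `(1, [4,2,0])`: from `c = 1`, left cusp `1`, `OC b N` to a generic state; the right
slope and the size of the right side are arbitrary. -/
theorem KC.t1420 {J Z : ℕ} {N b p q b' y S : ℤ} (hcap : Cap J Z) (hZ : (2 * N) ^ 8 ≤ Z)
    (hJ : 1 ≤ J) (hS0 : 0 ≤ S) (hS : N ≤ S ^ 2) (hb4 : b % 4 = 2) (hb'2 : ¬ (2 : ℤ) ∣ b')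
    (hb'0 : 0 < b') (hN : b + 1 + b' = N) (g : OC b N) (hsz : 2 ^ 8 * S * (J : ℤ) ^ 4 ≤ b)
    (hp : IsCoprime p b) (hq : (2 : ℤ) ∣ q) (hok : (KC b p q b' 1 (-y)).Ok) :
    ∃ G, SEq (KC b p q b' 1 (-y)) G ∧ GenT J N G := by
  have hJ1 : (1 : ℤ) ≤ (J : ℤ) := by exact_mod_cast hJ
  have hJ4 : (1 : ℤ) ≤ (J : ℤ) ^ 4 := one_le_pow₀ hJ1
  have hJ24 : (J : ℤ) ^ 2 ≤ (J : ℤ) ^ 4 := pow_le_pow_right₀ hJ1 (by norm_num)
  have hS1 : 1 ≤ S := by
    by_contra h
    have h0 : S = 0 := by omega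
    rw [h0] at hS hsz
    norm_num at hS hsz
    linarith
  have hSJ : 0 ≤ S * (J : ℤ) ^ 4 := by positivity
  have hSb : 2 ^ 8 ≤ S := by
    by_contra h
    push Not at h
    have h1 : S ^ 2 < 2 ^ 8 * S := by nlinarith
    have h2 : 2 ^ 8 * S * 1 ≤ 2 ^ 8 * S * (J : ℤ) ^ 4 :=
      mul_le_mul_of_nonneg_left hJ4 (by positivity)
    linarith
  have hb16 : 2 ^ 16 * (J : ℤ) ^ 4 ≤ b := by
    have : 2 ^ 8 * 2 ^ 8 * (J : ℤ) ^ 4 ≤ 2 ^ 8 * S * (J : ℤ) ^ 4 :=
      mul_le_mul_of_nonneg_right (by linarith) (by positivity)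
    linarith
  obtain ⟨c, p1, q1, c', y1, k1, k2, k3, k4, k5, k6, k7, k8, k9⟩ :=
    KC.levT hcap hZ hJ hb4 hb'2 hb'0 hN g (by linarith) hp hq hok
  obtain ⟨c2, p2, q2, c2', y2, m1, m2, m3, m4, m5, m6, m7, m8, m9, m10⟩ :=
    KC.lastT (S := S) hcap hZ hJ hS0 hS k2 k3 k4 k5 (by linarith) (by linarith) k8 k9 k1.ok'
  refine ⟨_, k1.trans m1, c2, p2, q2, c2', y2, rfl, m1.ok', m2, m3, m4, m5, by linarith,
    by linarith, m8, m9, m10⟩

end Pool.Agent.H4G
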