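import Pool.Agent.H4G.Ctwo.ExitFin
import Pool.Agent.H4G.Ctwo.T1420

/-!
# The type `(1, [4,2,0])`: the end of the first move (helper37)
-/

set_option autoImplicit false

namespace Pool.Agent.H4G

/-- THE END OF THE FIRST MOVE, type `(1, [4,2,0])`: `k e` odd, the new left side is even -/
theorem KSt.exitFinT {N a z a' p' q' s e h j : ℤ} (k : ℕ) (S : KSt N a z a' p' q')
    (ha2 : ¬ (2 : ℤ) ∣ a) (ha'2 : (2 : ℤ) ∣ a') (hp2 : (2 : ℤ) ∣ p')
    (hs : s = 1 ∨ s = -1) (he : 0 ≤ e) (heh : (k : ℤ) * e < h)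
    (hh0 : 0 < h) (hha : h ≤ a) (hh : h = s * e * z + j * a) (h4E : (a - k * e) % 4 = 2)
    (hh2 : (2 : ℤ) ∣ h)
    (hl : ∀ l : ℕ, l.Prime → l ≠ 2 → ExK l a a' N z s p' q' e h j k) :
    ∃ p q y : ℤ, (a - k * e) % 4 = 2 ∧ ¬ (2 : ℤ) ∣ a' + k * e ∧ 0 < a' + k * e ∧
      (a - k * e) + 1 + (a' + k * e) = N ∧ OC (a - k * e) N ∧ IsCoprime p (a - k * e) ∧
      (2 : ℤ) ∣ q ∧
      SEq (KC a z (-1) a' p' q') (KC (a - k * e) p q (a' + k * e) 1 (-y)) := by
  have hkeo : ¬ (2 : ℤ) ∣ (k : ℤ) * e := by omega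
  have hko : ¬ (2 : ℤ) ∣ (k : ℤ) := fun h => hkeo (h.mul_right e)
  have heo : ¬ (2 : ℤ) ∣ e := fun h => hkeo (h.mul_left _)
  have hq2 : ¬ (2 : ℤ) ∣ q' := fun h => S.hP 2 Nat.prime_two (by exact_mod_cast ha'2)
    (by exact_mod_cast hp2) (by exact_mod_cast h)
  have hs2 : ¬ (2 : ℤ) ∣ s := by rcases hs with rfl | rfl <;> norm_num
  have h1h : ¬ (2 : ℤ) ∣ 1 + h := by omega
  have hkh : ¬ (2 : ℤ) ∣ (k : ℤ) * (1 + h) := fun h =>
    (Int.prime_two.dvd_or_dvd h).elim hko h1h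
  have hej : IsCoprime e j := by
    refine isCoprime_of_prime fun l hl' h1 h2 => ?_
    by_cases hl2 : l = 2
    · subst hl2; exact heo (by exact_mod_cast h2)
    · exact (hl l hl' hl2).prim ⟨h2, h1⟩
  have hco : IsCoprime (1 + k * e) (k * (1 + h)) := by
    refine isCoprime_of_prime fun l hl' h1 h2 => ?_
    by_cases hl2 : l = 2
    · subst hl2; exact hkh (by exact_mod_cast h1)
    · exact (hl l hl' hl2).cont ⟨h2, h1⟩
  have hke : 0 ≤ (k : ℤ) * e := mul_nonneg (Int.natCast_nonneg k) he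
  have hb : 0 < a - k * e := by linarith
  have hb' : 0 < a' + k * e := by linarith [S.ha']
  obtain ⟨q1, x, k1, k2⟩ := KC.exitLk k hs he heh hh0 hha hh hej S.ha' S.hP hco
    (fun r hr h1 h2 h3 => by
      by_cases hr2 : r = 2
      · subst hr2
        exact absurd (by exact_mod_cast h3) hq2
      · exact (hl r hr hr2).free h1 h2 h3)
    (fun r hr h1 h2 h3 => by
      by_cases hr2 : r = 2
      · subst hr2
        have h3' : (2 : ℤ) ∣ p' * (1 + k * e) + q' * (k * (s * (1 + h))) := by exact_mod_cast h3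
        have h5 : (2 : ℤ) ∣ q' * (k * (s * (1 + h))) :=
          (dvd_add_right (hp2.mul_right _)).1 h3'
        rcases Int.prime_two.dvd_or_dvd h5 with h6 | h6
        · exact hq2 h6
        · rcases Int.prime_two.dvd_or_dvd h6 with h7 | h7
          · exact hko h7
          · rcases Int.prime_two.dvd_or_dvd h7 with h8 | h8
            · exact hs2 h8
            · exact h1h h8
      · exact (hl r hr hr2).froz h1 h2 h3) S.ok
  have hao : Odd a := by rw [← Int.not_even_iff_odd, even_iff_two_dvd]; exact ha2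
  have hae' : Even a' := even_iff_two_dvd.2 ha'2
  have hbe : Even (a - k * e) := even_iff_two_dvd.2 (by omega)
  have hbo : Odd (a' + k * e) := by
    rw [← Int.not_even_iff_odd, even_iff_two_dvd]; omega
  have hev : Even q1 :=
    (SEq.T4_eo hbe hbo k1 hao hae' S.hP k2.symm).2 (even_iff_two_dvd.2 hp2)
  have hq1 : (2 : ℤ) ∣ q1 := even_iff_two_dvd.1 hev
  refine ⟨z + k * (s * (j - 1)), q1, x, h4E, by omega, hb', by rw [← S.hN]; ring, ?_, ?_, hq1, k2⟩
  · exact fun l hl' hl2 h1 h2 => (hl l hl' hl2).lev h2 h1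
  · refine isCoprime_of_prime fun l hl' h1 h2 => ?_
    by_cases hl2 : l = 2
    · subst hl2
      exact k1 2 Nat.prime_two h1 h2 (by exact_mod_cast hq1)
    · exact (hl l hl' hl2).cusp h1 h2

end Pool.Agent.H4G
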