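import Pool.Agent.H4G.Ctwo.G2step

/-!
# FIX-K (helper31): the arithmetic of an exit from a side with an arbitrary cusp
-/

set_option autoImplicit false

namespace Pool.Agent.H4G

/-- linear congruence -/
theorem lin_cong {A B q D : ℤ} (hD : ∀ d : ℤ, d ∣ A → d ∣ q → d ∣ D) (hB : D ∣ B) :
    ∃ κ : ℤ, q ∣ A * κ - B := by
  have h1 : (Int.gcd A q : ℤ) ∣ B := (hD _ (Int.gcd_dvd_left _ _) (Int.gcd_dvd_right _ _)).trans hB
  obtain ⟨B', hB'⟩ := h1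
  refine ⟨Int.gcdA A q * B', -(Int.gcdB A q * B'), ?_⟩
  have e := Int.gcd_eq_gcd_ab A q
  rw [hB', e]; ring

/-- THE GENERAL SHEAR: `z` and `z₁` with the same cusp `g` (odd part) and the same class modulo
`gcd (g, μ / g)`; `a = 2 ^ s μ`. -/
theorem shear_gen {a μ n z z1 g q2 z' z1' : ℤ} {s : ℕ} (ha : a = 2 ^ s * μ) (hμ : ¬ (2 : ℤ) ∣ μ)
    (hμ0 : 0 < μ) (hn : IsCoprime n μ) (hμg : μ = g * q2) (hz : z = g * z') (hz1 : z1 = g * z1')
    (h' : IsCoprime z' q2) (h1' : IsCoprime z1' q2)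
    (hG : ∀ d : ℤ, d ∣ g → d ∣ q2 → d ∣ z' - z1') (h2 : (2 : ℤ) ^ s ∣ z1 - z) :
    ∃ κ : ℤ, a ∣ (1 + κ * n * z) * z1 - z ∧ IsCoprime (1 + κ * n * z) a := by
  have hq2 : q2 ∣ μ := ⟨g, by rw [hμg]; ring⟩
  have c2 : IsCoprime ((2 : ℤ) ^ s * 2) μ :=
    IsCoprime.mul_left (IsCoprime.pow_left ((Prime.coprime_iff_not_dvd Int.prime_two).2 hμ))
      ((Prime.coprime_iff_not_dvd Int.prime_two).2 hμ)
  have cn : IsCoprime n q2 := hn.of_isCoprime_of_dvd_right hq2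
  have c22 : IsCoprime ((2 : ℤ) ^ s * 2) q2 := c2.of_isCoprime_of_dvd_right hq2
  obtain ⟨κ, hκ⟩ := lin_cong (A := 2 ^ s * 2 * n * z' * z1' * g) (B := z' - z1') (q := q2)
    (D := (Int.gcd g q2 : ℤ)) (by
      intro d hd1 hd2
      refine Int.dvd_coe_gcd ?_ hd2
      have c3 : IsCoprime (2 ^ s * 2 * n * z' * z1') d :=
        (IsCoprime.mul_left (IsCoprime.mul_left (IsCoprime.mul_left c22 cn) h')
          h1').of_isCoprime_of_dvd_right hd2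
      exact c3.symm.dvd_of_dvd_mul_left hd1)
    (hG _ (Int.gcd_dvd_left _ _) (Int.gcd_dvd_right _ _))
  have key : μ ∣ (1 + (2 ^ s * 2 * κ) * n * z) * z1 - z := by
    obtain ⟨m, hm⟩ := hκ
    refine ⟨m, ?_⟩
    rw [hz, hz1, hμg]
    linear_combination g * hm
  refine ⟨2 ^ s * 2 * κ, ?_, ?_⟩
  · have d1 : (2 : ℤ) ^ s ∣ (1 + (2 ^ s * 2 * κ) * n * z) * z1 - z := by
      have : (1 + (2 ^ s * 2 * κ) * n * z) * z1 - z = (z1 - z) + 2 ^ s * (2 * κ * n * z * z1) := by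
        ring
      rw [this]
      exact dvd_add h2 (dvd_mul_right _ _)
    rw [ha]
    exact (c2.of_isCoprime_of_dvd_left (dvd_mul_right _ _)).mul_dvd d1 key
  · apply isCoprime_of_prime
    intro l hl h3 h4
    by_cases hl2 : l = 2
    · subst hl2
      have h5 : ((2 : ℕ) : ℤ) ∣ 2 ^ s * 2 * κ * n * z := by
        refine Dvd.dvd.mul_right (Dvd.dvd.mul_right (Dvd.dvd.mul_right ?_ _) _) _
        exact ⟨2 ^ s, by push_cast; ring⟩
      exact prime_not_dvd_one hl ((dvd_add_left h5).1 h4)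
    · have hl' := Nat.prime_iff_prime_int.1 hl
      have h5 : (l : ℤ) ∣ μ := by
        rw [ha] at h3
        rcases hl'.dvd_or_dvd h3 with h6 | h6
        · exact absurd (hl'.dvd_of_dvd_pow h6) (prime_not_dvd_two hl hl2)
        · exact h6
      -- `l ∣ z`
      have h6 : (l : ℤ) ∣ z := by
        have := dvd_sub (h4.mul_right z1) (h5.trans key)
        have e : (1 + (2 ^ s * 2 * κ) * n * z) * z1 - ((1 + (2 ^ s * 2 * κ) * n * z) * z1 - z) = z := by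
          ring
        rwa [e] at this
      have h7 : (l : ℤ) ∣ 2 ^ s * 2 * κ * n * z := h6.mul_left _
      exact prime_not_dvd_one hl ((dvd_add_left h7).1 h4)

/-- the V-move with prescribed result, arbitrary cusp -/
theorem KC.xVg {a p q a' μ x x1 g q2 x' x1' : ℤ} {s : ℕ} (ha : 0 < a)
    (hq : IsCoprime q a) (ha' : a' = 2 ^ s * μ) (hμ : ¬ (2 : ℤ) ∣ μ) (hμ0 : 0 < μ)
    (hn : OC a' (a + 1)) (hμg : μ = g * q2) (hx : x = g * x') (hx1 : x1 = g * x1')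
    (h' : IsCoprime x' q2) (h1' : IsCoprime x1' q2)
    (hG : ∀ d : ℤ, d ∣ g → d ∣ q2 → d ∣ x' - x1') (h2 : (2 : ℤ) ^ s ∣ x1 - x)
    (hok : (KC a p q a' 1 (-x)).Ok) :
    SEq (KC a p q a' 1 (-x)) (KC a p q a' 1 (-x1)) := by
  have hnμ : IsCoprime (a + 1) μ := by
    have h3 : OC μ (a + 1) := hn.of_dvd ⟨2 ^ s, by rw [ha']; ring⟩
    exact (h3.isCoprime hμ).symm
  obtain ⟨k, hk, hu⟩ := shear_gen ha' hμ hμ0 hnμ hμg hx hx1 h' h1' hG h2
  have h1 := KC.V1 ha hq k hok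
  have e1 : KC a p q a' (1 - k * (a + 1) * -x) (-x) = KC a p q a' 1 (-x1) := by
    rw [← KC.unit' (a' := a') (p' := 1) (q' := -x1) (t := 1 + k * (a + 1) * x) hu.symm]
    refine KC.congr (by simp) (by simp) ?_ ?_
    · exact ⟨0, by ring⟩
    · obtain ⟨c, hc⟩ := hk
      exact ⟨-c, by linear_combination -hc⟩
  rwa [e1] at h1

/-- THE SIEVE in a progression `e0 mod G` and a class modulo `2 ^ n`. -/
theorem sieveG {M : ℕ} (hM : M ≠ 0) (n : ℕ) {G e0 : ℤ} (hG : 0 < G) (hG2 : ¬ (2 : ℤ) ∣ G)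
    (P : ℕ → ℤ → Prop)
    (hP0 : ∀ l : ℕ, l.Prime → l ≠ 2 → (l : ℤ) ∣ (M : ℤ) → (l : ℤ) ∣ G →
      ∀ e : ℤ, G ∣ e - e0 → P l e)
    (hP : ∀ l : ℕ, l.Prime → l ≠ 2 → (l : ℤ) ∣ (M : ℤ) → ¬ (l : ℤ) ∣ G → ∃ r1 r2 r3 : ℤ,
      (∀ x : ℤ, ¬ (l : ℤ) ∣ x - r1 → ¬ (l : ℤ) ∣ x - r2 → ¬ (l : ℤ) ∣ x - r3 → P l x) ∧
      ∃ x : ℤ, ¬ (l : ℤ) ∣ x - r1 ∧ ¬ (l : ℤ) ∣ x - r2 ∧ ¬ (l : ℤ) ∣ x - r3) (c0 s : ℤ) :
    ∃ e : ℤ, s < e ∧ e ≤ s + G * (2 ^ n * 8 ^ M.primeFactors.card) ∧ (2 : ℤ) ^ n ∣ e - c0 ∧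
      G ∣ e - e0 ∧ ∀ l : ℕ, l.Prime → l ≠ 2 → (l : ℤ) ∣ (M : ℤ) → P l e := by
  -- a member of the progression just above `s`
  obtain ⟨e1, he1, he1', he1''⟩ : ∃ e1 : ℤ, s < e1 ∧ e1 ≤ s + G ∧ G ∣ e1 - e0 := by
    refine ⟨s + G - (s - e0) % G, ?_, ?_, ?_⟩
    · have := Int.emod_lt_of_pos (s - e0) hG
      linarith
    · have := Int.emod_nonneg (s - e0) hG.ne'
      linarith
    · have e := Int.emod_add_mul_ediv (s - e0) G
      exact ⟨(s - e0) / G + 1, by linear_combination -e⟩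
  -- the class of `t` modulo `2 ^ n`
  obtain ⟨t0, ht0⟩ : ∃ t0 : ℤ, (2 : ℤ) ^ n ∣ G * t0 - (c0 - e1) := by
    have hc : IsCoprime G ((2 : ℤ) ^ n) :=
      (IsCoprime.pow_left ((Prime.coprime_iff_not_dvd Int.prime_two).2 hG2)).symm
    obtain ⟨α, β, hab⟩ := hc
    exact ⟨α * (c0 - e1), -(β * (c0 - e1)), by linear_combination (c0 - e1) * hab⟩
  obtain ⟨t, h1, h2, h3, h4⟩ := sieve3 hM n (fun l t => P l (e1 + G * t)) (by
    intro l hl hl2 hd
    by_cases hlG : (l : ℤ) ∣ G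
    · refine ⟨0, 0, 0, ?_, 1, ?_, ?_, ?_⟩
      · intro t _ _ _
        refine hP0 l hl hl2 hd hlG _ ?_
        have : e1 + G * t - e0 = (e1 - e0) + G * t := by ring
        rw [this]; exact dvd_add he1'' (dvd_mul_right _ _)
      all_goals
        rw [sub_zero]
        exact prime_not_dvd_one hl
    · obtain ⟨r1, r2, r3, h5, x, hx1, hx2, hx3⟩ := hP l hl hl2 hd hlG
      obtain ⟨α, β, hab⟩ := (Prime.coprime_iff_not_dvd (Nat.prime_iff_prime_int.1 hl)).2 hlG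
      -- `β G = 1 mod l`
      have tr : ∀ r t : ℤ, (l : ℤ) ∣ (e1 + G * t) - r → (l : ℤ) ∣ t - β * (r - e1) := by
        intro r t h
        have : t - β * (r - e1) = β * ((e1 + G * t) - r) + l * (α * t) := by
          linear_combination (-t) * hab
        rw [this]
        exact dvd_add (h.mul_left _) (dvd_mul_right _ _)
      have ex : ∀ r : ℤ, (l : ℤ) ∣ β * (x - e1) - β * (r - e1) → (l : ℤ) ∣ x - r := by
        intro r h
        have : x - r = G * (β * (x - e1) - β * (r - e1)) + l * (α * (x - r)) := by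
          linear_combination (-(x - r)) * hab
        rw [this]
        exact dvd_add (h.mul_left _) (dvd_mul_right _ _)
      refine ⟨β * (r1 - e1), β * (r2 - e1), β * (r3 - e1), ?_, β * (x - e1),
        fun h => hx1 (ex _ h), fun h => hx2 (ex _ h), fun h => hx3 (ex _ h)⟩
      intro t k1 k2 k3
      exact h5 _ (fun h => k1 (tr _ _ h)) (fun h => k2 (tr _ _ h)) (fun h => k3 (tr _ _ h)))
    t0 0
  refine ⟨e1 + G * t, ?_, ?_, ?_, ?_, h4⟩
  · nlinarith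
  · have h5 : t + 1 ≤ 2 ^ n * 8 ^ M.primeFactors.card := by linarith
    have h6 := mul_le_mul_of_nonneg_left h5 hG.le
    linarith
  · have : e1 + G * t - c0 = (G * t0 - (c0 - e1)) + G * (t - t0) := by ring
    rw [this]; exact dvd_add ht0 (h3.mul_left _)
  · have : e1 + G * t - e0 = (e1 - e0) + G * t := by ring
    rw [this]; exact dvd_add he1'' (dvd_mul_right _ _)

end Pool.Agent.H4G
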