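import Pool.Agent.H4G.Ctwo.FixK

/-!
# FIX-K (helper31): the choice of `k` and `e`
-/

set_option autoImplicit false

namespace Pool.Agent.H4G

/-- three classes modulo a prime `≥ 5` can be avoided -/
theorem FPc.avoid3 {l : ℕ} (hl : l.Prime) (hl2 : l ≠ 2) (hl3 : l ≠ 3) (r1 r2 r3 : ℤ) :
    ∃ x : ℤ, ¬ (l : ℤ) ∣ x - r1 ∧ ¬ (l : ℤ) ∣ x - r2 ∧ ¬ (l : ℤ) ∣ x - r3 := by
  have n1 := prime_not_dvd_one hl
  have n2 := prime_not_dvd_two hl hl2
  have n3 := prime_not_dvd_three hl hl3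
  -- at most one of `r1 + 1, r1 + 2, r1 + 3` is in the class of `r`
  have one : ∀ r : ℤ, ¬ (((l : ℤ) ∣ r1 + 1 - r ∧ (l : ℤ) ∣ r1 + 2 - r)) ∧
      ¬ (((l : ℤ) ∣ r1 + 1 - r ∧ (l : ℤ) ∣ r1 + 3 - r)) ∧
      ¬ (((l : ℤ) ∣ r1 + 2 - r ∧ (l : ℤ) ∣ r1 + 3 - r)) := by
    intro r
    refine ⟨?_, ?_, ?_⟩
    · rintro ⟨h1, h2⟩
      have := dvd_sub h2 h1
      have e : r1 + 2 - r - (r1 + 1 - r) = 1 := by ring
      rw [e] at this; exact n1 this
    · rintro ⟨h1, h2⟩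
      have := dvd_sub h2 h1
      have e : r1 + 3 - r - (r1 + 1 - r) = 2 := by ring
      rw [e] at this; exact n2 this
    · rintro ⟨h1, h2⟩
      have := dvd_sub h2 h1
      have e : r1 + 3 - r - (r1 + 2 - r) = 1 := by ring
      rw [e] at this; exact n1 this
  have a1 : ¬ (l : ℤ) ∣ r1 + 1 - r1 := by
    have e : r1 + 1 - r1 = 1 := by ring
    rw [e]; exact n1
  have a2 : ¬ (l : ℤ) ∣ r1 + 2 - r1 := by
    have e : r1 + 2 - r1 = 2 := by ring
    rw [e]; exact n2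
  have a3 : ¬ (l : ℤ) ∣ r1 + 3 - r1 := by
    have e : r1 + 3 - r1 = 3 := by ring
    rw [e]; exact n3
  obtain ⟨p1, p2, p3⟩ := one r2
  obtain ⟨q1, q2, q3⟩ := one r3
  by_cases h1 : (l : ℤ) ∣ r1 + 1 - r2 ∨ (l : ℤ) ∣ r1 + 1 - r3
  · by_cases h2 : (l : ℤ) ∣ r1 + 2 - r2 ∨ (l : ℤ) ∣ r1 + 2 - r3
    · refine ⟨r1 + 3, a3, ?_, ?_⟩
      · intro h3
        rcases h1 with h1 | h1
        · exact p2 ⟨h1, h3⟩
        · rcases h2 with h2 | h2
          · exact p3 ⟨h2, h3⟩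
          · exact q1 ⟨h1, h2⟩
      · intro h3
        rcases h1 with h1 | h1
        · rcases h2 with h2 | h2
          · exact p1 ⟨h1, h2⟩
          · exact q3 ⟨h2, h3⟩
        · exact q2 ⟨h1, h3⟩
    · push Not at h2
      exact ⟨r1 + 2, a2, h2.1, h2.2⟩
  · push Not at h1
    exact ⟨r1 + 1, a1, h1.1, h1.2⟩

/-- the conditions of an exit `(k, e)` at the odd primes -/
structure FKc (N a a' k e : ℤ) : Prop where
  U : ∀ l : ℕ, l.Prime → l ≠ 2 → (l : ℤ) ∣ a' → ¬ (l : ℤ) ∣ e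
  P : ∀ l : ℕ, l.Prime → l ≠ 2 → (l : ℤ) ∣ k → ¬ (l : ℤ) ∣ e
  K : ∀ l : ℕ, l.Prime → l ≠ 2 → (l : ℤ) ∣ a' - e → ¬ (l : ℤ) ∣ k - e
  lev : GLev N (a + e)
  A : ∀ l : ℕ, l.Prime → l ≠ 2 → (l : ℤ) ∣ 1 + e → ¬ (l : ℤ) ∣ 1 + k
  B : ∀ l : ℕ, l.Prime → l ≠ 2 → (l : ℤ) ∣ 1 + e → ¬ (l : ℤ) ∣ 2 + k

/-- the conditions at one prime, as a predicate of `e` -/
def FPc (N a a' k : ℤ) (l : ℕ) (e : ℤ) : Prop :=
  ((l : ℤ) ∣ a' → ¬ (l : ℤ) ∣ e) ∧ ((l : ℤ) ∣ k → ¬ (l : ℤ) ∣ e) ∧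
  ((l : ℤ) ∣ a' - k → ¬ (l : ℤ) ∣ e - k) ∧
  ((l : ℤ) ∣ N → ¬ (l : ℤ) ∣ a + e ∧ ¬ (l : ℤ) ∣ a + e + 1) ∧
  ((l : ℤ) ∣ 1 + k → ¬ (l : ℤ) ∣ 1 + e) ∧ ((l : ℤ) ∣ 2 + k → ¬ (l : ℤ) ∣ 1 + e)

theorem FPc.classes {N a a' k : ℤ} (hN : a + 1 + a' = N) (ga : GLev N a) {l : ℕ} (hl : l.Prime)
    (hl2 : l ≠ 2) (h3 : (l : ℤ) ∣ N → l = 3 → ¬ (l : ℤ) ∣ k) : ∃ r1 r2 r3 : ℤ,
      (∀ x : ℤ, ¬ (l : ℤ) ∣ x - r1 → ¬ (l : ℤ) ∣ x - r2 → ¬ (l : ℤ) ∣ x - r3 →
        FPc N a a' k l x) ∧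
      ∃ x : ℤ, ¬ (l : ℤ) ∣ x - r1 ∧ ¬ (l : ℤ) ∣ x - r2 ∧ ¬ (l : ℤ) ∣ x - r3 := by
  have n1 := prime_not_dvd_one hl
  have n2 := prime_not_dvd_two hl hl2
  have k1 : (l : ℤ) ∣ 1 + k → ¬ (l : ℤ) ∣ k := by
    intro h h'
    have := dvd_sub h h'
    have e : 1 + k - k = 1 := by ring
    rw [e] at this; exact n1 this
  have k2 : (l : ℤ) ∣ 2 + k → ¬ (l : ℤ) ∣ k := by
    intro h h'
    have := dvd_sub h h'
    have e : 2 + k - k = 2 := by ring
    rw [e] at this; exact n2 this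
  by_cases hlN : (l : ℤ) ∣ N
  · have ha' : ¬ (l : ℤ) ∣ a' := fun h => ga.right hN l hl hl2 h hlN
    have ha : ¬ (l : ℤ) ∣ a := fun h => ga.1 l hl hl2 h hlN
    have ha1 : ¬ (l : ℤ) ∣ a + 1 := fun h => ga.2 l hl hl2 h hlN
    have common : ∀ x : ℤ, ¬ (l : ℤ) ∣ x - -a → ¬ (l : ℤ) ∣ x - (-a - 1) →
        ((l : ℤ) ∣ k → ¬ (l : ℤ) ∣ x) → (¬ (l : ℤ) ∣ k → ¬ (l : ℤ) ∣ x + 1) →
        FPc N a a' k l x := by
      intro x h1 h2 h4 h5
      refine ⟨fun h => absurd h ha', h4, ?_, fun _ => ⟨?_, ?_⟩, ?_, ?_⟩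
      · intro h6 h7
        apply h2
        -- `k = a' = N - 1 - a`
        have := dvd_sub (dvd_add h7 hlN) h6
        have e : x - k + N - (a' - k) = x - (-a - 1) + 0 := by rw [← hN]; ring
        rw [e, add_zero] at this; exact this
      · intro h6; apply h1
        have e : x - -a = a + x := by ring
        rwa [e]
      · intro h6; apply h2
        have e : x - (-a - 1) = a + x + 1 := by ring
        rwa [e]
      · intro h6 h7; apply h5 (k1 h6)
        have e : x + 1 = 1 + x := by ring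
        rwa [e]
      · intro h6 h7; apply h5 (k2 h6)
        have e : x + 1 = 1 + x := by ring
        rwa [e]
    by_cases hk : (l : ℤ) ∣ k
    · have hl3 : l ≠ 3 := fun h => h3 hlN h hk
      obtain ⟨x, hx1, hx2, hx3⟩ := FPc.avoid3 hl hl2 hl3 (-a) (-a - 1) 0
      refine ⟨-a, -a - 1, 0, ?_, x, hx1, hx2, hx3⟩
      intro x h1 h2 h4
      exact common x h1 h2 (fun _ => by simpa using h4) (fun h => absurd hk h)
    · refine ⟨-a, -a - 1, -1, ?_, 0, ?_, ?_, ?_⟩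
      · intro x h1 h2 h4
        refine common x h1 h2 (fun h => absurd h hk) (fun _ => ?_)
        have e : x + 1 = x - -1 := by ring
        rw [e]; exact h4
      · have e : (0 : ℤ) - -a = a := by ring
        rw [e]; exact ha
      · have e : (0 : ℤ) - (-a - 1) = a + 1 := by ring
        rw [e]; exact ha1
      · have e : (0 : ℤ) - -1 = 1 := by ring
        rw [e]; exact n1
  · by_cases ha' : (l : ℤ) ∣ a'
    · obtain ⟨x, hx1, hx2⟩ := avoid2 hl hl2 0 (-1)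
      refine ⟨0, -1, -1, ?_, x, hx1, hx2, hx2⟩
      intro x h1 h2 _
      have m0 : ¬ (l : ℤ) ∣ x := by simpa using h1
      have m1 : ¬ (l : ℤ) ∣ 1 + x := by
        have e : 1 + x = x - -1 := by ring
        rw [e]; exact h2
      refine ⟨fun _ => m0, fun _ => m0, ?_, fun h => absurd h hlN, fun _ => m1, fun _ => m1⟩
      intro h6 h7
      apply m0
      have h8 : (l : ℤ) ∣ k := by
        have := dvd_sub ha' h6
        have e : a' - (a' - k) = k := by ring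
        rwa [e] at this
      have := dvd_add h7 h8
      have e : x - k + k = x := by ring
      rwa [e] at this
    · by_cases hk : (l : ℤ) ∣ k
      · obtain ⟨x, hx1, hx2⟩ := avoid2 hl hl2 0 (-1)
        refine ⟨0, -1, -1, ?_, x, hx1, hx2, hx2⟩
        intro x h1 h2 _
        refine ⟨fun h => absurd h ha', fun _ => by simpa using h1, ?_, fun h => absurd h hlN,
          fun h => absurd hk (k1 h), fun h => absurd hk (k2 h)⟩
        intro h6 _
        apply ha'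
        have := dvd_add h6 hk
        have e : a' - k + k = a' := by ring
        rwa [e] at this
      · obtain ⟨x, hx1, hx2⟩ := avoid2 hl hl2 k (-1)
        refine ⟨k, -1, -1, ?_, x, hx1, hx2, hx2⟩
        intro x h1 h2 _
        have m1 : ¬ (l : ℤ) ∣ 1 + x := by
          have e : 1 + x = x - -1 := by ring
          rw [e]; exact h2
        exact ⟨fun h => absurd h ha', fun h => absurd h hk, fun _ => h1,
          fun h => absurd h hlN, fun _ => m1, fun _ => m1⟩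

/-- THE CHOICE of `e` for given `k = τ g k'` -/
theorem fixK_e {J Z : ℕ} {N a a' g q2 x' k' τ : ℤ} (hcap : Cap J Z) (hZ : N ^ 6 ≤ Z)
    (hN : a + 1 + a' = N) (ha : 0 < a) (ga : GLev N a) (hμ : g * q2 ∣ a') (hg : 0 < g)
    (hg2 : ¬ (2 : ℤ) ∣ g) (hτ : ∀ l : ℕ, l.Prime → l ≠ 2 → ¬ (l : ℤ) ∣ τ)
    (hx' : IsCoprime x' q2) (hk' : IsCoprime k' q2) (hk0 : 0 < τ * g * k')
    (hka : τ * g * k' < a') (h3 : (3 : ℤ) ∣ N → ¬ (3 : ℤ) ∣ k') (c0 s0 : ℤ) :
    ∃ e : ℤ, s0 < e ∧ e ≤ s0 + (Int.gcd g q2 : ℤ) * (16 * (J : ℤ) ^ 2) ∧ (16 : ℤ) ∣ e - c0 ∧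
      (∀ d : ℤ, d ∣ g → d ∣ q2 → d ∣ e * x' + τ * k') ∧ FKc N a a' (τ * g * k') e := by
  set k : ℤ := τ * g * k' with hk
  set G : ℤ := (Int.gcd g q2 : ℤ) with hG
  have hGg : G ∣ g := Int.gcd_dvd_left _ _
  have hGq : G ∣ q2 := Int.gcd_dvd_right _ _
  have hG0 : 0 < G := by
    have : 0 < Int.gcd g q2 := Int.gcd_pos_of_ne_zero_left _ hg.ne'
    rw [hG]; exact_mod_cast this
  have hG2 : ¬ (2 : ℤ) ∣ G := fun h => hg2 (h.trans hGg)
  have hga' : g ∣ a' := (dvd_mul_right g q2).trans hμ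
  have hgk : g ∣ k := ⟨τ * k', by rw [hk]; ring⟩
  -- the class modulo `G`
  obtain ⟨e0, he0⟩ : ∃ e0 : ℤ, G ∣ e0 * x' + τ * k' := by
    obtain ⟨α, β, hab⟩ := hx'.of_isCoprime_of_dvd_right hGq
    exact ⟨-(α * (τ * k')), β * (τ * k'), by linear_combination (-(τ * k')) * hab⟩
  have hM0 : 0 < N * a' * k * (a' - k) * (1 + k) * (2 + k) := by
    have h1 : 0 < N := by linarith
    have h2 : 0 < a' := by linarith
    have h4 : 0 < a' - k := by linarith
    positivity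
  have hMX : N * a' * k * (a' - k) * (1 + k) * (2 + k) ≤ (Z : ℤ) := by
    refine le_trans ?_ hZ
    have e : N ^ 6 = N * N * N * N * N * N := by ring
    rw [e]
    have h1 : 0 < N := by linarith
    have h4 : 0 < a' - k := by linarith
    refine mul_le_mul (mul_le_mul (mul_le_mul (mul_le_mul (mul_le_mul ?_ ?_ ?_ ?_) ?_ ?_ ?_)
      ?_ ?_ ?_) ?_ ?_ ?_) ?_ ?_ ?_ <;> first
      | linarith
      | positivity
  obtain ⟨M, hM⟩ := Int.eq_ofNat_of_zero_le hM0.le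
  have hMne : M ≠ 0 := by
    rintro rfl
    rw [hM] at hM0
    simp at hM0
  have hMle : M ≤ Z := by rw [hM] at hMX; exact_mod_cast hMX
  obtain ⟨e, h1, h2, h4, h5, h6⟩ := sieveG hMne 4 (e0 := e0) hG0 hG2 (fun l e => FPc N a a' k l e)
    (by
      intro l hl hl2 _ hlG e he
      have hlg := hlG.trans hGg
      have hlq := hlG.trans hGq
      have hla' := hlg.trans hga'
      have hlk := hlg.trans hgk
      have hne : ¬ (l : ℤ) ∣ e := by
        intro h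
        have h7 : (l : ℤ) ∣ e0 := by
          have := dvd_sub h (hlG.trans he)
          have e1 : e - (e - e0) = e0 := by ring
          rwa [e1] at this
        have h8 : (l : ℤ) ∣ τ * k' := (dvd_add_right (h7.mul_right x')).1 (hlG.trans he0)
        rcases (Nat.prime_iff_prime_int.1 hl).dvd_or_dvd h8 with h9 | h9
        · exact hτ l hl hl2 h9
        · exact not_dvd_of_isCoprime hk' hl hlq h9
      refine ⟨fun _ => hne, fun _ => hne, ?_, ?_, ?_, ?_⟩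
      · intro _ h8
        apply hne
        have := dvd_add h8 hlk
        have e1 : e - k + k = e := by ring
        rwa [e1] at this
      · intro h7; exact absurd h7 (ga.right hN l hl hl2 hla')
      · intro h7 _
        have := dvd_sub h7 hlk
        have e1 : 1 + k - k = 1 := by ring
        rw [e1] at this
        exact prime_not_dvd_one hl this
      · intro h7 _
        have := dvd_sub h7 hlk
        have e1 : 2 + k - k = 2 := by ring
        rw [e1] at this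
        exact prime_not_dvd_two hl hl2 this)
    (by
      intro l hl hl2 _ _
      refine FPc.classes hN ga hl hl2 ?_
      intro h7 h8 h9
      have hl' := Nat.prime_iff_prime_int.1 hl
      rw [hk] at h9
      rcases hl'.dvd_or_dvd h9 with h10 | h10
      · rcases hl'.dvd_or_dvd h10 with h11 | h11
        · exact hτ l hl hl2 h11
        · exact ga.right hN l hl hl2 (h11.trans hga') h7
      · subst h8
        exact h3 (by exact_mod_cast h7) (by exact_mod_cast h10)) c0 s0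
  have h8 := hcap.eight hMne hMle
  have e16 : (2 : ℤ) ^ 4 = 16 := by norm_num
  rw [e16] at h2 h4
  have q : ∀ l : ℕ, l.Prime → l ≠ 2 →
      ((l : ℤ) ∣ N ∨ (l : ℤ) ∣ a' ∨ (l : ℤ) ∣ k ∨ (l : ℤ) ∣ a' - k ∨ (l : ℤ) ∣ 1 + k ∨
        (l : ℤ) ∣ 2 + k) → FPc N a a' k l e := by
    intro l hl hl2 h
    refine h6 l hl hl2 ?_
    rw [← hM]
    rcases h with h | h | h | h | h | h
    · exact ((((h.mul_right _).mul_right _).mul_right _).mul_right _).mul_right _
    · exact ((((h.mul_left _).mul_right _).mul_right _).mul_right _).mul_right _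
    · exact (((h.mul_left _).mul_right _).mul_right _).mul_right _
    · exact ((h.mul_left _).mul_right _).mul_right _
    · exact (h.mul_left _).mul_right _
    · exact h.mul_left _
  refine ⟨e, h1, ?_, h4, ?_, ?_, ?_, ?_, ⟨?_, ?_⟩, ?_, ?_⟩
  · refine h2.trans ?_
    have := mul_le_mul_of_nonneg_left h8 (by positivity : (0 : ℤ) ≤ G * 16)
    linarith
  · intro d hd1 hd2
    have hdG : d ∣ G := Int.dvd_coe_gcd hd1 hd2
    have e1 : e * x' + τ * k' = (e0 * x' + τ * k') + (e - e0) * x' := by ring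
    rw [e1]
    exact dvd_add (hdG.trans he0) ((hdG.trans h5).mul_right _)
  · intro l hl hl2 h
    exact (q l hl hl2 (Or.inr (Or.inl h))).1 h
  · intro l hl hl2 h
    exact (q l hl hl2 (Or.inr (Or.inr (Or.inl h)))).2.1 h
  · intro l hl hl2 h h'
    have h7 : (l : ℤ) ∣ a' - k := by
      have := dvd_sub h h'
      have e1 : a' - e - (k - e) = a' - k := by ring
      rwa [e1] at this
    refine (q l hl hl2 (Or.inr (Or.inr (Or.inr (Or.inl h7))))).2.2.1 h7 ?_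
    have e1 : e - k = -(k - e) := by ring
    rw [e1]; exact (dvd_neg).2 h'
  · intro l hl hl2 h h'
    exact ((q l hl hl2 (Or.inl h')).2.2.2.1 h').1 h
  · intro l hl hl2 h h'
    exact ((q l hl hl2 (Or.inl h')).2.2.2.1 h').2 h
  · intro l hl hl2 h h'
    exact (q l hl hl2 (Or.inr (Or.inr (Or.inr (Or.inr (Or.inl h')))))).2.2.2.2.1 h' h
  · intro l hl hl2 h h'
    exact (q l hl hl2 (Or.inr (Or.inr (Or.inr (Or.inr (Or.inr h')))))).2.2.2.2.2 h' h

/-- THE CHOICE of `k'`: `E < τ g k' < a'`, `k'` odd, prime to `3 q₂` -/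
theorem fixK_k {J Z : ℕ} {N a' g q2 τ w E : ℤ} (hcap : Cap J Z) (hZ : N ^ 6 ≤ Z)
    (ha'N : a' < N) (hN2 : 3 ≤ N) (ha' : a' = w * (g * q2)) (hw : 0 < w) (hg : 0 < g) (hq3 : 3 ≤ q2)
    (hτ0 : 0 < τ) (hτw : τ ≤ w) (hE : 0 ≤ E) (hsize : E * (2 * (J : ℤ) ^ 2 + 2) < a') :
    ∃ k' : ℤ, E < τ * g * k' ∧ τ * g * k' < a' ∧ ¬ (2 : ℤ) ∣ k' ∧ ¬ (3 : ℤ) ∣ k' ∧
      IsCoprime k' q2 := by
  have hτg : 0 < τ * g := mul_pos hτ0 hg
  by_cases hbig : E < τ * g
  · refine ⟨1, by linarith, ?_, by norm_num, by norm_num, isCoprime_one_left⟩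
    rw [mul_one, ha']
    have h1 : τ * g ≤ w * g := mul_le_mul_of_nonneg_right hτw hg.le
    have h2 : 0 < w * g := mul_pos hw hg
    nlinarith
  · push Not at hbig
    have hM0 : 0 < 3 * q2 := by linarith
    have hq2a : q2 ≤ a' := by
      rw [ha']
      have h1 : 1 ≤ w * g := by nlinarith
      nlinarith
    have hMX : 3 * q2 ≤ (Z : ℤ) := by
      refine le_trans ?_ hZ
      have h1 : 3 * q2 ≤ N * N := by nlinarith
      have h2 : (1 : ℤ) ≤ N * N := by nlinarith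
      have e : N ^ 6 = N * N * (N * N) * (N * N) := by ring
      rw [e]
      have h3 : N * N ≤ N * N * (N * N) := by nlinarith
      nlinarith
    obtain ⟨M, hM⟩ := Int.eq_ofNat_of_zero_le hM0.le
    have hMne : M ≠ 0 := by
      rintro rfl
      rw [hM] at hM0
      simp at hM0
    have hMle : M ≤ Z := by rw [hM] at hMX; exact_mod_cast hMX
    have h8 := hcap.eight hMne hMle
    obtain ⟨k', h1, h2, h3, h4⟩ := sieve3 hMne 1 (fun l k => ¬ (l : ℤ) ∣ k) (by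
      intro l hl hl2 _
      refine ⟨0, 0, 0, ?_, 1, ?_, ?_, ?_⟩
      · intro x hx _ _
        simpa using hx
      all_goals
        rw [sub_zero]
        exact prime_not_dvd_one hl) 1 (E / (τ * g) + 1)
    rw [pow_one] at h2 h3
    have e1 := Int.emod_add_mul_ediv E (τ * g)
    have e2 := Int.emod_nonneg E hτg.ne'
    have e3 := Int.emod_lt_of_pos E hτg
    refine ⟨k', ?_, ?_, by omega, ?_, ?_⟩
    · have h5 : τ * g * (E / (τ * g) + 1) ≤ τ * g * k' := mul_le_mul_of_nonneg_left h1 hτg.le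
      linarith
    · have h5 : k' ≤ E / (τ * g) + 2 * (J : ℤ) ^ 2 + 1 := by linarith
      have h6 := mul_le_mul_of_nonneg_left h5 hτg.le
      have h7 : τ * g * (2 * (J : ℤ) ^ 2 + 1) ≤ E * (2 * (J : ℤ) ^ 2 + 1) :=
        mul_le_mul_of_nonneg_right hbig (by positivity)
      have h9 : τ * g * (E / (τ * g) + 2 * (J : ℤ) ^ 2 + 1) =
        τ * g * (E / (τ * g)) + τ * g * (2 * (J : ℤ) ^ 2 + 1) := by ring
      nlinarith
    · intro h
      refine h4 3 (by norm_num) (by norm_num) ?_ (by exact_mod_cast h)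
      rw [← hM]; exact ⟨q2, by push_cast; ring⟩
    · apply isCoprime_of_prime
      intro l hl h5 h6
      by_cases hl2 : l = 2
      · subst hl2
        have h7 : (2 : ℤ) ∣ k' := by exact_mod_cast h6
        omega
      · refine h4 l hl hl2 ?_ h6
        rw [← hM]; exact h5.mul_left 3

end Pool.Agent.H4G
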