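import Pool.Agent.H4G.Arith.KLev

/-!
# (G1): generic Z-states of one level are equivalent (helper31)

A level `(a, a')`, `N = a + 1 + a'`, is good if no odd prime divides `gcd (a, N)` or
`gcd (a', N)`. At a good level the states `KC a z (-1) a' 1 (-x)` with `z` prime to the odd part
of `a`, `x` prime to the odd part of `a'`, depend only on the 2-adic classes of `z` and `x`.
-/

set_option autoImplicit false

namespace Pool.Agent.H4G

/-- no odd prime divides both numbers -/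
def OC (m n : ℤ) : Prop := ∀ l : ℕ, l.Prime → l ≠ 2 → (l : ℤ) ∣ m → ¬ (l : ℤ) ∣ n

theorem OC.symm {m n : ℤ} (h : OC m n) : OC n m := fun l hl h2 h3 h4 => h l hl h2 h4 h3

theorem OC.of_dvd {m n m' : ℤ} (h : OC m n) (hd : m' ∣ m) : OC m' n :=
  fun l hl h2 h3 => h l hl h2 (h3.trans hd)

theorem OC.mul {m n n' : ℤ} (h : OC m n) (h' : OC m n') : OC m (n * n') := by
  intro l hl h2 h3 h4
  rcases (Nat.prime_iff_prime_int.1 hl).dvd_or_dvd h4 with h5 | h5
  · exact h l hl h2 h3 h5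
  · exact h' l hl h2 h3 h5

theorem OC.of_isCoprime {m n : ℤ} (h : IsCoprime m n) : OC m n := fun _ hl _ h3 h4 =>
  not_dvd_of_isCoprime h hl h4 h3

/-- an odd number without common odd prime divisors -/
theorem OC.isCoprime {m n : ℤ} (h : OC m n) (hm : ¬ (2 : ℤ) ∣ m) : IsCoprime m n := by
  apply isCoprime_of_prime
  intro l hl h1 h2
  by_cases hl2 : l = 2
  · subst hl2; exact hm (by exact_mod_cast h2)
  · exact h l hl hl2 h2 h1

/-- the 2-part of an integer -/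
theorem two_split {a : ℤ} (ha : 0 < a) : ∃ (s : ℕ) (m : ℤ), 0 < m ∧ ¬ (2 : ℤ) ∣ m ∧
    a = 2 ^ s * m := by
  obtain ⟨k, m, hm, e⟩ := Nat.exists_eq_two_pow_mul_odd (n := a.toNat) (by omega)
  refine ⟨k, (m : ℤ), ?_, ?_, ?_⟩
  · have : m ≠ 0 := by rintro rfl; simp at hm
    omega
  · intro h
    have : (2 : ℕ) ∣ m := by exact_mod_cast h
    rw [Nat.odd_iff] at hm
    omega
  · have h1 : (a.toNat : ℤ) = a := Int.toNat_of_nonneg ha.le
    rw [← h1, e]
    push_cast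
    rfl

/-- the arithmetic of one shear: `k` with `a ∣ (1 + k n z) z₁ - z` and `1 + k n z` prime to `a`. -/
theorem shear_exists {a n z z1 : ℤ} (ha : 0 < a) (hn : OC a n) (hz : OC a z) (hz1 : OC a z1)
    (h2 : ∀ s : ℕ, (2 : ℤ) ^ s ∣ a → (2 : ℤ) ^ s ∣ z1 - z) :
    ∃ k : ℤ, a ∣ (1 + k * n * z) * z1 - z ∧ IsCoprime (1 + k * n * z) a := by
  obtain ⟨s, m, hm, hm2, e⟩ := two_split ha
  have hma : m ∣ a := ⟨2 ^ s, by rw [e]; ring⟩
  have hsa : (2 : ℤ) ^ s ∣ a := ⟨m, e⟩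
  have hc2 : IsCoprime ((2 : ℤ) ^ s) m := by
    refine IsCoprime.pow_left ?_
    exact (Prime.coprime_iff_not_dvd Int.prime_two).2 hm2
  have hc : IsCoprime m (2 ^ s * n * z * z1) := by
    refine IsCoprime.mul_right (IsCoprime.mul_right (IsCoprime.mul_right hc2.symm ?_) ?_) ?_
    · exact (hn.of_dvd hma).isCoprime hm2
    · exact (hz.of_dvd hma).isCoprime hm2
    · exact (hz1.of_dvd hma).isCoprime hm2
  obtain ⟨x, y, hxy⟩ := hc
  -- `y (2^s n z z1) = 1 mod m`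
  refine ⟨2 ^ s * (y * (z - z1)), ?_, ?_⟩
  · have d1 : (2 : ℤ) ^ s ∣ (1 + 2 ^ s * (y * (z - z1)) * n * z) * z1 - z := by
      have : (1 + 2 ^ s * (y * (z - z1)) * n * z) * z1 - z
          = (z1 - z) + 2 ^ s * ((y * (z - z1)) * n * z * z1) := by ring
      rw [this]
      exact dvd_add (h2 s hsa) (dvd_mul_right _ _)
    have d2 : m ∣ (1 + 2 ^ s * (y * (z - z1)) * n * z) * z1 - z := by
      refine ⟨-(x * (z - z1)), ?_⟩
      linear_combination (z - z1) * hxy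
    rw [e]
    exact hc2.mul_dvd d1 d2
  · apply isCoprime_of_prime
    intro l hl h3 h4
    by_cases hl2 : l = 2
    · subst hl2
      rcases Nat.eq_zero_or_pos s with h0 | h0
      · rw [h0, pow_zero, one_mul] at e
        rw [e] at h3
        exact hm2 (by exact_mod_cast h3)
      · have h5 : (2 : ℤ) ∣ 2 ^ s * (y * (z - z1)) * n * z := by
          have : (2 : ℤ) ∣ 2 ^ s := dvd_pow_self _ h0.ne'
          exact ((this.mul_right _).mul_right _).mul_right _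
        have h6 : ((2 : ℕ) : ℤ) ∣ 1 := by
          have := dvd_sub h4 (show ((2 : ℕ) : ℤ) ∣ 2 ^ s * (y * (z - z1)) * n * z by
            exact_mod_cast h5)
          simpa using this
        exact prime_not_dvd_one hl h6
    · -- `l ∣ m`, so `l ∣ z`
      have d2 : m ∣ (1 + 2 ^ s * (y * (z - z1)) * n * z) * z1 - z := by
        refine ⟨-(x * (z - z1)), ?_⟩
        linear_combination (z - z1) * hxy
      have hlm : (l : ℤ) ∣ m := by
        rw [e] at h3
        rcases (Nat.prime_iff_prime_int.1 hl).dvd_or_dvd h3 with h5 | h5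
        · exfalso
          have := (Nat.prime_iff_prime_int.1 hl).dvd_of_dvd_pow h5
          have h6 : l ∣ 2 := by exact_mod_cast this
          exact hl2 ((Nat.prime_dvd_prime_iff_eq hl Nat.prime_two).1 h6)
        · exact h5
      have h7 : (l : ℤ) ∣ z := by
        have := dvd_sub (h4.mul_right z1) (hlm.trans d2)
        simpa using this
      exact hz l hl hl2 (hlm.trans hma) h7

/-- H-move of a Z-state with prescribed result -/
theorem KC.zH {a z z1 a' p' q' : ℤ} (ha : 0 < a) (ha' : 0 < a') (hp' : IsCoprime p' a')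
    (hn : OC a (a' + 1)) (hz : OC a z) (hz1 : OC a z1)
    (h2 : ∀ s : ℕ, (2 : ℤ) ^ s ∣ a → (2 : ℤ) ^ s ∣ z1 - z)
    (hok : (KC a z (-1) a' p' q').Ok) :
    SEq (KC a z (-1) a' p' q') (KC a z1 (-1) a' p' q') := by
  obtain ⟨k, hk, hu⟩ := shear_exists ha hn hz hz1 h2
  have h1 := KC.H1 ha' hp' k hok
  have e1 : KC a z (-1 - k * (a' + 1) * z) a' p' q' = KC a z1 (-1) a' p' q' := by
    rw [← KC.unit (a := a) (p := z1) (q := -1) (t := 1 + k * (a' + 1) * z) hu.symm]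
    refine KC.congr hk ?_ (by simp) (by simp)
    exact ⟨0, by ring⟩
  rwa [e1] at h1

/-- V-move of a Z-state with prescribed result -/
theorem KC.xV {a p q a' x x1 : ℤ} (ha : 0 < a) (ha' : 0 < a') (hq : IsCoprime q a)
    (hn : OC a' (a + 1)) (hx : OC a' x) (hx1 : OC a' x1)
    (h2 : ∀ s : ℕ, (2 : ℤ) ^ s ∣ a' → (2 : ℤ) ^ s ∣ x1 - x)
    (hok : (KC a p q a' 1 (-x)).Ok) :
    SEq (KC a p q a' 1 (-x)) (KC a p q a' 1 (-x1)) := by
  obtain ⟨k, hk, hu⟩ := shear_exists ha' hn hx hx1 h2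
  have h1 := KC.V1 ha hq k hok
  have e1 : KC a p q a' (1 - k * (a + 1) * -x) (-x) = KC a p q a' 1 (-x1) := by
    rw [← KC.unit' (a' := a') (p' := 1) (q' := -x1) (t := 1 + k * (a + 1) * x) hu.symm]
    refine KC.congr (by simp) (by simp) ?_ ?_
    · exact ⟨0, by ring⟩
    · obtain ⟨c, hc⟩ := hk
      exact ⟨-c, by linear_combination -hc⟩
  rwa [e1] at h1

/-- (G1) -/
theorem KC.g1 {N a a' z z1 x x1 : ℤ} (hN : a + 1 + a' = N) (ha : 0 < a) (ha' : 0 < a')
    (h1 : OC a N) (h2 : OC a' N) (hz : OC a z) (hz1 : OC a z1) (hx : OC a' x) (hx1 : OC a' x1)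
    (e1 : ∀ s : ℕ, (2 : ℤ) ^ s ∣ a → (2 : ℤ) ^ s ∣ z1 - z)
    (e2 : ∀ s : ℕ, (2 : ℤ) ^ s ∣ a' → (2 : ℤ) ^ s ∣ x1 - x)
    (hok : (KC a z (-1) a' 1 (-x)).Ok) :
    SEq (KC a z (-1) a' 1 (-x)) (KC a z1 (-1) a' 1 (-x1)) := by
  have n1 : OC a (a' + 1) := by
    intro l hl l2 l3 l4
    refine h1 l hl l2 l3 ?_
    have : N = a + (a' + 1) := by rw [← hN]; ring
    rw [this]; exact dvd_add l3 l4
  have n2 : OC a' (a + 1) := by
    intro l hl l2 l3 l4
    refine h2 l hl l2 l3 ?_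
    have : N = (a + 1) + a' := by rw [← hN]
    rw [this]; exact dvd_add l4 l3
  have s1 := KC.zH ha ha' isCoprime_one_left n1 hz hz1 e1 hok
  exact s1.trans (KC.xV ha ha' (isCoprime_one_left).neg_left n2 hx hx1 e2 s1.ok')

/-! ## CHOICE: `d = 1`, `c = 1` -/

/-- a lattice `Lc a p q` with `q` a unit has the form `y = z x`; `z` and `p` have the same primes -/
theorem Lc_slope {a p q : ℤ} (hq : IsCoprime q a) : ∃ z : ℤ, Lc a p q = Lc a z (-1) ∧
    a ∣ p + q * z ∧ ∀ l : ℤ, l ∣ a → (l ∣ z ↔ l ∣ p) := by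
  obtain ⟨x, y, hxy⟩ := hq
  have h1 : a ∣ p + q * (-p * x) := ⟨p * y, by linear_combination (-p) * hxy⟩
  have hq' : IsCoprime q a := ⟨x, y, hxy⟩
  refine ⟨-p * x, ?_, h1, ?_⟩
  · rw [← Lc_unit (a := a) (p := -p * x) (q := -1) (t := -q) hq'.symm.neg_right]
    refine Lc_congr ?_ ?_
    · obtain ⟨c, hc⟩ := h1
      exact ⟨-c, by linear_combination -hc⟩
    · exact ⟨0, by ring⟩
  · intro l hl
    constructor
    · intro h2
      have h3 := dvd_sub (hl.trans h1) (h2.mul_left q)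
      simpa using h3
    · intro h2
      have : -p * x = p * (-x) := by ring
      rw [this]; exact h2.mul_right _

/-- CHOICE, left: at `c = 1` a content-1 left lattice gets `d = 1` by an H-move. At `l = 2` the
shear must be odd if `q` is even. -/
theorem KC.choose_d {a p q a' p' q' : ℤ} (ha : 0 < a) (ha' : 0 < a') (hp' : IsCoprime p' a')
    (hP : Prm a p q) (hn : OC a (a' + 1)) (h2 : (2 : ℤ) ∣ a → (2 : ℤ) ∣ q → ¬ (2 : ℤ) ∣ a' + 1)
    (hok : (KC a p q a' p' q').Ok) :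
    ∃ z : ℤ, (∀ l : ℤ, l ∣ a → (l ∣ z ↔ l ∣ p)) ∧
      SEq (KC a p q a' p' q') (KC a z (-1) a' p' q') := by
  obtain ⟨t, ht⟩ := coprime_shift q (-((a' + 1) * p)) a ha.ne' (by
    intro l hl h3 h4 h5
    have h4' : (l : ℤ) ∣ (a' + 1) * p := (dvd_neg).1 h4
    rcases (Nat.prime_iff_prime_int.1 hl).dvd_or_dvd h4' with h6 | h6
    · by_cases hl2 : l = 2
      · subst hl2
        exact h2 (by exact_mod_cast h3) (by exact_mod_cast h5) (by exact_mod_cast h6)
      · exact hn l hl hl2 h3 h6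
    · exact hP l hl h3 h6 h5)
  have h1 := KC.H1 ha' hp' t hok
  have e : q + -((a' + 1) * p) * t = q - t * (a' + 1) * p := by ring
  rw [e] at ht
  obtain ⟨z, hz1, -, hz2⟩ := Lc_slope (p := p) ht
  refine ⟨z, hz2, ?_⟩
  unfold KC at h1 ⊢
  rwa [hz1] at h1

/-- the right lattice with `p'` a unit -/
theorem Lc_slope' {a p q : ℤ} (hp : IsCoprime p a) : ∃ x : ℤ, Lc a p q = Lc a 1 (-x) ∧
    a ∣ q + p * x ∧ ∀ l : ℤ, l ∣ a → (l ∣ x ↔ l ∣ q) := by
  obtain ⟨u, y, hxy⟩ := hp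
  have h1 : a ∣ q + p * (-q * u) := ⟨q * y, by linear_combination (-q) * hxy⟩
  have hp' : IsCoprime p a := ⟨u, y, hxy⟩
  refine ⟨-q * u, ?_, h1, ?_⟩
  · rw [← Lc_unit (a := a) (p := 1) (q := -(-q * u)) (t := p) hp'.symm]
    refine Lc_congr ?_ ?_
    · exact ⟨0, by ring⟩
    · obtain ⟨c, hc⟩ := h1
      exact ⟨-c, by linear_combination -hc⟩
  · intro l hl
    constructor
    · intro h2
      have h3 := dvd_sub (hl.trans h1) (h2.mul_left p)
      simpa using h3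
    · intro h2
      have : -q * u = q * (-u) := by ring
      rw [this]; exact h2.mul_right _

/-- CHOICE, right. -/
theorem KC.choose_c {a p q a' p' q' : ℤ} (ha : 0 < a) (ha' : 0 < a') (hq : IsCoprime q a)
    (hP : Prm a' p' q') (hn : OC a' (a + 1)) (h2 : (2 : ℤ) ∣ a' → (2 : ℤ) ∣ p' → ¬ (2 : ℤ) ∣ a + 1)
    (hok : (KC a p q a' p' q').Ok) :
    ∃ x : ℤ, (∀ l : ℤ, l ∣ a' → (l ∣ x ↔ l ∣ q')) ∧
      SEq (KC a p q a' p' q') (KC a p q a' 1 (-x)) := by
  obtain ⟨t, ht⟩ := coprime_shift p' (-((a + 1) * q')) a' ha'.ne' (by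
    intro l hl h3 h4 h5
    have h4' : (l : ℤ) ∣ (a + 1) * q' := (dvd_neg).1 h4
    rcases (Nat.prime_iff_prime_int.1 hl).dvd_or_dvd h4' with h6 | h6
    · by_cases hl2 : l = 2
      · subst hl2
        exact h2 (by exact_mod_cast h3) (by exact_mod_cast h5) (by exact_mod_cast h6)
      · exact hn l hl hl2 h3 h6
    · exact hP l hl h3 h5 h6)
  have h1 := KC.V1 ha hq t hok
  have e : p' + -((a + 1) * q') * t = p' - t * (a + 1) * q' := by ring
  rw [e] at ht
  obtain ⟨x, hx1, -, hx2⟩ := Lc_slope' (q := q') ht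
  refine ⟨x, hx2, ?_⟩
  unfold KC at h1 ⊢
  rwa [hx1] at h1

/-! ## `a = 4 m`, `m = 3 mod 4`: the class of `z` modulo `4` is free -/

theorem pow_two_dvd_four {m : ℤ} (hm : ¬ (2 : ℤ) ∣ m) {s : ℕ} (h : (2 : ℤ) ^ s ∣ 4 * m) :
    (2 : ℤ) ^ s ∣ 4 := by
  have hc : IsCoprime ((2 : ℤ) ^ s) m :=
    IsCoprime.pow_left ((Prime.coprime_iff_not_dvd Int.prime_two).2 hm)
  exact hc.dvd_of_dvd_mul_right h

theorem KC.g1four {a m a' m' z z1 x : ℤ} (ea : a = 4 * m) (ea' : a' = 2 * m') (hm : 0 < m)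
    (hm' : 0 < m') (hm3 : m % 4 = 3) (hm'2 : ¬ (2 : ℤ) ∣ m') (hn : OC a (a' + 1))
    (hz : OC a z) (hz1 : OC a z1) (z2 : (2 : ℤ) ∣ z) (x2 : (2 : ℤ) ∣ x)
    (h4 : (4 : ℤ) ∣ z1 - z - 2) (hok : (KC a z (-1) a' 1 (-x)).Ok) :
    SEq (KC a z (-1) a' 1 (-x)) (KC a z1 (-1) a' 1 (-x)) := by
  have ha : 0 < a := by omega
  have ha' : 0 < a' := by omega
  have hm2 : ¬ (2 : ℤ) ∣ m := by omega
  have hma : m ∣ a := ⟨4, by rw [ea]; ring⟩
  have czm : IsCoprime m z := (hz.of_dvd hma).isCoprime hm2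
  have cnm : IsCoprime m (a' + 1) := (hn.of_dvd hma).isCoprime hm2
  -- Step 1: the H-move with `q = 0 mod m`
  obtain ⟨u, y, huy⟩ := cnm.mul_right czm
  -- `y (a'+1) z = 1 mod m`
  set k : ℤ := -y with hk
  have s1 := KC.H1 ha' isCoprime_one_left k hok
  set q1 : ℤ := -u with hq1
  have eq1 : (-1 : ℤ) - k * (a' + 1) * z = q1 * m := by
    rw [hk, hq1]; linear_combination huy
  have hq1odd : ¬ (2 : ℤ) ∣ q1 := by
    intro h
    have h5 : (2 : ℤ) ∣ q1 * m := h.mul_right m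
    rw [← eq1] at h5
    have h6 : (2 : ℤ) ∣ k * (a' + 1) * z := z2.mul_left _
    have := dvd_add h5 h6
    norm_num at this
  rw [eq1] at s1
  -- Step 2: the V-move at `d = m`, `s = 4`
  have c4 : IsCoprime q1 4 := by
    have : IsCoprime q1 ((2 : ℤ) ^ 2) :=
      IsCoprime.pow_right ((Prime.coprime_iff_not_dvd Int.prime_two).2 hq1odd).symm
    norm_num at this
    exact this
  have hp2 : IsCoprime (z + 2 * m) m := by
    have : IsCoprime z m := czm.symm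
    exact IsCoprime.add_mul_right_left this 2
  have h4' : (4 : ℤ) ∣ (z + 2 * m) - (z - m' * q1 * (m - 1)) := by
    have e1 : (z + 2 * m) - (z - m' * q1 * (m - 1)) = 2 * m + m' * q1 * (m - 1) := by ring
    rw [e1]
    obtain ⟨c, hc⟩ : ∃ c : ℤ, m' * q1 = 2 * c + 1 := by
      have : ¬ (2 : ℤ) ∣ m' * q1 := by
        intro h
        rcases Int.prime_two.dvd_or_dvd h with h | h
        · exact hm'2 h
        · exact hq1odd h
      exact ⟨m' * q1 / 2, by omega⟩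
    rw [hc]
    obtain ⟨w, hw⟩ : ∃ w : ℤ, m = 4 * w + 3 := ⟨m / 4, by omega⟩
    rw [hw]
    exact ⟨2 * w + c * (2 * w + 1) + w + 2 + 0 * c, by ring⟩
  have s1' : SEq (KC a z (-1) a' 1 (-x)) (KC (4 * m) z (q1 * m) a' 1 (-x)) := by
    rw [← ea]; exact s1
  have s2 := KC.V (s := 4) (d := m) (p := z) (q1 := q1) (p2 := z + 2 * m) (by norm_num) hm c4
    czm.symm m' hp2 h4' s1'.ok'
  have e2 : KC (4 * m) (z + 2 * m) (q1 * m) a' (1 - m' * (4 + 1) * -x) (-x)
      = KC a (z + 2 * m) (q1 * m) a' 1 (-x) := by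
    rw [← ea]
    refine KC.congr (by simp) (by simp) ?_ (by simp)
    obtain ⟨c, hc⟩ := x2
    refine ⟨-(5 * c), ?_⟩
    rw [ea', hc]; ring
  rw [e2] at s2
  have s12 := s1'.trans s2
  -- Step 3: back
  have s3 := KC.H1 ha' isCoprime_one_left (-k) s12.ok'
  have e3 : q1 * m - -k * (a' + 1) * (z + 2 * m) = -1 + 2 * m * (k * (a' + 1)) := by
    rw [← eq1]; ring
  rw [e3] at s3
  have cq : IsCoprime (-1 + 2 * m * (k * (a' + 1))) a := by
    rw [ea]
    refine IsCoprime.mul_right ?_ ?_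
    · have h5 : ¬ (2 : ℤ) ∣ -1 + 2 * m * (k * (a' + 1)) := by
        intro h
        have h6 : (2 : ℤ) ∣ 2 * m * (k * (a' + 1)) := (dvd_mul_right 2 m).mul_right _
        have := dvd_sub h h6
        norm_num at this
      have : IsCoprime (-1 + 2 * m * (k * (a' + 1))) ((2 : ℤ) ^ 2) :=
        IsCoprime.pow_right ((Prime.coprime_iff_not_dvd Int.prime_two).2 h5).symm
      norm_num at this
      exact this
    · exact ⟨-1, 2 * (k * (a' + 1)), by ring⟩
  obtain ⟨z3, hz31, hz32, hz33⟩ := Lc_slope (p := z + 2 * m) cq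
  have s4 : SEq (KC a z (-1) a' 1 (-x)) (KC a z3 (-1) a' 1 (-x)) := by
    have h5 := s12.trans s3
    unfold KC at h5 ⊢
    rwa [hz31] at h5
  have oz3 : OC a z3 := by
    intro l hl hl2 h5 h6
    have h7 : (l : ℤ) ∣ z + 2 * m := (hz33 l h5).1 h6
    have h8 : (l : ℤ) ∣ m := by
      have h9 : (l : ℤ) ∣ 4 * m := by rw [← ea]; exact h5
      rcases (Nat.prime_iff_prime_int.1 hl).dvd_or_dvd h9 with h10 | h10
      · exfalso
        have h11 : (l : ℤ) ∣ (2 : ℤ) ^ 2 := by norm_num; exact h10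
        have h12 := (Nat.prime_iff_prime_int.1 hl).dvd_of_dvd_pow h11
        have h13 : l ∣ 2 := by exact_mod_cast h12
        exact hl2 ((Nat.prime_dvd_prime_iff_eq hl Nat.prime_two).1 h13)
      · exact h10
    have h9 : (l : ℤ) ∣ z := by
      have := dvd_sub h7 (h8.mul_left 2)
      simpa using this
    exact hz l hl hl2 h5 h9
  -- `z3 = z + 2 mod 4`
  have z34 : (4 : ℤ) ∣ z1 - z3 := by
    have h5 : (4 : ℤ) ∣ a := ⟨m, ea⟩
    have h6 := h5.trans hz32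
    have h7 : (2 : ℤ) ∣ z3 := by
      refine (hz33 2 ((by norm_num : (2 : ℤ) ∣ 4).trans h5)).2 ?_
      exact dvd_add z2 (dvd_mul_right 2 m)
    obtain ⟨c, hc⟩ := h7
    obtain ⟨b, hb⟩ := z2
    obtain ⟨w, hw⟩ : ∃ w : ℤ, m = 4 * w + 3 := ⟨m / 4, by omega⟩
    rw [hc, hb] at h6
    have e4 : 2 * b + 2 * m + (-1 + 2 * m * (k * (a' + 1))) * (2 * c)
        = 2 * b + 2 * m - 2 * c + 4 * (m * (k * (a' + 1)) * c) := by ring
    rw [e4] at h6
    have h8 : (4 : ℤ) ∣ 2 * b + 2 * m - 2 * c := (dvd_add_left (dvd_mul_right 4 _)).1 h6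
    rw [hb] at h4
    rw [hc]
    omega
  refine s4.trans (KC.zH ha ha' isCoprime_one_left hn oz3 hz1 ?_ s4.ok')
  intro s hs
  rw [ea] at hs
  exact (pow_two_dvd_four hm2 hs).trans z34

/-! ## The type `(1, [4,2,0])`, `N` even -/

/-- `a = 2 m`, `m` odd, `a'` odd, `p` a unit, `q` even, `c = 1`, `x` a unit: the normal form is
`L = {X = 0 mod a}`, `L' = {X = Y mod a'}`. -/
theorem KC.g1_420 {a m a' p q x : ℤ} (ea : a = 2 * m) (hm : 0 < m) (ha' : 0 < a')
    (hm2 : ¬ (2 : ℤ) ∣ m) (ha'2 : ¬ (2 : ℤ) ∣ a') (hn : OC a (a' + 1)) (hp : IsCoprime p a)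
    (hq : (2 : ℤ) ∣ q) (hx : IsCoprime x a') (hok : (KC a p q a' 1 (-x)).Ok) :
    SEq (KC a p q a' 1 (-x)) (KC a 1 0 a' 1 (-1)) := by
  have ha : 0 < a := by omega
  have hma : m ∣ a := ⟨2, by rw [ea]; ring⟩
  have cpm : IsCoprime m p := (hp.of_isCoprime_of_dvd_right hma).symm
  have cnm : IsCoprime m (a' + 1) := (hn.of_dvd hma).isCoprime hm2
  obtain ⟨u, y, huy⟩ := cnm.mul_right cpm
  have s1 := KC.H1 ha' isCoprime_one_left (y * q) hok
  have d1 : m ∣ q - y * q * (a' + 1) * p := ⟨u * q, by linear_combination (-q) * huy⟩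
  have d2 : (2 : ℤ) ∣ q - y * q * (a' + 1) * p := by
    have : q - y * q * (a' + 1) * p = q * (1 - y * (a' + 1) * p) := by ring
    rw [this]; exact hq.mul_right _
  have d3 : a ∣ q - y * q * (a' + 1) * p := by
    rw [ea]
    exact ((Prime.coprime_iff_not_dvd Int.prime_two).2 hm2).mul_dvd d2 d1
  have e1 : KC a p (q - y * q * (a' + 1) * p) a' 1 (-x) = KC a 1 0 a' 1 (-x) := by
    rw [← KC.unit (a := a) (p := 1) (q := 0) (t := p) hp.symm]
    refine KC.congr (by simp) ?_ (by simp) (by simp)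
    obtain ⟨c, hc⟩ := d3
    exact ⟨-c, by linear_combination -hc⟩
  rw [e1] at s1
  -- the V-move at `s = 1`
  have c2 : IsCoprime (2 * x) a' := by
    refine IsCoprime.mul_left ?_ hx
    exact (Prime.coprime_iff_not_dvd Int.prime_two).2 ha'2
  obtain ⟨v, w, hvw⟩ := c2
  have s1' : SEq (KC a p q a' 1 (-x)) (KC (1 * a) 1 (0 * a) a' 1 (-x)) := by
    rw [one_mul, zero_mul]; exact s1
  have s2 := KC.V (s := 1) (d := a) (p := 1) (q1 := 0) (p2 := 1) one_pos ha isCoprime_one_right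
    isCoprime_one_left (v * (x - 1)) isCoprime_one_left (one_dvd _) s1'.ok'
  have e2 : KC (1 * a) 1 (0 * a) a' (1 - v * (x - 1) * (1 + 1) * -x) (-x)
      = KC a 1 0 a' 1 (-1) := by
    rw [one_mul, zero_mul]
    rw [← KC.unit' (a' := a') (p' := 1) (q' := -1) (t := x) hx.symm]
    refine KC.congr (by simp) (by simp) ?_ ?_
    · refine ⟨w * (x - 1), ?_⟩
      linear_combination (-(x - 1)) * hvw
    · exact ⟨0, by ring⟩
  rw [e2] at s2
  exact s1'.trans s2

end Pool.Agent.H4G
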