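import Pool.Agent.H4G.Ctwo.G2step

/-!
# (G2): all good levels carry the same generic class (helper31)
-/

set_option autoImplicit false

namespace Pool.Agent.H4G

/-- A relation on levels which holds for close good levels holds for all good levels of a range. -/
theorem chain_levels {N ξ η : ℤ} {J X : ℕ} (R : ℤ → ℤ → Prop) (T : ℤ → Prop) (hcap : Cap J X)
    (hX : (2 * N) ^ 4 ≤ X) (hN3 : 3 ≤ N) (hJ : 1 ≤ J)
    (hξ : (ξ = 1 ∧ η = 1) ∨ (ξ = 2 ∧ (η = 2 ∨ η = 3)))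
    (hsymm : ∀ a b, R a b → R b a) (htrans : ∀ a b c, R a b → R b c → R a c) {c0 lo hi : ℤ}
    (hT : ∀ c, (16 : ℤ) ∣ c - c0 → T c) (hlo : 0 ≤ lo) (hhi : hi ≤ N)
    (hstep : ∀ a c, GLev N a → GLev N c → GStep N ξ η a c → T a → T c → lo ≤ a → a < c →
      c ≤ hi → c - a ≤ 64 * (J : ℤ) ^ 2 → R a c) :
    ∀ n : ℕ, ∀ a b : ℤ, (b - a).toNat = n → GLev N a → GLev N b → T a → T b → lo ≤ a → a ≤ b →
      b + 32 * (J : ℤ) ^ 2 ≤ hi → R a b := by
  have hJ2 : (1 : ℤ) ≤ (J : ℤ) ^ 2 := by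
    have : (1 : ℤ) ≤ (J : ℤ) := by exact_mod_cast hJ
    nlinarith
  intro n
  induction n using Nat.strong_induction_on with
  | _ n ih =>
  intro a b hn ga gb ha16 hb16 hla hab hbh
  by_cases hclose : b - a ≤ 32 * (J : ℤ) ^ 2
  · -- a common target just above `b`
    obtain ⟨c, h1, h2, h3, gc, s1, s2⟩ := pair_target hcap hX hN3 (by linarith) (by linarith)
      (by linarith) (by linarith) ga gb hξ c0 (b + 1)
    have r1 := hstep a c ga gc s1 ha16 (hT c h3) hla (by linarith) (by linarith) (by linarith)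
    have r2 := hstep b c gb gc s2 hb16 (hT c h3) (by linarith) (by linarith) (by linarith)
      (by linarith)
    exact htrans _ _ _ r1 (hsymm _ _ r2)
  · push Not at hclose
    -- a good level between
    obtain ⟨c, h1, h2, h3, gc, s1, _⟩ := pair_target hcap hX hN3 (by linarith) (by linarith)
      (by linarith) (by linarith) ga ga hξ c0 (a + 1)
    have r1 := hstep a c ga gc s1 ha16 (hT c h3) hla (by linarith) (by linarith) (by linarith)
    have r2 := ih (b - c).toNat (by omega) c b rfl gc gb (hT c h3) hb16 (by linarith)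
      (by linarith) hbh
    exact htrans _ _ _ r1 r2

/-- (G2), the canonical states of two good levels -/
theorem Ty.g2can {J Z : ℕ} {N ζ ξ a a' b b' : ℤ} (hcap : Cap J Z) (hZ : (2 * N) ^ 4 ≤ Z)
    (hJ : 1 ≤ J) (hty : Ty ζ ξ a a') (hty' : Ty ζ ξ b b') (hN : a + 1 + a' = N)
    (hN' : b + 1 + b' = N) (ga : GLev N a) (gb : GLev N b) (ha : 2 ^ 9 * (J : ℤ) ^ 4 ≤ a)
    (ha' : 2 ^ 9 * (J : ℤ) ^ 4 ≤ a') (hb : 2 ^ 9 * (J : ℤ) ^ 4 ≤ b)
    (hb' : 2 ^ 9 * (J : ℤ) ^ 4 ≤ b') :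
    SEq (KC a ζ (-1) a' 1 (-ξ)) (KC b ζ (-1) b' 1 (-ξ)) := by
  have hJ1 : (1 : ℤ) ≤ (J : ℤ) := by exact_mod_cast hJ
  have hJ2 : (1 : ℤ) ≤ (J : ℤ) ^ 2 := by nlinarith
  have hJ4 : (J : ℤ) ^ 2 ≤ (J : ℤ) ^ 4 := by nlinarith
  have hξ : (ξ = 1 ∧ ξ = 1) ∨ (ξ = 2 ∧ (ξ = 2 ∨ ξ = 3)) := by
    rcases hty.xi with h | h
    · exact Or.inl ⟨h, h⟩
    · exact Or.inr ⟨h, Or.inl h⟩
  have hN3 : 3 ≤ N := by linarith
  -- the relation
  set R : ℤ → ℤ → Prop := fun x y =>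
    SEq (KC x ζ (-1) (N - 1 - x) 1 (-ξ)) (KC y ζ (-1) (N - 1 - y) 1 (-ξ)) with hR
  have hsize : ∀ x y : ℤ, 2 ^ 9 * (J : ℤ) ^ 4 ≤ x → y - x ≤ 64 * (J : ℤ) ^ 2 → x < y →
      (1 + (y - x)) * (2 * (J : ℤ) ^ 2 + 2) ≤ x := by
    intro x y h1 h2 h3
    have h4 : (1 + (y - x)) * (2 * (J : ℤ) ^ 2 + 2) ≤
        (65 * (J : ℤ) ^ 2) * (4 * (J : ℤ) ^ 2) := by
      refine mul_le_mul (by linarith) (by linarith) (by linarith) (by positivity)
    have h5 : (65 * (J : ℤ) ^ 2) * (4 * (J : ℤ) ^ 2) = 260 * (J : ℤ) ^ 4 := by ring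
    nlinarith
  have main : ∀ x y : ℤ, GLev N x → GLev N y → Ty ζ ξ x (N - 1 - x) → Ty ζ ξ y (N - 1 - y) →
      2 ^ 9 * (J : ℤ) ^ 4 ≤ x → x ≤ y → y + 2 ^ 9 * (J : ℤ) ^ 4 ≤ N - 1 → R x y := by
    intro x y gx gy hx16 hy16 hlx hxy hyh
    refine chain_levels (c0 := a) (lo := 2 ^ 9 * (J : ℤ) ^ 4)
      (hi := N - 1 - 200 * (J : ℤ) ^ 2) R (fun x => Ty ζ ξ x (N - 1 - x)) hcap hZ hN3 hJ hξ
      (fun _ _ h => h.symm) (fun _ _ _ h h' => h.trans h')
      (fun c hc => hty.shift hc (by linarith)) (by positivity) (by linarith)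
      ?_ _ x y rfl gx gy hx16 hy16 hlx hxy (by linarith)
    intro x c gx gc hst tx tc hlx hxc hch hd
    have hZ' : x * c ≤ Z := by
      refine le_trans ?_ hZ
      have h1 : x * c ≤ N * N := mul_le_mul (by linarith) (by linarith) (by linarith) (by linarith)
      have h2 : N * N ≤ (2 * N) ^ 4 := by
        have h3 : (1 : ℤ) ≤ N * N := by nlinarith
        have e : (2 * N) ^ 4 = 16 * ((N * N) * (N * N)) := by ring
        rw [e]; nlinarith
      exact h1.trans h2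
    have hx0 : 0 < x := by linarith
    refine tx.step hcap tc (by ring) (by ring) hx0 hxc hZ' gx gc hst (hsize x c hlx hd hxc)
      (by linarith) ?_
    · refine ZS.ok hx0 (by linarith) ?_ ?_
      · intro h
        have := Int.le_of_dvd (by rcases tx.zeta with h | h <;> rw [h] <;> norm_num) h
        rcases tx.zeta with h | h <;> linarith
      · intro h
        have := Int.le_of_dvd (by rcases tx.xi with h | h <;> rw [h] <;> norm_num) h
        rcases tx.xi with h | h <;> linarith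
  have e1 : N - 1 - a = a' := by linarith
  have e2 : N - 1 - b = b' := by linarith
  have ta : Ty ζ ξ a (N - 1 - a) := by rw [e1]; exact hty
  have tb : Ty ζ ξ b (N - 1 - b) := by rw [e2]; exact hty'
  rcases le_total a b with hab | hab
  · have := main a b ga gb ta tb ha hab (by linarith)
    simp only [hR] at this
    rwa [e1, e2] at this
  · have := main b a gb ga tb ta hb hab (by linarith)
    simp only [hR] at this
    rw [e1, e2] at this
    exact this.symm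

/-- (G2): two generic Z-states of the same 2-adic class at good levels are equivalent -/
theorem Ty.g2 {J Z : ℕ} {N ζ ξ a a' b b' z x z1 x1 : ℤ} (hcap : Cap J Z)
    (hZ : (2 * N) ^ 4 ≤ Z) (hJ : 1 ≤ J) (hty : Ty ζ ξ a a') (hty' : Ty ζ ξ b b')
    (hN : a + 1 + a' = N) (hN' : b + 1 + b' = N) (ga : GLev N a) (gb : GLev N b)
    (ha : 2 ^ 9 * (J : ℤ) ^ 4 ≤ a) (ha' : 2 ^ 9 * (J : ℤ) ^ 4 ≤ a')
    (hb : 2 ^ 9 * (J : ℤ) ^ 4 ≤ b) (hb' : 2 ^ 9 * (J : ℤ) ^ 4 ≤ b')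
    (hz : OC a z) (hx : OC a' x) (hz1 : OC b z1) (hx1 : OC b' x1)
    (pz : (2 : ℤ) ∣ a → (2 : ℤ) ∣ z - ζ) (px : (2 : ℤ) ∣ a' → (2 : ℤ) ∣ ξ - x)
    (pz1 : (2 : ℤ) ∣ b → (2 : ℤ) ∣ z1 - ζ) (px1 : (2 : ℤ) ∣ b' → (2 : ℤ) ∣ ξ - x1)
    (hok : (KC a z (-1) a' 1 (-x)).Ok) (hok1 : (KC b z1 (-1) b' 1 (-x1)).Ok) :
    SEq (KC a z (-1) a' 1 (-x)) (KC b z1 (-1) b' 1 (-x1)) := by
  have hJ1 : (1 : ℤ) ≤ (J : ℤ) := by exact_mod_cast hJ
  have hJ4 : (1 : ℤ) ≤ (J : ℤ) ^ 4 := one_le_pow₀ hJ1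
  have hζoc : ∀ m : ℤ, OC m ζ := by
    intro m
    rcases hty.zeta with h | h
    · rw [h]; exact OC.one m
    · rw [h]; exact OC.two m
  have hξoc : ∀ m : ℤ, OC m ξ := by
    intro m
    rcases hty.xi with h | h
    · rw [h]; exact OC.one m
    · rw [h]; exact OC.two m
  have a0 : 0 < a := by linarith
  have a'0 : 0 < a' := by linarith
  have b0 : 0 < b := by linarith
  have b'0 : 0 < b' := by linarith
  have s1 := hty.freeR a0 a'0 (ga.ocR hN) hx (hξoc _) px hok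
  have s2 := hty.freeL a0 a'0 (ga.ocL hN) hz (hζoc _) pz (by simp) s1.ok'
  have t1 := hty'.freeR b0 b'0 (gb.ocR hN') hx1 (hξoc _) px1 hok1
  have t2 := hty'.freeL b0 b'0 (gb.ocL hN') hz1 (hζoc _) pz1 (by simp) t1.ok'
  have m := hty.g2can hcap hZ hJ hty' hN hN' ga gb ha ha' hb hb'
  exact s1.trans (s2.trans (m.trans (t2.symm.trans t1.symm)))

end Pool.Agent.H4G
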