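import Pool.Agent.H4G.Ctwo.Sieve3
import Pool.Agent.H4G.Ctwo.G1

/-!
# (G2), the arithmetic (helper31)
-/

set_option autoImplicit false

namespace Pool.Agent.H4G

theorem prime_not_dvd_two {l : ℕ} (hl : l.Prime) (hl2 : l ≠ 2) : ¬ (l : ℤ) ∣ 2 := by
  intro h
  have : l ∣ 2 := by exact_mod_cast h
  exact hl2 ((Nat.prime_dvd_prime_iff_eq hl Nat.prime_two).1 this)

theorem prime_not_dvd_three {l : ℕ} (hl : l.Prime) (hl3 : l ≠ 3) : ¬ (l : ℤ) ∣ 3 := by
  intro h
  have : l ∣ 3 := by exact_mod_cast h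
  exact hl3 ((Nat.prime_dvd_prime_iff_eq hl Nat.prime_three).1 this)

/-- good levels: no odd prime divides `gcd (a (a + 1), N)` -/
def GLev (N a : ℤ) : Prop := OC a N ∧ OC (a + 1) N

theorem GLev.right {N a a' : ℤ} (h : GLev N a) (hN : a + 1 + a' = N) : OC a' N := by
  intro l hl h2 h3 h4
  refine h.2 l hl h2 ?_ h4
  have : a + 1 = N - a' := by linarith
  rw [this]; exact dvd_sub h4 h3

/-- the classes of one prime for a common target -/
theorem pair_classes {N a b ξ η : ℤ} (ha : GLev N a) (hb : GLev N b)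
    (hξ : (ξ = 1 ∧ η = 1) ∨ (ξ = 2 ∧ (η = 2 ∨ η = 3))) {l : ℕ} (hl : l.Prime) (hl2 : l ≠ 2) :
    ∃ r1 r2 r3 : ℤ,
      (∀ c : ℤ, ¬ (l : ℤ) ∣ c - r1 → ¬ (l : ℤ) ∣ c - r2 → ¬ (l : ℤ) ∣ c - r3 →
        ((l : ℤ) ∣ N → ¬ (l : ℤ) ∣ c ∧ ¬ (l : ℤ) ∣ c + 1) ∧
        ((l : ℤ) ∣ N + η → ¬ (l : ℤ) ∣ c) ∧
        ((l : ℤ) ∣ N - a + ξ → ¬ (l : ℤ) ∣ 1 + c - a) ∧
        ((l : ℤ) ∣ N - b + ξ → ¬ (l : ℤ) ∣ 1 + c - b)) ∧
      ∃ x : ℤ, ¬ (l : ℤ) ∣ x - r1 ∧ ¬ (l : ℤ) ∣ x - r2 ∧ ¬ (l : ℤ) ∣ x - r3 := by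
  have n1 := prime_not_dvd_one hl
  have n2 := prime_not_dvd_two hl hl2
  by_cases hN : (l : ℤ) ∣ N
  · rcases hξ with ⟨rfl, rfl⟩ | ⟨rfl, hη⟩
    · -- classes 0, -1
      refine ⟨0, -1, 0, ?_, 1, by simpa using n1, ?_, by simpa using n1⟩
      · intro c h1 h2 _
        have k1 : ¬ (l : ℤ) ∣ c := by simpa using h1
        refine ⟨fun _ => ⟨k1, by simpa using h2⟩, fun _ => k1, ?_, ?_⟩
        · intro h3 h4
          apply k1
          have := dvd_add (dvd_sub h4 h3) hN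
          have e : 1 + c - a - (N - a + 1) + N = c := by ring
          rwa [e] at this
        · intro h3 h4
          apply k1
          have := dvd_add (dvd_sub h4 h3) hN
          have e : 1 + c - b - (N - b + 1) + N = c := by ring
          rwa [e] at this
      · have : (1 : ℤ) - -1 = 2 := by norm_num
        rw [this]; exact n2
    · by_cases hl3 : l = 3
      · subst hl3
        refine ⟨0, -1, -1, ?_, 1, by norm_num, by norm_num, by norm_num⟩
        intro c h1 h2 _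
        have k1 : ¬ ((3 : ℕ) : ℤ) ∣ c := by simpa using h1
        refine ⟨fun _ => ⟨k1, by simpa using h2⟩, fun _ => k1, ?_, ?_⟩
        · intro h3 _
          exfalso
          refine ha.2 3 (by norm_num) (by norm_num) ?_ hN
          have h5 := dvd_sub hN h3
          have h6 := dvd_add h5 (dvd_refl ((3 : ℕ) : ℤ))
          have e : N - (N - a + 2) + ((3 : ℕ) : ℤ) = a + 1 := by push_cast; ring
          rwa [e] at h6
        · intro h3 _
          exfalso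
          refine hb.2 3 (by norm_num) (by norm_num) ?_ hN
          have h5 := dvd_sub hN h3
          have h6 := dvd_add h5 (dvd_refl ((3 : ℕ) : ℤ))
          have e : N - (N - b + 2) + ((3 : ℕ) : ℤ) = b + 1 := by push_cast; ring
          rwa [e] at h6
      · refine ⟨0, -1, 1, ?_, 2, by simpa using n2, ?_, ?_⟩
        · intro c h1 h2 h3
          have k1 : ¬ (l : ℤ) ∣ c := by simpa using h1
          refine ⟨fun _ => ⟨k1, by simpa using h2⟩, fun _ => k1, ?_, ?_⟩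
          · intro h4 h5
            apply h3
            have := dvd_add (dvd_sub h5 h4) hN
            have e : 1 + c - a - (N - a + 2) + N = c - 1 := by ring
            rwa [e] at this
          · intro h4 h5
            apply h3
            have := dvd_add (dvd_sub h5 h4) hN
            have e : 1 + c - b - (N - b + 2) + N = c - 1 := by ring
            rwa [e] at this
        · have : (2 : ℤ) - -1 = 3 := by norm_num
          rw [this]; exact prime_not_dvd_three hl hl3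
        · have : (2 : ℤ) - 1 = 1 := by norm_num
          rw [this]; exact n1
  · by_cases hη : (l : ℤ) ∣ N + η
    · -- classes 0, η - ξ - 1
      have hcl : ∀ c a0 : ℤ, ¬ (l : ℤ) ∣ c - (ξ - η - 1) → (l : ℤ) ∣ N - a0 + ξ →
          ¬ (l : ℤ) ∣ 1 + c - a0 := by
        intro c a0 h1 h2 h3
        apply h1
        have := dvd_add (dvd_sub h3 h2) hη
        have e : 1 + c - a0 - (N - a0 + ξ) + (N + η) = c - (ξ - η - 1) := by ring
        rwa [e] at this
      have hx : ∃ x : ℤ, ¬ (l : ℤ) ∣ x - 0 ∧ ¬ (l : ℤ) ∣ x - (ξ - η - 1) := avoid2 hl hl2 _ _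
      obtain ⟨x, hx1, hx2⟩ := hx
      refine ⟨0, ξ - η - 1, ξ - η - 1, ?_, x, hx1, hx2, hx2⟩
      intro c h1 h2 _
      have k1 : ¬ (l : ℤ) ∣ c := by simpa using h1
      exact ⟨fun h => absurd h hN, fun _ => k1, hcl c a h2, hcl c b h2⟩
    · obtain ⟨x, hx1, hx2⟩ := avoid2 hl hl2 (a - 1) (b - 1)
      refine ⟨a - 1, b - 1, b - 1, ?_, x, hx1, hx2, hx2⟩
      intro c h1 h2 _
      refine ⟨fun h => absurd h hN, fun h => absurd h hη, ?_, ?_⟩
      · intro _ h3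
        apply h1
        have e : c - (a - 1) = 1 + c - a := by ring
        rwa [e]
      · intro _ h3
        apply h2
        have e : c - (b - 1) = 1 + c - b := by ring
        rwa [e]

/-- what a step `a → c` needs -/
structure GStep (N ξ η a c : ℤ) : Prop where
  A : ∀ l : ℕ, l.Prime → l ≠ 2 → (l : ℤ) ∣ N - a + ξ → ¬ (l : ℤ) ∣ 1 + c - a
  B : ∀ l : ℕ, l.Prime → l ≠ 2 → (l : ℤ) ∣ N + η → ¬ (l : ℤ) ∣ c

/-- COMMON TARGET of two good levels -/
theorem pair_target {J X : ℕ} {N a b ξ η : ℤ} (hcap : Cap J X) (hX : (2 * N) ^ 4 ≤ X)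
    (hN3 : 3 ≤ N) (ha0 : 0 ≤ a) (hb0 : 0 ≤ b) (haN : a ≤ N) (hbN : b ≤ N)
    (ha : GLev N a) (hb : GLev N b) (hξ : (ξ = 1 ∧ η = 1) ∨ (ξ = 2 ∧ (η = 2 ∨ η = 3)))
    (c0 s : ℤ) : ∃ c : ℤ, s ≤ c ∧ c < s + 16 * (J : ℤ) ^ 2 ∧ (16 : ℤ) ∣ c - c0 ∧ GLev N c ∧
      GStep N ξ η a c ∧ GStep N ξ η b c := by
  have hξ1 : 1 ≤ ξ ∧ ξ ≤ 3 := by omega
  have hη1 : 1 ≤ η ∧ η ≤ 3 := by omega
  have hM0 : 0 < N * (N + η) * (N - a + ξ) * (N - b + ξ) := by
    have h1 : 0 < N := by omega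
    have h2 : 0 < N + η := by omega
    have h3 : 0 < N - a + ξ := by omega
    have h4 : 0 < N - b + ξ := by omega
    positivity
  have hMX : N * (N + η) * (N - a + ξ) * (N - b + ξ) ≤ (X : ℤ) := by
    refine le_trans ?_ hX
    have e : (2 * N) ^ 4 = (2 * N) * (2 * N) * (2 * N) * (2 * N) := by ring
    rw [e]
    refine mul_le_mul (mul_le_mul (mul_le_mul ?_ ?_ ?_ ?_) ?_ ?_ ?_) ?_ ?_ ?_ <;> first
      | omega
      | positivity
  obtain ⟨M, hM⟩ := Int.eq_ofNat_of_zero_le hM0.le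
  have hMne : M ≠ 0 := by
    rintro rfl
    rw [hM] at hM0
    simp at hM0
  have hMle : M ≤ X := by rw [hM] at hMX; exact_mod_cast hMX
  obtain ⟨c, h1, h2, h3, h4⟩ := sieve3 hMne 4 (fun l c =>
        ((l : ℤ) ∣ N → ¬ (l : ℤ) ∣ c ∧ ¬ (l : ℤ) ∣ c + 1) ∧
        ((l : ℤ) ∣ N + η → ¬ (l : ℤ) ∣ c) ∧
        ((l : ℤ) ∣ N - a + ξ → ¬ (l : ℤ) ∣ 1 + c - a) ∧
        ((l : ℤ) ∣ N - b + ξ → ¬ (l : ℤ) ∣ 1 + c - b))
    (fun l hl hl2 _ => pair_classes ha hb hξ hl hl2) c0 s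
  have h8 := hcap.eight hMne hMle
  refine ⟨c, h1, ?_, ?_, ⟨?_, ?_⟩, ⟨?_, ?_⟩, ⟨?_, ?_⟩⟩
  · have e16 : (2 : ℤ) ^ 4 = 16 := by norm_num
    rw [e16] at h2
    linarith
  · have e16 : (2 : ℤ) ^ 4 = 16 := by norm_num
    rw [e16] at h3
    exact h3
  · intro l hl hl2 h5 h6
    refine ((h4 l hl hl2 ?_).1 h6).1 h5
    rw [← hM]
    exact ((h6.mul_right _).mul_right _).mul_right _
  · intro l hl hl2 h5 h6
    refine ((h4 l hl hl2 ?_).1 h6).2 h5
    rw [← hM]
    exact ((h6.mul_right _).mul_right _).mul_right _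
  · intro l hl hl2 h5
    refine (h4 l hl hl2 ?_).2.2.1 h5
    rw [← hM]
    exact (h5.mul_left _).mul_right _
  · intro l hl hl2 h5
    refine (h4 l hl hl2 ?_).2.1 h5
    rw [← hM]
    exact ((h5.mul_left _).mul_right _).mul_right _
  · intro l hl hl2 h5
    refine (h4 l hl hl2 ?_).2.2.2 h5
    rw [← hM]
    exact h5.mul_left _
  · intro l hl hl2 h5
    refine (h4 l hl hl2 ?_).2.1 h5
    rw [← hM]
    exact ((h5.mul_left _).mul_right _).mul_right _

/-- THE LANDING VECTOR: `X (1 + e) - Y (1 + k) = 1`, `0 < Y ≤ a`, `X, Y` prime to the odd part of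
`a`, `Y + e` prime to the odd part of `a + e`, `Y` of given parity. -/
theorem exists_XY {J Z : ℕ} {a e k : ℤ} (hcap : Cap J Z) (ha : 0 < a) (he : 0 ≤ e)
    (hZ : a * (a + e) ≤ Z) (he2 : (2 : ℤ) ∣ e) (hc : IsCoprime (1 + e) (1 + k))
    (hB : ∀ l : ℕ, l.Prime → l ≠ 2 → (l : ℤ) ∣ 1 + e → (l : ℤ) ∣ a + e → ¬ (l : ℤ) ∣ 2 + k)
    (hsize : (1 + e) * (2 * (J : ℤ) ^ 2 + 2) ≤ a) (ρ : ℤ) :
    ∃ X Y : ℤ, X * (1 + e) - Y * (1 + k) = 1 ∧ 0 < Y ∧ Y ≤ a ∧ OC a X ∧ OC a Y ∧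
      OC (a + e) (Y + e) ∧ (2 : ℤ) ∣ Y - ρ := by
  obtain ⟨x0, y0, hxy⟩ := hc
  -- `x0 (1+e) + y0 (1+k) = 1`, so `X0 = x0`, `Y0 = - y0`
  have hM0 : 0 < a * (a + e) := by positivity
  obtain ⟨M, hM⟩ := Int.eq_ofNat_of_zero_le hM0.le
  have hMne : M ≠ 0 := by
    rintro rfl
    rw [hM] at hM0
    simp at hM0
  have hMle : M ≤ Z := by rw [hM] at hZ; exact_mod_cast hZ
  have h8 := hcap.eight hMne hMle
  have he1 : 0 < 1 + e := by linarith
  -- the start of the window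
  obtain ⟨s, hs1, hs2⟩ : ∃ s : ℤ, 0 < -y0 + (1 + e) * s ∧ -y0 + (1 + e) * s ≤ 1 + e := by
    refine ⟨y0 / (1 + e) + 1, ?_, ?_⟩
    · have := Int.emod_lt_of_pos y0 he1
      have e1 := Int.emod_add_mul_ediv y0 (1 + e)
      nlinarith
    · have := Int.emod_nonneg y0 he1.ne'
      have e1 := Int.emod_add_mul_ediv y0 (1 + e)
      nlinarith
  obtain ⟨t, t1, t2, t3, t4⟩ := sieve3 hMne 1 (fun l t =>
      ((l : ℤ) ∣ a → ¬ (l : ℤ) ∣ x0 + (1 + k) * t ∧ ¬ (l : ℤ) ∣ -y0 + (1 + e) * t) ∧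
      ((l : ℤ) ∣ a + e → ¬ (l : ℤ) ∣ (-y0 + e) + (1 + e) * t))
    (by
      intro l hl hl2 _
      by_cases hla : (l : ℤ) ∣ a
      · obtain ⟨r1, hr1⟩ := lin_class hl (α := x0) (β := 1 + k) (by
          intro h1 h2
          have := dvd_add (h2.mul_right (1 + e)) (h1.mul_left y0)
          rw [hxy] at this
          exact prime_not_dvd_one hl this)
        obtain ⟨r2, hr2⟩ := lin_class hl (α := -y0) (β := 1 + e) (by
          intro h1 h2
          have := dvd_add (h1.mul_left x0) (((dvd_neg).1 h2).mul_right (1 + k))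
          rw [hxy] at this
          exact prime_not_dvd_one hl this)
        obtain ⟨x, hx1, hx2⟩ := avoid2 hl hl2 r1 r2
        refine ⟨r1, r2, r2, ?_, x, hx1, hx2, hx2⟩
        intro t h1 h2 _
        refine ⟨fun _ => ⟨hr1 t h1, hr2 t h2⟩, ?_⟩
        intro h3 h4
        have h5 : (l : ℤ) ∣ e := by
          have := dvd_sub h3 hla
          simpa using this
        apply hr2 t h2
        have := dvd_sub h4 h5
        have e1 : -y0 + e + (1 + e) * t - e = -y0 + (1 + e) * t := by ring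
        rwa [e1] at this
      · by_cases hlc : (l : ℤ) ∣ a + e
        · obtain ⟨r, hr⟩ := lin_class hl (α := -y0 + e) (β := 1 + e) (by
            intro h1 h2
            apply hB l hl hl2 h1 hlc
            -- `-y0 = 1`, `y0 (1 + k) = 1`
            have h3 : (l : ℤ) ∣ y0 + 1 := by
              have := dvd_sub h1 h2
              have e1 : 1 + e - (-y0 + e) = y0 + 1 := by ring
              rwa [e1] at this
            have h7 := dvd_add (h3.mul_right (1 + k)) (h1.mul_left x0)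
            have e2 : (y0 + 1) * (1 + k) + x0 * (1 + e) = 2 + k := by
              linear_combination hxy
            rwa [e2] at h7)
          obtain ⟨x, hx1, _⟩ := avoid2 hl hl2 r r
          refine ⟨r, r, r, ?_, x, hx1, hx1, hx1⟩
          intro t h1 _ _
          exact ⟨fun h => absurd h hla, fun _ => hr t h1⟩
        · refine ⟨0, 0, 0, ?_, 1, ?_, ?_, ?_⟩
          · intro t _ _ _
            exact ⟨fun h => absurd h hla, fun h => absurd h hlc⟩
          all_goals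
            rw [sub_zero]
            exact prime_not_dvd_one hl)
    (ρ + y0) s
  rw [pow_one] at t2 t3
  have ht2 : t < s + 2 * (J : ℤ) ^ 2 := by linarith
  refine ⟨x0 + (1 + k) * t, -y0 + (1 + e) * t, ?_, ?_, ?_, ?_, ?_, ?_, ?_⟩
  · linear_combination hxy
  · nlinarith
  · have h5 : t ≤ s + 2 * (J : ℤ) ^ 2 - 1 := by linarith
    have h6 : (1 + e) * t ≤ (1 + e) * (s + 2 * (J : ℤ) ^ 2 - 1) :=
      mul_le_mul_of_nonneg_left h5 he1.le
    nlinarith
  · intro l hl hl2 h5 h6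
    exact ((t4 l hl hl2 (by rw [← hM]; exact h5.mul_right _)).1 h5).1 h6
  · intro l hl hl2 h5 h6
    exact ((t4 l hl hl2 (by rw [← hM]; exact h5.mul_right _)).1 h5).2 h6
  · intro l hl hl2 h5 h6
    refine (t4 l hl hl2 (by rw [← hM]; exact h5.mul_left _)).2 h5 ?_
    have e1 : -y0 + e + (1 + e) * t = -y0 + (1 + e) * t + e := by ring
    rw [e1]; exact h6
  · have e1 : -y0 + (1 + e) * t - ρ = (t - (ρ + y0)) + e * t := by ring
    rw [e1]
    exact dvd_add t3 (he2.mul_right _)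

end Pool.Agent.H4G
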