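import Pool.Agent.H4G.Ctwo.G2num
import Pool.Agent.H4G.Ctwo.Exp
import Pool.Agent.H4G.Arith.TL

/-!
# (G2), one step (helper31)

`Ty ζ ξ a a'`: the 2-adic classes of the levels; the canonical state of the level is
`KC a ζ (-1) a' 1 (-ξ)`.
-/

set_option autoImplicit false

namespace Pool.Agent.H4G

/-- the 2-adic classes of the levels `(a, a')` for the types `(2,311)`, `(4,111)`, `(3,220)`,
`(1,222)` -/
def Ty (ζ ξ a a' : ℤ) : Prop :=
  (ζ = 1 ∧ ξ = 1 ∧ ¬ (2 : ℤ) ∣ a ∧ ¬ (2 : ℤ) ∣ a') ∨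
  (ζ = 2 ∧ ξ = 2 ∧ (a % 4 = 2 ∨ a % 16 = 12) ∧ a' % 4 = 2) ∨
  (ζ = 2 ∧ ξ = 1 ∧ a % 4 = 2 ∧ ¬ (2 : ℤ) ∣ a') ∨
  (ζ = 1 ∧ ξ = 1 ∧ a % 4 = 2 ∧ ¬ (2 : ℤ) ∣ a')

theorem Ty.shift {ζ ξ a a' c c' : ℤ} (h : Ty ζ ξ a a') (h1 : (16 : ℤ) ∣ c - a)
    (h2 : a + a' = c + c') : Ty ζ ξ c c' := by
  unfold Ty at h ⊢
  omega

theorem Ty.xi {ζ ξ a a' : ℤ} (h : Ty ζ ξ a a') : ξ = 1 ∨ ξ = 2 := by
  unfold Ty at h; omega

theorem Ty.zeta {ζ ξ a a' : ℤ} (h : Ty ζ ξ a a') : ζ = 1 ∨ ζ = 2 := by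
  unfold Ty at h; omega

theorem two_pow_case {a : ℤ} (ha : a % 4 = 2) {s : ℕ} (h : (2 : ℤ) ^ s ∣ a) : s = 0 ∨ s = 1 := by
  by_contra hs
  push Not at hs
  have h1 : 2 ≤ s := by omega
  have h2 : (2 : ℤ) ^ 2 ∣ a := (pow_dvd_pow 2 h1).trans h
  norm_num at h2
  omega

theorem two_pow_odd {a : ℤ} (ha : ¬ (2 : ℤ) ∣ a) {s : ℕ} (h : (2 : ℤ) ^ s ∣ a) : s = 0 := by
  by_contra hs
  exact ha ((dvd_pow_self 2 hs).trans h)

/-- for `a` odd or `a = 2 mod 4` only the parity matters -/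
theorem two_adic {a z z1 : ℤ} (ha : ¬ (2 : ℤ) ∣ a ∨ a % 4 = 2) (h : (2 : ℤ) ∣ a → (2 : ℤ) ∣ z1 - z) :
    ∀ s : ℕ, (2 : ℤ) ^ s ∣ a → (2 : ℤ) ^ s ∣ z1 - z := by
  intro s hs
  rcases ha with ha | ha
  · rw [two_pow_odd ha hs]; simp
  · rcases two_pow_case ha hs with h1 | h1
    · rw [h1]; simp
    · rw [h1, pow_one]; exact h (by omega)

/-- LEFT FREEDOM -/
theorem Ty.freeL {ζ ξ a a' z z1 : ℤ} (h : Ty ζ ξ a a') (ha : 0 < a) (ha' : 0 < a')
    (hn : OC a (a' + 1)) (hz : OC a z) (hz1 : OC a z1) (hp : (2 : ℤ) ∣ a → (2 : ℤ) ∣ z - ζ)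
    (hp1 : (2 : ℤ) ∣ a → (2 : ℤ) ∣ z1 - ζ) (hok : (KC a z (-1) a' 1 (-ξ)).Ok) :
    SEq (KC a z (-1) a' 1 (-ξ)) (KC a z1 (-1) a' 1 (-ξ)) := by
  have hpp : (2 : ℤ) ∣ a → (2 : ℤ) ∣ z1 - z := by
    intro h2
    have := dvd_sub (hp1 h2) (hp h2)
    have e : z1 - ζ - (z - ζ) = z1 - z := by ring
    rwa [e] at this
  by_cases h16 : a % 16 = 12
  · -- type (4,111) with `a = 12 mod 16`
    unfold Ty at h
    have hζ : ζ = 2 ∧ ξ = 2 ∧ a' % 4 = 2 := by omega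
    obtain ⟨rfl, rfl, h4'⟩ := hζ
    have h2a : (2 : ℤ) ∣ a := by omega
    have z2 : (2 : ℤ) ∣ z := by have := hp h2a; omega
    have z12 : (2 : ℤ) ∣ z1 := by have := hp1 h2a; omega
    by_cases h4 : (4 : ℤ) ∣ z1 - z
    · refine KC.zH ha ha' isCoprime_one_left hn hz hz1 ?_ hok
      intro s hs
      have e : a = 4 * (a / 4) := by omega
      rw [e] at hs
      exact (pow_two_dvd_four (m := a / 4) (by omega) hs).trans h4
    · exact KC.g1four (m := a / 4) (m' := a' / 2) (by omega) (by omega) (by omega) (by omega)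
        (by omega) (by omega) hn hz hz1 z2 (dvd_refl 2) (by omega) hok
  · have hc : ¬ (2 : ℤ) ∣ a ∨ a % 4 = 2 := by
      unfold Ty at h; omega
    exact KC.zH ha ha' isCoprime_one_left hn hz hz1 (two_adic hc hpp) hok

/-- RIGHT FREEDOM -/
theorem Ty.freeR {ζ ξ a a' z x x1 : ℤ} (h : Ty ζ ξ a a') (ha : 0 < a) (ha' : 0 < a')
    (hn : OC a' (a + 1)) (hx : OC a' x) (hx1 : OC a' x1) (hp : (2 : ℤ) ∣ a' → (2 : ℤ) ∣ x1 - x)
    (hok : (KC a z (-1) a' 1 (-x)).Ok) :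
    SEq (KC a z (-1) a' 1 (-x)) (KC a z (-1) a' 1 (-x1)) := by
  have hc : ¬ (2 : ℤ) ∣ a' ∨ a' % 4 = 2 := by
    unfold Ty at h; omega
  exact KC.xV ha ha' isCoprime_one_left.neg_left hn hx hx1 (two_adic hc hp) hok

theorem OC.one (a : ℤ) : OC a 1 := fun _ hl _ _ h => prime_not_dvd_one hl h

theorem OC.two (a : ℤ) : OC a 2 := fun _ hl h2 _ h => prime_not_dvd_two hl h2 h

theorem OC.neg_right {m n : ℤ} (h : OC m n) : OC m (-n) := fun l hl h2 h3 h4 =>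
  h l hl h2 h3 ((dvd_neg).1 h4)

theorem GLev.ocL {N a a' : ℤ} (h : GLev N a) (hN : a + 1 + a' = N) : OC a (a' + 1) := by
  intro l hl h2 h3 h4
  refine h.1 l hl h2 h3 ?_
  have : N = a + (a' + 1) := by rw [← hN]; ring
  rw [this]; exact dvd_add h3 h4

theorem GLev.ocR {N a a' : ℤ} (h : GLev N a) (hN : a + 1 + a' = N) : OC a' (a + 1) := by
  intro l hl h2 h3 h4
  refine h.2 l hl h2 h4 ?_
  have : N = (a + 1) + a' := by rw [← hN]
  rw [this]; exact dvd_add h4 h3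

/-- ONE STEP `a → c` of (G2) -/
theorem Ty.step {J Z : ℕ} {N ζ ξ a a' c c' : ℤ} (hcap : Cap J Z) (hty : Ty ζ ξ a a')
    (hty' : Ty ζ ξ c c') (hN : a + 1 + a' = N) (hN' : c + 1 + c' = N) (ha : 0 < a) (hac : a < c)
    (hZ : a * c ≤ Z) (ga : GLev N a) (gc : GLev N c)
    (hst : GStep N ξ ξ a c) (hsize : (1 + (c - a)) * (2 * (J : ℤ) ^ 2 + 2) ≤ a)
    (hroom : 3 * (c - a) < a') (hok : (KC a ζ (-1) a' 1 (-ξ)).Ok) :
    SEq (KC a ζ (-1) a' 1 (-ξ)) (KC c ζ (-1) c' 1 (-ξ)) := by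
  obtain ⟨e, he⟩ : ∃ e : ℤ, c = a + e := ⟨c - a, by ring⟩
  subst he
  have he0 : 0 < e := by linarith
  have ec' : c' = a' - e := by linarith
  subst ec'
  have e1 : a + e - a = e := by ring
  rw [e1] at hsize hroom
  have he2 : (2 : ℤ) ∣ e := by
    unfold Ty at hty hty'; omega
  have hξ := hty.xi
  have hξ0 : 0 ≤ ξ := by rcases hξ with h | h <;> rw [h] <;> norm_num
  have hξe : ξ * e ≤ 2 * e := by
    have : ξ ≤ 2 := by rcases hξ with h | h <;> rw [h]; norm_num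
    exact mul_le_mul_of_nonneg_right this he0.le
  set k : ℤ := a' - ξ * e with hk
  have hek : e < k := by rw [hk]; linarith
  have ha'0 : 0 < a' := by linarith
  -- the gcd conditions
  have hcop : IsCoprime (1 + e) (1 + k) := by
    apply isCoprime_of_prime
    intro l hl h1 h2
    by_cases hl2 : l = 2
    · subst hl2
      have h2' : (2 : ℤ) ∣ 1 + e := by exact_mod_cast h2
      omega
    · refine hst.A l hl hl2 ?_ (by
        have e3 : 1 + (a + e) - a = 1 + e := by ring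
        rw [e3]; exact h2)
      have h3 : (l : ℤ) ∣ (1 + k) + ξ * (1 + e) := dvd_add h1 (h2.mul_left ξ)
      have e3 : N - a + ξ = (1 + k) + ξ * (1 + e) := by rw [hk, ← hN]; ring
      rw [e3]; exact h3
  have hB : ∀ l : ℕ, l.Prime → l ≠ 2 → (l : ℤ) ∣ 1 + e → (l : ℤ) ∣ a + e →
      ¬ (l : ℤ) ∣ 2 + k := by
    intro l hl hl2 h1 h2 h3
    refine hst.B l hl hl2 ?_ h2
    have e3 : N + ξ = (a + e) + (2 + k) + (ξ - 1) * (1 + e) := by rw [hk, ← hN]; ring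
    rw [e3]
    exact dvd_add (dvd_add h2 h3) (h1.mul_left _)
  obtain ⟨X, Y, hXY, hY0, hYa, hX, hYc, hYe, hpar⟩ :=
    exists_XY hcap ha he0.le hZ he2 hcop hB hsize ζ
  -- `X` is a unit modulo `a`
  have hX2 : (2 : ℤ) ∣ a → ¬ (2 : ℤ) ∣ X := by
    intro h2 h3
    have h4 : (2 : ℤ) ∣ Y * (1 + k) := by
      unfold Ty at hty
      by_cases hz : (2 : ℤ) ∣ ζ
      · have : (2 : ℤ) ∣ Y := by
          have := dvd_add hpar hz
          simpa using this
        exact this.mul_right _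
      · have : (2 : ℤ) ∣ 1 + k := by
          have hx1 : ξ = 1 := by omega
          rw [hk, hx1]; omega
        exact this.mul_left _
    have h5 : (2 : ℤ) ∣ 1 := by
      rw [← hXY]
      exact dvd_sub (h3.mul_right _) h4
    norm_num at h5
  have hXc : IsCoprime X a := by
    apply isCoprime_of_prime
    intro l hl h1 h2
    by_cases hl2 : l = 2
    · subst hl2
      exact hX2 (by exact_mod_cast h1) (by exact_mod_cast h2)
    · exact hX l hl hl2 h1 h2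
  obtain ⟨α, β, hαβ⟩ := hXc
  -- `z = - Y / X`
  set z : ℤ := -(Y * α) with hz
  have hzX : a ∣ z * X + Y := ⟨Y * β, by rw [hz]; linear_combination (-Y) * hαβ⟩
  have hzoc : OC a z := by
    intro l hl hl2 h1 h2
    apply hYc l hl hl2 h1
    have h3 := dvd_sub (h1.trans hzX) (h2.mul_right X)
    have e3 : z * X + Y - z * X = Y := by ring
    rwa [e3] at h3
  have hz2 : (2 : ℤ) ∣ a → (2 : ℤ) ∣ z - ζ := by
    intro h2
    have h3 : (2 : ℤ) ∣ z * X + Y := h2.trans hzX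
    have h4 := hX2 h2
    have h5 : (2 : ℤ) ∣ z + Y := by
      have h6 : (2 : ℤ) ∣ z * (X - 1) := by
        have : (2 : ℤ) ∣ X - 1 := by omega
        exact this.mul_left _
      have := dvd_sub h3 h6
      have e3 : z * X + Y - z * (X - 1) = z + Y := by ring
      rwa [e3] at this
    omega
  have hζoc : ∀ m : ℤ, OC m ζ := by
    intro m
    rcases hty.zeta with h | h
    · rw [h]; exact OC.one m
    · rw [h]; exact OC.two m
  have hξoc : ∀ m : ℤ, OC m ξ := by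
    intro m
    rcases hξ with h | h
    · rw [h]; exact OC.one m
    · rw [h]; exact OC.two m
  have s1 := hty.freeL ha ha'0 (ga.ocL hN) (hζoc a) hzoc (by simp) hz2 hok
  have hPrm : Prm a z (-1) := by
    intro l hl _ _ h
    exact prime_not_dvd_one hl ((dvd_neg).1 h)
  have s2 := KC.expR (X := X) (Y := Y) ha hPrm s1.ok' hξ0 he0.le hek (by
    have e3 : z * X - -1 * Y = z * X + Y := by ring
    rw [e3]; exact hzX) hXY hY0 hYa
  -- the left class
  have e4 : KC (a + e) (Y + e) 1 (a' - e) (X - Y - ξ * e) (-ξ) =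
      KC (a + e) (-(Y + e)) (-1) (a' - e) (X - Y - ξ * e) (-ξ) := by
    have := KC.unit (a := a + e) (p := -(Y + e)) (q := -1) (a' := a' - e)
      (p' := X - Y - ξ * e) (q' := -ξ) (t := -1) isCoprime_one_right.neg_right
    rw [← this]
    congr 1 <;> ring
  rw [e4] at s2
  have hc0 : 0 < a + e := by linarith
  have hc'0 : 0 < a' - e := by linarith
  -- the right class
  have hPrm' : Prm (a' - e) (X - Y - ξ * e) (-ξ) := by
    intro l hl h1 h2 h3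
    by_cases hl2 : l = 2
    · subst hl2
      have h1' : (2 : ℤ) ∣ a' - e := by exact_mod_cast h1
      have h2' : (2 : ℤ) ∣ X - Y - ξ * e := by exact_mod_cast h2
      have h3' : (2 : ℤ) ∣ -ξ := by exact_mod_cast h3
      have h5 : (2 : ℤ) ∣ ξ * e := he2.mul_left ξ
      have h6 : (2 : ℤ) ∣ a ∧ (2 : ℤ) ∣ ζ := by
        unfold Ty at hty; omega
      have h7 := hX2 h6.1
      have h8 : (2 : ℤ) ∣ Y := by
        have := dvd_add hpar h6.2
        simpa using this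
      have h9 : (2 : ℤ) ∣ X - Y := by
        have := dvd_add h2' h5
        have e5 : X - Y - ξ * e + ξ * e = X - Y := by ring
        rwa [e5] at this
      omega
    · exact (hξoc (l : ℤ)) l hl hl2 (dvd_refl _) ((dvd_neg).1 h3)
  obtain ⟨x, hx, s3⟩ := KC.choose_c hc0 hc'0 isCoprime_one_left.neg_left hPrm' (gc.ocR hN') (by
    intro h1 _ h2
    unfold Ty at hty'
    omega) s2.ok'
  have hxoc : OC (a' - e) x := by
    intro l hl hl2 h1 h2
    exact hξoc (a' - e) l hl hl2 h1 ((dvd_neg).1 ((hx l h1).1 h2))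
  have s4 := hty'.freeR hc0 hc'0 (gc.ocR hN') hxoc (hξoc _) (by
    intro h2
    have h3 := hx 2 h2
    have h5 : (2 : ℤ) ∣ ξ := by
      unfold Ty at hty'; omega
    have h6 : (2 : ℤ) ∣ x := h3.2 ((dvd_neg).2 h5)
    exact dvd_sub h5 h6) s3.ok'
  have s5 := hty'.freeL hc0 hc'0 (gc.ocL hN') hYe.neg_right (hζoc _) (by
    intro _
    have h3 := dvd_add hpar he2
    have e5 : -(Y + e) - ζ = -(Y - ζ + e) - 2 * ζ := by ring
    rw [e5]
    exact dvd_sub ((dvd_neg).2 h3) (dvd_mul_right 2 ζ)) (by simp) s4.ok'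
  exact s1.trans (s2.trans (s3.trans (s4.trans s5)))

end Pool.Agent.H4G
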