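import Pool.Agent.H4G.Ctwo.Last

/-!
# THE LAST STEP of (G3), the even steps (helper31)
-/

set_option autoImplicit false

namespace Pool.Agent.H4G

/-- THE LAST STEP, `e` even: cases (C1), (C3), (C4), (C5), (C6) without the exception. -/
theorem KC.last {J Z : ℕ} {N S a a' z x : ℤ} (hcap : Cap J Z) (hZ : N ^ 6 ≤ Z) (hJ : 1 ≤ J)
    (hS0 : 0 ≤ S) (hS : N ≤ S ^ 2) (hN : a + 1 + a' = N) (ga : GLev N a)
    (ha : 2 ^ 12 * S * (J : ℤ) ^ 4 ≤ a) (ha'1 : 2 ^ 12 * S * (J : ℤ) ^ 4 ≤ a') (hN3 : 3 ≤ N)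
    (h2 : ¬ (2 : ℤ) ∣ a ∨ a % 4 = 2 ∨ (a % 16 = 12 ∧ a' % 4 = 2 ∧ (2 : ℤ) ∣ z ∧ (2 : ℤ) ∣ x))
    (h2' : ¬ (2 : ℤ) ∣ a' ∨ a' % 4 = 2)
    (hpar : (2 : ℤ) ∣ a → (2 : ℤ) ∣ a' → (2 : ℤ) ∣ z ∧ (2 : ℤ) ∣ x)
    (hz : OC a z) (hx : ¬ a' ∣ 2 * x) (hok : (KC a z (-1) a' 1 (-x)).Ok) :
    ∃ b b' w y : ℤ, b + 1 + b' = N ∧ GLev N b ∧ (16 : ℤ) ∣ b - a ∧ a ≤ b ∧
      b ≤ a + 16 * S * (J : ℤ) ^ 2 ∧ OC b w ∧ OC b' y ∧ ((2 : ℤ) ∣ a → (2 : ℤ) ∣ w - z) ∧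
      ((2 : ℤ) ∣ a' → (2 : ℤ) ∣ y - x) ∧
      SEq (KC a z (-1) a' 1 (-x)) (KC b w (-1) b' 1 (-y)) := by
  have hJ1 : (1 : ℤ) ≤ (J : ℤ) := by exact_mod_cast hJ
  have hJ2 : (1 : ℤ) ≤ (J : ℤ) ^ 2 := by nlinarith
  have hJ24 : (J : ℤ) ^ 2 ≤ (J : ℤ) ^ 4 := by nlinarith
  have hS1 : 1 ≤ S := by
    rcases hS0.lt_or_eq with h | h
    · linarith
    · rw [← h] at hS; linarith
  have hSJ : (1 : ℤ) ≤ S * (J : ℤ) ^ 4 := by nlinarith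
  have hSJ2 : S * (J : ℤ) ^ 2 ≤ S * (J : ℤ) ^ 4 := mul_le_mul_of_nonneg_left hJ24 hS0
  have ha0 : 0 < a := by nlinarith
  have ha'0 : 0 < a' := by nlinarith
  -- the odd part of `a'`
  obtain ⟨s, μ, hs1, ha'μ, hμ⟩ : ∃ (s : ℕ) (μ : ℤ), (s = 0 ∨ s = 1) ∧ a' = 2 ^ s * μ ∧
      ¬ (2 : ℤ) ∣ μ := by
    rcases h2' with h | h
    · exact ⟨0, a', Or.inl rfl, by ring, h⟩
    · exact ⟨1, a' / 2, Or.inr rfl, by rw [pow_one]; omega, by omega⟩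
  have hμ0 : 0 < μ := by
    have : (0 : ℤ) < 2 ^ s := by positivity
    nlinarith
  -- the cusp
  obtain ⟨q2, hq2⟩ : (Int.gcd x μ : ℤ) ∣ μ := Int.gcd_dvd_right _ _
  obtain ⟨x', hx'⟩ : (Int.gcd x μ : ℤ) ∣ x := Int.gcd_dvd_left _ _
  set g : ℤ := (Int.gcd x μ : ℤ) with hg
  have hg0 : 0 < g := by
    have : 0 < Int.gcd x μ := Int.gcd_pos_of_ne_zero_right _ hμ0.ne'
    rw [hg]; exact_mod_cast this
  have hq20 : 0 < q2 := by nlinarith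
  have hxc : IsCoprime x' q2 := by
    apply isCoprime_of_prime
    intro l hl h3 h4
    have h5 : g * l ∣ g := by
      refine Int.dvd_coe_gcd ?_ ?_
      · conv_rhs => rw [hx']
        exact mul_dvd_mul_left _ h4
      · conv_rhs => rw [hq2]
        exact mul_dvd_mul_left _ h3
    have h6 : g * l ∣ g * 1 := by rwa [mul_one]
    exact prime_not_dvd_one hl ((mul_dvd_mul_iff_left hg0.ne').1 h6)
  have hq3 : 3 ≤ q2 := by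
    have h3 : q2 ≠ 1 := by
      intro h
      apply hx
      rw [h, mul_one] at hq2
      rw [ha'μ, hq2, hx']
      rcases hs1 with rfl | rfl
      · exact ⟨2 * x', by ring⟩
      · exact ⟨x', by ring⟩
    have h4 : ¬ (2 : ℤ) ∣ q2 := fun h => hμ (by rw [hq2]; exact h.mul_left _)
    omega
  have hg2 : ¬ (2 : ℤ) ∣ g := fun h => hμ (by rw [hq2]; exact h.mul_right _)
  have hτ1 : (1 : ℤ) ≤ 2 ^ s := one_le_pow₀ (by norm_num)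
  -- the size of `G`
  have hG : (Int.gcd g q2 : ℤ) ≤ S := by
    have h3 : (Int.gcd g q2 : ℤ) ≤ g := Int.le_of_dvd hg0 (Int.gcd_dvd_left _ _)
    have h4 : (Int.gcd g q2 : ℤ) ≤ q2 := Int.le_of_dvd hq20 (Int.gcd_dvd_right _ _)
    have h5 : (0 : ℤ) ≤ (Int.gcd g q2 : ℤ) := Int.natCast_nonneg _
    have h6 : (Int.gcd g q2 : ℤ) * (Int.gcd g q2 : ℤ) ≤ g * q2 := mul_le_mul h3 h4 h5 hg0.le
    have h7 : g * q2 ≤ a' := by rw [← hq2, ha'μ]; nlinarith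
    by_contra hcon
    push Not at hcon
    nlinarith
  obtain ⟨k', hk1, hk2, hk3, hk4, hk5⟩ := fixK_k (N := N) (a' := a') (g := g) (q2 := q2)
    (τ := 2 ^ s) (w := 2 ^ s) (E := 16 * S * (J : ℤ) ^ 2) hcap hZ (by linarith) hN3
    (by rw [ha'μ, hq2]) (by linarith) hg0 hq3 (by linarith) le_rfl (by positivity) (by nlinarith)
  obtain ⟨e, e1, e2, e3, e4, F⟩ := fixK_e (N := N) (a := a) (a' := a') (g := g) (q2 := q2)
    (x' := x') (k' := k') (τ := 2 ^ s) hcap hZ hN ha0 ga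
    (by rw [← hq2, ha'μ]; exact dvd_mul_left _ _) hg0 hg2
    (fun l hl hl2 h => prime_not_dvd_two hl hl2 ((Nat.prime_iff_prime_int.1 hl).dvd_of_dvd_pow h))
    hxc hk5 (lt_of_le_of_lt (by positivity) hk1) hk2 (fun _ => hk4) 0 0
  have he16 : (16 : ℤ) ∣ e := by simpa using e3
  have heE : e ≤ 16 * S * (J : ℤ) ^ 2 := by
    have h3 : (Int.gcd g q2 : ℤ) * (16 * (J : ℤ) ^ 2) ≤ S * (16 * (J : ℤ) ^ 2) :=
      mul_le_mul_of_nonneg_right hG (by positivity)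
    linarith
  have hsize : (1 + e) * (2 * (J : ℤ) ^ 2 + 2) ≤ a := by
    have h3 : (1 + e) * (2 * (J : ℤ) ^ 2 + 2) ≤ (17 * S * (J : ℤ) ^ 2) * (4 * (J : ℤ) ^ 2) := by
      refine mul_le_mul ?_ (by linarith) (by linarith) (by positivity)
      have : (1 : ℤ) ≤ S * (J : ℤ) ^ 2 := by nlinarith
      linarith
    have h4 : (17 * S * (J : ℤ) ^ 2) * (4 * (J : ℤ) ^ 2) = 68 * (S * (J : ℤ) ^ 4) := by ring
    nlinarith
  obtain ⟨w, y, w1, w2, w3, w4, w5⟩ := KC.last_aux (x' := x') (k' := k') (τ := 2 ^ s) hcap hZ hN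
    ha0 ga h2 hs1 rfl ha'μ hμ hμ0 hq2 hg0 hx' hxc hk3 hk5 hpar hz e1 (by linarith) hk2 he16 e4 F
    hsize hok
  refine ⟨a + e, a' - e, w, y, by linarith, F.lev, ?_, by linarith, by linarith, w1, w2, w3, w4,
    w5⟩
  have : a + e - a = e := by ring
  rw [this]; exact he16

end Pool.Agent.H4G
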