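import Pool.Agent.H4G.Ctwo.Last

/-!
# THE LAST STEP of (G3), the exception (helper31)

`(1, [2,2,2])`, the even side `2 μ` (`μ` odd) has the class `μ`: `L = {Y = μ X mod 2 μ}`; the
other side is generic. Exit from the generic side, landing vector `(X, -μ)`.
-/

set_option autoImplicit false

namespace Pool.Agent.H4G

/-- the sieve for `e` in the exceptional case -/
theorem exc_e {J Z : ℕ} {N μ b : ℤ} (hcap : Cap J Z) (hZ : N ^ 6 ≤ Z)
    (hN : 2 * μ + 1 + b = N) (hμ0 : 0 < μ) (hb : 0 < b) (ga : GLev N (2 * μ)) :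
    ∃ e : ℤ, 0 < e ∧ e ≤ 16 * (J : ℤ) ^ 2 ∧ (16 : ℤ) ∣ e ∧ GLev N (2 * μ + e) ∧
      (∀ l : ℕ, l.Prime → l ≠ 2 → (l : ℤ) ∣ μ → ¬ (l : ℤ) ∣ e ∧ ¬ (l : ℤ) ∣ 1 + e) ∧
      (∀ l : ℕ, l.Prime → l ≠ 2 → (l : ℤ) ∣ b → ¬ (l : ℤ) ∣ e ∧
        ((l : ℤ) ∣ μ + 1 → ¬ (l : ℤ) ∣ 1 + e)) := by
  have hM0 : 0 < N * μ * b := by
    have h1 : 0 < N := by linarith
    positivity
  have hMX : N * μ * b ≤ (Z : ℤ) := by
    refine le_trans ?_ hZ
    have h1 : 1 ≤ N := by linarith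
    have h2 : N * μ * b ≤ N * N * N := by
      refine mul_le_mul (mul_le_mul le_rfl ?_ ?_ ?_) ?_ ?_ ?_ <;> first
        | linarith
        | positivity
    have e : N ^ 6 = N * N * N * (N * N * N) := by ring
    have h3 : (1 : ℤ) ≤ N * N := by nlinarith
    have h4 : (1 : ℤ) ≤ N * N * N := by nlinarith
    rw [e]; nlinarith
  obtain ⟨M, hM⟩ := Int.eq_ofNat_of_zero_le hM0.le
  have hMne : M ≠ 0 := by
    rintro rfl
    rw [hM] at hM0
    simp at hM0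
  have hMle : M ≤ Z := by rw [hM] at hMX; exact_mod_cast hMX
  have h8 := hcap.eight hMne hMle
  obtain ⟨e, h1, h2, h3, h4⟩ := sieve3 hMne 4 (fun l e =>
      ((l : ℤ) ∣ N → ¬ (l : ℤ) ∣ 2 * μ + e ∧ ¬ (l : ℤ) ∣ 2 * μ + e + 1) ∧
      ((l : ℤ) ∣ μ → ¬ (l : ℤ) ∣ e ∧ ¬ (l : ℤ) ∣ 1 + e) ∧
      ((l : ℤ) ∣ b → ¬ (l : ℤ) ∣ e ∧ ((l : ℤ) ∣ μ + 1 → ¬ (l : ℤ) ∣ 1 + e)))
    (by
      intro l hl hl2 _
      by_cases hlN : (l : ℤ) ∣ N
      · have ha : ¬ (l : ℤ) ∣ 2 * μ := fun h => ga.1 l hl hl2 h hlN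
        have hμ' : ¬ (l : ℤ) ∣ μ := fun h => ha (h.mul_left 2)
        have hb' : ¬ (l : ℤ) ∣ b := fun h => ga.right hN l hl hl2 h hlN
        have ha1 : ¬ (l : ℤ) ∣ 2 * μ + 1 := fun h => ga.2 l hl hl2 h hlN
        refine ⟨-(2 * μ), -(2 * μ) - 1, -(2 * μ) - 1, ?_, 0, ?_, ?_, ?_⟩
        · intro x h5 h6 _
          refine ⟨fun _ => ⟨?_, ?_⟩, fun h => absurd h hμ', fun h => absurd h hb'⟩
          · intro h; apply h5
            have e1 : x - -(2 * μ) = 2 * μ + x := by ring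
            rwa [e1]
          · intro h; apply h6
            have e1 : x - (-(2 * μ) - 1) = 2 * μ + x + 1 := by ring
            rwa [e1]
        · have e1 : (0 : ℤ) - -(2 * μ) = 2 * μ := by ring
          rw [e1]; exact ha
        all_goals
          have e1 : (0 : ℤ) - (-(2 * μ) - 1) = 2 * μ + 1 := by ring
          rw [e1]; exact ha1
      · obtain ⟨x, hx1, hx2⟩ := avoid2 hl hl2 0 (-1)
        refine ⟨0, -1, -1, ?_, x, hx1, hx2, hx2⟩
        intro x h5 h6 _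
        have m0 : ¬ (l : ℤ) ∣ x := by simpa using h5
        have m1 : ¬ (l : ℤ) ∣ 1 + x := by
          have e1 : 1 + x = x - -1 := by ring
          rw [e1]; exact h6
        exact ⟨fun h => absurd h hlN, fun _ => ⟨m0, m1⟩, fun _ => ⟨m0, fun _ => m1⟩⟩) 0 1
  have e16 : (2 : ℤ) ^ 4 = 16 := by norm_num
  rw [e16] at h2 h3
  have q : ∀ l : ℕ, l.Prime → l ≠ 2 → ((l : ℤ) ∣ N ∨ (l : ℤ) ∣ μ ∨ (l : ℤ) ∣ b) →
      (l : ℤ) ∣ (M : ℤ) := by
    intro l _ _ h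
    rw [← hM]
    rcases h with h | h | h
    · exact (h.mul_right _).mul_right _
    · exact (h.mul_left _).mul_right _
    · exact h.mul_left _
  refine ⟨e, by linarith, by linarith, by simpa using h3, ⟨?_, ?_⟩, ?_, ?_⟩
  · intro l hl hl2 h5 h6
    exact ((h4 l hl hl2 (q l hl hl2 (Or.inl h6))).1 h6).1 h5
  · intro l hl hl2 h5 h6
    exact ((h4 l hl hl2 (q l hl hl2 (Or.inl h6))).1 h6).2 h5
  · intro l hl hl2 h5
    exact (h4 l hl hl2 (q l hl hl2 (Or.inr (Or.inl h5)))).2.1 h5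
  · intro l hl hl2 h5
    exact (h4 l hl hl2 (q l hl hl2 (Or.inr (Or.inr h5)))).2.2 h5

/-- the sieve for `k` in the exceptional case -/
theorem exc_k {J Z : ℕ} {N μ b e : ℤ} (hcap : Cap J Z) (hZ : N ^ 6 ≤ Z)
    (hN : 2 * μ + 1 + b = N) (hμ0 : 0 < μ) (he0 : 0 < e) (he2 : (2 : ℤ) ∣ e) (heb : e < b)
    (hμe : ∀ l : ℕ, l.Prime → l ≠ 2 → (l : ℤ) ∣ μ → ¬ (l : ℤ) ∣ e ∧ ¬ (l : ℤ) ∣ 1 + e)
    (hbe : ∀ l : ℕ, l.Prime → l ≠ 2 → (l : ℤ) ∣ b → ¬ (l : ℤ) ∣ e ∧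
        ((l : ℤ) ∣ μ + 1 → ¬ (l : ℤ) ∣ 1 + e)) :
    ∃ k : ℤ, e < k ∧ k ≤ e + (1 + e) * (2 * (J : ℤ) ^ 2) ∧ ¬ (2 : ℤ) ∣ k ∧
      (1 + e) ∣ μ * (1 + k) + 1 ∧ OC e k ∧ OC b k ∧ OC (b - e) (k - e) := by
  have hG0 : 0 < 1 + e := by linarith
  have hG2 : ¬ (2 : ℤ) ∣ 1 + e := by omega
  have hcop : IsCoprime μ (1 + e) := by
    apply isCoprime_of_prime
    intro l hl h3 h4
    by_cases hl2 : l = 2
    · subst hl2; exact hG2 (by exact_mod_cast h3)
    · exact (hμe l hl hl2 h4).2 h3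
  obtain ⟨α, β, hab⟩ := hcop
  -- `k0 = -1 - α`
  have hk0 : (1 + e) ∣ μ * (1 + (-1 - α)) + 1 := ⟨β, by linear_combination -hab⟩
  have hM0 : 0 < e * b * (b - e) := by
    have h1 : 0 < b := by linarith
    have h2 : 0 < b - e := by linarith
    positivity
  have hMX : e * b * (b - e) ≤ (Z : ℤ) := by
    refine le_trans ?_ hZ
    have h1 : 1 ≤ N := by linarith
    have h2 : e * b * (b - e) ≤ N * N * N := by
      have h5 : 0 < b := by linarith
      have h6 : 0 < b - e := by linarith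
      refine mul_le_mul (mul_le_mul ?_ ?_ ?_ ?_) ?_ ?_ ?_ <;> first
        | linarith
        | positivity
    have e1 : N ^ 6 = N * N * N * (N * N * N) := by ring
    have h3 : (1 : ℤ) ≤ N * N := by nlinarith
    have h4 : (1 : ℤ) ≤ N * N * N := by nlinarith
    rw [e1]; nlinarith
  obtain ⟨M, hM⟩ := Int.eq_ofNat_of_zero_le hM0.le
  have hMne : M ≠ 0 := by
    rintro rfl
    rw [hM] at hM0
    simp at hM0
  have hMle : M ≤ Z := by rw [hM] at hMX; exact_mod_cast hMX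
  have h8 := hcap.eight hMne hMle
  obtain ⟨k, h1, h2, h3, h4, h5⟩ := sieveG hMne 1 (e0 := -1 - α) hG0 hG2 (fun l k =>
      ((l : ℤ) ∣ e → ¬ (l : ℤ) ∣ k) ∧ ((l : ℤ) ∣ b → ¬ (l : ℤ) ∣ k) ∧
      ((l : ℤ) ∣ b - e → ¬ (l : ℤ) ∣ k - e))
    (by
      intro l hl hl2 _ hlG k hk
      have n1 := prime_not_dvd_one hl
      -- `l ∣ μ (1 + k) + 1`
      have h5 : (l : ℤ) ∣ μ * (1 + k) + 1 := by
        have e1 : μ * (1 + k) + 1 = (μ * (1 + (-1 - α)) + 1) + μ * (k - (-1 - α)) := by ring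
        rw [e1]
        exact dvd_add (hlG.trans hk0) ((hlG.trans hk).mul_left _)
      refine ⟨?_, ?_, ?_⟩
      · intro h6
        exfalso
        have := dvd_sub hlG h6
        have e1 : 1 + e - e = 1 := by ring
        rw [e1] at this; exact n1 this
      · intro h6 h7
        refine (hbe l hl hl2 h6).2 ?_ hlG
        have := dvd_sub h5 (h7.mul_left μ)
        have e1 : μ * (1 + k) + 1 - μ * k = μ + 1 := by ring
        rwa [e1] at this
      · intro h6 h7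
        have h8 : (l : ℤ) ∣ 1 + k := by
          have := dvd_add h7 hlG
          have e1 : k - e + (1 + e) = 1 + k := by ring
          rwa [e1] at this
        exact n1 ((dvd_add_right (h8.mul_left μ)).1 h5))
    (by
      intro l hl hl2 _ _
      by_cases hle : (l : ℤ) ∣ e
      · have hlb : (l : ℤ) ∣ b - e → (l : ℤ) ∣ b := by
          intro h
          have := dvd_add h hle
          have e1 : b - e + e = b := by ring
          rwa [e1] at this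
        refine ⟨0, 0, 0, ?_, 1, ?_, ?_, ?_⟩
        · intro x h6 _ _
          have m0 : ¬ (l : ℤ) ∣ x := by simpa using h6
          refine ⟨fun _ => m0, fun _ => m0, fun h7 _ => ?_⟩
          exact absurd hle (hbe l hl hl2 (hlb h7)).1
        all_goals
          rw [sub_zero]
          exact prime_not_dvd_one hl
      · obtain ⟨x, hx1, hx2⟩ := avoid2 hl hl2 0 e
        refine ⟨0, e, e, ?_, x, hx1, hx2, hx2⟩
        intro x h6 h7 _
        exact ⟨fun h => absurd h hle, fun _ => by simpa using h6, fun _ => h7⟩) 1 e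
  rw [pow_one] at h2 h3
  have q : ∀ l : ℕ, l.Prime → l ≠ 2 → ((l : ℤ) ∣ e ∨ (l : ℤ) ∣ b ∨ (l : ℤ) ∣ b - e) →
      (l : ℤ) ∣ (M : ℤ) := by
    intro l _ _ h
    rw [← hM]
    rcases h with h | h | h
    · exact (h.mul_right _).mul_right _
    · exact (h.mul_left _).mul_right _
    · exact h.mul_left _
  refine ⟨k, h1, ?_, by omega, ?_, ?_, ?_, ?_⟩
  · refine h2.trans ?_
    have := mul_le_mul_of_nonneg_left h8 (by positivity : (0 : ℤ) ≤ (1 + e) * 2)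
    linarith
  · have e1 : μ * (1 + k) + 1 = (μ * (1 + (-1 - α)) + 1) + μ * (k - (-1 - α)) := by ring
    rw [e1]
    exact dvd_add hk0 (h4.mul_left _)
  · intro l hl hl2 h6
    exact (h5 l hl hl2 (q l hl hl2 (Or.inl h6))).1 h6
  · intro l hl hl2 h6
    exact (h5 l hl hl2 (q l hl hl2 (Or.inr (Or.inl h6)))).2.1 h6
  · intro l hl hl2 h6
    exact (h5 l hl hl2 (q l hl hl2 (Or.inr (Or.inr h6)))).2.2 h6

/-- THE EXCEPTION -/
theorem KC.lastE {J Z : ℕ} {N a μ b z x : ℤ} (hcap : Cap J Z) (hZ : N ^ 6 ≤ Z) (hJ : 1 ≤ J)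
    (haμ : a = 2 * μ) (hN : a + 1 + b = N) (ga : GLev N a) (hμ2 : ¬ (2 : ℤ) ∣ μ) (hμ0 : 0 < μ)
    (hb2 : ¬ (2 : ℤ) ∣ b) (hb : 2 ^ 12 * (J : ℤ) ^ 4 ≤ b) (hz : a ∣ z - μ) (hx : OC b x)
    (hok : (KC a z (-1) b 1 (-x)).Ok) :
    ∃ a1 b1 w y : ℤ, a1 + 1 + b1 = N ∧ GLev N a1 ∧ (16 : ℤ) ∣ a1 - a ∧ a ≤ a1 ∧
      a1 ≤ a + 16 * (J : ℤ) ^ 2 ∧ OC a1 w ∧ OC b1 y ∧ ¬ (2 : ℤ) ∣ w ∧
      SEq (KC a z (-1) b 1 (-x)) (KC a1 w (-1) b1 1 (-y)) := by
  have hJ1 : (1 : ℤ) ≤ (J : ℤ) := by exact_mod_cast hJ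
  have hJ2 : (1 : ℤ) ≤ (J : ℤ) ^ 2 := by nlinarith
  have hJ24 : (J : ℤ) ^ 2 ≤ (J : ℤ) ^ 4 := by nlinarith
  have hb0 : 0 < b := by linarith
  have ha0 : 0 < a := by linarith
  obtain ⟨e, e1, e2, e3, e4, e5, e6⟩ := exc_e hcap hZ (by rw [← haμ]; exact hN) hμ0 hb0
    (by rw [← haμ]; exact ga)
  rw [← haμ] at e4
  have he2 : (2 : ℤ) ∣ e := (by norm_num : (2 : ℤ) ∣ 16).trans e3
  have heb : e < b := by linarith
  obtain ⟨k, k1, k2, k3, k4, k5, k6, k7⟩ := exc_k hcap hZ (by rw [← haμ]; exact hN) hμ0 e1 he2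
    heb e5 e6
  have hkb : k ≤ b := by
    have h3 : (1 + e) * (2 * (J : ℤ) ^ 2) ≤ (17 * (J : ℤ) ^ 2) * (2 * (J : ℤ) ^ 2) :=
      mul_le_mul_of_nonneg_right (by linarith) (by positivity)
    have h4 : (17 * (J : ℤ) ^ 2) * (2 * (J : ℤ) ^ 2) = 34 * (J : ℤ) ^ 4 := by ring
    linarith
  -- the landing vector
  obtain ⟨X, hX⟩ := k4
  have hXY : X * (1 + e) - μ * (1 + k) = 1 := by linear_combination -hX
  have hX2 : ¬ (2 : ℤ) ∣ X := by
    intro h
    have h3 : (2 : ℤ) ∣ μ * (1 + k) := by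
      have : (2 : ℤ) ∣ 1 + k := by omega
      exact this.mul_left _
    have h4 : (2 : ℤ) ∣ 1 := by
      rw [← hXY]; exact dvd_sub (h.mul_right _) h3
    norm_num at h4
  have hP : a ∣ z * X - -1 * μ := by
    have h3 : a ∣ μ * X + μ := by
      obtain ⟨m, hm⟩ : (2 : ℤ) ∣ X + 1 := by omega
      exact ⟨m, by rw [haμ]; linear_combination μ * hm⟩
    have h4 : z * X - -1 * μ = (μ * X + μ) + (z - μ) * X := by ring
    rw [h4]; exact dvd_add h3 (hz.mul_right X)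
  -- the class `x1`
  have hec : IsCoprime e b := by
    apply isCoprime_of_prime
    intro l hl h3 h4
    by_cases hl2 : l = 2
    · subst hl2; exact hb2 (by exact_mod_cast h3)
    · exact (e6 l hl hl2 h3).1 h4
  obtain ⟨α, β, hab⟩ := hec
  set x1 : ℤ := -(α * k) with hx1
  obtain ⟨j, hj⟩ : b ∣ k + x1 * e := ⟨β * k, by rw [hx1]; linear_combination (-k) * hab⟩
  have hkj : k = x1 * (-1 * e) + j * b := by linarith
  have hx1oc : OC b x1 := by
    intro l hl hl2 h3 h4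
    refine k6 l hl hl2 h3 ?_
    rw [hkj]
    exact dvd_add (h4.mul_right _) (h3.mul_left _)
  have hj2 : ¬ (2 : ℤ) ∣ j := by
    intro h
    apply k3
    rw [hkj]
    exact dvd_add ((he2.mul_left _).mul_left _) (h.mul_right _)
  have hej : IsCoprime e j := by
    apply isCoprime_of_prime
    intro l hl h3 h4
    by_cases hl2 : l = 2
    · subst hl2; exact hj2 (by exact_mod_cast h3)
    · refine k5 l hl hl2 h4 ?_
      rw [hkj]
      exact dvd_add ((h4.mul_left _).mul_left _) (h3.mul_right _)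
  have s1 := KC.xV (x1 := x1) ha0 hb0 (isCoprime_one_left (x := a)).neg_left (ga.ocR hN) hx hx1oc
    (two_adic (Or.inl hb2) (fun h => absurd h hb2)) hok
  have hPrm : Prm a z (-1) := by
    intro l hl _ _ h
    exact prime_not_dvd_one hl ((dvd_neg).1 h)
  have s3 := KC.exitJ (s := -1) (j := j) (k := k) (X := X) (Y := μ) ha0 hPrm s1.ok' (Or.inr rfl)
    e1.le hkj k1 hkb hej hP (by linear_combination hXY) hμ0 (by linarith)
  set xs : ℤ := x1 + -1 * (j - 1) with hxs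
  set ps : ℤ := X + -1 * μ - e * xs with hps
  have e7 : KC (a + e) (μ + e) 1 (b - e) ps (-xs) =
      KC (a + e) (-(μ + e)) (-1) (b - e) ps (-xs) := by
    have := KC.unit (a := a + e) (p := -(μ + e)) (q := -1) (a' := b - e)
      (p' := ps) (q' := -xs) (t := -1) isCoprime_one_right.neg_right
    rw [← this]
    congr 1 <;> ring
  rw [e7] at s3
  have hc0 : 0 < a + e := by linarith
  have hc'0 : 0 < b - e := by linarith
  have hbe2 : ¬ (2 : ℤ) ∣ b - e := fun h => hb2 (by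
    have := dvd_add h he2
    simpa using this)
  have hxsoc : OC (b - e) xs := by
    intro l hl hl2 h3 h4
    refine k7 l hl hl2 h3 ?_
    have e5 : k - e = -e * xs + j * (b - e) := by rw [hxs, hkj]; ring
    rw [e5]
    exact dvd_add (h4.mul_left _) (h3.mul_left _)
  have hPrm' : Prm (b - e) ps (-xs) := by
    intro l hl h3 h4 h5
    by_cases hl2 : l = 2
    · subst hl2
      exact hbe2 (by exact_mod_cast h3)
    · exact hxsoc l hl hl2 h3 ((dvd_neg).1 h5)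
  obtain ⟨y, hy, s4⟩ := KC.choose_c hc0 hc'0 isCoprime_one_left.neg_left hPrm'
    (e4.ocR (by linarith)) (fun h3 _ _ => hbe2 h3) s3.ok'
  refine ⟨a + e, b - e, -(μ + e), y, by linarith, e4, ?_, by linarith, by linarith, ?_, ?_, ?_,
    (s1.trans s3).trans s4⟩
  · have : a + e - a = e := by ring
    rw [this]; exact e3
  · intro l hl hl2 h3 h4
    have h5 : (l : ℤ) ∣ μ + e := (dvd_neg).1 h4
    have h6 : (l : ℤ) ∣ μ := by
      have := dvd_sub h3 h5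
      have e8 : a + e - (μ + e) = μ := by rw [haμ]; ring
      rwa [e8] at this
    have h7 : (l : ℤ) ∣ e := by
      have := dvd_sub h5 h6
      have e8 : μ + e - μ = e := by ring
      rwa [e8] at this
    exact (e5 l hl hl2 h6).1 h7
  · intro l hl hl2 h3 h4
    exact hxsoc l hl hl2 h3 ((dvd_neg).1 ((hy l h3).1 h4))
  · intro h
    have h3 : (2 : ℤ) ∣ μ + e := (dvd_neg).1 h
    have := dvd_sub h3 he2
    have e8 : μ + e - e = μ := by ring
    rw [e8] at this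
    exact hμ2 this

end Pool.Agent.H4G
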