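import Pool.Agent.H4G.Ctwo.Last

/-!
# THE LAST STEP of (G3), the odd step (helper31)

`(2, [3,1,1])` at an even level: `a = 2 mod 4`, `z` odd and generic, `a'` even, `x` even and
arbitrary: a right exit with `e` odd leads to a generic state at an odd level.
-/

set_option autoImplicit false

namespace Pool.Agent.H4G

/-- the landing vector for `e` odd, `k` even: `X` is odd -/
theorem exists_XYo {J Z : ℕ} {a e k : ℤ} (hcap : Cap J Z) (ha : 0 < a) (he : 0 ≤ e)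
    (hZ : a * (a + e) ≤ Z) (hk2 : (2 : ℤ) ∣ k) (hc : IsCoprime (1 + e) (1 + k))
    (hB : ∀ l : ℕ, l.Prime → l ≠ 2 → (l : ℤ) ∣ 1 + e → (l : ℤ) ∣ a + e → ¬ (l : ℤ) ∣ 2 + k)
    (hsize : (1 + e) * (2 * (J : ℤ) ^ 2 + 2) ≤ a) :
    ∃ X Y : ℤ, X * (1 + e) - Y * (1 + k) = 1 ∧ 0 < Y ∧ Y ≤ a ∧ OC a X ∧ OC a Y ∧
      OC (a + e) (Y + e) ∧ ¬ (2 : ℤ) ∣ X := by
  obtain ⟨x0, y0, hxy⟩ := hc
  have hM0 : 0 < a * (a + e) := by positivity
  obtain ⟨M, hM⟩ := Int.eq_ofNat_of_zero_le hM0.le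
  have hMne : M ≠ 0 := by
    rintro rfl
    rw [hM] at hM0
    simp at hM0
  have hMle : M ≤ Z := by rw [hM] at hZ; exact_mod_cast hZ
  have h8 := hcap.eight hMne hMle
  have he1 : 0 < 1 + e := by linarith
  obtain ⟨s, hs1, hs2⟩ : ∃ s : ℤ, 0 < -y0 + (1 + e) * s ∧ -y0 + (1 + e) * s ≤ 1 + e := by
    refine ⟨y0 / (1 + e) + 1, ?_, ?_⟩
    · have := Int.emod_lt_of_pos y0 he1
      have e1 := Int.emod_add_mul_ediv y0 (1 + e)
      nlinarith
    · have := Int.emod_nonneg y0 he1.ne'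
      have e1 := Int.emod_add_mul_ediv y0 (1 + e)
      nlinarith
  obtain ⟨t, t1, t2, t3, t4⟩ := sieve3 hMne 1 (fun l t =>
      ((l : ℤ) ∣ a → ¬ (l : ℤ) ∣ x0 + (1 + k) * t ∧ ¬ (l : ℤ) ∣ -y0 + (1 + e) * t) ∧
      ((l : ℤ) ∣ a + e → ¬ (l : ℤ) ∣ (-y0 + e) + (1 + e) * t))
    (by
      intro l hl hl2 _
      by_cases hla : (l : ℤ) ∣ a
      · obtain ⟨r1, hr1⟩ := lin_class hl (α := x0) (β := 1 + k) (by
          intro h1 h2
          have := dvd_add (h2.mul_right (1 + e)) (h1.mul_left y0)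
          rw [hxy] at this
          exact prime_not_dvd_one hl this)
        obtain ⟨r2, hr2⟩ := lin_class hl (α := -y0) (β := 1 + e) (by
          intro h1 h2
          have := dvd_add (h1.mul_left x0) (((dvd_neg).1 h2).mul_right (1 + k))
          rw [hxy] at this
          exact prime_not_dvd_one hl this)
        obtain ⟨x, hx1, hx2⟩ := avoid2 hl hl2 r1 r2
        refine ⟨r1, r2, r2, ?_, x, hx1, hx2, hx2⟩
        intro t h1 h2 _
        refine ⟨fun _ => ⟨hr1 t h1, hr2 t h2⟩, ?_⟩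
        intro h3 h4
        have h5 : (l : ℤ) ∣ e := by
          have := dvd_sub h3 hla
          simpa using this
        apply hr2 t h2
        have := dvd_sub h4 h5
        have e1 : -y0 + e + (1 + e) * t - e = -y0 + (1 + e) * t := by ring
        rwa [e1] at this
      · by_cases hlc : (l : ℤ) ∣ a + e
        · obtain ⟨r, hr⟩ := lin_class hl (α := -y0 + e) (β := 1 + e) (by
            intro h1 h2
            apply hB l hl hl2 h1 hlc
            have h3 : (l : ℤ) ∣ y0 + 1 := by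
              have := dvd_sub h1 h2
              have e1 : 1 + e - (-y0 + e) = y0 + 1 := by ring
              rwa [e1] at this
            have h7 := dvd_add (h3.mul_right (1 + k)) (h1.mul_left x0)
            have e2 : (y0 + 1) * (1 + k) + x0 * (1 + e) = 2 + k := by
              linear_combination hxy
            rwa [e2] at h7)
          obtain ⟨x, hx1, _⟩ := avoid2 hl hl2 r r
          refine ⟨r, r, r, ?_, x, hx1, hx1, hx1⟩
          intro t h1 _ _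
          exact ⟨fun h => absurd h hla, fun _ => hr t h1⟩
        · refine ⟨0, 0, 0, ?_, 1, ?_, ?_, ?_⟩
          · intro t _ _ _
            exact ⟨fun h => absurd h hla, fun h => absurd h hlc⟩
          all_goals
            rw [sub_zero]
            exact prime_not_dvd_one hl)
    (1 + x0) s
  rw [pow_one] at t2 t3
  have ht2 : t < s + 2 * (J : ℤ) ^ 2 := by linarith
  refine ⟨x0 + (1 + k) * t, -y0 + (1 + e) * t, ?_, ?_, ?_, ?_, ?_, ?_, ?_⟩
  · linear_combination hxy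
  · nlinarith
  · have h5 : t ≤ s + 2 * (J : ℤ) ^ 2 - 1 := by linarith
    have h6 : (1 + e) * t ≤ (1 + e) * (s + 2 * (J : ℤ) ^ 2 - 1) :=
      mul_le_mul_of_nonneg_left h5 he1.le
    nlinarith
  · intro l hl hl2 h5 h6
    exact ((t4 l hl hl2 (by rw [← hM]; exact h5.mul_right _)).1 h5).1 h6
  · intro l hl hl2 h5 h6
    exact ((t4 l hl hl2 (by rw [← hM]; exact h5.mul_right _)).1 h5).2 h6
  · intro l hl hl2 h5 h6
    refine (t4 l hl hl2 (by rw [← hM]; exact h5.mul_left _)).2 h5 ?_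
    have e1 : -y0 + e + (1 + e) * t = -y0 + (1 + e) * t + e := by ring
    rw [e1]; exact h6
  · intro h
    have h1 : (2 : ℤ) ∣ k * t := hk2.mul_right t
    have h2 : (2 : ℤ) ∣ x0 + t := by
      have := dvd_sub h h1
      have e1 : x0 + (1 + k) * t - k * t = x0 + t := by ring
      rwa [e1] at this
    omega

/-- the right exit with given `(k, e)`, `s = -1`, `e` odd -/
theorem KC.lastO_aux {J Z : ℕ} {N a a' z x μ g q2 x' k' e τ : ℤ} {s : ℕ} (hcap : Cap J Z)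
    (hZ : N ^ 6 ≤ Z) (hN : a + 1 + a' = N) (ha : 0 < a) (ga : GLev N a)
    (ha4 : a % 4 = 2) (hz2 : ¬ (2 : ℤ) ∣ z) (ha' : a' = 2 ^ s * μ) (hμ : ¬ (2 : ℤ) ∣ μ)
    (hμ0 : 0 < μ) (ha'2 : (2 : ℤ) ∣ a') (hμg : μ = g * q2) (hx : x = g * x')
    (hx' : IsCoprime x' q2) (hkq : IsCoprime k' q2)
    (hτodd : ∀ l : ℕ, l.Prime → l ≠ 2 → ¬ (l : ℤ) ∣ τ) (hτ2 : (2 : ℤ) ∣ τ)
    (hz : OC a z) (he0 : 0 < e) (hek : e < τ * g * k') (hka : τ * g * k' < a')
    (he2 : ¬ (2 : ℤ) ∣ e) (hks : (2 : ℤ) ^ s ∣ τ * g * k' + x * e)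
    (hcl : ∀ d : ℤ, d ∣ g → d ∣ q2 → d ∣ e * x' + τ * k')
    (F : FKc N a a' (τ * g * k') e) (hsize : (1 + e) * (2 * (J : ℤ) ^ 2 + 2) ≤ a)
    (hok : (KC a z (-1) a' 1 (-x)).Ok) :
    ∃ w y : ℤ, OC (a + e) w ∧ OC (a' - e) y ∧
      SEq (KC a z (-1) a' 1 (-x)) (KC (a + e) w (-1) (a' - e) 1 (-y)) := by
  set k : ℤ := τ * g * k' with hk
  have hq2μ : q2 ∣ μ := ⟨g, by rw [hμg]; ring⟩
  have hμa : μ ∣ a' := ⟨2 ^ s, by rw [ha']; ring⟩
  have hq20 : ¬ (2 : ℤ) ∣ q2 := fun h => hμ (h.trans hq2μ)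
  have ha'0 : 0 < a' := by linarith
  have hk2 : (2 : ℤ) ∣ k := by rw [hk, mul_assoc]; exact hτ2.mul_right _
  have heq : IsCoprime e q2 := by
    apply isCoprime_of_prime
    intro l hl h3 h4
    by_cases hl2 : l = 2
    · subst hl2; exact hq20 (by exact_mod_cast h3)
    · exact F.U l hl hl2 ((h3.trans hq2μ).trans hμa) h4
  -- the class `x1'`
  obtain ⟨x1', hx1q, hx1p⟩ : ∃ x1' : ℤ, q2 ∣ x1' * e + τ * k' ∧ (2 : ℤ) ^ s ∣ x1' - x' := by
    obtain ⟨α, β, hab⟩ := heq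
    have hc2 : IsCoprime q2 ((2 : ℤ) ^ s) :=
      (IsCoprime.pow_left ((Prime.coprime_iff_not_dvd Int.prime_two).2 hq20)).symm
    obtain ⟨γ, δ, hgd⟩ := hc2
    -- `t = γ (x' + α τ k')`
    refine ⟨-(α * (τ * k')) + q2 * (γ * (x' + α * (τ * k'))), ?_, ?_⟩
    · exact ⟨β * (τ * k') + (γ * (x' + α * (τ * k'))) * e, by
        linear_combination (-(τ * k')) * hab⟩
    · exact ⟨-(δ * (x' + α * (τ * k'))), by
        linear_combination (x' + α * (τ * k')) * hgd⟩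
  set x1 : ℤ := g * x1' with hx1
  have hx1c : IsCoprime x1' q2 := by
    apply isCoprime_of_prime
    intro l hl h3 h4
    by_cases hl2 : l = 2
    · subst hl2; exact hq20 (by exact_mod_cast h3)
    · have h5 : (l : ℤ) ∣ τ * k' := (dvd_add_right (h4.mul_right e)).1 (h3.trans hx1q)
      rcases (Nat.prime_iff_prime_int.1 hl).dvd_or_dvd h5 with h6 | h6
      · exact hτodd l hl hl2 h6
      · exact not_dvd_of_isCoprime hkq hl h3 h6
  have hx1x : (2 : ℤ) ^ s ∣ x1 - x := by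
    have e1 : x1 - x = g * (x1' - x') := by rw [hx1, hx]; ring
    rw [e1]; exact hx1p.mul_left g
  -- `j`
  obtain ⟨j, hj⟩ : a' ∣ k + x1 * e := by
    have e1 : k + x1 * e = g * (x1' * e + τ * k') := by rw [hk, hx1]; ring
    have d1 : μ ∣ k + x1 * e := by
      rw [e1, hμg]; exact mul_dvd_mul_left g hx1q
    have d2 : (2 : ℤ) ^ s ∣ k + x1 * e := by
      have e2 : k + x1 * e = (k + x * e) + (x1 - x) * e := by ring
      rw [e2]; exact dvd_add hks (hx1x.mul_right e)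
    rw [ha']
    exact (IsCoprime.pow_left ((Prime.coprime_iff_not_dvd Int.prime_two).2 hμ)).mul_dvd d2 d1
  have hkj : k = x1 * (-1 * e) + j * a' := by linarith
  have hej : IsCoprime e j := by
    apply isCoprime_of_prime
    intro l hl h3 h4
    by_cases hl2 : l = 2
    · subst hl2; exact he2 (by exact_mod_cast h4)
    · refine F.P l hl hl2 ?_ h4
      rw [hkj]
      exact dvd_add ((h4.mul_left _).mul_left _) (h3.mul_right _)
  -- the V-move
  have s1 : SEq (KC a z (-1) a' 1 (-x)) (KC a z (-1) a' 1 (-x1)) := by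
    refine KC.xVg ha isCoprime_one_left.neg_left ha' hμ hμ0 (ga.ocR hN) hμg hx hx1 hx' hx1c
      ?_ hx1x hok
    intro d hd1 hd2
    have h3 := hcl d hd1 hd2
    have h4 := dvd_sub h3 (hd2.trans hx1q)
    have e1 : e * x' + τ * k' - (x1' * e + τ * k') = e * (x' - x1') := by ring
    rw [e1] at h4
    exact (heq.of_isCoprime_of_dvd_right hd2).symm.dvd_of_dvd_mul_left h4
  -- the landing vector
  have hcop : IsCoprime (1 + e) (1 + k) := by
    apply isCoprime_of_prime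
    intro l hl h3 h4
    by_cases hl2 : l = 2
    · subst hl2
      have h4' : (2 : ℤ) ∣ 1 + k := by exact_mod_cast h3
      omega
    · exact F.A l hl hl2 h4 h3
  have hZ' : a * (a + e) ≤ Z := by
    refine le_trans ?_ hZ
    have h3 : a + e ≤ N := by linarith
    have h4 : a ≤ N := by linarith
    have hN1 : 1 ≤ N := by linarith
    have h5 : a * (a + e) ≤ N * N := mul_le_mul h4 h3 (by linarith) (by linarith)
    have e1 : N ^ 6 = N * N * (N * N * (N * N)) := by ring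
    have h6 : (1 : ℤ) ≤ N * N := by nlinarith
    have h7 : (1 : ℤ) ≤ N * N * (N * N) := by nlinarith
    rw [e1]; nlinarith
  obtain ⟨X, Y, hXY, hY0, hYa, hX, hYc, hYe, hX2⟩ :=
    exists_XYo hcap ha he0.le hZ' hk2 hcop (fun l hl hl2 h3 _ => F.B l hl hl2 h3) hsize
  have hY2 : ¬ (2 : ℤ) ∣ Y := by
    intro h
    have h3 : (2 : ℤ) ∣ 1 + e := by omega
    have h4 : (2 : ℤ) ∣ 1 := by
      rw [← hXY]; exact dvd_sub (h3.mul_left _) (h.mul_right _)
    norm_num at h4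
  have hXc : IsCoprime X a := by
    apply isCoprime_of_prime
    intro l hl h3 h4
    by_cases hl2 : l = 2
    · subst hl2
      exact hX2 (by exact_mod_cast h4)
    · exact hX l hl hl2 h3 h4
  obtain ⟨α, β, hαβ⟩ := hXc
  set z1 : ℤ := -(Y * α) with hz1
  have hzX : a ∣ z1 * X + Y := ⟨Y * β, by rw [hz1]; linear_combination (-Y) * hαβ⟩
  have hzoc : OC a z1 := by
    intro l hl hl2 h3 h4
    apply hYc l hl hl2 h3
    have h5 := dvd_sub (h3.trans hzX) (h4.mul_right X)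
    have e3 : z1 * X + Y - z1 * X = Y := by ring
    rwa [e3] at h5
  have hz12 : (2 : ℤ) ∣ a → (2 : ℤ) ∣ z1 - z := by
    intro h3
    have h4 : (2 : ℤ) ∣ z1 * X + Y := h3.trans hzX
    have h5 : ¬ (2 : ℤ) ∣ z1 := by
      intro h6
      apply hY2
      have := dvd_sub h4 (h6.mul_right X)
      have e3 : z1 * X + Y - z1 * X = Y := by ring
      rwa [e3] at this
    omega
  have s2 := KC.zH ha ha'0 isCoprime_one_left (ga.ocL hN) hz hzoc
    (two_adic (Or.inr ha4) hz12) s1.ok'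
  have hPrm : Prm a z1 (-1) := by
    intro l hl _ _ h
    exact prime_not_dvd_one hl ((dvd_neg).1 h)
  have s3 := KC.exitJ (s := -1) (j := j) (k := k) (X := X) (Y := Y) ha hPrm s2.ok' (Or.inr rfl)
    he0.le hkj hek hka.le hej (by
      have e3 : z1 * X - -1 * Y = z1 * X + Y := by ring
      rw [e3]; exact hzX) (by linear_combination hXY) hY0 hYa
  set xs : ℤ := x1 + -1 * (j - 1) with hxs
  set ps : ℤ := X + -1 * Y - e * xs with hps
  have e4 : KC (a + e) (Y + e) 1 (a' - e) ps (-xs) =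
      KC (a + e) (-(Y + e)) (-1) (a' - e) ps (-xs) := by
    have := KC.unit (a := a + e) (p := -(Y + e)) (q := -1) (a' := a' - e)
      (p' := ps) (q' := -xs) (t := -1) isCoprime_one_right.neg_right
    rw [← this]
    congr 1 <;> ring
  rw [e4] at s3
  have hc0 : 0 < a + e := by linarith
  have hc'0 : 0 < a' - e := by linarith
  have hc'2 : ¬ (2 : ℤ) ∣ a' - e := fun h => he2 (by
    have := dvd_sub ha'2 h
    have e5 : a' - (a' - e) = e := by ring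
    rwa [e5] at this)
  have hxsoc : OC (a' - e) xs := by
    intro l hl hl2 h3 h4
    refine F.K l hl hl2 h3 ?_
    have e5 : k - e = -e * xs + j * (a' - e) := by rw [hxs, hkj]; ring
    rw [e5]
    exact dvd_add (h4.mul_left _) (h3.mul_left _)
  have hPrm' : Prm (a' - e) ps (-xs) := by
    intro l hl h3 h4 h5
    by_cases hl2 : l = 2
    · subst hl2
      exact hc'2 (by exact_mod_cast h3)
    · exact hxsoc l hl hl2 h3 ((dvd_neg).1 h5)
  obtain ⟨y, hy, s4⟩ := KC.choose_c hc0 hc'0 isCoprime_one_left.neg_left hPrm'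
    (F.lev.ocR (by linarith)) (fun h3 _ _ => hc'2 h3) s3.ok'
  refine ⟨-(Y + e), y, hYe.neg_right, ?_, (s1.trans (s2.trans s3)).trans s4⟩
  intro l hl hl2 h3 h4
  exact hxsoc l hl hl2 h3 ((dvd_neg).1 ((hy l h3).1 h4))

/-- THE LAST STEP, `e` odd: case (C2). -/
theorem KC.lastO {J Z : ℕ} {N S a a' z x : ℤ} (hcap : Cap J Z) (hZ : N ^ 6 ≤ Z) (hJ : 1 ≤ J)
    (hS0 : 0 ≤ S) (hS : N ≤ S ^ 2) (hN : a + 1 + a' = N) (ga : GLev N a)
    (ha : 2 ^ 12 * S * (J : ℤ) ^ 4 ≤ a) (ha'1 : 2 ^ 12 * S * (J : ℤ) ^ 4 ≤ a') (hN3 : 3 ≤ N)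
    (ha4 : a % 4 = 2) (ha'4 : a' % 4 = 2 ∨ a' % 8 = 4) (hz2 : ¬ (2 : ℤ) ∣ z) (hx2 : (2 : ℤ) ∣ x)
    (hz : OC a z) (hok : (KC a z (-1) a' 1 (-x)).Ok) :
    ∃ b b' w y : ℤ, b + 1 + b' = N ∧ GLev N b ∧ ¬ (2 : ℤ) ∣ b ∧ ¬ (2 : ℤ) ∣ b' ∧ a ≤ b ∧
      b ≤ a + 16 * S * (J : ℤ) ^ 2 ∧ OC b w ∧ OC b' y ∧
      SEq (KC a z (-1) a' 1 (-x)) (KC b w (-1) b' 1 (-y)) := by
  have hJ1 : (1 : ℤ) ≤ (J : ℤ) := by exact_mod_cast hJ
  have hJ2 : (1 : ℤ) ≤ (J : ℤ) ^ 2 := by nlinarith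
  have hJ24 : (J : ℤ) ^ 2 ≤ (J : ℤ) ^ 4 := by nlinarith
  have hS1 : 1 ≤ S := by
    rcases hS0.lt_or_eq with h | h
    · linarith
    · rw [← h] at hS; linarith
  have hSJ : (1 : ℤ) ≤ S * (J : ℤ) ^ 4 := by nlinarith
  have hSJ2 : S * (J : ℤ) ^ 2 ≤ S * (J : ℤ) ^ 4 := mul_le_mul_of_nonneg_left hJ24 hS0
  have ha0 : 0 < a := by nlinarith
  have ha'0 : 0 < a' := by nlinarith
  have hxa : ¬ a' ∣ x := (ZS.not_dvd hok).2
  -- the odd part of `a'` and `τ`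
  obtain ⟨s, μ, τ, hs1, ha'μ, hμ, hτ1, hτs, hτx⟩ : ∃ (s : ℕ) (μ τ : ℤ), 0 < s ∧ a' = 2 ^ s * μ ∧
      ¬ (2 : ℤ) ∣ μ ∧ (τ = 2 ∨ τ = 4) ∧ τ ≤ 2 ^ s ∧
      ((s = 1 ∧ τ = 2) ∨ (s = 2 ∧ ((τ = 2 ∧ x % 4 = 2) ∨ (τ = 4 ∧ x % 4 = 0)))) := by
    rcases ha'4 with h | h
    · exact ⟨1, a' / 2, 2, one_pos, by rw [pow_one]; omega, by omega, Or.inl rfl,
        by norm_num, Or.inl ⟨rfl, rfl⟩⟩
    · by_cases h4 : x % 4 = 2
      · exact ⟨2, a' / 4, 2, two_pos, by norm_num; omega, by omega, Or.inl rfl,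
          by norm_num, Or.inr ⟨rfl, Or.inl ⟨rfl, h4⟩⟩⟩
      · exact ⟨2, a' / 4, 4, two_pos, by norm_num; omega, by omega, Or.inr rfl,
          by norm_num, Or.inr ⟨rfl, Or.inr ⟨rfl, by omega⟩⟩⟩
  have hp1 : (1 : ℤ) ≤ 2 ^ s := one_le_pow₀ (by norm_num)
  have hμ0 : 0 < μ := by nlinarith
  have ha'2 : (2 : ℤ) ∣ a' := by rw [ha'μ]; exact (dvd_pow_self 2 hs1.ne').mul_right _
  -- the cusp
  obtain ⟨q2, hq2⟩ : (Int.gcd x μ : ℤ) ∣ μ := Int.gcd_dvd_right _ _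
  obtain ⟨x', hx'⟩ : (Int.gcd x μ : ℤ) ∣ x := Int.gcd_dvd_left _ _
  set g : ℤ := (Int.gcd x μ : ℤ) with hg
  have hg0 : 0 < g := by
    have : 0 < Int.gcd x μ := Int.gcd_pos_of_ne_zero_right _ hμ0.ne'
    rw [hg]; exact_mod_cast this
  have hq20 : 0 < q2 := by nlinarith
  have hxc : IsCoprime x' q2 := by
    apply isCoprime_of_prime
    intro l hl h3 h4
    have h5 : g * l ∣ g := by
      refine Int.dvd_coe_gcd ?_ ?_
      · conv_rhs => rw [hx']
        exact mul_dvd_mul_left _ h4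
      · conv_rhs => rw [hq2]
        exact mul_dvd_mul_left _ h3
    have h6 : g * l ∣ g * 1 := by rwa [mul_one]
    exact prime_not_dvd_one hl ((mul_dvd_mul_iff_left hg0.ne').1 h6)
  have hq2odd : ¬ (2 : ℤ) ∣ q2 := fun h => hμ (by rw [hq2]; exact h.mul_left _)
  have hg2 : ¬ (2 : ℤ) ∣ g := fun h => hμ (by rw [hq2]; exact h.mul_right _)
  have hcase : 3 ≤ q2 ∨ (q2 = 1 ∧ s = 2 ∧ τ = 2) := by
    by_cases h3 : q2 = 1
    · right
      rw [h3, mul_one] at hq2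
      rcases hτx with ⟨rfl, rfl⟩ | ⟨rfl, ⟨rfl, h5⟩ | ⟨rfl, h5⟩⟩
      · exfalso
        apply hxa
        rw [ha'μ, hq2, pow_one]
        obtain ⟨m, hm⟩ : (2 : ℤ) ∣ x' := by
          rw [hx'] at hx2
          rcases Int.prime_two.dvd_or_dvd hx2 with h | h
          · exact absurd h hg2
          · exact h
        exact ⟨m, by rw [hx', hm]; ring⟩
      · exact ⟨h3, rfl, rfl⟩
      · exfalso
        apply hxa
        rw [ha'μ, hq2]
        have h6 : (4 : ℤ) ∣ g * x' := by rw [← hx']; omega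
        have h7 : IsCoprime (4 : ℤ) g := by
          have : IsCoprime ((2 : ℤ) ^ 2) g :=
            IsCoprime.pow_left ((Prime.coprime_iff_not_dvd Int.prime_two).2 hg2)
          norm_num at this; exact this
        obtain ⟨m, hm⟩ := h7.dvd_of_dvd_mul_left h6
        exact ⟨m, by rw [hx', hm]; ring⟩
    · left; omega
  -- the size of `G`
  have hG : (Int.gcd g q2 : ℤ) ≤ S := by
    have h3 : (Int.gcd g q2 : ℤ) ≤ g := Int.le_of_dvd hg0 (Int.gcd_dvd_left _ _)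
    have h4 : (Int.gcd g q2 : ℤ) ≤ q2 := Int.le_of_dvd hq20 (Int.gcd_dvd_right _ _)
    have h5 : (0 : ℤ) ≤ (Int.gcd g q2 : ℤ) := Int.natCast_nonneg _
    have h6 : (Int.gcd g q2 : ℤ) * (Int.gcd g q2 : ℤ) ≤ g * q2 := mul_le_mul h3 h4 h5 hg0.le
    have h7 : g * q2 ≤ a' := by rw [← hq2, ha'μ]; nlinarith
    by_contra hcon
    push Not at hcon
    nlinarith
  have hτ0 : 0 < τ := by omega
  have hτodd : ∀ l : ℕ, l.Prime → l ≠ 2 → ¬ (l : ℤ) ∣ τ := by
    intro l hl hl2 h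
    have h4 : (l : ℤ) ∣ 2 ^ 2 := by
      refine h.trans ?_
      rcases hτ1 with rfl | rfl <;> norm_num
    exact prime_not_dvd_two hl hl2 ((Nat.prime_iff_prime_int.1 hl).dvd_of_dvd_pow h4)
  have hτ2 : (2 : ℤ) ∣ τ := by omega
  obtain ⟨k', hk1, hk2, hk3, hk4, hk5⟩ : ∃ k' : ℤ, 16 * S * (J : ℤ) ^ 2 < τ * g * k' ∧
      τ * g * k' < a' ∧ ¬ (2 : ℤ) ∣ k' ∧ ¬ (3 : ℤ) ∣ k' ∧ IsCoprime k' q2 := by
    rcases hcase with hq3 | ⟨h3, h4, h5⟩
    · exact fixK_k (N := N) (a' := a') (g := g) (q2 := q2)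
        (τ := τ) (w := 2 ^ s) (E := 16 * S * (J : ℤ) ^ 2) hcap hZ (by linarith) hN3
        (by rw [ha'μ, hq2]) (by linarith) hg0 hq3 hτ0 hτs (by positivity) (by nlinarith)
    · refine ⟨1, ?_, ?_, by norm_num, by norm_num, isCoprime_one_left⟩
      · have : a' = 4 * g := by rw [ha'μ, hq2, h3, h4]; ring
        rw [h5]
        nlinarith
      · have : a' = 4 * g := by rw [ha'μ, hq2, h3, h4]; ring
        rw [h5, this]
        linarith
  obtain ⟨e, e1, e2, e3, e4, F⟩ := fixK_e (N := N) (a := a) (a' := a') (g := g) (q2 := q2)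
    (x' := x') (k' := k') (τ := τ) hcap hZ hN ha0 ga
    (by rw [← hq2, ha'μ]; exact dvd_mul_left _ _) hg0 hg2 hτodd
    hxc hk5 (lt_of_le_of_lt (by positivity) hk1) hk2 (fun _ => hk4) 1 0
  have he2 : ¬ (2 : ℤ) ∣ e := by omega
  have heE : e ≤ 16 * S * (J : ℤ) ^ 2 := by
    have h3 : (Int.gcd g q2 : ℤ) * (16 * (J : ℤ) ^ 2) ≤ S * (16 * (J : ℤ) ^ 2) :=
      mul_le_mul_of_nonneg_right hG (by positivity)
    linarith
  have hsize : (1 + e) * (2 * (J : ℤ) ^ 2 + 2) ≤ a := by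
    have h3 : (1 + e) * (2 * (J : ℤ) ^ 2 + 2) ≤ (17 * S * (J : ℤ) ^ 2) * (4 * (J : ℤ) ^ 2) := by
      refine mul_le_mul ?_ (by linarith) (by linarith) (by positivity)
      have : (1 : ℤ) ≤ S * (J : ℤ) ^ 2 := by nlinarith
      linarith
    have h4 : (17 * S * (J : ℤ) ^ 2) * (4 * (J : ℤ) ^ 2) = 68 * (S * (J : ℤ) ^ 4) := by ring
    nlinarith
  have hks : (2 : ℤ) ^ s ∣ τ * g * k' + x * e := by
    have hgk : ¬ (2 : ℤ) ∣ g * k' := fun h => by
      rcases Int.prime_two.dvd_or_dvd h with h | h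
      · exact hg2 h
      · exact hk3 h
    rcases hτx with ⟨rfl, rfl⟩ | ⟨rfl, ⟨rfl, h5⟩ | ⟨rfl, h5⟩⟩
    · rw [pow_one, mul_assoc]
      exact dvd_add (dvd_mul_right _ _) (hx2.mul_right _)
    · obtain ⟨m, hm⟩ : ∃ m, x = 4 * m + 2 := ⟨x / 4, by omega⟩
      obtain ⟨f, hf⟩ : ∃ f, e = 2 * f + 1 := ⟨e / 2, by omega⟩
      obtain ⟨n, hn⟩ : ∃ n, g * k' = 2 * n + 1 := ⟨g * k' / 2, by omega⟩
      refine ⟨n + 2 * m * f + m + f + 1, ?_⟩
      rw [mul_assoc, hn, hm, hf]; ring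
    · obtain ⟨m, hm⟩ : ∃ m, x = 4 * m := ⟨x / 4, by omega⟩
      refine ⟨g * k' + m * e, ?_⟩
      rw [hm]; ring
  obtain ⟨w, y, w1, w2, w3⟩ := KC.lastO_aux (x' := x') (k' := k') (τ := τ) hcap hZ hN
    ha0 ga ha4 hz2 ha'μ hμ hμ0 ha'2 hq2 hx' hxc hk5 hτodd hτ2 hz e1 (by linarith) hk2 he2 hks e4 F
    hsize hok
  exact ⟨a + e, a' - e, w, y, by linarith, F.lev, by omega, by omega, by linarith, by linarith,
    w1, w2, w3⟩

end Pool.Agent.H4G
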