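import Pool.Agent.H4G.Ctwo.G3def
import Pool.Agent.H4G.Ctwo.Main2
import Pool.Agent.H4G.Ctwo.Glue
import Pool.Agent.H4G.Cone.T0k
import Pool.Agent.H4G.Asym.Fat1
import Pool.Agent.H4G.Asym.R4i

/-!
# START of (G3) (helper83)

* `KSt.up` : if `c = gcd (p', a') ≥ 2` and `r = a' / c` is not tiny then the area `a` can be enlarged;
* `KSt.vnorm` : after a V-move `c` divides `a + 1`;
* `KSt.top` : an equivalent state with `c ∣ a + 1` and (`c = 1` or `r < 4096 J ^ 4`);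
* `KSt.start`, `KSt.toMIn` : the input of the first move.
-/

set_option autoImplicit false

open MatrixGroups

namespace Pool.Agent.H4G

/-- V-NORMALISATION: `c = gcd (p', a')` divides `a + 1` -/
theorem KSt.vnorm {N a z a' p' q' : ℤ} (S : KSt N a z a' p' q') :
    ∃ p'' : ℤ, KSt N a z a' p'' q' ∧ (Int.gcd p'' a' : ℤ) ∣ a + 1 ∧
      SEq (KC a z (-1) a' p' q') (KC a z (-1) a' p'' q') := by
  have ha := S.ha
  have ha' := S.ha'
  have hg : 0 < Int.gcd p' (a + 1) := Int.gcd_pos_of_ne_zero_right _ (by omega)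
  obtain ⟨g, p1, n1, hg0, hco, hp, hn⟩ := Int.exists_gcd_one' hg
  have hco' := (Int.isCoprime_iff_gcd_eq_one (m := p1) (n := n1)).2 hco
  obtain ⟨t, ht⟩ := coprime_shift p1 (-(n1 * q')) a' ha'.ne' (by
    intro l hl h1 h2 h3
    have hl' := Nat.prime_iff_prime_int.1 hl
    rcases hl'.dvd_or_dvd ((dvd_neg).1 h2) with h4 | h4
    · exact prime_not_dvd_one hl (by
        obtain ⟨x, y, e⟩ := hco'
        rw [← e]; exact dvd_add (h3.mul_left x) (h4.mul_left y))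
    · exact S.hP l hl h1 (by rw [hp]; exact h3.mul_right _) h4)
  have e1 : p' - t * (a + 1) * q' = (p1 + -(n1 * q') * t) * g := by rw [hp, hn]; ring
  have h1 := KC.V1 ha isCoprime_one_left.neg_left t S.ok
  have hP2 : Prm a' (p' - t * (a + 1) * q') q' := by
    have := S.hP.shV (t * (a + 1))
    exact this
  refine ⟨p' - t * (a + 1) * q', ⟨S.hN, ha, ha', hP2, h1.ok'⟩, ?_, h1⟩
  rw [e1]
  have h2 : Int.gcd ((p1 + -(n1 * q') * t) * g) a' = Int.gcd (g : ℤ) a' := by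
    exact Int.gcd_mul_right_left_of_gcd_eq_one (Int.isCoprime_iff_gcd_eq_one.1 ht)
  rw [h2, hn]
  exact (Int.gcd_dvd_left _ _).mul_left _

/-- the numbers of the mirrored state in adapted bases -/
theorem KSt.up_exit {J Z : ℕ} {N a z a' p' q' : ℤ} (B : Big N J Z) (S : KSt N a z a' p' q')
    {r c : ℤ} (hr : a' = r * c) (hc : c = (Int.gcd p' a' : ℤ)) (hc2 : 2 ≤ c)
    (hbig : 4096 * (J : ℤ) ^ 4 ≤ r) :
    ∃ (i : ℤ) (T : PSt), 0 < i ∧ SEq (KC a z (-1) a' p' q') T ∧ cr T.u T.v = 1 + i * c ∧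
      IsArea T.L (a' - i * c) ∧ IsArea T.L' a ∧ IsC T.L' T.u 1 := by
  have ha := S.ha
  have ha' := S.ha'
  have hN := S.hN
  have hc0 : 0 < c := by linarith
  have m := KC.mirror S.ok
  obtain ⟨l, p, l', pp, ad⟩ := exists_Ad m.ok'
  have hJ0 : (1 : ℤ) ≤ J := by
    have := B.J0
    have h : 1 ≤ J := by omega
    exact_mod_cast h
  have hr0 : 0 < r := by
    have : 0 < 4096 * (J : ℤ) ^ 4 := by positivity
    linarith
  -- the numbers
  have hA : cr (KC a' q' (-p') a (-1) (-z)).u (KC a' q' (-p') a (-1) (-z)).v = 1 := by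
    show cr ((1, 0) : Z2) (0, 1) = 1
    simp [cr]
  have hPl : Prm a' q' (-p') := fun l hl k1 k2 k3 => S.hP l hl k1 ((dvd_neg).1 k3) k2
  have hPr : Prm a (-1) (-z) := fun l hl _ k2 _ => prime_not_dvd_one hl ((dvd_neg).1 k2)
  have e1 : cr p (KC a' q' (-p') a (-1) (-z)).v = c := by
    have h1 : IsC (Lc a' q' (-p')) (0, 1) (Int.gcd a' (q' * 0 + -p' * 1)) :=
      isC_gcd ha' hPl isCoprime_one_right
    have h2 := ad.isC.unique h1
    rw [h2, hc]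
    congr 1
    rw [mul_zero, zero_add, mul_one, Int.gcd_neg, Int.gcd_comm]
  have e2 : cr (KC a' q' (-p') a (-1) (-z)).u pp = 1 := by
    have h1 : IsC (Lc a (-1) (-z)) (1, 0) (Int.gcd a (-1 * 1 + -z * 0)) :=
      isC_gcd ha hPr isCoprime_one_left
    have h2 := ad.isC'.unique h1
    rw [h2]
    have : Int.gcd a (-1 * 1 + -z * 0) = 1 := by
      rw [mul_zero, add_zero, mul_one, Int.gcd_neg, Int.gcd_one_right]
    rw [this]; rfl
  have e3 : cr p l = a' := ad.isArea.unique (isArea_Lc ha' hPl)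
  have e4 : cr l' pp = a := ad.isArea'.unique (isArea_Lc ha hPr)
  have e5 : cr (KC a' q' (-p') a (-1) (-z)).u l = r := by
    have h1 := ad.area
    rw [hA, e1, e3, mul_one, hr] at h1
    exact (mul_right_cancel₀ hc0.ne' h1).symm
  have hCT : CT (KC a' q' (-p') a (-1) (-z)) 1 := by
    refine ⟨one_pos, fun x _ => ⟨one_dvd _, one_dvd _, fun _ _ => one_dvd _⟩, fun d hd => ?_⟩
    have mp : pp ∈ (KC a' q' (-p') a (-1) (-z)).L' := by
      rw [ad.hL']; exact mem_lat.2 ⟨0, 1, by module⟩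
    have h1 := (hd pp mp).1
    rw [cr_swap, e2] at h1
    exact (dvd_neg).1 h1
  have hX := ad.lx1 (by rw [hA, e1]; linarith) hCT
  rw [hA, e1, e3, e4, e5] at hX
  -- sizes
  have hN1 : (1 : ℤ) ≤ N := by linarith
  have hJN : (J : ℤ) ≤ N := by
    refine le_trans ?_ B.hN
    calc (J : ℤ) = (J : ℤ) ^ 1 := (pow_one _).symm
      _ ≤ (J : ℤ) ^ 200 := pow_le_pow_right₀ hJ0 (by norm_num)
  have hrN : r ≤ N := by nlinarith
  have hcap : 2 * (J : ℤ) * a * (r + (J : ℤ) * a') ≤ (Z : ℤ) := by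
    refine le_trans ?_ B.hZ
    have h1 : 2 * (J : ℤ) * a ≤ 2 * N * N := by
      have : (J : ℤ) * a ≤ N * N := mul_le_mul hJN (by linarith) ha.le (by linarith)
      linarith
    have h2 : r + (J : ℤ) * a' ≤ N + N * N := by
      have : (J : ℤ) * a' ≤ N * N := mul_le_mul hJN (by linarith) ha'.le (by linarith)
      linarith
    have h3 : 2 * (J : ℤ) * a * (r + (J : ℤ) * a') ≤ 2 * N * N * (N + N * N) :=
      mul_le_mul h1 h2 (by positivity) (by positivity)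
    have h4 : 2 * N * N * (N + N * N) ≤ (2 * N) ^ 4 := by
      have g3 : N ^ 3 ≤ N ^ 4 := pow_le_pow_right₀ hN1 (by norm_num)
      have g4 : 0 < N ^ 4 := by positivity
      linarith [(by ring : 2 * N * N * (N + N * N) = 2 * N ^ 3 + 2 * N ^ 4),
        (by ring : (2 * N) ^ 4 = 16 * N ^ 4)]
    have h5 : (2 * N) ^ 4 ≤ (2 * N) ^ 20 := pow_le_pow_right₀ (by linarith) (by norm_num)
    linarith
  have hJn : 1 ≤ J := by exact_mod_cast hJ0
  have key : ∃ j t i : ℤ, 0 < i ∧ XC 1 c r (cr (KC a' q' (-p') a (-1) (-z)).u p) a' j t i 1 ∧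
      gcv (XW (pv l' pp (KC a' q' (-p') a (-1) (-z)).u) (pv l' pp (KC a' q' (-p') a (-1) (-z)).v)
        (pv l' pp l) (pv l' pp p) j t i 1) = 1 := by
    by_cases h1 : 2 * ((J : ℤ) + 1) * 1 ≤ c
    · obtain ⟨j, t, i, k1, _, k2, k3⟩ := hX.fat1i hJn B.cap hcap h1 (by nlinarith [pow_le_pow_right₀ hJ0 (by norm_num : 1 ≤ 4)])
      exact ⟨j, t, i, k1, k2, k3⟩
    · refine hX.fat2i hJn B.cap hcap (by linarith) (by linarith) ?_
      intro q w hq hq2 he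
      have h2 : r ∣ q * (c - 1) := ⟨w - q * c, by rw [hr] at he; linarith⟩
      have h3 : 0 < q * (c - 1) := mul_pos hq (by linarith)
      have h4 := Int.le_of_dvd h3 h2
      have h5 : q * (c - 1) ≤ (16 * J * (J + 1)) * (2 * J + 1) :=
        mul_le_mul hq2 (by linarith) (by linarith) (by positivity)
      have h6 : (16 * (J : ℤ) * (J + 1)) * (2 * J + 1) < 4096 * (J : ℤ) ^ 4 := by
        have h7 : (J : ℤ) + 1 ≤ 2 * J := by linarith
        have h8 : 2 * (J : ℤ) + 1 ≤ 3 * J := by linarith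
        have h9 : (16 * (J : ℤ) * (J + 1)) * (2 * J + 1) ≤ (16 * J * (2 * J)) * (3 * J) := by
          gcongr
        have h10 : (J : ℤ) ^ 3 ≤ (J : ℤ) ^ 4 := pow_le_pow_right₀ hJ0 (by norm_num)
        have h11 : (0 : ℤ) < (J : ℤ) ^ 4 := by positivity
        nlinarith
      linarith
  obtain ⟨j, t, i, hi, hXC, hW⟩ := key
  obtain ⟨T, t1, t2, t3, t4, t5, t6, t7⟩ := exLXk m.ok' ad (by rw [hA, e1]; linarith)
    (j := j) (t := t) (i := i) (o := 1) (k := 1) (Or.inl rfl) hi.le hXC.cop le_rfl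
    (by rw [hA, e1, e3, e5, one_mul]; exact hXC.lo) (by rw [hA, e1, e3, e5]; exact hXC.hi)
  rw [XWk_one, hW] at t7
  rw [hA, e1, one_mul] at t4
  rw [e1, e3, one_mul] at t6
  refine ⟨i, T, hi, m.trans t1, t4, t6, ?_, by exact_mod_cast t7⟩
  rw [t3]
  exact isArea_Lc ha hPr

/-- LANDING: an equivalent K-state with `d = 1` and the area `a + i c` -/
theorem seq_land {S T : PSt} {a b θ : ℤ} (h : SEq S T) (hA : cr T.u T.v = 1 + θ)
    (h1 : IsArea T.L b) (h2 : IsArea T.L' a) (h3 : IsC T.L' T.u 1) (hθ : 0 ≤ θ) :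
    ∃ (z : ℤ) (M : AddSubgroup Z2), SEq S (KS (Lc (a + θ) z (-1)) M) ∧ IsArea M b := by
  obtain ⟨L, u, v, L'⟩ := T
  dsimp only at hA h1 h2 h3
  obtain ⟨v1, L1, θ', k1, k2, k3, k4, k5, k6, k7, k8⟩ := SEq.node _ rfl h.ok' h2 h3
  have e1 : cr u v1 = 1 := by linarith
  have e2 : θ' = θ := by linarith
  subst e2
  have m := SEq.mirror k1.ok'
  have hB : cr v1 (-u) = 1 := by rw [cr_neg_right, cr_swap v1 u, neg_neg]; exact e1
  have s := SEq.act (bcM v1 (-u) hB) m.ok'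
  unfold PSt.act at s
  simp only [act_bcM, cr_self, hB] at s
  have c1 := (k8.neg).act (bcM v1 (-u) hB)
  rw [act_bcM, hB, cr_self] at c1
  have a1 := k7.act (bcM v1 (-u) hB)
  obtain ⟨z, hz⟩ := a1.eq_Lc_of_isC c1
  rw [hz] at s
  exact ⟨z, _, h.trans (k1.trans (m.trans s)), h1.act _⟩

/-- the area can be enlarged -/
theorem KSt.up {J Z : ℕ} {N a z a' p' q' : ℤ} (B : Big N J Z) (S : KSt N a z a' p' q')
    (hn : nL a z + nL a' q' ≠ 0) {r c : ℤ} (hr : a' = r * c) (hc : c = (Int.gcd p' a' : ℤ))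
    (hc2 : 2 ≤ c) (hbig : 4096 * (J : ℤ) ^ 4 ≤ r) :
    ∃ b w b' p1 q1 : ℤ, a < b ∧ KSt N b w b' p1 q1 ∧
      SEq (KC a z (-1) a' p' q') (KC b w (-1) b' p1 q1) := by
  obtain ⟨i, T, hi, t1, t2, t3, t4, t5⟩ := S.up_exit B hr hc hc2 hbig
  have hic : 0 < i * c := mul_pos hi (by linarith)
  obtain ⟨w, M, s1, hM⟩ := seq_land (θ := i * c) t1 t2 t3 t4 t5 hic.le
  have hb : 0 < a + i * c := by linarith [S.ha]
  have hp : InE (Lc (a + i * c) w (-1)) (1, 0) ∨ ∃ x ∈ M, ev x = 0 := by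
    obtain ⟨c1, c2, h1, h2, h3⟩ := s1
    have h4 : C6.n0 c2 ≠ 0 := by
      rw [h3.n0_eq, h1.n0_KC S.ha S.ha' (Prm_left a z) S.hP]; exact hn
    exact h2.par_of_n0 (by simp [KS, cr]) h4
  obtain ⟨w1, p1, q1, k1, k2, _⟩ := KS.content s1.ok' hb hM hp
  refine ⟨a + i * c, w1, a' - i * c, p1, q1, by linarith, ⟨by linarith [S.hN], hb, hM.1, k1, k2.ok'⟩,
    s1.trans k2⟩

/-- the type is preserved: `n0` -/
theorem KSt.n0_seq {N a z a' p' q' b w b' p1 q1 : ℤ} (S : KSt N a z a' p' q')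
    (T : KSt N b w b' p1 q1) (h : SEq (KC a z (-1) a' p' q') (KC b w (-1) b' p1 q1)) :
    nL a z + nL a' q' = nL b w + nL b' q1 :=
  h.n0_KC S.ha S.ha' (Prm_left a z) S.hP T.ha T.ha' (Prm_left b w) T.hP

/-- an equivalent state with `c ∣ a + 1`, and `c = 1` or `r < 4096 J ^ 4` -/
theorem KSt.top {J Z : ℕ} {N : ℤ} (B : Big N J Z) (n : ℕ) : ∀ {a z a' p' q' : ℤ},
    KSt N a z a' p' q' → nL a z + nL a' q' ≠ 0 → (N - a).toNat = n →
    ∃ b w b' p1 q1 : ℤ, KSt N b w b' p1 q1 ∧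
      SEq (KC a z (-1) a' p' q') (KC b w (-1) b' p1 q1) ∧ (Int.gcd p1 b' : ℤ) ∣ b + 1 ∧
      ∀ r c : ℤ, b' = r * c → c = (Int.gcd p1 b' : ℤ) → c = 1 ∨ r < 4096 * (J : ℤ) ^ 4 := by
  induction n using Nat.strong_induction_on with
  | _ n ih =>
  intro a z a' p' q' S hn hm
  obtain ⟨p'', S1, h1, h2⟩ := S.vnorm
  by_cases hgood : ∀ r c : ℤ, a' = r * c → c = (Int.gcd p'' a' : ℤ) →
      c = 1 ∨ r < 4096 * (J : ℤ) ^ 4
  · exact ⟨a, z, a', p'', q', S1, h2, h1, hgood⟩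
  · push Not at hgood
    obtain ⟨r, c, e1, e2, e3, e4⟩ := hgood
    have hc0 : 0 < c := by
      have : 0 < Int.gcd p'' a' := Int.gcd_pos_of_ne_zero_right _ S.ha'.ne'
      rw [e2]; exact_mod_cast this
    obtain ⟨b, w, b', p1, q1, k1, k2, k3⟩ := S1.up B hn e1 e2 (by omega) e4
    have hbN : b < N := by linarith [k2.hN, k2.ha']
    have hn1 := S1.n0_seq k2 k3
    obtain ⟨b2, w2, b2', p2, q2, m1, m2, m3, m4⟩ := ih (N - b).toNat (by omega) k2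
      (by rw [← hn1]; exact hn) rfl
    exact ⟨b2, w2, b2', p2, q2, m1, h2.trans (k3.trans m2), m3, m4⟩

/-- one of the two shear indices is small -/
theorem side_num {J Z : ℕ} {N a a' : ℤ} (B : Big N J Z) (hN : a + 1 + a' = N) (ha : 0 < a)
    (ha' : 0 < a') : ((J : ℤ) ^ 30 ≤ a ∧ (Int.gcd a (a' + 1) : ℤ) * J ^ 12 ≤ a) ∨
      ((J : ℤ) ^ 30 ≤ a' ∧ (Int.gcd a' (a + 1) : ℤ) * J ^ 12 ≤ a') := by
  have hJ : (2 : ℤ) ^ 20 ≤ J := by exact_mod_cast B.J0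
  have hJ1 : (1 : ℤ) ≤ J := by linarith
  have hJ2 : (4 : ℤ) ≤ J := by linarith
  have p30 : (0 : ℤ) < (J : ℤ) ^ 30 := by positivity
  have p12 : (0 : ℤ) < (J : ℤ) ^ 12 := by positivity
  have q1 : 4 * (J : ℤ) ^ 24 ≤ (J : ℤ) ^ 30 := by
    calc 4 * (J : ℤ) ^ 24 ≤ J * (J : ℤ) ^ 24 := by gcongr
      _ = (J : ℤ) ^ 25 := by ring
      _ ≤ (J : ℤ) ^ 30 := pow_le_pow_right₀ hJ1 (by norm_num)
  have q2 : 4 * (J : ℤ) ^ 42 ≤ N := by
    calc 4 * (J : ℤ) ^ 42 ≤ J * (J : ℤ) ^ 42 := by gcongr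
      _ = (J : ℤ) ^ 43 := by ring
      _ ≤ (J : ℤ) ^ 200 := pow_le_pow_right₀ hJ1 (by norm_num)
      _ ≤ N := B.hN
  have q3 : (J : ℤ) ^ 30 ≤ (J : ℤ) ^ 42 := pow_le_pow_right₀ hJ1 (by norm_num)
  have q4 : (J : ℤ) ^ 30 * (J : ℤ) ^ 12 = (J : ℤ) ^ 42 := by ring
  have small : ∀ x y : ℤ, x + 1 + y = N → 0 < x → 0 < y → x < (J : ℤ) ^ 30 →
      (J : ℤ) ^ 30 ≤ y ∧ (Int.gcd y (x + 1) : ℤ) * J ^ 12 ≤ y := by
    intro x y h1 h2 h3 h4
    have h5 : (J : ℤ) ^ 42 ≤ y := by linarith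
    refine ⟨by linarith, ?_⟩
    have h6 : (Int.gcd y (x + 1) : ℤ) ≤ x + 1 := Int.le_of_dvd (by linarith) (Int.gcd_dvd_right _ _)
    have h7 : (Int.gcd y (x + 1) : ℤ) ≤ (J : ℤ) ^ 30 := by linarith
    calc (Int.gcd y (x + 1) : ℤ) * J ^ 12 ≤ (J : ℤ) ^ 30 * J ^ 12 := by gcongr
      _ = (J : ℤ) ^ 42 := q4
      _ ≤ y := h5
  by_cases h1 : a < (J : ℤ) ^ 30
  · exact Or.inr (small a a' hN ha ha' h1)
  by_cases h2 : a' < (J : ℤ) ^ 30
  · exact Or.inl (small a' a (by linarith) ha' ha h2)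
  push Not at h1 h2
  by_contra hcon
  push Not at hcon
  obtain ⟨c1, c2⟩ := hcon
  have d1 := c1 h1
  have d2 := c2 h2
  set γ : ℤ := (Int.gcd a (a' + 1) : ℤ) with hγ
  set γ' : ℤ := (Int.gcd a' (a + 1) : ℤ) with hγ'
  have g1 : γ ∣ a := Int.gcd_dvd_left _ _
  have g2 : γ ∣ a' + 1 := Int.gcd_dvd_right _ _
  have g3 : γ' ∣ a' := Int.gcd_dvd_left _ _
  have g4 : γ' ∣ a + 1 := Int.gcd_dvd_right _ _
  have g5 : 0 ≤ γ := Int.natCast_nonneg _
  have g6 : 0 ≤ γ' := Int.natCast_nonneg _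
  have hco : IsCoprime γ γ' := by
    obtain ⟨x, hx⟩ := g2
    obtain ⟨y, hy⟩ := g3
    exact ⟨x, -y, by linarith⟩
  have h3 : γ * γ' ≤ N := by
    refine Int.le_of_dvd (by linarith) (hco.mul_dvd ?_ ?_)
    · rw [← hN, add_assoc, add_comm 1 a']; exact dvd_add g1 g2
    · rw [← hN]; exact dvd_add g4 g3
  have h4 : a * a' ≤ (γ * (J : ℤ) ^ 12) * (γ' * (J : ℤ) ^ 12) :=
    mul_le_mul d1.le d2.le ha'.le (by positivity)
  have h5 : (γ * (J : ℤ) ^ 12) * (γ' * (J : ℤ) ^ 12) = (γ * γ') * (J : ℤ) ^ 24 := by ring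
  have h6 : (γ * γ') * (J : ℤ) ^ 24 ≤ N * (J : ℤ) ^ 24 := by gcongr
  have h7 : 0 ≤ (a - (J : ℤ) ^ 30) * (a' - (J : ℤ) ^ 30) :=
    mul_nonneg (by linarith) (by linarith)
  have h8 : (J : ℤ) ^ 30 * (N - 1 - (J : ℤ) ^ 30) ≤ a * a' := by
    have : (a - (J : ℤ) ^ 30) * (a' - (J : ℤ) ^ 30) =
      a * a' - (J : ℤ) ^ 30 * (a + a' - (J : ℤ) ^ 30) := by ring
    rw [this] at h7
    have h9 : a + a' = N - 1 := by linarith
    rw [h9] at h7
    linarith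
  have h9 : N ≤ 2 * (N - 1 - (J : ℤ) ^ 30) := by
    have : (1 : ℤ) ≤ (J : ℤ) ^ 42 := one_le_pow₀ hJ1
    linarith
  have h10 : 4 * (J : ℤ) ^ 24 * (N - 1 - (J : ℤ) ^ 30) ≤ (J : ℤ) ^ 30 * (N - 1 - (J : ℤ) ^ 30) :=
    mul_le_mul_of_nonneg_right q1 (by linarith)
  have h11 : (0 : ℤ) < (J : ℤ) ^ 24 := by positivity
  have h12 : 2 * (J : ℤ) ^ 24 * N ≤ 4 * (J : ℤ) ^ 24 * (N - 1 - (J : ℤ) ^ 30) := by
    have := mul_le_mul_of_nonneg_left h9 (by positivity : (0 : ℤ) ≤ 2 * (J : ℤ) ^ 24)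
    linarith
  have h13 : 0 < (J : ℤ) ^ 24 * N := mul_pos h11 (by linarith)
  linarith

/-- the conditions of START for a state with `c = 1` -/
theorem idx_one {J : ℕ} {a a' : ℤ} (h : (Int.gcd a (a' + 1) : ℤ) * J ^ 12 ≤ a) :
    (∀ l : ℕ, l.Prime → (l : ℤ) ∣ a' → (l : ℤ) ∣ 1 → (l : ℤ) ∣ a + 1) ∧
    ∀ r c : ℤ, a' = r * c → c = (Int.gcd 1 a' : ℤ) → (Int.gcd a (r + 1) : ℤ) * J ^ 12 ≤ a := by
  refine ⟨fun l hl _ h1 => absurd h1 (prime_not_dvd_one hl), fun r c h1 h2 => ?_⟩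
  rw [Int.one_gcd] at h2
  have h3 : c = 1 := by exact_mod_cast h2
  rw [h3, mul_one] at h1
  rw [← h1]; exact h

/-- START: the input of the first move, all types but the two with `n0 = 0` -/
theorem KSt.start {J Z : ℕ} {N a z a' p' q' : ℤ} (B : Big N J Z) (S : KSt N a z a' p' q')
    (hn : nL a z + nL a' q' ≠ 0) :
    ∃ b w b' p1 q1 : ℤ, KSt N b w b' p1 q1 ∧
      SEq (KC a z (-1) a' p' q') (KC b w (-1) b' p1 q1) ∧
      (∀ l : ℕ, l.Prime → (l : ℤ) ∣ b' → (l : ℤ) ∣ p1 → (l : ℤ) ∣ b + 1) ∧ (J : ℤ) ^ 30 ≤ b ∧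
      ∀ r c : ℤ, b' = r * c → c = (Int.gcd p1 b' : ℤ) → (Int.gcd b (r + 1) : ℤ) * J ^ 12 ≤ b := by
  obtain ⟨b, w, b', p1, q1, k1, k2, k3, k4⟩ := KSt.top B _ S hn rfl
  have hg : 0 < Int.gcd p1 b' := Int.gcd_pos_of_ne_zero_right _ k1.ha'.ne'
  have hg' : (0 : ℤ) < (Int.gcd p1 b' : ℤ) := by exact_mod_cast hg
  obtain ⟨r, hr⟩ : (Int.gcd p1 b' : ℤ) ∣ b' := Int.gcd_dvd_right _ _
  have hr' : b' = r * (Int.gcd p1 b' : ℤ) := by rw [mul_comm]; exact hr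
  have hr0 : 0 < r := by
    have := k1.ha'
    rw [hr'] at this
    exact (mul_pos_iff_of_pos_right hg').1 this
  rcases k4 r _ hr' rfl with h1 | h1
  · -- `c = 1`
    have hco : IsCoprime p1 b' := Int.isCoprime_iff_gcd_eq_one.2 (by exact_mod_cast h1)
    obtain ⟨x, hx⟩ := Lc_norm' (q := q1) hco
    have e : KC b w (-1) b' p1 q1 = KC b w (-1) b' 1 (-x) := by unfold KC; rw [hx]
    rw [e] at k2
    have S1 : KSt N b w b' 1 (-x) := ⟨k1.hN, k1.ha, k1.ha', Prm_right b' x, k2.ok'⟩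
    rcases side_num B k1.hN k1.ha k1.ha' with ⟨h2, h3⟩ | ⟨h2, h3⟩
    · exact ⟨b, w, b', 1, -x, S1, k2, (idx_one h3).1, h2, (idx_one h3).2⟩
    · obtain ⟨S2, m⟩ := S1.mirror
      exact ⟨b', -x, b, 1, w, S2, k2.trans m, (idx_one h3).1, h2, (idx_one h3).2⟩
  · -- `r` tiny
    have hJ : (2 : ℤ) ^ 20 ≤ J := by exact_mod_cast B.J0
    have hJ1 : (1 : ℤ) ≤ J := by linarith
    have h2 : r + 1 ≤ (J : ℤ) ^ 5 := by
      have h3 : 4096 * (J : ℤ) ^ 4 ≤ J * (J : ℤ) ^ 4 := by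
        have : (0 : ℤ) ≤ (J : ℤ) ^ 4 := by positivity
        exact mul_le_mul_of_nonneg_right (by linarith) this
      have h4 : J * (J : ℤ) ^ 4 = (J : ℤ) ^ 5 := by ring
      linarith
    have h3 : (Int.gcd p1 b' : ℤ) ≤ b + 1 := Int.le_of_dvd (by linarith [k1.ha]) k3
    have h4 : N ≤ (b + 1) * (J : ℤ) ^ 5 := by
      have e1 : N = (b + 1) + r * (Int.gcd p1 b' : ℤ) := by rw [← hr', ← k1.hN]
      have e2 : r * (Int.gcd p1 b' : ℤ) ≤ r * (b + 1) := mul_le_mul_of_nonneg_left h3 hr0.le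
      have e3 : (b + 1) * (r + 1) ≤ (b + 1) * (J : ℤ) ^ 5 :=
        mul_le_mul_of_nonneg_left h2 (by linarith [k1.ha])
      linarith
    have h5 : (J : ℤ) ^ 30 ≤ b := by
      by_contra hlt
      push Not at hlt
      have e1 : b + 1 ≤ (J : ℤ) ^ 30 := hlt
      have e2 : (b + 1) * (J : ℤ) ^ 5 ≤ (J : ℤ) ^ 30 * (J : ℤ) ^ 5 :=
        mul_le_mul_of_nonneg_right e1 (by positivity)
      have e3 : (J : ℤ) ^ 30 * (J : ℤ) ^ 5 = (J : ℤ) ^ 35 := by ring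
      have e4 : (J : ℤ) ^ 35 < (J : ℤ) ^ 200 :=
        pow_lt_pow_right₀ (by linarith) (by norm_num)
      linarith [B.hN]
    refine ⟨b, w, b', p1, q1, k1, k2, ?_, h5, ?_⟩
    · intro l hl d1 d2
      exact (Int.dvd_coe_gcd d2 d1).trans k3
    · intro r' c' e1 e2
      have e3 : r' = r := by
        rw [e2] at e1
        exact mul_right_cancel₀ hg'.ne' (e1.symm.trans hr')
      rw [e3]
      have e4 : (Int.gcd b (r + 1) : ℤ) ≤ r + 1 := Int.le_of_dvd (by linarith) (Int.gcd_dvd_right _ _)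
      calc (Int.gcd b (r + 1) : ℤ) * (J : ℤ) ^ 12 ≤ (J : ℤ) ^ 5 * (J : ℤ) ^ 12 := by
            gcongr; linarith
        _ = (J : ℤ) ^ 17 := by ring
        _ ≤ (J : ℤ) ^ 30 := pow_le_pow_right₀ hJ1 (by norm_num)
        _ ≤ b := h5

/-- START for the types without `(1, [4,2,0])`: the input of the first move -/
theorem KSt.toMIn {J Z : ℕ} {N a z a' p' q' : ℤ} (B : Big N J Z) (S : KSt N a z a' p' q')
    (h4 : ¬ (2 : ℤ) ∣ a → (2 : ℤ) ∣ a' → ¬ (2 : ℤ) ∣ p')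
    (h3 : (2 : ℤ) ∣ a → (2 : ℤ) ∣ a' → (2 : ℤ) ∣ z ∨ (2 : ℤ) ∣ q') :
    ∃ b w b' p1 q1 : ℤ, MIn J N b w b' p1 q1 ∧
      SEq (KC a z (-1) a' p' q') (KC b w (-1) b' p1 q1) := by
  have hn : nL a z + nL a' q' ≠ 0 := by
    intro h
    have h1 : nL a z = 0 := by omega
    have h2 : nL a' q' = 0 := by omega
    have key : ∀ x y : ℤ, nL x y = 0 → (2 : ℤ) ∣ x ∧ ¬ (2 : ℤ) ∣ y := by
      intro x y hxy
      rcases Int.even_or_odd x with hx | hx
      · rcases Int.even_or_odd y with hy | hy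
        · rw [nL_even_even hx hy] at hxy; omega
        · exact ⟨hx.two_dvd, by intro h; have := even_iff_two_dvd.2 h
                                exact (Int.not_even_iff_odd.2 hy) this⟩
      · rw [nL_odd hx] at hxy; omega
    obtain ⟨a1, a2⟩ := key a z h1
    obtain ⟨b1, b2⟩ := key a' q' h2
    rcases h3 a1 b1 with h | h
    · exact a2 h
    · exact b2 h
  obtain ⟨b, w, b', p1, q1, k1, k2, k3, k4, k5⟩ := S.start B hn
  have hn1 : nL b w + nL b' q1 ≠ 0 := by rw [← S.n0_seq k1 k2]; exact hn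
  refine ⟨b, w, b', p1, q1, ⟨k1, ⟨?_, ?_⟩, k3, k4, k5⟩, k2⟩
  · intro d1 d2
    have d3 : (2 : ℤ) ∣ b + 1 := by
      exact_mod_cast k3 2 Nat.prime_two (by exact_mod_cast d1) (by exact_mod_cast d2)
    have hbo : Odd b := by
      obtain ⟨t, ht⟩ := d3
      exact ⟨t - 1, by linarith⟩
    have t1 : (KC b w (-1) b' p1 q1).T4 :=
      (T4_KC_oe hbo (even_iff_two_dvd.2 d1) k1.hP k1.ok).2 (even_iff_two_dvd.2 d2)
    have t2 : (KC a z (-1) a' p' q').T4 := k2.t4_iff.2 t1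
    have hNe : (2 : ℤ) ∣ N := by rw [← k1.hN]; exact dvd_add d3 d1
    rcases Int.even_or_odd a with hae | hao
    · have hao' : Odd a' := by
        obtain ⟨s, hs⟩ := hae
        obtain ⟨t, ht⟩ := hNe
        exact ⟨t - s - 1, by linarith [S.hN]⟩
      have := (T4_KC_eo hae hao' (Prm_left a z) S.ok).1 t2
      exact absurd this (by decide)
    · have hae' : Even a' := by
        obtain ⟨s, hs⟩ := hao
        obtain ⟨t, ht⟩ := hNe
        exact ⟨t - s - 1, by linarith [S.hN]⟩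
      have h5 := (T4_KC_oe hao hae' S.hP S.ok).1 t2
      refine h4 ?_ hae'.two_dvd h5.two_dvd
      intro h6
      exact (Int.not_even_iff_odd.2 hao) (even_iff_two_dvd.2 h6)
  · intro d1 d2
    by_contra hcon
    push Not at hcon
    obtain ⟨c1, c2⟩ := hcon
    apply hn1
    rw [nL_even_odd (even_iff_two_dvd.2 d1) (Int.not_even_iff_odd.1 (fun h => c1 h.two_dvd)),
      nL_even_odd (even_iff_two_dvd.2 d2) (Int.not_even_iff_odd.1 (fun h => c2 h.two_dvd))]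

end Pool.Agent.H4G
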