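import Pool.Agent.H4G.Ctwo.Move1
import Pool.Agent.H4G.Ctwo.Main2
import Pool.Agent.H4G.Ctwo.Last1
import Pool.Agent.H4G.Ctwo.Last2
import Pool.Agent.H4G.Ctwo.Last3
import Pool.Agent.H4G.Ctwo.Bal
import Pool.Agent.H4G.Ctwo.Start

/-!
# (G3): the script (helper62)
-/

set_option autoImplicit false

namespace Pool.Agent.H4G

/-- a state with `c = d = 1` at a good level, generic on the left -/
structure GSt (N a z a' x : ℤ) : Prop extends KSt N a z a' 1 (-x), KTy a z a' 1 (-x) where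
  lev : GLev N a
  gen : OC a z

theorem gcd_le_two {m n : ℤ} (hm : 0 < m) (h : OC m n)
    (h2 : ¬ (2 : ℤ) ∣ m ∨ ¬ (2 : ℤ) ∣ n ∨ m % 4 = 2) : (Int.gcd m n : ℤ) ≤ 2 := by
  have hg : (0 : ℤ) < Int.gcd m n := by exact_mod_cast Int.gcd_pos_of_ne_zero_left _ hm.ne'
  have h4 : (Int.gcd m n : ℤ) ∣ 2 := by
    -- the odd part is trivial
    obtain ⟨σ, k, hk, hk2, e⟩ := two_split hg
    have hk1 : k = 1 := by
      by_contra hne
      have hk3 : k.toNat ≠ 1 := by omega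
      obtain ⟨l, hl, hd⟩ := Nat.exists_prime_and_dvd hk3
      have hd' : (l : ℤ) ∣ k := by
        have h5 : (k.toNat : ℤ) = k := Int.toNat_of_nonneg hk.le
        rw [← h5]; exact_mod_cast hd
      have hl2 : l ≠ 2 := by
        rintro rfl
        exact hk2 (by exact_mod_cast hd')
      have h6 : (l : ℤ) ∣ Int.gcd m n := by rw [e]; exact hd'.mul_left _
      exact h l hl hl2 (h6.trans (Int.gcd_dvd_left _ _)) (h6.trans (Int.gcd_dvd_right _ _))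
    rw [hk1, mul_one] at e
    have h7 : ¬ (4 : ℤ) ∣ Int.gcd m n := by
      intro h8
      have h9 := h8.trans (Int.gcd_dvd_left m n)
      have h10 := h8.trans (Int.gcd_dvd_right m n)
      omega
    rcases σ with _ | _ | σ
    · rw [e]; norm_num
    · rw [e]; norm_num
    · exfalso
      apply h7
      rw [e]
      exact ⟨2 ^ σ, by ring⟩
  exact Int.le_of_dvd (by norm_num) h4

/-- the index condition for states with `c = 1` -/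
theorem g3_idx {J : ℕ} {N a a' : ℤ} (hN : a + 1 + a' = N) (ha : 0 < a) (hoc : OC a N)
    (h2 : ¬ (2 : ℤ) ∣ a ∨ ¬ (2 : ℤ) ∣ N ∨ a % 4 = 2) (hb : 2 * (J : ℤ) ^ 12 ≤ a) :
    ∀ r c : ℤ, a' = r * c → c = (Int.gcd 1 a' : ℤ) →
      (Int.gcd a (r + 1) : ℤ) * (J : ℤ) ^ 12 ≤ a := by
  intro r c h1 h3
  rw [Int.one_gcd] at h3
  have h4 : r = a' := by rw [h1, h3]; push_cast; ring
  rw [h4]
  have h5 : OC a (a' + 1) := by
    intro l hl hl2 h6 h7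
    refine hoc l hl hl2 h6 ?_
    have := dvd_add h6 h7
    have e : a + (a' + 1) = N := by linarith
    rwa [e] at this
  have h6 := gcd_le_two ha h5 (by omega)
  have h7 : (Int.gcd a (a' + 1) : ℤ) * (J : ℤ) ^ 12 ≤ 2 * (J : ℤ) ^ 12 :=
    mul_le_mul_of_nonneg_right h6 (by positivity)
  linarith

theorem g3_idx' {J : ℕ} {N b b' : ℤ} (hN : b + 1 + b' = N) (hb : 0 < b) (hoc : OC b N)
    (h2 : ¬ (2 : ℤ) ∣ b ∨ ¬ (2 : ℤ) ∣ N ∨ b % 4 = 2) (hJ : 2 * (J : ℤ) ^ 12 ≤ b) :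
    (∀ l : ℕ, l.Prime → (l : ℤ) ∣ b' → (l : ℤ) ∣ 1 → (l : ℤ) ∣ b + 1) ∧
    ∀ r c : ℤ, b' = r * c → c = (Int.gcd 1 b' : ℤ) →
      (Int.gcd b (r + 1) : ℤ) * (J : ℤ) ^ 12 ≤ b :=
  ⟨fun _ hl _ h1 => absurd h1 (prime_not_dvd_one hl), g3_idx hN hb hoc h2 hJ⟩

/-- MOVE2 (LINE-2k in state form) -/
def Move2P (J : ℕ) (N : ℤ) : Prop := ∀ a z a' p' q' E0 : ℤ, MIn J N a z a' p' q' →
  a < (Int.gcd z a : ℤ) * (J : ℤ) ^ 6 → (2 : ℤ) ∣ E0 →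
  ∃ E w x : ℤ, 0 < E ∧ E * J ≤ a ∧ (16 : ℤ) ∣ E - E0 ∧ KSt N (a - E) w (a' + E) 1 (-x) ∧
    KTy (a - E) w (a' + E) 1 (-x) ∧ OC (a - E) N ∧ OC (a - E) w ∧
    ((2 : ℤ) ∣ a → ((2 : ℤ) ∣ w ↔ (2 : ℤ) ∣ z)) ∧ ((2 : ℤ) ∣ a' → ((2 : ℤ) ∣ x ↔ (2 : ℤ) ∣ q')) ∧
    SEq (KC a z (-1) a' p' q') (KC (a - E) w (-1) (a' + E) 1 (-x))

/-- powers of `J` -/
theorem Big.pw {N : ℤ} {J Z : ℕ} (hB : Big N J Z) {m n : ℕ} (hmn : m ≤ n) :
    (J : ℤ) ^ m ≤ (J : ℤ) ^ n := by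
  have hJ : (2 : ℤ) ^ 20 ≤ (J : ℤ) := by exact_mod_cast hB.J0
  exact pow_le_pow_right₀ (by linarith [show (1 : ℤ) ≤ 2 ^ 20 by norm_num]) hmn

theorem Big.mul_pw {N : ℤ} {J Z : ℕ} (hB : Big N J Z) {k : ℤ} (hk : k ≤ 2 ^ 20) {m n : ℕ}
    (hmn : m + 1 = n) : k * (J : ℤ) ^ m ≤ (J : ℤ) ^ n := by
  subst hmn
  have hJ : (2 : ℤ) ^ 20 ≤ (J : ℤ) := by exact_mod_cast hB.J0
  have h0 : (0 : ℤ) < (J : ℤ) := by linarith [show (0 : ℤ) < 2 ^ 20 by norm_num]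
  rw [pow_succ, mul_comm ((J : ℤ) ^ m)]
  exact mul_le_mul_of_nonneg_right (by linarith) (by positivity)

/-- **MOVE** -/
theorem MIn.move {N a z a' p' q' : ℤ} {J Z : ℕ} (hB : Big N J Z) (hM : Move2P J N)
    (h : MIn J N a z a' p' q') {E0 : ℤ} (hE : (2 : ℤ) ∣ E0)
    (hcl : ¬ (2 : ℤ) ∣ a ∨ (a - E0) % 4 = 2) :
    ∃ E w x : ℤ, 0 < E ∧ 2 * E ≤ a ∧ (16 : ℤ) ∣ E - E0 ∧ GSt N (a - E) w (a' + E) x ∧
      ((2 : ℤ) ∣ a → ((2 : ℤ) ∣ w ↔ (2 : ℤ) ∣ z)) ∧ ((2 : ℤ) ∣ a' → ((2 : ℤ) ∣ x ↔ (2 : ℤ) ∣ q')) ∧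
      SEq (KC a z (-1) a' p' q') (KC (a - E) w (-1) (a' + E) 1 (-x)) := by
  have hJ : (2 : ℤ) ^ 20 ≤ (J : ℤ) := by exact_mod_cast hB.J0
  have hJ0 : (0 : ℤ) < (J : ℤ) := by linarith [show (0 : ℤ) < 2 ^ 20 by norm_num]
  have hle : ∀ {E m : ℤ}, 0 < E → E * J ≤ m → 4 * E ≤ m := by
    intro E m h0 h1
    have : E * 4 ≤ E * J :=
      mul_le_mul_of_nonneg_left (by linarith [show (4 : ℤ) ≤ 2 ^ 20 by norm_num]) h0.le
    linarith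
  by_cases h6 : (Int.gcd z a : ℤ) * (J : ℤ) ^ 6 ≤ a
  · obtain ⟨E, w, x, k1, k2, k3, k4, k5, k6, k7, k8, k9, k10⟩ := h.move1 hB h6 hE
    exact ⟨E, w, x, k1, by linarith [hle k1 k2], k3, ⟨k4, k5, k6, k7⟩, k8, k9, k10⟩
  · push Not at h6
    obtain ⟨E, w, x, k1, k2, k3, k4, k5, k6, k7, k8, k9, k10⟩ := hM a z a' p' q' E0 h h6 hE
    have hE4 := hle k1 k2
    have hb0 := k4.ha
    have hcl2 : ¬ (2 : ℤ) ∣ a - E ∨ (a - E) % 4 = 2 := by omega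
    have hbig : (J : ℤ) ^ 29 ≤ a - E := by
      have h1 := hB.mul_pw (k := 2) (by norm_num) (m := 29) (n := 30) rfl
      have h2 := h.big
      linarith
    have h12 : 2 * (J : ℤ) ^ 12 ≤ a - E := by
      have h1 := hB.mul_pw (k := 2) (by norm_num) (m := 12) (n := 13) rfl
      have h2 := hB.pw (m := 13) (n := 29) (by norm_num)
      linarith
    obtain ⟨f1, f2⟩ := g3_idx' (J := J) k4.hN hb0 k6 (by omega) h12
    have hg2 : (Int.gcd w (a - E) : ℤ) * (J : ℤ) ^ 6 ≤ a - E := by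
      have h1 : (Int.gcd w (a - E) : ℤ) ≤ 2 := by
        rw [Int.gcd_comm]
        exact gcd_le_two hb0 k7 (by omega)
      have h2 : (Int.gcd w (a - E) : ℤ) * (J : ℤ) ^ 6 ≤ 2 * (J : ℤ) ^ 6 :=
        mul_le_mul_of_nonneg_right h1 (by positivity)
      have h3 := hB.mul_pw (k := 2) (by norm_num) (m := 6) (n := 7) rfl
      have h4 := hB.pw (m := 7) (n := 29) (by norm_num)
      linarith
    obtain ⟨F, y, t, m1, m2, m3, m4, m5, m6, m7, m8, m9, m10⟩ :=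
      k4.move1 hB k5 f1 f2 hg2 (E0 := 0) (dvd_zero 2)
    have hF4 := hle m1 m2
    have hE2 : (2 : ℤ) ∣ E := by omega
    have e1 : a - E - F = a - (E + F) := by ring
    have e2 : a' + E + F = a' + (E + F) := by ring
    rw [e1] at m4 m5 m6 m7 m10
    rw [e2] at m4 m5 m10
    refine ⟨E + F, y, t, by linarith, by linarith, by omega, ⟨m4, m5, m6, m7⟩, ?_, ?_,
      k10.trans m10⟩
    · intro h1
      rw [m8 (dvd_sub h1 hE2), k8 h1]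
    · intro h1
      rw [m9 (dvd_add h1 hE2), dvd_neg, k9 h1]

/-- a large side generic, level good -/
theorem MIn.toBal {N b w b' r s : ℤ} {J Z : ℕ} (hB : Big N J Z) (hM : Move2P J N)
    (I : MIn J N b w b' r s) :
    ∃ c y c' x : ℤ, GSt N c y c' x ∧ N ≤ 4 * c ∧ (¬ (2 : ℤ) ∣ c ∨ c % 4 = 2) ∧
      SEq (KC b w (-1) b' r s) (KC c y (-1) c' 1 (-x)) := by
  have hJ : (2 : ℤ) ^ 20 ≤ (J : ℤ) := by exact_mod_cast hB.J0
  have hN200 := hB.hN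
  -- the first move
  obtain ⟨E0, hE0, hcl, hcl'⟩ : ∃ E0 : ℤ, (2 : ℤ) ∣ E0 ∧ (¬ (2 : ℤ) ∣ b ∨ (b - E0) % 4 = 2) ∧
      ((2 : ℤ) ∣ N → (2 : ℤ) ∣ b' → (b' + E0) % 4 = 2) := by
    have hbN := I.hN
    by_cases h1 : (2 : ℤ) ∣ b
    · exact ⟨b - 2, by omega, Or.inr (by omega), by omega⟩
    · by_cases h2 : (2 : ℤ) ∣ b'
      · exact ⟨2 - b', by omega, Or.inl h1, by omega⟩
      · exact ⟨0, by omega, Or.inl h1, by omega⟩
  obtain ⟨E, w1, x1, m1, m2, m3, G, -, -, m6⟩ := I.move hB hM hE0 hcl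
  have hc : ¬ (2 : ℤ) ∣ b - E ∨ (b - E) % 4 = 2 := by omega
  by_cases h4 : N ≤ 4 * (b - E)
  · exact ⟨b - E, w1, b' + E, x1, G, h4, hc, m6⟩
  push Not at h4
  -- the mirror
  obtain ⟨K1, K2⟩ := G.toKSt.mirror
  have hGN := G.hN
  have hN4 : (4 : ℤ) ≤ N := by
    have h1 : (1 : ℤ) ≤ (J : ℤ) ^ 199 := one_le_pow₀ (by linarith [show (1 : ℤ) ≤ 2 ^ 20 by norm_num])
    have h2 := hB.mul_pw (k := 4) (by norm_num) (m := 199) (n := 200) rfl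
    linarith
  have hcN : N ≤ 2 * (b' + E) := by linarith
  have h30 : (J : ℤ) ^ 30 ≤ b' + E := by
    have h1 := hB.mul_pw (k := 2) (by norm_num) (m := 30) (n := 31) rfl
    have h2 := hB.pw (m := 31) (n := 200) (by norm_num)
    linarith
  have h12 : 2 * (J : ℤ) ^ 12 ≤ b' + E := by
    have h1 := hB.mul_pw (k := 2) (by norm_num) (m := 12) (n := 13) rfl
    have h2 := hB.pw (m := 13) (n := 30) (by norm_num)
    linarith
  have hocr : OC (b' + E) N := G.lev.right G.hN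
  have hcls : ¬ (2 : ℤ) ∣ b' + E ∨ ¬ (2 : ℤ) ∣ N ∨ (b' + E) % 4 = 2 := by
    by_cases h1 : (2 : ℤ) ∣ N
    · by_cases h2 : (2 : ℤ) ∣ b' + E
      · have h3 : (2 : ℤ) ∣ b' := by omega
        have := hcl' h1 h3
        exact Or.inr (Or.inr (by omega))
      · exact Or.inl h2
    · exact Or.inr (Or.inl h1)
  obtain ⟨f1, f2⟩ := g3_idx' (J := J) K1.hN K1.ha hocr hcls h12
  have I2 : MIn J N (b' + E) (-x1) (b - E) 1 w1 := ⟨K1, G.toKTy.mirror, f1, h30, f2⟩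
  obtain ⟨E1, hE1, hcl1⟩ : ∃ E1 : ℤ, (2 : ℤ) ∣ E1 ∧
      (¬ (2 : ℤ) ∣ b' + E ∨ (b' + E - E1) % 4 = 2) := by
    by_cases h1 : (2 : ℤ) ∣ b' + E
    · exact ⟨b' + E - 2, by omega, Or.inr (by omega)⟩
    · exact ⟨0, by omega, Or.inl h1⟩
  obtain ⟨F, w2, x2, n1, n2, n3, G2, -, -, n6⟩ := I2.move hB hM hE1 hcl1
  exact ⟨b' + E - F, w2, b - E + F, x2, G2, by linarith, by omega,
    m6.trans (K2.trans n6)⟩

/-- the square root -/
theorem Big.exS {N : ℤ} {J Z : ℕ} (hB : Big N J Z) : ∃ S : ℤ, 0 ≤ S ∧ N ≤ S ^ 2 ∧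
    2 ^ 17 * S * (J : ℤ) ^ 4 ≤ N := by
  have hJ : (2 : ℤ) ^ 20 ≤ (J : ℤ) := by exact_mod_cast hB.J0
  have hJ0 : (0 : ℤ) < (J : ℤ) := by linarith [show (0 : ℤ) < 2 ^ 20 by norm_num]
  have hN := hB.hN
  have hN0 : 0 < N := lt_of_lt_of_le (by positivity) hN
  obtain ⟨n, rfl⟩ := Int.eq_ofNat_of_zero_le hN0.le
  refine ⟨(Nat.sqrt n + 1 : ℕ), by positivity, ?_, ?_⟩
  · have h1 := Nat.lt_succ_sqrt n
    have : n ≤ (Nat.sqrt n + 1) ^ 2 := by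
      have e : (Nat.sqrt n + 1) ^ 2 = (Nat.sqrt n).succ * (Nat.sqrt n).succ := by
        rw [Nat.succ_eq_add_one]; ring
      rw [e]; exact h1.le
    exact_mod_cast this
  · set R : ℤ := ((Nat.sqrt n + 1 : ℕ) : ℤ) with hR
    have h1 : ((Nat.sqrt n : ℕ) : ℤ) * (Nat.sqrt n : ℕ) ≤ n := by exact_mod_cast Nat.sqrt_le n
    have h2 : R = (Nat.sqrt n : ℕ) + 1 := by rw [hR]; push_cast; ring
    have h3 : (1 : ℤ) ≤ (Nat.sqrt n : ℕ) := by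
      have : 1 ≤ Nat.sqrt n := Nat.one_le_iff_ne_zero.2 (by
        rw [Ne, Nat.sqrt_eq_zero]
        rintro rfl
        simp at hN0)
      exact_mod_cast this
    have h4 : R * R ≤ 4 * (n : ℤ) := by rw [h2]; nlinarith
    have hR0 : 0 < R := by rw [h2]; linarith
    by_contra hn
    push Not at hn
    have h5 : (n : ℤ) * n < (2 ^ 17 * R * (J : ℤ) ^ 4) * (2 ^ 17 * R * (J : ℤ) ^ 4) :=
      mul_lt_mul'' hn hn hN0.le hN0.le
    have h6 : (2 ^ 17 * R * (J : ℤ) ^ 4) * (2 ^ 17 * R * (J : ℤ) ^ 4) =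
        2 ^ 34 * (R * R) * (J : ℤ) ^ 8 := by ring
    have h7 : 2 ^ 34 * (R * R) * (J : ℤ) ^ 8 ≤ 2 ^ 34 * (4 * n) * (J : ℤ) ^ 8 :=
      mul_le_mul_of_nonneg_right (mul_le_mul_of_nonneg_left h4 (by norm_num)) (by positivity)
    have h8 : (2 : ℤ) ^ 36 * (J : ℤ) ^ 8 ≤ n := by
      calc (2 : ℤ) ^ 36 * (J : ℤ) ^ 8 ≤ (2 ^ 20) ^ 2 * (J : ℤ) ^ 8 :=
            mul_le_mul_of_nonneg_right (by norm_num) (by positivity)
        _ ≤ (J : ℤ) ^ 2 * (J : ℤ) ^ 8 :=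
            mul_le_mul_of_nonneg_right (pow_le_pow_left₀ (by norm_num) hJ 2) (by positivity)
        _ = (J : ℤ) ^ 10 := by ring
        _ ≤ (J : ℤ) ^ 200 := hB.pw (by norm_num)
        _ ≤ n := hN
    have h9 : 2 ^ 34 * (4 * (n : ℤ)) * (J : ℤ) ^ 8 = (2 ^ 36 * (J : ℤ) ^ 8) * n := by ring
    have h10 : (2 ^ 36 * (J : ℤ) ^ 8) * n ≤ (n : ℤ) * n := mul_le_mul_of_nonneg_right h8 hN0.le
    linarith

/-- the right slope is not zero -/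
theorem KSt.hx {N a z a' x : ℤ} (S : KSt N a z a' 1 (-x)) : ¬ a' ∣ x := by
  intro h
  have h1 := S.mirror.1.ok
  have h2 : ((1, 0) : Z2) ∈ Lc a' (-x) (-1) := by
    rw [mem_Lc]
    change a' ∣ -x * 1 + -1 * 0
    rw [mul_one, mul_zero, add_zero]
    exact (dvd_neg).2 h
  exact PSt.Ok.not_mem h1 h2

theorem KSt.hx2 {N a z a' x : ℤ} (S : KSt N a z a' 1 (-x))
    (h : ¬ (2 : ℤ) ∣ a' ∨ (a' % 4 = 2 ∧ (2 : ℤ) ∣ x)) : ¬ a' ∣ 2 * x := by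
  intro h1
  apply S.hx
  rcases h with h | ⟨h, h2⟩
  · have : IsCoprime a' 2 := ((Prime.coprime_iff_not_dvd Int.prime_two).2 h).symm
    exact this.dvd_of_dvd_mul_left h1
  · obtain ⟨m, hm⟩ : (2 : ℤ) ∣ a' := by omega
    have hm2 : ¬ (2 : ℤ) ∣ m := by omega
    have h3 : m ∣ x := by
      rw [hm] at h1
      exact (mul_dvd_mul_iff_left (by norm_num : (2 : ℤ) ≠ 0)).1 h1
    have h4 : IsCoprime 2 m := (Prime.coprime_iff_not_dvd Int.prime_two).2 hm2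
    rw [hm]
    exact h4.mul_dvd h2 h3

/-- the numbers for the last step -/
theorem Big.pack {N : ℤ} {J Z : ℕ} (hB : Big N J Z) : ∃ S : ℤ, 0 ≤ S ∧ N ≤ S ^ 2 ∧ 1 ≤ S ∧
    32 * (2 ^ 12 * S * (J : ℤ) ^ 4) ≤ N ∧ 2 ^ 12 * (J : ℤ) ^ 4 ≤ 2 ^ 12 * S * (J : ℤ) ^ 4 ∧
    16 * S * (J : ℤ) ^ 2 + 2 ^ 9 * (J : ℤ) ^ 4 ≤ 2 ^ 12 * S * (J : ℤ) ^ 4 ∧ 3 ≤ N ∧
    N ^ 6 ≤ (Z : ℤ) ∧ 1 ≤ J := by
  have hJ : (2 : ℤ) ^ 20 ≤ (J : ℤ) := by exact_mod_cast hB.J0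
  have hJ1 : (1 : ℤ) ≤ (J : ℤ) := by linarith [show (1 : ℤ) ≤ 2 ^ 20 by norm_num]
  obtain ⟨S, s0, s1, s2⟩ := hB.exS
  have hN200 := hB.hN
  have hN0 : 0 < N := lt_of_lt_of_le (by positivity) hN200
  have hS1 : 1 ≤ S := by
    by_contra hn
    have : S = 0 := by omega
    rw [this] at s1
    norm_num at s1
    linarith
  have hJ4 : (J : ℤ) ^ 4 ≤ S * (J : ℤ) ^ 4 := le_mul_of_one_le_left (by positivity) hS1
  have hJ2 : S * (J : ℤ) ^ 2 ≤ S * (J : ℤ) ^ 4 :=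
    mul_le_mul_of_nonneg_left (hB.pw (by norm_num)) s0
  have hp : 0 < S * (J : ℤ) ^ 4 := by positivity
  have e1 : (2 : ℤ) ^ 12 * S * (J : ℤ) ^ 4 = 4096 * (S * (J : ℤ) ^ 4) := by ring
  have e2 : (2 : ℤ) ^ 17 * S * (J : ℤ) ^ 4 = 32 * (2 ^ 12 * S * (J : ℤ) ^ 4) := by ring
  have e3 : 16 * S * (J : ℤ) ^ 2 = 16 * (S * (J : ℤ) ^ 2) := by ring
  have hN3 : 3 ≤ N := by
    have h1 : (1 : ℤ) ≤ (J : ℤ) ^ 199 := one_le_pow₀ hJ1
    have h2 := hB.mul_pw (k := 4) (by norm_num) (m := 199) (n := 200) rfl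
    linarith
  have hZ : N ^ 6 ≤ (Z : ℤ) := by
    have h3 : (1 : ℤ) ≤ 2 * N := by linarith
    calc N ^ 6 ≤ (2 * N) ^ 6 := pow_le_pow_left₀ hN0.le (by linarith) 6
      _ ≤ (2 * N) ^ 20 := pow_le_pow_right₀ h3 (by norm_num)
      _ ≤ Z := hB.hZ
  refine ⟨S, s0, s1, hS1, by linarith, ?_, ?_, hN3, hZ, by exact_mod_cast hJ1⟩
  · rw [e1]; linarith
  · rw [e1, e3]; linarith

/-- LAST, the even step -/
theorem GSt.last {N a z a' x : ℤ} {J Z : ℕ} (hB : Big N J Z) (G : GSt N a z a' x)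
    (h1 : N ≤ 16 * a) (h1' : N ≤ 16 * a')
    (h2 : ¬ (2 : ℤ) ∣ a ∨ a % 4 = 2 ∨ (a % 16 = 12 ∧ a' % 4 = 2 ∧ (2 : ℤ) ∣ z ∧ (2 : ℤ) ∣ x))
    (h2' : ¬ (2 : ℤ) ∣ a' ∨ a' % 4 = 2)
    (hpar : (2 : ℤ) ∣ a → (2 : ℤ) ∣ a' → (2 : ℤ) ∣ z ∧ (2 : ℤ) ∣ x) (hx : ¬ a' ∣ 2 * x) :
    ∃ b b' w y : ℤ, b + 1 + b' = N ∧ GLev N b ∧ (16 : ℤ) ∣ b - a ∧
      2 ^ 9 * (J : ℤ) ^ 4 ≤ b ∧ 2 ^ 9 * (J : ℤ) ^ 4 ≤ b' ∧ OC b w ∧ OC b' y ∧
      ((2 : ℤ) ∣ a → (2 : ℤ) ∣ w - z) ∧ ((2 : ℤ) ∣ a' → (2 : ℤ) ∣ y - x) ∧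
      SEq (KC a z (-1) a' 1 (-x)) (KC b w (-1) b' 1 (-y)) := by
  obtain ⟨S, s0, s1, s2, s3, s4, s5, s6, s7, s8⟩ := hB.pack
  have hJ0 : (0 : ℤ) ≤ (J : ℤ) ^ 4 := by positivity
  obtain ⟨b, b', w, y, k1, k2, k3, k4, k5, k6, k7, k8, k9, k10⟩ := KC.last hB.cap s7 s8 s0 s1
    G.hN G.lev (by linarith) (by linarith) s6 h2 h2' hpar G.gen hx G.ok
  have hGN := G.hN
  exact ⟨b, b', w, y, k1, k2, k3, by linarith, by linarith, k6, k7, k8, k9, k10⟩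

/-- LAST, the odd step -/
theorem GSt.lastO {N a z a' x : ℤ} {J Z : ℕ} (hB : Big N J Z) (G : GSt N a z a' x)
    (h1 : N ≤ 16 * a) (h1' : N ≤ 16 * a') (h2 : a % 4 = 2) (h2' : a' % 4 = 2 ∨ a' % 8 = 4)
    (hz : ¬ (2 : ℤ) ∣ z) (hx : (2 : ℤ) ∣ x) :
    ∃ G', SEq (KC a z (-1) a' 1 (-x)) G' ∧ GenS J N 1 1 G' := by
  obtain ⟨S, s0, s1, s2, s3, s4, s5, s6, s7, s8⟩ := hB.pack
  have hJ0 : (0 : ℤ) ≤ (J : ℤ) ^ 4 := by positivity
  obtain ⟨b, b', w, y, k1, k2, k3, k4, k5, k6, k7, k8, k9⟩ := KC.lastO hB.cap s7 s8 s0 s1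
    G.hN G.lev (by linarith) (by linarith) s6 h2 h2' hz hx G.gen G.ok
  have hGN := G.hN
  exact ⟨_, k9, b, w, b', y, rfl, k9.ok', Or.inl ⟨rfl, rfl, k3, k4⟩, k1, k2, by linarith,
    by linarith, k7, k8, fun h => absurd h k3, fun h => absurd h k4⟩

/-- the good level of the mirror -/
theorem GLev.mirror {N b b' : ℤ} (h : GLev N b) (hN : b + 1 + b' = N) : GLev N b' := by
  refine ⟨h.right hN, fun l hl hl2 h1 h2 => h.1 l hl hl2 ?_ h2⟩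
  have e : b = N - (b' + 1) := by linarith
  rw [e]; exact dvd_sub h2 h1

theorem OC.neg {m n : ℤ} (h : OC m n) : OC m (-n) := fun l hl hl2 h1 h2 =>
  h l hl hl2 h1 ((dvd_neg).1 h2)

/-- (G3), `N` odd, from MOVE2 -/
theorem g3O_of {N : ℤ} {J Z : ℕ} (hB : Big N J Z) (hM : Move2P J N) (hodd : ¬ (2 : ℤ) ∣ N) :
    G3O J N := by
  intro a z a' p' q' ha ha' hN hP hok hty
  have S : KSt N a z a' p' q' := ⟨hN, ha, ha', hP, hok⟩
  obtain ⟨b0, w0, b0', r, s, I, i1⟩ := S.toMIn hB (fun h1 h2 => by omega) (fun h1 h2 => by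
    rcases hty with h | h | h
    · rw [← Int.not_even_iff_odd, even_iff_two_dvd] at h
      exact absurd h1 h
    · exact Or.inl (even_iff_two_dvd.1 h)
    · exact Or.inr (even_iff_two_dvd.1 h))
  obtain ⟨b, w, b', x, G, g1, g2, g3⟩ := I.toBal hB hM
  have i2 := i1.trans g3
  have hGN := G.hN
  -- the odd-odd case
  have key : ∀ {c y c' t : ℤ}, GSt N c y c' t → ¬ (2 : ℤ) ∣ c → N ≤ 16 * c → N ≤ 16 * c' →
      SEq (KC a z (-1) a' p' q') (KC c y (-1) c' 1 (-t)) →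
      ∃ G, SEq (KC a z (-1) a' p' q') G ∧ (GenS J N 2 2 G ∨ GenS J N 1 1 G) := by
    intro c y c' t K hc h1 h2 h3
    have hKN := K.hN
    have hc' : ¬ (2 : ℤ) ∣ c' := by omega
    obtain ⟨d, d', v, t', k1, k2, k3, k4, k5, k6, k7, -, -, k10⟩ := K.last hB h1 h2 (Or.inl hc)
      (Or.inl hc') (fun h => absurd h hc) (K.toKSt.hx2 (Or.inl hc'))
    have hd : ¬ (2 : ℤ) ∣ d := by omega
    have hd' : ¬ (2 : ℤ) ∣ d' := by omega
    exact ⟨_, h3.trans k10, Or.inr ⟨d, v, d', t', rfl, k10.ok', Or.inl ⟨rfl, rfl, hd, hd'⟩, k1,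
      k2, k4, k5, k6, k7, fun h => absurd h hd, fun h => absurd h hd'⟩⟩
  rcases g2 with g2 | g2
  · obtain ⟨E, v, y, b1, b2, b3, b4, b5, b6, b7, b8, b9, b10, b11⟩ := KSt.bal hB G.toKSt G.toKTy
      G.lev G.gen g1 (Or.inl g2) (E0 := 0) (dvd_zero 2)
    exact key ⟨b5, b6, b7, b8⟩ (by omega) b3 b4 (i2.trans b11)
  · have hb2 : (2 : ℤ) ∣ b := by omega
    have hb2' : (2 : ℤ) ∣ b' := by omega
    by_cases hw : (2 : ℤ) ∣ w
    · by_cases hx : (2 : ℤ) ∣ x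
      · -- type (4, 111)
        obtain ⟨E0, e1, e2⟩ : ∃ E0 : ℤ, (2 : ℤ) ∣ E0 ∧ ((N % 4 = 1 ∧ E0 = 0) ∨
            (N % 4 = 3 ∧ E0 = b - 12)) := by
          by_cases h : N % 4 = 1
          · exact ⟨0, dvd_zero 2, Or.inl ⟨h, rfl⟩⟩
          · exact ⟨b - 12, by omega, Or.inr ⟨by omega, rfl⟩⟩
        obtain ⟨E, v, y, b1, b2, b3, b4, b5, b6, b7, b8, b9, b10, b11⟩ := KSt.bal hB G.toKSt
          G.toKTy G.lev G.gen g1 (Or.inr g2) e1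
        have K : GSt N (b - E) v (b' + E) y := ⟨b5, b6, b7, b8⟩
        have hv : (2 : ℤ) ∣ v := (b9 hb2).2 hw
        have hy : (2 : ℤ) ∣ y := (b10 hb2').2 hx
        have hc' : (b' + E) % 4 = 2 := by omega
        have hc : (b - E) % 4 = 2 ∨ (b - E) % 16 = 12 := by omega
        obtain ⟨d, d', u, t', k1, k2, k3, k4, k5, k6, k7, k8, k9, k10⟩ := K.last hB b3 b4
          (by
            rcases hc with h | h
            · exact Or.inr (Or.inl h)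
            · exact Or.inr (Or.inr ⟨h, hc', hv, hy⟩)) (Or.inr hc') (fun _ _ => ⟨hv, hy⟩)
          (b5.hx2 (Or.inr ⟨hc', hy⟩))
        have hu : (2 : ℤ) ∣ u - 2 := by
          have := k8 (by omega)
          omega
        have ht : (2 : ℤ) ∣ 2 - t' := by
          have := k9 (by omega)
          omega
        exact ⟨_, (i2.trans b11).trans k10, Or.inl ⟨d, u, d', t', rfl, k10.ok',
          Or.inr (Or.inl ⟨rfl, rfl, by omega, by omega⟩), k1, k2, k4, k5, k6, k7, fun _ => hu,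
          fun _ => ht⟩⟩
      · -- `(u, w)`
        obtain ⟨E, v, y, b1, b2, b3, b4, b5, b6, b7, b8, b11⟩ := KSt.balOdd hB G.toKSt G.lev G.gen
          g1 g2 hw hx
        exact key ⟨b5, b6, b7, b8⟩ (by omega) b3 b4 (i2.trans b11)
    · -- `(w, v)`
      have hx : (2 : ℤ) ∣ x := by
        rcases G.n331 hb2 hb2' with h | h
        · exact absurd h hw
        · exact (dvd_neg).1 h
      obtain ⟨E0, e1, e2⟩ : ∃ E0 : ℤ, (2 : ℤ) ∣ E0 ∧ ((N % 4 = 1 ∧ E0 = 0) ∨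
          (N % 4 = 3 ∧ E0 = b - (N - 5))) := by
        by_cases h : N % 4 = 1
        · exact ⟨0, dvd_zero 2, Or.inl ⟨h, rfl⟩⟩
        · exact ⟨b - (N - 5), by omega, Or.inr ⟨by omega, rfl⟩⟩
      obtain ⟨E, v, y, b1, b2, b3, b4, b5, b6, b7, b8, b9, b10, b11⟩ := KSt.bal hB G.toKSt
        G.toKTy G.lev G.gen g1 (Or.inr g2) e1
      have K : GSt N (b - E) v (b' + E) y := ⟨b5, b6, b7, b8⟩
      obtain ⟨G', k1, k2⟩ := K.lastO hB b3 b4 (by omega) (by omega)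
        (fun h => hw ((b9 hb2).1 h)) ((b10 hb2').2 hx)
      exact ⟨G', (i2.trans b11).trans k1, Or.inr k2⟩

/-- (G3), `N` even, from MOVE2 and the type `(1, 420)` -/
theorem g3E_of {N : ℤ} {J Z : ℕ} (hB : Big N J Z) (hM : Move2P J N) (heven : (2 : ℤ) ∣ N)
    (hT : ∀ a z a' p' q' : ℤ, KSt N a z a' p' q' → ¬ (2 : ℤ) ∣ a → (2 : ℤ) ∣ a' →
      (2 : ℤ) ∣ p' → ∃ G, SEq (KC a z (-1) a' p' q') G ∧ GenT J N G) :
    G3E J N := by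
  intro a z a' p' q' ha ha' hN hP hok
  have S : KSt N a z a' p' q' := ⟨hN, ha, ha', hP, hok⟩
  by_cases h420 : ¬ (2 : ℤ) ∣ a ∧ (2 : ℤ) ∣ a' ∧ (2 : ℤ) ∣ p'
  · obtain ⟨G, k1, k2⟩ := hT a z a' p' q' S h420.1 h420.2.1 h420.2.2
    exact ⟨G, k1, Or.inr (Or.inl k2)⟩
  obtain ⟨b0, w0, b0', r, s, I, i1⟩ := S.toMIn hB (fun h1 h2 h3 => h420 ⟨h1, h2, h3⟩)
    (fun h1 h2 => by omega)
  obtain ⟨b, w, b', x, G, g1, g2, g3⟩ := I.toBal hB hM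
  have i2 := i1.trans g3
  have hGN := G.hN
  rcases g2 with g2 | g2
  · -- `b` odd, `b'` even
    have hb2' : (2 : ℤ) ∣ b' := by omega
    obtain ⟨E, v, y, b1, b2, b3, b4, b5, b6, b7, b8, b9, b10, b11⟩ := KSt.bal hB G.toKSt G.toKTy
      G.lev G.gen g1 (Or.inl g2) (E0 := 2 - b') (by omega)
    have K : GSt N (b - E) v (b' + E) y := ⟨b5, b6, b7, b8⟩
    have i3 := i2.trans b11
    have hc : ¬ (2 : ℤ) ∣ b - E := by omega
    have hc' : (b' + E) % 4 = 2 := by omega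
    have hc2' : (2 : ℤ) ∣ b' + E := by omega
    by_cases hex : b' + E ∣ 2 * y
    · -- the exception
      have hy : ¬ (2 : ℤ) ∣ y := fun h => b5.hx2 (Or.inr ⟨hc', h⟩) hex
      obtain ⟨K1, K2⟩ := b5.mirror
      obtain ⟨μ, hμ⟩ := hc2'
      have hμ2 : ¬ (2 : ℤ) ∣ μ := by omega
      have hdiv : b' + E ∣ -y - μ := by
        rw [hμ] at hex ⊢
        have h1 : μ ∣ y := (mul_dvd_mul_iff_left (by norm_num : (2 : ℤ) ≠ 0)).1 hex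
        obtain ⟨t, ht⟩ := h1
        have h2 : ¬ (2 : ℤ) ∣ t := by
          intro h; exact hy (by rw [ht]; exact h.mul_left μ)
        obtain ⟨t', ht'⟩ : (2 : ℤ) ∣ -t - 1 := by omega
        exact ⟨t', by rw [ht]; linear_combination μ * ht'⟩
      obtain ⟨S, s0, s1, s2, s3, s4, s5, s6, s7, s8⟩ := hB.pack
      have hJ0 : (0 : ℤ) ≤ (J : ℤ) ^ 4 := by positivity
      have hJ2 : (J : ℤ) ^ 2 ≤ (J : ℤ) ^ 4 := hB.pw (by norm_num)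
      have hJ22 : (0 : ℤ) ≤ (J : ℤ) ^ 2 := by positivity
      obtain ⟨d, d', u, t, k1, k2, k3, k4, k5, k6, k7, k8, k9⟩ := KC.lastE (x := -v) hB.cap s7 s8
        hμ K1.hN (b7.mirror b5.hN) hμ2 (by linarith [K1.ha]) hc (by linarith) hdiv b8.neg
        (by rw [neg_neg]; exact K1.ok)
      rw [neg_neg] at k9
      have e1 := b5.hN
      have hd : d % 4 = 2 := by omega
      have hd' : ¬ (2 : ℤ) ∣ d' := by omega
      exact ⟨_, (i3.trans K2).trans k9, Or.inr (Or.inr ⟨d, u, d', t, rfl, k9.ok',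
        Or.inr (Or.inr (Or.inr ⟨rfl, rfl, hd, hd'⟩)), k1, k2, by linarith, by linarith, k6, k7,
        fun _ => by omega, fun h => absurd h hd'⟩)⟩
    · obtain ⟨d, d', u, t, k1, k2, k3, k4, k5, k6, k7, k8, k9, k10⟩ := K.last hB b3 b4
        (Or.inl hc) (Or.inr hc') (fun h => absurd h hc) hex
      have hJ4 : (0 : ℤ) < (J : ℤ) ^ 4 := by
        have : (2 : ℤ) ^ 20 ≤ (J : ℤ) := by exact_mod_cast hB.J0
        have h0 : (0 : ℤ) < (J : ℤ) := by linarith [show (0 : ℤ) < 2 ^ 20 by norm_num]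
        positivity
      have hd : ¬ (2 : ℤ) ∣ d := by omega
      have hd' : d' % 4 = 2 := by
        have e1 := b5.hN
        omega
      have D : KSt N d u d' 1 (-t) := ⟨k1, by linarith, by linarith,
        fun l hl _ h2 _ => prime_not_dvd_one hl h2, k10.ok'⟩
      obtain ⟨D1, D2⟩ := D.mirror
      have hty := k9 hc2'
      have e2 : KC d' (-t) (-1) d 1 u = KC d' (-t) (-1) d 1 (-(-u)) := by rw [neg_neg]
      have i4 := (i3.trans k10).trans D2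
      by_cases hy : (2 : ℤ) ∣ y
      · exact ⟨_, i4, Or.inl ⟨d', -t, d, -u, e2, D1.ok,
          Or.inr (Or.inr (Or.inl ⟨rfl, rfl, hd', hd⟩)), D1.hN, k2.mirror k1, k5, k4, k7.neg,
          k6.neg, fun _ => by omega, fun h => absurd h hd⟩⟩
      · exact ⟨_, i4, Or.inr (Or.inr ⟨d', -t, d, -u, e2, D1.ok,
          Or.inr (Or.inr (Or.inr ⟨rfl, rfl, hd', hd⟩)), D1.hN, k2.mirror k1, k5, k4, k7.neg,
          k6.neg, fun _ => by omega, fun h => absurd h hd⟩)⟩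
  · -- `b` even, `b'` odd
    have hb2 : (2 : ℤ) ∣ b := by omega
    obtain ⟨E, v, y, b1, b2, b3, b4, b5, b6, b7, b8, b9, b10, b11⟩ := KSt.bal hB G.toKSt G.toKTy
      G.lev G.gen g1 (Or.inr g2) (E0 := 0) (dvd_zero 2)
    have K : GSt N (b - E) v (b' + E) y := ⟨b5, b6, b7, b8⟩
    have hc : (b - E) % 4 = 2 := by omega
    have hc2 : (2 : ℤ) ∣ b - E := by omega
    have hc' : ¬ (2 : ℤ) ∣ b' + E := by omega
    obtain ⟨d, d', u, t, k1, k2, k3, k4, k5, k6, k7, k8, k9, k10⟩ := K.last hB b3 b4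
      (Or.inr (Or.inl hc)) (Or.inl hc') (fun _ h => absurd h hc') (b5.hx2 (Or.inl hc'))
    have hd : d % 4 = 2 := by omega
    have hd' : ¬ (2 : ℤ) ∣ d' := by
      have e1 := b5.hN
      omega
    have i4 := (i2.trans b11).trans k10
    have hu := k8 hc2
    by_cases hv : (2 : ℤ) ∣ v
    · exact ⟨_, i4, Or.inl ⟨d, u, d', t, rfl, k10.ok',
        Or.inr (Or.inr (Or.inl ⟨rfl, rfl, hd, hd'⟩)), k1, k2, k4, k5, k6,
        k7, fun _ => by omega, fun h => absurd h hd'⟩⟩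
    · exact ⟨_, i4, Or.inr (Or.inr ⟨d, u, d', t, rfl, k10.ok',
        Or.inr (Or.inr (Or.inr ⟨rfl, rfl, hd, hd'⟩)), k1, k2, k4, k5, k6,
        k7, fun _ => by omega, fun h => absurd h hd'⟩)⟩

end Pool.Agent.H4G
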