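import Pool.Agent.H4G.Ctwo.TopT
import Pool.Agent.H4G.Ctwo.Line2k

/-!
# The type `(1, [4,2,0])`: the first move from a left side with a large cusp (helper37)

The `k`-fold exit of LINE-2k (helper26, helper41) with `τ = q - t` even, `t ∈ {1, 3}`, `k ≡ 1`
modulo `16` and `e` odd.
-/

set_option autoImplicit false

namespace Pool.Agent.H4G

/-- the choice of `t` for odd `q` -/
theorem t_choiceT {a a' N q : ℤ} (hN : a + 1 + a' = N) (hq2 : 2 ≤ q) (hqo : ¬ (2 : ℤ) ∣ q)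
    (hqa : q ∣ a) :
    ∃ t : ℤ, 0 < t ∧ t < q ∧ (2 : ℤ) ∣ q - t ∧
      (∀ l : ℕ, l.Prime → l ≠ 2 → (l : ℤ) ∣ t →
        (l : ℤ) ∣ N ∧ ¬ (l : ℤ) ∣ a ∧ ¬ (l : ℤ) ∣ a + 1) ∧
      ((3 : ℤ) ∣ N → ¬ (3 : ℤ) ∣ a → ¬ (3 : ℤ) ∣ a' → ¬ (3 : ℤ) ∣ q - t) ∧
      ((3 : ℤ) ∣ N → (3 : ℤ) ∣ a' → ¬ (3 : ℤ) ∣ t) := by
  by_cases hc : ((3 : ℤ) ∣ N ∧ ¬ (3 : ℤ) ∣ a ∧ ¬ (3 : ℤ) ∣ a') ∧ (3 : ℤ) ∣ q - 1
  · obtain ⟨⟨c1, c2, c3⟩, h1⟩ := hc
    have hq3 : ¬ (3 : ℤ) ∣ q := fun h => c2 (h.trans hqa)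
    refine ⟨3, by norm_num, by omega, by omega, fun l hl hl2 h => ?_, fun _ _ _ => by omega,
      fun _ h => absurd h c3⟩
    have hl3 : l = 3 := by
      have : l ∣ 3 := by exact_mod_cast h
      exact (Nat.prime_dvd_prime_iff_eq hl Nat.prime_three).1 this
    subst hl3
    refine ⟨c1, c2, ?_⟩
    have c1' : (3 : ℤ) ∣ N := c1
    have c3' : ¬ (3 : ℤ) ∣ a' := c3
    intro h
    have h' : (3 : ℤ) ∣ a + 1 := h
    omega
  · exact ⟨1, by norm_num, by omega, by omega,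
      fun l hl hl2 h => absurd h (not_dvd_one' hl), fun h1 h2 h3 h4 => hc ⟨⟨h1, h2, h3⟩, h4⟩,
      fun _ _ => by norm_num⟩

/-- MOVE2, type `(1, [4,2,0])` -/
theorem TIn.move2T {N a z a' p' q' : ℤ} {J Z : ℕ} (hB : Big N J Z) (h : TIn J N a z a' p' q')
    (hg : a < (Int.gcd z a : ℤ) * (J : ℤ) ^ 6) :
    ∃ b p q b' y : ℤ, b % 4 = 2 ∧ ¬ (2 : ℤ) ∣ b' ∧ 0 < b' ∧ b + 1 + b' = N ∧ OC b N ∧
      IsCoprime p b ∧ (2 : ℤ) ∣ q ∧ a ≤ 2 * b ∧
      SEq (KC a z (-1) a' p' q') (KC b p q b' 1 (-y)) := by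
  obtain ⟨g, q, z', ξ, κ, e1, hg0, hq2, haq, hz, hx⟩ := h.toKSt.leftShape
  rw [← e1] at hg
  have hN := h.hN
  have ha' := h.ha'
  have hq0 : 0 < q := by linarith
  have ha : 0 < a := h.ha
  have hN1 : 1 ≤ N := by linarith
  have hqa : q ∣ a := ⟨g, haq⟩
  have hqo : ¬ (2 : ℤ) ∣ q := fun h1 => h.ao (h1.trans hqa)
  obtain ⟨t, t0, tq, t2, t3, t4, t5⟩ := t_choiceT hN hq2 hqo hqa
  have hτ0 : 0 < q - t := by linarith
  obtain ⟨k, k0, k1, k2, k3, k4, k5⟩ := kchoice (p' := p') (q' := q') hN ha ha' hqa hB.cap hB.hZ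
    (fun h1 h2 => h.hP 3 Nat.prime_three h1 h2) (Or.inl rfl : (1 : ℤ) = 1 ∨ (1 : ℤ) = -1) t5 ξ 1
  obtain ⟨i, i1, i2, i3, i4⟩ := line2k_i (τ := q - t) (k := (k : ℤ)) hN ha' hg0 hq0 haq hz hx rfl
    hτ0 (fun l hl _ => h.hP l hl) t3 k3
    (fun l hl hl2 hlq h => k4 l hl hl2 hlq (by
      have e : 1 - (k : ℤ) * t * ξ = 1 - k * (t * ξ) := by ring
      rwa [e]))
    t4
    (fun h1 h2 h3 => k5 h1 h2 (by
      have hq3 : ¬ (3 : ℤ) ∣ q := by
        intro h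
        have h4 : (3 : ℤ) ∣ a := h.trans hqa
        omega
      have hqq : (3 : ℤ) ∣ q * q - 1 := by
        have a1 : q % 3 = 1 ∨ q % 3 = 2 := by omega
        rcases a1 with a1 | a1
        · obtain ⟨m, hm⟩ : ∃ m, q = 3 * m + 1 := ⟨q / 3, by omega⟩
          exact ⟨3 * m * m + 2 * m, by rw [hm]; ring⟩
        · obtain ⟨m, hm⟩ : ∃ m, q = 3 * m + 2 := ⟨q / 3, by omega⟩
          exact ⟨3 * m * m + 4 * m + 1, by rw [hm]; ring⟩
      have h5 := dvd_sub (dvd_add ((dvd_refl (3 : ℤ)).mul_right (q * p'))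
        (hqq.mul_right (q' * (k * t)))) (h3.mul_left q)
      have e : 3 * (q * p') + (q * q - 1) * (q' * (k * t)) - q * (2 * p' + q' * (k * (t * q))) =
          q * p' - 1 * k * t * q' := by ring
      rwa [e] at h5))
    4 (q * (a - 2 - (q - t) * ξ)) (1 - (q - t) * ξ / q)
  -- sizes
  have hdm := Int.emod_add_mul_ediv ((q - t) * ξ) q
  have hm0 := Int.emod_nonneg ((q - t) * ξ) hq0.ne'
  have hm1 := Int.emod_lt_of_pos ((q - t) * ξ) hq0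
  have hτ1 : 1 ≤ q - t := hτ0
  have hh : (q - t) * g + 1 ≤ a := by rw [haq]; nlinarith
  have hcard : (8 : ℤ) ^ (a * a' * N * (q - t) * (1 + (q - t) * g)).natAbs.primeFactors.card ≤
      (J : ℤ) ^ 2 := by
    have k5 : 0 < 1 + (q - t) * g := by positivity
    have h5 : a * a' * N * (q - t) * (1 + (q - t) * g) ≤ N ^ 5 := by
      have k1 : a ≤ N := by linarith
      have k2 : a' ≤ N := by linarith
      have k3 : q - t ≤ N := by nlinarith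
      have k4 : 1 + (q - t) * g ≤ N := by linarith
      calc a * a' * N * (q - t) * (1 + (q - t) * g) ≤ N * N * N * N * N := by gcongr
        _ = N ^ 5 := by ring
    have h6 : 0 < a * a' * N * (q - t) * (1 + (q - t) * g) := by positivity
    have h7 : N ^ 5 ≤ (2 * N) ^ 20 := by
      calc N ^ 5 ≤ (2 * N) ^ 5 := pow_le_pow_left₀ (by linarith) (by linarith) 5
        _ ≤ (2 * N) ^ 20 := pow_le_pow_right₀ (by linarith) (by norm_num)
    have hZ := hB.hZ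
    exact hB.cap.eight (by omega) (by omega)
  have he0 : q ≤ (q - t) * ξ + i * q := by nlinarith
  have hi' : i ≤ -((q - t) * ξ / q) + 16 * (J : ℤ) ^ 2 := by
    have : i < 1 - (q - t) * ξ / q + 2 ^ 4 * 8 ^ _ := i2
    linarith
  have he1 : (q - t) * ξ + i * q ≤ 2 * q + 16 * (J : ℤ) ^ 2 * q := by
    have := mul_le_mul_of_nonneg_right hi' hq0.le
    nlinarith
  have hJ : (2 : ℤ) ^ 20 ≤ (J : ℤ) := by exact_mod_cast hB.J0
  have hJ0 : (0 : ℤ) < (J : ℤ) := by linarith [show (0 : ℤ) < 2 ^ 20 by norm_num]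
  have hqJ : q < (J : ℤ) ^ 6 := by
    rw [haq, mul_comm q g] at hg
    exact lt_of_mul_lt_mul_left hg hg0.le
  have hgJ : (J : ℤ) ^ 24 ≤ g := by
    have h1 : (J : ℤ) ^ 24 * (J : ℤ) ^ 12 ≤ g * (J : ℤ) ^ 12 := by
      have e1 : (J : ℤ) ^ 24 * (J : ℤ) ^ 12 ≤ (J : ℤ) ^ 200 := by
        rw [← pow_add]
        exact pow_le_pow_right₀ (by linarith) (by norm_num)
      have e2 : a * (J : ℤ) ^ 6 ≤ g * (J : ℤ) ^ 12 := by
        have e3 : g * (J : ℤ) ^ 12 = g * (J : ℤ) ^ 6 * (J : ℤ) ^ 6 := by ring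
        rw [e3]
        exact mul_le_mul_of_nonneg_right hg.le (by positivity)
      exact e1.trans (hB.hN.trans (h.big.trans e2))
    exact le_of_mul_le_mul_right h1 (by positivity)
  have hep : 0 < (q - t) * ξ + i * q := by linarith
  obtain ⟨m1, m2⟩ := line2k_sizes hJ haq hq0 hqJ hgJ k1 hep he1
  have hτg : g ≤ (q - t) * g := by
    have : 1 * g ≤ (q - t) * g := mul_le_mul_of_nonneg_right hτ1 hg0.le
    linarith
  have hk0 : (0 : ℤ) < k := by exact_mod_cast k0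
  have hke0 : 0 < (k : ℤ) * ((q - t) * ξ + i * q) := mul_pos hk0 hep
  -- the class modulo `4`
  have h4 : (a - k * ((q - t) * ξ + i * q)) % 4 = 2 := by
    have f1 : (4 : ℤ) ∣ (k : ℤ) - 1 := (show (4 : ℤ) ∣ 16 by norm_num).trans k2
    have f2 : (4 : ℤ) ∣ i - q * (a - 2 - (q - t) * ξ) := by
      have e4 : ((2 : ℤ) ^ 4) = 16 := by norm_num
      rw [e4] at i3
      exact (show (4 : ℤ) ∣ 16 by norm_num).trans i3
    have f3 : (4 : ℤ) ∣ q * q - 1 := by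
      have a1 : q % 4 = 1 ∨ q % 4 = 3 := by omega
      rcases a1 with a1 | a1
      · obtain ⟨m, hm⟩ : ∃ m, q = 4 * m + 1 := ⟨q / 4, by omega⟩
        exact ⟨4 * m * m + 2 * m, by rw [hm]; ring⟩
      · obtain ⟨m, hm⟩ : ∃ m, q = 4 * m + 3 := ⟨q / 4, by omega⟩
        exact ⟨4 * m * m + 6 * m + 2, by rw [hm]; ring⟩
    have f4 : (4 : ℤ) ∣ (k * ((q - t) * ξ + i * q)) - (a - 2) := by
      have e1 : (k * ((q - t) * ξ + i * q)) - (a - 2) =
          (k - 1) * ((q - t) * ξ + i * q) + (i - q * (a - 2 - (q - t) * ξ)) * q +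
            (q * q - 1) * (a - 2 - (q - t) * ξ) := by ring
      rw [e1]
      exact dvd_add (dvd_add (f1.mul_right _) (f2.mul_right _)) (f3.mul_right _)
    omega
  obtain ⟨p1, q1, y, n1, n2, n3, n4, n5, n6, n7, n8⟩ := KSt.exitFinT (s := 1) k h.toKSt h.ao h.ae
    h.pe (Or.inl rfl) hep.le (lt_of_lt_of_le m1 hτg) (lt_of_lt_of_le hg0 hτg) (by linarith)
    (j := (q - t) * κ - i * z')
    (by rw [hz, haq]; linear_combination (-((q - t) * g)) * hx) h4 (t2.mul_right g)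
    (fun l hl hl2 => (i4 l hl hl2).1)
  refine ⟨_, p1, q1, _, y, n1, n2, n3, n4, n5, n6, n7, ?_, n8⟩
  have m3 : k * ((q - t) * ξ + i * q) * 2 ≤ k * ((q - t) * ξ + i * q) * (J : ℤ) :=
    mul_le_mul_of_nonneg_left (by linarith) hke0.le
  linarith

end Pool.Agent.H4G
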