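import Pool.Agent.H4G.Ctwo.Move1T
import Pool.Agent.H4G.Ctwo.Move2T

/-!
# The type `(1, [4,2,0])`: every state reaches a generic state (helper37)
-/

set_option autoImplicit false

namespace Pool.Agent.H4G

/-- the integer square root bound -/
theorem g1420_num {J N b : ℤ} (hJ : 2 ^ 20 ≤ J) (hN : J ^ 200 ≤ N) (hb : N ≤ 2 * b * J ^ 6) :
    ∃ S : ℤ, 0 ≤ S ∧ N ≤ S ^ 2 ∧ 2 ^ 8 * S * J ^ 4 ≤ b := by
  have hJ0 : 0 < J := by linarith [show (0 : ℤ) < 2 ^ 20 by norm_num]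
  have hJ1 : 1 ≤ J := by linarith
  have hN1 : 1 ≤ N := le_trans (one_le_pow₀ hJ1) hN
  have hNn : ((N.toNat : ℕ) : ℤ) = N := Int.toNat_of_nonneg (by linarith)
  have h1 : ((Nat.sqrt N.toNat : ℕ) : ℤ) ^ 2 ≤ N := by
    have h := Nat.sqrt_le' N.toNat
    have h' : (((Nat.sqrt N.toNat) ^ 2 : ℕ) : ℤ) ≤ (N.toNat : ℤ) := by exact_mod_cast h
    rw [hNn] at h'
    exact_mod_cast h'
  have h2 : N < ((Nat.sqrt N.toNat : ℕ) + 1 : ℤ) ^ 2 := by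
    have h := Nat.lt_succ_sqrt' N.toNat
    have h' : ((N.toNat : ℕ) : ℤ) < (((Nat.sqrt N.toNat).succ ^ 2 : ℕ) : ℤ) := by
      exact_mod_cast h
    rw [hNn] at h'
    push_cast at h'
    exact h'
  set T : ℤ := ((Nat.sqrt N.toNat : ℕ) : ℤ) with hT
  have hT0 : 0 ≤ T := by rw [hT]; exact Int.natCast_nonneg _
  have hT1 : 1 ≤ T := by
    by_contra h
    have h3 : T = 0 := by omega
    rw [h3] at h2
    norm_num at h2
    linarith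
  refine ⟨T + 1, by linarith, h2.le, ?_⟩
  by_contra hn
  push Not at hn
  have h3 : T ^ 2 < 2 ^ 10 * T * J ^ 10 := by
    calc T ^ 2 ≤ N := h1
      _ ≤ 2 * b * J ^ 6 := hb
      _ < 2 * (2 ^ 8 * (T + 1) * J ^ 4) * J ^ 6 := by
          have : 2 * b < 2 * (2 ^ 8 * (T + 1) * J ^ 4) := by linarith
          exact mul_lt_mul_of_pos_right this (by positivity)
      _ = (2 ^ 9 * J ^ 10) * (T + 1) := by ring
      _ ≤ (2 ^ 9 * J ^ 10) * (2 * T) := mul_le_mul_of_nonneg_left (by linarith) (by positivity)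
      _ = 2 ^ 10 * T * J ^ 10 := by ring
  have h4 : T < 2 ^ 10 * J ^ 10 := by
    have e1 : T * T < T * (2 ^ 10 * J ^ 10) := by
      have e2 : T ^ 2 = T * T := by ring
      have e3 : 2 ^ 10 * T * J ^ 10 = T * (2 ^ 10 * J ^ 10) := by ring
      rwa [e2, e3] at h3
    exact lt_of_mul_lt_mul_left e1 hT0
  have h5 : 2 ^ 10 * J ^ 10 ≤ J * J ^ 10 :=
    mul_le_mul_of_nonneg_right (by linarith [show (2 : ℤ) ^ 10 ≤ 2 ^ 20 by norm_num])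
      (by positivity)
  have h6 : T + 1 ≤ J ^ 11 := by
    have e1 : J * J ^ 10 = J ^ 11 := by ring
    rw [e1] at h5
    linarith
  have h7 : (T + 1) ^ 2 ≤ (J ^ 11) ^ 2 := pow_le_pow_left₀ (by linarith) h6 2
  have h8 : (J ^ 11) ^ 2 ≤ J ^ 200 := by
    rw [← pow_mul]
    exact pow_le_pow_right₀ hJ1 (by norm_num)
  linarith

/-- **type `(1, [4,2,0])`**: every K-state with content `1` and `d = 1` reaches a generic state -/
theorem KSt.g1420 {J Z : ℕ} {N a z a' p' q' : ℤ} (B : Big N J Z) (S : KSt N a z a' p' q')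
    (ha2 : ¬ (2 : ℤ) ∣ a) (ha'2 : (2 : ℤ) ∣ a') (hp2 : (2 : ℤ) ∣ p') :
    ∃ G, SEq (KC a z (-1) a' p' q') G ∧ GenT J N G := by
  obtain ⟨a1, z1, a1', p1, q1, T, k1⟩ := KSt.topT B S ha2 ha'2 hp2
  have hJ : (2 : ℤ) ^ 20 ≤ (J : ℤ) := by exact_mod_cast B.J0
  have hJ1 : (1 : ℤ) ≤ J := by linarith [show (1 : ℤ) ≤ 2 ^ 20 by norm_num]
  obtain ⟨b, p, q, b', y, h1, h2, h3, h4, h5, h6, h7, h8, h9⟩ :
      ∃ b p q b' y : ℤ, b % 4 = 2 ∧ ¬ (2 : ℤ) ∣ b' ∧ 0 < b' ∧ b + 1 + b' = N ∧ OC b N ∧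
        IsCoprime p b ∧ (2 : ℤ) ∣ q ∧ a1 ≤ 2 * b ∧
        SEq (KC a1 z1 (-1) a1' p1 q1) (KC b p q b' 1 (-y)) := by
    by_cases hg : (Int.gcd z1 a1 : ℤ) * (J : ℤ) ^ 6 ≤ a1
    · exact T.move1T B hg
    · exact T.move2T B (by linarith)
  have hN : N ≤ 2 * b * (J : ℤ) ^ 6 :=
    T.big.trans (mul_le_mul_of_nonneg_right h8 (by positivity))
  obtain ⟨R, r1, r2, r3⟩ := g1420_num hJ B.hN hN
  have hN1 : 1 ≤ N := le_trans (one_le_pow₀ hJ1) B.hN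
  have hZ : (2 * N) ^ 8 ≤ (Z : ℤ) :=
    (pow_le_pow_right₀ (by linarith) (by norm_num)).trans B.hZ
  have hJn : 1 ≤ J := by exact_mod_cast hJ1
  obtain ⟨G, m1, m2⟩ := KC.t1420 B.cap hZ hJn r1 r2 h1 h2 h3 h4 h5 r3 h6 h7
    (SEq.ok' (k1.trans h9))
  exact ⟨G, (k1.trans h9).trans m1, m2⟩

end Pool.Agent.H4G
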