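import Pool.Agent.H4G.Ctwo.Sieve3

/-!
# LINE-1: the explicit line of exits `e = q y`, `h = a - g y` (helper62)

Pure arithmetic. `(-s q, g)` lies in `L = {Y = z X mod a}`: `g + s q z = κ a`. The exit vector is
`(s e, h)` with `h = s e z + j a`, `j = 1 - κ y`.
-/

set_option autoImplicit false

namespace Pool.Agent.H4G

/-- the local conditions of an exit `(e, h, j)` from `L = {Y = z X mod a}` with the right lattice
`{p' X + q' Y = 0 mod a'}`, at the prime `l` -/
structure ExC (l : ℕ) (a a' N z s p' q' e h j : ℤ) : Prop where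
  prim : ¬ ((l : ℤ) ∣ e ∧ (l : ℤ) ∣ j)
  cont : ¬ ((l : ℤ) ∣ 1 + e ∧ (l : ℤ) ∣ 1 + h)
  lev : (l : ℤ) ∣ N → ¬ (l : ℤ) ∣ a - e
  lev' : (l : ℤ) ∣ N → ¬ (l : ℤ) ∣ a - e + 1
  free : (l : ℤ) ∣ a' → ¬ (l : ℤ) ∣ a + 1 → ¬ (l : ℤ) ∣ 1 + e
  froz : (l : ℤ) ∣ a' → (l : ℤ) ∣ a + 1 → ¬ (l : ℤ) ∣ p' * (1 + e) + q' * (s * (1 + h))
  cusp : (l : ℤ) ∣ a - e → ¬ (l : ℤ) ∣ z + s * (j - 1)

theorem not_dvd_one' {l : ℕ} (hl : l.Prime) : ¬ (l : ℤ) ∣ 1 := by
  intro h
  have h1 : (l : ℤ) ≤ 1 := Int.le_of_dvd one_pos h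
  have h2 : (1 : ℤ) < l := by exact_mod_cast hl.one_lt
  linarith

/-- three classes never cover if `5 ≤ l` -/
theorem avoid3 {l : ℕ} (h5 : 5 ≤ l) (r1 r2 r3 : ℤ) :
    ∃ x : ℤ, ¬ (l : ℤ) ∣ x - r1 ∧ ¬ (l : ℤ) ∣ x - r2 ∧ ¬ (l : ℤ) ∣ x - r3 := by
  have small : ∀ d : ℤ, 0 < d → d < 5 → ¬ (l : ℤ) ∣ d := by
    intro d h1 h2 h3
    have := Int.le_of_dvd h1 h3
    have h6 : (5 : ℤ) ≤ l := by exact_mod_cast h5
    linarith
  have key : ∀ r : ℤ, ∃ m : ℤ, ∀ x, 0 ≤ x → x ≤ 3 → x ≠ m → ¬ (l : ℤ) ∣ x - r := by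
    intro r
    by_cases h : ∃ m : ℤ, 0 ≤ m ∧ m ≤ 3 ∧ (l : ℤ) ∣ m - r
    · obtain ⟨m, h1, h2, h3⟩ := h
      refine ⟨m, fun x k1 k2 k3 k4 => ?_⟩
      rcases lt_or_gt_of_ne k3 with h | h
      · have h9 := dvd_sub h3 k4
        have e : m - r - (x - r) = m - x := by ring
        rw [e] at h9
        exact small _ (by linarith) (by linarith) h9
      · have h9 := dvd_sub k4 h3
        have e : x - r - (m - r) = x - m := by ring
        rw [e] at h9
        exact small _ (by linarith) (by linarith) h9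
    · push Not at h
      exact ⟨4, fun x k1 k2 _ => h x k1 k2⟩
  obtain ⟨m1, h1⟩ := key r1
  obtain ⟨m2, h2⟩ := key r2
  obtain ⟨m3, h3⟩ := key r3
  obtain ⟨x, x0, x3, n1, n2, n3⟩ : ∃ x : ℤ, 0 ≤ x ∧ x ≤ 3 ∧ x ≠ m1 ∧ x ≠ m2 ∧ x ≠ m3 := by
    by_contra hcon
    push Not at hcon
    have a0 := hcon 0
    have a1 := hcon 1
    have a2 := hcon 2
    have a3 := hcon 3
    omega
  exact ⟨x, h1 x x0 x3 n1, h2 x x0 x3 n2, h3 x x0 x3 n3⟩

/-- residues modulo `3` -/
theorem three_cases {q x : ℤ} (hq : ¬ (3 : ℤ) ∣ q) (h1 : ¬ (3 : ℤ) ∣ x) (h2 : ¬ (3 : ℤ) ∣ x + q) :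
    (3 : ℤ) ∣ x - q := by
  have a1 : q % 3 = 1 ∨ q % 3 = 2 := by omega
  have a2 : x % 3 = 1 ∨ x % 3 = 2 := by omega
  rcases a1 with a1 | a1 <;> rcases a2 with a2 | a2 <;> omega

/-- the determinant of the two forms of the cusp condition -/
theorem line1_cusp {l : ℕ} {a z g q κ s y : ℤ} (hs : s = 1 ∨ s = -1)
    (hk : g + s * q * z = κ * a) (h1 : (l : ℤ) ∣ a - q * y)
    (h2 : (l : ℤ) ∣ z + s * (1 - κ * y - 1)) : (l : ℤ) ∣ g := by
  have h3 : (l : ℤ) ∣ q * (z + s * (1 - κ * y - 1)) - s * κ * (a - q * y) :=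
    dvd_sub (h2.mul_left _) (h1.mul_left _)
  have h4 : q * (z + s * (1 - κ * y - 1)) - s * κ * (a - q * y) = q * z - s * (κ * a) := by ring
  rw [h4, ← hk] at h3
  rcases hs with rfl | rfl
  · have e : q * z - 1 * (g + 1 * q * z) = -g := by ring
    rw [e] at h3
    exact (dvd_neg).1 h3
  · have e : q * z - -1 * (g + -1 * q * z) = g := by ring
    rw [e] at h3
    exact h3

/-- LINE-1, the local statement at one odd prime -/
theorem line1_loc {l : ℕ} (hl : l.Prime) (hl2 : l ≠ 2) {a a' N z g q κ s p' q' : ℤ}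
    (hN : a + 1 + a' = N) (hga : g ∣ a) (hs : s = 1 ∨ s = -1)
    (hk : g + s * q * z = κ * a)
    (hq : (l : ℤ) ∣ q → ¬ (l : ℤ) ∣ a ∧ ¬ (l : ℤ) ∣ a' ∧ ¬ (l : ℤ) ∣ N)
    (hp : (l : ℤ) ∣ a' → (l : ℤ) ∣ p' → ¬ (l : ℤ) ∣ q')
    (h3a : (3 : ℤ) ∣ N → (3 : ℤ) ∣ a → ¬ (3 : ℤ) ∣ g + q)
    (h3b : (3 : ℤ) ∣ N → (3 : ℤ) ∣ a' → ¬ (3 : ℤ) ∣ 2 * p' - q' * s * g * q) :
    ∃ r1 r2 r3 : ℤ,
      (∀ y : ℤ, ¬ (l : ℤ) ∣ y - r1 → ¬ (l : ℤ) ∣ y - r2 → ¬ (l : ℤ) ∣ y - r3 →
        ExC l a a' N z s p' q' (q * y) (a - g * y) (1 - κ * y)) ∧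
      ∃ y : ℤ, ¬ (l : ℤ) ∣ y - r1 ∧ ¬ (l : ℤ) ∣ y - r2 ∧ ¬ (l : ℤ) ∣ y - r3 := by
  have hpl := Nat.prime_iff_prime_int.1 hl
  have h1l := not_dvd_one' hl
  have hga' : (l : ℤ) ∣ g → (l : ℤ) ∣ a := fun h => h.trans hga
  by_cases hlq : (l : ℤ) ∣ q
  · -- `l ∣ q`
    obtain ⟨hq1, hq2, hq3⟩ := hq hlq
    obtain ⟨r, hr⟩ := lin_class hl (α := 1) (β := -κ) (fun _ => h1l)
    obtain ⟨x, hx1, hx2⟩ := avoid2 hl hl2 r r
    refine ⟨r, r, r, fun y hy _ _ => ?_, x, hx1, hx1, hx1⟩
    have hqy : (l : ℤ) ∣ q * y := hlq.mul_right y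
    refine ⟨fun h => ?_, fun h => ?_, fun h => absurd h hq3, fun h => absurd h hq3,
      fun h => absurd h hq2, fun h => absurd h hq2, fun h _ => ?_⟩
    · have e : 1 - κ * y = 1 + -κ * y := by ring
      rw [e] at h
      exact hr y hy h.2
    · exact h1l (by have := dvd_sub h.1 hqy; rwa [add_sub_cancel_right] at this)
    · exact hq1 (by have := dvd_add h hqy; rwa [sub_add_cancel] at this)
  · have prim : ∀ y : ℤ, ¬ ((l : ℤ) ∣ q * y ∧ (l : ℤ) ∣ 1 - κ * y) := by
      rintro y ⟨h1, h2⟩
      have h3 : (l : ℤ) ∣ y := (hpl.dvd_or_dvd h1).resolve_left hlq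
      have h4 := dvd_add h2 (h3.mul_left κ)
      rw [sub_add_cancel] at h4
      exact h1l h4
    by_cases hlN : (l : ℤ) ∣ N
    · by_cases hl3 : l = 3
      · -- `l = 3 ∣ N`
        subst hl3
        have hq3 : ¬ (3 : ℤ) ∣ q := hlq
        have hN3 : (3 : ℤ) ∣ N := hlN
        have hqq : (3 : ℤ) ∣ q * q - 1 := by
          have a1 : q % 3 = 1 ∨ q % 3 = 2 := by omega
          rcases a1 with a1 | a1
          · obtain ⟨m, hm⟩ : ∃ m, q = 3 * m + 1 := ⟨q / 3, by omega⟩
            exact ⟨3 * m * m + 2 * m, by rw [hm]; ring⟩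
          · obtain ⟨m, hm⟩ : ∃ m, q = 3 * m + 2 := ⟨q / 3, by omega⟩
            exact ⟨3 * m * m + 4 * m + 1, by rw [hm]; ring⟩
        by_cases h3 : (3 : ℤ) ∣ a
        · -- `a = 0`: `y = -q`
          have hgq := h3a hN3 h3
          have ha' : ¬ (3 : ℤ) ∣ a' := by omega
          refine ⟨0, q, 0, fun y h1 h2 _ => ?_, -q, ?_, ?_, ?_⟩
          · have h1' : ¬ (3 : ℤ) ∣ y := by simpa using h1
            have h2' : ¬ (3 : ℤ) ∣ y + -q := h2
            have hy : (3 : ℤ) ∣ y + q := by
              have := three_cases (q := -q) (x := y) (by omega) h1' h2'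
              rwa [sub_neg_eq_add] at this
            have hqy : (3 : ℤ) ∣ q * y + 1 := by
              have k1 := hy.mul_left q
              have k2 := dvd_sub k1 hqq
              have e : q * (y + q) - (q * q - 1) = q * y + 1 := by ring
              rwa [e] at k2
            refine ⟨prim y, ?_, fun _ h => ?_, fun _ h => ?_, fun h => absurd h ha',
              fun h => absurd h ha', fun h _ => ?_⟩
            · rintro ⟨_, h5⟩
              have h5' : (3 : ℤ) ∣ 1 + (a - g * y) := h5
              -- `1 - g y = 1 + g q`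
              have k1 : (3 : ℤ) ∣ 1 + g * q := by
                have k2 := dvd_sub h5' h3
                have k3 := dvd_add k2 (hy.mul_left g)
                have e : 1 + (a - g * y) - a + g * (y + q) = 1 + g * q := by ring
                rwa [e] at k3
              apply hgq
              have k4 := dvd_sub (k1.mul_left q) (hqq.mul_left g)
              have e : q * (1 + g * q) - g * (q * q - 1) = g + q := by ring
              rwa [e] at k4
            · have h' : (3 : ℤ) ∣ a - q * y := h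
              omega
            · have h' : (3 : ℤ) ∣ a - q * y + 1 := h
              omega
            · have h' : (3 : ℤ) ∣ a - q * y := h
              omega
          · rw [sub_zero]; intro h; exact hq3 ((dvd_neg).1 h)
          · intro h
            have h' : (3 : ℤ) ∣ -q - q := h
            omega
          · rw [sub_zero]; intro h; exact hq3 ((dvd_neg).1 h)
        · by_cases h3' : (3 : ℤ) ∣ a'
          · -- `a = -1`: `y = q`
            have hb := h3b hN3 h3'
            refine ⟨0, -q, 0, fun y h1 h2 _ => ?_, q, ?_, ?_, ?_⟩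
            · have h1' : ¬ (3 : ℤ) ∣ y := by simpa using h1
              have h2' : ¬ (3 : ℤ) ∣ y + q := by
                intro h; exact h2 (by rw [sub_neg_eq_add]; exact h)
              have hy : (3 : ℤ) ∣ y - q := three_cases hq3 h1' h2'
              have hqy : (3 : ℤ) ∣ q * y - 1 := by
                have k2 := dvd_add (hy.mul_left q) hqq
                have e : q * (y - q) + (q * q - 1) = q * y - 1 := by ring
                rwa [e] at k2
              have froz : ¬ (3 : ℤ) ∣ p' * (1 + q * y) + q' * (s * (1 + (a - g * y))) := by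
                intro h
                apply hb
                have k1 : (3 : ℤ) ∣ a + 1 := by omega
                have k2 := dvd_sub (dvd_sub h (hqy.mul_left p')) (k1.mul_left (q' * s))
                have k3 := dvd_add k2 (hy.mul_left (q' * s * g))
                have e : p' * (1 + q * y) + q' * (s * (1 + (a - g * y))) - p' * (q * y - 1) -
                    q' * s * (a + 1) + q' * s * g * (y - q) = 2 * p' - q' * s * g * q := by ring
                rwa [e] at k3
              refine ⟨prim y, ?_, fun _ h => ?_, fun _ h => ?_, fun h k => ?_,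
                fun _ _ => froz, fun h _ => ?_⟩
              · rintro ⟨h5, h6⟩
                have h5' : (3 : ℤ) ∣ 1 + q * y := h5
                omega
              · have h' : (3 : ℤ) ∣ a - q * y := h
                omega
              · have h' : (3 : ℤ) ∣ a - q * y + 1 := h
                omega
              · exfalso
                have k' : ¬ (3 : ℤ) ∣ a + 1 := k
                omega
              · have h' : (3 : ℤ) ∣ a - q * y := h
                omega
            · rw [sub_zero]; exact hq3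
            · intro h
              have h' : (3 : ℤ) ∣ q - -q := h
              omega
            · rw [sub_zero]; exact hq3
          · -- `a = 1`: `y = 0`
            refine ⟨q, -q, q, fun y h1 h2 _ => ?_, 0, ?_, ?_, ?_⟩
            · have h2' : ¬ (3 : ℤ) ∣ y + q := by
                intro h; exact h2 (by rw [sub_neg_eq_add]; exact h)
              have h1' : ¬ (3 : ℤ) ∣ y - q := h1
              have hy : (3 : ℤ) ∣ y := by
                by_contra hy
                exact h1' (three_cases hq3 hy h2')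
              have hqy : (3 : ℤ) ∣ q * y := hy.mul_left q
              refine ⟨prim y, ?_, fun _ h => ?_, fun _ h => ?_, fun h => absurd h h3',
                fun h => absurd h h3', fun h _ => ?_⟩
              · rintro ⟨h5, _⟩
                have h5' : (3 : ℤ) ∣ 1 + q * y := h5
                omega
              · have h' : (3 : ℤ) ∣ a - q * y := h
                omega
              · have h' : (3 : ℤ) ∣ a - q * y + 1 := h
                omega
              · have h' : (3 : ℤ) ∣ a - q * y := h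
                omega
            · intro h
              have h' : (3 : ℤ) ∣ 0 - q := h
              omega
            · intro h
              have h' : (3 : ℤ) ∣ 0 - -q := h
              omega
            · intro h
              have h' : (3 : ℤ) ∣ 0 - q := h
              omega
      · -- `5 ≤ l ∣ N`
        have h5 : 5 ≤ l := by
          have h2 := hl.two_le
          by_contra hcon
          have : l = 4 := by omega
          subst this
          revert hl; norm_num
        obtain ⟨r1, hr1⟩ := lin_class hl (α := a) (β := -q) (fun h => absurd ((dvd_neg).1 h) hlq)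
        obtain ⟨r2, hr2⟩ := lin_class hl (α := a + 1) (β := -q)
          (fun h => absurd ((dvd_neg).1 h) hlq)
        by_cases hla' : (l : ℤ) ∣ a'
        · have hla : (l : ℤ) ∣ a + 1 := by
            have := dvd_sub hlN hla'
            rw [← hN, add_sub_cancel_right] at this
            exact this
          have hlg : ¬ (l : ℤ) ∣ g := by
            intro h
            have := dvd_sub hla (hga' h)
            rw [add_sub_cancel_left] at this
            exact h1l this
          obtain ⟨r3, hr3⟩ := lin_class hl (α := p' + q' * s * (1 + a)) (β := p' * q - q' * s * g)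
            (fun h h' => by
              have k1 : (l : ℤ) ∣ p' := by
                have := dvd_sub h' (hla.mul_left (q' * s))
                have e : p' + q' * s * (1 + a) - q' * s * (a + 1) = p' := by ring
                rwa [e] at this
              have k2 : (l : ℤ) ∣ q' * s * g := by
                have := dvd_sub (k1.mul_right q) h
                have e : p' * q - (p' * q - q' * s * g) = q' * s * g := by ring
                rwa [e] at this
              have k3 := (hpl.dvd_or_dvd k2).resolve_right hlg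
              have k4 : (l : ℤ) ∣ q' := by
                rcases hs with rfl | rfl
                · simpa using k3
                · simpa using k3
              exact hp hla' k1 k4)
          obtain ⟨x, hx1, hx2, hx3⟩ := avoid3 h5 r1 r2 r3
          refine ⟨r1, r2, r3, fun y h1 h2 h3 => ?_, x, hx1, hx2, hx3⟩
          have f1 : ¬ (l : ℤ) ∣ a - q * y := by
            have := hr1 y h1
            have e : a + -q * y = a - q * y := by ring
            rwa [e] at this
          have f2 : ¬ (l : ℤ) ∣ a - q * y + 1 := by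
            have := hr2 y h2
            have e : a + 1 + -q * y = a - q * y + 1 := by ring
            rwa [e] at this
          have f3 : ¬ (l : ℤ) ∣ p' * (1 + q * y) + q' * (s * (1 + (a - g * y))) := by
            have := hr3 y h3
            have e : p' + q' * s * (1 + a) + (p' * q - q' * s * g) * y =
              p' * (1 + q * y) + q' * (s * (1 + (a - g * y))) := by ring
            rwa [e] at this
          refine ⟨prim y, fun h => ?_, fun _ => f1, fun _ => f2, fun _ h => absurd hla h,
            fun _ _ => f3, fun h => absurd h f1⟩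
          exact f3 (dvd_add (h.1.mul_left _) ((h.2.mul_left s).mul_left q'))
        · obtain ⟨r3, hr3⟩ := lin_class hl (α := 1) (β := q) (fun _ => h1l)
          obtain ⟨x, hx1, hx2, hx3⟩ := avoid3 h5 r1 r2 r3
          refine ⟨r1, r2, r3, fun y h1 h2 h3 => ?_, x, hx1, hx2, hx3⟩
          have f1 : ¬ (l : ℤ) ∣ a - q * y := by
            have := hr1 y h1
            have e : a + -q * y = a - q * y := by ring
            rwa [e] at this
          have f2 : ¬ (l : ℤ) ∣ a - q * y + 1 := by
            have := hr2 y h2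
            have e : a + 1 + -q * y = a - q * y + 1 := by ring
            rwa [e] at this
          exact ⟨prim y, fun h => hr3 y h3 h.1, fun _ => f1, fun _ => f2, fun h => absurd h hla',
            fun h => absurd h hla', fun h => absurd h f1⟩
    · -- `l` does not divide `N`
      obtain ⟨r2, hr2⟩ := lin_class hl (α := 1) (β := q) (fun _ => h1l)
      obtain ⟨x, hx1, hx2⟩ := avoid2 hl hl2 0 r2
      refine ⟨0, r2, 0, fun y h1 h2 _ => ?_, x, hx1, hx2, hx1⟩
      rw [sub_zero] at h1
      refine ⟨prim y, fun h => hr2 y h2 h.1, fun h => absurd h hlN, fun h => absurd h hlN,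
        fun _ _ => hr2 y h2, fun k1 k2 => ?_, fun k1 k2 => ?_⟩
      · exfalso
        apply hlN
        rw [← hN]
        exact dvd_add k2 k1
      · have k3 := line1_cusp hs hk k1 k2
        have k4 : (l : ℤ) ∣ q * y := by
          have := dvd_sub (hga' k3) k1
          rwa [sub_sub_cancel] at this
        exact h1 ((hpl.dvd_or_dvd k4).resolve_left hlq)

/-- LINE-1 -/
theorem line1 {a a' N z g q κ s p' q' : ℤ} (hN : a + 1 + a' = N) (ha : 0 < a) (ha' : 0 < a')
    (hg : 0 < g) (hga : g ∣ a) (hq0 : 0 < q) (hs : s = 1 ∨ s = -1)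
    (hk : g + s * q * z = κ * a)
    (hq : ∀ l : ℕ, l.Prime → l ≠ 2 → (l : ℤ) ∣ q →
      ¬ (l : ℤ) ∣ a ∧ ¬ (l : ℤ) ∣ a' ∧ ¬ (l : ℤ) ∣ N)
    (hp : ∀ l : ℕ, l.Prime → l ≠ 2 → (l : ℤ) ∣ a' → (l : ℤ) ∣ p' → ¬ (l : ℤ) ∣ q')
    (h3a : (3 : ℤ) ∣ N → (3 : ℤ) ∣ a → ¬ (3 : ℤ) ∣ g + q)
    (h3b : (3 : ℤ) ∣ N → (3 : ℤ) ∣ a' → ¬ (3 : ℤ) ∣ 2 * p' - q' * s * g * q)
    (n : ℕ) (c0 s0 : ℤ) :
    ∃ y : ℤ, s0 ≤ y ∧
      y < s0 + 2 ^ n * 8 ^ (q * a * a' * N * (g + q * (1 + a))).natAbs.primeFactors.card ∧
      (2 : ℤ) ^ n ∣ y - c0 ∧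
      ∀ l : ℕ, l.Prime → l ≠ 2 → ExC l a a' N z s p' q' (q * y) (a - g * y) (1 - κ * y) := by
  have hN0 : 0 < N := by linarith
  have hΔ : 0 < g + q * (1 + a) := by positivity
  have hM : (q * a * a' * N * (g + q * (1 + a))).natAbs ≠ 0 := by
    rw [Int.natAbs_ne_zero]
    positivity
  obtain ⟨y, y1, y2, y3, y4⟩ := sieve3 hM n
    (fun l y => ExC l a a' N z s p' q' (q * y) (a - g * y) (1 - κ * y))
    (fun l hl hl2 _ => line1_loc hl hl2 hN hga hs hk (hq l hl hl2) (hp l hl hl2) h3a h3b) c0 s0
  refine ⟨y, y1, y2, y3, fun l hl hl2 => ?_⟩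
  by_cases hd : (l : ℤ) ∣ ((q * a * a' * N * (g + q * (1 + a))).natAbs : ℤ)
  · exact y4 l hl hl2 hd
  · rw [Int.dvd_natAbs] at hd
    have hpl := Nat.prime_iff_prime_int.1 hl
    have h1l := not_dvd_one' hl
    have d1 : ¬ (l : ℤ) ∣ q := fun h => hd ((((h.mul_right _).mul_right _).mul_right _).mul_right _)
    have d2 : ¬ (l : ℤ) ∣ a := fun h => hd ((((h.mul_left _).mul_right _).mul_right _).mul_right _)
    have d3 : ¬ (l : ℤ) ∣ a' := fun h => hd (((h.mul_left _).mul_right _).mul_right _)
    have d4 : ¬ (l : ℤ) ∣ N := fun h => hd ((h.mul_left _).mul_right _)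
    have d5 : ¬ (l : ℤ) ∣ g + q * (1 + a) := fun h => hd (h.mul_left _)
    refine ⟨?_, ?_, fun h => absurd h d4, fun h => absurd h d4, fun h => absurd h d3,
      fun h => absurd h d3, fun h h' => ?_⟩
    · rintro ⟨h1, h2⟩
      have h3 : (l : ℤ) ∣ y := (hpl.dvd_or_dvd h1).resolve_left d1
      have h4 := dvd_add h2 (h3.mul_left κ)
      rw [sub_add_cancel] at h4
      exact h1l h4
    · rintro ⟨h1, h2⟩
      apply d5
      have h3 := dvd_add (h1.mul_left g) (h2.mul_left q)
      have e : g * (1 + q * y) + q * (1 + (a - g * y)) = g + q * (1 + a) := by ring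
      rwa [e] at h3
    · exact d2 ((line1_cusp hs hk h h').trans hga)

end Pool.Agent.H4G
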