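import Pool.Agent.H4G.Asym.Defs
import Pool.Agent.H4G.Asy.CVE

/-!
# A sieve with three classes for every odd prime, in an arithmetic progression (helper31)
-/

set_option autoImplicit false

namespace Pool.Agent.H4G

/-- a linear condition is a residue class -/
theorem lin_class {l : ℕ} (hl : l.Prime) {α β : ℤ} (h : (l : ℤ) ∣ β → ¬ (l : ℤ) ∣ α) :
    ∃ r : ℤ, ∀ t : ℤ, ¬ (l : ℤ) ∣ t - r → ¬ (l : ℤ) ∣ α + β * t := by
  have hl' := Nat.prime_iff_prime_int.1 hl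
  by_cases hb : (l : ℤ) ∣ β
  · refine ⟨0, fun t _ h2 => h hb ?_⟩
    exact (dvd_add_left (hb.mul_right t)).1 h2
  · have hc : IsCoprime (l : ℤ) β := (Prime.coprime_iff_not_dvd hl').2 hb
    obtain ⟨x, y, hxy⟩ := hc
    refine ⟨-(y * α), fun t h1 h2 => h1 ?_⟩
    have h3 : (l : ℤ) ∣ y * (α + β * t) + x * l * t :=
      dvd_add (h2.mul_left y) ⟨x * t, by ring⟩
    have e : t - -(y * α) = y * (α + β * t) + x * l * t := by
      linear_combination (-t) * hxy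
    rw [e]; exact h3

/-- two classes modulo an odd prime can be avoided -/
theorem avoid2 {l : ℕ} (hl : l.Prime) (hl2 : l ≠ 2) (r1 r2 : ℤ) :
    ∃ x : ℤ, ¬ (l : ℤ) ∣ x - r1 ∧ ¬ (l : ℤ) ∣ x - r2 := by
  have h2 : ¬ (l : ℤ) ∣ 2 := by
    intro h
    have : l ∣ 2 := by exact_mod_cast h
    exact hl2 ((Nat.prime_dvd_prime_iff_eq hl Nat.prime_two).1 this)
  by_cases h : (l : ℤ) ∣ r1 + 1 - r2
  · refine ⟨r1 + 2, ?_, ?_⟩
    · have : r1 + 2 - r1 = 2 := by ring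
      rw [this]; exact h2
    · intro h3
      have := dvd_sub h3 h
      have e : r1 + 2 - r2 - (r1 + 1 - r2) = 1 := by ring
      rw [e] at this
      exact prime_not_dvd_one hl this
  · refine ⟨r1 + 1, ?_, h⟩
    have : r1 + 1 - r1 = 1 := by ring
    rw [this]; exact prime_not_dvd_one hl

/-- THE SIEVE: three classes for every odd prime divisor of `M`, in a progression of difference
`2 ^ n`. -/
theorem sieve3 {M : ℕ} (hM : M ≠ 0) (n : ℕ) (P : ℕ → ℤ → Prop)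
    (hP : ∀ l : ℕ, l.Prime → l ≠ 2 → (l : ℤ) ∣ (M : ℤ) → ∃ r1 r2 r3 : ℤ,
      (∀ x : ℤ, ¬ (l : ℤ) ∣ x - r1 → ¬ (l : ℤ) ∣ x - r2 → ¬ (l : ℤ) ∣ x - r3 → P l x) ∧
      ∃ x : ℤ, ¬ (l : ℤ) ∣ x - r1 ∧ ¬ (l : ℤ) ∣ x - r2 ∧ ¬ (l : ℤ) ∣ x - r3) (c0 s : ℤ) :
    ∃ x : ℤ, s ≤ x ∧ x < s + 2 ^ n * 8 ^ M.primeFactors.card ∧ (2 : ℤ) ^ n ∣ x - c0 ∧
      ∀ l : ℕ, l.Prime → l ≠ 2 → (l : ℤ) ∣ (M : ℤ) → P l x := by
  classical
  have hg : (0 : ℤ) < 2 ^ n := by positivity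
  -- the first element of the progression
  obtain ⟨c1, hc1, hc1', hc1''⟩ : ∃ c1 : ℤ, s ≤ c1 ∧ c1 < s + 2 ^ n ∧ (2 : ℤ) ^ n ∣ c1 - c0 := by
    refine ⟨s + (c0 - s) % 2 ^ n, ?_, ?_, ?_⟩
    · have := Int.emod_nonneg (c0 - s) hg.ne'
      linarith
    · have := Int.emod_lt_of_pos (c0 - s) hg
      linarith
    · have e := Int.emod_add_mul_ediv (c0 - s) (2 ^ n)
      exact ⟨-((c0 - s) / 2 ^ n), by linear_combination e⟩
  -- the classes in the progression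
  have key : ∀ l : ℕ, ∃ t1 t2 t3 : ℤ, l.Prime → l ≠ 2 → (l : ℤ) ∣ (M : ℤ) →
      (∀ t : ℤ, ¬ (l : ℤ) ∣ t - t1 → ¬ (l : ℤ) ∣ t - t2 → ¬ (l : ℤ) ∣ t - t3 →
        P l (c1 + 2 ^ n * t)) ∧
      ∃ t : ℤ, ¬ (l : ℤ) ∣ t - t1 ∧ ¬ (l : ℤ) ∣ t - t2 ∧ ¬ (l : ℤ) ∣ t - t3 := by
    intro l
    by_cases h : l.Prime ∧ l ≠ 2 ∧ (l : ℤ) ∣ (M : ℤ)
    · obtain ⟨hl, hl2, hd⟩ := h
      obtain ⟨r1, r2, r3, h1, x, hx1, hx2, hx3⟩ := hP l hl hl2 hd
      have hl' := Nat.prime_iff_prime_int.1 hl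
      have hnd : ¬ (l : ℤ) ∣ 2 ^ n := by
        intro h
        have h5 : (l : ℤ) ∣ 2 := hl'.dvd_of_dvd_pow h
        have : l ∣ 2 := by exact_mod_cast h5
        exact hl2 ((Nat.prime_dvd_prime_iff_eq hl Nat.prime_two).1 this)
      obtain ⟨α, β, hab⟩ := (Prime.coprime_iff_not_dvd hl').2 hnd
      -- `β 2^n = 1 mod l`
      have tr : ∀ r t : ℤ, (l : ℤ) ∣ (c1 + 2 ^ n * t) - r ↔ (l : ℤ) ∣ t - β * (r - c1) := by
        intro r t
        constructor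
        · intro h
          have : t - β * (r - c1) = β * ((c1 + 2 ^ n * t) - r) + l * (α * t) := by
            linear_combination (-t) * hab
          rw [this]
          exact dvd_add (h.mul_left _) (dvd_mul_right _ _)
        · intro h
          have : (c1 + 2 ^ n * t) - r = 2 ^ n * (t - β * (r - c1)) - l * (α * (r - c1)) := by
            linear_combination (r - c1) * hab
          rw [this]
          exact dvd_sub (h.mul_left _) (dvd_mul_right _ _)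
      refine ⟨β * (r1 - c1), β * (r2 - c1), β * (r3 - c1), fun _ _ _ => ⟨?_, ?_⟩⟩
      · intro t k1 k2 k3
        exact h1 _ (fun h => k1 ((tr r1 t).1 h)) (fun h => k2 ((tr r2 t).1 h))
          (fun h => k3 ((tr r3 t).1 h))
      · have ex : ∀ r : ℤ, (l : ℤ) ∣ β * (x - c1) - β * (r - c1) → (l : ℤ) ∣ x - r := by
          intro r h
          have h6 := (tr r (β * (x - c1))).2 h
          have e : x - r = (c1 + 2 ^ n * (β * (x - c1)) - r) + l * (α * (x - c1)) := by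
            linear_combination (-(x - c1)) * hab
          rw [e]
          exact dvd_add h6 (dvd_mul_right _ _)
        exact ⟨β * (x - c1), fun h => hx1 (ex r1 h), fun h => hx2 (ex r2 h),
          fun h => hx3 (ex r3 h)⟩
    · refine ⟨0, 0, 0, fun h1 h2 h3 => absurd ⟨h1, h2, h3⟩ h⟩
  choose t1 t2 t3 ht using key
  set T : Finset (ℕ × Fin 3) := (M.primeFactors.erase 2) ×ˢ (Finset.univ : Finset (Fin 3)) with hT
  set m : ℕ × Fin 3 → ℤ := fun i => (i.1 : ℤ) with hm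
  set cl : ℕ × Fin 3 → ℤ := fun i => if i.2 = 0 then t1 i.1 else if i.2 = 1 then t2 i.1 else t3 i.1
    with hcl
  have mem : ∀ l : ℕ, l ∈ M.primeFactors.erase 2 ↔ l.Prime ∧ l ≠ 2 ∧ (l : ℤ) ∣ (M : ℤ) := by
    intro l
    rw [Finset.mem_erase, Nat.mem_primeFactors, Int.natCast_dvd_natCast]
    constructor
    · rintro ⟨h1, h2, h3, _⟩; exact ⟨h2, h1, h3⟩
    · rintro ⟨h1, h2, h3⟩; exact ⟨h2, h1, h3, hM⟩
  have hmpos : ∀ i ∈ T, 0 < m i := by
    intro i hi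
    have := ((mem i.1).1 (Finset.mem_product.1 hi).1).1.pos
    simp only [hm]
    exact_mod_cast this
  -- a solution of all conditions
  obtain ⟨x0, hx0⟩ : ∃ x0 : ℤ, ∀ l : ℕ, l.Prime → (l : ℤ) ∣ (M : ℤ) → (l ≠ 2 →
      ¬ (l : ℤ) ∣ x0 - t1 l ∧ ¬ (l : ℤ) ∣ x0 - t2 l ∧ ¬ (l : ℤ) ∣ x0 - t3 l) := by
    refine crt_exists (M : ℤ) (by exact_mod_cast hM) (fun l t => l ≠ 2 →
      ¬ (l : ℤ) ∣ t - t1 l ∧ ¬ (l : ℤ) ∣ t - t2 l ∧ ¬ (l : ℤ) ∣ t - t3 l) ?_ ?_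
    · intro l hl hd
      by_cases hl2 : l = 2
      · exact ⟨0, fun h => absurd hl2 h⟩
      · obtain ⟨_, t, h⟩ := ht l hl hl2 hd
        exact ⟨t, fun _ => h⟩
    · intro l hl hd k k' hkk h hl2
      obtain ⟨h1, h2, h3⟩ := h hl2
      have sh : ∀ r : ℤ, (l : ℤ) ∣ k' - r → (l : ℤ) ∣ k - r := by
        intro r h
        have : k - r = (k' - r) - (k' - k) := by ring
        rw [this]; exact dvd_sub h hkk
      exact ⟨fun h => h1 (sh _ h), fun h => h2 (sh _ h), fun h => h3 (sh _ h)⟩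
  have h0 : ∀ i ∈ T, ¬ m i ∣ x0 - cl i := by
    rintro ⟨l, j⟩ hi
    obtain ⟨hl, hl2, hd⟩ := (mem l).1 (Finset.mem_product.1 hi).1
    obtain ⟨h1, h2, h3⟩ := hx0 l hl hd hl2
    simp only [hm, hcl]
    split_ifs
    · exact h1
    · exact h2
    · exact h3
  obtain ⟨t, ht1, ht2, ht3⟩ := Asy.exists_avoid T m cl hmpos h0 0
  have hcard : T.card ≤ 3 * M.primeFactors.card := by
    rw [hT, Finset.card_product, Finset.card_univ, Fintype.card_fin, mul_comm]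
    exact Nat.mul_le_mul_left 3 (Finset.card_le_card (Finset.erase_subset _ _))
  have hpow : (2 : ℤ) ^ T.card ≤ 8 ^ M.primeFactors.card := by
    have : (8 : ℤ) ^ M.primeFactors.card = 2 ^ (3 * M.primeFactors.card) := by
      rw [pow_mul]; norm_num
    rw [this]
    exact pow_le_pow_right₀ (by norm_num) hcard
  refine ⟨c1 + 2 ^ n * t, ?_, ?_, ?_, ?_⟩
  · nlinarith
  · have h5 : t + 1 ≤ 8 ^ M.primeFactors.card := by linarith
    have h6 := mul_le_mul_of_nonneg_left h5 hg.le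
    linarith
  · have : c1 + 2 ^ n * t - c0 = (c1 - c0) + 2 ^ n * t := by ring
    rw [this]; exact dvd_add hc1'' (dvd_mul_right _ _)
  · intro l hl hl2 hd
    refine (ht l hl hl2 hd).1 t ?_ ?_ ?_
    · have := ht3 (l, 0) (Finset.mem_product.2 ⟨(mem l).2 ⟨hl, hl2, hd⟩, Finset.mem_univ _⟩)
      simpa [hm, hcl] using this
    · have := ht3 (l, 1) (Finset.mem_product.2 ⟨(mem l).2 ⟨hl, hl2, hd⟩, Finset.mem_univ _⟩)
      simpa [hm, hcl] using this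
    · have := ht3 (l, 2) (Finset.mem_product.2 ⟨(mem l).2 ⟨hl, hl2, hd⟩, Finset.mem_univ _⟩)
      simpa [hm, hcl] using this

/-- `8 ^ ω(M) ≤ J²` -/
theorem Cap.eight {J X M : ℕ} (h : Cap J X) (hM : M ≠ 0) (hX : M ≤ X) :
    (8 : ℤ) ^ M.primeFactors.card ≤ (J : ℤ) ^ 2 := by
  have h1 : (4 : ℤ) ^ M.primeFactors.card ≤ J := by exact_mod_cast h M hM hX
  calc (8 : ℤ) ^ M.primeFactors.card ≤ 16 ^ M.primeFactors.card :=
        pow_le_pow_left₀ (by norm_num) (by norm_num) _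
    _ = (4 ^ M.primeFactors.card) ^ 2 := by rw [← pow_mul, mul_comm, pow_mul]; norm_num
    _ ≤ (J : ℤ) ^ 2 := pow_le_pow_left₀ (by positivity) h1 2

end Pool.Agent.H4G
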