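import Pool.Agent.H4G.Arith.KLev
import Pool.Agent.H4G.Ctwo.Sieve3

/-!
# G3: the choice of `q` (helper83, after helper62's page)

From a K-state with `d = 1` an H-move leads to one whose left lattice contains `(-s q, g)`,
`g = gcd (z, a)` the left cusp, `q` small and prime to everything.
-/

set_option autoImplicit false

namespace Pool.Agent.H4G

/-- an H-move with prescribed `k` modulo `a₀`; `(-s q, g)` lies in the new left lattice -/
theorem KC.qshear {a0 g z0 r c p1 q' q s k0 D : ℤ} (hr : 0 < r)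
    (hc : 0 < c) (h1 : IsCoprime p1 r) (h2 : IsCoprime q' c) (hz0 : IsCoprime z0 a0)
    (hfro : ∀ l : ℕ, l.Prime → (l : ℤ) ∣ c → (l : ℤ) ∣ r → ¬ (l : ℤ) ∣ a0)
    (hq : IsCoprime q a0) (hs : s = 1 ∨ s = -1)
    (hk0 : a0 ∣ 1 + k0 * (r + 1) * (g * z0) + s * q * z0) (hD : D ≠ 0)
    (hok : (KC (a0 * g) (g * z0) (-1) (r * c) (p1 * c) q').Ok) :
    ∃ z2 q2 κ, SEq (KC (a0 * g) (g * z0) (-1) (r * c) (p1 * c) q')
        (KC (a0 * g) z2 (-1) (r * c) (p1 * c) q2) ∧ Prm (r * c) (p1 * c) q2 ∧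
      IsCoprime q2 c ∧ g ∣ z2 ∧ g + s * q * z2 = κ * (a0 * g) ∧
      (∀ l : ℕ, l.Prime → (l : ℤ) ∣ D → (l : ℤ) ∣ r → ¬ (l : ℤ) ∣ a0 → (l : ℤ) ∣ q2 - q') ∧
      ((2 : ℤ) ∣ r * c → (2 : ℤ) ∣ q2 - q') := by
  -- the choice of `k`
  obtain ⟨t, ht⟩ := crt_exists (D * c) (mul_ne_zero hD hc.ne')
    (fun l t => ¬ (l : ℤ) ∣ a0 → (l : ℤ) ∣ k0 + a0 * t)
    (fun l hl _ => by
      by_cases hla : (l : ℤ) ∣ a0
      · exact ⟨0, fun h => absurd hla h⟩
      · have h3 : IsCoprime (l : ℤ) a0 := (Prime.coprime_iff_not_dvd (Nat.prime_iff_prime_int.1 hl)).2 hla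
        obtain ⟨x, y, hxy⟩ := h3
        refine ⟨-(k0 * y), fun _ => ⟨k0 * x, ?_⟩⟩
        linear_combination (-k0) * hxy)
    (fun l hl _ t t' g1 g2 g3 => by
      have : k0 + a0 * t' = (k0 + a0 * t) + a0 * (t' - t) := by ring
      rw [this]
      exact dvd_add (g2 g3) (g1.mul_left _))
  set k : ℤ := k0 + a0 * t with hk
  have hkl : ∀ l : ℕ, l.Prime → (l : ℤ) ∣ D * c → ¬ (l : ℤ) ∣ a0 → (l : ℤ) ∣ k := ht
  obtain ⟨q2, i1, i2, i3, i4⟩ := KC.H_exists hr hc h1 h2 k (fun l hl g1 g2 g3 => by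
    have g4 := hkl l hl (g1.mul_left _) (hfro l hl g1 g2)
    have g5 : (l : ℤ) ∣ q' := by
      have := dvd_sub g3 (g4.mul_right p1)
      simpa using this
    exact not_dvd_of_isCoprime h2 hl g1 g5) hok
  -- the unit
  set w : ℤ := 1 + k * (r + 1) * (g * z0) with hw
  have hkw : a0 ∣ w + s * q * z0 := by
    have : w + s * q * z0 = (1 + k0 * (r + 1) * (g * z0) + s * q * z0) +
        a0 * (t * (r + 1) * (g * z0)) := by rw [hw, hk]; ring
    rw [this]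
    exact dvd_add hk0 (dvd_mul_right _ _)
  have hss : s * s = 1 := by rcases hs with rfl | rfl <;> norm_num
  have hwc0 : IsCoprime w a0 := by
    refine isCoprime_of_prime fun l hl g1 g2 => ?_
    have g3 : (l : ℤ) ∣ s * q * z0 := by
      have := dvd_sub (g1.trans hkw) g2
      simpa using this
    have hl' := Nat.prime_iff_prime_int.1 hl
    rcases hl'.dvd_or_dvd g3 with g4 | g4
    · rcases hl'.dvd_or_dvd g4 with g5 | g5
      · apply prime_not_dvd_one hl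
        have := g5.mul_right s
        rwa [hss] at this
      · exact not_dvd_of_isCoprime hq hl g1 g5
    · exact not_dvd_of_isCoprime hz0 hl g1 g4
  have hwcg : IsCoprime w g := ⟨1, -(k * (r + 1) * z0), by rw [hw]; ring⟩
  have hwc : IsCoprime w (a0 * g) := hwc0.mul_right hwcg
  obtain ⟨ω, β, hωβ⟩ := hwc
  have hωc : IsCoprime (a0 * g) ω := ⟨β, w, by linear_combination hωβ⟩
  have e1 : KC (a0 * g) (g * z0) (-1 - k * (r + 1) * (g * z0)) (r * c) (p1 * c) q2 =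
      KC (a0 * g) (ω * (g * z0)) (-1) (r * c) (p1 * c) q2 := by
    rw [← KC.unit (p := g * z0) (q := -1 - k * (r + 1) * (g * z0)) hωc]
    refine KC.congr (by simp) ?_ (by simp) (by simp)
    refine ⟨-β, ?_⟩
    rw [hw] at hωβ
    linear_combination hωβ
  rw [e1] at i4
  -- the relation
  obtain ⟨κ, hκ⟩ : a0 ∣ 1 + s * q * (ω * z0) := by
    have h3 : a0 ∣ w * (1 + s * q * (ω * z0)) := by
      have e2 : w * (1 + s * q * (ω * z0)) = (w + s * q * z0) + a0 * (-(β * g * s * q * z0)) := by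
        linear_combination (s * q * z0) * hωβ
      rw [e2]
      exact dvd_add hkw (dvd_mul_right _ _)
    exact hwc0.symm.dvd_of_dvd_mul_left h3
  refine ⟨ω * (g * z0), q2, κ, i4, i3, i1, ⟨ω * z0, by ring⟩, ?_, ?_, ?_⟩
  · linear_combination g * hκ
  · intro l hl g1 g2 g3
    have g4 := hkl l hl (g1.mul_right _) g3
    have e3 : q2 - q' = (q2 - (q' - k * p1 * (c - 1))) - k * (p1 * (c - 1)) := by ring
    rw [e3]
    exact dvd_sub (g2.trans i2) (g4.mul_right _)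
  · intro h22
    rcases (Nat.prime_iff_prime_int.1 Nat.prime_two).dvd_or_dvd
      (by exact_mod_cast h22 : ((2 : ℕ) : ℤ) ∣ r * c) with g1 | g1
    · have g1' : (2 : ℤ) ∣ r := by exact_mod_cast g1
      rcases Int.even_or_odd c with hce | hco
      · have j1 : ¬ (2 : ℤ) ∣ q2 := by
          intro h
          exact not_dvd_of_isCoprime i1 Nat.prime_two (by exact_mod_cast hce.two_dvd)
            (by exact_mod_cast h)
        have j2 : ¬ (2 : ℤ) ∣ q' := by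
          intro h
          exact not_dvd_of_isCoprime h2 Nat.prime_two (by exact_mod_cast hce.two_dvd)
            (by exact_mod_cast h)
        omega
      · obtain ⟨b, hb⟩ := hco
        have e3 : q2 - q' = (q2 - (q' - k * p1 * (c - 1))) - 2 * (k * p1 * b) := by
          rw [hb]; ring
        rw [e3]
        exact dvd_sub (g1'.trans i2) (dvd_mul_right _ _)
    · have g1' : (2 : ℤ) ∣ c := by exact_mod_cast g1
      have j1 : ¬ (2 : ℤ) ∣ q2 := by
        intro h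
        exact not_dvd_of_isCoprime i1 Nat.prime_two g1 (by exact_mod_cast h)
      have j2 : ¬ (2 : ℤ) ∣ q' := by
        intro h
        exact not_dvd_of_isCoprime h2 Nat.prime_two g1 (by exact_mod_cast h)
      omega

/-- the numbers: sign `s` and `q` -/
theorem exists_q {a0 g z0 R a' p' q' : ℤ} {M : ℕ} (ha0 : 0 < a0)
    (hz0 : IsCoprime z0 a0) (hM : M ≠ 0)
    (h3p : (3 : ℤ) ∣ a' → (3 : ℤ) ∣ q' → ¬ (3 : ℤ) ∣ p') :
    ∃ s q k0 G : ℤ, (s = 1 ∨ s = -1) ∧ 0 < G ∧ G ∣ a0 ∧ G ∣ R * g ∧ 0 < q ∧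
      q ≤ G * (1 + 2 * 8 ^ M.primeFactors.card) ∧ Odd q ∧
      (∀ l : ℕ, l.Prime → l ≠ 2 → (l : ℤ) ∣ (M : ℤ) → ¬ (l : ℤ) ∣ q) ∧
      IsCoprime q G ∧
      ((3 : ℤ) ∣ (M : ℤ) → (3 : ℤ) ∣ a0 * g → ¬ (3 : ℤ) ∣ g + q) ∧
      ((3 : ℤ) ∣ (M : ℤ) → (3 : ℤ) ∣ a' → ¬ (3 : ℤ) ∣ a0 * g →
        ¬ (3 : ℤ) ∣ 2 * p' - q' * s * g * q) ∧
      a0 ∣ 1 + k0 * R * (g * z0) + s * q * z0 := by
  set G : ℤ := (Int.gcd a0 (R * g) : ℤ) with hG
  have hG0 : 0 < G := by
    rw [hG]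
    have : 0 < Int.gcd a0 (R * g) := Int.gcd_pos_of_ne_zero_left _ ha0.ne'
    exact_mod_cast this
  have hGa : G ∣ a0 := Int.gcd_dvd_left _ _
  have hGR : G ∣ R * g := Int.gcd_dvd_right _ _
  have hp3 : Nat.Prime 3 := Nat.prime_three
  -- the class of `q`
  obtain ⟨ζ0, hζ0⟩ : ∃ ζ : ℤ, G ∣ 1 + ζ * z0 := by
    obtain ⟨α, β, hαβ⟩ := hz0.of_isCoprime_of_dvd_right hGa
    exact ⟨-α, β, by linear_combination -hαβ⟩
  obtain ⟨ζ, hζ, hζ1, hζ2⟩ : ∃ ζ : ℤ, G ∣ 1 + ζ * z0 ∧ 0 ≤ ζ ∧ ζ < G := by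
    refine ⟨ζ0 % G, ?_, Int.emod_nonneg _ hG0.ne', Int.emod_lt_of_pos _ hG0⟩
    have e : ζ0 % G = ζ0 - G * (ζ0 / G) := by rw [Int.emod_def]
    rw [e]
    have e2 : 1 + (ζ0 - G * (ζ0 / G)) * z0 = (1 + ζ0 * z0) - G * (ζ0 / G * z0) := by ring
    rw [e2]
    exact dvd_sub hζ0 (dvd_mul_right _ _)
  have hζG : ∀ l : ℕ, l.Prime → (l : ℤ) ∣ G → ¬ (l : ℤ) ∣ ζ := by
    intro l hl g1 g2
    apply prime_not_dvd_one hl
    have := dvd_sub (g1.trans hζ) (g2.mul_right z0)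
    simpa using this
  -- the sign
  obtain ⟨s, hs, hs3⟩ : ∃ s : ℤ, (s = 1 ∨ s = -1) ∧ ((3 : ℤ) ∣ G → ¬ (3 : ℤ) ∣ g + s * ζ) := by
    by_cases h3 : (3 : ℤ) ∣ g + ζ
    · refine ⟨-1, Or.inr rfl, fun h4 h5 => ?_⟩
      have h6 : ¬ (3 : ℤ) ∣ ζ := by
        intro h7
        exact hζG 3 hp3 (by exact_mod_cast h4) (by exact_mod_cast h7)
      omega
    · exact ⟨1, Or.inl rfl, fun _ => by rwa [one_mul]⟩
  have hss : s * s = 1 := by rcases hs with rfl | rfl <;> norm_num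
  have hsl : ∀ l : ℕ, l.Prime → ¬ (l : ℤ) ∣ s := by
    intro l hl h
    apply prime_not_dvd_one hl
    have := h.mul_right s
    rwa [hss] at this
  have hlin : ∀ l : ℕ, l.Prime → (l : ℤ) ∣ G → ¬ (l : ℤ) ∣ s * ζ := by
    intro l hl h1 h2
    rcases (Nat.prime_iff_prime_int.1 hl).dvd_or_dvd h2 with h3 | h3
    · exact hsl l hl h3
    · exact hζG l hl h1 h3
  -- the sieve
  obtain ⟨y, hy1, hy2, hy3, hy4⟩ := sieve3 hM 1
    (fun l y => ¬ (l : ℤ) ∣ s * ζ + G * y ∧ (l = 3 →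
      ((3 : ℤ) ∣ a0 * g → ¬ (3 : ℤ) ∣ (g + s * ζ) + G * y) ∧
      ((3 : ℤ) ∣ a' → ¬ (3 : ℤ) ∣ a0 * g →
        ¬ (3 : ℤ) ∣ (2 * p' - q' * s * g * (s * ζ)) + (-(q' * s * g * G)) * y)))
    (fun l hl hl2 _ => by
      obtain ⟨r1, hr1⟩ := lin_class hl (hlin l hl)
      by_cases hl3 : l = 3
      · subst hl3
        by_cases hA : (3 : ℤ) ∣ a0 * g
        · obtain ⟨r2, hr2⟩ := lin_class (l := 3) (α := g + s * ζ) (β := G) hp3
            (fun h => by
              intro h5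
              exact hs3 (by exact_mod_cast h) (by exact_mod_cast h5))
          obtain ⟨x, hx1, hx2⟩ := avoid2 hl hl2 r1 r2
          refine ⟨r1, r2, r1, fun t h1 h2 _ => ⟨hr1 t h1, fun _ => ⟨fun _ h5 => ?_,
            fun _ h6 => absurd hA h6⟩⟩, x, hx1, hx2, hx1⟩
          exact hr2 t h2 (by exact_mod_cast h5)
        · by_cases hB : (3 : ℤ) ∣ a'
          · obtain ⟨r2, hr2⟩ := lin_class (l := 3) (α := 2 * p' - q' * s * g * (s * ζ))
              (β := -(q' * s * g * G)) hp3 (fun h h5 => by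
                have h' : (3 : ℤ) ∣ q' * s * g * G := (dvd_neg).1 (by exact_mod_cast h)
                have p3 : Prime (3 : ℤ) := by exact_mod_cast Nat.prime_iff_prime_int.1 hp3
                have hg3 : ¬ (3 : ℤ) ∣ g := fun h => hA (h.mul_left _)
                have hG3 : ¬ (3 : ℤ) ∣ G := fun h => hA ((h.trans hGa).mul_right _)
                have hs3' : ¬ (3 : ℤ) ∣ s := fun h => hsl 3 hp3 (by exact_mod_cast h)
                have hq3 : (3 : ℤ) ∣ q' := by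
                  rcases p3.dvd_or_dvd h' with h6 | h6
                  · rcases p3.dvd_or_dvd h6 with h7 | h7
                    · rcases p3.dvd_or_dvd h7 with h8 | h8
                      · exact h8
                      · exact absurd h8 hs3'
                    · exact absurd h7 hg3
                  · exact absurd h6 hG3
                have h5' : (3 : ℤ) ∣ 2 * p' - q' * s * g * (s * ζ) := by exact_mod_cast h5
                have h9 : (3 : ℤ) ∣ 2 * p' := by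
                  have := dvd_add h5' (hq3.mul_right (s * g * (s * ζ)))
                  have e : 2 * p' - q' * s * g * (s * ζ) + q' * (s * g * (s * ζ)) = 2 * p' := by ring
                  rwa [e] at this
                have h10 : (3 : ℤ) ∣ p' := by omega
                exact h3p hB hq3 h10)
            obtain ⟨x, hx1, hx2⟩ := avoid2 hl hl2 r1 r2
            refine ⟨r1, r2, r1, fun t h1 h2 _ => ⟨hr1 t h1, fun _ => ⟨fun h => absurd h hA,
              fun _ _ h5 => ?_⟩⟩, x, hx1, hx2, hx1⟩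
            exact hr2 t h2 (by exact_mod_cast h5)
          · obtain ⟨x, hx1, -⟩ := avoid2 hl hl2 r1 r1
            exact ⟨r1, r1, r1, fun t h1 _ _ => ⟨hr1 t h1, fun _ => ⟨fun h => absurd h hA,
              fun h => absurd h hB⟩⟩, x, hx1, hx1, hx1⟩
      · obtain ⟨x, hx1, -⟩ := avoid2 hl hl2 r1 r1
        exact ⟨r1, r1, r1, fun t h1 _ _ => ⟨hr1 t h1, fun h => absurd h hl3⟩, x, hx1, hx1, hx1⟩)
    (if Odd ζ then 0 else 1) 1
  set q : ℤ := s * ζ + G * y with hq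
  have hsl' : -ζ ≤ s * ζ ∧ s * ζ ≤ ζ := by
    rcases hs with rfl | rfl
    · constructor <;> linarith
    · constructor <;> linarith
  have hq0 : 0 < q := by
    have : G * 1 ≤ G * y := mul_le_mul_of_nonneg_left hy1 hG0.le
    rw [hq]
    linarith [hsl'.1]
  have hqodd : Odd q := by
    rw [hq]
    have h2 : (2 : ℤ) ∣ y - (if Odd ζ then 0 else 1) := by simpa using hy3
    have hso : Odd s := by rcases hs with rfl | rfl <;> decide
    by_cases hζo : Odd ζ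
    · rw [if_pos hζo] at h2
      have hye : Even y := even_iff_two_dvd.2 (by simpa using h2)
      exact (hso.mul hζo).add_even (hye.mul_left G)
    · rw [if_neg hζo] at h2
      have hye : Odd y := by
        have h3 : Even (y - 1) := even_iff_two_dvd.2 h2
        have := h3.add_one
        simpa using this
      have hGo : Odd G := by
        by_contra hn
        have h4 : (2 : ℤ) ∣ G := (Int.not_odd_iff_even.1 hn).two_dvd
        have h5 : ¬ (2 : ℤ) ∣ ζ := fun h => hζG 2 Nat.prime_two (by exact_mod_cast h4)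
          (by exact_mod_cast h)
        exact h5 (Int.not_odd_iff_even.1 hζo).two_dvd
      have := (Int.not_odd_iff_even.1 hζo).mul_left s
      exact this.add_odd (hGo.mul hye)
  -- `k₀`
  have hGq : G ∣ 1 + s * q * z0 := by
    have : 1 + s * q * z0 = (1 + ζ * z0) + G * (s * y * z0) := by
      rw [hq]; linear_combination (ζ * z0) * hss
    rw [this]
    exact dvd_add hζ (dvd_mul_right _ _)
  obtain ⟨w, hw⟩ := hGq
  obtain ⟨α, β, hαβ⟩ := hz0
  have hab := Int.gcd_eq_gcd_ab a0 (R * g)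
  rw [← hG] at hab
  refine ⟨s, q, -(w * Int.gcdB a0 (R * g) * α), G, hs, hG0, hGa, hGR, hq0, ?_, hqodd,
    fun l hl hl2 hlM => (hy4 l hl hl2 hlM).1, ?_, ?_, ?_, ?_⟩
  · have h1 : G * y ≤ G * (2 * 8 ^ M.primeFactors.card) := by
      refine mul_le_mul_of_nonneg_left ?_ hG0.le
      have : y < 1 + 2 ^ 1 * 8 ^ M.primeFactors.card := hy2
      have h2 : (1 : ℤ) + 2 ^ 1 * 8 ^ M.primeFactors.card =
        1 + 2 * 8 ^ M.primeFactors.card := by norm_num
      rw [h2] at this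
      linarith
    rw [hq]
    linarith [hsl'.2]
  · refine isCoprime_of_prime fun l hl g1 g2 => ?_
    apply hlin l hl g1
    have : s * ζ = q - G * y := by rw [hq]; ring
    rw [this]
    exact dvd_sub g2 (g1.mul_right _)
  · intro h3 hA
    have := ((hy4 3 hp3 (by norm_num) (by exact_mod_cast h3)).2 rfl).1 hA
    have e : (g + s * ζ) + G * y = g + q := by rw [hq]; ring
    rwa [e] at this
  · intro h3 hB hA
    have := ((hy4 3 hp3 (by norm_num) (by exact_mod_cast h3)).2 rfl).2 hB hA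
    have e : (2 * p' - q' * s * g * (s * ζ)) + (-(q' * s * g * G)) * y =
        2 * p' - q' * s * g * q := by rw [hq]; ring
    rwa [e] at this
  · refine ⟨w * Int.gcdA a0 (R * g) + w * Int.gcdB a0 (R * g) * R * g * β, ?_⟩
    linear_combination hw + (-(w * Int.gcdB a0 (R * g) * R * g)) * hαβ + w * hab

/-- **Q-CHOICE**, in the variables `a = a₀ g`, `z = g z₀`, `a' = r c`, `p' = p₁ c` -/
theorem KC.qchoice {a0 g z0 r c p1 q' : ℤ} {M : ℕ} (ha0 : 0 < a0) (hr : 0 < r)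
    (hc : 0 < c) (h1 : IsCoprime p1 r) (h2 : IsCoprime q' c) (hz0 : IsCoprime z0 a0)
    (hfro : ∀ l : ℕ, l.Prime → (l : ℤ) ∣ c → (l : ℤ) ∣ r → ¬ (l : ℤ) ∣ a0) (hM : M ≠ 0)
    (hMa : a0 * g ∣ (M : ℤ))
    (hok : (KC (a0 * g) (g * z0) (-1) (r * c) (p1 * c) q').Ok) :
    ∃ s q z2 q2 κ G : ℤ, (s = 1 ∨ s = -1) ∧ 0 < G ∧ G ∣ a0 ∧ G ∣ (r + 1) * g ∧ 0 < q ∧
      q ≤ G * (1 + 2 * 8 ^ M.primeFactors.card) ∧ Odd q ∧
      (∀ l : ℕ, l.Prime → l ≠ 2 → (l : ℤ) ∣ (M : ℤ) → ¬ (l : ℤ) ∣ q) ∧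
      IsCoprime q (a0 * g) ∧
      ((3 : ℤ) ∣ (M : ℤ) → (3 : ℤ) ∣ a0 * g → ¬ (3 : ℤ) ∣ g + q) ∧
      ((3 : ℤ) ∣ (M : ℤ) → (3 : ℤ) ∣ r * c → ¬ (3 : ℤ) ∣ a0 * g →
        ¬ (3 : ℤ) ∣ 2 * (p1 * c) - q2 * s * g * q) ∧
      SEq (KC (a0 * g) (g * z0) (-1) (r * c) (p1 * c) q')
        (KC (a0 * g) z2 (-1) (r * c) (p1 * c) q2) ∧ Prm (r * c) (p1 * c) q2 ∧
      IsCoprime q2 c ∧ g ∣ z2 ∧ g + s * q * z2 = κ * (a0 * g) ∧
      ((2 : ℤ) ∣ r * c → (2 : ℤ) ∣ q2 - q') := by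
  have hp3 : Nat.Prime 3 := Nat.prime_three
  have p3 : Prime (3 : ℤ) := by exact_mod_cast Nat.prime_iff_prime_int.1 hp3
  obtain ⟨s, q, k0, G, i1, i2, i3, i4, i5, i6, i7, i8, i9, i10, i11, i12⟩ :=
    exists_q (a0 := a0) (g := g) (z0 := z0) (R := r + 1) (a' := r * c) (p' := p1 * c) (q' := q')
      (M := M) ha0 hz0 hM (fun h3 h4 h5 => by
        have h6 : ¬ (3 : ℤ) ∣ c := fun h => not_dvd_of_isCoprime h2 hp3 (by exact_mod_cast h)
          (by exact_mod_cast h4)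
        have h7 : (3 : ℤ) ∣ r := (p3.dvd_or_dvd h3).resolve_right h6
        have h8 : (3 : ℤ) ∣ p1 := (p3.dvd_or_dvd h5).resolve_right h6
        exact not_dvd_of_isCoprime h1 hp3 (by exact_mod_cast h7) (by exact_mod_cast h8))
  have hqa : IsCoprime q (a0 * g) := by
    refine isCoprime_of_prime fun l hl g1 g2 => ?_
    by_cases hl2 : l = 2
    · subst hl2
      have g3 : (2 : ℤ) ∣ q := by exact_mod_cast g2
      exact (Int.not_even_iff_odd.2 i7) (even_iff_two_dvd.2 g3)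
    · exact i8 l hl hl2 (g1.trans hMa) g2
  obtain ⟨z2, q2, κ, j1, j2, j3, j4, j5, j6, j7⟩ := KC.qshear (D := 3) hr hc h1 h2 hz0 hfro
    (hqa.of_isCoprime_of_dvd_right (Dvd.intro g rfl)) i1 i12 (by norm_num) hok
  refine ⟨s, q, z2, q2, κ, G, i1, i2, i3, i4, i5, i6, i7, i8, hqa, i10, ?_, j1, j2, j3, j4, j5,
    j7⟩
  intro g1 g2 g3 g4
  have hss : s * s = 1 := by rcases i1 with rfl | rfl <;> norm_num
  by_cases h6 : (3 : ℤ) ∣ c
  · have k1 : (3 : ℤ) ∣ q2 * s * g * q := by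
      have := dvd_sub ((h6.mul_left p1).mul_left 2) g4
      have e : 2 * (p1 * c) - (2 * (p1 * c) - q2 * s * g * q) = q2 * s * g * q := by ring
      rwa [e] at this
    rcases p3.dvd_or_dvd k1 with k2 | k2
    · rcases p3.dvd_or_dvd k2 with k3 | k3
      · rcases p3.dvd_or_dvd k3 with k4 | k4
        · exact not_dvd_of_isCoprime j3 hp3 (by exact_mod_cast h6) (by exact_mod_cast k4)
        · have := k4.mul_right s
          rw [hss] at this
          norm_num at this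
      · exact g3 (k3.mul_left _)
    · exact i8 3 hp3 (by norm_num) (by exact_mod_cast g1) (by exact_mod_cast k2)
  · have h7 : (3 : ℤ) ∣ r := (p3.dvd_or_dvd g2).resolve_right h6
    have h8 : (3 : ℤ) ∣ q2 - q' := by
      have := j6 3 hp3 (by norm_num) (by exact_mod_cast h7)
        (fun h => g3 ((by exact_mod_cast h : (3 : ℤ) ∣ a0).mul_right g))
      exact_mod_cast this
    apply i11 g1 g2 g3
    have e : 2 * (p1 * c) - q' * s * g * q = (2 * (p1 * c) - q2 * s * g * q) +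
        (q2 - q') * (s * g * q) := by ring
    rw [e]
    exact dvd_add g4 (h8.mul_right _)

/-- **Q-CHOICE** for a K-state with `d = 1` and right content `1`, no prime of `c` dividing `a` -/
theorem KC.qchoice' {a z a' p' q' : ℤ} {M : ℕ} (ha : 0 < a) (ha' : 0 < a') (hP' : Prm a' p' q')
    (hfro : ∀ l : ℕ, l.Prime → (l : ℤ) ∣ a' → (l : ℤ) ∣ p' → ¬ (l : ℤ) ∣ a) (hM : M ≠ 0)
    (hMa : a ∣ (M : ℤ)) (hok : (KC a z (-1) a' p' q').Ok) :
    ∃ g r c s q z2 q2 κ G : ℤ, g = (Int.gcd z a : ℤ) ∧ 0 < g ∧ 0 < r ∧ 0 < c ∧ a' = r * c ∧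
      c = (Int.gcd p' a' : ℤ) ∧
      (s = 1 ∨ s = -1) ∧ 0 < G ∧ g * G ∣ a ∧ G ∣ (r + 1) * g ∧ 0 < q ∧
      q ≤ G * (1 + 2 * 8 ^ M.primeFactors.card) ∧ Odd q ∧
      (∀ l : ℕ, l.Prime → l ≠ 2 → (l : ℤ) ∣ (M : ℤ) → ¬ (l : ℤ) ∣ q) ∧ IsCoprime q a ∧
      ((3 : ℤ) ∣ (M : ℤ) → (3 : ℤ) ∣ a → ¬ (3 : ℤ) ∣ g + q) ∧
      ((3 : ℤ) ∣ (M : ℤ) → (3 : ℤ) ∣ a' → ¬ (3 : ℤ) ∣ a → ¬ (3 : ℤ) ∣ 2 * p' - q2 * s * g * q) ∧
      SEq (KC a z (-1) a' p' q') (KC a z2 (-1) a' p' q2) ∧ Prm a' p' q2 ∧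
      g ∣ z2 ∧ g + s * q * z2 = κ * a ∧ ((2 : ℤ) ∣ a' → (2 : ℤ) ∣ q2 - q') := by
  obtain ⟨r, c, p1, hr, hc, e1, e2, h1, h2⟩ := hP'.split' ha'
  have hg0 : 0 < Int.gcd z a := Int.gcd_pos_of_ne_zero_right _ ha.ne'
  obtain ⟨z0, hz⟩ : (Int.gcd z a : ℤ) ∣ z := Int.gcd_dvd_left _ _
  obtain ⟨a0, ha0⟩ : (Int.gcd z a : ℤ) ∣ a := Int.gcd_dvd_right _ _
  set g : ℤ := (Int.gcd z a : ℤ) with hg
  have hg1 : 0 < g := by rw [hg]; exact_mod_cast hg0
  have ha00 : 0 < a0 := by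
    rcases lt_trichotomy a0 0 with h | h | h
    · have := mul_neg_of_pos_of_neg hg1 h
      omega
    · rw [h, mul_zero] at ha0; omega
    · exact h
  have hz0 : IsCoprime z0 a0 := by
    refine isCoprime_of_prime fun l hl g1 g2 => ?_
    have h3 : g * l ∣ g := by
      conv_rhs => rw [hg]
      refine Int.dvd_coe_gcd ?_ ?_
      · rw [hz]; exact mul_dvd_mul_left g g2
      · rw [ha0]; exact mul_dvd_mul_left g g1
    have h4 : g * l ∣ g * 1 := by rwa [mul_one]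
    exact prime_not_dvd_one hl ((mul_dvd_mul_iff_left hg1.ne').1 h4)
  have hc' : c = (Int.gcd p' a' : ℤ) := by
    have h3 : (Int.gcd p' a' : ℤ) = (Int.gcd (p1 * c) (r * c) : ℤ) := by rw [e1, e2]
    rw [h3, Int.gcd_mul_right]
    push_cast
    rw [Int.isCoprime_iff_gcd_eq_one.1 h1]
    simp [abs_of_pos hc]
  have hag : a = a0 * g := by rw [mul_comm]; exact ha0
  have hok' := hok
  rw [hag, hz, e1, e2] at hok'
  obtain ⟨s, q, z2, q2, κ, G, i1, i2, i3, i4, i5, i6, i7, i8, i9, i10, i11, i12, i13, i14, i15,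
    i16, i17⟩ := KC.qchoice (M := M) ha00 hr hc h1 h2 hz0 (fun l hl g1 g2 g3 =>
      hfro l hl (by rw [e1]; exact g1.mul_left r) (by rw [e2]; exact g1.mul_left p1)
        (by rw [hag]; exact g3.mul_right g)) hM (by rw [← hag]; exact hMa) hok'
  refine ⟨g, r, c, s, q, z2, q2, κ, G, rfl, hg1, hr, hc, e1, hc', i1, i2, ?_, i4, i5, i6, i7, i8,
    ?_, ?_, ?_, ?_, ?_, i15, ?_, ?_⟩
  · rw [ha0]; exact mul_dvd_mul_left g i3
  · rw [hag]; exact i9
  · rw [hag]; exact i10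
  · rw [hag, e1, e2]; exact i11
  · rw [hag, e1, e2]
    conv_lhs => rw [hz]
    exact i12
  · rw [e1, e2]; exact i13
  · rw [hag]; exact i16
  · rw [e1]; exact i17

end Pool.Agent.H4G
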