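import Pool.Agent.H4G.Ctwo.Main
import Pool.Agent.H4G.Ctwo.Line1
import Pool.Agent.H4G.Ctwo.QChoice
import Pool.Agent.H4G.Ctwo.Type4

/-!
# Definitions for (G3) (helper62)
-/

set_option autoImplicit false

namespace Pool.Agent.H4G

/-- `N` is large against the sieve bound `J` -/
structure Big (N : ℤ) (J Z : ℕ) : Prop where
  J0 : 2 ^ 20 ≤ J
  cap : Cap J Z
  hZ : (2 * N) ^ 20 ≤ (Z : ℤ)
  hN : (J : ℤ) ^ 200 ≤ N

/-- a K-state with `d = 1` and content `1` -/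
structure KSt (N a z a' p' q' : ℤ) : Prop where
  hN : a + 1 + a' = N
  ha : 0 < a
  ha' : 0 < a'
  hP : Prm a' p' q'
  ok : (KC a z (-1) a' p' q').Ok

/-- the state is neither of type `(1,420)` nor of type `(0,331)` -/
structure KTy (a z a' p' q' : ℤ) : Prop where
  c2 : (2 : ℤ) ∣ a' → ¬ (2 : ℤ) ∣ p'
  n331 : (2 : ℤ) ∣ a → (2 : ℤ) ∣ a' → (2 : ℤ) ∣ z ∨ (2 : ℤ) ∣ q'

/-- the input of a move on the left: the primes of `c = gcd (p', a')` are frozen, the area `a` is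
large and the shear index `gcd (a, a' / c + 1)` is small against it -/
structure MIn (J : ℕ) (N a z a' p' q' : ℤ) : Prop extends KSt N a z a' p' q',
    KTy a z a' p' q' where
  frz : ∀ l : ℕ, l.Prime → (l : ℤ) ∣ a' → (l : ℤ) ∣ p' → (l : ℤ) ∣ a + 1
  big : (J : ℤ) ^ 30 ≤ a
  idx : ∀ r c : ℤ, a' = r * c → c = (Int.gcd p' a' : ℤ) → (Int.gcd a (r + 1) : ℤ) * J ^ 12 ≤ a

theorem KTy.mirror {a z a' x : ℤ} (h : KTy a z a' 1 (-x)) : KTy a' (-x) a 1 z := by
  refine ⟨fun _ h2 => ?_, fun h1 h2 => ?_⟩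
  · norm_num at h2
  · rcases h.n331 h2 h1 with h3 | h3
    · exact Or.inr h3
    · exact Or.inl h3

/-- the mirror of a state with `c = d = 1` -/
theorem KSt.mirror {N a z a' x : ℤ} (h : KSt N a z a' 1 (-x)) :
    KSt N a' (-x) a 1 z ∧ SEq (KC a z (-1) a' 1 (-x)) (KC a' (-x) (-1) a 1 z) := by
  have m := KC.mirror h.ok
  have e : KC a' (-x) (-1) a (-1) (-z) = KC a' (-x) (-1) a 1 z := by
    rw [← KC.unit' (a := a') (p := -x) (q := -1) (a' := a) (p' := 1) (q' := z) (t := -1)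
      isCoprime_one_right.neg_right]
    simp
  rw [e] at m
  refine ⟨⟨by linarith [h.hN], h.ha', h.ha, ?_, m.ok'⟩, m⟩
  intro l hl _ h1
  exact absurd h1 (by
    intro h2
    exact prime_not_dvd_one hl h2)

end Pool.Agent.H4G
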