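import Pool.Agent.H4G.Ctwo.G3
import Pool.Agent.H4G.Ctwo.Line2k
import Pool.Agent.H4G.Ctwo.BigEx
import Pool.Agent.H4G.Ctwo.AsmAll
import Pool.Agent.H4G.Cone.RedK

/-!
# (G3) and the completeness of the HLK value for all large odd `N` (helper62)
-/

set_option autoImplicit false

namespace Pool.Agent.H4G

theorem Big.move2P {N : ℤ} {J Z : ℕ} (hB : Big N J Z) : Move2P J N := by
  intro a z a' p' q' E0 h hg hE
  obtain ⟨E, w, x, k1, k2, k3, k4, k5, k6, k7, _, k8, k9, k10⟩ := h.move2 hB hg E0 hE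
  exact ⟨E, w, x, k1, k2, k3, k4, k5, k6, k7, k8, k9, k10⟩

/-- (G3), `N` odd -/
theorem Big.g3O {N : ℤ} {J Z : ℕ} (hB : Big N J Z) (hodd : ¬ (2 : ℤ) ∣ N) : G3O J N :=
  g3O_of hB hB.move2P hodd

/-- (G3), `N` even, modulo the type `(1, 420)` -/
theorem Big.g3E {N : ℤ} {J Z : ℕ} (hB : Big N J Z) (heven : (2 : ℤ) ∣ N)
    (hT : ∀ a z a' p' q' : ℤ, KSt N a z a' p' q' → ¬ (2 : ℤ) ∣ a → (2 : ℤ) ∣ a' →
      (2 : ℤ) ∣ p' → ∃ G, SEq (KC a z (-1) a' p' q') G ∧ GenT J N G) :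
    G3E J N :=
  g3E_of hB hB.move2P heven hT

theorem Big.four {N : ℕ} {J Z : ℕ} (hB : Big (N : ℤ) J Z) : (2 * (N : ℤ)) ^ 4 ≤ Z := by
  have h1 := hB.hZ
  rcases Nat.eq_zero_or_pos N with h | h
  · subst h
    norm_num
  · have h2 : (1 : ℤ) ≤ N := by exact_mod_cast h
    calc (2 * (N : ℤ)) ^ 4 ≤ (2 * (N : ℤ)) ^ 20 :=
          pow_le_pow_right₀ (by linarith) (by norm_num)
      _ ≤ Z := h1

theorem Big.Jpos {N : ℤ} {J Z : ℕ} (hB : Big N J Z) : 1 ≤ J :=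
  le_trans (by norm_num) hB.J0

/-- ODD `N`: the four classes -/
theorem chains_odd : ∃ N0 : ℕ, ∀ N : ℕ, N0 ≤ N → Odd N → ChainsN N 4 := by
  obtain ⟨N1, h1⟩ := redK_all
  obtain ⟨N2, h2⟩ := exists_Big
  refine ⟨max N1 N2, fun N hN ho => ?_⟩
  obtain ⟨J, Z, hB⟩ := h2 N (le_trans (le_max_right _ _) hN)
  have ho' : ¬ (2 : ℤ) ∣ (N : ℤ) := by
    intro h
    have : 2 ∣ N := by exact_mod_cast h
    rw [Nat.odd_iff] at ho
    omega
  exact (chainsN_of hB.cap hB.four hB.Jpos (h1 N (le_trans (le_max_left _ _) hN))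
    (fun _ => hB.g3O ho') (fun he => absurd ho (Nat.not_odd_iff_even.2 he))).1 ho

/-- ODD `N`: the HLK value is a complete invariant -/
theorem complete_odd_large : ∃ N0 : ℕ, ∀ N : ℕ, N0 ≤ N → Odd N →
      (∀ p : Ori N, p.PH → ∃! v, p.HLK v) ∧
      (∀ v, (∃ p : Ori N, p.PH ∧ p.HLK v) ↔ v ∈ vals N) ∧
      ∀ p q : Ori N, p.PH → q.PH → (p.SameOrbit q ↔ ∃ v, p.HLK v ∧ q.HLK v) := by
  obtain ⟨N0, h⟩ := chains_odd
  refine ⟨max N0 9, fun N hN ho => ?_⟩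
  exact complete_odd ho (lt_of_lt_of_le (by norm_num) (le_trans (le_max_right N0 9) hN))
    (h N (le_trans (le_max_left _ _) hN) ho)

/-- ALL large `N`, modulo the type `(1, 420)` -/
theorem complete_large_of (hT : ∀ (N : ℕ) (J Z : ℕ), Big (N : ℤ) J Z → ∀ a z a' p' q' : ℤ,
      KSt N a z a' p' q' → ¬ (2 : ℤ) ∣ a → (2 : ℤ) ∣ a' → (2 : ℤ) ∣ p' →
      ∃ G, SEq (KC a z (-1) a' p' q') G ∧ GenT J N G) :
    ∃ N0 : ℕ, ∀ N : ℕ, N0 ≤ N →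
      (∀ p : Ori N, p.PH → ∃! v, p.HLK v) ∧
      (∀ v, (∃ p : Ori N, p.PH ∧ p.HLK v) ↔ v ∈ vals N) ∧
      ∀ p q : Ori N, p.PH → q.PH → (p.SameOrbit q ↔ ∃ v, p.HLK v ∧ q.HLK v) := by
  apply complete_all_of
  apply chains_large_of redK_all
  obtain ⟨N2, h2⟩ := exists_Big
  refine ⟨N2, fun N hN => ?_⟩
  obtain ⟨J, Z, hB⟩ := h2 N hN
  refine ⟨J, Z, hB.cap, hB.four, hB.Jpos, fun ho => ?_, fun he => ?_⟩
  · apply hB.g3O
    intro h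
    have : 2 ∣ N := by exact_mod_cast h
    rw [Nat.odd_iff] at ho
    omega
  · apply hB.g3E _ (hT N J Z hB)
    have : 2 ∣ N := he.two_dvd
    exact_mod_cast this

end Pool.Agent.H4G
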