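import Pool.Agent.H4G.Ctwo.ExitN

/-!
# `k`-fold exits: mirror and controlled landing (helper98)

`KC.exitRk` : the mirror of `KC.exitLk`; `KC.exitLVk`, `KC.exitRVk` : `k`-fold exits with a
controlled landing (`k`-fold versions of `KC.exitLV`, `KC.exitRV`);
`KC.exitC1k` : `k`-fold exit with `c₁` odd.
-/

set_option autoImplicit false

namespace Pool.Agent.H4G

/-- `k`-FOLD RIGHT EXIT with `d₁ = 1`: the mirror of `KC.exitLk` -/
theorem KC.exitRk {a p q a' x s e h j : ℤ} (k : ℕ) (hs : s = 1 ∨ s = -1) (he : 0 ≤ e)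
    (heh : (k : ℤ) * e < h) (hh0 : 0 < h)
    (hha : h ≤ a') (hh : h = s * e * x + j * a') (hej : IsCoprime e j) (ha : 0 < a)
    (hP : Prm a p q) (hco : IsCoprime (1 + k * e) (k * (1 + h)))
    (hfree : ∀ r : ℕ, r.Prime → (r : ℤ) ∣ a → ¬ (r : ℤ) ∣ a' + 1 → (r : ℤ) ∣ p →
      ¬ (r : ℤ) ∣ 1 + k * e)
    (hfroz : ∀ r : ℕ, r.Prime → (r : ℤ) ∣ a → (r : ℤ) ∣ a' + 1 →
      ¬ (r : ℤ) ∣ p * (k * (s * (1 + h))) + q * (1 + k * e))
    (hok : (KC a p q a' 1 (-x)).Ok) :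
    ∃ z p1 : ℤ, Prm (a' - k * e) p1 (x + k * (s * (j - 1))) ∧
      SEq (KC a p q a' 1 (-x))
        (KC (a + k * e) z (-1) (a' - k * e) p1 (x + k * (s * (j - 1)))) := by
  have m1 := KC.mirror hok
  have hPm : Prm a q (-p) := fun l hl k1 k2 k3 => hP l hl k1 ((dvd_neg).1 k3) k2
  have hs' : -s = 1 ∨ -s = -1 := by
    rcases hs with rfl | rfl
    · exact Or.inr rfl
    · exact Or.inl (by norm_num)
  obtain ⟨q1, x1, k1, k2⟩ := KC.exitLk (s := -s) (e := e) (h := h) (j := j) k hs' he heh hh0 hha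
    (by rw [hh]; ring) hej ha hPm hco
    (by
      intro r hr h1 h2 h3
      exact hfree r hr h1 h2 ((dvd_neg).1 h3))
    (by
      intro r hr h1 h2 h3
      refine hfroz r hr h1 h2 ?_
      have e1 : q * (1 + k * e) + -p * (k * (-s * (1 + h))) =
          p * (k * (s * (1 + h))) + q * (1 + k * e) := by ring
      rwa [e1] at h3) m1.ok'
  have e2 : -x + k * (-s * (j - 1)) = -(x + k * (s * (j - 1))) := by ring
  rw [e2] at k1 k2
  have k3 := (m1.trans k2).trans (KC.mirror k2.ok')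
  rw [neg_neg] at k3
  refine ⟨-x1, q1, ?_, k3⟩
  intro l hl h1 h2 h3
  exact k1 l hl h1 ((dvd_neg).2 h3) h2

/-- `k`-FOLD LEFT EXIT with a controlled landing on the right: `M` is V-free and `v`-generic at the
odd primes; `(Y, Z)` is any vector with `cr u_k (Y, Z) = 1`, `Y` prime to the odd part of `a'`; the
new right cusp is the cusp of `Y + k e`. -/
theorem KC.exitLVk {a z a' p' q' s e h j Y Z j0 : ℤ} (k : ℕ) (hs : s = 1 ∨ s = -1) (he : 0 ≤ e)
    (heh : (k : ℤ) * e < h) (hh0 : 0 < h) (hha : h ≤ a) (hh : h = s * e * z + j * a)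
    (hej : IsCoprime e j) (ha' : 0 < a')
    (hP' : Prm a' p' q') (hu : (1 + k * e) * Z - k * (s * (1 + h)) * Y = 1) (hY0 : 0 < Y)
    (hYa : Y ≤ a') (hn : OC a' (a + 1)) (hq : OC a' q') (hY : OC a' Y)
    (h2 : ∀ σ : ℕ, (2 : ℤ) ^ σ ∣ a' → (2 : ℤ) ^ σ ∣ (p' - j0 * (a + 1) * q') * Y + q' * Z)
    (hok : (KC a z (-1) a' p' q').Ok) :
    ∃ q1 : ℤ, Prm (a - k * e) (z + k * (s * (j - 1))) q1 ∧
      SEq (KC a z (-1) a' p' q')
        (KC (a - k * e) (z + k * (s * (j - 1))) q1 (a' + k * e) 1 (-(Y + k * e))) := by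
  have hss : s * s = 1 := by rcases hs with rfl | rfl <;> norm_num
  have ha : 0 < a := by linarith
  have hk0 : (0 : ℤ) ≤ k := Int.natCast_nonneg k
  obtain ⟨i, hi⟩ := exists_VQ ha' hn hq hY h2
  have h1 := KC.V1 ha isCoprime_one_left.neg_left i hok
  have hP2 : Prm a' (p' - i * (a + 1) * q') q' := by
    have := hP'.shV (i * (a + 1))
    exact this
  have hm : z * (s * e) + -1 * h = a * (-j) := by rw [hh]; ring
  have hPk : ∀ n b : ℤ, Prm n b (-1) := by
    intro n b l hl _ _ h6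
    exact prime_not_dvd_one hl ((dvd_neg).1 h6)
  have k1 := exitGk hs he hha hh0 hm
    (by
      intro l hl h4 _ h6
      exact not_dvd_of_isCoprime hej hl ((dvd_neg).1 h6) h4)
    h1.ok' k heh (fun i _ => hPk _ _)
  have k2 := landRc (e := k * e) (w := k * (s * (1 + h))) ha' hP2 (mul_nonneg hk0 he) hi hu hY0 hYa
    k1.ok'
  have hB : Prm (a - k * e) ((z - k * (s * -j)) * (1 + k * e) + -1 * (k * (s * (1 + h))))
      ((z - k * (s * -j)) * (Y - (Y + k * e) * (1 + k * e)) +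
        -1 * (Z - (Y + k * e) * (k * (s * (1 + h))))) := by
    have hb : cr ((1 + k * e, k * (s * (1 + h))) : Z2)
        (Y - (Y + k * e) * (1 + k * e), Z - (Y + k * e) * (k * (s * (1 + h)))) = 1 := by
      simp only [cr]; linear_combination hu
    exact Prm.base (n := a - k * e) (p := z - k * (s * -j)) (q := -1) (hPk _ _) hb
  have e1 : a - k * e ∣ z + k * (s * (j - 1)) -
      ((z - k * (s * -j)) * (1 + k * e) + -1 * (k * (s * (1 + h)))) := by
    refine ⟨k * (s * j), ?_⟩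
    rw [hh]
    linear_combination k * e * z * hss
  have e2 : a - k * e ∣ ((z - k * (s * -j)) * (Y - (Y + k * e) * (1 + k * e)) +
        -1 * (Z - (Y + k * e) * (k * (s * (1 + h))))) -
      ((z - k * (s * -j)) * (Y - (Y + k * e) * (1 + k * e)) +
        -1 * (Z - (Y + k * e) * (k * (s * (1 + h))))) :=
    ⟨0, by ring⟩
  refine ⟨_, hB.congr e1 e2, ?_⟩
  have k3 := (h1.trans k1).trans k2
  have k4 : KC (a - k * e) ((z - k * (s * -j)) * (1 + k * e) + -1 * (k * (s * (1 + h))))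
      ((z - k * (s * -j)) * (Y - (Y + k * e) * (1 + k * e)) +
        -1 * (Z - (Y + k * e) * (k * (s * (1 + h)))))
        (a' + k * e) 1 (-(Y + k * e)) = KC (a - k * e) (z + k * (s * (j - 1)))
      ((z - k * (s * -j)) * (Y - (Y + k * e) * (1 + k * e)) +
        -1 * (Z - (Y + k * e) * (k * (s * (1 + h)))))
        (a' + k * e) 1 (-(Y + k * e)) :=
    KC.congr e1 e2 ⟨0, by ring⟩ ⟨0, by ring⟩
  rw [k4] at k3
  exact k3

/-- `k`-FOLD RIGHT EXIT with a controlled landing on the left: the mirror of `KC.exitLVk`. -/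
theorem KC.exitRVk {a p q a' x s e h j Y Z j0 : ℤ} (k : ℕ) (hs : s = 1 ∨ s = -1) (he : 0 ≤ e)
    (heh : (k : ℤ) * e < h) (hh0 : 0 < h) (hha : h ≤ a') (hh : h = s * e * x + j * a')
    (hej : IsCoprime e j) (ha : 0 < a)
    (hP : Prm a p q) (hu : (1 + k * e) * Z + k * (s * (1 + h)) * Y = 1) (hY0 : 0 < Y)
    (hYa : Y ≤ a) (hn : OC a (a' + 1)) (hp : OC a p) (hY : OC a Y)
    (h2 : ∀ σ : ℕ, (2 : ℤ) ^ σ ∣ a → (2 : ℤ) ^ σ ∣ (q + j0 * (a' + 1) * p) * Y - p * Z)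
    (hok : (KC a p q a' 1 (-x)).Ok) :
    ∃ p1 : ℤ, Prm (a' - k * e) p1 (x + k * (s * (j - 1))) ∧
      SEq (KC a p q a' 1 (-x))
        (KC (a + k * e) (-(Y + k * e)) (-1) (a' - k * e) p1 (x + k * (s * (j - 1)))) := by
  have m1 := KC.mirror hok
  have hPm : Prm a q (-p) := fun l hl k1 k2 k3 => hP l hl k1 ((dvd_neg).1 k3) k2
  have hs' : -s = 1 ∨ -s = -1 := by
    rcases hs with rfl | rfl
    · exact Or.inr rfl
    · exact Or.inl (by norm_num)
  have hpn : OC a (-p) := fun l hl l2 l3 l4 => hp l hl l2 l3 ((dvd_neg).1 l4)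
  obtain ⟨q1, k1, k2⟩ := KC.exitLVk (s := -s) (e := e) (h := h) (j := j) (Y := Y) (Z := Z)
    (j0 := j0) k hs' he heh hh0 hha (by rw [hh]; ring) hej ha hPm (by linear_combination hu)
    hY0 hYa hn hpn hY
    (by
      intro σ hσ
      have e1 : (q - j0 * (a' + 1) * -p) * Y + -p * Z = (q + j0 * (a' + 1) * p) * Y - p * Z := by
        ring
      rw [e1]
      exact h2 σ hσ) m1.ok'
  have e2 : -x + k * (-s * (j - 1)) = -(x + k * (s * (j - 1))) := by ring
  rw [e2] at k1 k2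
  have k3 := (m1.trans k2).trans (KC.mirror k2.ok')
  rw [neg_neg] at k3
  refine ⟨q1, ?_, k3⟩
  intro l hl h1 h2 h3
  exact k1 l hl h1 ((dvd_neg).2 h3) h2

/-- `k`-FOLD LEFT EXIT with `c₁` odd, `c₁ ∣ k e`, then `d = 1` and content `1` by an H-twist. -/
theorem KC.exitC1k {a z a' p' q' s e h j c : ℤ} (k : ℕ) (hs : s = 1 ∨ s = -1) (he : 0 ≤ e)
    (heh : (k : ℤ) * e < h) (hh0 : 0 < h)
    (hha : h ≤ a) (hh : h = s * e * z + j * a) (hej : IsCoprime e j) (ha' : 0 < a')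
    (hP' : Prm a' p' q') (hc : IsC (Lc a' p' q') (1 + k * e, k * (s * (1 + h))) c)
    (hce : c ∣ k * e) (hco : ¬ (2 : ℤ) ∣ c)
    (hn : ∀ l : ℕ, l.Prime → l ≠ 2 → (l : ℤ) ∣ a - k * e → ¬ (l : ℤ) * c ∣ a' + k * e + c)
    (h2 : (2 : ℤ) ∣ a - k * e → (2 : ℤ) ∣ a' + k * e)
    (hok : (KC a z (-1) a' p' q').Ok) :
    ∃ z1 p1 q1 : ℤ, Prm (a' + k * e) p1 q1 ∧ IsC (Lc (a' + k * e) p1 q1) (1, 0) c ∧
      (∀ l : ℤ, l ∣ a - k * e → (l ∣ z1 ↔ l ∣ z + k * (s * (j - 1)))) ∧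
      SEq (KC a z (-1) a' p' q') (KC (a - k * e) z1 (-1) (a' + k * e) p1 q1) := by
  have hm : z * (s * e) + -1 * h = a * (-j) := by rw [hh]; ring
  obtain ⟨q1, M', k1, k2, k3, k4⟩ := KC.exitKk k hs he heh hh0 hha hm
    (by
      intro l hl h4 _ h6
      exact not_dvd_of_isCoprime hej hl ((dvd_neg).1 h6) h4)
    (by
      intro i _ l hl _ _ h6
      exact prime_not_dvd_one hl ((dvd_neg).1 h6))
    (isArea_Lc ha' hP') hc hce hok
  have e1 : z + k * (s * (-1 - -j)) = z + k * (s * (j - 1)) := by ring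
  rw [e1] at k1 k2
  have hc0 := k4.1
  obtain ⟨r, c1, x, hr1, hc1, f1, f2⟩ := k3.hnf'
  have hcc : c1 = c := by
    have : IsC M' (1, 0) c1 := by
      rw [f2]
      have := isC_adapted (e := (r, 0)) (f := (x, c1)) (u := (1, 0)) (by simp [cr])
        (by simp [cr]; exact hc1)
      simpa [cr] using this
    exact this.unique k4
  subst hcc
  obtain ⟨z1, p1, q2, l1, l2, l3, l4⟩ := KS.Hchoose (by linarith) k1 k3 k4 f1
    (by
      intro l hl hl2 h3 h4
      refine hn l hl hl2 h3 ?_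
      rw [f1]
      have : r * c1 + c1 = (r + 1) * c1 := by ring
      rw [this]
      exact mul_dvd_mul_right h4 _) hco
    (by
      intro h3 _ h5
      have h6 := h2 h3
      rw [f1] at h6
      rcases Int.prime_two.dvd_or_dvd h6 with h7 | h7
      · have := dvd_sub h5 h7
        norm_num at this
      · exact hco h7) k2.ok'
  exact ⟨z1, p1, q2, l1, l2, l3, k2.trans l4⟩

end Pool.Agent.H4G
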