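import Pool.Agent.H4G.Ctwo.FixKc
import Pool.Agent.H4G.Ctwo.ExitJ

/-!
# THE LAST STEP of (G3) (helper31)

Good level, left class generic, right class arbitrary: one right exit makes both classes generic.
-/

set_option autoImplicit false

namespace Pool.Agent.H4G

/-- LEFT FREEDOM, the right class arbitrary -/
theorem KC.freeL {a a' z z1 x : ℤ} (ha : 0 < a) (ha' : 0 < a')
    (h2 : ¬ (2 : ℤ) ∣ a ∨ a % 4 = 2 ∨ (a % 16 = 12 ∧ a' % 4 = 2 ∧ (2 : ℤ) ∣ z ∧ (2 : ℤ) ∣ x))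
    (hn : OC a (a' + 1)) (hz : OC a z) (hz1 : OC a z1) (hp : (2 : ℤ) ∣ a → (2 : ℤ) ∣ z1 - z)
    (hok : (KC a z (-1) a' 1 (-x)).Ok) :
    SEq (KC a z (-1) a' 1 (-x)) (KC a z1 (-1) a' 1 (-x)) := by
  by_cases h16 : a % 16 = 12
  · have hh : a' % 4 = 2 ∧ (2 : ℤ) ∣ z ∧ (2 : ℤ) ∣ x := by
      rcases h2 with h | h | h
      · omega
      · omega
      · exact h.2
    obtain ⟨h4', z2, x2⟩ := hh
    have hpp := hp (by omega)
    by_cases h4 : (4 : ℤ) ∣ z1 - z
    · refine KC.zH ha ha' isCoprime_one_left hn hz hz1 ?_ hok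
      intro s hs
      have e : a = 4 * (a / 4) := by omega
      rw [e] at hs
      exact (pow_two_dvd_four (m := a / 4) (by omega) hs).trans h4
    · exact KC.g1four (m := a / 4) (m' := a' / 2) (by omega) (by omega) (by omega) (by omega)
        (by omega) (by omega) hn hz hz1 z2 x2 (by omega) hok
  · have hc : ¬ (2 : ℤ) ∣ a ∨ a % 4 = 2 := by omega
    exact KC.zH ha ha' isCoprime_one_left hn hz hz1 (two_adic hc hp) hok

/-- the right exit with given `(k, e)`, `s = -1`, the classes at the odd primes generic -/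
theorem KC.last_aux {J Z : ℕ} {N a a' z x μ g q2 x' k' e τ : ℤ} {s : ℕ} (hcap : Cap J Z)
    (hZ : N ^ 6 ≤ Z) (hN : a + 1 + a' = N) (ha : 0 < a) (ga : GLev N a)
    (h2 : ¬ (2 : ℤ) ∣ a ∨ a % 4 = 2 ∨ (a % 16 = 12 ∧ a' % 4 = 2 ∧ (2 : ℤ) ∣ z ∧ (2 : ℤ) ∣ x))
    (hs1 : s = 0 ∨ s = 1) (hτ : τ = 2 ^ s) (ha' : a' = 2 ^ s * μ) (hμ : ¬ (2 : ℤ) ∣ μ)
    (hμ0 : 0 < μ) (hμg : μ = g * q2) (hg : 0 < g) (hx : x = g * x')
    (hx' : IsCoprime x' q2) (hk2 : ¬ (2 : ℤ) ∣ k') (hkq : IsCoprime k' q2)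
    (hpar : (2 : ℤ) ∣ a → (2 : ℤ) ∣ a' → (2 : ℤ) ∣ z ∧ (2 : ℤ) ∣ x)
    (hz : OC a z) (he0 : 0 < e) (hek : e < τ * g * k') (hka : τ * g * k' < a')
    (he16 : (16 : ℤ) ∣ e) (hcl : ∀ d : ℤ, d ∣ g → d ∣ q2 → d ∣ e * x' + τ * k')
    (F : FKc N a a' (τ * g * k') e) (hsize : (1 + e) * (2 * (J : ℤ) ^ 2 + 2) ≤ a)
    (hok : (KC a z (-1) a' 1 (-x)).Ok) :
    ∃ w y : ℤ, OC (a + e) w ∧ OC (a' - e) y ∧ ((2 : ℤ) ∣ a → (2 : ℤ) ∣ w - z) ∧
      ((2 : ℤ) ∣ a' → (2 : ℤ) ∣ y - x) ∧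
      SEq (KC a z (-1) a' 1 (-x)) (KC (a + e) w (-1) (a' - e) 1 (-y)) := by
  set k : ℤ := τ * g * k' with hk
  have hq2μ : q2 ∣ μ := ⟨g, by rw [hμg]; ring⟩
  have hgμ : g ∣ μ := ⟨q2, hμg⟩
  have hμa : μ ∣ a' := ⟨2 ^ s, by rw [ha']; ring⟩
  have hq20 : ¬ (2 : ℤ) ∣ q2 := fun h => hμ (h.trans hq2μ)
  have hg20 : ¬ (2 : ℤ) ∣ g := fun h => hμ (h.trans hgμ)
  have ha'0 : 0 < a' := by linarith
  have he2 : (2 : ℤ) ∣ e := (by norm_num : (2 : ℤ) ∣ 16).trans he16
  -- `e` is a unit modulo `q2`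
  have heq : IsCoprime e q2 := by
    apply isCoprime_of_prime
    intro l hl h3 h4
    by_cases hl2 : l = 2
    · subst hl2; exact hq20 (by exact_mod_cast h3)
    · exact F.U l hl hl2 ((h3.trans hq2μ).trans hμa) h4
  -- the class `x1'`
  obtain ⟨x1', hx1q, hx1p⟩ : ∃ x1' : ℤ, q2 ∣ x1' * e + τ * k' ∧ (2 : ℤ) ∣ x1' - x' := by
    obtain ⟨α, β, hab⟩ := heq
    -- `x1' = -α τ k' + q2 t`
    obtain ⟨t, ht⟩ : ∃ t : ℤ, (2 : ℤ) ∣ -(α * (τ * k')) + q2 * t - x' := by
      rcases Int.even_or_odd (-(α * (τ * k')) - x') with h | h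
      · exact ⟨0, by
          have e1 : -(α * (τ * k')) + q2 * 0 - x' = -(α * (τ * k')) - x' := by ring
          rw [e1]; exact h.two_dvd⟩
      · exact ⟨1, by
          obtain ⟨m, hm⟩ := h
          have e1 : -(α * (τ * k')) + q2 * 1 - x' = 2 * m + 1 + q2 := by linarith
          rw [e1]; omega⟩
    refine ⟨-(α * (τ * k')) + q2 * t, ?_, ht⟩
    exact ⟨β * (τ * k') + t * e, by linear_combination (-(τ * k')) * hab⟩
  set x1 : ℤ := g * x1' with hx1
  have hτodd : ∀ l : ℕ, l.Prime → l ≠ 2 → ¬ (l : ℤ) ∣ τ := by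
    intro l hl hl2 h
    rw [hτ] at h
    exact prime_not_dvd_two hl hl2 ((Nat.prime_iff_prime_int.1 hl).dvd_of_dvd_pow h)
  have hx1c : IsCoprime x1' q2 := by
    apply isCoprime_of_prime
    intro l hl h3 h4
    by_cases hl2 : l = 2
    · subst hl2; exact hq20 (by exact_mod_cast h3)
    · have h5 : (l : ℤ) ∣ τ * k' := (dvd_add_right (h4.mul_right e)).1 (h3.trans hx1q)
      rcases (Nat.prime_iff_prime_int.1 hl).dvd_or_dvd h5 with h6 | h6
      · exact hτodd l hl hl2 h6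
      · exact not_dvd_of_isCoprime hkq hl h3 h6
  -- `j`
  have hτ4 : τ = 1 ∨ τ = 2 := by
    rcases hs1 with rfl | rfl
    · left; rw [hτ]; norm_num
    · right; rw [hτ]; norm_num
  have hja : a' ∣ k + x1 * e := by
    have e1 : k + x1 * e = g * (x1' * e + τ * k') := by rw [hk, hx1]; ring
    have d1 : μ ∣ k + x1 * e := by
      rw [e1, hμg]; exact mul_dvd_mul_left g hx1q
    have d2 : (2 : ℤ) ^ s ∣ k + x1 * e := by
      rcases hs1 with rfl | rfl
      · simp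
      · rw [pow_one]
        refine dvd_add ?_ (he2.mul_left _)
        exact ⟨g * k', by rw [hk, hτ]; ring⟩
    rw [ha']
    exact (IsCoprime.pow_left ((Prime.coprime_iff_not_dvd Int.prime_two).2 hμ)).mul_dvd d2 d1
  obtain ⟨j, hj⟩ := hja
  have hkj : k = x1 * (-1 * e) + j * a' := by linarith
  have hkodd : ∀ l : ℕ, l.Prime → l ≠ 2 → (l : ℤ) ∣ e → ¬ (l : ℤ) ∣ j := by
    intro l hl hl2 h3 h4
    refine F.P l hl hl2 ?_ h3
    rw [hkj]
    exact dvd_add ((h3.mul_left _).mul_left _) (h4.mul_right _)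
  have hgk' : ¬ (2 : ℤ) ∣ g * k' := fun h => by
    rcases Int.prime_two.dvd_or_dvd h with h | h
    · exact hg20 h
    · exact hk2 h
  have hj2 : ¬ (2 : ℤ) ∣ j := by
    intro h
    have h3 : (2 : ℤ) ^ s * 2 ∣ k := by
      rw [hkj]
      refine dvd_add ?_ ?_
      · have h4 : (2 : ℤ) ^ s * 2 ∣ e := by
          rcases hs1 with rfl | rfl
          · simpa using he2
          · refine dvd_trans ?_ he16; norm_num
        exact (h4.mul_left _).mul_left _
      · rw [ha', mul_comm ((2 : ℤ) ^ s) 2]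
        have e1 : j * (2 ^ s * μ) = (j * 2 ^ s) * μ := by ring
        rw [e1]
        exact (mul_dvd_mul h dvd_rfl).mul_right _
    rw [hk, hτ, mul_assoc] at h3
    exact hgk' ((mul_dvd_mul_iff_left (by positivity)).1 h3)
  have hej : IsCoprime e j := by
    apply isCoprime_of_prime
    intro l hl h3 h4
    by_cases hl2 : l = 2
    · subst hl2; exact hj2 (by exact_mod_cast h3)
    · exact hkodd l hl hl2 h4 h3
  -- the V-move
  have hx1x : (2 : ℤ) ∣ x1 - x := by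
    have e1 : x1 - x = g * (x1' - x') := by rw [hx1, hx]; ring
    rw [e1]; exact hx1p.mul_left g
  have s1 : SEq (KC a z (-1) a' 1 (-x)) (KC a z (-1) a' 1 (-x1)) := by
    refine KC.xVg ha isCoprime_one_left.neg_left ha' hμ hμ0 (ga.ocR hN) hμg hx hx1 hx' hx1c
      ?_ ?_ hok
    · intro d hd1 hd2
      have h3 := hcl d hd1 hd2
      have h4 := dvd_sub h3 (hd2.trans hx1q)
      have e1 : e * x' + τ * k' - (x1' * e + τ * k') = e * (x' - x1') := by ring
      rw [e1] at h4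
      exact (heq.of_isCoprime_of_dvd_right hd2).symm.dvd_of_dvd_mul_left h4
    · rcases hs1 with rfl | rfl
      · simp
      · rw [pow_one]; exact hx1x
  have hx1par : (2 : ℤ) ∣ x → (2 : ℤ) ∣ x1 := by
    intro h
    have := dvd_add hx1x h
    simpa using this
  -- the landing vector
  have hkpar : (2 : ℤ) ∣ k ↔ (2 : ℤ) ∣ a' := by
    rcases hs1 with rfl | rfl
    · rw [pow_zero, one_mul] at ha'
      rw [hk, hτ, ha', pow_zero, one_mul]
      exact ⟨fun h => absurd h hgk', fun h => absurd h hμ⟩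
    · rw [hk, hτ, ha', pow_one]
      exact ⟨fun _ => dvd_mul_right _ _, fun _ => ⟨g * k', by ring⟩⟩
  have hcop : IsCoprime (1 + e) (1 + k) := by
    apply isCoprime_of_prime
    intro l hl h3 h4
    by_cases hl2 : l = 2
    · subst hl2
      have h4' : (2 : ℤ) ∣ 1 + e := by exact_mod_cast h4
      omega
    · exact F.A l hl hl2 h4 h3
  have hZ' : a * (a + e) ≤ Z := by
    refine le_trans ?_ hZ
    have h3 : a + e ≤ N := by linarith
    have h4 : a ≤ N := by linarith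
    have hN1 : 1 ≤ N := by linarith
    have h5 : a * (a + e) ≤ N * N := mul_le_mul h4 h3 (by linarith) (by linarith)
    have e1 : N ^ 6 = N * N * (N * N * (N * N)) := by ring
    have h6 : (1 : ℤ) ≤ N * N := by nlinarith
    have h7 : (1 : ℤ) ≤ N * N * (N * N) := by nlinarith
    rw [e1]; nlinarith
  obtain ⟨X, Y, hXY, hY0, hYa, hX, hYc, hYe, hYz⟩ :=
    exists_XY hcap ha he0.le hZ' he2 hcop (fun l hl hl2 h3 _ => F.B l hl hl2 h3) hsize z
  have hX2 : (2 : ℤ) ∣ a → ¬ (2 : ℤ) ∣ X := by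
    intro h3 h4
    have h5 : (2 : ℤ) ∣ Y * (1 + k) := by
      by_cases h6 : (2 : ℤ) ∣ z
      · have : (2 : ℤ) ∣ Y := by
          have := dvd_add hYz h6
          simpa using this
        exact this.mul_right _
      · have h7 : ¬ (2 : ℤ) ∣ a' := fun h => h6 (hpar h3 h).1
        have h8 : ¬ (2 : ℤ) ∣ k := fun h => h7 (hkpar.1 h)
        have : (2 : ℤ) ∣ 1 + k := by omega
        exact this.mul_left _
    have h9 : (2 : ℤ) ∣ 1 := by
      rw [← hXY]
      exact dvd_sub (h4.mul_right _) h5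
    norm_num at h9
  have hXc : IsCoprime X a := by
    apply isCoprime_of_prime
    intro l hl h3 h4
    by_cases hl2 : l = 2
    · subst hl2
      exact hX2 (by exact_mod_cast h3) (by exact_mod_cast h4)
    · exact hX l hl hl2 h3 h4
  obtain ⟨α, β, hαβ⟩ := hXc
  set z1 : ℤ := -(Y * α) with hz1
  have hzX : a ∣ z1 * X + Y := ⟨Y * β, by rw [hz1]; linear_combination (-Y) * hαβ⟩
  have hzoc : OC a z1 := by
    intro l hl hl2 h3 h4
    apply hYc l hl hl2 h3
    have h5 := dvd_sub (h3.trans hzX) (h4.mul_right X)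
    have e3 : z1 * X + Y - z1 * X = Y := by ring
    rwa [e3] at h5
  have hz12 : (2 : ℤ) ∣ a → (2 : ℤ) ∣ z1 - z := by
    intro h3
    have h4 : (2 : ℤ) ∣ z1 * X + Y := h3.trans hzX
    have h5 := hX2 h3
    have h6 : (2 : ℤ) ∣ z1 + Y := by
      have h7 : (2 : ℤ) ∣ z1 * (X - 1) := by
        have : (2 : ℤ) ∣ X - 1 := by omega
        exact this.mul_left _
      have := dvd_sub h4 h7
      have e3 : z1 * X + Y - z1 * (X - 1) = z1 + Y := by ring
      rwa [e3] at this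
    omega
  have h2' : ¬ (2 : ℤ) ∣ a ∨ a % 4 = 2 ∨
      (a % 16 = 12 ∧ a' % 4 = 2 ∧ (2 : ℤ) ∣ z ∧ (2 : ℤ) ∣ x1) := by
    rcases h2 with h | h | ⟨h3, h4, h5, h6⟩
    · exact Or.inl h
    · exact Or.inr (Or.inl h)
    · exact Or.inr (Or.inr ⟨h3, h4, h5, hx1par h6⟩)
  have s2 := KC.freeL ha ha'0 h2' (ga.ocL hN) hz hzoc hz12 s1.ok'
  have hPrm : Prm a z1 (-1) := by
    intro l hl _ _ h
    exact prime_not_dvd_one hl ((dvd_neg).1 h)
  have s3 := KC.exitJ (s := -1) (j := j) (k := k) (X := X) (Y := Y) ha hPrm s2.ok' (Or.inr rfl)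
    he0.le hkj hek hka.le hej (by
      have e3 : z1 * X - -1 * Y = z1 * X + Y := by ring
      rw [e3]; exact hzX) (by linear_combination hXY) hY0 hYa
  set xs : ℤ := x1 + -1 * (j - 1) with hxs
  set ps : ℤ := X + -1 * Y - e * xs with hps
  have e4 : KC (a + e) (Y + e) 1 (a' - e) ps (-xs) =
      KC (a + e) (-(Y + e)) (-1) (a' - e) ps (-xs) := by
    have := KC.unit (a := a + e) (p := -(Y + e)) (q := -1) (a' := a' - e)
      (p' := ps) (q' := -xs) (t := -1) isCoprime_one_right.neg_right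
    rw [← this]
    congr 1 <;> ring
  rw [e4] at s3
  have hc0 : 0 < a + e := by linarith
  have hc'0 : 0 < a' - e := by linarith
  -- the new right class
  have hxsoc : OC (a' - e) xs := by
    intro l hl hl2 h3 h4
    refine F.K l hl hl2 h3 ?_
    have e5 : k - e = -e * xs + j * (a' - e) := by rw [hxs, hkj]; ring
    rw [e5]
    exact dvd_add (h4.mul_left _) (h3.mul_left _)
  have hps2 : (2 : ℤ) ∣ a' - e → ¬ (2 : ℤ) ∣ ps := by
    intro h3 h4
    have h5 : (2 : ℤ) ∣ a' := by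
      have := dvd_add h3 he2
      simpa using this
    have h6 : (2 : ℤ) ∣ k := hkpar.2 h5
    have h7 : (2 : ℤ) ∣ X - Y := by
      have := dvd_add h4 (he2.mul_right xs)
      have e5 : ps + e * xs = X - Y := by rw [hps]; ring
      rwa [e5] at this
    have h8 : (2 : ℤ) ∣ X * (1 + e) - Y * (1 + k) - (X - Y) := by
      have e5 : X * (1 + e) - Y * (1 + k) - (X - Y) = X * e - Y * k := by ring
      rw [e5]; exact dvd_sub (he2.mul_left _) (h6.mul_left _)
    rw [hXY] at h8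
    have h9 := dvd_add h8 h7
    have e6 : 1 - (X - Y) + (X - Y) = 1 := by ring
    rw [e6] at h9
    norm_num at h9
  have hPrm' : Prm (a' - e) ps (-xs) := by
    intro l hl h3 h4 h5
    by_cases hl2 : l = 2
    · subst hl2
      exact hps2 (by exact_mod_cast h3) (by exact_mod_cast h4)
    · exact hxsoc l hl hl2 h3 ((dvd_neg).1 h5)
  obtain ⟨y, hy, s4⟩ := KC.choose_c hc0 hc'0 isCoprime_one_left.neg_left hPrm'
    (F.lev.ocR (by linarith)) (by
      intro h3 h4 _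
      exact hps2 h3 h4) s3.ok'
  refine ⟨-(Y + e), y, hYe.neg_right, ?_, ?_, ?_, (s1.trans (s2.trans s3)).trans s4⟩
  · intro l hl hl2 h3 h4
    exact hxsoc l hl hl2 h3 ((dvd_neg).1 ((hy l h3).1 h4))
  · intro _
    have h3 := dvd_add hYz he2
    have e5 : -(Y + e) - z = -(Y - z + e) - 2 * z := by ring
    rw [e5]
    exact dvd_sub ((dvd_neg).2 h3) (dvd_mul_right 2 z)
  · intro h3
    have h4 : (2 : ℤ) ∣ a' - e := dvd_sub h3 he2
    have h5 := hy 2 h4
    have h6 : (2 : ℤ) ∣ y ↔ (2 : ℤ) ∣ xs := by rw [h5, dvd_neg]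
    have h7 : (2 : ℤ) ∣ xs - x := by
      have e6 : xs - x = (x1 - x) - (j - 1) := by rw [hxs]; ring
      rw [e6]
      refine dvd_sub hx1x ?_
      omega
    by_cases h8 : (2 : ℤ) ∣ xs
    · have h9 := h6.2 h8
      omega
    · have h9 : ¬ (2 : ℤ) ∣ y := fun h => h8 (h6.1 h)
      omega

end Pool.Agent.H4G
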