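import Pool.Agent.H4G.Ctwo.ExitFin

/-!
# MOVE1: the left exit by LINE-1 in state form (helper62)
-/

set_option autoImplicit false

namespace Pool.Agent.H4G

/-- the shear modulus is small against the area -/
theorem shear_sq {a g G r1 : ℤ} (ha : 0 < a) (hg : 0 < g) (hG : 0 < G) (h1 : g * G ∣ a)
    (h2 : G ∣ r1 * g) : G * G ≤ (Int.gcd a r1 : ℤ) * a := by
  have hγ : (0 : ℤ) < Int.gcd a r1 := by
    exact_mod_cast Int.gcd_pos_of_ne_zero_left _ ha.ne'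
  have h3 : G ∣ (Int.gcd a r1 : ℤ) * g := by
    rw [Int.gcd_eq_gcd_ab a r1]
    have e : (a * Int.gcdA a r1 + r1 * Int.gcdB a r1) * g =
        a * (Int.gcdA a r1 * g) + (r1 * g) * Int.gcdB a r1 := by ring
    rw [e]
    exact dvd_add (((Dvd.intro_left g rfl).trans h1).mul_right _) (h2.mul_right _)
  have h4 : G ≤ (Int.gcd a r1 : ℤ) * g := Int.le_of_dvd (mul_pos hγ hg) h3
  have h5 : g * G ≤ a := Int.le_of_dvd ha h1
  calc G * G ≤ ((Int.gcd a r1 : ℤ) * g) * G := mul_le_mul_of_nonneg_right h4 hG.le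
    _ = (Int.gcd a r1 : ℤ) * (g * G) := by ring
    _ ≤ (Int.gcd a r1 : ℤ) * a := mul_le_mul_of_nonneg_left h5 hγ.le

theorem shear_le {J a G γ : ℤ} (ha : 0 < a) (hJ : 0 < J) (h1 : G * G ≤ γ * a)
    (h2 : γ * J ^ 12 ≤ a) : G * J ^ 6 ≤ a := by
  by_contra hn
  push Not at hn
  have h3 : a * a < (G * J ^ 6) * (G * J ^ 6) :=
    mul_lt_mul'' hn hn ha.le ha.le
  have h4 : (G * J ^ 6) * (G * J ^ 6) = (G * G) * J ^ 12 := by ring
  have h5 : (G * G) * J ^ 12 ≤ (γ * a) * J ^ 12 := mul_le_mul_of_nonneg_right h1 (by positivity)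
  have h6 : (γ * a) * J ^ 12 = (γ * J ^ 12) * a := by ring
  have h7 : (γ * J ^ 12) * a ≤ a * a := mul_le_mul_of_nonneg_right h2 ha.le
  linarith

/-- the numbers of MOVE1 -/
theorem move1_num {J a g G q y w w' : ℤ} (hJ : 2 ^ 20 ≤ J) (ha : 0 < a) (hg : 0 < g) (hG : 0 < G)
    (hq : 0 < q) (hGa : G * J ^ 6 ≤ a) (hga : g * J ^ 6 ≤ a) (hw : w ≤ J ^ 2) (hw' : w' ≤ J ^ 2)
    (hqG : q ≤ G * (1 + 2 * w)) (hy : 1 ≤ y) (hyw : y < 1 + 2 ^ 4 * w') :
    q * y * J ≤ a ∧ q * y < a - g * y ∧ q ≤ a ∧ g * y < a := by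
  have hJ0 : 0 < J := by linarith [show (0 : ℤ) < 2 ^ 20 by norm_num]
  have hJ1 : 1 ≤ J := by linarith
  have hJ2 : 1 ≤ J ^ 2 := one_le_pow₀ hJ1
  have k1 : q ≤ 3 * (G * J ^ 2) := by
    have : G * (1 + 2 * w) ≤ G * (3 * J ^ 2) := mul_le_mul_of_nonneg_left (by linarith) hG.le
    linarith [(by ring : G * (3 * J ^ 2) = 3 * (G * J ^ 2))]
  have k2 : y ≤ 16 * J ^ 2 := by
    have : (2 : ℤ) ^ 4 * w' ≤ 16 * J ^ 2 := by norm_num; linarith
    linarith
  have k3 : q * J ^ 4 ≤ 3 * a := by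
    have h1 : q * J ^ 4 ≤ 3 * (G * J ^ 2) * J ^ 4 := mul_le_mul_of_nonneg_right k1 (by positivity)
    have h2 : 3 * (G * J ^ 2) * J ^ 4 = 3 * (G * J ^ 6) := by ring
    linarith
  have k4 : q * y * J ^ 2 ≤ 48 * a := by
    have h1 : q * y * J ^ 2 ≤ q * (16 * J ^ 2) * J ^ 2 :=
      mul_le_mul_of_nonneg_right (mul_le_mul_of_nonneg_left k2 hq.le) (by positivity)
    have h2 : q * (16 * J ^ 2) * J ^ 2 = 16 * (q * J ^ 4) := by ring
    linarith
  have k5 : q * y * J ≤ a := by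
    have h1 : (q * y * J) * J ≤ a * J := by
      calc (q * y * J) * J = q * y * J ^ 2 := by ring
        _ ≤ 48 * a := k4
        _ ≤ J * a := mul_le_mul_of_nonneg_right (by linarith [show (48 : ℤ) ≤ 2 ^ 20 by norm_num]) ha.le
        _ = a * J := by ring
    exact le_of_mul_le_mul_right h1 hJ0
  have k6 : g * y * J ^ 4 ≤ 16 * a := by
    have h1 : g * y * J ^ 4 ≤ g * (16 * J ^ 2) * J ^ 4 :=
      mul_le_mul_of_nonneg_right (mul_le_mul_of_nonneg_left k2 hg.le) (by positivity)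
    have h2 : g * (16 * J ^ 2) * J ^ 4 = 16 * (g * J ^ 6) := by ring
    linarith
  have hqy : 0 < q * y := mul_pos hq (by linarith)
  have hgy : 0 < g * y := mul_pos hg (by linarith)
  have k7 : g * y * 4 ≤ a := by
    have h1 : (g * y * 64) ≤ g * y * J ^ 4 := by
      refine mul_le_mul_of_nonneg_left ?_ hgy.le
      calc (64 : ℤ) ≤ 2 ^ 20 := by norm_num
        _ ≤ J := hJ
        _ ≤ J ^ 4 := le_self_pow₀ hJ1 (by norm_num)
    linarith
  have k8 : q * y * 4 ≤ a := by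
    have h1 : q * y * 4 ≤ q * y * J :=
      mul_le_mul_of_nonneg_left (by linarith [show (4 : ℤ) ≤ 2 ^ 20 by norm_num]) hqy.le
    linarith
  have k9 : q ≤ q * y := le_mul_of_one_le_right hq.le hy
  exact ⟨k5, by linarith, by linarith, by linarith⟩

/-- the bound for the sieve moduli -/
theorem Big.prod {N : ℤ} {J Z : ℕ} (hB : Big N J Z) {a a' q g : ℤ} (hN : a + 1 + a' = N)
    (ha : 0 < a) (ha' : 0 < a') (hq : 0 < q) (hqa : q ≤ a) (hg : 0 < g) (hga : g ≤ a) :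
    (q * a * a' * N * (g + q * (1 + a))).natAbs ≤ Z ∧ (a * a' * N).natAbs ≤ Z := by
  have hZ := hB.hZ
  have hN0 : 0 < N := by linarith
  have haN : a ≤ N := by linarith
  have haN' : a' ≤ N := by linarith
  have hqN : q ≤ N := by linarith
  have h1N : 1 ≤ N := by linarith
  have h2N : 1 ≤ 2 * N := by linarith
  have k1 : q * a * a' * N ≤ N * N * N * N := by
    refine mul_le_mul_of_nonneg_right ?_ hN0.le
    refine mul_le_mul ?_ haN' ha'.le (by positivity)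
    exact mul_le_mul hqN haN ha.le hN0.le
  have k2 : g + q * (1 + a) ≤ 2 * N * N := by
    have : q * (1 + a) ≤ N * N := mul_le_mul hqN (by linarith) (by linarith) hN0.le
    have : N * 1 ≤ N * N := mul_le_mul_of_nonneg_left h1N hN0.le
    linarith
  have hp : 0 < q * a * a' * N := by positivity
  have hs : 0 < g + q * (1 + a) := by positivity
  have k3 : q * a * a' * N * (g + q * (1 + a)) ≤ (2 * N) ^ 20 := by
    calc q * a * a' * N * (g + q * (1 + a)) ≤ (N * N * N * N) * (2 * N * N) :=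
          mul_le_mul k1 k2 hs.le (by positivity)
      _ ≤ (2 * N) ^ 6 := by
          have e : (2 * N) ^ 6 = 64 * N ^ 6 := by ring
          have e2 : (N * N * N * N) * (2 * N * N) = 2 * N ^ 6 := by ring
          rw [e, e2]
          have : 0 < N ^ 6 := by positivity
          linarith
      _ ≤ (2 * N) ^ 20 := pow_le_pow_right₀ h2N (by norm_num)
  have k4 : a * a' * N ≤ (2 * N) ^ 20 := by
    calc a * a' * N ≤ N * N * N := mul_le_mul_of_nonneg_right (mul_le_mul haN haN' ha'.le hN0.le)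
          hN0.le
      _ ≤ (2 * N) ^ 3 := by
          have e : (2 * N) ^ 3 = 8 * N ^ 3 := by ring
          have e2 : N * N * N = N ^ 3 := by ring
          rw [e, e2]
          have : 0 < N ^ 3 := by positivity
          linarith
      _ ≤ (2 * N) ^ 20 := pow_le_pow_right₀ h2N (by norm_num)
  have hp2 : 0 < a * a' * N := by positivity
  constructor
  · have : ((q * a * a' * N * (g + q * (1 + a))).natAbs : ℤ) ≤ (Z : ℤ) := by
      rw [Int.natAbs_of_nonneg (mul_pos hp hs).le]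
      linarith
    exact_mod_cast this
  · have : ((a * a' * N).natAbs : ℤ) ≤ (Z : ℤ) := by
      rw [Int.natAbs_of_nonneg hp2.le]
      linarith
    exact_mod_cast this

/-- **MOVE1** (`a` need not be large) -/
theorem KSt.move1 {N a z a' p' q' : ℤ} {J Z : ℕ} (hB : Big N J Z) (S : KSt N a z a' p' q')
    (T : KTy a z a' p' q')
    (frz : ∀ l : ℕ, l.Prime → (l : ℤ) ∣ a' → (l : ℤ) ∣ p' → (l : ℤ) ∣ a + 1)
    (idx : ∀ r c : ℤ, a' = r * c → c = (Int.gcd p' a' : ℤ) →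
      (Int.gcd a (r + 1) : ℤ) * (J : ℤ) ^ 12 ≤ a)
    (hg6 : (Int.gcd z a : ℤ) * (J : ℤ) ^ 6 ≤ a) {E0 : ℤ} (hE : (2 : ℤ) ∣ E0) :
    ∃ E w x : ℤ, 0 < E ∧ E * J ≤ a ∧ (16 : ℤ) ∣ E - E0 ∧ KSt N (a - E) w (a' + E) 1 (-x) ∧
      KTy (a - E) w (a' + E) 1 (-x) ∧ GLev N (a - E) ∧ OC (a - E) w ∧
      ((2 : ℤ) ∣ a → ((2 : ℤ) ∣ w ↔ (2 : ℤ) ∣ z)) ∧ ((2 : ℤ) ∣ a' → ((2 : ℤ) ∣ x ↔ (2 : ℤ) ∣ q')) ∧
      SEq (KC a z (-1) a' p' q') (KC (a - E) w (-1) (a' + E) 1 (-x)) := by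
  have ha := S.ha
  have ha' := S.ha'
  have hN := S.hN
  have hN0 : 0 < N := by linarith
  have hJ : (2 : ℤ) ^ 20 ≤ (J : ℤ) := by exact_mod_cast hB.J0
  have hJ0 : (0 : ℤ) < J := by linarith [show (0 : ℤ) < 2 ^ 20 by norm_num]
  have hM0 : (a * a' * N).natAbs ≠ 0 := by rw [Int.natAbs_ne_zero]; positivity
  have hMd : ∀ d : ℤ, d ∣ a * a' * N → d ∣ ((a * a' * N).natAbs : ℤ) := fun d hd =>
    (Int.dvd_natAbs).2 hd
  -- the choice of `q`
  obtain ⟨g, r, c, s, q, z2, q2, κ, G, hgz, hg, hr, hc, erc, ec, hs, hG, hgG, hGr, hq, hqG, hqo,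
    hqM, hqa, h3a, h3b, hseq, hP2, hgz2, hk, h2q⟩ := KC.qchoice' (M := (a * a' * N).natAbs) ha ha'
      S.hP (fun l hl h1 h2 h3 => by
        have h4 := frz l hl h1 h2
        have := dvd_sub h4 h3
        rw [add_sub_cancel_left] at this
        exact prime_not_dvd_one hl this) hM0 (hMd a ((Dvd.intro _ rfl).mul_right N)) S.ok
  -- sizes
  have hga : g ∣ a := (Dvd.intro G rfl).trans hgG
  have hgle : g ≤ a := Int.le_of_dvd ha hga
  have hG6 : G * (J : ℤ) ^ 6 ≤ a := by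
    refine shear_le ha hJ0 (shear_sq ha hg hG hgG hGr) ?_
    exact idx r c erc ec
  have hw : (8 : ℤ) ^ (a * a' * N).natAbs.primeFactors.card ≤ (J : ℤ) ^ 2 := by
    refine hB.cap.eight hM0 ?_
    exact (hB.prod hN ha ha' ha le_rfl hg hgle).2
  have hg6' : g * (J : ℤ) ^ 6 ≤ a := by rw [hgz]; exact hg6
  have hqa' : q ≤ a :=
    (move1_num (y := 1) (w' := 1) hJ ha hg hG hq hG6 hg6' hw (one_le_pow₀ (by linarith)) hqG
      le_rfl (by norm_num)).2.2.1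
  -- the line
  have hodd : ∀ l : ℕ, l.Prime → l ≠ 2 → (l : ℤ) ∣ q →
      ¬ (l : ℤ) ∣ a ∧ ¬ (l : ℤ) ∣ a' ∧ ¬ (l : ℤ) ∣ N := by
    intro l hl hl2 h1
    have h2 : ∀ d : ℤ, d ∣ a * a' * N → ¬ (l : ℤ) ∣ d := fun d hd h3 =>
      hqM l hl hl2 (hMd _ (h3.trans hd)) h1
    exact ⟨h2 a ((Dvd.intro _ rfl).mul_right N), h2 a' ((Dvd.intro_left a rfl).mul_right N),
      h2 N (Dvd.intro_left _ rfl)⟩
  have hp : ∀ l : ℕ, l.Prime → l ≠ 2 → (l : ℤ) ∣ a' → (l : ℤ) ∣ p' → ¬ (l : ℤ) ∣ q2 :=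
    fun l hl _ h1 h2 => hP2 l hl h1 h2
  -- the class of `y`
  have hq2' : ¬ (2 : ℤ) ∣ q := by
    rw [← even_iff_two_dvd, Int.not_even_iff_odd]; exact hqo
  obtain ⟨u, v, huv⟩ : IsCoprime q ((2 : ℤ) ^ 4) := by
    refine IsCoprime.pow_right ?_
    exact ((Prime.coprime_iff_not_dvd Int.prime_two).2 hq2').symm
  obtain ⟨y, y1, y2, y3, y4⟩ := line1 (z := z2) (p' := p') (q' := q2) hN ha ha' hg hga hq hs hk
    hodd hp
    (fun h1 h2 => h3a (hMd 3 (h1.mul_left _)) h2)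
    (fun h1 h2 => h3b (hMd 3 (h1.mul_left _)) h2 (by omega)) 4 (u * E0) 1
  have hMw : (q * a * a' * N * (g + q * (1 + a))).natAbs ≠ 0 := by
    rw [Int.natAbs_ne_zero]; positivity
  have hw' : (8 : ℤ) ^ (q * a * a' * N * (g + q * (1 + a))).natAbs.primeFactors.card ≤
      (J : ℤ) ^ 2 := hB.cap.eight hMw (hB.prod hN ha ha' hq hqa' hg hgle).1
  obtain ⟨n1, n2, -, n4⟩ := move1_num hJ ha hg hG hq hG6 hg6' hw hw' hqG y1 y2
  have hy0 : 0 < y := by linarith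
  have hE0 : 0 < q * y := mul_pos hq hy0
  have hgy0 : 0 < g * y := mul_pos hg hy0
  -- parities
  have e16 : (16 : ℤ) ∣ q * y - E0 := by
    have h1 : (2 : ℤ) ^ 4 ∣ q * (y - u * E0) + (u * q - 1) * E0 := by
      refine dvd_add (y3.mul_left q) ?_
      have : u * q - 1 = 2 ^ 4 * (-v) := by linear_combination huv
      rw [this]
      exact (Dvd.intro _ rfl).mul_right _
    have e : q * (y - u * E0) + (u * q - 1) * E0 = q * y - E0 := by ring
    rw [e] at h1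
    norm_num at h1
    exact h1
  have hqy2 : (2 : ℤ) ∣ q * y := by
    have : (2 : ℤ) ∣ q * y - E0 := Dvd.dvd.trans (by norm_num) e16
    have := dvd_add this hE
    rwa [sub_add_cancel] at this
  have hy2 : (2 : ℤ) ∣ y := (Int.prime_two.dvd_or_dvd hqy2).resolve_left hq2'
  have S2 : KSt N a z2 a' p' q2 := ⟨hN, ha, ha', hP2, hseq.ok'⟩
  have hzz : (2 : ℤ) ∣ a → ((2 : ℤ) ∣ z2 ↔ (2 : ℤ) ∣ z) := by
    intro h1
    have h2 : (2 : ℤ) ∣ g ↔ (2 : ℤ) ∣ z := by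
      rw [hgz]
      exact ⟨fun h => h.trans (Int.gcd_dvd_left _ _), fun h => Int.dvd_coe_gcd h h1⟩
    rw [← h2]
    have h3 : (2 : ℤ) ∣ g + s * q * z2 := by rw [hk]; exact h1.mul_left _
    have h4 : ¬ (2 : ℤ) ∣ s * q := by
      rcases hs with rfl | rfl
      · rwa [one_mul]
      · rw [neg_one_mul]; intro h; exact hq2' ((dvd_neg).1 h)
    constructor
    · intro h5
      have := dvd_sub h3 (h5.mul_left (s * q))
      rwa [add_sub_cancel_right] at this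
    · intro h5
      have := dvd_sub h3 h5
      rw [add_sub_cancel_left] at this
      exact (Int.prime_two.dvd_or_dvd this).resolve_left h4
  have hqq : (2 : ℤ) ∣ a' → ((2 : ℤ) ∣ q2 ↔ (2 : ℤ) ∣ q') := fun h1 => by
    have := h2q h1
    omega
  have T2 : KTy a z2 a' p' q2 := ⟨T.c2, fun h1 h2 => by
    rw [hzz h1, hqq h2]; exact T.n331 h1 h2⟩
  obtain ⟨w, x, K, K', k1, k2, k3, k4, k5⟩ := KSt.exitFin (s := s) (e := q * y) (h := a - g * y)
    (j := 1 - κ * y) 1 S2 T2 hs hE0.le (by push_cast; linarith) (by linarith) (by linarith)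
    (by linear_combination (-y) * hk) (by push_cast; rw [one_mul]; exact hqy2)
    (by
      rintro ⟨_, h2⟩
      have := dvd_add h2 (hy2.mul_left κ)
      rw [sub_add_cancel] at this
      norm_num at this)
    (fun _ h2 => by
      push_cast
      rw [one_mul]
      have := dvd_sub h2 (hy2.mul_left g)
      have e : a + 1 - g * y = 1 + (a - g * y) := by ring
      rwa [e] at this)
    (fun _ => by
      push_cast
      rw [one_mul]
      have := (hy2.mul_left (-(s * κ)))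
      have e : s * (1 - κ * y - 1) = -(s * κ) * y := by ring
      rw [e]; exact this)
    (fun l hl hl2 => (y4 l hl hl2).toK)
  simp only [Nat.cast_one, one_mul] at K K' k1 k2 k5
  refine ⟨q * y, w, x, hE0, n1, e16, K, K', ⟨k1, ?_⟩, k2, fun h1 => (k3 h1).trans (hzz h1),
    fun h1 => (k4 h1).trans (hqq h1), hseq.trans k5⟩
  intro l hl hl2 h1 h2
  exact (y4 l hl hl2).lev' h2 h1

/-- **MOVE1** -/
theorem MIn.move1 {N a z a' p' q' : ℤ} {J Z : ℕ} (hB : Big N J Z) (h : MIn J N a z a' p' q')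
    (hg6 : (Int.gcd z a : ℤ) * (J : ℤ) ^ 6 ≤ a) {E0 : ℤ} (hE : (2 : ℤ) ∣ E0) :
    ∃ E w x : ℤ, 0 < E ∧ E * J ≤ a ∧ (16 : ℤ) ∣ E - E0 ∧ KSt N (a - E) w (a' + E) 1 (-x) ∧
      KTy (a - E) w (a' + E) 1 (-x) ∧ GLev N (a - E) ∧ OC (a - E) w ∧
      ((2 : ℤ) ∣ a → ((2 : ℤ) ∣ w ↔ (2 : ℤ) ∣ z)) ∧ ((2 : ℤ) ∣ a' → ((2 : ℤ) ∣ x ↔ (2 : ℤ) ∣ q')) ∧
      SEq (KC a z (-1) a' p' q') (KC (a - E) w (-1) (a' + E) 1 (-x)) :=
  h.toKSt.move1 hB h.toKTy h.frz h.idx hg6 hE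

end Pool.Agent.H4G
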