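import Pool.Agent.H4G.Ctwo.TopT
import Pool.Agent.H4G.Ctwo.Move1

/-!
# The type `(1, [4,2,0])`: the first move by LINE-1 (helper37, after helper62's MOVE1)
-/

set_option autoImplicit false

namespace Pool.Agent.H4G

/-- MOVE1, type `(1, [4,2,0])` -/
theorem TIn.move1T {N a z a' p' q' : ℤ} {J Z : ℕ} (hB : Big N J Z) (S : TIn J N a z a' p' q')
    (hg6 : (Int.gcd z a : ℤ) * (J : ℤ) ^ 6 ≤ a) :
    ∃ b p q b' y : ℤ, b % 4 = 2 ∧ ¬ (2 : ℤ) ∣ b' ∧ 0 < b' ∧ b + 1 + b' = N ∧ OC b N ∧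
      IsCoprime p b ∧ (2 : ℤ) ∣ q ∧ a ≤ 2 * b ∧
      SEq (KC a z (-1) a' p' q') (KC b p q b' 1 (-y)) := by
  have ha := S.ha
  have ha' := S.ha'
  have hN := S.hN
  have hN0 : 0 < N := by linarith
  have hJ : (2 : ℤ) ^ 20 ≤ (J : ℤ) := by exact_mod_cast hB.J0
  have hJ0 : (0 : ℤ) < J := by linarith [show (0 : ℤ) < 2 ^ 20 by norm_num]
  have hM0 : (a * a' * N).natAbs ≠ 0 := by rw [Int.natAbs_ne_zero]; positivity
  have hMd : ∀ d : ℤ, d ∣ a * a' * N → d ∣ ((a * a' * N).natAbs : ℤ) := fun d hd =>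
    (Int.dvd_natAbs).2 hd
  -- the choice of `q`
  obtain ⟨g, r, c, s, q, z2, q2, κ, G, hgz, hg, hr, hc, erc, ec, hs, hG, hgG, hGr, hq, hqG, hqo,
    hqM, hqa, h3a, h3b, hseq, hP2, hgz2, hk, h2q⟩ := KC.qchoice' (M := (a * a' * N).natAbs) ha ha'
      S.hP (fun l hl h1 h2 h3 => by
        have h4 := S.frz l hl h1 h2
        have := dvd_sub h4 h3
        rw [add_sub_cancel_left] at this
        exact prime_not_dvd_one hl this) hM0 (hMd a ((Dvd.intro _ rfl).mul_right N)) S.ok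
  -- sizes
  have hga : g ∣ a := (Dvd.intro G rfl).trans hgG
  have hgle : g ≤ a := Int.le_of_dvd ha hga
  have hG6 : G * (J : ℤ) ^ 6 ≤ a := by
    refine shear_le ha hJ0 (shear_sq ha hg hG hgG hGr) ?_
    exact S.idx r c erc ec
  have hw : (8 : ℤ) ^ (a * a' * N).natAbs.primeFactors.card ≤ (J : ℤ) ^ 2 := by
    refine hB.cap.eight hM0 ?_
    exact (hB.prod hN ha ha' ha le_rfl hg hgle).2
  have hg6' : g * (J : ℤ) ^ 6 ≤ a := by rw [hgz]; exact hg6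
  have hqa' : q ≤ a :=
    (move1_num (y := 1) (w' := 1) hJ ha hg hG hq hG6 hg6' hw (one_le_pow₀ (by linarith)) hqG
      le_rfl (by norm_num)).2.2.1
  -- the line
  have hodd : ∀ l : ℕ, l.Prime → l ≠ 2 → (l : ℤ) ∣ q →
      ¬ (l : ℤ) ∣ a ∧ ¬ (l : ℤ) ∣ a' ∧ ¬ (l : ℤ) ∣ N := by
    intro l hl hl2 h1
    have h2 : ∀ d : ℤ, d ∣ a * a' * N → ¬ (l : ℤ) ∣ d := fun d hd h3 =>
      hqM l hl hl2 (hMd _ (h3.trans hd)) h1
    exact ⟨h2 a ((Dvd.intro _ rfl).mul_right N), h2 a' ((Dvd.intro_left a rfl).mul_right N),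
      h2 N (Dvd.intro_left _ rfl)⟩
  have hp : ∀ l : ℕ, l.Prime → l ≠ 2 → (l : ℤ) ∣ a' → (l : ℤ) ∣ p' → ¬ (l : ℤ) ∣ q2 :=
    fun l hl _ h1 h2 => hP2 l hl h1 h2
  -- the class of `y`
  have hq2' : ¬ (2 : ℤ) ∣ q := by
    rw [← even_iff_two_dvd, Int.not_even_iff_odd]; exact hqo
  obtain ⟨u, v, huv⟩ : IsCoprime q ((2 : ℤ) ^ 4) := by
    refine IsCoprime.pow_right ?_
    exact ((Prime.coprime_iff_not_dvd Int.prime_two).2 hq2').symm
  obtain ⟨y, y1, y2, y3, y4⟩ := line1 (z := z2) (p' := p') (q' := q2) hN ha ha' hg hga hq hs hk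
    hodd hp
    (fun h1 h2 => h3a (hMd 3 (h1.mul_left _)) h2)
    (fun h1 h2 => h3b (hMd 3 (h1.mul_left _)) h2 (by omega)) 4 (u * (a - 2)) 1
  have hMw : (q * a * a' * N * (g + q * (1 + a))).natAbs ≠ 0 := by
    rw [Int.natAbs_ne_zero]; positivity
  have hw' : (8 : ℤ) ^ (q * a * a' * N * (g + q * (1 + a))).natAbs.primeFactors.card ≤
      (J : ℤ) ^ 2 := hB.cap.eight hMw (hB.prod hN ha ha' hq hqa' hg hgle).1
  obtain ⟨n1, n2, -, n4⟩ := move1_num hJ ha hg hG hq hG6 hg6' hw hw' hqG y1 y2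
  have hy0 : 0 < y := by linarith
  have hE0 : 0 < q * y := mul_pos hq hy0
  have hgy0 : 0 < g * y := mul_pos hg hy0
  -- parities
  have e16 : (16 : ℤ) ∣ q * y - (a - 2) := by
    have h1 : (2 : ℤ) ^ 4 ∣ q * (y - u * (a - 2)) + (u * q - 1) * (a - 2) := by
      refine dvd_add (y3.mul_left q) ?_
      have : u * q - 1 = 2 ^ 4 * (-v) := by linear_combination huv
      rw [this]
      exact (Dvd.intro _ rfl).mul_right _
    have e : q * (y - u * (a - 2)) + (u * q - 1) * (a - 2) = q * y - (a - 2) := by ring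
    rw [e] at h1
    norm_num at h1
    exact h1
  have hao := S.ao
  have h4E : (a - q * y) % 4 = 2 := by omega
  have hy2 : ¬ (2 : ℤ) ∣ y := by
    intro h
    have h1 : (2 : ℤ) ∣ q * y := h.mul_left q
    omega
  have hg2 : ¬ (2 : ℤ) ∣ g := fun h => hao (h.trans hga)
  have hgy2 : ¬ (2 : ℤ) ∣ g * y := fun h => (Int.prime_two.dvd_or_dvd h).elim hg2 hy2
  have S2 : KSt N a z2 a' p' q2 := ⟨hN, ha, ha', hP2, hseq.ok'⟩
  obtain ⟨p1, q1, x, m1, m2, m3, m4, m5, m6, m7, m8⟩ := KSt.exitFinT (s := s) (e := q * y)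
    (h := a - g * y) (j := 1 - κ * y) 1 S2 hao S.ae S.pe hs hE0.le
    (by push_cast; linarith) (by linarith) (by linarith)
    (by linear_combination (-y) * hk) (by push_cast; rw [one_mul]; exact h4E)
    (by omega)
    (fun l hl hl2 => (y4 l hl hl2).toK)
  simp only [Nat.cast_one, one_mul] at m1 m2 m3 m4 m5 m6 m8
  refine ⟨a - q * y, p1, q1, a' + q * y, x, m1, m2, m3, m4, m5, m6, m7, ?_, hseq.trans m8⟩
  have m9 : q * y * 2 ≤ q * y * (J : ℤ) :=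
    mul_le_mul_of_nonneg_left (by linarith [show (2 : ℤ) ≤ 2 ^ 20 by norm_num]) hE0.le
  linarith

end Pool.Agent.H4G
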