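import Pool.Agent.H4G.Ctwo.ExitFin

/-!
# LINE-2 in state form: the move from a left side with a large cusp (helper41)
-/

set_option autoImplicit false

namespace Pool.Agent.H4G

/-- the sizes of a LINE-2 exit: `k e < g` and `k e J ≤ a` -/
theorem line2k_sizes {a g q J k e : ℤ} (hJ : 2 ^ 20 ≤ J) (haq : a = q * g) (hq0 : 0 < q)
    (hqJ : q < J ^ 6) (hgJ : J ^ 24 ≤ g) (hk : k ≤ 16 * J ^ 2) (he0 : 0 < e)
    (he : e ≤ 2 * q + 16 * J ^ 2 * q) : k * e < g ∧ k * e * J ≤ a := by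
  have hJ0 : 0 < J := by linarith
  have hJ1 : 1 ≤ J := by linarith
  have h1 : k * e ≤ 16 * J ^ 2 * (2 * q + 16 * J ^ 2 * q) :=
    mul_le_mul hk he he0.le (by positivity)
  have h2 : 2 * q + 16 * J ^ 2 * q ≤ 18 * J ^ 2 * q := by
    have : 1 ≤ J ^ 2 := one_le_pow₀ hJ1
    nlinarith [mul_nonneg hq0.le (sub_nonneg.2 this)]
  have h3 : 16 * J ^ 2 * (2 * q + 16 * J ^ 2 * q) ≤ 16 * J ^ 2 * (18 * J ^ 2 * q) :=
    mul_le_mul_of_nonneg_left h2 (by positivity)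
  have h4 : 16 * J ^ 2 * (18 * J ^ 2 * q) ≤ J ^ 5 * q := by
    have e1 : 16 * J ^ 2 * (18 * J ^ 2 * q) = 288 * (J ^ 4 * q) := by ring
    have e2 : J ^ 5 * q = J * (J ^ 4 * q) := by ring
    rw [e1, e2]
    exact mul_le_mul_of_nonneg_right (by linarith) (by positivity)
  have h5 : J ^ 5 * q < J ^ 11 := by
    have e1 : J ^ 11 = J ^ 5 * J ^ 6 := by ring
    rw [e1]
    exact mul_lt_mul_of_pos_left hqJ (by positivity)
  have h6 : k * e < J ^ 11 := by linarith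
  have h7 : J ^ 11 ≤ J ^ 24 := pow_le_pow_right₀ hJ1 (by norm_num)
  refine ⟨by linarith, ?_⟩
  have h8 : k * e * J ≤ J ^ 11 * J := mul_le_mul_of_nonneg_right h6.le hJ0.le
  have h9 : J ^ 11 * J ≤ J ^ 24 := by
    have e1 : J ^ 11 * J = J ^ 12 := by ring
    rw [e1]
    exact pow_le_pow_right₀ hJ1 (by norm_num)
  have h10 : g ≤ a := by
    rw [haq]
    have : 1 ≤ q := hq0
    nlinarith [hgJ, pow_pos hJ0 24]
  linarith

/-- the shape of the left side: `a = q g`, `z = g z'`, `q ≥ 2` -/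
theorem KSt.leftShape {N a z a' p' q' : ℤ} (h : KSt N a z a' p' q') :
    ∃ g q z' ξ κ : ℤ, g = (Int.gcd z a : ℤ) ∧ 0 < g ∧ 2 ≤ q ∧ a = q * g ∧ z = g * z' ∧
      ξ * z' + q * κ = 1 := by
  have ha := h.ha
  have hg0 : 0 < Int.gcd z a := Int.gcd_pos_of_ne_zero_right _ ha.ne'
  obtain ⟨z0, hz⟩ : (Int.gcd z a : ℤ) ∣ z := Int.gcd_dvd_left _ _
  obtain ⟨a0, ha0⟩ : (Int.gcd z a : ℤ) ∣ a := Int.gcd_dvd_right _ _
  have hb := Int.gcd_eq_gcd_ab z a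
  set g : ℤ := (Int.gcd z a : ℤ) with hg
  have hg1 : 0 < g := by rw [hg]; exact_mod_cast hg0
  have ha00 : 0 < a0 := by
    rcases lt_trichotomy a0 0 with h | h | h
    · have := mul_neg_of_pos_of_neg hg1 h
      omega
    · rw [h, mul_zero] at ha0; omega
    · exact h
  have h1 : z0 * Int.gcdA z a + a0 * Int.gcdB z a = 1 := by
    apply mul_left_cancel₀ hg1.ne'
    rw [mul_one]
    conv_rhs => rw [hb]
    conv_rhs => rw [hz, ha0]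
    have e1 : g * (z0 * Int.gcdA z a + a0 * Int.gcdB z a) =
      g * z0 * Int.gcdA z a + g * a0 * Int.gcdB z a := by ring
    rw [e1]
    congr 2
    · rw [← hz, ← ha0]
    · rw [← hz, ← ha0]
  refine ⟨g, a0, z0, Int.gcdA z a, Int.gcdB z a, rfl, hg1, ?_, by rw [mul_comm]; exact ha0, hz, ?_⟩
  · by_contra h2
    have h3 : a0 = 1 := by omega
    rw [h3, mul_one] at ha0
    have h4 := PSt.Ok.not_mem h.ok
    apply h4
    rw [mem_Lc]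
    show a ∣ z * 1 + (-1) * 0
    rw [mul_one, mul_zero, add_zero]
    rw [ha0]
    exact ⟨z0, hz⟩
  · rw [mul_comm (Int.gcdA z a)]; exact h1

/-- the output of LINE-2k -/
structure L2k (J : ℕ) (a a' N z g q p' q' E0 s τ e j : ℤ) (k : ℕ) : Prop where
  hs : s = 1 ∨ s = -1
  hτ : 0 < τ
  hτq : τ < q
  hk : (k : ℤ) ≤ 16 * (J : ℤ) ^ 2
  hk0 : 0 < k
  hk2 : (2 : ℤ) ∣ k
  he2 : ¬ (2 : ℤ) ∣ e
  he0 : 0 < e
  he : e ≤ 2 * q + 16 * (J : ℤ) ^ 2 * q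
  hh : τ * g = s * e * z + j * a
  hE : (16 : ℤ) ∣ k * e - E0
  loc : ∀ l : ℕ, l.Prime → l ≠ 2 → ExK l a a' N z s p' q' e (τ * g) j k ∧
    ((l : ℤ) ∣ N → ¬ (l : ℤ) ∣ q → ¬ (l : ℤ) ∣ a - k * e + 1)

/-- MOVE2 from the output of LINE-2k -/
theorem MIn.move2_of {N a z a' p' q' g q E0 s τ e j : ℤ} {J Z k : ℕ} (hB : Big N J Z)
    (h : MIn J N a z a' p' q') (hg0 : 0 < g) (haq : a = q * g)
    (hg : a < g * (J : ℤ) ^ 6) (x : L2k J a a' N z g q p' q' E0 s τ e j k) :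
    ∃ E w x : ℤ, 0 < E ∧ E * J ≤ a ∧ (16 : ℤ) ∣ E - E0 ∧ KSt N (a - E) w (a' + E) 1 (-x) ∧
      KTy (a - E) w (a' + E) 1 (-x) ∧ OC (a - E) N ∧ OC (a - E) w ∧
      (OC a N → OC (a - E + 1) N) ∧ ((2 : ℤ) ∣ a → ((2 : ℤ) ∣ w ↔ (2 : ℤ) ∣ z)) ∧
      ((2 : ℤ) ∣ a' → ((2 : ℤ) ∣ x ↔ (2 : ℤ) ∣ q')) ∧
      SEq (KC a z (-1) a' p' q') (KC (a - E) w (-1) (a' + E) 1 (-x)) := by
  have hJ : (2 : ℤ) ^ 20 ≤ (J : ℤ) := by exact_mod_cast hB.J0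
  have hJ0 : (0 : ℤ) < (J : ℤ) := by linarith [show (0 : ℤ) < 2 ^ 20 by norm_num]
  have hq0 : 0 < q := by linarith [x.hτ, x.hτq]
  have hqJ : q < (J : ℤ) ^ 6 := by
    rw [haq, mul_comm q g] at hg
    exact lt_of_mul_lt_mul_left hg hg0.le
  have hgJ : (J : ℤ) ^ 24 ≤ g := by
    have h1 : (J : ℤ) ^ 24 * (J : ℤ) ^ 6 ≤ g * (J : ℤ) ^ 6 := by
      rw [← pow_add]
      exact h.big.trans hg.le
    exact le_of_mul_le_mul_right h1 (by positivity)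
  obtain ⟨m1, m2⟩ := line2k_sizes hJ haq hq0 hqJ hgJ x.hk x.he0 x.he
  have hτg : g ≤ τ * g := by
    have : 1 * g ≤ τ * g := mul_le_mul_of_nonneg_right x.hτ hg0.le
    linarith
  have hτa : τ * g ≤ a := by
    rw [haq]
    exact mul_le_mul_of_nonneg_right x.hτq.le hg0.le
  have hk0 : (0 : ℤ) < k := by exact_mod_cast x.hk0
  obtain ⟨w, y, n1, n2, n3, n4, n5, n6, n7⟩ := KSt.exitFin k h.toKSt h.toKTy x.hs x.he0.le
    (lt_of_lt_of_le m1 hτg) (lt_of_lt_of_le hg0 hτg) hτa x.hh (x.hk2.mul_right e)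
    (fun h1 => x.he2 h1.1) (fun _ _ => x.hk2.mul_right _) (fun _ => x.hk2.mul_right _)
    (fun l hl hl2 => (x.loc l hl hl2).1)
  refine ⟨k * e, w, y, mul_pos hk0 x.he0, m2, x.hE, n1, n2, n3, n4, ?_, n5, n6, n7⟩
  intro h1 l hl hl2 h2 h3
  refine (x.loc l hl hl2).2 h3 (fun h4 => ?_) h2
  exact h1 l hl hl2 (by rw [haq]; exact h4.mul_right g) h3

end Pool.Agent.H4G
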