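import Pool.Agent.Helper83.Sieve
import Pool.Agent.H4G.Asym.R2

/-!
# The general sieve for the K-level (helper26)

`sieveB`: at every prime `p` of `P`, `k` forbidden classes (a predicate `B i p` which forbids at
most one class), locally solvable: there is a good integer in every interval of length `2 ^ (k n)`.
`sieveLin`: `k` linear conditions `¬ p ∣ α p i * x + β p i`, locally solvable, at the primes of `D`.
`sieveCls`: the same with a fixed class `x = c mod m`.
-/

set_option autoImplicit false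

namespace Pool.Agent.H4G

/-- the number of classes is smaller than `p`: a good class is left -/
theorem loc_of_lt {p : ℕ} (F : Finset ℤ) (h : F.card < p) : ∃ y : ℤ, ∀ a ∈ F, ¬ (p : ℤ) ∣ y - a := by
  classical
  by_contra hcon
  push Not at hcon
  have hmap : ∀ y ∈ Finset.range p, ∃ a ∈ F, (p : ℤ) ∣ (y : ℤ) - a := fun y _ => hcon y
  choose! f hf1 hf2 using hmap
  have hcard : (Finset.range p).card ≤ F.card := by
    refine Finset.card_le_card_of_injOn f (fun y hy => hf1 y hy) ?_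
    intro y hy y' hy' he
    have hy0 : y ∈ Finset.range p := hy
    have hy1 : y' ∈ Finset.range p := hy'
    have h1 := hf2 y hy0
    have h2 := hf2 y' hy1
    rw [he] at h1
    have h3 : (p : ℤ) ∣ (y : ℤ) - y' := by
      have := dvd_sub h1 h2
      have e : (y : ℤ) - f y' - ((y' : ℤ) - f y') = (y : ℤ) - y' := by ring
      rwa [e] at this
    have h4 := (Nat.modEq_iff_dvd (n := p) (a := y') (b := y)).2 h3
    rw [Finset.mem_range] at hy0 hy1
    have := Nat.ModEq.eq_of_lt_of_lt h4 hy1 hy0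
    exact this.symm
  rw [Finset.card_range] at hcard
  omega

/-- SIEVE with `k` classes given by predicates -/
theorem sieveB {k : ℕ} (P : Finset ℕ) (hP : ∀ p ∈ P, p.Prime) (B : Fin k → ℕ → ℤ → Prop)
    (h1 : ∀ i, ∀ p ∈ P, ∀ z z' : ℤ, B i p z → B i p z' → (p : ℤ) ∣ z - z')
    (h2 : ∀ p ∈ P, k < p ∨ ∃ y : ℤ, ∀ i z, B i p z → ¬ (p : ℤ) ∣ y - z) (z0 : ℤ) :
    ∃ z, z0 ≤ z ∧ z < z0 + 2 ^ (k * P.card) ∧ ∀ p ∈ P, ∀ i, ¬ B i p z := by
  classical
  obtain ⟨r, hr⟩ : ∃ r : Fin k → ℕ → Finset ℤ, ∀ i p, (r i p).card ≤ 1 ∧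
      (∀ z, B i p z → ∃ a ∈ r i p, B i p a) ∧ ∀ a ∈ r i p, B i p a := by
    refine ⟨fun i p => if h : ∃ z, B i p z then {h.choose} else ∅, fun i p => ?_⟩
    by_cases h : ∃ z, B i p z
    · simp only [dif_pos h]
      exact ⟨by simp, fun z _ => ⟨_, Finset.mem_singleton_self _, h.choose_spec⟩,
        fun a ha => by rw [Finset.mem_singleton.1 ha]; exact h.choose_spec⟩
    · simp only [dif_neg h]
      exact ⟨by simp, fun z hz => absurd ⟨z, hz⟩ h, fun a ha => absurd ha (by simp)⟩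
  have hcard : ∀ p, (Finset.univ.biUnion (fun i => r i p)).card ≤ k := fun p => by
    refine Finset.card_biUnion_le.trans ?_
    calc ∑ i : Fin k, (r i p).card ≤ ∑ _i : Fin k, 1 := Finset.sum_le_sum (fun i _ => (hr i p).1)
      _ = k := by simp
  obtain ⟨x, k1, k2, k3⟩ := CVE.sieve P
    (fun p hp q hq hne => (Nat.coprime_primes (hP p hp) (hP q hq)).2 hne)
    (fun p hp => (hP p hp).pos) (fun p => Finset.univ.biUnion (fun i => r i p)) (fun p hp => by
      rcases h2 p hp with h | ⟨y, hy⟩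
      · exact loc_of_lt _ (lt_of_le_of_lt (hcard p) h)
      · refine ⟨y, fun a ha => ?_⟩
        obtain ⟨i, -, hi⟩ := Finset.mem_biUnion.1 ha
        exact hy i a ((hr i p).2.2 a hi)) z0
  refine ⟨x, k1, lt_of_lt_of_le k2 ?_, fun p hp i hb => ?_⟩
  · have hs : ∑ p ∈ P, (Finset.univ.biUnion (fun i => r i p)).card ≤ k * P.card := by
      calc _ ≤ ∑ _p ∈ P, k := Finset.sum_le_sum (fun p _ => hcard p)
        _ = k * P.card := by rw [Finset.sum_const, smul_eq_mul, mul_comm]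
    have h4 : (2 : ℤ) ^ (∑ p ∈ P, (Finset.univ.biUnion (fun i => r i p)).card) ≤ 2 ^ (k * P.card) :=
      pow_le_pow_right₀ (by norm_num) hs
    linarith
  · obtain ⟨a, ha, hba⟩ := (hr i p).2.1 x hb
    exact k3 p hp a (Finset.mem_biUnion.2 ⟨i, Finset.mem_univ _, ha⟩) (h1 i p hp x a hb hba)

/-- the window: `2 ^ (k ω(D)) ≤ J ^ e` as soon as `k ≤ 2 e` -/
theorem Cap.window {J X D k e : ℕ} (hcap : Cap J X) (hD : D ≠ 0) (hX : D ≤ X) (hk : k ≤ 2 * e) :
    (2 : ℤ) ^ (k * D.primeFactors.card) ≤ (J : ℤ) ^ e := by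
  have h := hcap D hD hX
  have h1 : 2 ^ (k * D.primeFactors.card) ≤ J ^ e := by
    calc 2 ^ (k * D.primeFactors.card) ≤ 2 ^ (2 * e * D.primeFactors.card) :=
          Nat.pow_le_pow_right (by norm_num) (Nat.mul_le_mul_right _ hk)
      _ = (4 ^ D.primeFactors.card) ^ e := by
          rw [← pow_mul, show (4 : ℕ) = 2 ^ 2 by norm_num, ← pow_mul]; congr 1; ring
      _ ≤ J ^ e := Nat.pow_le_pow_left h e
  exact_mod_cast h1

/-- a linear condition forbids at most one class, or every class -/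
theorem lin_cls {p : ℕ} (hp : p.Prime) {α β z z' : ℤ} (hα : ¬ (p : ℤ) ∣ α)
    (h : (p : ℤ) ∣ α * z + β) (h' : (p : ℤ) ∣ α * z' + β) : (p : ℤ) ∣ z - z' := by
  have h3 := dvd_sub h h'
  have e : α * z + β - (α * z' + β) = α * (z - z') := by ring
  rw [e] at h3
  exact ((Nat.prime_iff_prime_int.1 hp).dvd_or_dvd h3).resolve_left hα

/-- SIEVE with `k` linear conditions at the primes of `D` -/
theorem sieveLin {k J X D e : ℕ} (hcap : Cap J X) (hD : D ≠ 0) (hX : D ≤ X) (hk : k ≤ 2 * e)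
    (α β : ℕ → Fin k → ℤ)
    (hloc : ∀ p : ℕ, p.Prime → p ∣ D →
      (k < p ∧ ∀ i, (p : ℤ) ∣ α p i → ¬ (p : ℤ) ∣ β p i) ∨
      ∃ y : ℤ, ∀ i, ¬ (p : ℤ) ∣ α p i * y + β p i) (z0 : ℤ) :
    ∃ z, z0 ≤ z ∧ z < z0 + (J : ℤ) ^ e ∧
      ∀ p : ℕ, p.Prime → p ∣ D → ∀ i, ¬ (p : ℤ) ∣ α p i * z + β p i := by
  classical
  have hα : ∀ p : ℕ, p.Prime → p ∣ D → ∀ i, (p : ℤ) ∣ α p i → ¬ (p : ℤ) ∣ β p i := by
    intro p hp hpD i hd hb
    rcases hloc p hp hpD with ⟨-, h⟩ | ⟨y, hy⟩
    · exact h i hd hb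
    · exact hy i (dvd_add (hd.mul_right _) hb)
  obtain ⟨z, k1, k2, k3⟩ := sieveB D.primeFactors (fun p hp => Nat.prime_of_mem_primeFactors hp)
    (fun i p z => (p : ℤ) ∣ α p i * z + β p i)
    (fun i p hp z z' hz hz' => by
      have hpp := Nat.prime_of_mem_primeFactors hp
      have hpD := Nat.dvd_of_mem_primeFactors hp
      by_cases hd : (p : ℤ) ∣ α p i
      · exact absurd ((dvd_add_right (hd.mul_right z)).1 hz) (hα p hpp hpD i hd)
      · exact lin_cls hpp hd hz hz')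
    (fun p hp => by
      have hpp := Nat.prime_of_mem_primeFactors hp
      have hpD := Nat.dvd_of_mem_primeFactors hp
      rcases hloc p hpp hpD with ⟨h, -⟩ | ⟨y, hy⟩
      · exact Or.inl h
      · refine Or.inr ⟨y, fun i z hz hd => hy i ?_⟩
        have : α p i * y + β p i = (α p i * z + β p i) + α p i * (y - z) := by ring
        rw [this]
        exact dvd_add hz (hd.mul_left _)) z0
  exact ⟨z, k1, lt_of_lt_of_le k2 (by linarith [hcap.window hD hX hk]),
    fun p hp hpD i => k3 p (Nat.mem_primeFactors.2 ⟨hp, hpD, hD⟩) i⟩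

/-- SIEVE with `k` linear conditions at the primes of `D` and a fixed class modulo `m`: `z = c`
modulo `m`; at the primes of `m` the conditions must hold for `c` -/
theorem sieveCls {k J X D e : ℕ} (hcap : Cap J X) (hD : D ≠ 0) (hX : D ≤ X) (hk : k ≤ 2 * e)
    (α β : ℕ → Fin k → ℤ) {m : ℤ} (hm : 0 < m) (c : ℤ)
    (hloc : ∀ p : ℕ, p.Prime → p ∣ D → ¬ (p : ℤ) ∣ m →
      (k < p ∧ ∀ i, (p : ℤ) ∣ α p i → ¬ (p : ℤ) ∣ β p i) ∨
      ∃ y : ℤ, ∀ i, ¬ (p : ℤ) ∣ α p i * y + β p i)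
    (hlm : ∀ p : ℕ, p.Prime → p ∣ D → (p : ℤ) ∣ m → ∀ i, ¬ (p : ℤ) ∣ α p i * c + β p i) (z0 : ℤ) :
    ∃ z, z0 ≤ z ∧ z < z0 + m * (J : ℤ) ^ e ∧ m ∣ z - c ∧
      ∀ p : ℕ, p.Prime → p ∣ D → ∀ i, ¬ (p : ℤ) ∣ α p i * z + β p i := by
  -- z = c0 + m t with c0 = the smallest number ≥ z0 in the class
  set c0 : ℤ := z0 + (c - z0) % m with hc0
  have hc1 : 0 ≤ (c - z0) % m := Int.emod_nonneg _ hm.ne'
  have hc2 : (c - z0) % m < m := Int.emod_lt_of_pos _ hm
  have hc3 : m ∣ c0 - c := by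
    have := Int.emod_emod_of_dvd (c - z0) (dvd_refl m)
    have h := Int.emod_def (c - z0) m
    exact ⟨-((c - z0) / m), by rw [hc0, h]; ring⟩
  obtain ⟨t, t1, t2, t3⟩ := sieveLin hcap hD hX hk (fun p i => α p i * m)
    (fun p i => α p i * c0 + β p i) (fun p hp hpD => by
      by_cases hpm : (p : ℤ) ∣ m
      · right
        refine ⟨0, fun i hd => hlm p hp hpD hpm i ?_⟩
        have : α p i * c + β p i = (α p i * m * 0 + (α p i * c0 + β p i)) - α p i * (c0 - c) := by
          ring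
        rw [this]
        exact dvd_sub hd ((hpm.trans hc3).mul_left _)
      · have hcop : IsCoprime m (p : ℤ) :=
          (((Nat.prime_iff_prime_int.1 hp).coprime_iff_not_dvd).2 hpm).symm
        obtain ⟨x, y, hxy⟩ := hcop
        rcases hloc p hp hpD hpm with ⟨h, h'⟩ | ⟨w, hw⟩
        · left
          refine ⟨h, fun i hd => ?_⟩
          have hα : (p : ℤ) ∣ α p i :=
            ((Nat.prime_iff_prime_int.1 hp).dvd_or_dvd hd).resolve_right hpm
          intro hb
          exact h' i hα ((dvd_add_right (hα.mul_right c0)).1 hb)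
        · right
          refine ⟨x * (w - c0), fun i hd => hw i ?_⟩
          have : α p i * w + β p i = (α p i * m * (x * (w - c0)) + (α p i * c0 + β p i)) +
              p * (α p i * y * (w - c0)) := by
            linear_combination -(α p i * (w - c0)) * hxy
          rw [this]
          exact dvd_add hd (dvd_mul_right _ _)) 0
  refine ⟨c0 + m * t, ?_, ?_, ?_, fun p hp hpD i hd => t3 p hp hpD i ?_⟩
  · have := mul_nonneg hm.le t1
    linarith
  · have ht : t + 1 ≤ (J : ℤ) ^ e := by linarith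
    have := mul_le_mul_of_nonneg_left ht hm.le
    linarith
  · have : c0 + m * t - c = (c0 - c) + m * t := by ring
    rw [this]
    exact dvd_add hc3 (dvd_mul_right _ _)
  · have : α p i * m * t + (α p i * c0 + β p i) = α p i * (c0 + m * t) + β p i := by ring
    rw [this]
    exact hd

end Pool.Agent.H4G
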