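import Pool.Agent.H4G.Ctwo.G2num
import Pool.Agent.H4G.Ctwo.SieveK

/-!
# The type `(1, [4,2,0])`: the arithmetic of the last step (helper37)

FIX-K (helper31's method): the right lattice `{X = y Y mod m}`, `m` odd, has, up to a vertical
shear, the primitive vector `(-k, e)`, `k = 2 ^ n gcd (y, m)`, for all `e` in one class modulo
`G`, `G ^ 2 ≤ m`.
-/

set_option autoImplicit false

namespace Pool.Agent.H4G

/-- three classes modulo a prime `≥ 5` can be avoided -/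
theorem avoid3T {l : ℕ} (h5 : 3 < l) (r1 r2 r3 : ℤ) :
    ∃ x : ℤ, ¬ (l : ℤ) ∣ x - r1 ∧ ¬ (l : ℤ) ∣ x - r2 ∧ ¬ (l : ℤ) ∣ x - r3 := by
  obtain ⟨y, hy⟩ := loc_of_lt (p := l) ({r1, r2, r3} : Finset ℤ)
    (lt_of_le_of_lt Finset.card_le_three h5)
  exact ⟨y, hy r1 (by simp), hy r2 (by simp), hy r3 (by simp)⟩

/-- FIX-K for an odd modulus -/
theorem fixT {J Z : ℕ} {N m y c : ℤ} (hcap : Cap J Z) (hZ : (2 * N) ^ 8 ≤ Z) (hJ : 1 ≤ J)
    (hm2 : ¬ (2 : ℤ) ∣ m) (hy : ¬ m ∣ y) (hmN : m < N)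
    (hlev : ∀ l : ℕ, l.Prime → l ≠ 2 → (l : ℤ) ∣ N → ¬ (l : ℤ) ∣ m ∧ ¬ (l : ℤ) ∣ m + 1)
    (hsz : 2 ^ 8 * (J : ℤ) ^ 4 ≤ m) (hc : ¬ (2 : ℤ) ∣ c) :
    ∃ e k g q2 y1 k1 w : ℤ, 0 < e ∧ e < k ∧ k ≤ m ∧ m ≤ 2 * k ∧ (2 : ℤ) ∣ k ∧ (4 : ℤ) ∣ e - c ∧
      2 * e < m ∧ e ^ 2 ≤ m * (4 * (J : ℤ) ^ 2 + 1) ^ 2 ∧ IsCoprime e m ∧ IsCoprime e k ∧
      IsCoprime (k - e) (m - e) ∧
      (∀ l : ℕ, l.Prime → l ≠ 2 → (l : ℤ) ∣ N → ¬ (l : ℤ) ∣ m - e ∧ ¬ (l : ℤ) ∣ m - e + 1) ∧
      IsCoprime (1 + e) (1 + k) ∧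
      (∀ l : ℕ, l.Prime → l ≠ 2 → (l : ℤ) ∣ 1 + e → ¬ (l : ℤ) ∣ 2 + k) ∧
      m = g * q2 ∧ y = g * y1 ∧ k = g * k1 ∧ IsCoprime y1 q2 ∧ IsCoprime k1 q2 ∧
      q2 ∣ k1 + e * y1 + g * w := by
  have hJ1 : (1 : ℤ) ≤ (J : ℤ) := by exact_mod_cast hJ
  have hJ2 : (1 : ℤ) ≤ (J : ℤ) ^ 2 := one_le_pow₀ hJ1
  have hJ4 : (1 : ℤ) ≤ (J : ℤ) ^ 4 := one_le_pow₀ hJ1
  have hm : 0 < m := by linarith
  have hN : 0 < N := by linarith
  -- the gcd
  obtain ⟨g, q2, y1, hg, em, ey, cy⟩ : ∃ g q2 y1 : ℤ, 0 < g ∧ m = g * q2 ∧ y = g * y1 ∧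
      IsCoprime y1 q2 := by
    have hgne : Int.gcd y m ≠ 0 := by
      intro h
      have := (Int.gcd_eq_zero_iff.1 h).2
      omega
    refine ⟨(Int.gcd y m : ℤ), m / (Int.gcd y m : ℤ), y / (Int.gcd y m : ℤ), ?_, ?_, ?_, ?_⟩
    · exact_mod_cast Nat.pos_of_ne_zero hgne
    · rw [Int.mul_ediv_cancel' (Int.gcd_dvd_right ..)]
    · rw [Int.mul_ediv_cancel' (Int.gcd_dvd_left ..)]
    · exact Int.isCoprime_iff_gcd_eq_one.2
        (Int.gcd_div_gcd_div_gcd (Nat.pos_of_ne_zero hgne))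
  have hq0 : 0 < q2 := by
    by_contra h
    push Not at h
    have : g * q2 ≤ 0 := mul_nonpos_of_nonneg_of_nonpos hg.le h
    linarith
  have hq2 : ¬ (2 : ℤ) ∣ q2 := fun h => hm2 (by rw [em]; exact h.mul_left g)
  have hg2 : ¬ (2 : ℤ) ∣ g := fun h => hm2 (by rw [em]; exact h.mul_right q2)
  have hq1 : q2 ≠ 1 := by
    rintro rfl
    apply hy
    rw [em, mul_one, ey]
    exact Dvd.intro _ rfl
  have hq3 : 3 ≤ q2 := by omega
  -- the power of two
  obtain ⟨n, hn1, hn2, hn3⟩ : ∃ n : ℕ, 1 ≤ n ∧ (2 : ℤ) ^ n ≤ q2 ∧ q2 < 2 * 2 ^ n := by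
    obtain ⟨Q, hQ⟩ := Int.eq_ofNat_of_zero_le hq0.le
    have hQ3 : 3 ≤ Q := by rw [hQ] at hq3; exact_mod_cast hq3
    refine ⟨Nat.log 2 Q, ?_, ?_, ?_⟩
    · exact Nat.log_pos (by norm_num) (by omega)
    · rw [hQ]; exact_mod_cast Nat.pow_log_le_self 2 (by omega)
    · have h1 := Nat.lt_pow_succ_log_self (b := 2) (by norm_num) Q
      rw [pow_succ] at h1
      rw [hQ]
      have h2 : Q < 2 * 2 ^ Nat.log 2 Q := by linarith
      exact_mod_cast h2
  set k1 : ℤ := 2 ^ n with hk1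
  set k : ℤ := g * k1 with hk
  have ck2 : IsCoprime (2 : ℤ) q2 := (Prime.coprime_iff_not_dvd Int.prime_two).2 hq2
  have ck : IsCoprime k1 q2 := ck2.pow_left
  have hk1ev : (2 : ℤ) ∣ k1 := by rw [hk1]; exact dvd_pow_self 2 (by omega)
  have hkev : (2 : ℤ) ∣ k := hk1ev.mul_left g
  have hkm : k ≤ m := by rw [em]; exact mul_le_mul_of_nonneg_left hn2 hg.le
  have hmk : m < 2 * k := by
    rw [em]
    have := mul_lt_mul_of_pos_left hn3 hg
    linarith
  have hkm' : k < m := by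
    rcases lt_or_eq_of_le hkm with h | h
    · exact h
    · exact absurd (h ▸ hkev) hm2
  have hk0 : 0 < k := by linarith
  -- odd primes dividing `k` divide `g`
  have hlk : ∀ l : ℕ, l.Prime → l ≠ 2 → (l : ℤ) ∣ k → (l : ℤ) ∣ g := by
    intro l hl hl2 h
    rcases (Nat.prime_iff_prime_int.1 hl).dvd_or_dvd h with h | h
    · exact h
    · exact absurd ((Nat.prime_iff_prime_int.1 hl).dvd_of_dvd_pow h) (prime_not_dvd_two hl hl2)
  -- `G`
  obtain ⟨G, hG, hGg, hGq, α, β, hαβ⟩ : ∃ G : ℤ, 0 < G ∧ G ∣ g ∧ G ∣ q2 ∧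
      ∃ α β : ℤ, G = g * α + q2 * β := by
    refine ⟨(Int.gcd g q2 : ℤ), ?_, Int.gcd_dvd_left .., Int.gcd_dvd_right .., Int.gcdA g q2,
      Int.gcdB g q2, Int.gcd_eq_gcd_ab g q2⟩
    exact_mod_cast Int.gcd_pos_of_ne_zero_left _ hg.ne'
  have hG2 : ¬ (2 : ℤ) ∣ G := fun h => hg2 (h.trans hGg)
  have hGG : G ^ 2 ≤ m := by
    have h1 := Int.le_of_dvd hg hGg
    have h2 := Int.le_of_dvd hq0 hGq
    rw [em, sq]
    exact mul_le_mul h1 h2 hG.le hg.le
  -- the class modulo `G`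
  obtain ⟨yi, yj, hyi⟩ := cy
  set e0 : ℤ := (-(k1 * yi)) % G with he0
  have he00 := Int.emod_nonneg (-(k1 * yi)) hG.ne'
  have he01 := Int.emod_lt_of_pos (-(k1 * yi)) hG
  have hcls : ∀ t : ℤ, G ∣ k1 + (e0 + G * t) * y1 := by
    intro t
    have h1 := Int.emod_add_mul_ediv (-(k1 * yi)) G
    obtain ⟨qq, hqq⟩ := hGq
    refine ⟨k1 * yj * qq + (t - (-(k1 * yi)) / G) * y1, ?_⟩
    have h2 : e0 = -(k1 * yi) - G * ((-(k1 * yi)) / G) := by rw [he0]; linarith
    rw [h2]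
    linear_combination (-k1) * hyi + k1 * yj * hqq
  have hG4 : (4 : ℤ) ∣ G ^ 2 - 1 := by
    have h1 : G % 2 = 1 := by omega
    obtain ⟨v, hv⟩ : ∃ v, G = 2 * v + 1 := ⟨G / 2, by omega⟩
    exact ⟨v ^ 2 + v, by rw [hv]; ring⟩
  -- the sieve
  have hMpos : 0 < m * k * (m - k) * N * (1 + k) * (2 + k) := by
    have : 0 < m - k := by linarith
    positivity
  obtain ⟨M, hM⟩ := Int.eq_ofNat_of_zero_le hMpos.le
  have hMne : M ≠ 0 := by
    rintro rfl
    rw [hM] at hMpos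
    simp at hMpos
  have hMle : M ≤ Z := by
    have h1 : m * k * (m - k) * N * (1 + k) * (2 + k) ≤ (2 * N) ^ 8 := by
      have a1 : m * k ≤ N * N := mul_le_mul hmN.le (by linarith) hk0.le hN.le
      have a2 : m * k * (m - k) ≤ N * N * N :=
        mul_le_mul a1 (by linarith) (by linarith) (by positivity)
      have a3 : m * k * (m - k) * N ≤ N * N * N * N := mul_le_mul_of_nonneg_right a2 hN.le
      have a4 : m * k * (m - k) * N * (1 + k) ≤ N * N * N * N * (2 * N) :=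
        mul_le_mul a3 (by linarith) (by linarith) (by positivity)
      have a5 : m * k * (m - k) * N * (1 + k) * (2 + k) ≤ N * N * N * N * (2 * N) * (2 * N) :=
        mul_le_mul a4 (by linarith) (by linarith) (by positivity)
      have a6 : N * N * N * N * (2 * N) * (2 * N) ≤ (2 * N) ^ 8 := by
        have b1 : N * N * N * N * (2 * N) * (2 * N) * 1 ≤
            N * N * N * N * (2 * N) * (2 * N) * (64 * N ^ 2) := by
          refine mul_le_mul_of_nonneg_left ?_ (by positivity)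
          have : (1 : ℤ) ≤ N ^ 2 := one_le_pow₀ (by linarith)
          linarith
        have b2 : (2 * N) ^ 8 = N * N * N * N * (2 * N) * (2 * N) * (64 * N ^ 2) := by ring
        rw [b2]; linarith
      linarith
    have h2 : ((M : ℕ) : ℤ) ≤ (Z : ℤ) := by rw [← hM]; linarith
    exact_mod_cast h2
  have h8 := hcap.eight hMne hMle
  obtain ⟨t, t1, t2, t3, t4⟩ := sieve3 hMne 2 (fun l t =>
      ((l : ℤ) ∣ m → ¬ (l : ℤ) ∣ (e0 - 0) + G * t) ∧
      ((l : ℤ) ∣ m - k → ¬ (l : ℤ) ∣ (e0 - m) + G * t) ∧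
      ((l : ℤ) ∣ N → ¬ (l : ℤ) ∣ (e0 - m) + G * t ∧ ¬ (l : ℤ) ∣ (e0 - (m + 1)) + G * t) ∧
      ((l : ℤ) ∣ (1 + k) * (2 + k) → ¬ (l : ℤ) ∣ (e0 - (-1)) + G * t))
    (by
      intro l hl hl2 _
      have hlp := Nat.prime_iff_prime_int.1 hl
      by_cases hlG : (l : ℤ) ∣ G
      · -- every `t` is good
        have hlg := hlG.trans hGg
        have hlq := hlG.trans hGq
        have hlm : (l : ℤ) ∣ m := by rw [em]; exact hlg.mul_right q2
        have hlk' : (l : ℤ) ∣ k := hlg.mul_right k1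
        have key : ∀ t : ℤ, ¬ (l : ℤ) ∣ e0 + G * t := by
          intro t h
          have h1 := hlG.trans (hcls t)
          have h2 : (l : ℤ) ∣ k1 := (dvd_add_left (h.mul_right y1)).1 h1
          exact not_dvd_of_isCoprime ck hl hlq h2
        refine ⟨0, 0, 0, ?_, 1, ?_, ?_, ?_⟩
        · intro t _ _ _
          refine ⟨fun _ => ?_, fun _ h => ?_, fun h => ?_, fun h => ?_⟩
          · have := key t
            rwa [sub_zero]
          · apply key t
            have h2 := dvd_add h hlm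
            have e1 : e0 - m + G * t + m = e0 + G * t := by ring
            rwa [e1] at h2
          · exact absurd hlm (hlev l hl hl2 h).1
          · exfalso
            rcases hlp.dvd_or_dvd h with h | h
            · have := (dvd_add_left hlk').1 h
              exact prime_not_dvd_one hl this
            · have := (dvd_add_left hlk').1 h
              exact prime_not_dvd_two hl hl2 this
        all_goals
          rw [sub_zero]
          exact prime_not_dvd_one hl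
      · have hcl : ∀ a : ℤ, ∃ r : ℤ, ∀ t : ℤ, ¬ (l : ℤ) ∣ t - r → ¬ (l : ℤ) ∣ (e0 - a) + G * t :=
          fun a => lin_class hl (fun h => absurd h hlG)
        obtain ⟨r0, hr0⟩ := hcl 0
        obtain ⟨r1, hr1⟩ := hcl (-1)
        obtain ⟨r2, hr2⟩ := hcl m
        obtain ⟨r3, hr3⟩ := hcl (m + 1)
        by_cases hlm : (l : ℤ) ∣ m
        · obtain ⟨x, x1, x2⟩ := avoid2 hl hl2 r0 r1
          refine ⟨r0, r1, r1, ?_, x, x1, x2, x2⟩
          intro t h1 h2 _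
          refine ⟨fun _ => hr0 t h1, fun _ h => ?_, fun h => ?_, fun _ => hr1 t h2⟩
          · apply hr0 t h1
            have h2 := dvd_add h hlm
            have e1 : e0 - m + G * t + m = e0 - 0 + G * t := by ring
            rwa [e1] at h2
          · exact absurd hlm (hlev l hl hl2 h).1
        · by_cases h3 : l = 3
          · subst h3
            by_cases hN3 : ((3 : ℕ) : ℤ) ∣ N
            · -- `m = 1 mod 3`
              obtain ⟨n1, n2⟩ := hlev 3 hl hl2 hN3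
              obtain ⟨x, x1, x2⟩ := avoid2 hl hl2 r2 r3
              refine ⟨r2, r3, r3, ?_, x, x1, x2, x2⟩
              intro t h1 h2 _
              have g1 := hr2 t h1
              have g2 := hr3 t h2
              refine ⟨fun h => absurd h hlm, fun _ => g1, fun _ => ⟨g1, g2⟩, fun _ h => ?_⟩
              apply g2
              push_cast at n1 n2 h ⊢
              omega
            · obtain ⟨x, x1, x2⟩ := avoid2 hl hl2 r2 r1
              refine ⟨r2, r1, r1, ?_, x, x1, x2, x2⟩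
              intro t h1 h2 _
              exact ⟨fun h => absurd h hlm, fun _ => hr2 t h1, fun h => absurd h hN3,
                fun _ => hr1 t h2⟩
          · have hl3 : 3 < l := by
              have := hl.two_le
              omega
            obtain ⟨x, x1, x2, x3⟩ := avoid3T hl3 r1 r2 r3
            refine ⟨r1, r2, r3, ?_, x, x1, x2, x3⟩
            intro t h1 h2 h3
            exact ⟨fun h => absurd h hlm, fun _ => hr2 t h2, fun _ => ⟨hr2 t h2, hr3 t h3⟩,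
              fun _ => hr1 t h1⟩)
    (G * (c - e0)) 1
  have t2' : t ≤ 4 * (J : ℤ) ^ 2 := by
    have h1 : (2 : ℤ) ^ 2 * 8 ^ M.primeFactors.card ≤ 4 * (J : ℤ) ^ 2 := by linarith
    linarith
  set e : ℤ := e0 + G * t with he
  have he0' : 0 < e := by
    have : G * 1 ≤ G * t := mul_le_mul_of_nonneg_left t1 hG.le
    linarith
  have heG : e ≤ G * (4 * (J : ℤ) ^ 2 + 1) := by
    have : G * t ≤ G * (4 * (J : ℤ) ^ 2) := mul_le_mul_of_nonneg_left t2' hG.le
    linarith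
  have hesq : e ^ 2 ≤ m * (4 * (J : ℤ) ^ 2 + 1) ^ 2 := by
    calc e ^ 2 ≤ (G * (4 * (J : ℤ) ^ 2 + 1)) ^ 2 := pow_le_pow_left₀ he0'.le heG 2
      _ = G ^ 2 * (4 * (J : ℤ) ^ 2 + 1) ^ 2 := by ring
      _ ≤ _ := mul_le_mul_of_nonneg_right hGG (by positivity)
  have h2e : 2 * e < m := by
    by_contra hcon
    push Not at hcon
    have h1 : m ^ 2 ≤ (2 * e) ^ 2 := pow_le_pow_left₀ hm.le hcon 2
    have h2 : (4 * (J : ℤ) ^ 2 + 1) ^ 2 ≤ 25 * (J : ℤ) ^ 4 := by nlinarith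
    have h3 : m * (4 * (J : ℤ) ^ 2 + 1) ^ 2 ≤ m * (25 * (J : ℤ) ^ 4) :=
      mul_le_mul_of_nonneg_left h2 hm.le
    have h4 : m * m ≤ m * (100 * (J : ℤ) ^ 4) := by nlinarith
    have h5 := le_of_mul_le_mul_left h4 hm
    linarith
  have hodd : (4 : ℤ) ∣ e - c := by
    obtain ⟨v, hv⟩ := t3
    obtain ⟨v', hv'⟩ := hG4
    refine ⟨G * v + (c - e0) * v', ?_⟩
    rw [he]
    linear_combination G * hv + (c - e0) * hv'
  have he2 : ¬ (2 : ℤ) ∣ e := by omega
  -- the properties of `e`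
  have pm : ∀ l : ℕ, l.Prime → l ≠ 2 → (l : ℤ) ∣ m → ¬ (l : ℤ) ∣ e := by
    intro l hl hl2 h h'
    have := (t4 l hl hl2 (by
      rw [← hM]
      exact ((((h.mul_right _).mul_right _).mul_right _).mul_right _).mul_right _)).1 h
    rw [sub_zero] at this
    exact this h'
  have pmk : ∀ l : ℕ, l.Prime → l ≠ 2 → (l : ℤ) ∣ m - k → ¬ (l : ℤ) ∣ m - e := by
    intro l hl hl2 h h'
    refine (t4 l hl hl2 (by
      rw [← hM]
      exact (((h.mul_left _).mul_right _).mul_right _).mul_right _)).2.1 h ?_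
    have e1 : e0 - m + G * t = -(m - e) := by rw [he]; ring
    rw [e1]; exact (dvd_neg).2 h'
  have pN : ∀ l : ℕ, l.Prime → l ≠ 2 → (l : ℤ) ∣ N →
      ¬ (l : ℤ) ∣ m - e ∧ ¬ (l : ℤ) ∣ m - e + 1 := by
    intro l hl hl2 h
    have h3 := (t4 l hl hl2 (by
      rw [← hM]
      exact ((h.mul_left _).mul_right _).mul_right _)).2.2.1 h
    refine ⟨fun h' => h3.1 ?_, fun h' => h3.2 ?_⟩
    · have e1 : e0 - m + G * t = -(m - e) := by rw [he]; ring
      rw [e1]; exact (dvd_neg).2 h'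
    · have e1 : e0 - (m + 1) + G * t = -(m - e + 1) := by rw [he]; ring
      rw [e1]; exact (dvd_neg).2 h'
  have pk : ∀ l : ℕ, l.Prime → l ≠ 2 → (l : ℤ) ∣ 1 + e → ¬ (l : ℤ) ∣ (1 + k) * (2 + k) := by
    intro l hl hl2 h' h
    refine (t4 l hl hl2 (by
      rw [← hM, mul_assoc]
      exact h.mul_left _)).2.2.2 h ?_
    have e1 : e0 - -1 + G * t = 1 + e := by rw [he]; ring
    rw [e1]; exact h'
  refine ⟨e, k, g, q2, y1, k1, -(α * ((k1 + e * y1) / G)), he0', by linarith, hkm, hmk.le, hkev,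
    hodd, h2e, hesq, ?_, ?_, ?_, pN, ?_, ?_, em, ey, hk, ⟨yi, yj, hyi⟩, ck, ?_⟩
  · apply isCoprime_of_prime
    intro l hl h2 h1
    by_cases hl2 : l = 2
    · subst hl2; exact hm2 (by exact_mod_cast h2)
    · exact pm l hl hl2 h2 h1
  · apply isCoprime_of_prime
    intro l hl h2 h1
    by_cases hl2 : l = 2
    · subst hl2; exact he2 (by exact_mod_cast h1)
    · exact pm l hl hl2 (by rw [em]; exact (hlk l hl hl2 h2).mul_right _) h1
  · apply isCoprime_of_prime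
    intro l hl h2 h1
    by_cases hl2 : l = 2
    · subst hl2
      have h3 : (2 : ℤ) ∣ k - e := by exact_mod_cast h1
      omega
    · refine pmk l hl hl2 ?_ h2
      have := dvd_sub h2 h1
      have e1 : m - e - (k - e) = m - k := by ring
      rwa [e1] at this
  · apply isCoprime_of_prime
    intro l hl h2 h1
    by_cases hl2 : l = 2
    · subst hl2
      have h3 : (2 : ℤ) ∣ 1 + k := by exact_mod_cast h2
      omega
    · exact pk l hl hl2 h1 (h2.mul_right _)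
  · intro l hl hl2 h1 h2
    exact pk l hl hl2 h1 (h2.mul_left _)
  · obtain ⟨v, hv⟩ := hcls t
    rw [← he] at hv
    have e1 : (k1 + e * y1) / G = v := by rw [hv]; exact Int.mul_ediv_cancel_left _ hG.ne'
    rw [e1, hv, hαβ]
    exact ⟨β * v, by ring⟩

end Pool.Agent.H4G
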