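import Pool.Agent.H4G.Ctwo.T1420a
import Pool.Agent.H4G.Ctwo.Jump
import Pool.Agent.H4G.Ctwo.G1

/-!
# The type `(1, [4,2,0])`: the last step (helper37)

`KC.lastT` : from a state with `c = 1`, `p` a unit, `q` even, at a good level, any right slope `y`:
one right exit (`e` odd), controlled landing on the left, mirror: both cusps are trivial.
-/

set_option autoImplicit false

namespace Pool.Agent.H4G

open MatrixGroups

/-- THE LANDING VECTOR for odd `e`, even `a`: `X (1 + e) - Y (1 + k) = 1`, `X` even, `Y` prime to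
`a`, `Y + e` prime to `a + e`. -/
theorem exists_XYodd {J Z : ℕ} {a e k : ℤ} (hcap : Cap J Z) (ha : 0 < a) (he : 0 < e)
    (hZ : a * (a + e) ≤ Z) (ha2 : (2 : ℤ) ∣ a) (_he2 : ¬ (2 : ℤ) ∣ e) (hk2 : (2 : ℤ) ∣ k)
    (hc : IsCoprime (1 + e) (1 + k))
    (hB : ∀ l : ℕ, l.Prime → l ≠ 2 → (l : ℤ) ∣ 1 + e → ¬ (l : ℤ) ∣ 2 + k)
    (hsize : (1 + e) * (2 * (J : ℤ) ^ 2 + 2) ≤ a) :
    ∃ X Y : ℤ, X * (1 + e) - Y * (1 + k) = 1 ∧ 0 < Y ∧ Y ≤ a ∧ (2 : ℤ) ∣ X ∧ IsCoprime Y a ∧
      IsCoprime (Y + e) (a + e) := by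
  have he1 : 0 < 1 + e := by linarith
  -- `x0 * 2 (1+e) + y0 (1+k) = 1`
  have hc2 : IsCoprime (2 * (1 + e)) (1 + k) := by
    refine IsCoprime.mul_left ?_ hc
    exact (Prime.coprime_iff_not_dvd Int.prime_two).2 (by omega)
  obtain ⟨x0, y0, hxy⟩ := hc2
  have hM0 : 0 < a * (a + e) := by positivity
  obtain ⟨M, hM⟩ := Int.eq_ofNat_of_zero_le hM0.le
  have hMne : M ≠ 0 := by
    rintro rfl
    rw [hM] at hM0
    simp at hM0
  have hMle : M ≤ Z := by rw [hM] at hZ; exact_mod_cast hZ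
  have h8 := hcap.eight hMne hMle
  -- the start of the window
  obtain ⟨s, hs1, hs2⟩ : ∃ s : ℤ, 0 < -y0 + 2 * (1 + e) * s ∧
      -y0 + 2 * (1 + e) * s ≤ 2 * (1 + e) := by
    have h2 : 0 < 2 * (1 + e) := by linarith
    refine ⟨y0 / (2 * (1 + e)) + 1, ?_, ?_⟩
    · have := Int.emod_lt_of_pos y0 h2
      have e1 := Int.emod_add_mul_ediv y0 (2 * (1 + e))
      nlinarith
    · have := Int.emod_nonneg y0 h2.ne'
      have e1 := Int.emod_add_mul_ediv y0 (2 * (1 + e))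
      nlinarith
  obtain ⟨t, t1, t2, _, t4⟩ := sieve3 hMne 0 (fun l t =>
      ((l : ℤ) ∣ a → ¬ (l : ℤ) ∣ -y0 + 2 * (1 + e) * t) ∧
      ((l : ℤ) ∣ a + e → ¬ (l : ℤ) ∣ (-y0 + e) + 2 * (1 + e) * t))
    (by
      intro l hl hl2 _
      have hlp := Nat.prime_iff_prime_int.1 hl
      have hle : (l : ℤ) ∣ 2 * (1 + e) → (l : ℤ) ∣ 1 + e := by
        intro h
        rcases hlp.dvd_or_dvd h with h | h
        · exact absurd h (prime_not_dvd_two hl hl2)
        · exact h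
      obtain ⟨r1, hr1⟩ := lin_class hl (α := -y0) (β := 2 * (1 + e)) (by
        intro h1 h2
        have h3 : (l : ℤ) ∣ 1 := by
          rw [← hxy]
          exact dvd_add (h1.mul_left x0) (((dvd_neg).1 h2).mul_right _)
        exact prime_not_dvd_one hl h3)
      obtain ⟨r2, hr2⟩ := lin_class hl (α := -y0 + e) (β := 2 * (1 + e)) (by
        intro h1 h2
        have h1' := hle h1
        apply hB l hl hl2 h1'
        have h3 : (l : ℤ) ∣ y0 + 1 := by
          have := dvd_sub h1' h2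
          have e1 : 1 + e - (-y0 + e) = y0 + 1 := by ring
          rwa [e1] at this
        have h7 := dvd_add (h3.mul_right (1 + k)) (h1.mul_left x0)
        have e2 : (y0 + 1) * (1 + k) + x0 * (2 * (1 + e)) = 2 + k := by
          linear_combination hxy
        rwa [e2] at h7)
      obtain ⟨x, x1, x2⟩ := avoid2 hl hl2 r1 r2
      exact ⟨r1, r2, r2, fun t h1 h2 _ => ⟨fun _ => hr1 t h1, fun _ => hr2 t h2⟩, x, x1, x2, x2⟩)
    0 s
  rw [pow_zero, one_mul] at t2
  have ht2 : t ≤ s + (J : ℤ) ^ 2 - 1 := by linarith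
  have hY0 : 0 < -y0 + 2 * (1 + e) * t := by
    have : 2 * (1 + e) * s ≤ 2 * (1 + e) * t := mul_le_mul_of_nonneg_left t1 (by linarith)
    linarith
  have hodd : ¬ (2 : ℤ) ∣ -y0 + 2 * (1 + e) * t := by
    intro h
    have h1 : (2 : ℤ) ∣ y0 := by
      have h2 : (2 : ℤ) ∣ 2 * (1 + e) * t := ⟨(1 + e) * t, by ring⟩
      have := (dvd_add_left h2).1 h
      exact (dvd_neg).1 this
    have h3 : (2 : ℤ) ∣ 1 := by
      rw [← hxy]
      exact dvd_add (Dvd.intro (x0 * (1 + e)) (by ring)) (h1.mul_right _)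
    norm_num at h3
  refine ⟨2 * (x0 + (1 + k) * t), -y0 + 2 * (1 + e) * t, ?_, hY0, ?_, Dvd.intro _ rfl, ?_, ?_⟩
  · linear_combination hxy
  · have h6 : 2 * (1 + e) * t ≤ 2 * (1 + e) * (s + (J : ℤ) ^ 2 - 1) :=
      mul_le_mul_of_nonneg_left ht2 (by linarith)
    nlinarith
  · apply isCoprime_of_prime
    intro l hl h2 h1
    by_cases hl2 : l = 2
    · subst hl2; exact hodd (by exact_mod_cast h1)
    · exact (t4 l hl hl2 (by rw [← hM]; exact h2.mul_right _)).1 h2 h1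
  · apply isCoprime_of_prime
    intro l hl h2 h1
    by_cases hl2 : l = 2
    · subst hl2
      have h3 : (2 : ℤ) ∣ a + e := by exact_mod_cast h2
      omega
    · refine (t4 l hl hl2 (by rw [← hM]; exact h2.mul_left _)).2 h2 ?_
      have e1 : -y0 + e + 2 * (1 + e) * t = -y0 + 2 * (1 + e) * t + e := by ring
      rw [e1]; exact h1

/-- the right lattice `{X = y Y}` up to a vertical shear -/
theorem Lc_target {m g q2 y y1 k k1 e w : ℤ} (em : m = g * q2) (ey : y = g * y1) (ek : k = g * k1)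
    (cy : IsCoprime y1 q2) (ck : IsCoprime k1 q2) (h2 : IsCoprime 2 q2) (ce : IsCoprime e m)
    (hw : q2 ∣ k1 + e * y1 + g * w) : ∃ j : ℤ, Lc m (1 + 2 * j * y) (-y) = Lc m e k := by
  obtain ⟨yi, yj, hyi⟩ := cy
  obtain ⟨v, hv⟩ := hw
  -- `w1 y1 = w mod q2`
  set w1 : ℤ := w * yi with hw1
  set t : ℤ := e + g * w1 with ht
  have hty : q2 ∣ t * y1 + k1 := ⟨v - g * w * yj, by
    rw [ht, hw1]; linear_combination hv + (g * w) * hyi⟩
  have ct : IsCoprime m t := by
    rw [em]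
    refine IsCoprime.mul_left ?_ ?_
    · have h3 : IsCoprime e g := ce.of_isCoprime_of_dvd_right ⟨q2, em⟩
      rw [ht]
      have : IsCoprime (e + g * w1) g := h3.add_mul_left_left w1
      exact this.symm
    · have h3 : IsCoprime (t * y1) q2 := by
        obtain ⟨v', hv'⟩ := hty
        have h4 : t * y1 = -k1 + q2 * v' := by linear_combination hv'
        rw [h4]
        exact ck.neg_left.add_mul_left_left v'
      exact (IsCoprime.of_mul_left_left h3).symm
  -- `j`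
  have c2k : IsCoprime (2 * k1) q2 := h2.mul_left ck
  obtain ⟨ki, kj, hki⟩ := c2k
  refine ⟨w1 * ki, ?_⟩
  rw [← Lc_unit (a := m) (p := 1 + 2 * (w1 * ki) * y) (q := -y) (t := t) ct]
  obtain ⟨v', hv'⟩ := hty
  refine Lc_congr ?_ ?_
  · refine ⟨-(w1 * kj + 2 * (w1 * ki) * v'), ?_⟩
    rw [em, ey]
    rw [ht] at hv' ⊢
    linear_combination (-(2 * g * w1 * ki)) * hv' + (g * w1) * hki
  · refine ⟨v', ?_⟩
    rw [em, ey, ek]
    linear_combination g * hv'

end Pool.Agent.H4G
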