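import Pool.Agent.H4G.Ctwo.Start
import Pool.Agent.H4G.Ctwo.FinT

/-!
# The type `(1, [4,2,0])`: the input of the first move (helper37)
-/

set_option autoImplicit false

namespace Pool.Agent.H4G

/-- the input of the first move, type `(1, [4,2,0])` -/
structure TIn (J : ℕ) (N a z a' p' q' : ℤ) : Prop extends KSt N a z a' p' q' where
  ao : ¬ (2 : ℤ) ∣ a
  ae : (2 : ℤ) ∣ a'
  pe : (2 : ℤ) ∣ p'
  frz : ∀ l : ℕ, l.Prime → (l : ℤ) ∣ a' → (l : ℤ) ∣ p' → (l : ℤ) ∣ a + 1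
  big : N ≤ a * (J : ℤ) ^ 6
  idx : ∀ r c : ℤ, a' = r * c → c = (Int.gcd p' a' : ℤ) → (Int.gcd a (r + 1) : ℤ) * J ^ 12 ≤ a

/-- START for the type `(1, [4,2,0])` -/
theorem KSt.topT {J Z : ℕ} {N a z a' p' q' : ℤ} (B : Big N J Z) (S : KSt N a z a' p' q')
    (ha2 : ¬ (2 : ℤ) ∣ a) (ha'2 : (2 : ℤ) ∣ a') (hp2 : (2 : ℤ) ∣ p') :
    ∃ b w b' p1 q1 : ℤ, TIn J N b w b' p1 q1 ∧
      SEq (KC a z (-1) a' p' q') (KC b w (-1) b' p1 q1) := by
  have hao : Odd a := by rw [← Int.not_even_iff_odd, even_iff_two_dvd]; exact ha2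
  have hae' : Even a' := even_iff_two_dvd.2 ha'2
  have hn : nL a z + nL a' q' ≠ 0 := by
    rw [nL_odd hao]; omega
  obtain ⟨b, w, b', p1, q1, k1, k2, k3, k4⟩ := KSt.top B _ S hn rfl
  have hg : 0 < Int.gcd p1 b' := Int.gcd_pos_of_ne_zero_right _ k1.ha'.ne'
  have hg' : (0 : ℤ) < (Int.gcd p1 b' : ℤ) := by exact_mod_cast hg
  obtain ⟨r, hr⟩ : (Int.gcd p1 b' : ℤ) ∣ b' := Int.gcd_dvd_right _ _
  have hr' : b' = r * (Int.gcd p1 b' : ℤ) := by rw [mul_comm]; exact hr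
  have hr0 : 0 < r := by
    have := k1.ha'
    rw [hr'] at this
    exact (mul_pos_iff_of_pos_right hg').1 this
  have hNe : (2 : ℤ) ∣ N := by
    have := S.hN
    omega
  -- parities
  have hb2 : ¬ (2 : ℤ) ∣ b := by
    intro hb
    have hbe : Even b := even_iff_two_dvd.2 hb
    have hbo : Odd b' := by
      rw [← Int.not_even_iff_odd, even_iff_two_dvd]
      have := k1.hN
      omega
    have h1 := (SEq.T4_eo hbe hbo (Prm_left b w) hao hae' S.hP k2.symm).2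
      (even_iff_two_dvd.2 hp2)
    rw [even_iff_two_dvd] at h1
    omega
  have hbo : Odd b := by rw [← Int.not_even_iff_odd, even_iff_two_dvd]; exact hb2
  have hb'2 : (2 : ℤ) ∣ b' := by
    have := k1.hN
    omega
  have hbe' : Even b' := even_iff_two_dvd.2 hb'2
  have hp12 : (2 : ℤ) ∣ p1 := even_iff_two_dvd.1
    ((SEq.T4_oo hao hae' S.hP hbo hbe' k1.hP k2).1 (even_iff_two_dvd.2 hp2))
  have hr1 : r < 4096 * (J : ℤ) ^ 4 := by
    rcases k4 r _ hr' rfl with h1 | h1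
    · exfalso
      have h2 : (2 : ℤ) ∣ (Int.gcd p1 b' : ℤ) := Int.dvd_coe_gcd hp12 hb'2
      rw [h1] at h2
      norm_num at h2
    · exact h1
  -- the sizes
  have hJ : (2 : ℤ) ^ 20 ≤ J := by exact_mod_cast B.J0
  have hJ1 : (1 : ℤ) ≤ J := by linarith
  have hJ0 : (0 : ℤ) < J := by linarith
  have h2 : r + 1 ≤ (J : ℤ) ^ 5 := by
    have h3 : 4096 * (J : ℤ) ^ 4 ≤ J * (J : ℤ) ^ 4 := by
      have : (0 : ℤ) ≤ (J : ℤ) ^ 4 := by positivity
      exact mul_le_mul_of_nonneg_right (by linarith) this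
    have h4 : J * (J : ℤ) ^ 4 = (J : ℤ) ^ 5 := by ring
    linarith
  have h3 : (Int.gcd p1 b' : ℤ) ≤ b + 1 := Int.le_of_dvd (by linarith [k1.ha]) k3
  have h4 : N ≤ (b + 1) * (J : ℤ) ^ 5 := by
    have e1 : N = (b + 1) + r * (Int.gcd p1 b' : ℤ) := by rw [← hr', ← k1.hN]
    have e2 : r * (Int.gcd p1 b' : ℤ) ≤ r * (b + 1) := mul_le_mul_of_nonneg_left h3 hr0.le
    have e3 : (b + 1) * (r + 1) ≤ (b + 1) * (J : ℤ) ^ 5 :=
      mul_le_mul_of_nonneg_left h2 (by linarith [k1.ha])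
    linarith
  have h5 : N ≤ b * (J : ℤ) ^ 6 := by
    have e1 : (b + 1) * (J : ℤ) ^ 5 ≤ (2 * b) * (J : ℤ) ^ 5 :=
      mul_le_mul_of_nonneg_right (by linarith [k1.ha]) (by positivity)
    have e2 : (2 * b) * (J : ℤ) ^ 5 ≤ (J * b) * (J : ℤ) ^ 5 :=
      mul_le_mul_of_nonneg_right (mul_le_mul_of_nonneg_right (by linarith) k1.ha.le)
        (by positivity)
    have e3 : (J * b) * (J : ℤ) ^ 5 = b * (J : ℤ) ^ 6 := by ring
    linarith
  have h6 : (J : ℤ) ^ 194 ≤ b := by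
    have e1 : (J : ℤ) ^ 194 * (J : ℤ) ^ 6 ≤ b * (J : ℤ) ^ 6 := by
      rw [← pow_add]
      exact B.hN.trans h5
    exact le_of_mul_le_mul_right e1 (by positivity)
  refine ⟨b, w, b', p1, q1, ⟨k1, hb2, hb'2, hp12, ?_, h5, ?_⟩, k2⟩
  · intro l hl d1 d2
    exact (Int.dvd_coe_gcd d2 d1).trans k3
  · intro r' c' e1 e2
    have e3 : r' = r := by
      rw [e2] at e1
      exact mul_right_cancel₀ hg'.ne' (e1.symm.trans hr')
    rw [e3]
    have e4 : (Int.gcd b (r + 1) : ℤ) ≤ r + 1 := Int.le_of_dvd (by linarith) (Int.gcd_dvd_right _ _)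
    calc (Int.gcd b (r + 1) : ℤ) * (J : ℤ) ^ 12 ≤ (J : ℤ) ^ 5 * (J : ℤ) ^ 12 := by
          gcongr; linarith
      _ = (J : ℤ) ^ 17 := by ring
      _ ≤ (J : ℤ) ^ 194 := pow_le_pow_right₀ hJ1 (by norm_num)
      _ ≤ b := h6

end Pool.Agent.H4G
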